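import Pool.Agent.Lib.MP_ad48ef_co.Region

/-!
# Ordered breadth first search trees and finite descriptions of their subtrees
-/

set_option synthInstance.maxSize 4000

namespace Pool.Agent.Lib.MP_ad48ef_co

open Pool.Agent.Shared.Planar

variable {V : Type} {G : SimpleGraph V}

structure Bfs (G : SimpleGraph V) extends Tree G where
  key : V → ℕ
  dep0 : dep root = 0
  dpar : ∀ v, v ≠ root → dep v = dep (par v) + 1
  le3 : ∀ v, dep v ≤ 3
  lip : ∀ a b, G.Adj a b → dep a ≤ dep b + 1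
  min : ∀ v q, G.Adj v q → dep v = dep q + 1 → key (par v) ≤ key q
  mono : ∀ p q, dep p = 2 → dep q = 2 → key (par p) < key (par q) → key p < key q
  inj : ∀ p q, dep p = dep q → key p = key q → p = q

theorem exists_bfs [Finite V] (h : D3 G) (x : V) (Z : Set V) : ∃ B : Bfs G, B.root = x ∧
    ∀ p q, B.dep p = 1 → B.dep q = 1 → B.key q ≤ B.key p → p ∈ Z → q ∈ Z := by
  classical
  let L : ℕ → V → Prop := fun n => Nat.rec (fun v => v = x) (fun _ p v => ∃ y, p y ∧ Wk G y v) n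
  have h3 : ∀ v, L 3 v := fun v =>
    let ⟨a, b, h1, h2, h3⟩ := h x v; ⟨b, ⟨a, ⟨x, rfl, h1⟩, h2⟩, h3⟩
  let d : V → ℕ := fun v => sInf {n | L n v}
  have d1 : ∀ v, L (d v) v := fun v => Nat.sInf_mem (s := {n | L n v}) ⟨3, h3 v⟩
  have d2 : ∀ v n, L n v → d v ≤ n := fun v n m => Nat.sInf_le m
  have lip : ∀ a b, G.Adj a b → d a ≤ d b + 1 := fun a b e => d2 _ _ ⟨b, d1 b, Or.inr e.symm⟩
  have d0 : d x = 0 := Nat.le_zero.1 (d2 x 0 rfl)
  have ex : ∀ v, v ≠ x → ∃ q, G.Adj v q ∧ d v = d q + 1 := by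
    intro v hv
    have := d1 v
    rcases m : d v with _ | n <;> rw [m] at this
    · exact absurd this hv
    obtain ⟨y, y1, rfl | y2⟩ := this
    · have := d2 _ _ y1; omega
    · have := d2 _ _ y1
      have := lip _ _ y2.symm
      exact ⟨y, y2.symm, by omega⟩
  obtain ⟨N, e, eN, ei, eZ⟩ : ∃ (N : ℕ) (e : V → ℕ), (∀ v, e v < N) ∧ Function.Injective e ∧
      ∀ p q, e q ≤ e p → p ∈ Z → q ∈ Z := by
    obtain ⟨N, ⟨e⟩⟩ := Finite.exists_equiv_fin V
    refine ⟨N + N, fun v => if v ∈ Z then e v else N + e v, fun v => ?_, fun p q k => ?_,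
      fun p q k m => by_contra fun n => ?_⟩
    · have := (e v).2
      dsimp only
      split_ifs <;> omega
    · have := (e p).2
      have := (e q).2
      dsimp only at k
      split_ifs at k <;> exact e.injective (Fin.ext (by omega))
    · have := (e p).2
      simp only [m, n, if_true, if_false] at k
      omega
  let mn : V → ℕ := fun v => sInf {k | ∃ q, (G.Adj v q ∧ d v = d q + 1) ∧ k = e q}
  let key : V → ℕ := fun v => if d v = 2 then N * mn v + e v else e v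
  have hp : ∀ v, ∃ p, (v = x → p = x) ∧ (v ≠ x → (G.Adj v p ∧ d v = d p + 1) ∧
      ∀ q, G.Adj v q ∧ d v = d q + 1 → key p ≤ key q) := by
    intro v
    by_cases m : v = x
    · exact ⟨x, fun _ => rfl, fun k => absurd m k⟩
    obtain ⟨p, p1, p2⟩ := (measure key).wf.has_min {q | G.Adj v q ∧ d v = d q + 1} (ex v m)
    exact ⟨p, fun k => absurd k m, fun _ => ⟨p1, fun q k => not_lt.1 (p2 q k)⟩⟩
  choose par p1 p2 using hp
  have nx : ∀ v n, d v = n + 1 → v ≠ x := by rintro v n m rfl; omega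
  have hm : ∀ p, d p = 2 → key (par p) = mn p := by
    intro p m
    obtain ⟨a, b⟩ := p2 p (nx p 1 m)
    obtain ⟨q, q1, q2⟩ := Nat.sInf_mem (s := {k | ∃ q, (G.Adj p q ∧ d p = d q + 1) ∧ k = e q})
      ⟨_, _, a, rfl⟩
    have c1 := b q q1
    have c2 : mn p ≤ e (par p) := Nat.sInf_le ⟨_, a, rfl⟩
    have c3 : mn p = e q := q2
    simp only [key, if_neg (by omega : ¬ d (par p) = 2), if_neg (by omega : ¬ d q = 2)] at c1 ⊢
    omega
  refine ⟨⟨⟨x, par, d, p1 x rfl, fun v m => (p2 v m).1.1, fun v m => by have := (p2 v m).1.2; omega⟩,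
    key, d0, fun v m => (p2 v m).1.2, fun v => d2 v 3 (h3 v), lip,
    fun v q a b => (p2 v (nx v _ b)).2 q ⟨a, b⟩, fun p q (a : d p = 2) (b : d q = 2) c => ?_,
    fun p q (a : d p = d q) b => ?_⟩, rfl, fun p q (a : d p = 1) (b : d q = 1) c => eZ p q ?_⟩
  · replace c : key (par p) < key (par q) := c
    rw [hm p a, hm q b] at c
    simp only [key, a, b, if_true]
    have := eN p
    nlinarith
  · refine ei ?_
    simp only [key, a] at b
    split_ifs at b
    · have := congrArg (· % N) b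
      simpa only [Nat.mul_add_mod, Nat.mod_eq_of_lt (eN _)] using this
    · exact b
  · simpa [key, a, b] using c

/-- A finite description of an initial subtree. -/
structure St where
  m : ℕ
  pl : List ℕ
  dl : List ℕ
  us : List ℕ
  O : List (ℕ × ℕ)
  E : List (ℕ × ℕ)
  F : List (ℕ × ℕ)
  cl : Bool

def has (L : List (ℕ × ℕ)) (i j : ℕ) : Bool := L.any fun p => Nat.beq p.1 i && Nat.beq p.2 j

theorem has_mem {L : List (ℕ × ℕ)} {i j : ℕ} (h : has L i j = true) : (i, j) ∈ L := by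
  simp only [has, List.any_eq_true, Bool.and_eq_true, Nat.beq_eq] at h
  obtain ⟨⟨a, b⟩, h1, rfl, rfl⟩ := h
  exact h1

namespace St

variable (S : St)

def pr (j : ℕ) : ℕ := S.pl.getD j 0
def dp (j : ℕ) : ℕ := S.dl.getD j 0
def lt0 (i j : ℕ) : Bool := has S.O i j || S.O.any fun p => Nat.beq p.1 i && has S.O p.2 j
def lt (i j : ℕ) : Bool :=
  S.lt0 i j || (Nat.beq (S.dp i) 2 && Nat.beq (S.dp j) 2 && S.lt0 (S.pr i) (S.pr j))
def e1 (i j : ℕ) : Bool := (Nat.blt 0 i && Nat.beq (S.pr i) j) || has S.E i j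
def e (i j : ℕ) : Bool := S.e1 i j || S.e1 j i
def fa1 (i j : ℕ) : Bool :=
  Nat.beq (S.dp j) 3 && (Nat.beq i 0 || (Nat.beq (S.dp i) 1 && S.lt i (S.pr (S.pr j))))
def fa (i j : ℕ) : Bool := S.fa1 i j || S.fa1 j i
def f1 (i j : ℕ) : Bool := Nat.ble (S.dp i + 2) (S.dp j) ||
  (Nat.beq (S.dp j) (S.dp i + 1) && S.lt i (S.pr j)) || has S.F i j
def f (i j : ℕ) : Bool := Nat.beq i j || S.f1 i j || S.f1 j i

def add (j : ℕ) : St := { S with m := S.m + 1, pl := S.pl ++ [j], dl := S.dl ++ [S.dp j + 1] }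
def en (j : ℕ) : ℕ → ℕ
  | 0 => j
  | t + 1 => S.m + t
def ext (j : ℕ) : ℕ → St
  | 0 => S
  | t + 1 => (ext j t).add (S.en j t)
def fin (j : ℕ) : St := { S with us := S.us ++ [j] }
def exts : List St := (List.range S.m).flatMap fun j =>
  (List.range (if S.cl && Nat.beq j 0 then 1 else 4 - S.dp j)).map fun t =>
    (S.ext j t).fin (S.en j t)

end St

structure Sat (B : Bfs G) (u : ℕ → V) (S : St) (h : ℕ → V) : Prop where
  lp : S.pl.length = S.m
  ld : S.dl.length = S.m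
  pos : 0 < S.m
  inj : ∀ i j, i < S.m → j < S.m → h i = h j → i = j
  root : h 0 = B.root
  par : ∀ j, j < S.m → S.pr j < S.m ∧ B.par (h j) = h (S.pr j)
  dep : ∀ j, j < S.m → B.dep (h j) = S.dp j
  us : ∀ k, k < S.us.length → S.us.getD k 0 < S.m ∧ h (S.us.getD k 0) = u k
  O : ∀ p ∈ S.O, p.1 < S.m ∧ p.2 < S.m ∧ B.key (h p.1) < B.key (h p.2)
  E : ∀ p ∈ S.E, p.1 < S.m ∧ p.2 < S.m ∧ G.Adj (h p.1) (h p.2)
  F : ∀ p ∈ S.F, p.1 < S.m ∧ p.2 < S.m ∧ ¬ G.Adj (h p.1) (h p.2)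
  cl : S.cl = true → ∀ y, G.Adj B.root y → ∃ j, j < S.m ∧ y = h j

namespace Sat

variable {B : Bfs G} {u : ℕ → V} {S : St} {h : ℕ → V} (H : Sat B u S h) {i j : ℕ}
include H

theorem lt0 (e : S.lt0 i j = true) : B.key (h i) < B.key (h j) := by
  simp only [St.lt0, Bool.or_eq_true, List.any_eq_true, Bool.and_eq_true, Nat.beq_eq] at e
  rcases e with e | ⟨p, p1, rfl, p2⟩
  · exact (H.O _ (has_mem e)).2.2
  · exact (H.O _ p1).2.2.trans (H.O _ (has_mem p2)).2.2

theorem lt (hi : i < S.m) (hj : j < S.m) (e : S.lt i j = true) : B.key (h i) < B.key (h j) := by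
  simp only [St.lt, Bool.or_eq_true, Bool.and_eq_true, Nat.beq_eq] at e
  rcases e with e | ⟨⟨e1, e2⟩, e⟩
  · exact H.lt0 e
  · refine B.mono _ _ (by rw [H.dep i hi, e1]) (by rw [H.dep j hj, e2]) ?_
    rw [(H.par i hi).2, (H.par j hj).2]
    exact H.lt0 e

theorem ne_root (hi : i < S.m) (k : i ≠ 0) : h i ≠ B.root := fun e =>
  k (H.inj _ _ hi H.pos (e.trans H.root.symm))

theorem e1 (hi : i < S.m) (e : S.e1 i j = true) : G.Adj (h i) (h j) := by
  simp only [St.e1, Bool.or_eq_true, Bool.and_eq_true, Nat.beq_eq, Nat.blt_eq] at e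
  rcases e with ⟨e1, rfl⟩ | e
  · rw [← (H.par i hi).2]
    exact B.adj _ (H.ne_root hi (by omega))
  · exact (H.E _ (has_mem e)).2.2

theorem e (hi : i < S.m) (hj : j < S.m) (e : S.e i j = true) : G.Adj (h i) (h j) := by
  rw [St.e, Bool.or_eq_true] at e
  exact e.elim (H.e1 hi) fun e => (H.e1 hj e).symm

theorem fa1 (hi : i < S.m) (hj : j < S.m) (e : S.fa1 i j = true) (y : V) (a : Wk G (h i) y)
    (b : Wk G (h j) y) : False := by
  simp only [St.fa1, Bool.or_eq_true, Bool.and_eq_true, Nat.beq_eq] at e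
  have l : ∀ p q, Wk G p q → B.dep p ≤ B.dep q + 1 ∧ B.dep q ≤ B.dep p + 1 := by
    rintro p q (rfl | k)
    exacts [by omega, ⟨B.lip _ _ k, B.lip _ _ k.symm⟩]
  have l1 := l _ _ a
  have l2 := l _ _ b
  have d1 := H.dep i hi
  have d2 := H.dep j hj
  obtain ⟨e1, rfl | ⟨e2, e3⟩⟩ := e
  · have := B.dep0
    rw [H.root] at l1
    omega
  have a' : G.Adj y (h i) := (a.resolve_left (by rintro rfl; omega)).symm
  have b' : G.Adj (h j) y := b.resolve_left (by rintro rfl; omega)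
  have p1 := H.par j hj
  have p2 := H.par _ p1.1
  have k1 := H.lt hi p2.1 e3
  have k2 := B.min _ _ a' (by omega)
  have k3 := B.min _ _ b' (by omega)
  have k4 := B.dpar (h j) (fun m => by have := B.dep0; rw [m] at d2; omega)
  have := B.mono y (B.par (h j)) (by omega) (by omega) (by rw [p1.2, p2.2]; omega)
  omega

theorem fa (hi : i < S.m) (hj : j < S.m) (e : S.fa i j = true) (y : V) (a : Wk G (h i) y)
    (b : Wk G (h j) y) : False := by
  rw [St.fa, Bool.or_eq_true] at e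
  exact e.elim (fun e => H.fa1 hi hj e y a b) fun e => H.fa1 hj hi e y b a

theorem f1 (hi : i < S.m) (hj : j < S.m) (e : S.f1 i j = true) : ¬ G.Adj (h i) (h j) := by
  simp only [St.f1, Bool.or_eq_true, Bool.and_eq_true, Nat.beq_eq, Nat.ble_eq] at e
  intro k
  have d1 := H.dep i hi
  have d2 := H.dep j hj
  rcases e with (e | ⟨e1, e⟩) | e
  · have := B.lip _ _ k.symm; omega
  · have k1 := H.lt hi (H.par j hj).1 e
    have k2 := B.min _ _ k.symm (by omega)
    rw [(H.par j hj).2] at k2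
    omega
  · exact (H.F _ (has_mem e)).2.2 k

theorem f (hi : i < S.m) (hj : j < S.m) (e : S.f i j = true) : ¬ G.Adj (h i) (h j) := by
  simp only [St.f, Bool.or_eq_true, Nat.beq_eq] at e
  rcases e with (rfl | e) | e
  exacts [G.irrefl, H.f1 hi hj e, fun k => H.f1 hj hi e k.symm]

theorem add {v : V} (hj : j < S.m) (hv : ∀ i, i < S.m → v ≠ h i) (hp : B.par v = h j) :
    Sat B u (S.add j) (Function.update h S.m v) := by
  have up : ∀ i, i < S.m → Function.update h S.m v i = h i := fun i k =>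
    Function.update_of_ne k.ne _ _
  have cs : ∀ i, i < (S.add j).m → i < S.m ∨ i = S.m := fun i k => Nat.lt_succ_iff_lt_or_eq.1 k
  have lt : ∀ {i}, i < S.m → i < (S.add j).m := fun k => Nat.lt_succ_of_lt k
  have p1 : ∀ i, i < S.m → (S.add j).pr i = S.pr i := fun i k =>
    List.getD_append _ _ _ _ (H.lp ▸ k)
  have p2 : (S.add j).pr S.m = j := by simp [St.pr, St.add, ← H.lp]
  have d1 : ∀ i, i < S.m → (S.add j).dp i = S.dp i := fun i k =>
    List.getD_append _ _ _ _ (H.ld ▸ k)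
  have d2 : (S.add j).dp S.m = S.dp j + 1 := by simp [St.dp, St.add, ← H.ld]
  refine ⟨by simp [St.add, H.lp], by simp [St.add, H.ld], lt H.pos, fun a b ha hb e => ?_,
    by rw [up 0 H.pos, H.root], fun a ha => ?_, fun a ha => ?_, fun k hk => ?_, fun p hp => ?_,
    fun p hp => ?_, fun p hp => ?_, fun c y e => ?_⟩
  · rcases cs a ha with k | rfl <;> rcases cs b hb with l | rfl
    · rw [up a k, up b l] at e; exact H.inj a b k l e
    · rw [up a k, Function.update_self] at e; exact absurd e.symm (hv a k)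
    · rw [up b l, Function.update_self] at e; exact absurd e (hv b l)
    · rfl
  · rcases cs a ha with k | rfl
    · rw [p1 a k, up a k, up _ (H.par a k).1]; exact ⟨lt (H.par a k).1, (H.par a k).2⟩
    · rw [p2, up j hj, Function.update_self]; exact ⟨lt hj, hp⟩
  · rcases cs a ha with k | rfl
    · rw [d1 a k, up a k]; exact H.dep a k
    · rw [d2, Function.update_self, B.dpar v (H.root ▸ hv 0 H.pos), hp, H.dep j hj]
  · have := H.us k hk
    exact ⟨lt this.1, (up _ this.1).trans this.2⟩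
  · obtain ⟨a, b, c⟩ := H.O p hp
    rw [up _ a, up _ b]; exact ⟨lt a, lt b, c⟩
  · obtain ⟨a, b, c⟩ := H.E p hp
    rw [up _ a, up _ b]; exact ⟨lt a, lt b, c⟩
  · obtain ⟨a, b, c⟩ := H.F p hp
    rw [up _ a, up _ b]; exact ⟨lt a, lt b, c⟩
  · obtain ⟨a, a1, a2⟩ := H.cl c y e
    exact ⟨a, lt a1, by rw [up a a1, a2]⟩

theorem ext (n : ℕ) : ∀ v, B.dep v = n → ∃ j t g, j < S.m ∧ S.dp j + t = n ∧
    (S.cl = true → j = 0 → t = 0) ∧ Sat B u (S.ext j t) g ∧ (S.ext j t).m = S.m + t ∧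
    (S.ext j t).us = S.us ∧ S.en j t < S.m + t ∧ g (S.en j t) = v ∧
    ∀ i, (i < S.m → g i = h i) ∧ (S.m ≤ i → i < S.m + t → B.dep (g i) ≤ n) := by
  induction n with
  | zero =>
    intro v hv
    obtain rfl : v = B.root := by
      by_contra k
      have := B.dpar v k; omega
    have := H.dep 0 H.pos
    rw [H.root] at this
    exact ⟨0, 0, h, H.pos, by omega, fun _ _ => rfl, H, rfl, rfl, H.pos, H.root,
      fun i => ⟨fun _ => rfl, by omega⟩⟩
  | succ n ih =>
    intro v hv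
    by_cases m : ∃ j, j < S.m ∧ v = h j
    · obtain ⟨j, j1, rfl⟩ := m
      exact ⟨j, 0, h, j1, (H.dep j j1).symm.trans hv, fun _ _ => rfl, H, rfl, rfl, j1, rfl,
        fun i => ⟨fun _ => rfl, by omega⟩⟩
    have vr : v ≠ B.root := by rintro rfl; have := B.dep0; omega
    obtain ⟨j, t, g, a1, a2, a3, a4, a5, a6, a7, a8, a9⟩ :=
      ih (B.par v) (by have := B.dpar v vr; omega)
    have b := a4.add (j := S.en j t) (v := v) (by omega) (fun i k e => by
      by_cases c : i < S.m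
      · exact m ⟨i, c, e.trans ((a9 i).1 c)⟩
      · have := (a9 i).2 (by omega) (by omega)
        rw [← e] at this
        omega) a8.symm
    rw [a5] at b
    refine ⟨j, t + 1, _, a1, by omega, fun c k => ?_, b, by show (S.ext j t).m + 1 = _; omega, a6,
      by show S.m + t < _; omega, Function.update_self .., fun i => ⟨fun k => ?_, fun k l => ?_⟩⟩
    · obtain rfl := a3 c k
      subst k
      have : B.par v = B.root := by rw [← a8, ← H.root]; exact (a9 0).1 H.pos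
      exact absurd (H.cl c v (this ▸ (B.adj v vr).symm)) m
    · rw [Function.update_of_ne (by omega), (a9 i).1 k]
    · by_cases c : i = S.m + t
      · rw [c, Function.update_self, hv]
      · rw [Function.update_of_ne c]
        have := (a9 i).2 k (by omega)
        omega

theorem exts : ∃ T ∈ S.exts, ∃ g, Sat B u T g := by
  obtain ⟨j, t, g, a1, a2, a3, a4, a5, a6, a7, a8, -⟩ := H.ext _ (u S.us.length) rfl
  have := B.le3 (u S.us.length)
  refine ⟨(S.ext j t).fin (S.en j t), ?_, g, a4.lp, a4.ld, a4.pos, a4.inj, a4.root, a4.par, a4.dep,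
    fun k hk => ?_, a4.O, a4.E, a4.F, a4.cl⟩
  · simp only [St.exts, List.mem_flatMap, List.mem_range, List.mem_map]
    refine ⟨j, a1, t, ?_, rfl⟩
    split_ifs with c
    · rw [Bool.and_eq_true, Nat.beq_eq] at c
      rw [a3 c.1 c.2]; omega
    · omega
  · simp only [St.fin, a6, List.length_append, List.length_singleton] at hk ⊢
    by_cases c : k < S.us.length
    · rw [List.getD_append _ _ _ _ c]
      have := a4.us k (a6 ▸ c)
      rwa [a6] at this
    · obtain rfl : k = S.us.length := by omega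
      rw [List.getD_append_right _ _ _ _ le_rfl, Nat.sub_self]
      exact ⟨a5 ▸ a7, a8⟩

end Sat

/-- The data provided by the tripod theorem in a counterexample. -/
structure Env (G : SimpleGraph V) (K : ℕ) where
  B : Bfs G
  u : ℕ → V
  d3 : D3 G
  nd : ND G K
  ht : HT (apex G {u 0, u 1, u 2})
  dom : ∀ v, ∃ k, k < 3 ∧ ∃ n, n < 4 ∧ Wk G v (B.par^[n] (u k))

theorem exists_env [Finite V] {K : ℕ} (h : HT G) (d3 : D3 G) (nd : ND G K) {x y : V}
    (e : G.Adj x y) : ∃ E : Env G K, E.B.root = x := by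
  obtain ⟨B, hB, -⟩ := exists_bfs d3 x ∅
  obtain ⟨a, b, c, h1, h2⟩ := tripod h B.toTree e {X | ∃ v, X = {w | Wk G v w}} (by
    rintro _ ⟨v, rfl⟩
    refine ⟨Cn.of_root v ?_, v, Or.inl rfl⟩
    rintro w (rfl | k)
    exacts [R.refl, R.single (Or.inl rfl) (Or.inr k) k]) (by
    rintro _ ⟨v, rfl⟩ _ ⟨w, rfl⟩
    obtain ⟨p, q, k1, rfl | k2, k3⟩ := d3 v w
    exacts [Or.inl ⟨p, k1, k3.symm⟩, Or.inr ⟨p, k1, q, k3.symm, k2⟩])
  have rt : ∀ n v, B.dep v ≤ n → B.par^[n] v = B.root := by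
    intro n
    induction n with
    | zero => intro v k; by_contra m; have := B.dpar v m; omega
    | succ n ih =>
      intro v k
      refine ih _ ?_
      by_cases m : v = B.root
      · rw [m, B.par_root, B.dep0]; omega
      · have := B.dpar v m; omega
  have key : ∀ v w p, Wk G v p → p ∈ B.toTree.P w → ∃ n, n < 4 ∧ Wk G v (B.par^[n] w) := by
    rintro v w _ k ⟨n, rfl⟩
    by_cases m : n < 4
    · exact ⟨n, m, k⟩
    · exact ⟨3, by omega, by rwa [rt 3 w (B.le3 w), ← rt n w ((B.le3 w).trans (by omega))]⟩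
  refine ⟨⟨B, fun k => [a, b, c].getD k a, d3, nd, h1, fun v => ?_⟩, hB⟩
  obtain ⟨p, p1, (p2 | p2) | p2⟩ := h2 _ ⟨v, rfl⟩
  exacts [⟨0, by omega, key _ _ _ p1 p2⟩, ⟨1, by omega, key _ _ _ p1 p2⟩,
    ⟨2, by omega, key _ _ _ p1 p2⟩]

def St.anc (S : St) (k n : ℕ) : ℕ := S.pr^[n] (S.us.getD k 0)

variable {K : ℕ} {E : Env G K} {S : St} {h : ℕ → V}

theorem Sat.dom (H : Sat E.B E.u S h) (l : S.us.length = 3) (v : V) :
    ∃ k, k < 3 ∧ ∃ n, n < 4 ∧ S.anc k n < S.m ∧ Wk G v (h (S.anc k n)) := by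
  obtain ⟨k, k1, n, n1, e⟩ := E.dom v
  have : ∀ n, S.anc k n < S.m ∧ h (S.anc k n) = E.B.par^[n] (E.u k) := by
    intro n
    induction n with
    | zero => exact H.us k (by omega)
    | succ n ih =>
      simp only [St.anc, Function.iterate_succ_apply'] at ih ⊢
      exact ⟨(H.par _ ih.1).1, by rw [← (H.par _ ih.1).2, ih.2]⟩
  exact ⟨k, k1, n, n1, (this n).1, (this n).2 ▸ e⟩

theorem Sat.nbr (H : Sat E.B E.u S h) (c : S.cl = true) {y : V} (e : Wk G (h 0) y) :
    ∃ j, j < S.m ∧ S.dp j < 2 ∧ y = h j := by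
  have d0 := E.B.dep0
  rw [H.root] at e
  obtain ⟨j, j1, rfl⟩ : ∃ j, j < S.m ∧ y = h j := by
    rcases e with rfl | e
    exacts [⟨0, H.pos, H.root.symm⟩, H.cl c y e]
  refine ⟨j, j1, ?_, rfl⟩
  rw [← H.dep j j1]
  rcases e with e | e
  · rw [← e]; omega
  · have := E.B.lip _ _ e.symm; omega

def Small (K : ℕ) (S : St) (D : List ℕ) : Prop :=
  S.us.length = 3 ∧ D.length ≤ K ∧ (∀ s ∈ D, s < S.m) ∧ ∀ k < 3, ∀ n < 4,
    (∃ s ∈ D, S.e (S.anc k n) s = true) ∧ (S.anc k n ∈ D ∨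
      (S.cl = true ∧ S.anc k n = 0 ∧ ∀ i < S.m, 1 < S.dp i ∨ ∃ s ∈ D, S.e i s = true))

instance {K S D} : Decidable (Small K S D) := by unfold Small; infer_instance

theorem Sat.small (H : Sat E.B E.u S h) {D : List ℕ} (c : Small K S D) : False := by
  obtain ⟨c1, c2, c3, c4⟩ := c
  obtain ⟨v, hv⟩ := E.nd (D.map h) (by simpa using c2)
  have key : ∀ i, i < S.m → v = h i → ¬ ∃ s ∈ D, S.e i s = true := by
    rintro i hi rfl ⟨s, s1, s2⟩
    exact hv _ (List.mem_map_of_mem s1) (H.e hi (c3 s s1) s2)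
  obtain ⟨k, k1, n, n1, a, e | e⟩ := H.dom c1 v
  · exact key _ a e (c4 k k1 n n1).1
  rcases (c4 k k1 n n1).2 with m | ⟨m1, m2, m3⟩
  · exact hv _ (List.mem_map_of_mem m) e
  · obtain ⟨j, j1, j2, j3⟩ := H.nbr m1 (Or.inr (m2 ▸ e).symm)
    exact key j j1 j3 ((m3 j j1).resolve_left (by omega))

end Pool.Agent.Lib.MP_ad48ef_co
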