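import Mathlib

/-!
# Bit matrices with rows of width 64
-/

namespace Pool.Agent.Lib.MP_ad48ef_co

noncomputable def force {α : Type} (n : ℕ) (k : ℕ → α) : α :=
  Nat.rec (motive := fun _ => α) (k 0) (fun m _ => k (Nat.succ m)) n

@[simp] theorem force_eq {α : Type} (n : ℕ) (k : ℕ → α) : force n k = k n := by
  cases n <;> rfl

/-- `nz n a b` is `a` if `n = 0` and `b` otherwise. -/
noncomputable def nz {α : Type} (n : ℕ) (a b : α) : α :=
  Nat.rec (motive := fun _ => α) a (fun _ _ => b) n

theorem nz_eq {α : Type} (n : ℕ) (a b : α) : nz n a b = if n = 0 then a else b := by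
  cases n <;> rfl

/-- `gd p a` is `a` if `p` holds and `0` otherwise. -/
noncomputable def gd (p : Bool) (a : ℕ) : ℕ := Bool.rec (motive := fun _ => ℕ) 0 a p

theorem gd_ne {p : Bool} {a : ℕ} (h : gd p a ≠ 0) : p = true ∧ a ≠ 0 := by
  cases p
  · exact absurd rfl h
  · exact ⟨rfl, h⟩

/-- Run `k` on `c` unless `c` is zero. -/
noncomputable def andThen (c : ℕ) (k : ℕ → ℕ) : ℕ :=
  Nat.rec (motive := fun _ => ℕ) 0 (fun m _ => k (Nat.succ m)) c

theorem andThen_ne {c : ℕ} {k : ℕ → ℕ} (h : andThen c k ≠ 0) : c ≠ 0 ∧ k c ≠ 0 := by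
  cases c
  · exact absurd rfl h
  · exact ⟨Nat.succ_ne_zero _, h⟩

def Msk (S : ℕ) (Q : ℕ → Prop) : Prop := ∀ b, S.testBit b = true → Q b

def Mat (M : ℕ) (P : ℕ → ℕ → Prop) : Prop :=
  ∀ a b, b < 64 → M.testBit (64 * a + b) = true → P a b

def pos (a b : ℕ) : ℕ := Nat.add (Nat.shiftLeft a 6) b
def row (M a : ℕ) : ℕ := Nat.land (Nat.shiftRight M (Nat.shiftLeft a 6)) 18446744073709551615
def bit (M a b : ℕ) : ℕ := Nat.land (Nat.shiftRight M (pos a b)) 1
def sym (M a b : ℕ) : ℕ :=
  Nat.lor M (Nat.lor (Nat.shiftLeft 1 (pos a b)) (Nat.shiftLeft 1 (pos b a)))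
def sub (x y : ℕ) : Bool := Nat.beq (Nat.land x y) x
def tok (c : ℕ) : ℕ := Nat.land c 63
def nxt (c : ℕ) : ℕ := Nat.shiftRight c 6

def geo (s : ℕ) : ℕ → ℕ
  | 0 => 0
  | n + 1 => 2 ^ (s * n) + geo s n

def CC : ℕ := 0x100000000000000010000000000000001000000000000000100000000000000010000000000000001000000000000000100000000000000010000000000000001000000000000000100000000000000010000000000000001000000000000000100000000000000010000000000000001000000000000000100000000000000010000000000000001000000000000000100000000000000010000000000000001000000000000000100000000000000010000000000000001000000000000000100000000000000010000000000000001000000000000000100000000000000010000000000000001000000000000000100000000000000010000000000000001000000000000000100000000000000010000000000000001000000000000000100000000000000010000000000000001000000000000000100000000000000010000000000000001000000000000000100000000000000010000000000000001000000000000000100000000000000010000000000000001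
def MM : ℕ := 0x200000000000000040000000000000008000000000000001000000000000000200000000000000040000000000000008000000000000001000000000000000200000000000000040000000000000008000000000000001000000000000000200000000000000040000000000000008000000000000001000000000000000200000000000000040000000000000008000000000000001000000000000000200000000000000040000000000000008000000000000001000000000000000200000000000000040000000000000008000000000000001000000000000000200000000000000040000000000000008000000000000001000000000000000200000000000000040000000000000008000000000000001000000000000000200000000000000040000000000000008000000000000001000000000000000200000000000000040000000000000008000000000000001000000000000000200000000000000040000000000000008000000000000001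

theorem CC_eq : CC = geo 64 48 := by decide +kernel
theorem MM_eq : MM = geo 63 48 := by decide +kernel

def spr (x : ℕ) : ℕ := Nat.land (Nat.mul (Nat.land x 281474976710655) MM) CC
/-- Add the mask `x` both as row `a` and as column `a`. -/
def rc (M x a : ℕ) : ℕ :=
  Nat.lor M (Nat.lor (Nat.shiftLeft x (Nat.shiftLeft a 6)) (Nat.shiftLeft (spr x) a))
/-- Copy column `l` to column `w`. -/
def mcol (M l w : ℕ) : ℕ := Nat.lor M (Nat.shiftLeft (Nat.land (Nat.shiftRight M l) CC) w)
/-- Copy row and column `l` to row and column `w`. -/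
def mrg (M l w : ℕ) : ℕ := Nat.lor (mcol M l w) (Nat.shiftLeft (row M l) (Nat.shiftLeft w 6))

theorem pos_eq (a b : ℕ) : pos a b = 64 * a + b := by
  show a <<< 6 + b = _
  rw [Nat.shiftLeft_eq]; ring

theorem sl6 (a : ℕ) : Nat.shiftLeft a 6 = 64 * a := by
  show a <<< 6 = _
  rw [Nat.shiftLeft_eq]; ring

theorem tok_lt (c : ℕ) : tok c < 64 := Nat.lt_succ_of_le Nat.and_le_right

theorem tb_or (x y i : ℕ) : (Nat.lor x y).testBit i = (x.testBit i || y.testBit i) :=
  Nat.testBit_or x y i
theorem tb_and (x y i : ℕ) : (Nat.land x y).testBit i = (x.testBit i && y.testBit i) :=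
  Nat.testBit_and x y i
theorem tb_xor (x y i : ℕ) : (Nat.xor x y).testBit i = (x.testBit i ^^ y.testBit i) :=
  Nat.testBit_xor x y i
theorem tb_sr (x n i : ℕ) : (Nat.shiftRight x n).testBit i = x.testBit (n + i) :=
  Nat.testBit_shiftRight x
theorem tb_sl (x n i : ℕ) :
    (Nat.shiftLeft x n).testBit i = (decide (i ≥ n) && x.testBit (i - n)) :=
  Nat.testBit_shiftLeft x
theorem tb_one {n i : ℕ} : (Nat.shiftLeft 1 n).testBit i = true ↔ i = n := by
  rw [tb_sl]
  simp only [Bool.and_eq_true, decide_eq_true_eq, Nat.testBit_one_eq_true_iff_self_eq_zero]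
  omega

theorem ex_bit {x : ℕ} (h : x ≠ 0) : ∃ i, x.testBit i = true := Nat.exists_testBit_of_ne_zero h

theorem tb_row {M a b : ℕ} : (row M a).testBit b = true ↔ b < 64 ∧ M.testBit (64 * a + b) = true := by
  rw [row, tb_and, tb_sr, sl6, show 18446744073709551615 = 2 ^ 64 - 1 from rfl,
    Nat.testBit_two_pow_sub_one]
  simp [and_comm]

theorem bit_ne {M a b : ℕ} (h : bit M a b ≠ 0) : M.testBit (64 * a + b) = true := by
  obtain ⟨i, hi⟩ := ex_bit h
  rw [bit, tb_and, tb_sr, pos_eq] at hi
  simp only [Bool.and_eq_true, Nat.testBit_one_eq_true_iff_self_eq_zero] at hi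
  simpa [hi.2] using hi.1

theorem sub_tb {x y : ℕ} (h : sub x y = true) {i : ℕ} (k : x.testBit i = true) :
    y.testBit i = true := by
  have : Nat.land x y = x := Nat.eq_of_beq_eq_true h
  rw [← this, tb_and] at k
  simp only [Bool.and_eq_true] at k
  exact k.2

theorem Mat.row {M : ℕ} {P} (h : Mat M P) (a : ℕ) : Msk (row M a) fun b => b < 64 ∧ P a b :=
  fun b k => ⟨(tb_row.1 k).1, h a b (tb_row.1 k).1 (tb_row.1 k).2⟩

theorem Mat.mono {M : ℕ} {P Q : ℕ → ℕ → Prop} (h : Mat M P) (k : ∀ a b, b < 64 → P a b → Q a b) :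
    Mat M Q := fun a b m e => k a b m (h a b m e)

theorem Mat.or {M N : ℕ} {P} (h : Mat M P) (k : Mat N P) : Mat (Nat.lor M N) P := by
  intro a b m e
  rw [tb_or, Bool.or_eq_true] at e
  exact e.elim (h a b m) (k a b m)

theorem Mat.one {P : ℕ → ℕ → Prop} {a b : ℕ} (hb : b < 64) (h : P a b) :
    Mat (Nat.shiftLeft 1 (pos a b)) P := by
  intro p q m e
  rw [tb_one, pos_eq] at e
  obtain ⟨rfl, rfl⟩ : p = a ∧ q = b := by omega
  exact h

theorem Mat.sym {M : ℕ} {P} (h : Mat M P) {a b : ℕ} (ha : a < 64) (hb : b < 64) (h1 : P a b)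
    (h2 : P b a) : Mat (sym M a b) P := h.or ((Mat.one hb h1).or (Mat.one ha h2))

theorem Mat.ofRow {P : ℕ → ℕ → Prop} {x a : ℕ} (h : Msk x fun b => b < 64 ∧ P a b) :
    Mat (Nat.shiftLeft x (Nat.shiftLeft a 6)) P := by
  intro p q m e
  rw [tb_sl, sl6] at e
  simp only [Bool.and_eq_true, decide_eq_true_eq] at e
  have := h _ e.2
  obtain rfl : p = a := by omega
  simpa using this.2

theorem geo_lt {s : ℕ} (x : ℕ) (hx : x < 2 ^ s) (n : ℕ) : x * geo s n < 2 ^ (s * n) := by
  induction n with
  | zero => simp [geo]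
  | succ n ih =>
    rw [geo, mul_add, mul_add, mul_one, pow_add]
    have : (x + 1) * 2 ^ (s * n) ≤ 2 ^ s * 2 ^ (s * n) := Nat.mul_le_mul_right _ hx
    nlinarith

theorem geo_tb {s : ℕ} (x : ℕ) (hx : x < 2 ^ s) (n p : ℕ) :
    (x * geo s n).testBit p = (decide (p < s * n) && x.testBit (p % s)) := by
  induction n with
  | zero => simp [geo]
  | succ n ih =>
    rw [geo, mul_add, mul_comm x, Nat.testBit_two_pow_mul_add _ (geo_lt x hx n), ih]
    split_ifs with h
    · have : p < s * (n + 1) := by nlinarith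
      simp [h, this]
    · by_cases k : p < s * (n + 1)
      · have : p % s = p - s * n := by
          have e : p = p - s * n + s * n := by omega
          rw [e, Nat.add_mul_mod_self_left, Nat.add_sub_cancel, Nat.mod_eq_of_lt]
          rw [mul_add] at k; omega
        simp [k, this]
      · simp only [k, decide_false, Bool.false_and]
        refine Nat.testBit_lt_two_pow (hx.trans_le (Nat.pow_le_pow_right (by norm_num) ?_))
        rw [mul_add] at k; omega

theorem geo_one (n p : ℕ) : (geo 64 n).testBit p = true ↔ p < 64 * n ∧ p % 64 = 0 := by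
  have := geo_tb (s := 64) 1 (by norm_num) n p
  rw [one_mul] at this
  rw [this]
  simp only [Bool.and_eq_true, decide_eq_true_eq, Nat.testBit_one_eq_true_iff_self_eq_zero]

theorem tb_CC {p : ℕ} : CC.testBit p = true ↔ p < 64 * 48 ∧ p % 64 = 0 := by
  rw [CC_eq]
  exact geo_one 48 p

theorem tb_spr {x p : ℕ} (h : (spr x).testBit p = true) :
    p % 64 = 0 ∧ x.testBit (p / 64) = true := by
  rw [spr, tb_and, Bool.and_eq_true, tb_CC, MM_eq] at h
  have hx : Nat.land x 281474976710655 < 2 ^ 63 :=
    lt_of_le_of_lt Nat.and_le_right (by norm_num)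
  have := geo_tb (s := 63) _ hx 48 p
  rw [Nat.mul_eq, this, tb_and] at h
  simp only [Bool.and_eq_true] at h
  refine ⟨h.2.2, ?_⟩
  have : p % 63 = p / 64 := by omega
  rw [← this]
  exact h.1.2.1

theorem Mat.ofCol {P : ℕ → ℕ → Prop} {y t : ℕ} (ht : t < 64)
    (h : ∀ p, y.testBit p = true → p % 64 = 0 ∧ P (p / 64) t) : Mat (Nat.shiftLeft y t) P := by
  intro p q m e
  rw [tb_sl] at e
  simp only [Bool.and_eq_true, decide_eq_true_eq] at e
  obtain ⟨h1, h2⟩ := h _ e.2
  obtain rfl : q = t := by omega
  rwa [show (64 * p + q - q) / 64 = p by omega] at h2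

theorem Mat.rc {M : ℕ} {P} (h : Mat M P) {x a : ℕ} (ha : a < 64)
    (k : Msk x fun b => b < 64 ∧ P a b ∧ P b a) : Mat (rc M x a) P :=
  h.or ((Mat.ofRow fun b e => ⟨(k b e).1, (k b e).2.1⟩).or
    (Mat.ofCol ha fun _ e => ⟨(tb_spr e).1, (k _ (tb_spr e).2).2.2⟩))

theorem Mat.mcol {M : ℕ} {P} (h : Mat M P) {l w : ℕ} (hl : l < 64) (hw : w < 64)
    (k : ∀ a, P a l → P a w) : Mat (mcol M l w) P := by
  refine h.or (Mat.ofCol hw fun p e => ?_)
  rw [tb_and, tb_sr, Bool.and_eq_true, tb_CC] at e
  refine ⟨e.2.2, k _ (h _ l hl ?_)⟩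
  rw [show 64 * (p / 64) + l = l + p by omega]
  exact e.1

theorem Mat.mrg {M : ℕ} {P} (h : Mat M P) {l w : ℕ} (hl : l < 64) (hw : w < 64)
    (k : ∀ a, P a l → P a w) (k' : ∀ a, P l a → P w a) : Mat (mrg M l w) P :=
  (h.mcol hl hw k).or (Mat.ofRow fun b e => ⟨(h.row l b e).1, k' b (h.row l b e).2⟩)

/-- Row `t` and column `t` of the matrix are empty (rows below 48 and row `t` are tested, and the
matrix has no rows from 48 on). -/
def frs (M t : ℕ) : Bool :=
  Nat.beq (Nat.lor (Nat.shiftRight M 3072) (Nat.lor (row M t)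
    (Nat.land (Nat.shiftRight M t) CC))) 0

theorem frs_tb {M t : ℕ} (h : frs M t = true) {a b : ℕ} (hb : b < 64)
    (e : M.testBit (64 * a + b) = true) : a ≠ t ∧ b ≠ t := by
  have h0 := Nat.eq_of_beq_eq_true h
  have z : ∀ i, (Nat.lor (Nat.shiftRight M 3072) (Nat.lor (row M t)
      (Nat.land (Nat.shiftRight M t) CC))).testBit i = false := fun i => by rw [h0]; simp
  simp only [tb_or, Bool.or_eq_false_iff] at z
  constructor
  · rintro rfl
    have := (z b).2.1
    rw [tb_row.2 ⟨hb, e⟩] at this
    cases this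
  · rintro rfl
    by_cases m : a < 48
    · have := (z (64 * a)).2.2
      rw [tb_and, tb_sr, add_comm, e, tb_CC.2 ⟨by omega, by omega⟩] at this
      cases this
    · have := (z (64 * a + b - 3072)).1
      rw [tb_sr, show 3072 + (64 * a + b - 3072) = 64 * a + b by omega, e] at this
      cases this

end Pool.Agent.Lib.MP_ad48ef_co
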