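import Pool.Agent.Lib.MP_ad48ef_co.Shapes
import Pool.Agent.Lib.MP_ad48ef_co.NM
import Pool.Agent.Lib.MP_ad48ef_co.C11_33210D

set_option maxRecDepth 100000
namespace Pool.Agent.Lib.MP_ad48ef_co.Rup.C11_33210

theorem ci0 : chkI (Gl.ok (Gl.S33210 0 0x2002000000020020020002003311) NM.lem) (nat_lit 1331) (nat_lit 4095) (nat_lit 13) (nat_lit 21) (nat_lit 22) tt i0 = true := by decide +kernel
theorem cs : chkS (nat_lit 1331) (nat_lit 22) tt (Gl.pi (nat_lit 0x210fedcba9876543210)) (Gl.pi (nat_lit 0x10120fedcba9876325410)) pr pf = true := by decide +kernel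

end Pool.Agent.Lib.MP_ad48ef_co.Rup.C11_33210
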