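import Pool.Agent.Lib.MP_ad48ef_co.Shapes
import Pool.Agent.Lib.MP_ad48ef_co.NM
import Pool.Agent.Lib.MP_ad48ef_co.C23_32310D

set_option maxRecDepth 100000
namespace Pool.Agent.Lib.MP_ad48ef_co.Rup.C23_32310

theorem cs : chkS (nat_lit 1803) (nat_lit 22) tt (Gl.pi (nat_lit 0x210fedcba9876543210)) (Gl.pi (nat_lit 0x210fedcba9876543210)) pr pf = true := by decide +kernel

end Pool.Agent.Lib.MP_ad48ef_co.Rup.C23_32310
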