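import Pool.Agent.Lib.MP_ad48ef_co.Shapes
import Pool.Agent.Lib.MP_ad48ef_co.NM
import Pool.Agent.Lib.MP_ad48ef_co.C23_33200D

set_option maxRecDepth 100000
namespace Pool.Agent.Lib.MP_ad48ef_co.Rup.C23_33200

theorem ci0 : chkI (Gl.ok (Gl.S33200 0 0x200200000002002020020020332a) NM.lem) (nat_lit 3240) (nat_lit 8191) (nat_lit 14) (nat_lit 21) (nat_lit 22) tt i0 = true := by decide +kernel
theorem ci1 : chkI (Gl.ok (Gl.S33200 0 0x200200000002002020020020332a) NM.lem) (nat_lit 3240) (nat_lit 8191) (nat_lit 14) (nat_lit 21) (nat_lit 22) tt i1 = true := by decide +kernel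
theorem ci2 : chkI (Gl.ok (Gl.S33200 0 0x200200000002002020020020332a) NM.lem) (nat_lit 3240) (nat_lit 8191) (nat_lit 14) (nat_lit 21) (nat_lit 22) tt i2 = true := by decide +kernel
theorem ci3 : chkI (Gl.ok (Gl.S33200 0 0x200200000002002020020020332a) NM.lem) (nat_lit 3240) (nat_lit 8191) (nat_lit 14) (nat_lit 21) (nat_lit 22) tt i3 = true := by decide +kernel
theorem ci4 : chkI (Gl.ok (Gl.S33200 0 0x200200000002002020020020332a) NM.lem) (nat_lit 3240) (nat_lit 8191) (nat_lit 14) (nat_lit 21) (nat_lit 22) tt i4 = true := by decide +kernel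

end Pool.Agent.Lib.MP_ad48ef_co.Rup.C23_33200
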