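import Pool.Agent.Lib.MP_ad48ef_co.Shapes
import Pool.Agent.Lib.MP_ad48ef_co.NM
import Pool.Agent.Lib.MP_ad48ef_co.C23_33200D

set_option maxRecDepth 100000
namespace Pool.Agent.Lib.MP_ad48ef_co.Rup.C23_33200

theorem ci5 : chkI (Gl.ok (Gl.S33200 0 0x200200000002002020020020332a) NM.lem) (nat_lit 3240) (nat_lit 8191) (nat_lit 14) (nat_lit 21) (nat_lit 22) tt i5 = true := by decide +kernel
theorem ci6 : chkI (Gl.ok (Gl.S33200 0 0x200200000002002020020020332a) NM.lem) (nat_lit 3240) (nat_lit 8191) (nat_lit 14) (nat_lit 21) (nat_lit 22) tt i6 = true := by decide +kernel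
theorem ci7 : chkI (Gl.ok (Gl.S33200 0 0x200200000002002020020020332a) NM.lem) (nat_lit 3240) (nat_lit 8191) (nat_lit 14) (nat_lit 21) (nat_lit 22) tt i7 = true := by decide +kernel
theorem cs : chkS (nat_lit 3240) (nat_lit 22) tt (Gl.pi (nat_lit 0x210fedcba9876543210)) (Gl.pi (nat_lit 0x10120fedcba9873216540)) pr pf = true := by decide +kernel

end Pool.Agent.Lib.MP_ad48ef_co.Rup.C23_33200
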