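import Pool.Agent.Lib.MP_ad48ef_co.Shapes
import Pool.Agent.Lib.MP_ad48ef_co.NM
import Pool.Agent.Lib.MP_ad48ef_co.C40_33300D

set_option maxRecDepth 100000
namespace Pool.Agent.Lib.MP_ad48ef_co.Rup.C40_33300

theorem ci0 : chkI (Gl.ok (Gl.S33300 0 0x2002002020020020200200203324) NM.lem) (nat_lit 4341) (nat_lit 16383) (nat_lit 15) (nat_lit 21) (nat_lit 22) tt i0 = true := by decide +kernel
theorem ci1 : chkI (Gl.ok (Gl.S33300 0 0x2002002020020020200200203324) NM.lem) (nat_lit 4341) (nat_lit 16383) (nat_lit 15) (nat_lit 21) (nat_lit 22) tt i1 = true := by decide +kernel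
theorem ci2 : chkI (Gl.ok (Gl.S33300 0 0x2002002020020020200200203324) NM.lem) (nat_lit 4341) (nat_lit 16383) (nat_lit 15) (nat_lit 21) (nat_lit 22) tt i2 = true := by decide +kernel
theorem cs : chkS (nat_lit 4341) (nat_lit 22) tt (Gl.pi (nat_lit 0x102fedcba6543219870)) (Gl.pi (nat_lit 0x10201fedcba3216549870)) pr pf = true := by decide +kernel

end Pool.Agent.Lib.MP_ad48ef_co.Rup.C40_33300
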