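import Pool.Agent.Lib.MP_ad48ef_co.RupSound
import Pool.Agent.Lib.MP_ad48ef_co.C23_33200S0
import Pool.Agent.Lib.MP_ad48ef_co.C23_33200S1
import Pool.Agent.Lib.MP_ad48ef_co.C23_33200S2
import Pool.Agent.Lib.MP_ad48ef_co.C23_33200S3
import Pool.Agent.Lib.MP_ad48ef_co.C23_33200S4
import Pool.Agent.Lib.MP_ad48ef_co.C23_33200S5
import Pool.Agent.Lib.MP_ad48ef_co.C23_33200I0
import Pool.Agent.Lib.MP_ad48ef_co.C23_33200I1
import Pool.Agent.Lib.MP_ad48ef_co.C23_33310S0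
import Pool.Agent.Lib.MP_ad48ef_co.C23_33310S1
import Pool.Agent.Lib.MP_ad48ef_co.C23_33310S2
import Pool.Agent.Lib.MP_ad48ef_co.C23_33310S3
import Pool.Agent.Lib.MP_ad48ef_co.C23_33310S4
import Pool.Agent.Lib.MP_ad48ef_co.C23_33310S5
import Pool.Agent.Lib.MP_ad48ef_co.C23_33310S6
import Pool.Agent.Lib.MP_ad48ef_co.C23_33310I0
import Pool.Agent.Lib.MP_ad48ef_co.C23_33310I1
import Pool.Agent.Lib.MP_ad48ef_co.C23_32310S0
import Pool.Agent.Lib.MP_ad48ef_co.C23_32310S1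
import Pool.Agent.Lib.MP_ad48ef_co.C23_32310I0
import Pool.Agent.Lib.MP_ad48ef_co.C23_32310I1
import Pool.Agent.Lib.MP_ad48ef_co.C40_33300S0
import Pool.Agent.Lib.MP_ad48ef_co.C40_33300S1
import Pool.Agent.Lib.MP_ad48ef_co.C40_33300I0
import Pool.Agent.Lib.MP_ad48ef_co.C11_32200S0
import Pool.Agent.Lib.MP_ad48ef_co.C11_32200S1
import Pool.Agent.Lib.MP_ad48ef_co.C11_32200I0
import Pool.Agent.Lib.MP_ad48ef_co.C31_33200S0
import Pool.Agent.Lib.MP_ad48ef_co.C31_33200S1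
import Pool.Agent.Lib.MP_ad48ef_co.C31_33200I0
import Pool.Agent.Lib.MP_ad48ef_co.C31_33310S0
import Pool.Agent.Lib.MP_ad48ef_co.C31_33310S1
import Pool.Agent.Lib.MP_ad48ef_co.C31_33310I0
import Pool.Agent.Lib.MP_ad48ef_co.C11_33210S0
import Pool.Agent.Lib.MP_ad48ef_co.C11_33210I0

set_option maxRecDepth 100000

namespace Pool.Agent.Lib.MP_ad48ef_co.Rup.C23_33200

theorem top : Gl.TopS (Gl.S33200 0 0x200200000002002020020020332a) NM.lem := by
  intro _ val hok hs o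
  have hn := litv_neg val
  obtain ⟨hp, hq⟩ := chkS_t cs (hs _ (by decide +kernel)) (hs _ (by decide +kernel))
  have gi : GE _ _ ii := GE.inp (t := ti) (nat_lit 1) (nat_lit 2) hp hq (GT.node (nat_lit 8328) (GT.node (nat_lit 5200) (GT.node (nat_lit 3037) (chkI_t ci0 hn hok) (chkI_t ci1 hn hok)) (GT.node (nat_lit 6886) (chkI_t ci2 hn hok) (chkI_t ci3 hn hok))) (GT.node (nat_lit 10764) (GT.node (nat_lit 9620) (chkI_t ci4 hn hok) (chkI_t ci5 hn hok)) (GT.node (nat_lit 11724) (chkI_t ci6 hn hok) (chkI_t ci7 hn hok))))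
  have h0 := chk_t s0 hp hq (GE.memo gi) Un.init
  have h1 := chk_t s1 hp hq (GE.memo (GE.ext _ h0.2 gi)) h0.1
  have h2 := chk_t s2 hp hq (GE.memo (GE.ext _ (GT.node (nat_lit 28973) h0.2 h1.2) gi)) h1.1
  have h3 := chk_t s3 hp hq (GE.memo (GE.ext _ (GT.node (nat_lit 28973) h0.2 (GT.node (nat_lit 32240) h1.2 h2.2)) gi)) h2.1
  have h4 := chk_t s4 hp hq (GE.memo (GE.ext _ (GT.node (nat_lit 32240) (GT.node (nat_lit 28973) h0.2 h1.2) (GT.node (nat_lit 32371) h2.2 h3.2)) gi)) h3.1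
  have h5 := chk_t s5 hp hq (GE.memo (GE.ext _ (GT.node (nat_lit 32240) (GT.node (nat_lit 28973) h0.2 h1.2) (GT.node (nat_lit 32371) h2.2 (GT.node (nat_lit 32481) h3.2 h4.2))) gi)) h4.1
  have h6 := chk_t s6 hp hq (GE.memo (GE.ext _ (GT.node (nat_lit 32371) (GT.node (nat_lit 28973) h0.2 (GT.node (nat_lit 32240) h1.2 h2.2)) (GT.node (nat_lit 32481) h3.2 (GT.node (nat_lit 32550) h4.2 h5.2))) gi)) h5.1
  have h7 := chk_t s7 hp hq (GE.memo (GE.ext _ (GT.node (nat_lit 32371) (GT.node (nat_lit 28973) h0.2 (GT.node (nat_lit 32240) h1.2 h2.2)) (GT.node (nat_lit 32550) (GT.node (nat_lit 32481) h3.2 h4.2) (GT.node (nat_lit 32602) h5.2 h6.2))) gi)) h6.1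
  have h8 := chk_t s8 hp hq (GE.memo (GE.ext _ (GT.node (nat_lit 32481) (GT.node (nat_lit 32240) (GT.node (nat_lit 28973) h0.2 h1.2) (GT.node (nat_lit 32371) h2.2 h3.2)) (GT.node (nat_lit 32602) (GT.node (nat_lit 32550) h4.2 h5.2) (GT.node (nat_lit 32649) h6.2 h7.2))) gi)) h7.1
  have h9 := chk_t s9 hp hq (GE.memo (GE.ext _ (GT.node (nat_lit 32481) (GT.node (nat_lit 32240) (GT.node (nat_lit 28973) h0.2 h1.2) (GT.node (nat_lit 32371) h2.2 h3.2)) (GT.node (nat_lit 32602) (GT.node (nat_lit 32550) h4.2 h5.2) (GT.node (nat_lit 32649) h6.2 (GT.node (nat_lit 32730) h7.2 h8.2)))) gi)) h8.1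
  have h10 := chk_t s10 hp hq (GE.memo (GE.ext _ (GT.node (nat_lit 32550) (GT.node (nat_lit 32240) (GT.node (nat_lit 28973) h0.2 h1.2) (GT.node (nat_lit 32371) h2.2 (GT.node (nat_lit 32481) h3.2 h4.2))) (GT.node (nat_lit 32649) (GT.node (nat_lit 32602) h5.2 h6.2) (GT.node (nat_lit 32730) h7.2 (GT.node (nat_lit 32840) h8.2 h9.2)))) gi)) h9.1
  have h11 := chk_t s11 hp hq (GE.memo (GE.ext _ (GT.node (nat_lit 32550) (GT.node (nat_lit 32240) (GT.node (nat_lit 28973) h0.2 h1.2) (GT.node (nat_lit 32371) h2.2 (GT.node (nat_lit 32481) h3.2 h4.2))) (GT.node (nat_lit 32730) (GT.node (nat_lit 32602) h5.2 (GT.node (nat_lit 32649) h6.2 h7.2)) (GT.node (nat_lit 32840) h8.2 (GT.node (nat_lit 32943) h9.2 h10.2)))) gi)) h10.1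
  have h12 := chk_t s12 hp hq (GE.memo (GE.ext _ (GT.node (nat_lit 32602) (GT.node (nat_lit 32371) (GT.node (nat_lit 28973) h0.2 (GT.node (nat_lit 32240) h1.2 h2.2)) (GT.node (nat_lit 32481) h3.2 (GT.node (nat_lit 32550) h4.2 h5.2))) (GT.node (nat_lit 32840) (GT.node (nat_lit 32649) h6.2 (GT.node (nat_lit 32730) h7.2 h8.2)) (GT.node (nat_lit 32943) h9.2 (GT.node (nat_lit 33018) h10.2 h11.2)))) gi)) h11.1
  have h13 := chk_t s13 hp hq (GE.memo (GE.ext _ (GT.node (nat_lit 32602) (GT.node (nat_lit 32371) (GT.node (nat_lit 28973) h0.2 (GT.node (nat_lit 32240) h1.2 h2.2)) (GT.node (nat_lit 32481) h3.2 (GT.node (nat_lit 32550) h4.2 h5.2))) (GT.node (nat_lit 32840) (GT.node (nat_lit 32649) h6.2 (GT.node (nat_lit 32730) h7.2 h8.2)) (GT.node (nat_lit 33018) (GT.node (nat_lit 32943) h9.2 h10.2) (GT.node (nat_lit 33094) h11.2 h12.2)))) gi)) h12.1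
  have h14 := chk_t s14 hp hq (GE.memo (GE.ext _ (GT.node (nat_lit 32649) (GT.node (nat_lit 32371) (GT.node (nat_lit 28973) h0.2 (GT.node (nat_lit 32240) h1.2 h2.2)) (GT.node (nat_lit 32550) (GT.node (nat_lit 32481) h3.2 h4.2) (GT.node (nat_lit 32602) h5.2 h6.2))) (GT.node (nat_lit 32943) (GT.node (nat_lit 32730) h7.2 (GT.node (nat_lit 32840) h8.2 h9.2)) (GT.node (nat_lit 33094) (GT.node (nat_lit 33018) h10.2 h11.2) (GT.node (nat_lit 33164) h12.2 h13.2)))) gi)) h13.1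
  have h15 := chk_t s15 hp hq (GE.memo (GE.ext _ (GT.node (nat_lit 32649) (GT.node (nat_lit 32371) (GT.node (nat_lit 28973) h0.2 (GT.node (nat_lit 32240) h1.2 h2.2)) (GT.node (nat_lit 32550) (GT.node (nat_lit 32481) h3.2 h4.2) (GT.node (nat_lit 32602) h5.2 h6.2))) (GT.node (nat_lit 33018) (GT.node (nat_lit 32840) (GT.node (nat_lit 32730) h7.2 h8.2) (GT.node (nat_lit 32943) h9.2 h10.2)) (GT.node (nat_lit 33164) (GT.node (nat_lit 33094) h11.2 h12.2) (GT.node (nat_lit 33210) h13.2 h14.2)))) gi)) h14.1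
  have h16 := chk_t s16 hp hq (GE.memo (GE.ext _ (GT.node (nat_lit 32730) (GT.node (nat_lit 32481) (GT.node (nat_lit 32240) (GT.node (nat_lit 28973) h0.2 h1.2) (GT.node (nat_lit 32371) h2.2 h3.2)) (GT.node (nat_lit 32602) (GT.node (nat_lit 32550) h4.2 h5.2) (GT.node (nat_lit 32649) h6.2 h7.2))) (GT.node (nat_lit 33094) (GT.node (nat_lit 32943) (GT.node (nat_lit 32840) h8.2 h9.2) (GT.node (nat_lit 33018) h10.2 h11.2)) (GT.node (nat_lit 33210) (GT.node (nat_lit 33164) h12.2 h13.2) (GT.node (nat_lit 33279) h14.2 h15.2)))) gi)) h15.1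
  have h17 := chk_t s17 hp hq (GE.memo (GE.ext _ (GT.node (nat_lit 32730) (GT.node (nat_lit 32481) (GT.node (nat_lit 32240) (GT.node (nat_lit 28973) h0.2 h1.2) (GT.node (nat_lit 32371) h2.2 h3.2)) (GT.node (nat_lit 32602) (GT.node (nat_lit 32550) h4.2 h5.2) (GT.node (nat_lit 32649) h6.2 h7.2))) (GT.node (nat_lit 33094) (GT.node (nat_lit 32943) (GT.node (nat_lit 32840) h8.2 h9.2) (GT.node (nat_lit 33018) h10.2 h11.2)) (GT.node (nat_lit 33210) (GT.node (nat_lit 33164) h12.2 h13.2) (GT.node (nat_lit 33279) h14.2 (GT.node (nat_lit 33305) h15.2 h16.2))))) gi)) h16.1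
  have h18 := chk_t s18 hp hq (GE.memo (GE.ext _ (GT.node (nat_lit 32840) (GT.node (nat_lit 32481) (GT.node (nat_lit 32240) (GT.node (nat_lit 28973) h0.2 h1.2) (GT.node (nat_lit 32371) h2.2 h3.2)) (GT.node (nat_lit 32602) (GT.node (nat_lit 32550) h4.2 h5.2) (GT.node (nat_lit 32649) h6.2 (GT.node (nat_lit 32730) h7.2 h8.2)))) (GT.node (nat_lit 33164) (GT.node (nat_lit 33018) (GT.node (nat_lit 32943) h9.2 h10.2) (GT.node (nat_lit 33094) h11.2 h12.2)) (GT.node (nat_lit 33279) (GT.node (nat_lit 33210) h13.2 h14.2) (GT.node (nat_lit 33305) h15.2 (GT.node (nat_lit 33400) h16.2 h17.2))))) gi)) h17.1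
  have h19 := chk_t s19 hp hq (GE.memo (GE.ext _ (GT.node (nat_lit 32840) (GT.node (nat_lit 32481) (GT.node (nat_lit 32240) (GT.node (nat_lit 28973) h0.2 h1.2) (GT.node (nat_lit 32371) h2.2 h3.2)) (GT.node (nat_lit 32602) (GT.node (nat_lit 32550) h4.2 h5.2) (GT.node (nat_lit 32649) h6.2 (GT.node (nat_lit 32730) h7.2 h8.2)))) (GT.node (nat_lit 33210) (GT.node (nat_lit 33018) (GT.node (nat_lit 32943) h9.2 h10.2) (GT.node (nat_lit 33094) h11.2 (GT.node (nat_lit 33164) h12.2 h13.2))) (GT.node (nat_lit 33305) (GT.node (nat_lit 33279) h14.2 h15.2) (GT.node (nat_lit 33400) h16.2 (GT.node (nat_lit 33531) h17.2 h18.2))))) gi)) h18.1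
  have h20 := chk_t s20 hp hq (GE.memo (GE.ext _ (GT.node (nat_lit 32943) (GT.node (nat_lit 32550) (GT.node (nat_lit 32240) (GT.node (nat_lit 28973) h0.2 h1.2) (GT.node (nat_lit 32371) h2.2 (GT.node (nat_lit 32481) h3.2 h4.2))) (GT.node (nat_lit 32649) (GT.node (nat_lit 32602) h5.2 h6.2) (GT.node (nat_lit 32730) h7.2 (GT.node (nat_lit 32840) h8.2 h9.2)))) (GT.node (nat_lit 33279) (GT.node (nat_lit 33094) (GT.node (nat_lit 33018) h10.2 h11.2) (GT.node (nat_lit 33164) h12.2 (GT.node (nat_lit 33210) h13.2 h14.2))) (GT.node (nat_lit 33400) (GT.node (nat_lit 33305) h15.2 h16.2) (GT.node (nat_lit 33531) h17.2 (GT.node (nat_lit 33663) h18.2 h19.2))))) gi)) h19.1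
  have h21 := chk_t s21 hp hq (GE.memo (GE.ext _ (GT.node (nat_lit 32943) (GT.node (nat_lit 32550) (GT.node (nat_lit 32240) (GT.node (nat_lit 28973) h0.2 h1.2) (GT.node (nat_lit 32371) h2.2 (GT.node (nat_lit 32481) h3.2 h4.2))) (GT.node (nat_lit 32649) (GT.node (nat_lit 32602) h5.2 h6.2) (GT.node (nat_lit 32730) h7.2 (GT.node (nat_lit 32840) h8.2 h9.2)))) (GT.node (nat_lit 33279) (GT.node (nat_lit 33094) (GT.node (nat_lit 33018) h10.2 h11.2) (GT.node (nat_lit 33164) h12.2 (GT.node (nat_lit 33210) h13.2 h14.2))) (GT.node (nat_lit 33531) (GT.node (nat_lit 33305) h15.2 (GT.node (nat_lit 33400) h16.2 h17.2)) (GT.node (nat_lit 33663) h18.2 (GT.node (nat_lit 33721) h19.2 h20.2))))) gi)) h20.1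
  have h22 := chk_t s22 hp hq (GE.memo (GE.ext _ (GT.node (nat_lit 33018) (GT.node (nat_lit 32550) (GT.node (nat_lit 32240) (GT.node (nat_lit 28973) h0.2 h1.2) (GT.node (nat_lit 32371) h2.2 (GT.node (nat_lit 32481) h3.2 h4.2))) (GT.node (nat_lit 32730) (GT.node (nat_lit 32602) h5.2 (GT.node (nat_lit 32649) h6.2 h7.2)) (GT.node (nat_lit 32840) h8.2 (GT.node (nat_lit 32943) h9.2 h10.2)))) (GT.node (nat_lit 33305) (GT.node (nat_lit 33164) (GT.node (nat_lit 33094) h11.2 h12.2) (GT.node (nat_lit 33210) h13.2 (GT.node (nat_lit 33279) h14.2 h15.2))) (GT.node (nat_lit 33663) (GT.node (nat_lit 33400) h16.2 (GT.node (nat_lit 33531) h17.2 h18.2)) (GT.node (nat_lit 33721) h19.2 (GT.node (nat_lit 33842) h20.2 h21.2))))) gi)) h21.1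
  have h23 := chk_t s23 hp hq (GE.memo (GE.ext _ (GT.node (nat_lit 33018) (GT.node (nat_lit 32550) (GT.node (nat_lit 32240) (GT.node (nat_lit 28973) h0.2 h1.2) (GT.node (nat_lit 32371) h2.2 (GT.node (nat_lit 32481) h3.2 h4.2))) (GT.node (nat_lit 32730) (GT.node (nat_lit 32602) h5.2 (GT.node (nat_lit 32649) h6.2 h7.2)) (GT.node (nat_lit 32840) h8.2 (GT.node (nat_lit 32943) h9.2 h10.2)))) (GT.node (nat_lit 33400) (GT.node (nat_lit 33210) (GT.node (nat_lit 33094) h11.2 (GT.node (nat_lit 33164) h12.2 h13.2)) (GT.node (nat_lit 33279) h14.2 (GT.node (nat_lit 33305) h15.2 h16.2))) (GT.node (nat_lit 33721) (GT.node (nat_lit 33531) h17.2 (GT.node (nat_lit 33663) h18.2 h19.2)) (GT.node (nat_lit 33842) h20.2 (GT.node (nat_lit 33943) h21.2 h22.2))))) gi)) h22.1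
  have h24 := chk_t s24 hp hq (GE.memo (GE.ext _ (GT.node (nat_lit 33094) (GT.node (nat_lit 32602) (GT.node (nat_lit 32371) (GT.node (nat_lit 28973) h0.2 (GT.node (nat_lit 32240) h1.2 h2.2)) (GT.node (nat_lit 32481) h3.2 (GT.node (nat_lit 32550) h4.2 h5.2))) (GT.node (nat_lit 32840) (GT.node (nat_lit 32649) h6.2 (GT.node (nat_lit 32730) h7.2 h8.2)) (GT.node (nat_lit 32943) h9.2 (GT.node (nat_lit 33018) h10.2 h11.2)))) (GT.node (nat_lit 33531) (GT.node (nat_lit 33279) (GT.node (nat_lit 33164) h12.2 (GT.node (nat_lit 33210) h13.2 h14.2)) (GT.node (nat_lit 33305) h15.2 (GT.node (nat_lit 33400) h16.2 h17.2))) (GT.node (nat_lit 33842) (GT.node (nat_lit 33663) h18.2 (GT.node (nat_lit 33721) h19.2 h20.2)) (GT.node (nat_lit 33943) h21.2 (GT.node (nat_lit 34063) h22.2 h23.2))))) gi)) h23.1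
  have h25 := chk_t s25 hp hq (GE.memo (GE.ext _ (GT.node (nat_lit 33094) (GT.node (nat_lit 32602) (GT.node (nat_lit 32371) (GT.node (nat_lit 28973) h0.2 (GT.node (nat_lit 32240) h1.2 h2.2)) (GT.node (nat_lit 32481) h3.2 (GT.node (nat_lit 32550) h4.2 h5.2))) (GT.node (nat_lit 32840) (GT.node (nat_lit 32649) h6.2 (GT.node (nat_lit 32730) h7.2 h8.2)) (GT.node (nat_lit 32943) h9.2 (GT.node (nat_lit 33018) h10.2 h11.2)))) (GT.node (nat_lit 33531) (GT.node (nat_lit 33279) (GT.node (nat_lit 33164) h12.2 (GT.node (nat_lit 33210) h13.2 h14.2)) (GT.node (nat_lit 33305) h15.2 (GT.node (nat_lit 33400) h16.2 h17.2))) (GT.node (nat_lit 33842) (GT.node (nat_lit 33663) h18.2 (GT.node (nat_lit 33721) h19.2 h20.2)) (GT.node (nat_lit 34063) (GT.node (nat_lit 33943) h21.2 h22.2) (GT.node (nat_lit 34154) h23.2 h24.2))))) gi)) h24.1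
  have h26 := chk_t s26 hp hq (GE.memo (GE.ext _ (GT.node (nat_lit 33164) (GT.node (nat_lit 32602) (GT.node (nat_lit 32371) (GT.node (nat_lit 28973) h0.2 (GT.node (nat_lit 32240) h1.2 h2.2)) (GT.node (nat_lit 32481) h3.2 (GT.node (nat_lit 32550) h4.2 h5.2))) (GT.node (nat_lit 32840) (GT.node (nat_lit 32649) h6.2 (GT.node (nat_lit 32730) h7.2 h8.2)) (GT.node (nat_lit 33018) (GT.node (nat_lit 32943) h9.2 h10.2) (GT.node (nat_lit 33094) h11.2 h12.2)))) (GT.node (nat_lit 33663) (GT.node (nat_lit 33305) (GT.node (nat_lit 33210) h13.2 (GT.node (nat_lit 33279) h14.2 h15.2)) (GT.node (nat_lit 33400) h16.2 (GT.node (nat_lit 33531) h17.2 h18.2))) (GT.node (nat_lit 33943) (GT.node (nat_lit 33721) h19.2 (GT.node (nat_lit 33842) h20.2 h21.2)) (GT.node (nat_lit 34154) (GT.node (nat_lit 34063) h22.2 h23.2) (GT.node (nat_lit 34193) h24.2 h25.2))))) gi)) h25.1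
  have h27 := chk_t s27 hp hq (GE.memo (GE.ext _ (GT.node (nat_lit 33164) (GT.node (nat_lit 32602) (GT.node (nat_lit 32371) (GT.node (nat_lit 28973) h0.2 (GT.node (nat_lit 32240) h1.2 h2.2)) (GT.node (nat_lit 32481) h3.2 (GT.node (nat_lit 32550) h4.2 h5.2))) (GT.node (nat_lit 32840) (GT.node (nat_lit 32649) h6.2 (GT.node (nat_lit 32730) h7.2 h8.2)) (GT.node (nat_lit 33018) (GT.node (nat_lit 32943) h9.2 h10.2) (GT.node (nat_lit 33094) h11.2 h12.2)))) (GT.node (nat_lit 33721) (GT.node (nat_lit 33305) (GT.node (nat_lit 33210) h13.2 (GT.node (nat_lit 33279) h14.2 h15.2)) (GT.node (nat_lit 33531) (GT.node (nat_lit 33400) h16.2 h17.2) (GT.node (nat_lit 33663) h18.2 h19.2))) (GT.node (nat_lit 34063) (GT.node (nat_lit 33842) h20.2 (GT.node (nat_lit 33943) h21.2 h22.2)) (GT.node (nat_lit 34193) (GT.node (nat_lit 34154) h23.2 h24.2) (GT.node (nat_lit 34237) h25.2 h26.2))))) gi)) h26.1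
  have h28 := chk_t s28 hp hq (GE.memo (GE.ext _ (GT.node (nat_lit 33210) (GT.node (nat_lit 32649) (GT.node (nat_lit 32371) (GT.node (nat_lit 28973) h0.2 (GT.node (nat_lit 32240) h1.2 h2.2)) (GT.node (nat_lit 32550) (GT.node (nat_lit 32481) h3.2 h4.2) (GT.node (nat_lit 32602) h5.2 h6.2))) (GT.node (nat_lit 32943) (GT.node (nat_lit 32730) h7.2 (GT.node (nat_lit 32840) h8.2 h9.2)) (GT.node (nat_lit 33094) (GT.node (nat_lit 33018) h10.2 h11.2) (GT.node (nat_lit 33164) h12.2 h13.2)))) (GT.node (nat_lit 33842) (GT.node (nat_lit 33400) (GT.node (nat_lit 33279) h14.2 (GT.node (nat_lit 33305) h15.2 h16.2)) (GT.node (nat_lit 33663) (GT.node (nat_lit 33531) h17.2 h18.2) (GT.node (nat_lit 33721) h19.2 h20.2))) (GT.node (nat_lit 34154) (GT.node (nat_lit 33943) h21.2 (GT.node (nat_lit 34063) h22.2 h23.2)) (GT.node (nat_lit 34237) (GT.node (nat_lit 34193) h24.2 h25.2) (GT.node (nat_lit 34296) h26.2 h27.2))))) gi)) h27.1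
  have h29 := chk_t s29 hp hq (GE.memo (GE.ext _ (GT.node (nat_lit 33210) (GT.node (nat_lit 32649) (GT.node (nat_lit 32371) (GT.node (nat_lit 28973) h0.2 (GT.node (nat_lit 32240) h1.2 h2.2)) (GT.node (nat_lit 32550) (GT.node (nat_lit 32481) h3.2 h4.2) (GT.node (nat_lit 32602) h5.2 h6.2))) (GT.node (nat_lit 32943) (GT.node (nat_lit 32730) h7.2 (GT.node (nat_lit 32840) h8.2 h9.2)) (GT.node (nat_lit 33094) (GT.node (nat_lit 33018) h10.2 h11.2) (GT.node (nat_lit 33164) h12.2 h13.2)))) (GT.node (nat_lit 33842) (GT.node (nat_lit 33400) (GT.node (nat_lit 33279) h14.2 (GT.node (nat_lit 33305) h15.2 h16.2)) (GT.node (nat_lit 33663) (GT.node (nat_lit 33531) h17.2 h18.2) (GT.node (nat_lit 33721) h19.2 h20.2))) (GT.node (nat_lit 34193) (GT.node (nat_lit 34063) (GT.node (nat_lit 33943) h21.2 h22.2) (GT.node (nat_lit 34154) h23.2 h24.2)) (GT.node (nat_lit 34296) (GT.node (nat_lit 34237) h25.2 h26.2) (GT.node (nat_lit 34367)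 h27.2 h28.2))))) gi)) h28.1
  have h30 := chk_t s30 hp hq (GE.memo (GE.ext _ (GT.node (nat_lit 33279) (GT.node (nat_lit 32649) (GT.node (nat_lit 32371) (GT.node (nat_lit 28973) h0.2 (GT.node (nat_lit 32240) h1.2 h2.2)) (GT.node (nat_lit 32550) (GT.node (nat_lit 32481) h3.2 h4.2) (GT.node (nat_lit 32602) h5.2 h6.2))) (GT.node (nat_lit 33018) (GT.node (nat_lit 32840) (GT.node (nat_lit 32730) h7.2 h8.2) (GT.node (nat_lit 32943) h9.2 h10.2)) (GT.node (nat_lit 33164) (GT.node (nat_lit 33094) h11.2 h12.2) (GT.node (nat_lit 33210) h13.2 h14.2)))) (GT.node (nat_lit 33943) (GT.node (nat_lit 33531) (GT.node (nat_lit 33305) h15.2 (GT.node (nat_lit 33400) h16.2 h17.2)) (GT.node (nat_lit 33721) (GT.node (nat_lit 33663) h18.2 h19.2) (GT.node (nat_lit 33842) h20.2 h21.2))) (GT.node (nat_lit 34237) (GT.node (nat_lit 34154) (GT.node (nat_lit 34063) h22.2 h23.2) (GT.node (nat_lit 34193) h24.2 h25.2)) (GT.node (nat_lit 34367)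 (GT.node (nat_lit 34296) h26.2 h27.2) (GT.node (nat_lit 34412) h28.2 h29.2))))) gi)) h29.1
  have h31 := chk_t s31 hp hq (GE.memo (GE.ext _ (GT.node (nat_lit 33279) (GT.node (nat_lit 32649) (GT.node (nat_lit 32371) (GT.node (nat_lit 28973) h0.2 (GT.node (nat_lit 32240) h1.2 h2.2)) (GT.node (nat_lit 32550) (GT.node (nat_lit 32481) h3.2 h4.2) (GT.node (nat_lit 32602) h5.2 h6.2))) (GT.node (nat_lit 33018) (GT.node (nat_lit 32840) (GT.node (nat_lit 32730) h7.2 h8.2) (GT.node (nat_lit 32943) h9.2 h10.2)) (GT.node (nat_lit 33164) (GT.node (nat_lit 33094) h11.2 h12.2) (GT.node (nat_lit 33210) h13.2 h14.2)))) (GT.node (nat_lit 34063) (GT.node (nat_lit 33663) (GT.node (nat_lit 33400) (GT.node (nat_lit 33305) h15.2 h16.2) (GT.node (nat_lit 33531) h17.2 h18.2)) (GT.node (nat_lit 33842) (GT.node (nat_lit 33721) h19.2 h20.2) (GT.node (nat_lit 33943) h21.2 h22.2))) (GT.node (nat_lit 34296) (GT.node (nat_lit 34193) (GT.node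 (nat_lit 34154) h23.2 h24.2) (GT.node (nat_lit 34237) h25.2 h26.2)) (GT.node (nat_lit 34412) (GT.node (nat_lit 34367) h27.2 h28.2) (GT.node (nat_lit 34488) h29.2 h30.2))))) gi)) h30.1
  have h32 := chk_t s32 hp hq (GE.memo (GE.ext _ (GT.node (nat_lit 33305) (GT.node (nat_lit 32730) (GT.node (nat_lit 32481) (GT.node (nat_lit 32240) (GT.node (nat_lit 28973) h0.2 h1.2) (GT.node (nat_lit 32371) h2.2 h3.2)) (GT.node (nat_lit 32602) (GT.node (nat_lit 32550) h4.2 h5.2) (GT.node (nat_lit 32649) h6.2 h7.2))) (GT.node (nat_lit 33094) (GT.node (nat_lit 32943) (GT.node (nat_lit 32840) h8.2 h9.2) (GT.node (nat_lit 33018) h10.2 h11.2)) (GT.node (nat_lit 33210) (GT.node (nat_lit 33164) h12.2 h13.2) (GT.node (nat_lit 33279) h14.2 h15.2)))) (GT.node (nat_lit 34154) (GT.node (nat_lit 33721) (GT.node (nat_lit 33531) (GT.node (nat_lit 33400) h16.2 h17.2) (GT.node (nat_lit 33663) h18.2 h19.2)) (GT.node (nat_lit 33943) (GT.node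 (nat_lit 33842) h20.2 h21.2) (GT.node (nat_lit 34063) h22.2 h23.2))) (GT.node (nat_lit 34367) (GT.node (nat_lit 34237) (GT.node (nat_lit 34193) h24.2 h25.2) (GT.node (nat_lit 34296) h26.2 h27.2)) (GT.node (nat_lit 34488) (GT.node (nat_lit 34412) h28.2 h29.2) (GT.node (nat_lit 34546) h30.2 h31.2))))) gi)) h31.1
  have h33 := chk_t s33 hp hq (GE.memo (GE.ext _ (GT.node (nat_lit 33305) (GT.node (nat_lit 32730) (GT.node (nat_lit 32481) (GT.node (nat_lit 32240) (GT.node (nat_lit 28973) h0.2 h1.2) (GT.node (nat_lit 32371) h2.2 h3.2)) (GT.node (nat_lit 32602) (GT.node (nat_lit 32550) h4.2 h5.2) (GT.node (nat_lit 32649) h6.2 h7.2))) (GT.node (nat_lit 33094) (GT.node (nat_lit 32943) (GT.node (nat_lit 32840) h8.2 h9.2) (GT.node (nat_lit 33018) h10.2 h11.2)) (GT.node (nat_lit 33210) (GT.node (nat_lit 33164) h12.2 h13.2) (GT.node (nat_lit 33279) h14.2 h15.2)))) (GT.node (nat_lit 34154) (GT.node (nat_lit 33721) (GT.node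 (nat_lit 33531) (GT.node (nat_lit 33400) h16.2 h17.2) (GT.node (nat_lit 33663) h18.2 h19.2)) (GT.node (nat_lit 33943) (GT.node (nat_lit 33842) h20.2 h21.2) (GT.node (nat_lit 34063) h22.2 h23.2))) (GT.node (nat_lit 34367) (GT.node (nat_lit 34237) (GT.node (nat_lit 34193) h24.2 h25.2) (GT.node (nat_lit 34296) h26.2 h27.2)) (GT.node (nat_lit 34488) (GT.node (nat_lit 34412) h28.2 h29.2) (GT.node (nat_lit 34546) h30.2 (GT.node (nat_lit 34612) h31.2 h32.2)))))) gi)) h32.1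
  have h34 := chk_t s34 hp hq (GE.memo (GE.ext _ (GT.node (nat_lit 33400) (GT.node (nat_lit 32730) (GT.node (nat_lit 32481) (GT.node (nat_lit 32240) (GT.node (nat_lit 28973) h0.2 h1.2) (GT.node (nat_lit 32371) h2.2 h3.2)) (GT.node (nat_lit 32602) (GT.node (nat_lit 32550) h4.2 h5.2) (GT.node (nat_lit 32649) h6.2 h7.2))) (GT.node (nat_lit 33094) (GT.node (nat_lit 32943) (GT.node (nat_lit 32840) h8.2 h9.2) (GT.node (nat_lit 33018) h10.2 h11.2)) (GT.node (nat_lit 33210) (GT.node (nat_lit 33164) h12.2 h13.2) (GT.node (nat_lit 33279) h14.2 (GT.node (nat_lit 33305) h15.2 h16.2))))) (GT.node (nat_lit 34193) (GT.node (nat_lit 33842) (GT.node (nat_lit 33663) (GT.node (nat_lit 33531) h17.2 h18.2) (GT.node (nat_lit 33721) h19.2 h20.2)) (GT.node (nat_lit 34063) (GT.node (nat_lit 33943) h21.2 h22.2) (GT.node (nat_lit 34154) h23.2 h24.2))) (GT.node (nat_lit 34412) (GT.node (nat_lit 34296) (GT.node (nat_lit 34237) h25.2 h26.2)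 (GT.node (nat_lit 34367) h27.2 h28.2)) (GT.node (nat_lit 34546) (GT.node (nat_lit 34488) h29.2 h30.2) (GT.node (nat_lit 34612) h31.2 (GT.node (nat_lit 34656) h32.2 h33.2)))))) gi)) h33.1
  have h35 := chk_t s35 hp hq (GE.memo (GE.ext _ (GT.node (nat_lit 33400) (GT.node (nat_lit 32730) (GT.node (nat_lit 32481) (GT.node (nat_lit 32240) (GT.node (nat_lit 28973) h0.2 h1.2) (GT.node (nat_lit 32371) h2.2 h3.2)) (GT.node (nat_lit 32602) (GT.node (nat_lit 32550) h4.2 h5.2) (GT.node (nat_lit 32649) h6.2 h7.2))) (GT.node (nat_lit 33094) (GT.node (nat_lit 32943) (GT.node (nat_lit 32840) h8.2 h9.2) (GT.node (nat_lit 33018) h10.2 h11.2)) (GT.node (nat_lit 33210) (GT.node (nat_lit 33164) h12.2 h13.2) (GT.node (nat_lit 33279) h14.2 (GT.node (nat_lit 33305) h15.2 h16.2))))) (GT.node (nat_lit 34237) (GT.node (nat_lit 33842) (GT.node (nat_lit 33663) (GT.node (nat_lit 33531) h17.2 h18.2) (GT.node (nat_lit 33721) h19.2 h20.2))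 (GT.node (nat_lit 34063) (GT.node (nat_lit 33943) h21.2 h22.2) (GT.node (nat_lit 34154) h23.2 (GT.node (nat_lit 34193) h24.2 h25.2)))) (GT.node (nat_lit 34488) (GT.node (nat_lit 34367) (GT.node (nat_lit 34296) h26.2 h27.2) (GT.node (nat_lit 34412) h28.2 h29.2)) (GT.node (nat_lit 34612) (GT.node (nat_lit 34546) h30.2 h31.2) (GT.node (nat_lit 34656) h32.2 (GT.node (nat_lit 34710) h33.2 h34.2)))))) gi)) h34.1
  exact fin (nat_lit 34747) h35.2 o (by decide +kernel)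

end Pool.Agent.Lib.MP_ad48ef_co.Rup.C23_33200

namespace Pool.Agent.Lib.MP_ad48ef_co.Rup.C23_33310

theorem top : Gl.TopS (Gl.S33310 0 0x200200202002002002000200332a) NM.lem := by
  intro _ val hok hs o
  have hn := litv_neg val
  obtain ⟨hp, hq⟩ := chkS_t cs (hs _ (by decide +kernel)) (hs _ (by decide +kernel))
  have gi : GE _ _ ii := GE.inp (t := ti) (nat_lit 1) (nat_lit 2) hp hq (GT.node (nat_lit 8301) (GT.node (nat_lit 5147) (GT.node (nat_lit 3037) (chkI_t ci0 hn hok) (chkI_t ci1 hn hok)) (GT.node (nat_lit 6837) (chkI_t ci2 hn hok) (chkI_t ci3 hn hok))) (GT.node (nat_lit 10772) (GT.node (nat_lit 9612) (chkI_t ci4 hn hok) (chkI_t ci5 hn hok)) (GT.node (nat_lit 11764) (chkI_t ci6 hn hok) (GT.node (nat_lit 12667) (chkI_t ci7 hn hok) (chkI_t ci8 hn hok)))))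
  have h0 := chk_t s0 hp hq (GE.memo gi) Un.init
  have h1 := chk_t s1 hp hq (GE.memo (GE.ext _ h0.2 gi)) h0.1
  have h2 := chk_t s2 hp hq (GE.memo (GE.ext _ (GT.node (nat_lit 30014) h0.2 h1.2) gi)) h1.1
  have h3 := chk_t s3 hp hq (GE.memo (GE.ext _ (GT.node (nat_lit 30014) h0.2 (GT.node (nat_lit 33538) h1.2 h2.2)) gi)) h2.1
  have h4 := chk_t s4 hp hq (GE.memo (GE.ext _ (GT.node (nat_lit 33538) (GT.node (nat_lit 30014) h0.2 h1.2) (GT.node (nat_lit 33966) h2.2 h3.2)) gi)) h3.1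
  have h5 := chk_t s5 hp hq (GE.memo (GE.ext _ (GT.node (nat_lit 33538) (GT.node (nat_lit 30014) h0.2 h1.2) (GT.node (nat_lit 33966) h2.2 (GT.node (nat_lit 34075) h3.2 h4.2))) gi)) h4.1
  have h6 := chk_t s6 hp hq (GE.memo (GE.ext _ (GT.node (nat_lit 33966) (GT.node (nat_lit 30014) h0.2 (GT.node (nat_lit 33538) h1.2 h2.2)) (GT.node (nat_lit 34075) h3.2 (GT.node (nat_lit 34147) h4.2 h5.2))) gi)) h5.1
  have h7 := chk_t s7 hp hq (GE.memo (GE.ext _ (GT.node (nat_lit 33966) (GT.node (nat_lit 30014) h0.2 (GT.node (nat_lit 33538) h1.2 h2.2)) (GT.node (nat_lit 34147) (GT.node (nat_lit 34075) h3.2 h4.2) (GT.node (nat_lit 34190) h5.2 h6.2))) gi)) h6.1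
  have h8 := chk_t s8 hp hq (GE.memo (GE.ext _ (GT.node (nat_lit 34075) (GT.node (nat_lit 33538) (GT.node (nat_lit 30014) h0.2 h1.2) (GT.node (nat_lit 33966) h2.2 h3.2)) (GT.node (nat_lit 34190) (GT.node (nat_lit 34147) h4.2 h5.2) (GT.node (nat_lit 34284) h6.2 h7.2))) gi)) h7.1
  have h9 := chk_t s9 hp hq (GE.memo (GE.ext _ (GT.node (nat_lit 34075) (GT.node (nat_lit 33538) (GT.node (nat_lit 30014) h0.2 h1.2) (GT.node (nat_lit 33966) h2.2 h3.2)) (GT.node (nat_lit 34190) (GT.node (nat_lit 34147) h4.2 h5.2) (GT.node (nat_lit 34284) h6.2 (GT.node (nat_lit 34325) h7.2 h8.2)))) gi)) h8.1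
  have h10 := chk_t s10 hp hq (GE.memo (GE.ext _ (GT.node (nat_lit 34147) (GT.node (nat_lit 33538) (GT.node (nat_lit 30014) h0.2 h1.2) (GT.node (nat_lit 33966) h2.2 (GT.node (nat_lit 34075) h3.2 h4.2))) (GT.node (nat_lit 34284) (GT.node (nat_lit 34190) h5.2 h6.2) (GT.node (nat_lit 34325) h7.2 (GT.node (nat_lit 34395) h8.2 h9.2)))) gi)) h9.1
  have h11 := chk_t s11 hp hq (GE.memo (GE.ext _ (GT.node (nat_lit 34147) (GT.node (nat_lit 33538) (GT.node (nat_lit 30014) h0.2 h1.2) (GT.node (nat_lit 33966) h2.2 (GT.node (nat_lit 34075) h3.2 h4.2))) (GT.node (nat_lit 34325) (GT.node (nat_lit 34190) h5.2 (GT.node (nat_lit 34284) h6.2 h7.2)) (GT.node (nat_lit 34395) h8.2 (GT.node (nat_lit 34488) h9.2 h10.2)))) gi)) h10.1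
  have h12 := chk_t s12 hp hq (GE.memo (GE.ext _ (GT.node (nat_lit 34190) (GT.node (nat_lit 33966) (GT.node (nat_lit 30014) h0.2 (GT.node (nat_lit 33538) h1.2 h2.2)) (GT.node (nat_lit 34075) h3.2 (GT.node (nat_lit 34147) h4.2 h5.2))) (GT.node (nat_lit 34395) (GT.node (nat_lit 34284) h6.2 (GT.node (nat_lit 34325) h7.2 h8.2)) (GT.node (nat_lit 34488) h9.2 (GT.node (nat_lit 34595) h10.2 h11.2)))) gi)) h11.1
  have h13 := chk_t s13 hp hq (GE.memo (GE.ext _ (GT.node (nat_lit 34190) (GT.node (nat_lit 33966) (GT.node (nat_lit 30014) h0.2 (GT.node (nat_lit 33538) h1.2 h2.2)) (GT.node (nat_lit 34075) h3.2 (GT.node (nat_lit 34147) h4.2 h5.2))) (GT.node (nat_lit 34395) (GT.node (nat_lit 34284) h6.2 (GT.node (nat_lit 34325) h7.2 h8.2)) (GT.node (nat_lit 34595) (GT.node (nat_lit 34488) h9.2 h10.2) (GT.node (nat_lit 34674) h11.2 h12.2)))) gi)) h12.1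
  have h14 := chk_t s14 hp hq (GE.memo (GE.ext _ (GT.node (nat_lit 34284) (GT.node (nat_lit 33966) (GT.node (nat_lit 30014) h0.2 (GT.node (nat_lit 33538) h1.2 h2.2)) (GT.node (nat_lit 34147) (GT.node (nat_lit 34075) h3.2 h4.2) (GT.node (nat_lit 34190) h5.2 h6.2))) (GT.node (nat_lit 34488) (GT.node (nat_lit 34325) h7.2 (GT.node (nat_lit 34395) h8.2 h9.2)) (GT.node (nat_lit 34674) (GT.node (nat_lit 34595) h10.2 h11.2) (GT.node (nat_lit 34762) h12.2 h13.2)))) gi)) h13.1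
  have h15 := chk_t s15 hp hq (GE.memo (GE.ext _ (GT.node (nat_lit 34284) (GT.node (nat_lit 33966) (GT.node (nat_lit 30014) h0.2 (GT.node (nat_lit 33538) h1.2 h2.2)) (GT.node (nat_lit 34147) (GT.node (nat_lit 34075) h3.2 h4.2) (GT.node (nat_lit 34190) h5.2 h6.2))) (GT.node (nat_lit 34595) (GT.node (nat_lit 34395) (GT.node (nat_lit 34325) h7.2 h8.2) (GT.node (nat_lit 34488) h9.2 h10.2)) (GT.node (nat_lit 34762) (GT.node (nat_lit 34674) h11.2 h12.2) (GT.node (nat_lit 34837) h13.2 h14.2)))) gi)) h14.1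
  have h16 := chk_t s16 hp hq (GE.memo (GE.ext _ (GT.node (nat_lit 34325) (GT.node (nat_lit 34075) (GT.node (nat_lit 33538) (GT.node (nat_lit 30014) h0.2 h1.2) (GT.node (nat_lit 33966) h2.2 h3.2)) (GT.node (nat_lit 34190) (GT.node (nat_lit 34147) h4.2 h5.2) (GT.node (nat_lit 34284) h6.2 h7.2))) (GT.node (nat_lit 34674) (GT.node (nat_lit 34488) (GT.node (nat_lit 34395) h8.2 h9.2) (GT.node (nat_lit 34595) h10.2 h11.2)) (GT.node (nat_lit 34837) (GT.node (nat_lit 34762) h12.2 h13.2) (GT.node (nat_lit 34898) h14.2 h15.2)))) gi)) h15.1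
  have h17 := chk_t s17 hp hq (GE.memo (GE.ext _ (GT.node (nat_lit 34325) (GT.node (nat_lit 34075) (GT.node (nat_lit 33538) (GT.node (nat_lit 30014) h0.2 h1.2) (GT.node (nat_lit 33966) h2.2 h3.2)) (GT.node (nat_lit 34190) (GT.node (nat_lit 34147) h4.2 h5.2) (GT.node (nat_lit 34284) h6.2 h7.2))) (GT.node (nat_lit 34674) (GT.node (nat_lit 34488) (GT.node (nat_lit 34395) h8.2 h9.2) (GT.node (nat_lit 34595) h10.2 h11.2)) (GT.node (nat_lit 34837) (GT.node (nat_lit 34762) h12.2 h13.2) (GT.node (nat_lit 34898) h14.2 (GT.node (nat_lit 35001) h15.2 h16.2))))) gi)) h16.1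
  have h18 := chk_t s18 hp hq (GE.memo (GE.ext _ (GT.node (nat_lit 34395) (GT.node (nat_lit 34075) (GT.node (nat_lit 33538) (GT.node (nat_lit 30014) h0.2 h1.2) (GT.node (nat_lit 33966) h2.2 h3.2)) (GT.node (nat_lit 34190) (GT.node (nat_lit 34147) h4.2 h5.2) (GT.node (nat_lit 34284) h6.2 (GT.node (nat_lit 34325) h7.2 h8.2)))) (GT.node (nat_lit 34762) (GT.node (nat_lit 34595) (GT.node (nat_lit 34488) h9.2 h10.2) (GT.node (nat_lit 34674) h11.2 h12.2)) (GT.node (nat_lit 34898) (GT.node (nat_lit 34837) h13.2 h14.2) (GT.node (nat_lit 35001) h15.2 (GT.node (nat_lit 35065) h16.2 h17.2))))) gi)) h17.1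
  have h19 := chk_t s19 hp hq (GE.memo (GE.ext _ (GT.node (nat_lit 34395) (GT.node (nat_lit 34075) (GT.node (nat_lit 33538) (GT.node (nat_lit 30014) h0.2 h1.2) (GT.node (nat_lit 33966) h2.2 h3.2)) (GT.node (nat_lit 34190) (GT.node (nat_lit 34147) h4.2 h5.2) (GT.node (nat_lit 34284) h6.2 (GT.node (nat_lit 34325) h7.2 h8.2)))) (GT.node (nat_lit 34837) (GT.node (nat_lit 34595) (GT.node (nat_lit 34488) h9.2 h10.2) (GT.node (nat_lit 34674) h11.2 (GT.node (nat_lit 34762) h12.2 h13.2))) (GT.node (nat_lit 35001) (GT.node (nat_lit 34898) h14.2 h15.2) (GT.node (nat_lit 35065) h16.2 (GT.node (nat_lit 35154) h17.2 h18.2))))) gi)) h18.1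
  have h20 := chk_t s20 hp hq (GE.memo (GE.ext _ (GT.node (nat_lit 34488) (GT.node (nat_lit 34147) (GT.node (nat_lit 33538) (GT.node (nat_lit 30014) h0.2 h1.2) (GT.node (nat_lit 33966) h2.2 (GT.node (nat_lit 34075) h3.2 h4.2))) (GT.node (nat_lit 34284) (GT.node (nat_lit 34190) h5.2 h6.2) (GT.node (nat_lit 34325) h7.2 (GT.node (nat_lit 34395) h8.2 h9.2)))) (GT.node (nat_lit 34898) (GT.node (nat_lit 34674) (GT.node (nat_lit 34595) h10.2 h11.2) (GT.node (nat_lit 34762) h12.2 (GT.node (nat_lit 34837) h13.2 h14.2))) (GT.node (nat_lit 35065) (GT.node (nat_lit 35001) h15.2 h16.2) (GT.node (nat_lit 35154) h17.2 (GT.node (nat_lit 35239) h18.2 h19.2))))) gi)) h19.1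
  have h21 := chk_t s21 hp hq (GE.memo (GE.ext _ (GT.node (nat_lit 34488) (GT.node (nat_lit 34147) (GT.node (nat_lit 33538) (GT.node (nat_lit 30014) h0.2 h1.2) (GT.node (nat_lit 33966) h2.2 (GT.node (nat_lit 34075) h3.2 h4.2))) (GT.node (nat_lit 34284) (GT.node (nat_lit 34190) h5.2 h6.2) (GT.node (nat_lit 34325) h7.2 (GT.node (nat_lit 34395) h8.2 h9.2)))) (GT.node (nat_lit 34898) (GT.node (nat_lit 34674) (GT.node (nat_lit 34595) h10.2 h11.2) (GT.node (nat_lit 34762) h12.2 (GT.node (nat_lit 34837) h13.2 h14.2))) (GT.node (nat_lit 35154) (GT.node (nat_lit 35001) h15.2 (GT.node (nat_lit 35065) h16.2 h17.2)) (GT.node (nat_lit 35239) h18.2 (GT.node (nat_lit 35294) h19.2 h20.2))))) gi)) h20.1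
  have h22 := chk_t s22 hp hq (GE.memo (GE.ext _ (GT.node (nat_lit 34595) (GT.node (nat_lit 34147) (GT.node (nat_lit 33538) (GT.node (nat_lit 30014) h0.2 h1.2) (GT.node (nat_lit 33966) h2.2 (GT.node (nat_lit 34075) h3.2 h4.2))) (GT.node (nat_lit 34325) (GT.node (nat_lit 34190) h5.2 (GT.node (nat_lit 34284) h6.2 h7.2)) (GT.node (nat_lit 34395) h8.2 (GT.node (nat_lit 34488) h9.2 h10.2)))) (GT.node (nat_lit 35001) (GT.node (nat_lit 34762) (GT.node (nat_lit 34674) h11.2 h12.2) (GT.node (nat_lit 34837) h13.2 (GT.node (nat_lit 34898) h14.2 h15.2))) (GT.node (nat_lit 35239) (GT.node (nat_lit 35065) h16.2 (GT.node (nat_lit 35154) h17.2 h18.2)) (GT.node (nat_lit 35294) h19.2 (GT.node (nat_lit 35347) h20.2 h21.2))))) gi)) h21.1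
  have h23 := chk_t s23 hp hq (GE.memo (GE.ext _ (GT.node (nat_lit 34595) (GT.node (nat_lit 34147) (GT.node (nat_lit 33538) (GT.node (nat_lit 30014) h0.2 h1.2) (GT.node (nat_lit 33966) h2.2 (GT.node (nat_lit 34075) h3.2 h4.2))) (GT.node (nat_lit 34325) (GT.node (nat_lit 34190) h5.2 (GT.node (nat_lit 34284) h6.2 h7.2)) (GT.node (nat_lit 34395) h8.2 (GT.node (nat_lit 34488) h9.2 h10.2)))) (GT.node (nat_lit 35065) (GT.node (nat_lit 34837) (GT.node (nat_lit 34674) h11.2 (GT.node (nat_lit 34762) h12.2 h13.2)) (GT.node (nat_lit 34898) h14.2 (GT.node (nat_lit 35001) h15.2 h16.2))) (GT.node (nat_lit 35294) (GT.node (nat_lit 35154) h17.2 (GT.node (nat_lit 35239) h18.2 h19.2)) (GT.node (nat_lit 35347) h20.2 (GT.node (nat_lit 35408) h21.2 h22.2))))) gi)) h22.1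
  have h24 := chk_t s24 hp hq (GE.memo (GE.ext _ (GT.node (nat_lit 34674) (GT.node (nat_lit 34190) (GT.node (nat_lit 33966) (GT.node (nat_lit 30014) h0.2 (GT.node (nat_lit 33538) h1.2 h2.2)) (GT.node (nat_lit 34075) h3.2 (GT.node (nat_lit 34147) h4.2 h5.2))) (GT.node (nat_lit 34395) (GT.node (nat_lit 34284) h6.2 (GT.node (nat_lit 34325) h7.2 h8.2)) (GT.node (nat_lit 34488) h9.2 (GT.node (nat_lit 34595) h10.2 h11.2)))) (GT.node (nat_lit 35154) (GT.node (nat_lit 34898) (GT.node (nat_lit 34762) h12.2 (GT.node (nat_lit 34837) h13.2 h14.2)) (GT.node (nat_lit 35001) h15.2 (GT.node (nat_lit 35065) h16.2 h17.2))) (GT.node (nat_lit 35347) (GT.node (nat_lit 35239) h18.2 (GT.node (nat_lit 35294) h19.2 h20.2)) (GT.node (nat_lit 35408) h21.2 (GT.node (nat_lit 35452) h22.2 h23.2))))) gi)) h23.1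
  have h25 := chk_t s25 hp hq (GE.memo (GE.ext _ (GT.node (nat_lit 34674) (GT.node (nat_lit 34190) (GT.node (nat_lit 33966) (GT.node (nat_lit 30014) h0.2 (GT.node (nat_lit 33538) h1.2 h2.2)) (GT.node (nat_lit 34075) h3.2 (GT.node (nat_lit 34147) h4.2 h5.2))) (GT.node (nat_lit 34395) (GT.node (nat_lit 34284) h6.2 (GT.node (nat_lit 34325) h7.2 h8.2)) (GT.node (nat_lit 34488) h9.2 (GT.node (nat_lit 34595) h10.2 h11.2)))) (GT.node (nat_lit 35154) (GT.node (nat_lit 34898) (GT.node (nat_lit 34762) h12.2 (GT.node (nat_lit 34837) h13.2 h14.2)) (GT.node (nat_lit 35001) h15.2 (GT.node (nat_lit 35065) h16.2 h17.2))) (GT.node (nat_lit 35347) (GT.node (nat_lit 35239) h18.2 (GT.node (nat_lit 35294) h19.2 h20.2)) (GT.node (nat_lit 35452) (GT.node (nat_lit 35408) h21.2 h22.2) (GT.node (nat_lit 35492) h23.2 h24.2))))) gi)) h24.1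
  have h26 := chk_t s26 hp hq (GE.memo (GE.ext _ (GT.node (nat_lit 34762) (GT.node (nat_lit 34190) (GT.node (nat_lit 33966) (GT.node (nat_lit 30014) h0.2 (GT.node (nat_lit 33538) h1.2 h2.2)) (GT.node (nat_lit 34075) h3.2 (GT.node (nat_lit 34147) h4.2 h5.2))) (GT.node (nat_lit 34395) (GT.node (nat_lit 34284) h6.2 (GT.node (nat_lit 34325) h7.2 h8.2)) (GT.node (nat_lit 34595) (GT.node (nat_lit 34488) h9.2 h10.2) (GT.node (nat_lit 34674) h11.2 h12.2)))) (GT.node (nat_lit 35239) (GT.node (nat_lit 35001) (GT.node (nat_lit 34837) h13.2 (GT.node (nat_lit 34898) h14.2 h15.2)) (GT.node (nat_lit 35065) h16.2 (GT.node (nat_lit 35154) h17.2 h18.2))) (GT.node (nat_lit 35408) (GT.node (nat_lit 35294) h19.2 (GT.node (nat_lit 35347) h20.2 h21.2)) (GT.node (nat_lit 35492) (GT.node (nat_lit 35452) h22.2 h23.2) (GT.node (nat_lit 35525) h24.2 h25.2))))) gi)) h25.1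
  have h27 := chk_t s27 hp hq (GE.memo (GE.ext _ (GT.node (nat_lit 34762) (GT.node (nat_lit 34190) (GT.node (nat_lit 33966) (GT.node (nat_lit 30014) h0.2 (GT.node (nat_lit 33538) h1.2 h2.2)) (GT.node (nat_lit 34075) h3.2 (GT.node (nat_lit 34147) h4.2 h5.2))) (GT.node (nat_lit 34395) (GT.node (nat_lit 34284) h6.2 (GT.node (nat_lit 34325) h7.2 h8.2)) (GT.node (nat_lit 34595) (GT.node (nat_lit 34488) h9.2 h10.2) (GT.node (nat_lit 34674) h11.2 h12.2)))) (GT.node (nat_lit 35294) (GT.node (nat_lit 35001) (GT.node (nat_lit 34837) h13.2 (GT.node (nat_lit 34898) h14.2 h15.2)) (GT.node (nat_lit 35154) (GT.node (nat_lit 35065) h16.2 h17.2) (GT.node (nat_lit 35239) h18.2 h19.2))) (GT.node (nat_lit 35452) (GT.node (nat_lit 35347) h20.2 (GT.node (nat_lit 35408) h21.2 h22.2)) (GT.node (nat_lit 35525) (GT.node (nat_lit 35492) h23.2 h24.2) (GT.node (nat_lit 35548) h25.2 h26.2))))) gi)) h26.1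
  have h28 := chk_t s28 hp hq (GE.memo (GE.ext _ (GT.node (nat_lit 34837) (GT.node (nat_lit 34284) (GT.node (nat_lit 33966) (GT.node (nat_lit 30014) h0.2 (GT.node (nat_lit 33538) h1.2 h2.2)) (GT.node (nat_lit 34147) (GT.node (nat_lit 34075) h3.2 h4.2) (GT.node (nat_lit 34190) h5.2 h6.2))) (GT.node (nat_lit 34488) (GT.node (nat_lit 34325) h7.2 (GT.node (nat_lit 34395) h8.2 h9.2)) (GT.node (nat_lit 34674) (GT.node (nat_lit 34595) h10.2 h11.2) (GT.node (nat_lit 34762) h12.2 h13.2)))) (GT.node (nat_lit 35347) (GT.node (nat_lit 35065) (GT.node (nat_lit 34898) h14.2 (GT.node (nat_lit 35001) h15.2 h16.2)) (GT.node (nat_lit 35239) (GT.node (nat_lit 35154) h17.2 h18.2) (GT.node (nat_lit 35294) h19.2 h20.2))) (GT.node (nat_lit 35492) (GT.node (nat_lit 35408) h21.2 (GT.node (nat_lit 35452) h22.2 h23.2)) (GT.node (nat_lit 35548) (GT.node (nat_lit 35525) h24.2 h25.2) (GT.node (nat_lit 35595) h26.2 h27.2))))) gi)) h27.1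
  have h29 := chk_t s29 hp hq (GE.memo (GE.ext _ (GT.node (nat_lit 34837) (GT.node (nat_lit 34284) (GT.node (nat_lit 33966) (GT.node (nat_lit 30014) h0.2 (GT.node (nat_lit 33538) h1.2 h2.2)) (GT.node (nat_lit 34147) (GT.node (nat_lit 34075) h3.2 h4.2) (GT.node (nat_lit 34190) h5.2 h6.2))) (GT.node (nat_lit 34488) (GT.node (nat_lit 34325) h7.2 (GT.node (nat_lit 34395) h8.2 h9.2)) (GT.node (nat_lit 34674) (GT.node (nat_lit 34595) h10.2 h11.2) (GT.node (nat_lit 34762) h12.2 h13.2)))) (GT.node (nat_lit 35347) (GT.node (nat_lit 35065) (GT.node (nat_lit 34898) h14.2 (GT.node (nat_lit 35001) h15.2 h16.2)) (GT.node (nat_lit 35239) (GT.node (nat_lit 35154) h17.2 h18.2) (GT.node (nat_lit 35294) h19.2 h20.2))) (GT.node (nat_lit 35525) (GT.node (nat_lit 35452) (GT.node (nat_lit 35408) h21.2 h22.2) (GT.node (nat_lit 35492) h23.2 h24.2)) (GT.node (nat_lit 35595) (GT.node (nat_lit 35548) h25.2 h26.2) (GT.node (nat_lit 35663)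 h27.2 h28.2))))) gi)) h28.1
  have h30 := chk_t s30 hp hq (GE.memo (GE.ext _ (GT.node (nat_lit 34898) (GT.node (nat_lit 34284) (GT.node (nat_lit 33966) (GT.node (nat_lit 30014) h0.2 (GT.node (nat_lit 33538) h1.2 h2.2)) (GT.node (nat_lit 34147) (GT.node (nat_lit 34075) h3.2 h4.2) (GT.node (nat_lit 34190) h5.2 h6.2))) (GT.node (nat_lit 34595) (GT.node (nat_lit 34395) (GT.node (nat_lit 34325) h7.2 h8.2) (GT.node (nat_lit 34488) h9.2 h10.2)) (GT.node (nat_lit 34762) (GT.node (nat_lit 34674) h11.2 h12.2) (GT.node (nat_lit 34837) h13.2 h14.2)))) (GT.node (nat_lit 35408) (GT.node (nat_lit 35154) (GT.node (nat_lit 35001) h15.2 (GT.node (nat_lit 35065) h16.2 h17.2)) (GT.node (nat_lit 35294) (GT.node (nat_lit 35239) h18.2 h19.2) (GT.node (nat_lit 35347) h20.2 h21.2))) (GT.node (nat_lit 35548) (GT.node (nat_lit 35492) (GT.node (nat_lit 35452) h22.2 h23.2) (GT.node (nat_lit 35525) h24.2 h25.2)) (GT.node (nat_lit 35663)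 (GT.node (nat_lit 35595) h26.2 h27.2) (GT.node (nat_lit 35745) h28.2 h29.2))))) gi)) h29.1
  have h31 := chk_t s31 hp hq (GE.memo (GE.ext _ (GT.node (nat_lit 34898) (GT.node (nat_lit 34284) (GT.node (nat_lit 33966) (GT.node (nat_lit 30014) h0.2 (GT.node (nat_lit 33538) h1.2 h2.2)) (GT.node (nat_lit 34147) (GT.node (nat_lit 34075) h3.2 h4.2) (GT.node (nat_lit 34190) h5.2 h6.2))) (GT.node (nat_lit 34595) (GT.node (nat_lit 34395) (GT.node (nat_lit 34325) h7.2 h8.2) (GT.node (nat_lit 34488) h9.2 h10.2)) (GT.node (nat_lit 34762) (GT.node (nat_lit 34674) h11.2 h12.2) (GT.node (nat_lit 34837) h13.2 h14.2)))) (GT.node (nat_lit 35452) (GT.node (nat_lit 35239) (GT.node (nat_lit 35065) (GT.node (nat_lit 35001) h15.2 h16.2) (GT.node (nat_lit 35154) h17.2 h18.2)) (GT.node (nat_lit 35347) (GT.node (nat_lit 35294) h19.2 h20.2) (GT.node (nat_lit 35408) h21.2 h22.2))) (GT.node (nat_lit 35595) (GT.node (nat_lit 35525) (GT.node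 (nat_lit 35492) h23.2 h24.2) (GT.node (nat_lit 35548) h25.2 h26.2)) (GT.node (nat_lit 35745) (GT.node (nat_lit 35663) h27.2 h28.2) (GT.node (nat_lit 35817) h29.2 h30.2))))) gi)) h30.1
  have h32 := chk_t s32 hp hq (GE.memo (GE.ext _ (GT.node (nat_lit 35001) (GT.node (nat_lit 34325) (GT.node (nat_lit 34075) (GT.node (nat_lit 33538) (GT.node (nat_lit 30014) h0.2 h1.2) (GT.node (nat_lit 33966) h2.2 h3.2)) (GT.node (nat_lit 34190) (GT.node (nat_lit 34147) h4.2 h5.2) (GT.node (nat_lit 34284) h6.2 h7.2))) (GT.node (nat_lit 34674) (GT.node (nat_lit 34488) (GT.node (nat_lit 34395) h8.2 h9.2) (GT.node (nat_lit 34595) h10.2 h11.2)) (GT.node (nat_lit 34837) (GT.node (nat_lit 34762) h12.2 h13.2) (GT.node (nat_lit 34898) h14.2 h15.2)))) (GT.node (nat_lit 35492) (GT.node (nat_lit 35294) (GT.node (nat_lit 35154) (GT.node (nat_lit 35065) h16.2 h17.2) (GT.node (nat_lit 35239) h18.2 h19.2)) (GT.node (nat_lit 35408) (GT.node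 (nat_lit 35347) h20.2 h21.2) (GT.node (nat_lit 35452) h22.2 h23.2))) (GT.node (nat_lit 35663) (GT.node (nat_lit 35548) (GT.node (nat_lit 35525) h24.2 h25.2) (GT.node (nat_lit 35595) h26.2 h27.2)) (GT.node (nat_lit 35817) (GT.node (nat_lit 35745) h28.2 h29.2) (GT.node (nat_lit 35885) h30.2 h31.2))))) gi)) h31.1
  have h33 := chk_t s33 hp hq (GE.memo (GE.ext _ (GT.node (nat_lit 35001) (GT.node (nat_lit 34325) (GT.node (nat_lit 34075) (GT.node (nat_lit 33538) (GT.node (nat_lit 30014) h0.2 h1.2) (GT.node (nat_lit 33966) h2.2 h3.2)) (GT.node (nat_lit 34190) (GT.node (nat_lit 34147) h4.2 h5.2) (GT.node (nat_lit 34284) h6.2 h7.2))) (GT.node (nat_lit 34674) (GT.node (nat_lit 34488) (GT.node (nat_lit 34395) h8.2 h9.2) (GT.node (nat_lit 34595) h10.2 h11.2)) (GT.node (nat_lit 34837) (GT.node (nat_lit 34762) h12.2 h13.2) (GT.node (nat_lit 34898) h14.2 h15.2)))) (GT.node (nat_lit 35492) (GT.node (nat_lit 35294) (GT.node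 (nat_lit 35154) (GT.node (nat_lit 35065) h16.2 h17.2) (GT.node (nat_lit 35239) h18.2 h19.2)) (GT.node (nat_lit 35408) (GT.node (nat_lit 35347) h20.2 h21.2) (GT.node (nat_lit 35452) h22.2 h23.2))) (GT.node (nat_lit 35663) (GT.node (nat_lit 35548) (GT.node (nat_lit 35525) h24.2 h25.2) (GT.node (nat_lit 35595) h26.2 h27.2)) (GT.node (nat_lit 35817) (GT.node (nat_lit 35745) h28.2 h29.2) (GT.node (nat_lit 35885) h30.2 (GT.node (nat_lit 35950) h31.2 h32.2)))))) gi)) h32.1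
  have h34 := chk_t s34 hp hq (GE.memo (GE.ext _ (GT.node (nat_lit 35065) (GT.node (nat_lit 34325) (GT.node (nat_lit 34075) (GT.node (nat_lit 33538) (GT.node (nat_lit 30014) h0.2 h1.2) (GT.node (nat_lit 33966) h2.2 h3.2)) (GT.node (nat_lit 34190) (GT.node (nat_lit 34147) h4.2 h5.2) (GT.node (nat_lit 34284) h6.2 h7.2))) (GT.node (nat_lit 34674) (GT.node (nat_lit 34488) (GT.node (nat_lit 34395) h8.2 h9.2) (GT.node (nat_lit 34595) h10.2 h11.2)) (GT.node (nat_lit 34837) (GT.node (nat_lit 34762) h12.2 h13.2) (GT.node (nat_lit 34898) h14.2 (GT.node (nat_lit 35001) h15.2 h16.2))))) (GT.node (nat_lit 35525) (GT.node (nat_lit 35347) (GT.node (nat_lit 35239) (GT.node (nat_lit 35154) h17.2 h18.2) (GT.node (nat_lit 35294) h19.2 h20.2)) (GT.node (nat_lit 35452) (GT.node (nat_lit 35408) h21.2 h22.2) (GT.node (nat_lit 35492) h23.2 h24.2))) (GT.node (nat_lit 35745) (GT.node (nat_lit 35595) (GT.node (nat_lit 35548) h25.2 h26.2)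 (GT.node (nat_lit 35663) h27.2 h28.2)) (GT.node (nat_lit 35885) (GT.node (nat_lit 35817) h29.2 h30.2) (GT.node (nat_lit 35950) h31.2 (GT.node (nat_lit 36009) h32.2 h33.2)))))) gi)) h33.1
  have h35 := chk_t s35 hp hq (GE.memo (GE.ext _ (GT.node (nat_lit 35065) (GT.node (nat_lit 34325) (GT.node (nat_lit 34075) (GT.node (nat_lit 33538) (GT.node (nat_lit 30014) h0.2 h1.2) (GT.node (nat_lit 33966) h2.2 h3.2)) (GT.node (nat_lit 34190) (GT.node (nat_lit 34147) h4.2 h5.2) (GT.node (nat_lit 34284) h6.2 h7.2))) (GT.node (nat_lit 34674) (GT.node (nat_lit 34488) (GT.node (nat_lit 34395) h8.2 h9.2) (GT.node (nat_lit 34595) h10.2 h11.2)) (GT.node (nat_lit 34837) (GT.node (nat_lit 34762) h12.2 h13.2) (GT.node (nat_lit 34898) h14.2 (GT.node (nat_lit 35001) h15.2 h16.2))))) (GT.node (nat_lit 35548) (GT.node (nat_lit 35347) (GT.node (nat_lit 35239) (GT.node (nat_lit 35154) h17.2 h18.2) (GT.node (nat_lit 35294) h19.2 h20.2))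 (GT.node (nat_lit 35452) (GT.node (nat_lit 35408) h21.2 h22.2) (GT.node (nat_lit 35492) h23.2 (GT.node (nat_lit 35525) h24.2 h25.2)))) (GT.node (nat_lit 35817) (GT.node (nat_lit 35663) (GT.node (nat_lit 35595) h26.2 h27.2) (GT.node (nat_lit 35745) h28.2 h29.2)) (GT.node (nat_lit 35950) (GT.node (nat_lit 35885) h30.2 h31.2) (GT.node (nat_lit 36009) h32.2 (GT.node (nat_lit 36053) h33.2 h34.2)))))) gi)) h34.1
  have h36 := chk_t s36 hp hq (GE.memo (GE.ext _ (GT.node (nat_lit 35154) (GT.node (nat_lit 34395) (GT.node (nat_lit 34075) (GT.node (nat_lit 33538) (GT.node (nat_lit 30014) h0.2 h1.2) (GT.node (nat_lit 33966) h2.2 h3.2)) (GT.node (nat_lit 34190) (GT.node (nat_lit 34147) h4.2 h5.2) (GT.node (nat_lit 34284) h6.2 (GT.node (nat_lit 34325) h7.2 h8.2)))) (GT.node (nat_lit 34762) (GT.node (nat_lit 34595) (GT.node (nat_lit 34488) h9.2 h10.2) (GT.node (nat_lit 34674) h11.2 h12.2)) (GT.node (nat_lit 34898) (GT.node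 (nat_lit 34837) h13.2 h14.2) (GT.node (nat_lit 35001) h15.2 (GT.node (nat_lit 35065) h16.2 h17.2))))) (GT.node (nat_lit 35595) (GT.node (nat_lit 35408) (GT.node (nat_lit 35294) (GT.node (nat_lit 35239) h18.2 h19.2) (GT.node (nat_lit 35347) h20.2 h21.2)) (GT.node (nat_lit 35492) (GT.node (nat_lit 35452) h22.2 h23.2) (GT.node (nat_lit 35525) h24.2 (GT.node (nat_lit 35548) h25.2 h26.2)))) (GT.node (nat_lit 35885) (GT.node (nat_lit 35745) (GT.node (nat_lit 35663) h27.2 h28.2) (GT.node (nat_lit 35817) h29.2 h30.2)) (GT.node (nat_lit 36009) (GT.node (nat_lit 35950) h31.2 h32.2) (GT.node (nat_lit 36053) h33.2 (GT.node (nat_lit 36125) h34.2 h35.2)))))) gi)) h35.1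
  have h37 := chk_t s37 hp hq (GE.memo (GE.ext _ (GT.node (nat_lit 35154) (GT.node (nat_lit 34395) (GT.node (nat_lit 34075) (GT.node (nat_lit 33538) (GT.node (nat_lit 30014) h0.2 h1.2) (GT.node (nat_lit 33966) h2.2 h3.2)) (GT.node (nat_lit 34190) (GT.node (nat_lit 34147) h4.2 h5.2) (GT.node (nat_lit 34284) h6.2 (GT.node (nat_lit 34325) h7.2 h8.2)))) (GT.node (nat_lit 34762) (GT.node (nat_lit 34595) (GT.node (nat_lit 34488) h9.2 h10.2) (GT.node (nat_lit 34674) h11.2 h12.2)) (GT.node (nat_lit 34898) (GT.node (nat_lit 34837) h13.2 h14.2) (GT.node (nat_lit 35001) h15.2 (GT.node (nat_lit 35065) h16.2 h17.2))))) (GT.node (nat_lit 35595) (GT.node (nat_lit 35408) (GT.node (nat_lit 35294) (GT.node (nat_lit 35239) h18.2 h19.2) (GT.node (nat_lit 35347) h20.2 h21.2)) (GT.node (nat_lit 35492) (GT.node (nat_lit 35452) h22.2 h23.2) (GT.node (nat_lit 35525) h24.2 (GT.node (nat_lit 35548) h25.2 h26.2)))) (GT.node (nat_lit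 35950) (GT.node (nat_lit 35745) (GT.node (nat_lit 35663) h27.2 h28.2) (GT.node (nat_lit 35817) h29.2 (GT.node (nat_lit 35885) h30.2 h31.2))) (GT.node (nat_lit 36053) (GT.node (nat_lit 36009) h32.2 h33.2) (GT.node (nat_lit 36125) h34.2 (GT.node (nat_lit 36157) h35.2 h36.2)))))) gi)) h36.1
  exact fin (nat_lit 36187) h37.2 o (by decide +kernel)

end Pool.Agent.Lib.MP_ad48ef_co.Rup.C23_33310

namespace Pool.Agent.Lib.MP_ad48ef_co.Rup.C23_32310

theorem top : Gl.TopS (Gl.S32310 0 0x200200202002000000000200332a) NM.lem := by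
  intro _ val hok hs o
  have hn := litv_neg val
  obtain ⟨hp, hq⟩ := chkS_t cs (hs _ (by decide +kernel)) (hs _ (by decide +kernel))
  have gi : GE _ _ ii := GE.inp (t := ti) (nat_lit 1) (nat_lit 1) hp hq (GT.node (nat_lit 4687) (GT.node (nat_lit 2907) (chkI_t ci0 hn hok) (chkI_t ci1 hn hok)) (GT.node (nat_lit 5934) (chkI_t ci2 hn hok) (GT.node (nat_lit 6887) (chkI_t ci3 hn hok) (chkI_t ci4 hn hok))))
  have h0 := chk_t s0 hp hq (GE.memo gi) Un.init
  have h1 := chk_t s1 hp hq (GE.memo (GE.ext _ h0.2 gi)) h0.1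
  have h2 := chk_t s2 hp hq (GE.memo (GE.ext _ (GT.node (nat_lit 9391) h0.2 h1.2) gi)) h1.1
  have h3 := chk_t s3 hp hq (GE.memo (GE.ext _ (GT.node (nat_lit 9391) h0.2 (GT.node (nat_lit 9486) h1.2 h2.2)) gi)) h2.1
  have h4 := chk_t s4 hp hq (GE.memo (GE.ext _ (GT.node (nat_lit 9486) (GT.node (nat_lit 9391) h0.2 h1.2) (GT.node (nat_lit 9546) h2.2 h3.2)) gi)) h3.1
  have h5 := chk_t s5 hp hq (GE.memo (GE.ext _ (GT.node (nat_lit 9486) (GT.node (nat_lit 9391) h0.2 h1.2) (GT.node (nat_lit 9546) h2.2 (GT.node (nat_lit 9587) h3.2 h4.2))) gi)) h4.1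
  have h6 := chk_t s6 hp hq (GE.memo (GE.ext _ (GT.node (nat_lit 9546) (GT.node (nat_lit 9391) h0.2 (GT.node (nat_lit 9486) h1.2 h2.2)) (GT.node (nat_lit 9587) h3.2 (GT.node (nat_lit 9623) h4.2 h5.2))) gi)) h5.1
  exact fin (nat_lit 9655) h6.2 o (by decide +kernel)

end Pool.Agent.Lib.MP_ad48ef_co.Rup.C23_32310

namespace Pool.Agent.Lib.MP_ad48ef_co.Rup.C40_33300

theorem top : Gl.TopS (Gl.S33300 0 0x2002002020020020200200203324) NM.lem := by
  intro _ val hok hs o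
  have hn := litv_neg val
  obtain ⟨hp, hq⟩ := chkS_t cs (hs _ (by decide +kernel)) (hs _ (by decide +kernel))
  have gi : GE _ _ ii := GE.inp (t := ti) (nat_lit 3) (nat_lit 6) hp hq (GT.node (nat_lit 2395) (chkI_t ci0 hn hok) (GT.node (nat_lit 3922) (chkI_t ci1 hn hok) (chkI_t ci2 hn hok)))
  have h0 := chk_t s0 hp hq (GE.memo gi) Un.init
  have h1 := chk_t s1 hp hq (GE.memo (GE.ext _ h0.2 gi)) h0.1
  have h2 := chk_t s2 hp hq (GE.memo (GE.ext _ (GT.node (nat_lit 28621) h0.2 h1.2) gi)) h1.1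
  have h3 := chk_t s3 hp hq (GE.memo (GE.ext _ (GT.node (nat_lit 28621) h0.2 (GT.node (nat_lit 28708) h1.2 h2.2)) gi)) h2.1
  have h4 := chk_t s4 hp hq (GE.memo (GE.ext _ (GT.node (nat_lit 28708) (GT.node (nat_lit 28621) h0.2 h1.2) (GT.node (nat_lit 28785) h2.2 h3.2)) gi)) h3.1
  have h5 := chk_t s5 hp hq (GE.memo (GE.ext _ (GT.node (nat_lit 28708) (GT.node (nat_lit 28621) h0.2 h1.2) (GT.node (nat_lit 28785) h2.2 (GT.node (nat_lit 28850) h3.2 h4.2))) gi)) h4.1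
  have h6 := chk_t s6 hp hq (GE.memo (GE.ext _ (GT.node (nat_lit 28785) (GT.node (nat_lit 28621) h0.2 (GT.node (nat_lit 28708) h1.2 h2.2)) (GT.node (nat_lit 28850) h3.2 (GT.node (nat_lit 28897) h4.2 h5.2))) gi)) h5.1
  have h7 := chk_t s7 hp hq (GE.memo (GE.ext _ (GT.node (nat_lit 28785) (GT.node (nat_lit 28621) h0.2 (GT.node (nat_lit 28708) h1.2 h2.2)) (GT.node (nat_lit 28897) (GT.node (nat_lit 28850) h3.2 h4.2) (GT.node (nat_lit 28938) h5.2 h6.2))) gi)) h6.1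
  exact fin (nat_lit 28999) h7.2 o (by decide +kernel)

end Pool.Agent.Lib.MP_ad48ef_co.Rup.C40_33300

namespace Pool.Agent.Lib.MP_ad48ef_co.Rup.C11_32200

theorem top : Gl.TopS (Gl.S32200 0 0x2002000000020000000200203311) NM.lem := by
  intro _ val hok hs o
  have hn := litv_neg val
  obtain ⟨hp, hq⟩ := chkS_t cs (hs _ (by decide +kernel)) (hs _ (by decide +kernel))
  have gi : GE _ _ ii := GE.inp (t := ti) (nat_lit 1) (nat_lit 2) hp hq (GT.node (nat_lit 2577) (chkI_t ci0 hn hok) (GT.node (nat_lit 3945) (chkI_t ci1 hn hok) (chkI_t ci2 hn hok)))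
  have h0 := chk_t s0 hp hq (GE.memo gi) Un.init
  have h1 := chk_t s1 hp hq (GE.memo (GE.ext _ h0.2 gi)) h0.1
  have h2 := chk_t s2 hp hq (GE.memo (GE.ext _ (GT.node (nat_lit 10399) h0.2 h1.2) gi)) h1.1
  have h3 := chk_t s3 hp hq (GE.memo (GE.ext _ (GT.node (nat_lit 10399) h0.2 (GT.node (nat_lit 10524) h1.2 h2.2)) gi)) h2.1
  have h4 := chk_t s4 hp hq (GE.memo (GE.ext _ (GT.node (nat_lit 10524) (GT.node (nat_lit 10399) h0.2 h1.2) (GT.node (nat_lit 10682) h2.2 h3.2)) gi)) h3.1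
  have h5 := chk_t s5 hp hq (GE.memo (GE.ext _ (GT.node (nat_lit 10524) (GT.node (nat_lit 10399) h0.2 h1.2) (GT.node (nat_lit 10682) h2.2 (GT.node (nat_lit 10765) h3.2 h4.2))) gi)) h4.1
  have h6 := chk_t s6 hp hq (GE.memo (GE.ext _ (GT.node (nat_lit 10682) (GT.node (nat_lit 10399) h0.2 (GT.node (nat_lit 10524) h1.2 h2.2)) (GT.node (nat_lit 10765) h3.2 (GT.node (nat_lit 10843) h4.2 h5.2))) gi)) h5.1
  have h7 := chk_t s7 hp hq (GE.memo (GE.ext _ (GT.node (nat_lit 10682) (GT.node (nat_lit 10399) h0.2 (GT.node (nat_lit 10524) h1.2 h2.2)) (GT.node (nat_lit 10843) (GT.node (nat_lit 10765) h3.2 h4.2) (GT.node (nat_lit 10894) h5.2 h6.2))) gi)) h6.1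
  exact fin (nat_lit 10958) h7.2 o (by decide +kernel)

end Pool.Agent.Lib.MP_ad48ef_co.Rup.C11_32200

namespace Pool.Agent.Lib.MP_ad48ef_co.Rup.C31_33200

theorem top : Gl.TopS (Gl.S33200 0 0x2002000000020020200200203323) NM.lem := by
  intro _ val hok hs o
  have hn := litv_neg val
  obtain ⟨hp, hq⟩ := chkS_t cs (hs _ (by decide +kernel)) (hs _ (by decide +kernel))
  have gi : GE _ _ ii := GE.inp (t := ti) (nat_lit 1) (nat_lit 2) hp hq (GT.node (nat_lit 2776) (chkI_t ci0 hn hok) (GT.node (nat_lit 4518) (chkI_t ci1 hn hok) (chkI_t ci2 hn hok)))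
  have h0 := chk_t s0 hp hq (GE.memo gi) Un.init
  have h1 := chk_t s1 hp hq (GE.memo (GE.ext _ h0.2 gi)) h0.1
  have h2 := chk_t s2 hp hq (GE.memo (GE.ext _ (GT.node (nat_lit 12905) h0.2 h1.2) gi)) h1.1
  have h3 := chk_t s3 hp hq (GE.memo (GE.ext _ (GT.node (nat_lit 12905) h0.2 (GT.node (nat_lit 13070) h1.2 h2.2)) gi)) h2.1
  have h4 := chk_t s4 hp hq (GE.memo (GE.ext _ (GT.node (nat_lit 13070) (GT.node (nat_lit 12905) h0.2 h1.2) (GT.node (nat_lit 13153) h2.2 h3.2)) gi)) h3.1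
  have h5 := chk_t s5 hp hq (GE.memo (GE.ext _ (GT.node (nat_lit 13070) (GT.node (nat_lit 12905) h0.2 h1.2) (GT.node (nat_lit 13153) h2.2 (GT.node (nat_lit 13230) h3.2 h4.2))) gi)) h4.1
  have h6 := chk_t s6 hp hq (GE.memo (GE.ext _ (GT.node (nat_lit 13153) (GT.node (nat_lit 12905) h0.2 (GT.node (nat_lit 13070) h1.2 h2.2)) (GT.node (nat_lit 13230) h3.2 (GT.node (nat_lit 13282) h4.2 h5.2))) gi)) h5.1
  have h7 := chk_t s7 hp hq (GE.memo (GE.ext _ (GT.node (nat_lit 13153) (GT.node (nat_lit 12905) h0.2 (GT.node (nat_lit 13070) h1.2 h2.2)) (GT.node (nat_lit 13282) (GT.node (nat_lit 13230) h3.2 h4.2) (GT.node (nat_lit 13356) h5.2 h6.2))) gi)) h6.1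
  have h8 := chk_t s8 hp hq (GE.memo (GE.ext _ (GT.node (nat_lit 13230) (GT.node (nat_lit 13070) (GT.node (nat_lit 12905) h0.2 h1.2) (GT.node (nat_lit 13153) h2.2 h3.2)) (GT.node (nat_lit 13356) (GT.node (nat_lit 13282) h4.2 h5.2) (GT.node (nat_lit 13431) h6.2 h7.2))) gi)) h7.1
  exact fin (nat_lit 13482) h8.2 o (by decide +kernel)

end Pool.Agent.Lib.MP_ad48ef_co.Rup.C31_33200

namespace Pool.Agent.Lib.MP_ad48ef_co.Rup.C31_33310

theorem top : Gl.TopS (Gl.S33310 0 0x2002002020020020020002003323) NM.lem := by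
  intro _ val hok hs o
  have hn := litv_neg val
  obtain ⟨hp, hq⟩ := chkS_t cs (hs _ (by decide +kernel)) (hs _ (by decide +kernel))
  have gi : GE _ _ ii := GE.inp (t := ti) (nat_lit 1) (nat_lit 2) hp hq (GT.node (nat_lit 2638) (chkI_t ci0 hn hok) (GT.node (nat_lit 4191) (chkI_t ci1 hn hok) (chkI_t ci2 hn hok)))
  have h0 := chk_t s0 hp hq (GE.memo gi) Un.init
  have h1 := chk_t s1 hp hq (GE.memo (GE.ext _ h0.2 gi)) h0.1
  have h2 := chk_t s2 hp hq (GE.memo (GE.ext _ (GT.node (nat_lit 11058) h0.2 h1.2) gi)) h1.1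
  have h3 := chk_t s3 hp hq (GE.memo (GE.ext _ (GT.node (nat_lit 11058) h0.2 (GT.node (nat_lit 11176) h1.2 h2.2)) gi)) h2.1
  have h4 := chk_t s4 hp hq (GE.memo (GE.ext _ (GT.node (nat_lit 11176) (GT.node (nat_lit 11058) h0.2 h1.2) (GT.node (nat_lit 11264) h2.2 h3.2)) gi)) h3.1
  have h5 := chk_t s5 hp hq (GE.memo (GE.ext _ (GT.node (nat_lit 11176) (GT.node (nat_lit 11058) h0.2 h1.2) (GT.node (nat_lit 11264) h2.2 (GT.node (nat_lit 11330) h3.2 h4.2))) gi)) h4.1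
  have h6 := chk_t s6 hp hq (GE.memo (GE.ext _ (GT.node (nat_lit 11264) (GT.node (nat_lit 11058) h0.2 (GT.node (nat_lit 11176) h1.2 h2.2)) (GT.node (nat_lit 11330) h3.2 (GT.node (nat_lit 11386) h4.2 h5.2))) gi)) h5.1
  exact fin (nat_lit 11421) h6.2 o (by decide +kernel)

end Pool.Agent.Lib.MP_ad48ef_co.Rup.C31_33310

namespace Pool.Agent.Lib.MP_ad48ef_co.Rup.C11_33210

theorem top : Gl.TopS (Gl.S33210 0 0x2002000000020020020002003311) NM.lem := by
  intro _ val hok hs o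
  have hn := litv_neg val
  obtain ⟨hp, hq⟩ := chkS_t cs (hs _ (by decide +kernel)) (hs _ (by decide +kernel))
  have gi : GE _ _ ii := GE.inp (t := ti) (nat_lit 1) (nat_lit 2) hp hq (chkI_t ci0 hn hok)
  have h0 := chk_t s0 hp hq (GE.memo gi) Un.init
  have h1 := chk_t s1 hp hq (GE.memo (GE.ext _ h0.2 gi)) h0.1
  exact fin (nat_lit 3938) h1.2 o (by decide +kernel)

end Pool.Agent.Lib.MP_ad48ef_co.Rup.C11_33210
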