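import Pool.Agent.Lib.MP_ad48ef_co.Rows

/-!
# A kernel-friendly checker for tableau proofs about planar graphs of diameter three

The rules are written with all bit operations expanded; the lemmas `*_eq` give readable forms.
-/

namespace Pool.Agent.Lib.MP_ad48ef_co

structure Par where
  m : ℕ
  K : ℕ
  Y : ℕ
  rim : ℕ
  X0 : ℕ
  VV : ℕ
  far : ℕ
  sc : ℕ
  sn : ℕ
  tab : ℕ
  cl : ℕ
  ca : ℕ
  ft : ℕ
  fm : ℕ
  v3 : ℕ
  idm : ℕ
  hm : ℕ

inductive DB : Type
  | leaf : ℕ → ℕ → DB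
  | node : ℕ → DB → DB → DB

noncomputable def cnd (p : Bool) (a b : ℕ) : ℕ := Bool.rec (motive := fun _ => ℕ) b a p
noncomputable def ok (bad a : ℕ) : ℕ := Bool.rec (motive := fun _ => ℕ) 0 a (Nat.beq bad 0)

def tk (c : ℕ) : ℕ := Nat.land c 31
def one (a : ℕ) : ℕ := Nat.shiftLeft 1 a
def dg (a : ℕ) : ℕ := Nat.shiftLeft 18446744073709551617 a
def ones (a : ℕ) : ℕ := Nat.pred (Nat.shiftLeft 1 a)
def ns (x y : ℕ) : ℕ := Nat.xor x (Nat.land x y)
def nz1 (x : ℕ) : ℕ := Nat.sub 1 x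
def fo (x n : ℕ) : ℕ := Nat.lor x (Nat.shiftRight x n)
def frz (M t : ℕ) : ℕ := Nat.lor (Nat.shiftRight M 6144) (Nat.lor (rw3 M t) (cl3 M t))
def fn16 (R : ℕ) : ℕ := Nat.land (Nat.land (Nat.shiftRight R 64) (Nat.shiftRight R 128)) 65535
def sof (U : ℕ) : ℕ := Nat.land (Nat.shiftRight U 64) 4294967295
def mu (T a : ℕ) : ℕ := tk (Nat.shiftRight T (Nat.mul 5 a))
def M16 : ℕ := 0xffffffffffffffffffffffffffffffffffffffffffffffffffffffffffffffffffffffffffffffffffffffffffffffffffffffffffffffffffffffffffffffffffffffffffffffffffffffffffffffffffffffffffffffffffffffffffffffffffffffffffffffffffffffffffffffffffffffffffffffffffffffffffffffffffffffffffffffffffffffffffffffffffffffffffffffffffffffffffffffffffffffffffffffffffffffffffffffffffffffffffffffffffffffffffffffffffffffffffffffffffffffffffffffffffffffffffffffffffffffffffffffffffffffffffffffffffffffffffffffffffffffffffffffffffffffffffffffffffffffffffffffffffffffffffffffffffffffffffffffffffffffffffffffffffffffffffffffffffffffffffffffffffffffffffffffffffffffffffffffffffffffffffffffffffffffffffffffffffffffffffffffffffffffffffffffffffffffffffffffffffffffffffffffffffffffffffffffffffffffffffffffff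
def NM : ℕ := 0xffffffffffff0000000080000000000f0000000000000000ffffffffffff0000000040000000000f0000000000000000ffffffffffff0000000020000000000f0000000000000000ffffffffffff0000000010000000000f0000000000000000ffffffffffff0000000008000000000f0000000000000000ffffffffffff0000000004000000000f0000000000000000ffffffffffff0000000002000000000f0000000000000000ffffffffffff0000000001000000000f0000000000000000ffffffffffff0000000000800000000f0000000000000000ffffffffffff0000000000400000000f0000000000000000ffffffffffff0000000000200000000f0000000000000000ffffffffffff0000000000100000000f0000000000000000ffffffffffff0000000000080000000f0000000000000000ffffffffffff0000000000040000000f0000000000000000ffffffffffff0000000000020000000f0000000000000000ffffffffffff0000000000010000000f0000000000000000ffffffffffff0000000000008000000f0000000000000000ffffffffffff0000000000004000000f0000000000000000ffffffffffff0000000000002000000f0000000000000000ffffffffffff0000000000001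000000f0000000000000000ffffffffffff0000000000000800000f0000000000000000ffffffffffff0000000000000400000f0000000000000000ffffffffffff0000000000000200000f0000000000000000ffffffffffff0000000000000100000f0000000000000000ffffffffffff0000000000000080000f0000000000000000ffffffffffff0000000000000040000f0000000000000000ffffffffffff0000000000000020000f0000000000000000ffffffffffff0000000000000010000f0000000000000000ffffffffffff0000000000000008000f0000000000000000ffffffffffff0000000000000004000f0000000000000000ffffffffffff0000000000000002000f0000000000000000ffffffffffff0000000000000001000f000000000000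
def MK : ℕ := 0xffffffffffffffff0000000000000000ffffffffffffffffffffffffffffffff0000000000000000ffffffffffffffffffffffffffffffff0000000000000000ffffffffffffffffffffffffffffffff0000000000000000ffffffffffffffffffffffffffffffff0000000000000000ffffffffffffffffffffffffffffffff0000000000000000ffffffffffffffffffffffffffffffff0000000000000000ffffffffffffffffffffffffffffffff0000000000000000ffffffffffffffffffffffffffffffff0000000000000000ffffffffffffffffffffffffffffffff0000000000000000ffffffffffffffffffffffffffffffff0000000000000000ffffffffffffffffffffffffffffffff0000000000000000ffffffffffffffffffffffffffffffff0000000000000000ffffffffffffffffffffffffffffffff0000000000000000ffffffffffffffffffffffffffffffff0000000000000000ffffffffffffffffffffffffffffffff0000000000000000ffffffffffffffffffffffffffffffff0000000000000000ffffffffffffffffffffffffffffffff0000000000000000ffffffffffffffffffffffffffffffff0000000000000000ffffffffffffffffffffffffffffffff000000000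0000000ffffffffffffffffffffffffffffffff0000000000000000ffffffffffffffffffffffffffffffff0000000000000000ffffffffffffffffffffffffffffffff0000000000000000ffffffffffffffffffffffffffffffff0000000000000000ffffffffffffffffffffffffffffffff0000000000000000ffffffffffffffffffffffffffffffff0000000000000000ffffffffffffffffffffffffffffffff0000000000000000ffffffffffffffffffffffffffffffff0000000000000000ffffffffffffffffffffffffffffffff0000000000000000ffffffffffffffffffffffffffffffff0000000000000000ffffffffffffffffffffffffffffffff0000000000000000ffffffffffffffffffffffffffffffff0000000000000000ffffffffffffffff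

/-- The row of facts of the first record of a statement, `a` being its term. -/
def recd (code a : ℕ) : ℕ :=
  Nat.lor
    (Nat.lor (Nat.land (Nat.shiftRight code 8) (ones a))
      (Nat.shiftLeft (Nat.land (Nat.shiftRight code 5) 7) 48))
    (Nat.lor (Nat.shiftLeft (Nat.land (Nat.shiftRight code (Nat.add 8 a)) (ones a)) 64)
      (Nat.shiftLeft (Nat.land (Nat.shiftRight code (Nat.add 8 (Nat.mul 2 a))) (ones a)) 128))

def rest (code a : ℕ) : ℕ := Nat.shiftRight code (Nat.add 8 (Nat.mul 3 a))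

/-- A table with rows of width `s`. -/
def tbl (s : ℕ) (f : ℕ → ℕ) : ℕ → ℕ
  | 0 => 0
  | n + 1 => Nat.lor (tbl s f n) (Nat.shiftLeft (Nat.land (f n) (ones s)) (Nat.mul s n))

def Par.H (P : Par) : ℕ := Nat.add P.m 2
def Par.fr (P : Par) (r : ℕ) : ℕ :=
  Nat.lor (one (Nat.add 48 r)) (Nat.shiftLeft (ns (ones P.H) (row P.Y r)) 128)
def Par.fa (P : Par) (r : ℕ) : ℕ := Nat.lor (one (Nat.add 48 r)) (Nat.shiftLeft (ones P.H) 128)
def Par.nh (P : Par) (r : ℕ) : ℕ :=
  Nat.lor (one (Nat.add 48 r)) (Nat.shiftLeft (Nat.land (row P.Y r) P.rim) 128)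
def Par.cl' (P : Par) : ℕ := tbl 192 (fun c => if c < P.m then dg c else if 16 ≤ c then
  P.nh (c - 16) else 340282366920938463481821351505477763073) 32
def Par.ca' (P : Par) : ℕ := tbl 192 (fun c => if c < P.m then ones P.m else row P.Y (c - 16)) 32
def Par.ft' (P : Par) : ℕ := tbl 192 (fun c => P.fr (c - 16)) 19
def Par.fm' (P : Par) : ℕ := tbl 192 (fun l => Nat.lor (if l.testBit 0 then P.fr 0 else 0)
  (Nat.lor (if l.testBit 1 then P.fr 1 else 0) (if l.testBit 2 then P.fr 2 else 0))) 8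
def Par.v3' (P : Par) : ℕ := tbl 192 (row P.VV) 48
def Par.idm' (P : Par) : ℕ := tbl 5 id P.H
def Par.hm' (P : Par) : ℕ :=
  Nat.mul (Nat.lor (Nat.lor (ones P.H) (Nat.shiftLeft 65535 48))
    (Nat.lor (Nat.shiftLeft (ones P.H) 64) (Nat.shiftLeft (ones P.H) 128))) G3

noncomputable def blk (f : ℕ → ℕ → ℕ) (t : DB) (b : ℕ) : ℕ :=
  DB.rec (motive := fun _ => ℕ) f
    (fun m _ _ x y => Bool.rec (motive := fun _ => ℕ) y x (Nat.beq (Nat.land b m) 0)) t
noncomputable def blkI (t : DB) (b : ℕ) : ℕ := blk (fun x _ => x) t b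
noncomputable def blkD (t : DB) (b : ℕ) : ℕ := blk (fun _ y => y) t b
def getB (I D i : ℕ) : ℕ :=
  Nat.land (Nat.shiftRight D (Nat.land (Nat.shiftRight I (Nat.mul 20 i)) 1048575))
    (Nat.pred (Nat.shiftLeft 1 (Nat.sub
      (Nat.land (Nat.shiftRight I (Nat.add (Nat.mul 20 i) 20)) 1048575)
      (Nat.land (Nat.shiftRight I (Nat.mul 20 i)) 1048575))))
noncomputable def get (db : DB) (j : ℕ) : ℕ :=
  force (Nat.shiftRight j 8) fun b => getB (blkI db b) (blkD db b) (Nat.land j 255)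

abbrev Pr : Type := ℕ → ℕ → ℕ
abbrev ML : Type := ℕ → (ℕ → ℕ → ℕ → ℕ) → ℕ → ℕ → ℕ → ℕ

def t2 {α : Type} (f : α → α) (x : α) : α := f (f x)
def t4 {α : Type} (f : α → α) (x : α) : α := t2 f (t2 f x)
def t8 {α : Type} (f : α → α) (x : α) : α := t4 f (t4 f x)
def t16 {α : Type} (f : α → α) (x : α) : α := t8 f (t8 f x)
def t32 {α : Type} (f : α → α) (x : α) : α := t16 f (t16 f x)
def t128 {α : Type} (f : α → α) (x : α) : α := t32 f (t32 f (t32 f (t32 f x)))
def t1024 {α : Type} (f : α → α) (x : α) : α :=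
  t128 f (t128 f (t128 f (t128 f (t128 f (t128 f (t128 f (t128 f x)))))))

noncomputable def rC1 (M c : ℕ) : ℕ :=
  (Bool.rec (motive := fun _ => ℕ) (nat_lit 0) c (Nat.beq (Nat.sub (nat_lit 1) (Nat.land (Nat.land
    M (Nat.land (Nat.shiftRight M (nat_lit 64)) (Nat.shiftRight M (nat_lit 128)))) MW)) (nat_lit
    0)))

noncomputable def rDA (ih : Pr) (M c : ℕ) : ℕ :=
  (ih (Nat.lor M (Nat.lor (Nat.shiftLeft (Nat.shiftLeft (Nat.land (Nat.lor (Nat.lor (Nat.lor
    (Nat.lor (Nat.lor (Nat.land (Nat.lor M (Nat.mul (Nat.land (Nat.shiftRight M (Nat.land c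
    (nat_lit 31))) C3) (nat_lit 4294967295))) (Nat.land (Nat.shiftRight (Nat.lor M (Nat.mul
    (Nat.land (Nat.shiftRight M (Nat.land c (nat_lit 31))) C3) (nat_lit 4294967295))) (nat_lit
    64)) (Nat.shiftRight (Nat.lor M (Nat.mul (Nat.land (Nat.shiftRight M (Nat.land c (nat_lit
    31))) C3) (nat_lit 4294967295))) (nat_lit 128)))) (Nat.shiftRight (Nat.land (Nat.lor M
    (Nat.mul (Nat.land (Nat.shiftRight M (Nat.land c (nat_lit 31))) C3) (nat_lit 4294967295)))
    (Nat.land (Nat.shiftRight (Nat.lor M (Nat.mul (Nat.land (Nat.shiftRight M (Nat.land c (nat_lit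
    31))) C3) (nat_lit 4294967295))) (nat_lit 64)) (Nat.shiftRight (Nat.lor M (Nat.mul (Nat.land
    (Nat.shiftRight M (Nat.land c (nat_lit 31))) C3) (nat_lit 4294967295))) (nat_lit 128))))
    (nat_lit 3072))) (Nat.shiftRight (Nat.lor (Nat.land (Nat.lor M (Nat.mul (Nat.land
    (Nat.shiftRight M (Nat.land c (nat_lit 31))) C3) (nat_lit 4294967295))) (Nat.land
    (Nat.shiftRight (Nat.lor M (Nat.mul (Nat.land (Nat.shiftRight M (Nat.land c (nat_lit 31))) C3)
    (nat_lit 4294967295))) (nat_lit 64)) (Nat.shiftRight (Nat.lor M (Nat.mul (Nat.land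
    (Nat.shiftRight M (Nat.land c (nat_lit 31))) C3) (nat_lit 4294967295))) (nat_lit 128))))
    (Nat.shiftRight (Nat.land (Nat.lor M (Nat.mul (Nat.land (Nat.shiftRight M (Nat.land c (nat_lit
    31))) C3) (nat_lit 4294967295))) (Nat.land (Nat.shiftRight (Nat.lor M (Nat.mul (Nat.land
    (Nat.shiftRight M (Nat.land c (nat_lit 31))) C3) (nat_lit 4294967295))) (nat_lit 64))
    (Nat.shiftRight (Nat.lor M (Nat.mul (Nat.land (Nat.shiftRight M (Nat.land c (nat_lit 31))) C3)
    (nat_lit 4294967295))) (nat_lit 128)))) (nat_lit 3072))) (nat_lit 1536))) (Nat.shiftRight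
    (Nat.lor (Nat.lor (Nat.land (Nat.lor M (Nat.mul (Nat.land (Nat.shiftRight M (Nat.land c
    (nat_lit 31))) C3) (nat_lit 4294967295))) (Nat.land (Nat.shiftRight (Nat.lor M (Nat.mul
    (Nat.land (Nat.shiftRight M (Nat.land c (nat_lit 31))) C3) (nat_lit 4294967295))) (nat_lit
    64)) (Nat.shiftRight (Nat.lor M (Nat.mul (Nat.land (Nat.shiftRight M (Nat.land c (nat_lit
    31))) C3) (nat_lit 4294967295))) (nat_lit 128)))) (Nat.shiftRight (Nat.land (Nat.lor M
    (Nat.mul (Nat.land (Nat.shiftRight M (Nat.land c (nat_lit 31))) C3) (nat_lit 4294967295)))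
    (Nat.land (Nat.shiftRight (Nat.lor M (Nat.mul (Nat.land (Nat.shiftRight M (Nat.land c (nat_lit
    31))) C3) (nat_lit 4294967295))) (nat_lit 64)) (Nat.shiftRight (Nat.lor M (Nat.mul (Nat.land
    (Nat.shiftRight M (Nat.land c (nat_lit 31))) C3) (nat_lit 4294967295))) (nat_lit 128))))
    (nat_lit 3072))) (Nat.shiftRight (Nat.lor (Nat.land (Nat.lor M (Nat.mul (Nat.land
    (Nat.shiftRight M (Nat.land c (nat_lit 31))) C3) (nat_lit 4294967295))) (Nat.land
    (Nat.shiftRight (Nat.lor M (Nat.mul (Nat.land (Nat.shiftRight M (Nat.land c (nat_lit 31))) C3)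
    (nat_lit 4294967295))) (nat_lit 64)) (Nat.shiftRight (Nat.lor M (Nat.mul (Nat.land
    (Nat.shiftRight M (Nat.land c (nat_lit 31))) C3) (nat_lit 4294967295))) (nat_lit 128))))
    (Nat.shiftRight (Nat.land (Nat.lor M (Nat.mul (Nat.land (Nat.shiftRight M (Nat.land c (nat_lit
    31))) C3) (nat_lit 4294967295))) (Nat.land (Nat.shiftRight (Nat.lor M (Nat.mul (Nat.land
    (Nat.shiftRight M (Nat.land c (nat_lit 31))) C3) (nat_lit 4294967295))) (nat_lit 64))
    (Nat.shiftRight (Nat.lor M (Nat.mul (Nat.land (Nat.shiftRight M (Nat.land c (nat_lit 31))) C3)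
    (nat_lit 4294967295))) (nat_lit 128)))) (nat_lit 3072))) (nat_lit 1536))) (nat_lit 768)))
    (Nat.shiftRight (Nat.lor (Nat.lor (Nat.lor (Nat.land (Nat.lor M (Nat.mul (Nat.land
    (Nat.shiftRight M (Nat.land c (nat_lit 31))) C3) (nat_lit 4294967295))) (Nat.land
    (Nat.shiftRight (Nat.lor M (Nat.mul (Nat.land (Nat.shiftRight M (Nat.land c (nat_lit 31))) C3)
    (nat_lit 4294967295))) (nat_lit 64)) (Nat.shiftRight (Nat.lor M (Nat.mul (Nat.land
    (Nat.shiftRight M (Nat.land c (nat_lit 31))) C3) (nat_lit 4294967295))) (nat_lit 128))))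
    (Nat.shiftRight (Nat.land (Nat.lor M (Nat.mul (Nat.land (Nat.shiftRight M (Nat.land c (nat_lit
    31))) C3) (nat_lit 4294967295))) (Nat.land (Nat.shiftRight (Nat.lor M (Nat.mul (Nat.land
    (Nat.shiftRight M (Nat.land c (nat_lit 31))) C3) (nat_lit 4294967295))) (nat_lit 64))
    (Nat.shiftRight (Nat.lor M (Nat.mul (Nat.land (Nat.shiftRight M (Nat.land c (nat_lit 31))) C3)
    (nat_lit 4294967295))) (nat_lit 128)))) (nat_lit 3072))) (Nat.shiftRight (Nat.lor (Nat.land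
    (Nat.lor M (Nat.mul (Nat.land (Nat.shiftRight M (Nat.land c (nat_lit 31))) C3) (nat_lit
    4294967295))) (Nat.land (Nat.shiftRight (Nat.lor M (Nat.mul (Nat.land (Nat.shiftRight M
    (Nat.land c (nat_lit 31))) C3) (nat_lit 4294967295))) (nat_lit 64)) (Nat.shiftRight (Nat.lor M
    (Nat.mul (Nat.land (Nat.shiftRight M (Nat.land c (nat_lit 31))) C3) (nat_lit 4294967295)))
    (nat_lit 128)))) (Nat.shiftRight (Nat.land (Nat.lor M (Nat.mul (Nat.land (Nat.shiftRight M
    (Nat.land c (nat_lit 31))) C3) (nat_lit 4294967295))) (Nat.land (Nat.shiftRight (Nat.lor M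
    (Nat.mul (Nat.land (Nat.shiftRight M (Nat.land c (nat_lit 31))) C3) (nat_lit 4294967295)))
    (nat_lit 64)) (Nat.shiftRight (Nat.lor M (Nat.mul (Nat.land (Nat.shiftRight M (Nat.land c
    (nat_lit 31))) C3) (nat_lit 4294967295))) (nat_lit 128)))) (nat_lit 3072))) (nat_lit 1536)))
    (Nat.shiftRight (Nat.lor (Nat.lor (Nat.land (Nat.lor M (Nat.mul (Nat.land (Nat.shiftRight M
    (Nat.land c (nat_lit 31))) C3) (nat_lit 4294967295))) (Nat.land (Nat.shiftRight (Nat.lor M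
    (Nat.mul (Nat.land (Nat.shiftRight M (Nat.land c (nat_lit 31))) C3) (nat_lit 4294967295)))
    (nat_lit 64)) (Nat.shiftRight (Nat.lor M (Nat.mul (Nat.land (Nat.shiftRight M (Nat.land c
    (nat_lit 31))) C3) (nat_lit 4294967295))) (nat_lit 128)))) (Nat.shiftRight (Nat.land (Nat.lor
    M (Nat.mul (Nat.land (Nat.shiftRight M (Nat.land c (nat_lit 31))) C3) (nat_lit 4294967295)))
    (Nat.land (Nat.shiftRight (Nat.lor M (Nat.mul (Nat.land (Nat.shiftRight M (Nat.land c (nat_lit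
    31))) C3) (nat_lit 4294967295))) (nat_lit 64)) (Nat.shiftRight (Nat.lor M (Nat.mul (Nat.land
    (Nat.shiftRight M (Nat.land c (nat_lit 31))) C3) (nat_lit 4294967295))) (nat_lit 128))))
    (nat_lit 3072))) (Nat.shiftRight (Nat.lor (Nat.land (Nat.lor M (Nat.mul (Nat.land
    (Nat.shiftRight M (Nat.land c (nat_lit 31))) C3) (nat_lit 4294967295))) (Nat.land
    (Nat.shiftRight (Nat.lor M (Nat.mul (Nat.land (Nat.shiftRight M (Nat.land c (nat_lit 31))) C3)
    (nat_lit 4294967295))) (nat_lit 64)) (Nat.shiftRight (Nat.lor M (Nat.mul (Nat.land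
    (Nat.shiftRight M (Nat.land c (nat_lit 31))) C3) (nat_lit 4294967295))) (nat_lit 128))))
    (Nat.shiftRight (Nat.land (Nat.lor M (Nat.mul (Nat.land (Nat.shiftRight M (Nat.land c (nat_lit
    31))) C3) (nat_lit 4294967295))) (Nat.land (Nat.shiftRight (Nat.lor M (Nat.mul (Nat.land
    (Nat.shiftRight M (Nat.land c (nat_lit 31))) C3) (nat_lit 4294967295))) (nat_lit 64))
    (Nat.shiftRight (Nat.lor M (Nat.mul (Nat.land (Nat.shiftRight M (Nat.land c (nat_lit 31))) C3)
    (nat_lit 4294967295))) (nat_lit 128)))) (nat_lit 3072))) (nat_lit 1536))) (nat_lit 768)))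
    (nat_lit 384))) (Nat.shiftRight (Nat.lor (Nat.lor (Nat.lor (Nat.lor (Nat.land (Nat.lor M
    (Nat.mul (Nat.land (Nat.shiftRight M (Nat.land c (nat_lit 31))) C3) (nat_lit 4294967295)))
    (Nat.land (Nat.shiftRight (Nat.lor M (Nat.mul (Nat.land (Nat.shiftRight M (Nat.land c (nat_lit
    31))) C3) (nat_lit 4294967295))) (nat_lit 64)) (Nat.shiftRight (Nat.lor M (Nat.mul (Nat.land
    (Nat.shiftRight M (Nat.land c (nat_lit 31))) C3) (nat_lit 4294967295))) (nat_lit 128))))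
    (Nat.shiftRight (Nat.land (Nat.lor M (Nat.mul (Nat.land (Nat.shiftRight M (Nat.land c (nat_lit
    31))) C3) (nat_lit 4294967295))) (Nat.land (Nat.shiftRight (Nat.lor M (Nat.mul (Nat.land
    (Nat.shiftRight M (Nat.land c (nat_lit 31))) C3) (nat_lit 4294967295))) (nat_lit 64))
    (Nat.shiftRight (Nat.lor M (Nat.mul (Nat.land (Nat.shiftRight M (Nat.land c (nat_lit 31))) C3)
    (nat_lit 4294967295))) (nat_lit 128)))) (nat_lit 3072))) (Nat.shiftRight (Nat.lor (Nat.land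
    (Nat.lor M (Nat.mul (Nat.land (Nat.shiftRight M (Nat.land c (nat_lit 31))) C3) (nat_lit
    4294967295))) (Nat.land (Nat.shiftRight (Nat.lor M (Nat.mul (Nat.land (Nat.shiftRight M
    (Nat.land c (nat_lit 31))) C3) (nat_lit 4294967295))) (nat_lit 64)) (Nat.shiftRight (Nat.lor M
    (Nat.mul (Nat.land (Nat.shiftRight M (Nat.land c (nat_lit 31))) C3) (nat_lit 4294967295)))
    (nat_lit 128)))) (Nat.shiftRight (Nat.land (Nat.lor M (Nat.mul (Nat.land (Nat.shiftRight M
    (Nat.land c (nat_lit 31))) C3) (nat_lit 4294967295))) (Nat.land (Nat.shiftRight (Nat.lor M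
    (Nat.mul (Nat.land (Nat.shiftRight M (Nat.land c (nat_lit 31))) C3) (nat_lit 4294967295)))
    (nat_lit 64)) (Nat.shiftRight (Nat.lor M (Nat.mul (Nat.land (Nat.shiftRight M (Nat.land c
    (nat_lit 31))) C3) (nat_lit 4294967295))) (nat_lit 128)))) (nat_lit 3072))) (nat_lit 1536)))
    (Nat.shiftRight (Nat.lor (Nat.lor (Nat.land (Nat.lor M (Nat.mul (Nat.land (Nat.shiftRight M
    (Nat.land c (nat_lit 31))) C3) (nat_lit 4294967295))) (Nat.land (Nat.shiftRight (Nat.lor M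
    (Nat.mul (Nat.land (Nat.shiftRight M (Nat.land c (nat_lit 31))) C3) (nat_lit 4294967295)))
    (nat_lit 64)) (Nat.shiftRight (Nat.lor M (Nat.mul (Nat.land (Nat.shiftRight M (Nat.land c
    (nat_lit 31))) C3) (nat_lit 4294967295))) (nat_lit 128)))) (Nat.shiftRight (Nat.land (Nat.lor
    M (Nat.mul (Nat.land (Nat.shiftRight M (Nat.land c (nat_lit 31))) C3) (nat_lit 4294967295)))
    (Nat.land (Nat.shiftRight (Nat.lor M (Nat.mul (Nat.land (Nat.shiftRight M (Nat.land c (nat_lit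
    31))) C3) (nat_lit 4294967295))) (nat_lit 64)) (Nat.shiftRight (Nat.lor M (Nat.mul (Nat.land
    (Nat.shiftRight M (Nat.land c (nat_lit 31))) C3) (nat_lit 4294967295))) (nat_lit 128))))
    (nat_lit 3072))) (Nat.shiftRight (Nat.lor (Nat.land (Nat.lor M (Nat.mul (Nat.land
    (Nat.shiftRight M (Nat.land c (nat_lit 31))) C3) (nat_lit 4294967295))) (Nat.land
    (Nat.shiftRight (Nat.lor M (Nat.mul (Nat.land (Nat.shiftRight M (Nat.land c (nat_lit 31))) C3)
    (nat_lit 4294967295))) (nat_lit 64)) (Nat.shiftRight (Nat.lor M (Nat.mul (Nat.land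
    (Nat.shiftRight M (Nat.land c (nat_lit 31))) C3) (nat_lit 4294967295))) (nat_lit 128))))
    (Nat.shiftRight (Nat.land (Nat.lor M (Nat.mul (Nat.land (Nat.shiftRight M (Nat.land c (nat_lit
    31))) C3) (nat_lit 4294967295))) (Nat.land (Nat.shiftRight (Nat.lor M (Nat.mul (Nat.land
    (Nat.shiftRight M (Nat.land c (nat_lit 31))) C3) (nat_lit 4294967295))) (nat_lit 64))
    (Nat.shiftRight (Nat.lor M (Nat.mul (Nat.land (Nat.shiftRight M (Nat.land c (nat_lit 31))) C3)
    (nat_lit 4294967295))) (nat_lit 128)))) (nat_lit 3072))) (nat_lit 1536))) (nat_lit 768)))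
    (Nat.shiftRight (Nat.lor (Nat.lor (Nat.lor (Nat.land (Nat.lor M (Nat.mul (Nat.land
    (Nat.shiftRight M (Nat.land c (nat_lit 31))) C3) (nat_lit 4294967295))) (Nat.land
    (Nat.shiftRight (Nat.lor M (Nat.mul (Nat.land (Nat.shiftRight M (Nat.land c (nat_lit 31))) C3)
    (nat_lit 4294967295))) (nat_lit 64)) (Nat.shiftRight (Nat.lor M (Nat.mul (Nat.land
    (Nat.shiftRight M (Nat.land c (nat_lit 31))) C3) (nat_lit 4294967295))) (nat_lit 128))))
    (Nat.shiftRight (Nat.land (Nat.lor M (Nat.mul (Nat.land (Nat.shiftRight M (Nat.land c (nat_lit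
    31))) C3) (nat_lit 4294967295))) (Nat.land (Nat.shiftRight (Nat.lor M (Nat.mul (Nat.land
    (Nat.shiftRight M (Nat.land c (nat_lit 31))) C3) (nat_lit 4294967295))) (nat_lit 64))
    (Nat.shiftRight (Nat.lor M (Nat.mul (Nat.land (Nat.shiftRight M (Nat.land c (nat_lit 31))) C3)
    (nat_lit 4294967295))) (nat_lit 128)))) (nat_lit 3072))) (Nat.shiftRight (Nat.lor (Nat.land
    (Nat.lor M (Nat.mul (Nat.land (Nat.shiftRight M (Nat.land c (nat_lit 31))) C3) (nat_lit
    4294967295))) (Nat.land (Nat.shiftRight (Nat.lor M (Nat.mul (Nat.land (Nat.shiftRight M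
    (Nat.land c (nat_lit 31))) C3) (nat_lit 4294967295))) (nat_lit 64)) (Nat.shiftRight (Nat.lor M
    (Nat.mul (Nat.land (Nat.shiftRight M (Nat.land c (nat_lit 31))) C3) (nat_lit 4294967295)))
    (nat_lit 128)))) (Nat.shiftRight (Nat.land (Nat.lor M (Nat.mul (Nat.land (Nat.shiftRight M
    (Nat.land c (nat_lit 31))) C3) (nat_lit 4294967295))) (Nat.land (Nat.shiftRight (Nat.lor M
    (Nat.mul (Nat.land (Nat.shiftRight M (Nat.land c (nat_lit 31))) C3) (nat_lit 4294967295)))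
    (nat_lit 64)) (Nat.shiftRight (Nat.lor M (Nat.mul (Nat.land (Nat.shiftRight M (Nat.land c
    (nat_lit 31))) C3) (nat_lit 4294967295))) (nat_lit 128)))) (nat_lit 3072))) (nat_lit 1536)))
    (Nat.shiftRight (Nat.lor (Nat.lor (Nat.land (Nat.lor M (Nat.mul (Nat.land (Nat.shiftRight M
    (Nat.land c (nat_lit 31))) C3) (nat_lit 4294967295))) (Nat.land (Nat.shiftRight (Nat.lor M
    (Nat.mul (Nat.land (Nat.shiftRight M (Nat.land c (nat_lit 31))) C3) (nat_lit 4294967295)))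
    (nat_lit 64)) (Nat.shiftRight (Nat.lor M (Nat.mul (Nat.land (Nat.shiftRight M (Nat.land c
    (nat_lit 31))) C3) (nat_lit 4294967295))) (nat_lit 128)))) (Nat.shiftRight (Nat.land (Nat.lor
    M (Nat.mul (Nat.land (Nat.shiftRight M (Nat.land c (nat_lit 31))) C3) (nat_lit 4294967295)))
    (Nat.land (Nat.shiftRight (Nat.lor M (Nat.mul (Nat.land (Nat.shiftRight M (Nat.land c (nat_lit
    31))) C3) (nat_lit 4294967295))) (nat_lit 64)) (Nat.shiftRight (Nat.lor M (Nat.mul (Nat.land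
    (Nat.shiftRight M (Nat.land c (nat_lit 31))) C3) (nat_lit 4294967295))) (nat_lit 128))))
    (nat_lit 3072))) (Nat.shiftRight (Nat.lor (Nat.land (Nat.lor M (Nat.mul (Nat.land
    (Nat.shiftRight M (Nat.land c (nat_lit 31))) C3) (nat_lit 4294967295))) (Nat.land
    (Nat.shiftRight (Nat.lor M (Nat.mul (Nat.land (Nat.shiftRight M (Nat.land c (nat_lit 31))) C3)
    (nat_lit 4294967295))) (nat_lit 64)) (Nat.shiftRight (Nat.lor M (Nat.mul (Nat.land
    (Nat.shiftRight M (Nat.land c (nat_lit 31))) C3) (nat_lit 4294967295))) (nat_lit 128))))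
    (Nat.shiftRight (Nat.land (Nat.lor M (Nat.mul (Nat.land (Nat.shiftRight M (Nat.land c (nat_lit
    31))) C3) (nat_lit 4294967295))) (Nat.land (Nat.shiftRight (Nat.lor M (Nat.mul (Nat.land
    (Nat.shiftRight M (Nat.land c (nat_lit 31))) C3) (nat_lit 4294967295))) (nat_lit 64))
    (Nat.shiftRight (Nat.lor M (Nat.mul (Nat.land (Nat.shiftRight M (Nat.land c (nat_lit 31))) C3)
    (nat_lit 4294967295))) (nat_lit 128)))) (nat_lit 3072))) (nat_lit 1536))) (nat_lit 768)))
    (nat_lit 384))) (nat_lit 192))) (nat_lit 4294967295)) (nat_lit 128)) (Nat.mul (nat_lit 192)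
    (Nat.land c (nat_lit 31)))) (Nat.shiftLeft (Nat.land (Nat.mul (Nat.land (Nat.shiftLeft
    (Nat.land (Nat.lor (Nat.lor (Nat.lor (Nat.lor (Nat.lor (Nat.land (Nat.lor M (Nat.mul (Nat.land
    (Nat.shiftRight M (Nat.land c (nat_lit 31))) C3) (nat_lit 4294967295))) (Nat.land
    (Nat.shiftRight (Nat.lor M (Nat.mul (Nat.land (Nat.shiftRight M (Nat.land c (nat_lit 31))) C3)
    (nat_lit 4294967295))) (nat_lit 64)) (Nat.shiftRight (Nat.lor M (Nat.mul (Nat.land
    (Nat.shiftRight M (Nat.land c (nat_lit 31))) C3) (nat_lit 4294967295))) (nat_lit 128))))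
    (Nat.shiftRight (Nat.land (Nat.lor M (Nat.mul (Nat.land (Nat.shiftRight M (Nat.land c (nat_lit
    31))) C3) (nat_lit 4294967295))) (Nat.land (Nat.shiftRight (Nat.lor M (Nat.mul (Nat.land
    (Nat.shiftRight M (Nat.land c (nat_lit 31))) C3) (nat_lit 4294967295))) (nat_lit 64))
    (Nat.shiftRight (Nat.lor M (Nat.mul (Nat.land (Nat.shiftRight M (Nat.land c (nat_lit 31))) C3)
    (nat_lit 4294967295))) (nat_lit 128)))) (nat_lit 3072))) (Nat.shiftRight (Nat.lor (Nat.land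
    (Nat.lor M (Nat.mul (Nat.land (Nat.shiftRight M (Nat.land c (nat_lit 31))) C3) (nat_lit
    4294967295))) (Nat.land (Nat.shiftRight (Nat.lor M (Nat.mul (Nat.land (Nat.shiftRight M
    (Nat.land c (nat_lit 31))) C3) (nat_lit 4294967295))) (nat_lit 64)) (Nat.shiftRight (Nat.lor M
    (Nat.mul (Nat.land (Nat.shiftRight M (Nat.land c (nat_lit 31))) C3) (nat_lit 4294967295)))
    (nat_lit 128)))) (Nat.shiftRight (Nat.land (Nat.lor M (Nat.mul (Nat.land (Nat.shiftRight M
    (Nat.land c (nat_lit 31))) C3) (nat_lit 4294967295))) (Nat.land (Nat.shiftRight (Nat.lor M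
    (Nat.mul (Nat.land (Nat.shiftRight M (Nat.land c (nat_lit 31))) C3) (nat_lit 4294967295)))
    (nat_lit 64)) (Nat.shiftRight (Nat.lor M (Nat.mul (Nat.land (Nat.shiftRight M (Nat.land c
    (nat_lit 31))) C3) (nat_lit 4294967295))) (nat_lit 128)))) (nat_lit 3072))) (nat_lit 1536)))
    (Nat.shiftRight (Nat.lor (Nat.lor (Nat.land (Nat.lor M (Nat.mul (Nat.land (Nat.shiftRight M
    (Nat.land c (nat_lit 31))) C3) (nat_lit 4294967295))) (Nat.land (Nat.shiftRight (Nat.lor M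
    (Nat.mul (Nat.land (Nat.shiftRight M (Nat.land c (nat_lit 31))) C3) (nat_lit 4294967295)))
    (nat_lit 64)) (Nat.shiftRight (Nat.lor M (Nat.mul (Nat.land (Nat.shiftRight M (Nat.land c
    (nat_lit 31))) C3) (nat_lit 4294967295))) (nat_lit 128)))) (Nat.shiftRight (Nat.land (Nat.lor
    M (Nat.mul (Nat.land (Nat.shiftRight M (Nat.land c (nat_lit 31))) C3) (nat_lit 4294967295)))
    (Nat.land (Nat.shiftRight (Nat.lor M (Nat.mul (Nat.land (Nat.shiftRight M (Nat.land c (nat_lit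
    31))) C3) (nat_lit 4294967295))) (nat_lit 64)) (Nat.shiftRight (Nat.lor M (Nat.mul (Nat.land
    (Nat.shiftRight M (Nat.land c (nat_lit 31))) C3) (nat_lit 4294967295))) (nat_lit 128))))
    (nat_lit 3072))) (Nat.shiftRight (Nat.lor (Nat.land (Nat.lor M (Nat.mul (Nat.land
    (Nat.shiftRight M (Nat.land c (nat_lit 31))) C3) (nat_lit 4294967295))) (Nat.land
    (Nat.shiftRight (Nat.lor M (Nat.mul (Nat.land (Nat.shiftRight M (Nat.land c (nat_lit 31))) C3)
    (nat_lit 4294967295))) (nat_lit 64)) (Nat.shiftRight (Nat.lor M (Nat.mul (Nat.land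
    (Nat.shiftRight M (Nat.land c (nat_lit 31))) C3) (nat_lit 4294967295))) (nat_lit 128))))
    (Nat.shiftRight (Nat.land (Nat.lor M (Nat.mul (Nat.land (Nat.shiftRight M (Nat.land c (nat_lit
    31))) C3) (nat_lit 4294967295))) (Nat.land (Nat.shiftRight (Nat.lor M (Nat.mul (Nat.land
    (Nat.shiftRight M (Nat.land c (nat_lit 31))) C3) (nat_lit 4294967295))) (nat_lit 64))
    (Nat.shiftRight (Nat.lor M (Nat.mul (Nat.land (Nat.shiftRight M (Nat.land c (nat_lit 31))) C3)
    (nat_lit 4294967295))) (nat_lit 128)))) (nat_lit 3072))) (nat_lit 1536))) (nat_lit 768)))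
    (Nat.shiftRight (Nat.lor (Nat.lor (Nat.lor (Nat.land (Nat.lor M (Nat.mul (Nat.land
    (Nat.shiftRight M (Nat.land c (nat_lit 31))) C3) (nat_lit 4294967295))) (Nat.land
    (Nat.shiftRight (Nat.lor M (Nat.mul (Nat.land (Nat.shiftRight M (Nat.land c (nat_lit 31))) C3)
    (nat_lit 4294967295))) (nat_lit 64)) (Nat.shiftRight (Nat.lor M (Nat.mul (Nat.land
    (Nat.shiftRight M (Nat.land c (nat_lit 31))) C3) (nat_lit 4294967295))) (nat_lit 128))))
    (Nat.shiftRight (Nat.land (Nat.lor M (Nat.mul (Nat.land (Nat.shiftRight M (Nat.land c (nat_lit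
    31))) C3) (nat_lit 4294967295))) (Nat.land (Nat.shiftRight (Nat.lor M (Nat.mul (Nat.land
    (Nat.shiftRight M (Nat.land c (nat_lit 31))) C3) (nat_lit 4294967295))) (nat_lit 64))
    (Nat.shiftRight (Nat.lor M (Nat.mul (Nat.land (Nat.shiftRight M (Nat.land c (nat_lit 31))) C3)
    (nat_lit 4294967295))) (nat_lit 128)))) (nat_lit 3072))) (Nat.shiftRight (Nat.lor (Nat.land
    (Nat.lor M (Nat.mul (Nat.land (Nat.shiftRight M (Nat.land c (nat_lit 31))) C3) (nat_lit
    4294967295))) (Nat.land (Nat.shiftRight (Nat.lor M (Nat.mul (Nat.land (Nat.shiftRight M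
    (Nat.land c (nat_lit 31))) C3) (nat_lit 4294967295))) (nat_lit 64)) (Nat.shiftRight (Nat.lor M
    (Nat.mul (Nat.land (Nat.shiftRight M (Nat.land c (nat_lit 31))) C3) (nat_lit 4294967295)))
    (nat_lit 128)))) (Nat.shiftRight (Nat.land (Nat.lor M (Nat.mul (Nat.land (Nat.shiftRight M
    (Nat.land c (nat_lit 31))) C3) (nat_lit 4294967295))) (Nat.land (Nat.shiftRight (Nat.lor M
    (Nat.mul (Nat.land (Nat.shiftRight M (Nat.land c (nat_lit 31))) C3) (nat_lit 4294967295)))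
    (nat_lit 64)) (Nat.shiftRight (Nat.lor M (Nat.mul (Nat.land (Nat.shiftRight M (Nat.land c
    (nat_lit 31))) C3) (nat_lit 4294967295))) (nat_lit 128)))) (nat_lit 3072))) (nat_lit 1536)))
    (Nat.shiftRight (Nat.lor (Nat.lor (Nat.land (Nat.lor M (Nat.mul (Nat.land (Nat.shiftRight M
    (Nat.land c (nat_lit 31))) C3) (nat_lit 4294967295))) (Nat.land (Nat.shiftRight (Nat.lor M
    (Nat.mul (Nat.land (Nat.shiftRight M (Nat.land c (nat_lit 31))) C3) (nat_lit 4294967295)))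
    (nat_lit 64)) (Nat.shiftRight (Nat.lor M (Nat.mul (Nat.land (Nat.shiftRight M (Nat.land c
    (nat_lit 31))) C3) (nat_lit 4294967295))) (nat_lit 128)))) (Nat.shiftRight (Nat.land (Nat.lor
    M (Nat.mul (Nat.land (Nat.shiftRight M (Nat.land c (nat_lit 31))) C3) (nat_lit 4294967295)))
    (Nat.land (Nat.shiftRight (Nat.lor M (Nat.mul (Nat.land (Nat.shiftRight M (Nat.land c (nat_lit
    31))) C3) (nat_lit 4294967295))) (nat_lit 64)) (Nat.shiftRight (Nat.lor M (Nat.mul (Nat.land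
    (Nat.shiftRight M (Nat.land c (nat_lit 31))) C3) (nat_lit 4294967295))) (nat_lit 128))))
    (nat_lit 3072))) (Nat.shiftRight (Nat.lor (Nat.land (Nat.lor M (Nat.mul (Nat.land
    (Nat.shiftRight M (Nat.land c (nat_lit 31))) C3) (nat_lit 4294967295))) (Nat.land
    (Nat.shiftRight (Nat.lor M (Nat.mul (Nat.land (Nat.shiftRight M (Nat.land c (nat_lit 31))) C3)
    (nat_lit 4294967295))) (nat_lit 64)) (Nat.shiftRight (Nat.lor M (Nat.mul (Nat.land
    (Nat.shiftRight M (Nat.land c (nat_lit 31))) C3) (nat_lit 4294967295))) (nat_lit 128))))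
    (Nat.shiftRight (Nat.land (Nat.lor M (Nat.mul (Nat.land (Nat.shiftRight M (Nat.land c (nat_lit
    31))) C3) (nat_lit 4294967295))) (Nat.land (Nat.shiftRight (Nat.lor M (Nat.mul (Nat.land
    (Nat.shiftRight M (Nat.land c (nat_lit 31))) C3) (nat_lit 4294967295))) (nat_lit 64))
    (Nat.shiftRight (Nat.lor M (Nat.mul (Nat.land (Nat.shiftRight M (Nat.land c (nat_lit 31))) C3)
    (nat_lit 4294967295))) (nat_lit 128)))) (nat_lit 3072))) (nat_lit 1536))) (nat_lit 768)))
    (nat_lit 384))) (Nat.shiftRight (Nat.lor (Nat.lor (Nat.lor (Nat.lor (Nat.land (Nat.lor M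
    (Nat.mul (Nat.land (Nat.shiftRight M (Nat.land c (nat_lit 31))) C3) (nat_lit 4294967295)))
    (Nat.land (Nat.shiftRight (Nat.lor M (Nat.mul (Nat.land (Nat.shiftRight M (Nat.land c (nat_lit
    31))) C3) (nat_lit 4294967295))) (nat_lit 64)) (Nat.shiftRight (Nat.lor M (Nat.mul (Nat.land
    (Nat.shiftRight M (Nat.land c (nat_lit 31))) C3) (nat_lit 4294967295))) (nat_lit 128))))
    (Nat.shiftRight (Nat.land (Nat.lor M (Nat.mul (Nat.land (Nat.shiftRight M (Nat.land c (nat_lit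
    31))) C3) (nat_lit 4294967295))) (Nat.land (Nat.shiftRight (Nat.lor M (Nat.mul (Nat.land
    (Nat.shiftRight M (Nat.land c (nat_lit 31))) C3) (nat_lit 4294967295))) (nat_lit 64))
    (Nat.shiftRight (Nat.lor M (Nat.mul (Nat.land (Nat.shiftRight M (Nat.land c (nat_lit 31))) C3)
    (nat_lit 4294967295))) (nat_lit 128)))) (nat_lit 3072))) (Nat.shiftRight (Nat.lor (Nat.land
    (Nat.lor M (Nat.mul (Nat.land (Nat.shiftRight M (Nat.land c (nat_lit 31))) C3) (nat_lit
    4294967295))) (Nat.land (Nat.shiftRight (Nat.lor M (Nat.mul (Nat.land (Nat.shiftRight M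
    (Nat.land c (nat_lit 31))) C3) (nat_lit 4294967295))) (nat_lit 64)) (Nat.shiftRight (Nat.lor M
    (Nat.mul (Nat.land (Nat.shiftRight M (Nat.land c (nat_lit 31))) C3) (nat_lit 4294967295)))
    (nat_lit 128)))) (Nat.shiftRight (Nat.land (Nat.lor M (Nat.mul (Nat.land (Nat.shiftRight M
    (Nat.land c (nat_lit 31))) C3) (nat_lit 4294967295))) (Nat.land (Nat.shiftRight (Nat.lor M
    (Nat.mul (Nat.land (Nat.shiftRight M (Nat.land c (nat_lit 31))) C3) (nat_lit 4294967295)))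
    (nat_lit 64)) (Nat.shiftRight (Nat.lor M (Nat.mul (Nat.land (Nat.shiftRight M (Nat.land c
    (nat_lit 31))) C3) (nat_lit 4294967295))) (nat_lit 128)))) (nat_lit 3072))) (nat_lit 1536)))
    (Nat.shiftRight (Nat.lor (Nat.lor (Nat.land (Nat.lor M (Nat.mul (Nat.land (Nat.shiftRight M
    (Nat.land c (nat_lit 31))) C3) (nat_lit 4294967295))) (Nat.land (Nat.shiftRight (Nat.lor M
    (Nat.mul (Nat.land (Nat.shiftRight M (Nat.land c (nat_lit 31))) C3) (nat_lit 4294967295)))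
    (nat_lit 64)) (Nat.shiftRight (Nat.lor M (Nat.mul (Nat.land (Nat.shiftRight M (Nat.land c
    (nat_lit 31))) C3) (nat_lit 4294967295))) (nat_lit 128)))) (Nat.shiftRight (Nat.land (Nat.lor
    M (Nat.mul (Nat.land (Nat.shiftRight M (Nat.land c (nat_lit 31))) C3) (nat_lit 4294967295)))
    (Nat.land (Nat.shiftRight (Nat.lor M (Nat.mul (Nat.land (Nat.shiftRight M (Nat.land c (nat_lit
    31))) C3) (nat_lit 4294967295))) (nat_lit 64)) (Nat.shiftRight (Nat.lor M (Nat.mul (Nat.land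
    (Nat.shiftRight M (Nat.land c (nat_lit 31))) C3) (nat_lit 4294967295))) (nat_lit 128))))
    (nat_lit 3072))) (Nat.shiftRight (Nat.lor (Nat.land (Nat.lor M (Nat.mul (Nat.land
    (Nat.shiftRight M (Nat.land c (nat_lit 31))) C3) (nat_lit 4294967295))) (Nat.land
    (Nat.shiftRight (Nat.lor M (Nat.mul (Nat.land (Nat.shiftRight M (Nat.land c (nat_lit 31))) C3)
    (nat_lit 4294967295))) (nat_lit 64)) (Nat.shiftRight (Nat.lor M (Nat.mul (Nat.land
    (Nat.shiftRight M (Nat.land c (nat_lit 31))) C3) (nat_lit 4294967295))) (nat_lit 128))))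
    (Nat.shiftRight (Nat.land (Nat.lor M (Nat.mul (Nat.land (Nat.shiftRight M (Nat.land c (nat_lit
    31))) C3) (nat_lit 4294967295))) (Nat.land (Nat.shiftRight (Nat.lor M (Nat.mul (Nat.land
    (Nat.shiftRight M (Nat.land c (nat_lit 31))) C3) (nat_lit 4294967295))) (nat_lit 64))
    (Nat.shiftRight (Nat.lor M (Nat.mul (Nat.land (Nat.shiftRight M (Nat.land c (nat_lit 31))) C3)
    (nat_lit 4294967295))) (nat_lit 128)))) (nat_lit 3072))) (nat_lit 1536))) (nat_lit 768)))
    (Nat.shiftRight (Nat.lor (Nat.lor (Nat.lor (Nat.land (Nat.lor M (Nat.mul (Nat.land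
    (Nat.shiftRight M (Nat.land c (nat_lit 31))) C3) (nat_lit 4294967295))) (Nat.land
    (Nat.shiftRight (Nat.lor M (Nat.mul (Nat.land (Nat.shiftRight M (Nat.land c (nat_lit 31))) C3)
    (nat_lit 4294967295))) (nat_lit 64)) (Nat.shiftRight (Nat.lor M (Nat.mul (Nat.land
    (Nat.shiftRight M (Nat.land c (nat_lit 31))) C3) (nat_lit 4294967295))) (nat_lit 128))))
    (Nat.shiftRight (Nat.land (Nat.lor M (Nat.mul (Nat.land (Nat.shiftRight M (Nat.land c (nat_lit
    31))) C3) (nat_lit 4294967295))) (Nat.land (Nat.shiftRight (Nat.lor M (Nat.mul (Nat.land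
    (Nat.shiftRight M (Nat.land c (nat_lit 31))) C3) (nat_lit 4294967295))) (nat_lit 64))
    (Nat.shiftRight (Nat.lor M (Nat.mul (Nat.land (Nat.shiftRight M (Nat.land c (nat_lit 31))) C3)
    (nat_lit 4294967295))) (nat_lit 128)))) (nat_lit 3072))) (Nat.shiftRight (Nat.lor (Nat.land
    (Nat.lor M (Nat.mul (Nat.land (Nat.shiftRight M (Nat.land c (nat_lit 31))) C3) (nat_lit
    4294967295))) (Nat.land (Nat.shiftRight (Nat.lor M (Nat.mul (Nat.land (Nat.shiftRight M
    (Nat.land c (nat_lit 31))) C3) (nat_lit 4294967295))) (nat_lit 64)) (Nat.shiftRight (Nat.lor M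
    (Nat.mul (Nat.land (Nat.shiftRight M (Nat.land c (nat_lit 31))) C3) (nat_lit 4294967295)))
    (nat_lit 128)))) (Nat.shiftRight (Nat.land (Nat.lor M (Nat.mul (Nat.land (Nat.shiftRight M
    (Nat.land c (nat_lit 31))) C3) (nat_lit 4294967295))) (Nat.land (Nat.shiftRight (Nat.lor M
    (Nat.mul (Nat.land (Nat.shiftRight M (Nat.land c (nat_lit 31))) C3) (nat_lit 4294967295)))
    (nat_lit 64)) (Nat.shiftRight (Nat.lor M (Nat.mul (Nat.land (Nat.shiftRight M (Nat.land c
    (nat_lit 31))) C3) (nat_lit 4294967295))) (nat_lit 128)))) (nat_lit 3072))) (nat_lit 1536)))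
    (Nat.shiftRight (Nat.lor (Nat.lor (Nat.land (Nat.lor M (Nat.mul (Nat.land (Nat.shiftRight M
    (Nat.land c (nat_lit 31))) C3) (nat_lit 4294967295))) (Nat.land (Nat.shiftRight (Nat.lor M
    (Nat.mul (Nat.land (Nat.shiftRight M (Nat.land c (nat_lit 31))) C3) (nat_lit 4294967295)))
    (nat_lit 64)) (Nat.shiftRight (Nat.lor M (Nat.mul (Nat.land (Nat.shiftRight M (Nat.land c
    (nat_lit 31))) C3) (nat_lit 4294967295))) (nat_lit 128)))) (Nat.shiftRight (Nat.land (Nat.lor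
    M (Nat.mul (Nat.land (Nat.shiftRight M (Nat.land c (nat_lit 31))) C3) (nat_lit 4294967295)))
    (Nat.land (Nat.shiftRight (Nat.lor M (Nat.mul (Nat.land (Nat.shiftRight M (Nat.land c (nat_lit
    31))) C3) (nat_lit 4294967295))) (nat_lit 64)) (Nat.shiftRight (Nat.lor M (Nat.mul (Nat.land
    (Nat.shiftRight M (Nat.land c (nat_lit 31))) C3) (nat_lit 4294967295))) (nat_lit 128))))
    (nat_lit 3072))) (Nat.shiftRight (Nat.lor (Nat.land (Nat.lor M (Nat.mul (Nat.land
    (Nat.shiftRight M (Nat.land c (nat_lit 31))) C3) (nat_lit 4294967295))) (Nat.land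
    (Nat.shiftRight (Nat.lor M (Nat.mul (Nat.land (Nat.shiftRight M (Nat.land c (nat_lit 31))) C3)
    (nat_lit 4294967295))) (nat_lit 64)) (Nat.shiftRight (Nat.lor M (Nat.mul (Nat.land
    (Nat.shiftRight M (Nat.land c (nat_lit 31))) C3) (nat_lit 4294967295))) (nat_lit 128))))
    (Nat.shiftRight (Nat.land (Nat.lor M (Nat.mul (Nat.land (Nat.shiftRight M (Nat.land c (nat_lit
    31))) C3) (nat_lit 4294967295))) (Nat.land (Nat.shiftRight (Nat.lor M (Nat.mul (Nat.land
    (Nat.shiftRight M (Nat.land c (nat_lit 31))) C3) (nat_lit 4294967295))) (nat_lit 64))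
    (Nat.shiftRight (Nat.lor M (Nat.mul (Nat.land (Nat.shiftRight M (Nat.land c (nat_lit 31))) C3)
    (nat_lit 4294967295))) (nat_lit 128)))) (nat_lit 3072))) (nat_lit 1536))) (nat_lit 768)))
    (nat_lit 384))) (nat_lit 192))) (nat_lit 4294967295)) (nat_lit 128)) (nat_lit
    1461501636990620551361974531748726005748293697535)) M3) C3) (Nat.land c (nat_lit 31)))))
    (Nat.shiftRight c (nat_lit 5)))

noncomputable def rDR (P : Par) (ih : Pr) (M c : ℕ) : ℕ :=
  (Bool.rec (motive := fun _ => ℕ) (nat_lit 0) (ih (Nat.lor M (Nat.lor (Nat.shiftLeft (nat_lit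
    340282366920938463463374607431768211456) (Nat.add (Nat.mul (nat_lit 192) (Nat.land c (nat_lit
    31))) (Nat.land (Nat.shiftRight c (nat_lit 5)) (nat_lit 31)))) (Nat.shiftLeft (nat_lit
    340282366920938463463374607431768211456) (Nat.add (Nat.mul (nat_lit 192) (Nat.land
    (Nat.shiftRight c (nat_lit 5)) (nat_lit 31))) (Nat.land c (nat_lit 31)))))) (Nat.shiftRight c
    (nat_lit 10))) (Nat.beq (Nat.lor (Nat.sub (nat_lit 2) (Nat.add (Nat.land (Nat.shiftRight
    (Nat.lor (Nat.land (Nat.shiftRight M (Nat.mul (nat_lit 192) (Nat.land c (nat_lit 31))))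
    (nat_lit 6277101735386680763835789423207666416102355444464034512895)) (Nat.land
    (Nat.shiftRight M (Nat.mul (nat_lit 192) (Nat.land (Nat.shiftRight c (nat_lit 5)) (nat_lit
    31)))) (nat_lit 6277101735386680763835789423207666416102355444464034512895))) (nat_lit 48))
    (nat_lit 1)) (Nat.add (Nat.land (Nat.shiftRight (Nat.lor (Nat.land (Nat.shiftRight M (Nat.mul
    (nat_lit 192) (Nat.land c (nat_lit 31)))) (nat_lit
    6277101735386680763835789423207666416102355444464034512895)) (Nat.land (Nat.shiftRight M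
    (Nat.mul (nat_lit 192) (Nat.land (Nat.shiftRight c (nat_lit 5)) (nat_lit 31)))) (nat_lit
    6277101735386680763835789423207666416102355444464034512895))) (nat_lit 49)) (nat_lit 1))
    (Nat.land (Nat.shiftRight (Nat.lor (Nat.land (Nat.shiftRight M (Nat.mul (nat_lit 192)
    (Nat.land c (nat_lit 31)))) (nat_lit
    6277101735386680763835789423207666416102355444464034512895)) (Nat.land (Nat.shiftRight M
    (Nat.mul (nat_lit 192) (Nat.land (Nat.shiftRight c (nat_lit 5)) (nat_lit 31)))) (nat_lit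
    6277101735386680763835789423207666416102355444464034512895))) (nat_lit 50)) (nat_lit 1)))))
    (Nat.xor (Nat.shiftLeft P.rim (nat_lit 128)) (Nat.land (Nat.shiftLeft P.rim (nat_lit 128))
    (Nat.lor (Nat.land (Nat.shiftRight M (Nat.mul (nat_lit 192) (Nat.land c (nat_lit 31))))
    (nat_lit 6277101735386680763835789423207666416102355444464034512895)) (Nat.land
    (Nat.shiftRight M (Nat.mul (nat_lit 192) (Nat.land (Nat.shiftRight c (nat_lit 5)) (nat_lit
    31)))) (nat_lit 6277101735386680763835789423207666416102355444464034512895)))))) (nat_lit 0)))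

noncomputable def rS2 (ih : Pr) (M k a b c : ℕ) : ℕ :=
  (Bool.rec (motive := fun _ => ℕ) (nat_lit 0) (ih (Nat.lor M (Nat.lor (Nat.shiftLeft k (Nat.add
    (Nat.mul (nat_lit 192) a) b)) (Nat.shiftLeft k (Nat.add (Nat.mul (nat_lit 192) b) a)))) c)
    (Nat.ble (nat_lit 1) c))

noncomputable def rSP (ih : Pr) (M c : ℕ) : ℕ :=
  (rS2 ih M (nat_lit 340282366920938463463374607431768211456) (Nat.land c (nat_lit 31)) (Nat.land
    (Nat.shiftRight c (nat_lit 5)) (nat_lit 31)) (ih (Nat.lor M (Nat.lor (Nat.shiftLeft (Nat.land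
    (Nat.shiftRight M (Nat.land c (nat_lit 31))) C3) (Nat.land (Nat.shiftRight c (nat_lit 5))
    (nat_lit 31))) (Nat.shiftLeft (Nat.land (Nat.shiftRight M (Nat.mul (nat_lit 192) (Nat.land c
    (nat_lit 31)))) (nat_lit 6277101735386680763835789423207666416102355444464034512895)) (Nat.mul
    (nat_lit 192) (Nat.land (Nat.shiftRight c (nat_lit 5)) (nat_lit 31)))))) (Nat.shiftRight c
    (nat_lit 10))))

noncomputable def rAD (ih : Pr) (M c : ℕ) : ℕ :=
  (rS2 ih M (nat_lit 18446744073709551616) (Nat.land c (nat_lit 31)) (Nat.land (Nat.shiftRight c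
    (nat_lit 5)) (nat_lit 31)) (ih (Nat.lor M (Nat.lor (Nat.shiftLeft (nat_lit
    340282366920938463463374607431768211457) (Nat.add (Nat.mul (nat_lit 192) (Nat.land c (nat_lit
    31))) (Nat.land (Nat.shiftRight c (nat_lit 5)) (nat_lit 31)))) (Nat.shiftLeft (nat_lit
    340282366920938463463374607431768211457) (Nat.add (Nat.mul (nat_lit 192) (Nat.land
    (Nat.shiftRight c (nat_lit 5)) (nat_lit 31))) (Nat.land c (nat_lit 31)))))) (Nat.shiftRight c
    (nat_lit 10))))

noncomputable def rFA (P : Par) (M c : ℕ) : ℕ :=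
  (Bool.rec (motive := fun _ => ℕ) (nat_lit 0) (Nat.shiftRight c (nat_lit 10)) (Nat.beq (Nat.sub
    (nat_lit 1) (Nat.mul (Nat.land (Nat.shiftRight (Nat.land (Nat.shiftRight P.far (Nat.shiftLeft
    (Nat.land c (nat_lit 31)) (nat_lit 6))) (nat_lit 18446744073709551615)) (Nat.land
    (Nat.shiftRight c (nat_lit 5)) (nat_lit 31))) (nat_lit 1)) (Nat.land (Nat.land (Nat.land
    (Nat.shiftRight M (Nat.mul (nat_lit 192) (Nat.land c (nat_lit 31)))) (nat_lit
    6277101735386680763835789423207666416102355444464034512895)) (Nat.land (Nat.shiftRight M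
    (Nat.mul (nat_lit 192) (Nat.land (Nat.shiftRight c (nat_lit 5)) (nat_lit 31)))) (nat_lit
    6277101735386680763835789423207666416102355444464034512895))) (nat_lit 281474976710655))))
    (nat_lit 0)))

noncomputable def rSE (P : Par) (M c : ℕ) : ℕ :=
  (Bool.rec (motive := fun _ => ℕ) (nat_lit 0) (Nat.shiftRight c (nat_lit 5)) (Nat.beq (Nat.lor
    (Nat.sub (nat_lit 1) (Nat.mul P.sn (Nat.land (Nat.shiftRight (Nat.land (Nat.shiftRight M
    (Nat.mul (nat_lit 192) P.sc)) (nat_lit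
    6277101735386680763835789423207666416102355444464034512895)) (Nat.land c (nat_lit 31)))
    (nat_lit 1)))) (Nat.xor (Nat.shiftLeft P.sn (nat_lit 128)) (Nat.land (Nat.shiftLeft P.sn
    (nat_lit 128)) (Nat.land (Nat.shiftRight M (Nat.mul (nat_lit 192) (Nat.land c (nat_lit 31))))
    (nat_lit 6277101735386680763835789423207666416102355444464034512895))))) (nat_lit 0)))

noncomputable def rAT (P : Par) (Z M c : ℕ) : ℕ :=
  (Bool.rec (motive := fun _ => ℕ) (nat_lit 0) (Nat.shiftRight c (nat_lit 10)) (Nat.beq (Nat.lor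
    (Nat.xor (Nat.land (Nat.shiftRight P.cl (Nat.mul (nat_lit 192) (Nat.land (Nat.shiftRight c
    (nat_lit 5)) (nat_lit 31)))) (nat_lit
    6277101735386680763835789423207666416102355444464034512895)) (Nat.land (Nat.land
    (Nat.shiftRight P.cl (Nat.mul (nat_lit 192) (Nat.land (Nat.shiftRight c (nat_lit 5)) (nat_lit
    31)))) (nat_lit 6277101735386680763835789423207666416102355444464034512895)) (Nat.land
    (Nat.shiftRight M (Nat.mul (nat_lit 192) (Nat.land c (nat_lit 31)))) (nat_lit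
    6277101735386680763835789423207666416102355444464034512895)))) (Nat.xor (Nat.land
    (Nat.shiftRight P.ca (Nat.mul (nat_lit 192) (Nat.land (Nat.shiftRight c (nat_lit 5)) (nat_lit
    31)))) (nat_lit 6277101735386680763835789423207666416102355444464034512895)) (Nat.land
    (Nat.land (Nat.shiftRight P.ca (Nat.mul (nat_lit 192) (Nat.land (Nat.shiftRight c (nat_lit 5))
    (nat_lit 31)))) (nat_lit 6277101735386680763835789423207666416102355444464034512895)) (Nat.lor
    (Nat.shiftRight (Nat.land (Nat.shiftRight M (Nat.mul (nat_lit 192) (Nat.land c (nat_lit 31))))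
    (nat_lit 6277101735386680763835789423207666416102355444464034512895)) (nat_lit 64)) Z))))
    (nat_lit 0)))

noncomputable def mlS (rec : ML) (K : ℕ) (k : ℕ → ℕ → ℕ → ℕ) (U g c : ℕ) : ℕ :=
  (Bool.rec (motive := fun _ => ℕ) (k (Nat.lor U (Nat.shiftRight K (Nat.mul (nat_lit 192)
    (Nat.land c (nat_lit 31))))) (Nat.land g (Nat.shiftRight U (Nat.land c (nat_lit 31))))
    (Nat.shiftRight c (nat_lit 6))) (rec K k (Nat.lor U (Nat.shiftRight K (Nat.mul (nat_lit 192)
    (Nat.land c (nat_lit 31))))) (Nat.land g (Nat.shiftRight U (Nat.land c (nat_lit 31))))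
    (Nat.shiftRight c (nat_lit 6))) (Nat.ble (nat_lit 32) (Nat.land c (nat_lit 63))))

noncomputable def ml0 : ML := fun _ k U g c => k U g c

noncomputable def ml1 : ML := fun K k U g c =>
  (Bool.rec (motive := fun _ => ℕ) (k (Nat.lor U (Nat.shiftRight K (Nat.mul (nat_lit 192)
    (Nat.land c (nat_lit 31))))) (Nat.land g (Nat.shiftRight U (Nat.land c (nat_lit 31))))
    (Nat.shiftRight c (nat_lit 6))) (ml0 K k (Nat.lor U (Nat.shiftRight K (Nat.mul (nat_lit 192)
    (Nat.land c (nat_lit 31))))) (Nat.land g (Nat.shiftRight U (Nat.land c (nat_lit 31))))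
    (Nat.shiftRight c (nat_lit 6))) (Nat.ble (nat_lit 32) (Nat.land c (nat_lit 63))))

noncomputable def ml2 : ML := fun K k U g c =>
  (Bool.rec (motive := fun _ => ℕ) (k (Nat.lor U (Nat.shiftRight K (Nat.mul (nat_lit 192)
    (Nat.land c (nat_lit 31))))) (Nat.land g (Nat.shiftRight U (Nat.land c (nat_lit 31))))
    (Nat.shiftRight c (nat_lit 6))) (ml1 K k (Nat.lor U (Nat.shiftRight K (Nat.mul (nat_lit 192)
    (Nat.land c (nat_lit 31))))) (Nat.land g (Nat.shiftRight U (Nat.land c (nat_lit 31))))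
    (Nat.shiftRight c (nat_lit 6))) (Nat.ble (nat_lit 32) (Nat.land c (nat_lit 63))))

noncomputable def ml3 : ML := fun K k U g c =>
  (Bool.rec (motive := fun _ => ℕ) (k (Nat.lor U (Nat.shiftRight K (Nat.mul (nat_lit 192)
    (Nat.land c (nat_lit 31))))) (Nat.land g (Nat.shiftRight U (Nat.land c (nat_lit 31))))
    (Nat.shiftRight c (nat_lit 6))) (ml2 K k (Nat.lor U (Nat.shiftRight K (Nat.mul (nat_lit 192)
    (Nat.land c (nat_lit 31))))) (Nat.land g (Nat.shiftRight U (Nat.land c (nat_lit 31))))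
    (Nat.shiftRight c (nat_lit 6))) (Nat.ble (nat_lit 32) (Nat.land c (nat_lit 63))))

noncomputable def ml4 : ML := fun K k U g c =>
  (Bool.rec (motive := fun _ => ℕ) (k (Nat.lor U (Nat.shiftRight K (Nat.mul (nat_lit 192)
    (Nat.land c (nat_lit 31))))) (Nat.land g (Nat.shiftRight U (Nat.land c (nat_lit 31))))
    (Nat.shiftRight c (nat_lit 6))) (ml3 K k (Nat.lor U (Nat.shiftRight K (Nat.mul (nat_lit 192)
    (Nat.land c (nat_lit 31))))) (Nat.land g (Nat.shiftRight U (Nat.land c (nat_lit 31))))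
    (Nat.shiftRight c (nat_lit 6))) (Nat.ble (nat_lit 32) (Nat.land c (nat_lit 63))))

noncomputable def ml5 : ML := fun K k U g c =>
  (Bool.rec (motive := fun _ => ℕ) (k (Nat.lor U (Nat.shiftRight K (Nat.mul (nat_lit 192)
    (Nat.land c (nat_lit 31))))) (Nat.land g (Nat.shiftRight U (Nat.land c (nat_lit 31))))
    (Nat.shiftRight c (nat_lit 6))) (ml4 K k (Nat.lor U (Nat.shiftRight K (Nat.mul (nat_lit 192)
    (Nat.land c (nat_lit 31))))) (Nat.land g (Nat.shiftRight U (Nat.land c (nat_lit 31))))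
    (Nat.shiftRight c (nat_lit 6))) (Nat.ble (nat_lit 32) (Nat.land c (nat_lit 63))))

noncomputable def ml6 : ML := fun K k U g c =>
  (Bool.rec (motive := fun _ => ℕ) (k (Nat.lor U (Nat.shiftRight K (Nat.mul (nat_lit 192)
    (Nat.land c (nat_lit 31))))) (Nat.land g (Nat.shiftRight U (Nat.land c (nat_lit 31))))
    (Nat.shiftRight c (nat_lit 6))) (ml5 K k (Nat.lor U (Nat.shiftRight K (Nat.mul (nat_lit 192)
    (Nat.land c (nat_lit 31))))) (Nat.land g (Nat.shiftRight U (Nat.land c (nat_lit 31))))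
    (Nat.shiftRight c (nat_lit 6))) (Nat.ble (nat_lit 32) (Nat.land c (nat_lit 63))))

noncomputable def ml7 : ML := fun K k U g c =>
  (Bool.rec (motive := fun _ => ℕ) (k (Nat.lor U (Nat.shiftRight K (Nat.mul (nat_lit 192)
    (Nat.land c (nat_lit 31))))) (Nat.land g (Nat.shiftRight U (Nat.land c (nat_lit 31))))
    (Nat.shiftRight c (nat_lit 6))) (ml6 K k (Nat.lor U (Nat.shiftRight K (Nat.mul (nat_lit 192)
    (Nat.land c (nat_lit 31))))) (Nat.land g (Nat.shiftRight U (Nat.land c (nat_lit 31))))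
    (Nat.shiftRight c (nat_lit 6))) (Nat.ble (nat_lit 32) (Nat.land c (nat_lit 63))))

noncomputable def ml8 : ML := fun K k U g c =>
  (Bool.rec (motive := fun _ => ℕ) (k (Nat.lor U (Nat.shiftRight K (Nat.mul (nat_lit 192)
    (Nat.land c (nat_lit 31))))) (Nat.land g (Nat.shiftRight U (Nat.land c (nat_lit 31))))
    (Nat.shiftRight c (nat_lit 6))) (ml7 K k (Nat.lor U (Nat.shiftRight K (Nat.mul (nat_lit 192)
    (Nat.land c (nat_lit 31))))) (Nat.land g (Nat.shiftRight U (Nat.land c (nat_lit 31))))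
    (Nat.shiftRight c (nat_lit 6))) (Nat.ble (nat_lit 32) (Nat.land c (nat_lit 63))))

noncomputable def ml9 : ML := fun K k U g c =>
  (Bool.rec (motive := fun _ => ℕ) (k (Nat.lor U (Nat.shiftRight K (Nat.mul (nat_lit 192)
    (Nat.land c (nat_lit 31))))) (Nat.land g (Nat.shiftRight U (Nat.land c (nat_lit 31))))
    (Nat.shiftRight c (nat_lit 6))) (ml8 K k (Nat.lor U (Nat.shiftRight K (Nat.mul (nat_lit 192)
    (Nat.land c (nat_lit 31))))) (Nat.land g (Nat.shiftRight U (Nat.land c (nat_lit 31))))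
    (Nat.shiftRight c (nat_lit 6))) (Nat.ble (nat_lit 32) (Nat.land c (nat_lit 63))))

noncomputable def ml10 : ML := fun K k U g c =>
  (Bool.rec (motive := fun _ => ℕ) (k (Nat.lor U (Nat.shiftRight K (Nat.mul (nat_lit 192)
    (Nat.land c (nat_lit 31))))) (Nat.land g (Nat.shiftRight U (Nat.land c (nat_lit 31))))
    (Nat.shiftRight c (nat_lit 6))) (ml9 K k (Nat.lor U (Nat.shiftRight K (Nat.mul (nat_lit 192)
    (Nat.land c (nat_lit 31))))) (Nat.land g (Nat.shiftRight U (Nat.land c (nat_lit 31))))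
    (Nat.shiftRight c (nat_lit 6))) (Nat.ble (nat_lit 32) (Nat.land c (nat_lit 63))))

noncomputable def ml11 : ML := fun K k U g c =>
  (Bool.rec (motive := fun _ => ℕ) (k (Nat.lor U (Nat.shiftRight K (Nat.mul (nat_lit 192)
    (Nat.land c (nat_lit 31))))) (Nat.land g (Nat.shiftRight U (Nat.land c (nat_lit 31))))
    (Nat.shiftRight c (nat_lit 6))) (ml10 K k (Nat.lor U (Nat.shiftRight K (Nat.mul (nat_lit 192)
    (Nat.land c (nat_lit 31))))) (Nat.land g (Nat.shiftRight U (Nat.land c (nat_lit 31))))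
    (Nat.shiftRight c (nat_lit 6))) (Nat.ble (nat_lit 32) (Nat.land c (nat_lit 63))))

noncomputable def ml : ML := fun K k U g c =>
  (Bool.rec (motive := fun _ => ℕ) (k (Nat.lor U (Nat.shiftRight K (Nat.mul (nat_lit 192)
    (Nat.land c (nat_lit 31))))) (Nat.land g (Nat.shiftRight U (Nat.land c (nat_lit 31))))
    (Nat.shiftRight c (nat_lit 6))) (ml11 K k (Nat.lor U (Nat.shiftRight K (Nat.mul (nat_lit 192)
    (Nat.land c (nat_lit 31))))) (Nat.land g (Nat.shiftRight U (Nat.land c (nat_lit 31))))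
    (Nat.shiftRight c (nat_lit 6))) (Nat.ble (nat_lit 32) (Nat.land c (nat_lit 63))))

noncomputable def mS (K : ℕ) (k : ℕ → ℕ → ℕ → ℕ) (g c : ℕ) : ℕ :=
  (Bool.rec (motive := fun _ => ℕ) (k (Nat.shiftRight K (Nat.mul (nat_lit 192) (Nat.land c
    (nat_lit 31)))) g (Nat.shiftRight c (nat_lit 6))) (ml K k (Nat.shiftRight K (Nat.mul (nat_lit
    192) (Nat.land c (nat_lit 31)))) g (Nat.shiftRight c (nat_lit 6))) (Nat.ble (nat_lit 32)
    (Nat.land c (nat_lit 63))))

noncomputable def rK5 (K l c : ℕ) : ℕ :=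
  (mS K (fun U1 g c => (mS K (fun U2 g c => (mS K (fun U3 g c => (mS K (fun U4 g c => (mS K (fun
    U5 g c => (Bool.rec (motive := fun _ => ℕ) (nat_lit 0) c (Nat.beq (Nat.lor (Nat.lor (Nat.lor
    (Nat.lor (Nat.lor (Nat.land U1 l) (Nat.land U2 (Nat.lor (Nat.shiftLeft (Nat.land
    (Nat.shiftRight U1 (nat_lit 64)) (nat_lit 4294967295)) (nat_lit 128)) l))) (Nat.land U3
    (Nat.lor (Nat.shiftLeft (Nat.lor (Nat.land (Nat.shiftRight U1 (nat_lit 64)) (nat_lit
    4294967295)) (Nat.land (Nat.shiftRight U2 (nat_lit 64)) (nat_lit 4294967295))) (nat_lit 128))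
    l))) (Nat.land U4 (Nat.lor (Nat.shiftLeft (Nat.lor (Nat.lor (Nat.land (Nat.shiftRight U1
    (nat_lit 64)) (nat_lit 4294967295)) (Nat.land (Nat.shiftRight U2 (nat_lit 64)) (nat_lit
    4294967295))) (Nat.land (Nat.shiftRight U3 (nat_lit 64)) (nat_lit 4294967295))) (nat_lit 128))
    l))) (Nat.land U5 (Nat.lor (Nat.shiftLeft (Nat.lor (Nat.lor (Nat.lor (Nat.land (Nat.shiftRight
    U1 (nat_lit 64)) (nat_lit 4294967295)) (Nat.land (Nat.shiftRight U2 (nat_lit 64)) (nat_lit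
    4294967295))) (Nat.land (Nat.shiftRight U3 (nat_lit 64)) (nat_lit 4294967295))) (Nat.land
    (Nat.shiftRight U4 (nat_lit 64)) (nat_lit 4294967295))) (nat_lit 128)) l))) (Nat.sub (nat_lit
    1) (Nat.mul (Nat.mul (Nat.mul (Nat.mul (Nat.mul (Nat.mul (Nat.mul (Nat.mul (Nat.mul (Nat.mul g
    (Nat.land U2 (Nat.land (Nat.shiftRight U1 (nat_lit 64)) (nat_lit 4294967295)))) (Nat.land U3
    (Nat.land (Nat.shiftRight U1 (nat_lit 64)) (nat_lit 4294967295)))) (Nat.land U3 (Nat.land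
    (Nat.shiftRight U2 (nat_lit 64)) (nat_lit 4294967295)))) (Nat.land U4 (Nat.land
    (Nat.shiftRight U1 (nat_lit 64)) (nat_lit 4294967295)))) (Nat.land U4 (Nat.land
    (Nat.shiftRight U2 (nat_lit 64)) (nat_lit 4294967295)))) (Nat.land U4 (Nat.land
    (Nat.shiftRight U3 (nat_lit 64)) (nat_lit 4294967295)))) (Nat.land U5 (Nat.land
    (Nat.shiftRight U1 (nat_lit 64)) (nat_lit 4294967295)))) (Nat.land U5 (Nat.land
    (Nat.shiftRight U2 (nat_lit 64)) (nat_lit 4294967295)))) (Nat.land U5 (Nat.land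
    (Nat.shiftRight U3 (nat_lit 64)) (nat_lit 4294967295)))) (Nat.land U5 (Nat.land
    (Nat.shiftRight U4 (nat_lit 64)) (nat_lit 4294967295)))))) (nat_lit 0)))) g c)) g c)) g c)) g
    c)) (nat_lit 1) c)

noncomputable def rK33 (K l c : ℕ) : ℕ :=
  (mS K (fun U1 g c => (mS K (fun U2 g c => (mS K (fun U3 g c => (mS K (fun U4 g c => (mS K (fun
    U5 g c => (mS K (fun U6 g c => (Bool.rec (motive := fun _ => ℕ) (nat_lit 0) c (Nat.beq
    (Nat.lor (Nat.lor (Nat.lor (Nat.lor (Nat.lor (Nat.lor (Nat.land U1 l) (Nat.land U2 (Nat.lor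
    (Nat.shiftLeft (Nat.land (Nat.shiftRight U1 (nat_lit 64)) (nat_lit 4294967295)) (nat_lit 128))
    l))) (Nat.land U3 (Nat.lor (Nat.shiftLeft (Nat.lor (Nat.land (Nat.shiftRight U1 (nat_lit 64))
    (nat_lit 4294967295)) (Nat.land (Nat.shiftRight U2 (nat_lit 64)) (nat_lit 4294967295)))
    (nat_lit 128)) l))) (Nat.land U4 (Nat.lor (Nat.shiftLeft (Nat.lor (Nat.lor (Nat.land
    (Nat.shiftRight U1 (nat_lit 64)) (nat_lit 4294967295)) (Nat.land (Nat.shiftRight U2 (nat_lit
    64)) (nat_lit 4294967295))) (Nat.land (Nat.shiftRight U3 (nat_lit 64)) (nat_lit 4294967295)))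
    (nat_lit 128)) l))) (Nat.land U5 (Nat.lor (Nat.shiftLeft (Nat.lor (Nat.lor (Nat.lor (Nat.land
    (Nat.shiftRight U1 (nat_lit 64)) (nat_lit 4294967295)) (Nat.land (Nat.shiftRight U2 (nat_lit
    64)) (nat_lit 4294967295))) (Nat.land (Nat.shiftRight U3 (nat_lit 64)) (nat_lit 4294967295)))
    (Nat.land (Nat.shiftRight U4 (nat_lit 64)) (nat_lit 4294967295))) (nat_lit 128)) l)))
    (Nat.land U6 (Nat.lor (Nat.shiftLeft (Nat.lor (Nat.lor (Nat.lor (Nat.lor (Nat.land
    (Nat.shiftRight U1 (nat_lit 64)) (nat_lit 4294967295)) (Nat.land (Nat.shiftRight U2 (nat_lit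
    64)) (nat_lit 4294967295))) (Nat.land (Nat.shiftRight U3 (nat_lit 64)) (nat_lit 4294967295)))
    (Nat.land (Nat.shiftRight U4 (nat_lit 64)) (nat_lit 4294967295))) (Nat.land (Nat.shiftRight U5
    (nat_lit 64)) (nat_lit 4294967295))) (nat_lit 128)) l))) (Nat.sub (nat_lit 1) (Nat.mul
    (Nat.mul (Nat.mul (Nat.mul (Nat.mul (Nat.mul (Nat.mul (Nat.mul (Nat.mul g (Nat.land U4
    (Nat.land (Nat.shiftRight U1 (nat_lit 64)) (nat_lit 4294967295)))) (Nat.land U4 (Nat.land
    (Nat.shiftRight U2 (nat_lit 64)) (nat_lit 4294967295)))) (Nat.land U4 (Nat.land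
    (Nat.shiftRight U3 (nat_lit 64)) (nat_lit 4294967295)))) (Nat.land U5 (Nat.land
    (Nat.shiftRight U1 (nat_lit 64)) (nat_lit 4294967295)))) (Nat.land U5 (Nat.land
    (Nat.shiftRight U2 (nat_lit 64)) (nat_lit 4294967295)))) (Nat.land U5 (Nat.land
    (Nat.shiftRight U3 (nat_lit 64)) (nat_lit 4294967295)))) (Nat.land U6 (Nat.land
    (Nat.shiftRight U1 (nat_lit 64)) (nat_lit 4294967295)))) (Nat.land U6 (Nat.land
    (Nat.shiftRight U2 (nat_lit 64)) (nat_lit 4294967295)))) (Nat.land U6 (Nat.land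
    (Nat.shiftRight U3 (nat_lit 64)) (nat_lit 4294967295)))))) (nat_lit 0)))) g c)) g c)) g c)) g
    c)) g c)) (nat_lit 1) c)

noncomputable def rMI (P : Par) (M c : ℕ) : ℕ :=
  (Bool.rec (motive := fun _ => ℕ) (rK33 (Nat.xor (Nat.lor (Nat.land M MK) (Nat.land
    (Nat.shiftRight P.v3 (Nat.mul (nat_lit 3072) (Nat.land c (nat_lit 3)))) M16)) NM)
    (Nat.shiftLeft (nat_lit 1) (Nat.add (nat_lit 48) (Nat.land c (nat_lit 3)))) (Nat.shiftRight c
    (nat_lit 3))) (rK5 (Nat.xor (Nat.lor (Nat.land M MK) (Nat.land (Nat.shiftRight P.v3 (Nat.mul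
    (nat_lit 3072) (Nat.land c (nat_lit 3)))) M16)) NM) (Nat.shiftLeft (nat_lit 1) (Nat.add
    (nat_lit 48) (Nat.land c (nat_lit 3)))) (Nat.shiftRight c (nat_lit 3))) (Nat.ble (nat_lit 4)
    (Nat.land c (nat_lit 7))))

noncomputable def pickR (P : Par) (ih : Pr) (s v M e c : ℕ) : ℕ :=
  (Bool.rec (motive := fun _ => ℕ) (Bool.rec (motive := fun _ => ℕ) (Bool.rec (motive := fun _ =>
    ℕ) (nat_lit 0) (ih (Nat.lor M (Nat.lor (Nat.shiftLeft (Nat.lor (Nat.lor (Nat.lor e
    (Nat.shiftLeft (nat_lit 1) v)) (Nat.land (Nat.shiftRight P.ft (Nat.mul (nat_lit 192) s))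
    (nat_lit 6277101735386680763835789423207666416102355444464034512895))) (Nat.shiftLeft (nat_lit
    18446744073709551617) (Nat.land c (nat_lit 31)))) (Nat.mul (nat_lit 192) (Nat.land c (nat_lit
    31)))) (Nat.shiftLeft (Nat.land (Nat.mul (Nat.land (Nat.lor (Nat.lor (Nat.lor e (Nat.shiftLeft
    (nat_lit 1) v)) (Nat.land (Nat.shiftRight P.ft (Nat.mul (nat_lit 192) s)) (nat_lit
    6277101735386680763835789423207666416102355444464034512895))) (Nat.shiftLeft (nat_lit
    18446744073709551617) (Nat.land c (nat_lit 31)))) (nat_lit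
    1461501636990620551361974531748726005748293697535)) M3) C3) (Nat.land c (nat_lit 31)))))
    (Nat.shiftRight c (nat_lit 6))) (Nat.beq (Nat.lor (Nat.lor (Nat.sub P.H (Nat.land c (nat_lit
    31))) (Nat.lor (Nat.shiftRight M (nat_lit 6144)) (Nat.lor (Nat.land (Nat.shiftRight M (Nat.mul
    (nat_lit 192) (Nat.land c (nat_lit 31)))) (nat_lit
    6277101735386680763835789423207666416102355444464034512895)) (Nat.land (Nat.shiftRight M
    (Nat.land c (nat_lit 31))) C3)))) (Nat.sub s (nat_lit 18))) (nat_lit 0))) (ih M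
    (Nat.shiftRight c (nat_lit 6))) (Nat.ble (nat_lit 32) (Nat.land c (nat_lit 63)))) (ih (Nat.lor
    M (Nat.lor (Nat.shiftLeft (Nat.lor e (Nat.shiftLeft (nat_lit 1) v)) (Nat.mul (nat_lit 192) s))
    (Nat.shiftLeft (Nat.land (Nat.mul (Nat.land (Nat.lor e (Nat.shiftLeft (nat_lit 1) v)) (nat_lit
    1461501636990620551361974531748726005748293697535)) M3) C3) s))) c) (Nat.ble s (nat_lit 15)))

noncomputable def pickL (P : Par) (ih : Pr) (s s2 u v M c : ℕ) : ℕ :=
  (Bool.rec (motive := fun _ => ℕ) (Bool.rec (motive := fun _ => ℕ) (Bool.rec (motive := fun _ =>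
    ℕ) (nat_lit 0) (pickR P ih s2 v (Nat.lor M (Nat.lor (Nat.shiftLeft (Nat.lor (Nat.lor
    (Nat.shiftLeft (nat_lit 1) u) (Nat.land (Nat.shiftRight P.ft (Nat.mul (nat_lit 192) s))
    (nat_lit 6277101735386680763835789423207666416102355444464034512895))) (Nat.shiftLeft (nat_lit
    18446744073709551617) (Nat.land c (nat_lit 31)))) (Nat.mul (nat_lit 192) (Nat.land c (nat_lit
    31)))) (Nat.shiftLeft (Nat.land (Nat.mul (Nat.land (Nat.lor (Nat.lor (Nat.shiftLeft (nat_lit
    1) u) (Nat.land (Nat.shiftRight P.ft (Nat.mul (nat_lit 192) s)) (nat_lit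
    6277101735386680763835789423207666416102355444464034512895))) (Nat.shiftLeft (nat_lit
    18446744073709551617) (Nat.land c (nat_lit 31)))) (nat_lit
    1461501636990620551361974531748726005748293697535)) M3) C3) (Nat.land c (nat_lit 31)))))
    (Nat.shiftLeft (nat_lit 1) (Nat.land c (nat_lit 31))) (Nat.shiftRight c (nat_lit 6))) (Nat.beq
    (Nat.lor (Nat.lor (Nat.sub P.H (Nat.land c (nat_lit 31))) (Nat.lor (Nat.shiftRight M (nat_lit
    6144)) (Nat.lor (Nat.land (Nat.shiftRight M (Nat.mul (nat_lit 192) (Nat.land c (nat_lit 31))))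
    (nat_lit 6277101735386680763835789423207666416102355444464034512895)) (Nat.land
    (Nat.shiftRight M (Nat.land c (nat_lit 31))) C3)))) (Nat.sub s (nat_lit 18))) (nat_lit 0)))
    (pickR P ih s2 v M (nat_lit 0) (Nat.shiftRight c (nat_lit 6))) (Nat.ble (nat_lit 32) (Nat.land
    c (nat_lit 63)))) (pickR P ih s2 v (Nat.lor M (Nat.lor (Nat.shiftLeft (nat_lit 1) (Nat.add
    (Nat.mul (nat_lit 192) u) s)) (Nat.shiftLeft (nat_lit 1) (Nat.add (Nat.mul (nat_lit 192) s)
    u)))) (Nat.shiftLeft (nat_lit 1) s) c) (Nat.ble s (nat_lit 15)))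

noncomputable def lkT (rec : Pr) (e c : ℕ) : ℕ :=
  (Bool.rec (motive := fun _ => ℕ) (nat_lit 0) (rec e c) (Nat.ble (nat_lit 1) c))

noncomputable def lkS (P : Par) (ih : Pr) (M u v fu fv : ℕ) (rec : Pr) (e c : ℕ) : ℕ :=
  (Bool.rec (motive := fun _ => ℕ) (Bool.rec (motive := fun _ => ℕ) (rec (Nat.shiftRight e
    (nat_lit 12)) c) (lkT rec (Nat.shiftRight e (nat_lit 12)) (pickL P ih (Nat.land e (nat_lit
    31)) (Nat.land (Nat.shiftRight e (nat_lit 5)) (nat_lit 31)) u v M c)) (Nat.beq (Nat.land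
    (Nat.lor (Nat.shiftRight fu (Nat.land e (nat_lit 31))) (Nat.shiftRight fv (Nat.land
    (Nat.shiftRight e (nat_lit 5)) (nat_lit 31)))) (nat_lit 1)) (nat_lit 0))) c (Nat.beq e
    (nat_lit 0)))

noncomputable def rLK (P : Par) (ih : Pr) (M c : ℕ) : ℕ :=
  (Bool.rec (motive := fun _ => ℕ) (nat_lit 0) (t16 (lkS P ih M (Nat.land c (nat_lit 31))
    (Nat.land (Nat.shiftRight c (nat_lit 5)) (nat_lit 31)) (Nat.land (Nat.land (Nat.shiftRight
    (Nat.land (Nat.shiftRight M (Nat.mul (nat_lit 192) (Nat.land c (nat_lit 31)))) (nat_lit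
    6277101735386680763835789423207666416102355444464034512895)) (nat_lit 64)) (Nat.shiftRight
    (Nat.land (Nat.shiftRight M (Nat.mul (nat_lit 192) (Nat.land c (nat_lit 31)))) (nat_lit
    6277101735386680763835789423207666416102355444464034512895)) (nat_lit 128))) (nat_lit 65535))
    (Nat.land (Nat.land (Nat.shiftRight (Nat.land (Nat.shiftRight M (Nat.mul (nat_lit 192)
    (Nat.land (Nat.shiftRight c (nat_lit 5)) (nat_lit 31)))) (nat_lit
    6277101735386680763835789423207666416102355444464034512895)) (nat_lit 64)) (Nat.shiftRight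
    (Nat.land (Nat.shiftRight M (Nat.mul (nat_lit 192) (Nat.land (Nat.shiftRight c (nat_lit 5))
    (nat_lit 31)))) (nat_lit 6277101735386680763835789423207666416102355444464034512895)) (nat_lit
    128))) (nat_lit 65535))) (fun _ c => c) (Nat.land (Nat.shiftRight P.tab (Nat.mul (nat_lit 192)
    (Nat.add (Nat.mul (nat_lit 19) (Nat.land (Nat.shiftRight c (nat_lit 10)) (nat_lit 31)))
    (Nat.land (Nat.shiftRight c (nat_lit 15)) (nat_lit 31))))) (nat_lit
    6277101735386680763835789423207666416102355444464034512895)) (Nat.shiftRight c (nat_lit 20)))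
    (Nat.beq (Nat.lor (Nat.xor (Nat.land (Nat.shiftRight P.cl (Nat.mul (nat_lit 192) (Nat.land
    (Nat.shiftRight c (nat_lit 10)) (nat_lit 31)))) (nat_lit
    6277101735386680763835789423207666416102355444464034512895)) (Nat.land (Nat.land
    (Nat.shiftRight P.cl (Nat.mul (nat_lit 192) (Nat.land (Nat.shiftRight c (nat_lit 10)) (nat_lit
    31)))) (nat_lit 6277101735386680763835789423207666416102355444464034512895)) (Nat.land
    (Nat.shiftRight M (Nat.mul (nat_lit 192) (Nat.land c (nat_lit 31)))) (nat_lit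
    6277101735386680763835789423207666416102355444464034512895)))) (Nat.xor (Nat.land
    (Nat.shiftRight P.cl (Nat.mul (nat_lit 192) (Nat.land (Nat.shiftRight c (nat_lit 15)) (nat_lit
    31)))) (nat_lit 6277101735386680763835789423207666416102355444464034512895)) (Nat.land
    (Nat.land (Nat.shiftRight P.cl (Nat.mul (nat_lit 192) (Nat.land (Nat.shiftRight c (nat_lit
    15)) (nat_lit 31)))) (nat_lit 6277101735386680763835789423207666416102355444464034512895))
    (Nat.land (Nat.shiftRight M (Nat.mul (nat_lit 192) (Nat.land (Nat.shiftRight c (nat_lit 5))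
    (nat_lit 31)))) (nat_lit 6277101735386680763835789423207666416102355444464034512895)))))
    (nat_lit 0)))

noncomputable def dhT (rec : ℕ → ℕ) (c : ℕ) : ℕ :=
  (Bool.rec (motive := fun _ => ℕ) (nat_lit 0) (rec c) (Nat.ble (nat_lit 1) c))

noncomputable def dhS (ih : Pr) (M S d : ℕ) (rec : ℕ → ℕ) (c : ℕ) : ℕ :=
  (Bool.rec (motive := fun _ => ℕ) (rec c) (dhT rec (ih (Nat.lor M (Nat.lor (Nat.shiftLeft
    (Nat.shiftLeft S (nat_lit 64)) (Nat.mul (nat_lit 192) d)) (Nat.shiftLeft (Nat.land (Nat.mul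
    (Nat.land (Nat.shiftLeft S (nat_lit 64)) (nat_lit
    1461501636990620551361974531748726005748293697535)) M3) C3) d))) c)) (Nat.beq (Nat.land
    (Nat.land (Nat.shiftRight M (Nat.mul (nat_lit 192) d)) (Nat.shiftRight M (Nat.add (Nat.mul
    (nat_lit 192) d) (nat_lit 128)))) S) (nat_lit 0)))

noncomputable def domH (ih : Pr) (M S n : ℕ) : ℕ → ℕ :=
  Nat.rec (motive := fun _ => ℕ → ℕ) (fun c => c) (fun d rec c => dhS ih M S d rec c) n

noncomputable def domR (P : Par) (ih : Pr) (M S r c : ℕ) : ℕ :=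
  (Bool.rec (motive := fun _ => ℕ) (nat_lit 0) (ih (Nat.lor M (Nat.lor (Nat.shiftLeft (Nat.lor
    (Nat.lor (Nat.shiftLeft S (nat_lit 64)) (P.fa r)) (Nat.shiftLeft (nat_lit
    18446744073709551617) (Nat.land c (nat_lit 31)))) (Nat.mul (nat_lit 192) (Nat.land c (nat_lit
    31)))) (Nat.shiftLeft (Nat.land (Nat.mul (Nat.land (Nat.lor (Nat.lor (Nat.shiftLeft S (nat_lit
    64)) (P.fa r)) (Nat.shiftLeft (nat_lit 18446744073709551617) (Nat.land c (nat_lit 31))))
    (nat_lit 1461501636990620551361974531748726005748293697535)) M3) C3) (Nat.land c (nat_lit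
    31))))) (Nat.shiftRight c (nat_lit 5))) (Nat.beq (Nat.lor (Nat.lor (Nat.sub P.H (Nat.land c
    (nat_lit 31))) (Nat.lor (Nat.shiftRight M (nat_lit 6144)) (Nat.lor (Nat.land (Nat.shiftRight M
    (Nat.mul (nat_lit 192) (Nat.land c (nat_lit 31)))) (nat_lit
    6277101735386680763835789423207666416102355444464034512895)) (Nat.land (Nat.shiftRight M
    (Nat.land c (nat_lit 31))) C3)))) (Nat.sub (nat_lit 1) c)) (nat_lit 0)))

noncomputable def domA (P : Par) (ih : Pr) (M S c : ℕ) : ℕ :=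
  (domR P ih M S (nat_lit 2) (domR P ih M S (nat_lit 1) (domR P ih M S (nat_lit 0) (domH ih M S
    P.m c))))

noncomputable def rdK (n : ℕ) : ℕ → ℕ :=
  Nat.rec (motive := fun _ => ℕ → ℕ) (fun _ => 0)
    (fun _ ih c => Nat.lor (Nat.shiftLeft 1 (Nat.land c 31)) (ih (Nat.shiftRight c 5))) n

noncomputable def rDS (P : Par) (ih : Pr) (M c : ℕ) : ℕ :=
  (domA P ih M (rdK P.K c) (Nat.shiftRight c (Nat.mul (nat_lit 5) P.K)))

noncomputable def rDB2 (P : Par) (ih : Pr) (M c i code : ℕ) : ℕ :=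
  (Bool.rec (motive := fun _ => ℕ) (nat_lit 0) (domA P ih M (Nat.xor (Nat.pred (Nat.shiftLeft
    (nat_lit 1) P.m)) (Nat.land (Nat.pred (Nat.shiftLeft (nat_lit 1) P.m)) code)) (Nat.shiftRight
    c (nat_lit 18))) (Nat.beq (Nat.lor (Nat.sub (Nat.add (Nat.land c (nat_lit 262143)) (nat_lit
    1)) i) (Nat.shiftRight code (nat_lit 16))) (nat_lit 0)))

noncomputable def rDB (P : Par) (db : DB) (i : ℕ) (ih : Pr) (M c : ℕ) : ℕ :=
  (rDB2 P ih M c i (get db (Nat.land c (nat_lit 262143))))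

noncomputable def usS (M T c : ℕ) (rec : ℕ → ℕ → ℕ → ℕ) (code C bad : ℕ) : ℕ :=
  (Bool.rec (motive := fun _ => ℕ) (rec (Nat.shiftRight code (Nat.add (nat_lit 8) (Nat.mul
    (nat_lit 3) (Nat.land code (nat_lit 31))))) (Nat.lor C (Nat.shiftLeft (Nat.land
    (Nat.shiftRight M (Nat.land (Nat.shiftRight T (Nat.mul (nat_lit 5) (Nat.land code (nat_lit
    31)))) (nat_lit 31))) C3) (Nat.land code (nat_lit 31)))) (Nat.lor bad (Nat.xor (Nat.lor
    (Nat.lor (Nat.land (Nat.shiftRight code (nat_lit 8)) (Nat.pred (Nat.shiftLeft (nat_lit 1)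
    (Nat.land code (nat_lit 31))))) (Nat.shiftLeft (Nat.land (Nat.shiftRight code (nat_lit 5))
    (nat_lit 7)) (nat_lit 48))) (Nat.lor (Nat.shiftLeft (Nat.land (Nat.shiftRight code (Nat.add
    (nat_lit 8) (Nat.land code (nat_lit 31)))) (Nat.pred (Nat.shiftLeft (nat_lit 1) (Nat.land code
    (nat_lit 31))))) (nat_lit 64)) (Nat.shiftLeft (Nat.land (Nat.shiftRight code (Nat.add (nat_lit
    8) (Nat.mul (nat_lit 2) (Nat.land code (nat_lit 31))))) (Nat.pred (Nat.shiftLeft (nat_lit 1)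
    (Nat.land code (nat_lit 31))))) (nat_lit 128)))) (Nat.land (Nat.lor (Nat.lor (Nat.land
    (Nat.shiftRight code (nat_lit 8)) (Nat.pred (Nat.shiftLeft (nat_lit 1) (Nat.land code (nat_lit
    31))))) (Nat.shiftLeft (Nat.land (Nat.shiftRight code (nat_lit 5)) (nat_lit 7)) (nat_lit 48)))
    (Nat.lor (Nat.shiftLeft (Nat.land (Nat.shiftRight code (Nat.add (nat_lit 8) (Nat.land code
    (nat_lit 31)))) (Nat.pred (Nat.shiftLeft (nat_lit 1) (Nat.land code (nat_lit 31))))) (nat_lit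
    64)) (Nat.shiftLeft (Nat.land (Nat.shiftRight code (Nat.add (nat_lit 8) (Nat.mul (nat_lit 2)
    (Nat.land code (nat_lit 31))))) (Nat.pred (Nat.shiftLeft (nat_lit 1) (Nat.land code (nat_lit
    31))))) (nat_lit 128)))) (Nat.shiftRight C (Nat.mul (nat_lit 192) (Nat.land (Nat.shiftRight T
    (Nat.mul (nat_lit 5) (Nat.land code (nat_lit 31)))) (nat_lit 31)))))))) (Bool.rec (motive :=
    fun _ => ℕ) (nat_lit 0) c (Nat.beq bad (nat_lit 0))) (Nat.beq code (nat_lit 0)))

noncomputable def usE (c : ℕ) (_ _ bad : ℕ) : ℕ := ok bad c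

noncomputable def rUS2 (P : Par) (i Z M c code : ℕ) : ℕ :=
  (t32 (usS M (Nat.lor P.idm (Nat.shiftLeft (Nat.land (Nat.shiftRight c (nat_lit 23)) (Nat.pred
    (Nat.shiftLeft (nat_lit 1) (Nat.mul (nat_lit 5) (Nat.land (Nat.shiftRight c (nat_lit 18))
    (nat_lit 31)))))) (Nat.mul (nat_lit 5) P.H))) (Nat.shiftRight (Nat.shiftRight c (nat_lit 23))
    (Nat.mul (nat_lit 5) (Nat.land (Nat.shiftRight c (nat_lit 18)) (nat_lit 31))))) (usE
    (Nat.shiftRight (Nat.shiftRight c (nat_lit 23)) (Nat.mul (nat_lit 5) (Nat.land (Nat.shiftRight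
    c (nat_lit 18)) (nat_lit 31))))) (Nat.shiftRight code (nat_lit 16)) (Nat.land M P.hm) (Nat.lor
    (Nat.sub (Nat.add (Nat.land c (nat_lit 262143)) (nat_lit 1)) i) (Nat.xor (Nat.land code
    (nat_lit 65535)) (Nat.land (Nat.land code (nat_lit 65535)) Z))))

noncomputable def rUS (P : Par) (db : DB) (i Z M c : ℕ) : ℕ :=
  (rUS2 P i Z M c (get db (Nat.land c (nat_lit 262143))))

noncomputable def step (P : Par) (db : DB) (i Z : ℕ) (ih : Pr) (M c : ℕ) : ℕ :=
  (Bool.rec (motive := fun _ => ℕ) (Bool.rec (motive := fun _ => ℕ) (rMI P M (Nat.shiftRight c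
    (nat_lit 4))) (rSP ih M (Nat.shiftRight c (nat_lit 4))) (Nat.ble (nat_lit 1) (Nat.land c
    (nat_lit 15)))) (Bool.rec (motive := fun _ => ℕ) (Bool.rec (motive := fun _ => ℕ) (rDA ih M
    (Nat.shiftRight c (nat_lit 4))) (rAD ih M (Nat.shiftRight c (nat_lit 4))) (Nat.ble (nat_lit 3)
    (Nat.land c (nat_lit 15)))) (Bool.rec (motive := fun _ => ℕ) (Bool.rec (motive := fun _ => ℕ)
    (rUS P db i Z M (Nat.shiftRight c (nat_lit 4))) (rAT P Z M (Nat.shiftRight c (nat_lit 4)))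
    (Nat.ble (nat_lit 5) (Nat.land c (nat_lit 15)))) (Bool.rec (motive := fun _ => ℕ) (Bool.rec
    (motive := fun _ => ℕ) (rLK P ih M (Nat.shiftRight c (nat_lit 4))) (rSE P M (Nat.shiftRight c
    (nat_lit 4))) (Nat.ble (nat_lit 7) (Nat.land c (nat_lit 15)))) (Bool.rec (motive := fun _ =>
    ℕ) (Bool.rec (motive := fun _ => ℕ) (rDS P ih M (Nat.shiftRight c (nat_lit 4))) (rC1 M
    (Nat.shiftRight c (nat_lit 4))) (Nat.ble (nat_lit 9) (Nat.land c (nat_lit 15)))) (Bool.rec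
    (motive := fun _ => ℕ) (rFA P M (Nat.shiftRight c (nat_lit 4))) (Bool.rec (motive := fun _ =>
    ℕ) (rDR P ih M (Nat.shiftRight c (nat_lit 4))) (rDB P db i ih M (Nat.shiftRight c (nat_lit
    4))) (Nat.ble (nat_lit 12) (Nat.land c (nat_lit 15)))) (Nat.ble (nat_lit 11) (Nat.land c
    (nat_lit 15)))) (Nat.ble (nat_lit 10) (Nat.land c (nat_lit 15)))) (Nat.ble (nat_lit 8)
    (Nat.land c (nat_lit 15)))) (Nat.ble (nat_lit 6) (Nat.land c (nat_lit 15)))) (Nat.ble (nat_lit
    4) (Nat.land c (nat_lit 15)))) (Nat.ble (nat_lit 2) (Nat.land c (nat_lit 15))))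

noncomputable def ldS (P : Par) (k : ℕ → ℕ) (rec : Pr) (code M : ℕ) : ℕ :=
  (Bool.rec (motive := fun _ => ℕ) (rec (Nat.shiftRight code (Nat.add (nat_lit 8) (Nat.mul
    (nat_lit 3) (Nat.land code (nat_lit 31))))) (Nat.lor M (Nat.lor (Nat.shiftLeft (Nat.lor
    (Nat.lor (Nat.lor (Nat.lor (Nat.land (Nat.shiftRight code (nat_lit 8)) (Nat.pred
    (Nat.shiftLeft (nat_lit 1) (Nat.land code (nat_lit 31))))) (Nat.shiftLeft (Nat.land
    (Nat.shiftRight code (nat_lit 5)) (nat_lit 7)) (nat_lit 48))) (Nat.lor (Nat.shiftLeft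
    (Nat.land (Nat.shiftRight code (Nat.add (nat_lit 8) (Nat.land code (nat_lit 31)))) (Nat.pred
    (Nat.shiftLeft (nat_lit 1) (Nat.land code (nat_lit 31))))) (nat_lit 64)) (Nat.shiftLeft
    (Nat.land (Nat.shiftRight code (Nat.add (nat_lit 8) (Nat.mul (nat_lit 2) (Nat.land code
    (nat_lit 31))))) (Nat.pred (Nat.shiftLeft (nat_lit 1) (Nat.land code (nat_lit 31))))) (nat_lit
    128)))) (Nat.shiftLeft (nat_lit 18446744073709551617) (Nat.land code (nat_lit 31)))) (Nat.land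
    (Nat.shiftRight P.fm (Nat.mul (nat_lit 192) (Nat.land (Nat.shiftRight code (nat_lit 5))
    (nat_lit 7)))) (nat_lit 6277101735386680763835789423207666416102355444464034512895))) (Nat.mul
    (nat_lit 192) (Nat.land code (nat_lit 31)))) (Nat.shiftLeft (Nat.land (Nat.mul (Nat.land
    (Nat.lor (Nat.lor (Nat.lor (Nat.lor (Nat.land (Nat.shiftRight code (nat_lit 8)) (Nat.pred
    (Nat.shiftLeft (nat_lit 1) (Nat.land code (nat_lit 31))))) (Nat.shiftLeft (Nat.land
    (Nat.shiftRight code (nat_lit 5)) (nat_lit 7)) (nat_lit 48))) (Nat.lor (Nat.shiftLeft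
    (Nat.land (Nat.shiftRight code (Nat.add (nat_lit 8) (Nat.land code (nat_lit 31)))) (Nat.pred
    (Nat.shiftLeft (nat_lit 1) (Nat.land code (nat_lit 31))))) (nat_lit 64)) (Nat.shiftLeft
    (Nat.land (Nat.shiftRight code (Nat.add (nat_lit 8) (Nat.mul (nat_lit 2) (Nat.land code
    (nat_lit 31))))) (Nat.pred (Nat.shiftLeft (nat_lit 1) (Nat.land code (nat_lit 31))))) (nat_lit
    128)))) (Nat.shiftLeft (nat_lit 18446744073709551617) (Nat.land code (nat_lit 31)))) (Nat.land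
    (Nat.shiftRight P.fm (Nat.mul (nat_lit 192) (Nat.land (Nat.shiftRight code (nat_lit 5))
    (nat_lit 7)))) (nat_lit 6277101735386680763835789423207666416102355444464034512895))) (nat_lit
    1461501636990620551361974531748726005748293697535)) M3) C3) (Nat.land code (nat_lit 31))))))
    (k M) (Nat.beq code (nat_lit 0)))

noncomputable def chkC (P : Par) (db : DB) (i p code : ℕ) : ℕ :=
  t32 (ldS P fun M => t1024 (step P db i (Nat.land code 65535)) (fun _ _ => 0) M p)
    (fun _ M => t1024 (step P db i (Nat.land code 65535)) (fun _ _ => 0) M p)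
    (Nat.shiftRight code 16) P.X0

noncomputable def run (P : Par) (db : DB) (ps : List ℕ) : ℕ → Bool :=
  List.rec (motive := fun _ => ℕ → Bool) (fun _ => true)
    (fun p _ ih i => Bool.rec (motive := fun _ => Bool) false (force (Nat.succ i) ih)
      (Nat.ble 1 (chkC P db i p (get db i)))) ps

theorem rC1_eq (M c : ℕ) : rC1 M c =
  (ok (nz1 (Nat.land (tri M) MW)) c) := rfl

theorem rDA_eq (ih : Pr) (M c : ℕ) : rDA ih M c =
  (ih (rc3 M (Nat.shiftLeft (Nat.land (fo (fo (fo (fo (fo (tri (Nat.lor M (Nat.mul (cl3 M (tk c))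
    4294967295))) 3072) 1536) 768) 384) 192) 4294967295) 128) (tk c)) (Nat.shiftRight c 5)) := rfl

theorem rDR_eq (P : Par) (ih : Pr) (M c : ℕ) : rDR P ih M c =
  (ok (Nat.lor (Nat.sub 2 (Nat.add (bt (Nat.lor (rw3 M (tk c)) (rw3 M (tk (Nat.shiftRight c 5))))
    48) (Nat.add (bt (Nat.lor (rw3 M (tk c)) (rw3 M (tk (Nat.shiftRight c 5)))) 49) (bt (Nat.lor
    (rw3 M (tk c)) (rw3 M (tk (Nat.shiftRight c 5)))) 50)))) (ns (Nat.shiftLeft P.rim 128)
    (Nat.lor (rw3 M (tk c)) (rw3 M (tk (Nat.shiftRight c 5)))))) (ih (sy3 M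
    340282366920938463463374607431768211456 (tk c) (tk (Nat.shiftRight c 5))) (Nat.shiftRight c
    10))) := rfl

theorem rS2_eq (ih : Pr) (M k a b c : ℕ) : rS2 ih M k a b c =
  (cnd (Nat.ble 1 c) (ih (sy3 M k a b) c) 0) := rfl

theorem rSP_eq (ih : Pr) (M c : ℕ) : rSP ih M c =
  (rS2 ih M 340282366920938463463374607431768211456 (tk c) (tk (Nat.shiftRight c 5)) (ih (mg3 M
    (tk c) (tk (Nat.shiftRight c 5))) (Nat.shiftRight c 10))) := rfl

theorem rAD_eq (ih : Pr) (M c : ℕ) : rAD ih M c =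
  (rS2 ih M 18446744073709551616 (tk c) (tk (Nat.shiftRight c 5)) (ih (sy3 M
    340282366920938463463374607431768211457 (tk c) (tk (Nat.shiftRight c 5))) (Nat.shiftRight c
    10))) := rfl

theorem rFA_eq (P : Par) (M c : ℕ) : rFA P M c =
  (ok (nz1 (Nat.mul (bt (row P.far (tk c)) (tk (Nat.shiftRight c 5))) (lo (Nat.land (rw3 M (tk c))
    (rw3 M (tk (Nat.shiftRight c 5))))))) (Nat.shiftRight c 10)) := rfl

theorem rSE_eq (P : Par) (M c : ℕ) : rSE P M c =
  (ok (Nat.lor (nz1 (Nat.mul P.sn (bt (rw3 M P.sc) (tk c)))) (ns (Nat.shiftLeft P.sn 128) (rw3 M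
    (tk c)))) (Nat.shiftRight c 5)) := rfl

theorem rAT_eq (P : Par) (Z M c : ℕ) : rAT P Z M c =
  (ok (Nat.lor (ns (rw3 P.cl (tk (Nat.shiftRight c 5))) (rw3 M (tk c))) (ns (rw3 P.ca (tk
    (Nat.shiftRight c 5))) (Nat.lor (Nat.shiftRight (rw3 M (tk c)) 64) Z))) (Nat.shiftRight c 10)) := rfl

theorem mlS_eq (rec : ML) (K : ℕ) (k : ℕ → ℕ → ℕ → ℕ) (U g c : ℕ) : mlS rec K k U g c =
  (cnd (Nat.ble 32 (Nat.land c 63)) (rec K k (Nat.lor U (Nat.shiftRight K (Nat.mul 192 (tk c))))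
    (Nat.land g (Nat.shiftRight U (tk c))) (Nat.shiftRight c 6)) (k (Nat.lor U (Nat.shiftRight K
    (Nat.mul 192 (tk c)))) (Nat.land g (Nat.shiftRight U (tk c))) (Nat.shiftRight c 6))) := rfl

theorem mS_eq (K : ℕ) (k : ℕ → ℕ → ℕ → ℕ) (g c : ℕ) : mS K k g c =
  (cnd (Nat.ble 32 (Nat.land c 63)) (ml K k (Nat.shiftRight K (Nat.mul 192 (tk c))) g
    (Nat.shiftRight c 6)) (k (Nat.shiftRight K (Nat.mul 192 (tk c))) g (Nat.shiftRight c 6))) := rfl

theorem rK5_eq (K l c : ℕ) : rK5 K l c =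
  (mS K (fun U1 g c => (mS K (fun U2 g c => (mS K (fun U3 g c => (mS K (fun U4 g c => (mS K (fun
    U5 g c => (ok (Nat.lor (Nat.lor (Nat.lor (Nat.lor (Nat.lor (Nat.land U1 l) (Nat.land U2
    (Nat.lor (Nat.shiftLeft (sof U1) 128) l))) (Nat.land U3 (Nat.lor (Nat.shiftLeft (Nat.lor (sof
    U1) (sof U2)) 128) l))) (Nat.land U4 (Nat.lor (Nat.shiftLeft (Nat.lor (Nat.lor (sof U1) (sof
    U2)) (sof U3)) 128) l))) (Nat.land U5 (Nat.lor (Nat.shiftLeft (Nat.lor (Nat.lor (Nat.lor (sof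
    U1) (sof U2)) (sof U3)) (sof U4)) 128) l))) (nz1 (Nat.mul (Nat.mul (Nat.mul (Nat.mul (Nat.mul
    (Nat.mul (Nat.mul (Nat.mul (Nat.mul (Nat.mul g (Nat.land U2 (sof U1))) (Nat.land U3 (sof U1)))
    (Nat.land U3 (sof U2))) (Nat.land U4 (sof U1))) (Nat.land U4 (sof U2))) (Nat.land U4 (sof
    U3))) (Nat.land U5 (sof U1))) (Nat.land U5 (sof U2))) (Nat.land U5 (sof U3))) (Nat.land U5
    (sof U4))))) c)) g c)) g c)) g c)) g c)) 1 c) := rfl

theorem rK33_eq (K l c : ℕ) : rK33 K l c =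
  (mS K (fun U1 g c => (mS K (fun U2 g c => (mS K (fun U3 g c => (mS K (fun U4 g c => (mS K (fun
    U5 g c => (mS K (fun U6 g c => (ok (Nat.lor (Nat.lor (Nat.lor (Nat.lor (Nat.lor (Nat.lor
    (Nat.land U1 l) (Nat.land U2 (Nat.lor (Nat.shiftLeft (sof U1) 128) l))) (Nat.land U3 (Nat.lor
    (Nat.shiftLeft (Nat.lor (sof U1) (sof U2)) 128) l))) (Nat.land U4 (Nat.lor (Nat.shiftLeft
    (Nat.lor (Nat.lor (sof U1) (sof U2)) (sof U3)) 128) l))) (Nat.land U5 (Nat.lor (Nat.shiftLeft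
    (Nat.lor (Nat.lor (Nat.lor (sof U1) (sof U2)) (sof U3)) (sof U4)) 128) l))) (Nat.land U6
    (Nat.lor (Nat.shiftLeft (Nat.lor (Nat.lor (Nat.lor (Nat.lor (sof U1) (sof U2)) (sof U3)) (sof
    U4)) (sof U5)) 128) l))) (nz1 (Nat.mul (Nat.mul (Nat.mul (Nat.mul (Nat.mul (Nat.mul (Nat.mul
    (Nat.mul (Nat.mul g (Nat.land U4 (sof U1))) (Nat.land U4 (sof U2))) (Nat.land U4 (sof U3)))
    (Nat.land U5 (sof U1))) (Nat.land U5 (sof U2))) (Nat.land U5 (sof U3))) (Nat.land U6 (sof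
    U1))) (Nat.land U6 (sof U2))) (Nat.land U6 (sof U3))))) c)) g c)) g c)) g c)) g c)) g c)) 1 c) := rfl

theorem rMI_eq (P : Par) (M c : ℕ) : rMI P M c =
  (cnd (Nat.ble 4 (Nat.land c 7)) (rK5 (Nat.xor (Nat.lor (Nat.land M MK) (Nat.land (Nat.shiftRight
    P.v3 (Nat.mul 3072 (Nat.land c 3))) M16)) NM) (one (Nat.add 48 (Nat.land c 3)))
    (Nat.shiftRight c 3)) (rK33 (Nat.xor (Nat.lor (Nat.land M MK) (Nat.land (Nat.shiftRight P.v3
    (Nat.mul 3072 (Nat.land c 3))) M16)) NM) (one (Nat.add 48 (Nat.land c 3))) (Nat.shiftRight c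
    3))) := rfl

theorem pickR_eq (P : Par) (ih : Pr) (s v M e c : ℕ) : pickR P ih s v M e c =
  (cnd (Nat.ble s 15) (ih (rc3 M (Nat.lor e (one v)) s) c) (cnd (Nat.ble 32 (Nat.land c 63)) (ih M
    (Nat.shiftRight c 6)) (ok (Nat.lor (Nat.lor (Nat.sub P.H (tk c)) (frz M (tk c))) (Nat.sub s
    18)) (ih (rc3 M (Nat.lor (Nat.lor (Nat.lor e (one v)) (rw3 P.ft s)) (dg (tk c))) (tk c))
    (Nat.shiftRight c 6))))) := rfl

theorem pickL_eq (P : Par) (ih : Pr) (s s2 u v M c : ℕ) : pickL P ih s s2 u v M c =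
  (cnd (Nat.ble s 15) (pickR P ih s2 v (sy3 M 1 u s) (one s) c) (cnd (Nat.ble 32 (Nat.land c 63))
    (pickR P ih s2 v M 0 (Nat.shiftRight c 6)) (ok (Nat.lor (Nat.lor (Nat.sub P.H (tk c)) (frz M
    (tk c))) (Nat.sub s 18)) (pickR P ih s2 v (rc3 M (Nat.lor (Nat.lor (one u) (rw3 P.ft s)) (dg
    (tk c))) (tk c)) (one (tk c)) (Nat.shiftRight c 6))))) := rfl

theorem lkT_eq (rec : Pr) (e c : ℕ) : lkT rec e c =
  (cnd (Nat.ble 1 c) (rec e c) 0) := rfl

theorem lkS_eq (P : Par) (ih : Pr) (M u v fu fv : ℕ) (rec : Pr) (e c : ℕ) : lkS P ih M u v fu fv rec e c =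
  (cnd (Nat.beq e 0) c (cnd (Nat.beq (Nat.land (Nat.lor (Nat.shiftRight fu (tk e)) (Nat.shiftRight
    fv (tk (Nat.shiftRight e 5)))) 1) 0) (lkT rec (Nat.shiftRight e 12) (pickL P ih (tk e) (tk
    (Nat.shiftRight e 5)) u v M c)) (rec (Nat.shiftRight e 12) c))) := rfl

theorem rLK_eq (P : Par) (ih : Pr) (M c : ℕ) : rLK P ih M c =
  (ok (Nat.lor (ns (rw3 P.cl (tk (Nat.shiftRight c 10))) (rw3 M (tk c))) (ns (rw3 P.cl (tk
    (Nat.shiftRight c 15))) (rw3 M (tk (Nat.shiftRight c 5))))) (t16 (lkS P ih M (tk c) (tk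
    (Nat.shiftRight c 5)) (fn16 (rw3 M (tk c))) (fn16 (rw3 M (tk (Nat.shiftRight c 5))))) (fun _ c
    => c) (rw3 P.tab (Nat.add (Nat.mul 19 (tk (Nat.shiftRight c 10))) (tk (Nat.shiftRight c 15))))
    (Nat.shiftRight c 20))) := rfl

theorem dhT_eq (rec : ℕ → ℕ) (c : ℕ) : dhT rec c =
  (cnd (Nat.ble 1 c) (rec c) 0) := rfl

theorem dhS_eq (ih : Pr) (M S d : ℕ) (rec : ℕ → ℕ) (c : ℕ) : dhS ih M S d rec c =
  (cnd (Nat.beq (Nat.land (Nat.land (Nat.shiftRight M (Nat.mul 192 d)) (Nat.shiftRight M (Nat.add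
    (Nat.mul 192 d) 128))) S) 0) (dhT rec (ih (rc3 M (Nat.shiftLeft S 64) d) c)) (rec c)) := rfl

theorem domR_eq (P : Par) (ih : Pr) (M S r c : ℕ) : domR P ih M S r c =
  (ok (Nat.lor (Nat.lor (Nat.sub P.H (tk c)) (frz M (tk c))) (nz1 c)) (ih (rc3 M (Nat.lor (Nat.lor
    (Nat.shiftLeft S 64) (P.fa r)) (dg (tk c))) (tk c)) (Nat.shiftRight c 5))) := rfl

theorem domA_eq (P : Par) (ih : Pr) (M S c : ℕ) : domA P ih M S c =
  (domR P ih M S 2 (domR P ih M S 1 (domR P ih M S 0 (domH ih M S P.m c)))) := rfl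

theorem rDS_eq (P : Par) (ih : Pr) (M c : ℕ) : rDS P ih M c =
  (domA P ih M (rdK P.K c) (Nat.shiftRight c (Nat.mul 5 P.K))) := rfl

theorem rDB2_eq (P : Par) (ih : Pr) (M c i code : ℕ) : rDB2 P ih M c i code =
  (ok (Nat.lor (Nat.sub (Nat.add (Nat.land c 262143) 1) i) (Nat.shiftRight code 16)) (domA P ih M
    (ns (ones P.m) code) (Nat.shiftRight c 18))) := rfl

theorem rDB_eq (P : Par) (db : DB) (i : ℕ) (ih : Pr) (M c : ℕ) : rDB P db i ih M c =
  (rDB2 P ih M c i (get db (Nat.land c 262143))) := rfl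

theorem usS_eq (M T c : ℕ) (rec : ℕ → ℕ → ℕ → ℕ) (code C bad : ℕ) : usS M T c rec code C bad =
  (cnd (Nat.beq code 0) (ok bad c) (rec (rest code (tk code)) (Nat.lor C (Nat.shiftLeft (cl3 M (mu
    T (tk code))) (tk code))) (Nat.lor bad (ns (recd code (tk code)) (Nat.shiftRight C (Nat.mul
    192 (mu T (tk code)))))))) := rfl

theorem rUS2_eq (P : Par) (i Z M c code : ℕ) : rUS2 P i Z M c code =
  (t32 (usS M (Nat.lor P.idm (Nat.shiftLeft (Nat.land (Nat.shiftRight c 23) (ones (Nat.mul 5 (tk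
    (Nat.shiftRight c 18))))) (Nat.mul 5 P.H))) (Nat.shiftRight (Nat.shiftRight c 23) (Nat.mul 5
    (tk (Nat.shiftRight c 18))))) (usE (Nat.shiftRight (Nat.shiftRight c 23) (Nat.mul 5 (tk
    (Nat.shiftRight c 18))))) (Nat.shiftRight code 16) (Nat.land M P.hm) (Nat.lor (Nat.sub
    (Nat.add (Nat.land c 262143) 1) i) (ns (Nat.land code 65535) Z))) := rfl

theorem rUS_eq (P : Par) (db : DB) (i Z M c : ℕ) : rUS P db i Z M c =
  (rUS2 P i Z M c (get db (Nat.land c 262143))) := rfl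

theorem step_eq (P : Par) (db : DB) (i Z : ℕ) (ih : Pr) (M c : ℕ) : step P db i Z ih M c =
  (cnd (Nat.ble 2 (Nat.land c 15)) (cnd (Nat.ble 4 (Nat.land c 15)) (cnd (Nat.ble 6 (Nat.land c
    15)) (cnd (Nat.ble 8 (Nat.land c 15)) (cnd (Nat.ble 10 (Nat.land c 15)) (cnd (Nat.ble 11
    (Nat.land c 15)) (cnd (Nat.ble 12 (Nat.land c 15)) (rDB P db i ih M (Nat.shiftRight c 4)) (rDR
    P ih M (Nat.shiftRight c 4))) (rFA P M (Nat.shiftRight c 4))) (cnd (Nat.ble 9 (Nat.land c 15))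
    (rC1 M (Nat.shiftRight c 4)) (rDS P ih M (Nat.shiftRight c 4)))) (cnd (Nat.ble 7 (Nat.land c
    15)) (rSE P M (Nat.shiftRight c 4)) (rLK P ih M (Nat.shiftRight c 4)))) (cnd (Nat.ble 5
    (Nat.land c 15)) (rAT P Z M (Nat.shiftRight c 4)) (rUS P db i Z M (Nat.shiftRight c 4)))) (cnd
    (Nat.ble 3 (Nat.land c 15)) (rAD ih M (Nat.shiftRight c 4)) (rDA ih M (Nat.shiftRight c 4))))
    (cnd (Nat.ble 1 (Nat.land c 15)) (rSP ih M (Nat.shiftRight c 4)) (rMI P M (Nat.shiftRight c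
    4)))) := rfl

theorem ldS_eq (P : Par) (k : ℕ → ℕ) (rec : Pr) (code M : ℕ) : ldS P k rec code M =
  (cnd (Nat.beq code 0) (k M) (rec (rest code (tk code)) (rc3 M (Nat.lor (Nat.lor (recd code (tk
    code)) (dg (tk code))) (rw3 P.fm (Nat.land (Nat.shiftRight code 5) 7))) (tk code)))) := rfl

/-! ### The table of the link rule -/

def kids : ℕ → ℕ → List (ℕ × ℕ)
  | 0, _ => []
  | n + 1, e => if e = 0 then [] else
      (tk e, tk (Nat.shiftRight e 5)) :: kids n (Nat.shiftRight e 12)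

def tb (x i : ℕ) : Bool := Nat.beq (bt x i) 1

def cmp (P : Par) (c d : ℕ) : Bool :=
  if c < 16 then
    if d < 16 then Nat.beq c d || !tb (rw3 P.X0 c) (64 + d)
    else tb (row P.Y (d - 16)) c && (Nat.beq P.sn 0 || !Nat.beq c P.sc ||
      !sub (Nat.land P.sn (row P.Y (d - 16))) P.rim)
  else if d < 16 then tb (row P.Y (c - 16)) d && (Nat.beq P.sn 0 || !Nat.beq d P.sc ||
      !sub (Nat.land P.sn (row P.Y (c - 16))) P.rim)
  else Nat.beq c d

def cov (P : Par) (s c : ℕ) : Bool :=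
  Nat.ble 19 s || Nat.beq s c || (Nat.ble 16 s && Nat.ble c 15 && tb (row P.Y (s - 16)) c)

def hit (P : Par) (l : List (ℕ × ℕ)) (cx cy : ℕ) : Bool :=
  l.any fun s => cov P s.1 cx && cov P s.2 cy

def w0 (P : Par) (a b : ℕ) : Bool := Nat.ble a 15 && Nat.ble b 15 && tb (rw3 P.X0 a) b

def tabs (P : Par) : Bool :=
  Nat.beq P.cl P.cl' && Nat.beq P.ca P.ca' && Nat.beq P.ft P.ft' && Nat.beq P.fm P.fm' &&
    Nat.beq P.v3 P.v3' && Nat.beq P.idm P.idm' && Nat.beq P.hm P.hm'

def tabOK (P : Par) : Bool :=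
  let A := List.range P.m ++ [16, 17, 18]
  let B := (List.range P.m).filter (tb P.rim) ++ [16, 17, 18]
  A.all fun cu => A.all fun cv =>
    let l := kids 16 (rw3 P.tab (Nat.add (Nat.mul 19 cu) cv))
    B.all fun cx => !cmp P cu cx || tb (row P.far cx) cv || B.all fun cy =>
      !cmp P cx cy || !cmp P cy cv || tb (row P.far cy) cu || hit P l cx cy ||
      (List.range P.m).any fun h => (w0 P cx h && w0 P h cv && hit P l cx h) ||
        (w0 P cu h && w0 P h cy && hit P l h cy)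

end Pool.Agent.Lib.MP_ad48ef_co
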