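import Pool.Agent.Lib.MP_ad48ef_co.Region
import Pool.Agent.Shared.Planar.Drawing

/-!
# Diameter three and total domination
-/

namespace Pool.Agent.Lib.MP_ad48ef_co

variable {V : Type} {G : SimpleGraph V}

theorem d3_of_diam (h : G.diam = 3) : D3 G ∧ ∀ x, ∃ y, G.Adj x y := by
  have top : G.ediam ≠ ⊤ := SimpleGraph.ediam_ne_top_of_diam_ne_zero (by omega)
  have con := SimpleGraph.preconnected_of_ediam_ne_top top
  haveI := SimpleGraph.nontrivial_of_diam_ne_zero (G := G) (by omega)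
  refine ⟨fun a b => ?_, fun x => ?_⟩
  · obtain ⟨p, hp⟩ := (con a b).exists_walk_length_eq_dist
    have : p.length ≤ 3 := hp ▸ h ▸ SimpleGraph.dist_le_diam top
    clear hp
    rcases p with _ | ⟨e, _ | ⟨f, _ | ⟨g, _ | ⟨k, p⟩⟩⟩⟩
    exacts [⟨a, a, Or.inl rfl, Or.inl rfl, Or.inl rfl⟩, ⟨a, a, Or.inl rfl, Or.inl rfl, Or.inr e⟩,
      ⟨a, _, Or.inl rfl, Or.inr e, Or.inr f⟩, ⟨_, _, Or.inr e, Or.inr f, Or.inr g⟩,
      by simp only [SimpleGraph.Walk.length_cons] at this; omega]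
  · obtain ⟨y, n⟩ := exists_ne x
    obtain ⟨_ | ⟨e, -⟩⟩ := con x y
    exacts [absurd rfl n, ⟨_, e⟩]

theorem set_of_not_nd (h : ¬ ND G 6) : ∃ D : Finset V, D.card ≤ 6 ∧ ∀ v, ∃ u ∈ D, G.Adj v u := by
  classical
  by_contra k
  refine h fun l p => ?_
  by_contra q
  push Not at q
  exact k ⟨l.toFinset, l.toFinset_card_le.trans p, fun v => by simpa using q v⟩

end Pool.Agent.Lib.MP_ad48ef_co
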