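import Pool.Agent.Lib.MP_ad48ef_co.Region

/-!
# Disks with a boundary path of seven vertices and their atomic properties
-/

namespace Pool.Agent.Lib.MP_ad48ef_co

open Pool.Agent.Shared.Planar

/-- The level of a boundary position. -/
def lev (i : ℕ) : ℕ := (i - 3) + (3 - i)

/-- Triples of vertices of level `k`: a vertex, an edge, a pair at distance at most two, a star. -/
def Lev {X : Type} (G : SimpleGraph X) (k : ℕ) (x y z : X) : Prop :=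
  match k with
  | 0 => False
  | 1 => x = y ∧ y = z
  | 2 => y = z ∧ Wk G x y
  | 3 => y = z ∧ D2 G x y
  | _ => Wk G x y ∧ Wk G x z

/-- Every triple of level `k` has a vertex at distance at least three. -/
def NF {X : Type} (G : SimpleGraph X) (k : ℕ) : Prop :=
  ∀ x y z, Lev G k x y z → ∃ v, ¬ D2 G v x ∧ ¬ D2 G v y ∧ ¬ D2 G v z

theorem lev_up {X : Type} {G : SimpleGraph X} {k K : ℕ} {x y z : X} (h : k ≤ K)
    (d : Lev G k x y z) (A : X → Prop) (a : A x) (b : A y) (c : A z)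
    (cl : ∀ u v, A u → Wk G u v → A v) : ∃ p q r, Lev G K p q r ∧
      (∀ P : X → Prop, P x ∨ P y ∨ P z → P p ∨ P q ∨ P r) ∧ A p ∧ A q ∧ A r := by
  induction K, h using Nat.le_induction with
  | base => exact ⟨x, y, z, d, fun _ => id, a, b, c⟩
  | succ K _ ih =>
    obtain ⟨p, q, r, e, f, g⟩ := ih
    rcases K with _ | _ | _ | _ | K
    · exact e.elim
    · exact ⟨p, q, r, ⟨e.2, Or.inl e.1⟩, f, g⟩
    · exact ⟨p, q, r, ⟨e.1, p, Or.inl rfl, e.2⟩, f, g⟩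
    · obtain ⟨rfl, m, m1, m2⟩ := e
      exact ⟨m, p, q, ⟨m1.symm, m2⟩, fun P k => Or.inr ((f P k).imp_right fun n => n.elim id id),
        cl p m g.1 m1, g.1, g.2.1⟩
    · exact ⟨p, q, r, e, f, g⟩

theorem far_of {X : Type} {x y z p q r : X} (h : ∀ P : X → Prop, P x ∨ P y ∨ P z → P p ∨ P q ∨ P r)
    (P : X → Prop) (k : ¬ P p ∧ ¬ P q ∧ ¬ P r) : ¬ P x ∧ ¬ P y ∧ ¬ P z := by
  have := h P
  tauto

theorem NF.mono {X : Type} {G : SimpleGraph X} {k K : ℕ} (h : NF G K) (e : k ≤ K) : NF G k :=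
  fun _ _ _ d =>
    let ⟨p, q, r, a, b, _⟩ := lev_up e d (fun _ => True) trivial trivial trivial fun _ _ _ _ => trivial
    (h p q r a).imp fun v => far_of b (D2 G v)

/-- A closed region: interior `I`, boundary path `b 0, ..., b 6`, and a planar graph `K` that
contains every edge at an interior vertex, the boundary cycle and a hub joined to it. -/
structure Disk where
  X : Type
  G : SimpleGraph X
  K : SimpleGraph (Option X)
  b : ℕ → X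
  I : X → Prop
  inj : ∀ i j, i < 7 → j < 7 → b i = b j → i = j
  off : ∀ i, i < 7 → ¬ I (b i)
  cov : ∀ x y, G.Adj x y → I y ∨ ∃ i, i < 7 ∧ y = b i
  path : ∀ i, i < 6 → G.Adj (b i) (b (i + 1))
  non : ∀ i j, i < 7 → j < 7 → lev i + 2 ≤ lev j → ¬ G.Adj (b i) (b j)
  far0 : ∀ y, G.Adj (b 3) y → ¬ G.Adj (b 0) y
  far6 : ∀ y, G.Adj (b 3) y → ¬ G.Adj (b 6) y
  d3 : ∀ u v, I u → I v → ∃ x y, (u = x ∨ G.Adj u x) ∧ (x = y ∨ G.Adj x y) ∧ (y = v ∨ G.Adj y v)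
  ht : HT K
  kI : ∀ x y, I x → G.Adj x y → K.Adj (some x) (some y)
  kpath : ∀ i, i < 6 → K.Adj (some (b i)) (some (b (i + 1)))
  kend : K.Adj (some (b 0)) (some (b 6))
  khub : ∀ i, i < 7 → K.Adj none (some (b i))

namespace Disk

variable (D : Disk)

/-- `w` has a neighbour at a boundary position in the mask `S`. -/
def A1 (w : D.X) (S : ℕ) : Prop := ∃ s, s < 7 ∧ S.testBit s = true ∧ D.G.Adj w (D.b s)

/-- `w` has a common neighbour with a boundary position in the mask `S`. -/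
def A2 (w : D.X) (S : ℕ) : Prop :=
  ∃ s, s < 7 ∧ S.testBit s = true ∧ ∃ x, D.G.Adj w x ∧ D.G.Adj x (D.b s)

/-- Interior and boundary vertices. -/
def In (x : D.X) : Prop := D.I x ∨ ∃ i, i < 7 ∧ x = D.b i

/-- The atoms, with tag `t` and parameters `a`, `b`, `k`. -/
def atom (t a b k : ℕ) : Prop :=
  match t with
  | 0 => D.G.Adj (D.b a) (D.b b)
  | 1 => ¬ D.G.Adj (D.b a) (D.b b)
  | 2 => D.G.Adj (D.b a) (D.b b) → D.K.Adj (some (D.b a)) (some (D.b b))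
  | 3 => ∃ x, D.I x ∧ D.G.Adj (D.b a) x ∧ D.G.Adj x (D.b b)
  | 4 => ∃ x y, D.I x ∧ D.I y ∧ D.G.Adj (D.b a) x ∧ D.G.Adj x y ∧ D.G.Adj y (D.b b)
  | 5 => ∀ w, D.I w → D.A1 w a ∨ D.A2 w b
  | 6 => ∀ l : List D.X, l.length ≤ k → (∀ x ∈ l, D.I x) →
      (∃ w, D.I w ∧ ¬ D.A1 w a ∧ ∀ x ∈ l, ¬ D.G.Adj w x) ∨
        ∃ u, u < 7 ∧ b.testBit u = true ∧ ∀ x ∈ l, ¬ D.G.Adj (D.b u) x
  | 7 => ∀ w, D.I w → D.A1 w b ∨ ∃ x y, (w = x ∨ D.G.Adj w x) ∧ (x = y ∨ D.G.Adj x y) ∧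
      D.G.Adj y (D.b a)
  | 8 => ∀ l : List D.X, l.Nodup → (∀ x ∈ l, D.I x ∧ D.G.Adj x (D.b a)) → l.length ≤ k
  | 9 => ∃ x, D.I x ∧ D.G.Adj x (D.b 3) ∧ ∀ w, D.I w → D.A1 w 127 ∨ D.G.Adj w x
  | 10 => ∃ l : List D.X, l.Nodup ∧ (∀ x ∈ l, D.I x ∧ D.G.Adj x (D.b a)) ∧ k ≤ l.length
  | 11 => ∀ w, D.I w → ∃ l : List D.X, l.Nodup ∧ (∀ x ∈ l, D.G.Adj w x) ∧ a ≤ l.length
  | 12 => ¬ ∀ w, D.I w → D.A1 w a ∨ D.A2 w b
  | 13 => ¬ ∃ x, D.I x ∧ D.G.Adj (D.b a) x ∧ D.G.Adj x (D.b b)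
  | 14 => ∀ x y z, D.In x → D.In y → D.In z → Lev D.G (k + 1) x y z →
      (∀ s, s < 7 → b.testBit s = true → D.b s = x ∨ D.b s = y ∨ D.b s = z) →
      (∀ s, s < 7 → a.testBit s = true → Wk D.G (D.b s) x ∨ Wk D.G (D.b s) y ∨ Wk D.G (D.b s) z) →
      ∃ v, D.In v ∧ ¬ D2 D.G v x ∧ ¬ D2 D.G v y ∧ ¬ D2 D.G v z
  | _ => ∃ l : List D.X, l.Nodup ∧ l.length = k ∧ (∀ x ∈ l, D.I x) ∧
      ∀ w, D.I w → D.A1 w a ∨ ∃ x ∈ l, D.G.Adj w x

/-- The atom with code `t + 16 * a + 2048 * b + 262144 * k`. -/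
def holds (c : ℕ) : Prop := D.atom (c % 16) (c / 16 % 128) (c / 2048 % 128) (c / 262144)

end Disk

/-- A list of atoms that no disk satisfies. -/
def Unsat (l : List ℕ) : Prop := ∀ D : Disk, (∀ c ∈ l, D.holds c) → False

end Pool.Agent.Lib.MP_ad48ef_co
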