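import Pool.Agent.Lib.MP_ad48ef_co.Rup

/-!
# A kernel-friendly checker for refutations of lists of disk atoms

A state is a symmetric bit matrix with rows of 128 bits in four fields: adjacent, distinct,
not adjacent, no common neighbour.  Indices below seven are the boundary positions.
-/

set_option linter.unusedVariables false

namespace Pool.Agent.Lib.MP_ad48ef_co.Dsk

open Nat (land lor xor shiftLeft shiftRight add sub mul div mod ble beq gcd succ)
open Rup (q8)

abbrev K := Nat → Nat → Bool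
abbrev K3 := Nat → Nat → Nat → Bool
abbrev F := Nat → Nat → K → Bool
abbrev PF := Nat → Nat → Nat → F

structure G where
  A : Nat → Nat
  t : Nat → Nat
  an : Nat → Nat
  ts : Nat
  nl : Nat
  lt : Nat
  m : Nat
  h : Nat
  i7 : Nat
  r7 : Nat
  df : Nat
  z : Nat

abbrev H := G → PF → Nat → Nat → F
abbrev RX := Nat → Nat → K → Bool
abbrev HA := RX → G → PF → Nat → Nat → Nat → F

structure W (α : Type) where
  f : α

def bt (a : Nat) : Nat := shiftLeft (nat_lit 1) a
def on (a : Nat) : Nat := sub (shiftLeft (nat_lit 1) a) (nat_lit 1)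
def cG : Nat := div (on 3968) (on 128)
def cC : Nat := div (on 3968) (on 32)
def c7 : Nat := div (on 3937) (on 127)
def cO : Nat := mul (on 31) cC
def cE : Nat := mul (on 32) cG
def cD : Nat := shiftLeft cE 32
def cF : Nat := lor cE cD
def cI : Nat := shiftLeft (div (on 3999) (on 129)) 32
def cQ : Nat := mul 127 cC
def cB : Nat := mul 127 (div (on 896) (on 128))
def cH : Nat := 0x10000000100000000000000000
def cY : Nat := 0x210000000000000000000000000000005000000000000000000000000000000028000000000000000000000000000000140000000000000000000000000000000a0000000000000000000000000000000500000000000000000000000000000042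
def cS : Nat := 0x80000005c0000003f0000002000000000000000280000005f0000005000000000000000510000006f00000028000000410000006b000000770000001400000000000000450000007b0000000a000000000000000a0000007d00000005000000080000001d0000007e00000002

noncomputable def nz (x : Nat) (a b : Bool) : Bool := @Nat.rec (fun _ => Bool) a (fun _ _ => b) x
noncomputable def cb (p a b : Bool) : Bool := @Bool.rec (fun _ => Bool) a b p
def dif (a b : Nat) : Nat := xor a (land a b)
def im (n : Nat) : Nat := sub (shiftLeft (nat_lit 1) n) (nat_lit 128)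
def row (M a : Nat) : Nat :=
  land (shiftRight M (shiftLeft a (nat_lit 7))) (nat_lit 0xffffffffffffffffffffffffffffffff)
def fld (M a o : Nat) : Nat :=
  land (shiftRight M (add (shiftLeft a (nat_lit 7)) o)) (nat_lit 0xffffffff)
def spr (R : Nat) : Nat := land (mul R c7) cC
def rc (M R a : Nat) : Nat :=
  lor M (lor (shiftLeft R (shiftLeft a (nat_lit 7))) (shiftLeft (land (mul R c7) cC) a))
def nb (M u : Nat) : Nat :=
  lor (shiftLeft (nat_lit 1) u) (land (shiftRight M (add (shiftLeft u (nat_lit 7)) (nat_lit 32)))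
    (nat_lit 0xffffffffffffffff00000000))
def edge (M u t : Nat) : Nat := rc (rc M (nb M u) t) (nb M t) u
def gat (M S : Nat) : Nat :=
  mod (land (shiftRight (add (land M (mul S cG)) cO) (nat_lit 31)) cC)
    (nat_lit 0x7fffffffffffffffffffffffffffffff)
def cl2 (M t A : Nat) : Nat :=
  rc M (lor (lor (shiftRight A 32) (shiftLeft (land A 0xffffffff) 64))
    (shiftLeft (gat M (fld M t 64)) 32)) t
def cl (M t : Nat) : Nat :=
  cl2 M t (gat M (lor (fld M t 96) (mul (fld M t 0) 0x1000000010000000000000000)))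

def rs (M R S : Nat) : Nat := lor M (lor (mul R (spr S)) (mul S (land (mul R c7) cC)))
def ent (an : Nat → Nat) (x i : Nat) : Nat := shiftRight (an x) (mul (nat_lit 20) i)
def ens (an : Nat → Nat) (x i : Nat) : Nat := land (ent an x i) (nat_lit 31)
def enf (an : Nat → Nat) (x i : Nat) : Nat := land (shiftRight (ent an x i) 12) 255
def eno (an : Nat → Nat) (x i : Nat) : Nat := land (shiftRight (ent an x i) 5) 127
def anx (an : Nat → Nat) (x i c : Nat) : Nat :=
  add (mul (enf an x i) (shiftRight c (nat_lit 7))) (eno an x i)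

def lo (p : Nat) : Nat := land (shiftRight 0x8c8f3221b401569e3bd5c02061b00adf6ef103560e400 (mul 5 (mod (xor (succ p) p) 37))) 31
def nm (p : Nat) : Nat := dif (succ p) (bt (lo p))
noncomputable def lpS (f nx : Nat → F) : Nat → F := fun m c s k =>
  @Nat.rec (fun _ => Bool) (k c s) (fun p _ => f p c s
    (fun c1 s1 => nx (nm p) c1 s1 k)) m
noncomputable def lp (f : Nat → F) : Nat → F := q8 (q8 (lpS f)) (fun _ _ _ _ => false)

noncomputable def nw (g : G) (f : Nat → Nat → F) (M n R : Nat) : F := fun c s k =>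
  @Bool.rec (fun _ => Bool) false
    (f (rc M (lor R (lor g.df (shiftLeft (nat_lit 0x10000000000000000) n))) n) (succ n) c s k)
    (ble n (nat_lit 29))

noncomputable def tlS (r o : Nat) (nx : Nat → Nat → K → Bool) : Nat → Nat → K → Bool :=
  fun S c k => @Nat.rec (fun _ => Bool)
    (k (lor S (shiftLeft o (shiftRight (mod c r) (nat_lit 1)))) (div c r))
    (fun _ _ => nx (lor S (shiftLeft o (shiftRight (mod c r) (nat_lit 1)))) (div c r) k)
    (land (nat_lit 1) (mod c r))
noncomputable def tl (r o : Nat) : Nat → Nat → K → Bool := q8 (q8 (tlS r o)) (fun _ _ _ => false)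
def r2 (n : Nat) : Nat := mul (nat_lit 2) (sub n (nat_lit 7))

noncomputable def dls : Nat → W (Nat → (Nat → F) → F)
  | 0 => ⟨fun n f c s k => f (nat_lit 0) c s k⟩
  | 1 => ⟨fun n f c s k => f (land s (im n)) c s k⟩
  | _ => ⟨fun n f c s k => tl (r2 n) (nat_lit 128) (nat_lit 0) c
      (fun S c2 => f (land S (im n)) c2 S k)⟩
noncomputable def dl (g : G) (x n : Nat) (f : Nat → F) : F := fun c s k =>
  @Nat.rec (fun _ => Bool) false (fun i _ => (dls (ens g.an x i)).f n f (anx g.an x i c) s k)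
    (succ (land c (nat_lit 127)))

noncomputable def ess : Nat → W (F → F → F)
  | 0 => ⟨fun a b => b⟩
  | _ => ⟨fun a b => a⟩
noncomputable def esc (g : G) (x : Nat) (a b : F) : F := fun c s k =>
  @Nat.rec (fun _ => Bool) false (fun i _ => (ess (ens g.an x i)).f a b (anx g.an x i c) s k)
    (succ (land c (nat_lit 127)))

noncomputable def cnO (nx : PF) (x M n u v R : Nat) : Nat → F := fun p =>
  nx (succ x) (rs (rc M R (lo p)) (nb M (lo p)) (lor (bt u) (bt v))) n
noncomputable def cn2 (g : G) (nx : PF) (x M n u v R : Nat) : F := fun c s k =>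
  @Nat.rec (fun _ => Bool)
    (dl g (add x (nat_lit 2)) n (fun dm c s k =>
      nw g (nx x) M n (lor R (shiftLeft dm (nat_lit 32))) c s (fun c1 s1 =>
        lp (cnO nx x M n u v R) (dif (lor (nat_lit 127) dm) (shiftRight R (nat_lit 32)))
          c1 s1 k)) c s k)
    (fun _ _ => lp (cnO nx x M n u v R) (dif (nat_lit 127) (shiftRight R (nat_lit 32))) c s k)
    (land R g.r7)
noncomputable def cn (g : G) (nx : PF) (x M n u v : Nat) : F :=
  cn2 g nx x M n u v (lor (nb M u) (nb M v))

def cf (M u e : Nat) : Nat :=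
  rc (rc M (lor (shiftLeft (nat_lit 0x1000000000000000000000000) e)
    (shiftLeft (fld M e (nat_lit 0)) (nat_lit 64))) u)
    (shiftLeft (fld M u (nat_lit 0)) (nat_lit 64)) e
noncomputable def p2S (g : G) (nx : PF) (n u : Nat) (fin : Nat → F) (nt : Nat → Nat → F) :
    Nat → Nat → F := fun m M c s k =>
  @Nat.rec (fun _ => Bool) (fin M c s k) (fun p _ =>
    esc g (nat_lit 10) (nx (nat_lit 2) M n) (fun c s k =>
      cn g nx (nat_lit 12) M n u (lo p) c s (fun c1 s1 =>
        nt (nm p) (cf M u (lo p)) c1 s1 k)) c s k) m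
noncomputable def p1O (nx : PF) (M n u m0 : Nat) : Nat → F := fun p =>
  nx (nat_lit 3) (rc (rc M (nb M u) (lo p))
    (lor (nb M (lo p)) (shiftLeft (xor m0 (succ p)) (nat_lit 64))) u) n
noncomputable def mv2 (g : G) (nx : PF) (M n u m0 s2 : Nat) (fin : Nat → F) : F := fun c s k =>
  lp (p1O nx M n u m0) m0 c s (fun c1 s1 =>
    q8 (p2S g nx n u fin) (fun _ _ _ _ _ => false) (dif s2 (fld M u (nat_lit 96)))
      (rc M (shiftLeft m0 (nat_lit 64)) u) c1 s1 k)
noncomputable def mv (g : G) (nx : PF) (M n u s1 s2 : Nat) (fin : Nat → F) : F :=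
  mv2 g nx M n u (dif s1 (fld M u (nat_lit 64))) s2 fin
noncomputable def dn : Nat → F := fun _ c s k => k c s

noncomputable def d3 (g : G) (nx : PF) (n u v M : Nat) : F :=
  esc g (nat_lit 11) (nx (nat_lit 2) M n) (dl g (nat_lit 9) n (fun dm c s k =>
    nw g (fun M1 n1 => cn g nx (nat_lit 15) M1 n1 n v) M n
      (lor (nb M u) (shiftLeft (lor dm (fld M v (nat_lit 96))) (nat_lit 32))) c s
      (fun c1 s1 => lp (fun p => cn g nx (nat_lit 18) (edge M u (lo p)) n (lo p) v)
        (dif (lor (nat_lit 127) dm)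
          (lor (shiftRight (nb M u) (nat_lit 32)) (fld M v (nat_lit 96)))) c1 s1 k)))

noncomputable def rx0 : RX := fun n c k =>
  @Bool.rec (fun _ => Bool) false (k (sub n (nat_lit 1)) c) (ble (nat_lit 8) n)
noncomputable def rx1 : RX := fun n c k =>
  @Nat.rec (fun _ => Bool) false
    (fun m _ => k (add (nat_lit 7) (mod c (succ m))) (div c (succ m))) (sub n (nat_lit 7))

def ux0 : RX := fun n c k => k (sub n (nat_lit 1)) c
def ux1 : RX := fun n c k =>
  k (add (nat_lit 7) (mod c (sub n (nat_lit 7)))) (div c (sub n (nat_lit 7)))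

noncomputable def rs0 (n c s : Nat) (k : K) : Bool := k s c
noncomputable def rs2 (r d c : Nat) (k : K) : Bool :=
  @Bool.rec (fun _ => Bool) (k d c)
    (@Nat.rec (fun _ => Bool)
      (tl r (nat_lit 128) (shiftLeft (nat_lit 8) (shiftRight d (nat_lit 1))) c k)
      (fun _ _ => k (shiftLeft (nat_lit 16) (shiftRight d (nat_lit 1))) c) (land (nat_lit 1) d))
    (ble (nat_lit 7) d)
noncomputable def rs1 (n c s : Nat) (k : K) : Bool :=
  rs2 (r2 n) (mod c (add (r2 n) (nat_lit 7))) (div c (add (r2 n) (nat_lit 7))) k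

def gr (M I S : Nat) : Nat := lor S (land (gat M S) I)
noncomputable def cloS (M al : Nat) (nx : Nat → Nat) (S : Nat) : Nat :=
  @Bool.rec (fun _ => Nat) (nx (gr M al S)) S (beq S al)
noncomputable def clo (M al : Nat) : Nat :=
  q8 (cloS M al) (fun S => S) (land al (gcd al (nat_lit 0x80000000)))
def ca (i : Nat) : Nat := land (shiftRight (nat_lit 0x2211100) (mul (nat_lit 4) i)) (nat_lit 15)
def cz (i : Nat) : Nat := land (shiftRight (nat_lit 0x5465465) (mul (nat_lit 4) i)) (nat_lit 15)
def cp (i : Nat) : Nat := add (mul 128 (ca i)) (cz i)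
def cm (i : Nat) : Nat := lor (bt (ca i)) (bt (cz i))
def chd (g : G) (M s : Nat) : Nat :=
  mul (land (nat_lit 1) (land (shiftRight M (cp s)) (shiftRight g.i7 s))) (cm s)
def ga2 (M S : Nat) : Nat := gat (xor M cD) (mul S (nat_lit 0x100000001))

def up (x : Nat) : Nat := sub 128 (mul 2 (gcd x 128))
def il (A B : Nat) : Nat := land B (up (land A (up (land B (up A)))))
def cfb (A B : Nat) : Nat :=
  lor (lor (il A B) (il B A)) (land (land A B) (up (land (land A B) (up (land A B)))))
noncomputable def kil (h : Nat) : Nat :=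
  @Nat.rec (fun _ => Nat) 0 (fun t r => lor r (@Nat.rec (fun _ => Nat) 0 (fun _ _ => bt t)
    (cfb (lor (shiftRight h 64) (bt t)) (land h 127)))) 7

noncomputable def fc (x : Nat) (f : Nat → Bool) : Bool :=
  @Nat.rec (fun _ => Bool) false (fun h _ => f h) (succ x)
noncomputable def x2d (g : G) (M s x N I V : Nat) (k : K3) : Bool :=
  fc (mul (land (nat_lit 1) (shiftRight I x))
    (lor (land (gat N V) (nat_lit 0x7f000000000000007f)) (@Bool.rec (fun _ => Nat)
      (@Nat.rec (fun _ => Nat) (nat_lit 0) (fun i _ => chd g M i) (succ s))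
      (nat_lit 0) (ble (nat_lit 7) s)))) (k V I)
noncomputable def x2c (g : G) (M s x N I V J : Nat) (k : K3) : Bool :=
  x2d g M s x N I (gr N J (land V J)) k
noncomputable def x2b (g : G) (M n s x N a V U : Nat) (k : K3) : Bool :=
  x2c g M s x N (dif (im n) (shiftRight U (nat_lit 32))) (lor V U)
    (lor a (shiftLeft (dif (im n) (shiftRight U (nat_lit 32))) (nat_lit 64))) k
noncomputable def x2a (g : G) (M n s x N a V : Nat) (k : K3) : Bool :=
  x2b g M n s x N a V (gat N V) k
noncomputable def x2 (g : G) (M n s x : Nat) (k : K3) : Bool :=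
  x2a g M n s x (lor (land (xor M cD) cF) (shiftLeft (land (xor M cD) cF) (nat_lit 64)))
    (land s (im n))
    (lor (lor (land (land s (im n)) (gcd (land s (im n)) (nat_lit 0x80000000)))
      (shiftLeft (land s (im n)) (nat_lit 32))) (shiftLeft (nat_lit 0x10000000000000000) x)) k
noncomputable def km (h : Nat) : W (K → K) :=
  @Nat.rec (fun _ => W (K → K)) ⟨fun _ _ _ => false⟩ (fun _ _ => ⟨fun k => k⟩)
    (cfb (shiftRight h 64) (land h 127))
noncomputable def fn0 (nx : PF) (M n c s : Nat) (k : K) (V I h : Nat) : Bool := (km h).f k c s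
noncomputable def fn1 (nx : PF) (M n c s : Nat) (k : K) (V I h : Nat) : Bool :=
  nx (nat_lit 1) (rs M (shiftLeft (gr M I (kil h)) (nat_lit 64)) (shiftRight V (nat_lit 64)))
    n c s k
noncomputable def hX (rx : RX) (rs : Nat → Nat → Nat → K → Bool)
    (fn : PF → Nat → Nat → Nat → Nat → K → K3) : H := fun g nx M n c s k =>
  rx n c (fun x c1 => rs n c1 s (fun s1 c2 => x2 g M n s1 x (fn nx M n c2 s1 k)))

def pa (d : Nat) : Nat := land (shiftRight d (nat_lit 4)) (nat_lit 127)
def pb (d : Nat) : Nat := land (shiftRight d (nat_lit 11)) (nat_lit 127)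
def pk (d : Nat) : Nat := shiftRight d (nat_lit 18)

noncomputable def aB : HA := fun rx g nx M n d c s k =>
  rx n c (fun u c1 => mv g nx M n u (pa d) (pb d) dn c1 s k)
noncomputable def aN : HA := fun rx g nx M n d c s k =>
  cb (ble (pa d) (nat_lit 6)) false (rx n c (fun u c1 =>
    mv g nx M n u (lor (bt (pa d)) (pb d)) (bt (pa d)) (d3 g nx n u (pa d)) c1 s k))
noncomputable def rdX (r j : Nat) (k : K) : K :=
  @Nat.rec (fun _ => K) k
    (fun _ ih X c => ih (lor X (shiftLeft (nat_lit 128) (mod c r))) (div c r)) j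
noncomputable def aW3 (g : G) (nx : PF) (M n b X Y U : Nat) : F :=
  dl g (nat_lit 8) n (fun dm c s k =>
    nw g (nx (nat_lit 4)) M n (lor (shiftLeft Y (nat_lit 64)) (shiftLeft (lor U dm) (nat_lit 32)))
      c s (fun c1 s1 => lp (fun p => nx (nat_lit 5) (rc M (shiftLeft
        (@Bool.rec (fun _ => Nat) X Y (ble (nat_lit 7) (lo p))) (nat_lit 64)) (lo p)) n)
        (lor (dif dm U) (dif b (gat M X))) c1 s1 k))
noncomputable def aW2 (g : G) (nx : PF) (M n a b X : Nat) : F :=
  aW3 g nx M n b X (lor a X) (gat M (lor a X))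
noncomputable def aW : HA := fun rx g nx M n d c s k =>
  rdX (sub n (nat_lit 7)) (mod c (succ (pk d)))
    (fun X c1 => aW2 g nx M n (pa d) (pb d) (land X (im n)) c1 s k) (nat_lit 0)
    (div c (succ (pk d)))
noncomputable def aF3 (g : G) (nx : PF) (M n S R U B : Nat) : F :=
  dl g (nat_lit 8) n (fun dm c s k =>
    nw g (nx (nat_lit 4)) M n (lor R (shiftLeft (lor U dm) (nat_lit 32))) c s (fun c1 s1 =>
      lp (fun p => nx (nat_lit 5)
        (rs (rc M R (lo p)) (shiftLeft (fld M (lo p) (nat_lit 0)) (nat_lit 64)) S) n)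
        (dif (lor B dm) U) c1 s1 k))
noncomputable def aF2 (g : G) (nx : PF) (M n S Y E B : Nat) : F :=
  aF3 g nx M n S (lor (shiftLeft Y (nat_lit 64)) (shiftLeft S (nat_lit 96))) (lor E (gat M Y)) B
noncomputable def aV : HA := fun rx g nx M n d =>
  aF2 g nx M n (pb d) (lor (pa d) (gat M (pb d))) 0 0
noncomputable def fs : Nat → Nat → Nat → Nat → Nat
  | 0, x, _, _ => bt x
  | 1, x, y, _ => lor (bt x) (bt y)
  | 2, _, y, z => lor (bt y) (bt z)
  | _, x, y, z => lor (bt x) (lor (bt y) (bt z))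
noncomputable def aF1 (g : G) (nx : PF) (M n d S E : Nat) : F := fun c s k =>
  nz (lor E (lor (dif (pb d) S) (dif (pa d) (lor S (gat M S)))))
    (aF2 g nx M n S (lor S (gat M S)) S 127 c s k) false
noncomputable def aF0 (g : G) (nx : PF) (M n d x y z : Nat) : F :=
  aF1 g nx M n d (fs (pk d) x y z) (dif (lor (bt y) (bt z)) (lor (bt x) (fld M x 0)))
noncomputable def aF : HA := fun rx g nx M n d c =>
  aF0 g nx M n d (mod c n) (mod (div c n) n) (mod (div (div c n) n) n) (div (div (div c n) n) n)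
noncomputable def aM2 (nx : PF) (M n a b X Y : Nat) : F := fun c s k =>
  nz (land X Y) (nx 2 (rc (rc M (shiftLeft X 64) b) (shiftLeft Y 64) a) n c s k) (k c s)
noncomputable def aM : HA := fun rx g nx M n d c s k =>
  cb (ble (pa d) 6) false (cb (ble (pb d) 6) false (aM2 nx M n (pa d) (pb d)
    (land (fld M (pa d) 0) (im n)) (land (fld M (pb d) 0) (im n)) c s k))
noncomputable def aC : HA := fun rx g nx M n d c s k =>
  cb (ble (pa d) 6) false (cb (ble (pb d) 6) false
    (nw g (nx 7) M n (lor (nb M (pa d)) (nb M (pb d))) c s k))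
noncomputable def aD : HA := fun rx g nx M n d c s k =>
  cb (ble (pa d) 6) false (cb (ble (pb d) 6) false
    (nw g (fun M1 n1 => nw g (nx 7) M1 n1 (lor (nb M1 n) (nb M1 (pb d)))) M n (nb M (pa d))
      c s k))
noncomputable def aR2 (M d X : Nat) (r : Bool) : Bool :=
  cb (ble (pa d) 6) false (nz (dif X (fld M (pa d) 0))
    (nz (land X (shiftRight (ga2 (lor M cI) X) 32))
      (nz (@Nat.rec (fun _ => Nat) X (fun _ Y => land Y (sub Y 1)) (pk d)) false r) false) false)
noncomputable def aR : HA := fun rx g nx M n d c s k =>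
  tl (r2 n) 128 0 c (fun X c1 => aR2 M d (land X (im n)) (k c1 s))
noncomputable def a0 : HA := fun _ _ _ _ _ _ _ _ _ => false
noncomputable def slA : Nat → W HA
  | 3 => ⟨aC⟩
  | 4 => ⟨aD⟩
  | 5 => ⟨aB⟩
  | 6 => ⟨aW⟩
  | 7 => ⟨aN⟩
  | 8 => ⟨aR⟩
  | 12 => ⟨aV⟩
  | 13 => ⟨aM⟩
  | 14 => ⟨aF⟩
  | _ => ⟨a0⟩
def lat (g : G) (d : Nat) : Nat := mod (div g.lt (Nat.pow g.ts d)) g.ts
def ltg (g : G) (d : Nat) : Nat :=
  mul (land (g.A (lat g d)) 15) (land 1 (shiftRight g.h (lat g d)))
noncomputable def hA (rx : RX) : H := fun g nx M n c s k =>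
  @Nat.rec (fun _ => Bool) false (fun d _ =>
    (slA (ltg g d)).f rx g nx M n (g.A (lat g d)) (div c g.m) s k) (succ (mod c g.m))

noncomputable def hP (rx : RX) : H := fun g nx M n c s k =>
  rx n c (fun u c1 => rx1 n c1 (fun v c2 =>
    nz (land (bt v) (fld M u (nat_lit 32))) false
      (mv g nx M n u (bt v) (bt v) (d3 g nx n u v) c2 s k)))
noncomputable def hZ (rx : RX) : H := fun g nx M n c s k =>
  nz g.z false (rx n c (fun u c1 => mv g nx M n u g.z (nat_lit 0) dn c1 s k))
noncomputable def hL : H := fun g nx M n c s k => nx 2 (cl M (mod c n)) n (div c n) s k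
noncomputable def hE : H := fun g nx M n c s k =>
  rx1 n c (fun x c1 => rx1 n c1 (fun z c2 => nx (nat_lit 6) (rc M (row M x) z) n c2 s
    (fun c3 s3 => nx (nat_lit 2) (rc M (shiftLeft (nat_lit 0x100000000) z) x) n c3 s3 k)))
noncomputable def hC : H := fun g nx M n c s k =>
  nx (nat_lit 6) (edge M (mod c n) (mod (div c n) n)) n (div (div c n) n) s
    (fun c3 s3 => nx (nat_lit 2)
      (rc M (shiftLeft (nat_lit 0x10000000000000000) (mod (div c n) n)) (mod c n)) n c3 s3 k)
noncomputable def hO : H := fun g nx M n c s k =>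
  nz (land M (land (shiftRight M 64) cE)) false (k c s)

noncomputable def chm (m : Nat) : Nat :=
  @Nat.rec (fun _ => Nat) 0 (fun i r => lor r (mul (land 1 (shiftRight m i))
    (lor (bt (cp i)) (bt (add (mul 128 (cz i)) (ca i)))))) 7
noncomputable def ch1 (m : Nat) : Nat :=
  @Nat.rec (fun _ => Nat) 0 (fun i _ => chm i) (succ (land m 127))
noncomputable def ch2 (c : Nat) : Nat := lor (ch1 c) (shiftLeft (ch1 (shiftRight c 7)) 64)
def ch3 (x : Nat) : Nat :=
  rc (rc (rc 0 (mul (land x 7) cH) 0) (mul (land (shiftRight x 3) 7) cH) 1)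
    (mul (shiftRight x 6) cH) 2
noncomputable def ch4 (c : Nat) : Nat :=
  lor (ch2 c) (@Nat.rec (fun _ => Nat) 0 (fun x _ => ch3 (succ x)) (shiftRight c 14))
noncomputable def lst (A : Nat → Nat) (ts r : Nat) : List Nat :=
  q8 (q8 (fun (k : Nat → List Nat) (r : Nat) =>
    @Nat.rec (fun _ => List Nat) [] (fun _ _ => A (mod r ts) :: k (div r ts)) r)) (fun _ => []) r
noncomputable def msk (ts r : Nat) : Nat :=
  q8 (q8 (fun (k : Nat → Nat) (r : Nat) =>
    @Nat.rec (fun _ => Nat) 0 (fun _ _ => lor (bt (mod r ts)) (k (div r ts))) r)) (fun _ => 0) r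
def uk (r : Nat) : Nat := land r 15
def ue (r : Nat) : Nat := shiftRight (add (uk r) 15) 4
def uw (r : Nat) : Nat := mul (land (shiftRight r 4) (ue r)) (add 7 (uk r))
def uz (r : Nat) : Nat := mod (shiftRight r 5) (bt (uw r))
def u1 (r : Nat) : Nat := shiftRight r (add (add 4 (ue r)) (uw r))
def uc (r : Nat) : Nat := mod (u1 r) (bt (mul 37 (ue r)))
def u2 (r : Nat) : Nat := shiftRight (u1 r) (mul 37 (ue r))
def ua (r : Nat) : Nat := shiftRight (u2 r) (shiftRight (mul (uk r) (add (mul 3 (uk r)) 25)) 1)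
noncomputable def uh (ts r : Nat) : Nat := lor (msk ts (ua r)) (land (uc r) 16383)
def rw1 (t x y d : Nat) : Nat :=
  shiftLeft (lor (lor (dif x y) (shiftLeft y 64))
    (lor (shiftLeft d 39) (shiftLeft (land x y) 96))) (shiftLeft t 7)
noncomputable def raw (j : Nat) : Nat → Nat → Nat :=
  @Nat.rec (fun _ => Nat → Nat → Nat) (fun _ _ => 0)
    (fun _ ih t c => lor (rw1 t (mod c (bt t)) (mod (shiftRight c t) (bt t))
        (mod (shiftRight c (mul 2 t)) (bt (sub t 7))))
      (ih (succ t) (shiftRight c (sub (mul 3 t) 7)))) j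
noncomputable def uR (r : Nat) : Nat := lor (ch4 (shiftRight (uc r) 14)) (raw (uk r) 7 (u2 r))
noncomputable def rf (M n z : Nat) (k : K3) (j : Nat) : Nat → Nat → K3 :=
  @Nat.rec (fun _ => Nat → Nat → K3) (fun _ _ => k)
    (fun _ ih j Q P I c => rx1 n c (fun t c1 =>
      ih (succ j) (lor Q (shiftLeft (land (shiftRight M t) cC) j))
        (lor P (shiftLeft (row Q t) (shiftLeft j (nat_lit 7))))
        (lor I (shiftLeft (land (nat_lit 1) (shiftRight z j)) t)) c1)) j
noncomputable def hR2 (g : G) (M n r c s : Nat) (k : K) : Bool :=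
  rf M n (uz r) (fun P I c1 => nz (lor (dif (uR r) P) (dif (uh g.ts r) g.h))
      (cb (nz (uz r) true (nz g.z false (nz (dif g.z I) true false))) false (k c1 s)) false)
    (uk r) (nat_lit 7) (land M cQ) (land (land M cQ) (on 896)) (land (uz r) (nat_lit 127)) c
noncomputable def hR : H := fun g nx M n c s k =>
  nz g.nl false (@Nat.rec (fun _ => Bool) false
    (fun i _ => hR2 g M n (g.t i) (div c g.nl) s k) (succ (mod c g.nl)))
noncomputable def hQ : H := fun g nx M n c s k =>
  nz g.nl false (@Nat.rec (fun _ => Bool) false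
    (fun i _ => hR2 g M n (g.t i) (shiftRight c 5) s k) (succ (sub (sub g.nl 1) (land c 31))))

noncomputable def ms2 (N bad S c : Nat) (k : Nat → K3) : Bool :=
  nz (land S (shiftRight bad 32)) (k S (ga2 N S) (lor bad (ga2 N S)) c) false
noncomputable def ms (N n bad c : Nat) (k : Nat → K3) : Bool :=
  tl (mul 2 (succ n)) 1 0 c (fun X c1 => ms2 N bad (clo N (land X (on (succ n)))) c1 k)
def p3 (A S T U : Nat) : Nat := mul (land A S) (mul (land A T) (land A U))
noncomputable def hM2 (N n c : Nat) (k : Nat → Bool) : Bool :=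
  ms N n 0 c (fun _ A1 b c => ms N n b c (fun _ A2 b c => ms N n b c (fun _ A3 b c =>
    ms N n b c (fun S _ b c => ms N n b c (fun T _ b c => ms N n b c (fun U _ _ c =>
      nz (mul (p3 A1 S T U) (mul (p3 A2 S T U) (p3 A3 S T U))) false (k c)))))))
noncomputable def hM : H := fun g nx M n c s k =>
  hM2 (rc (lor (dif M (xor cB (ch1 g.i7))) cY) (lor 127 (shiftLeft (on n) 32)) n) n c
    (fun c1 => k c1 s)
noncomputable def h0 : H := fun _ _ _ _ _ _ _ => false

noncomputable def sl : Nat → W H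
  | 0 => ⟨hX ux0 rs0 fn0⟩
  | 1 => ⟨hX ux0 rs1 fn0⟩
  | 2 => ⟨hX ux1 rs0 fn0⟩
  | 3 => ⟨hX ux1 rs1 fn0⟩
  | 4 => ⟨hX ux0 rs0 fn1⟩
  | 5 => ⟨hX ux0 rs1 fn1⟩
  | 6 => ⟨hX ux1 rs0 fn1⟩
  | 7 => ⟨hX ux1 rs1 fn1⟩
  | 8 => ⟨hA rx0⟩
  | 9 => ⟨hA rx1⟩
  | 10 => ⟨hP rx0⟩
  | 11 => ⟨hP rx1⟩
  | 12 => ⟨hZ rx0⟩
  | 13 => ⟨hZ rx1⟩
  | 14 => ⟨hR⟩
  | 15 => ⟨hQ⟩
  | 16 => ⟨hM⟩
  | 17 => ⟨hL⟩
  | 18 => ⟨hE⟩
  | 19 => ⟨hC⟩
  | 20 => ⟨hO⟩
  | _ => ⟨h0⟩
noncomputable def step (an : Nat → Nat) (g : G) (nx : PF) : PF := fun x M n c s k =>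
  @Nat.rec (fun _ => Bool) false (fun i _ => (sl (ens an x i)).f g nx M n
    (add (mul (enf an x i) (shiftRight c (nat_lit 7))) (eno an x i)) s k)
    (succ (land c (nat_lit 127)))
noncomputable def pf (an : Nat → Nat) (g : G) : PF :=
  q8 (q8 (q8 (step an g))) (fun _ _ _ _ _ _ => false)

noncomputable def pr (df R j : Nat) : Nat → Nat → Nat :=
  @Nat.rec (fun _ => Nat → Nat → Nat) (fun _ M => M) (fun _ ih t M => ih (succ t)
    (cl (rc M (lor (row R t) (lor df (shiftLeft 0x10000000000000000 t))) t) t)) j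
def dfl (h : Nat) : Nat := lor 0x7f00000000 (shiftLeft (land (shiftRight h 7) 127) 64)
def mkG (A t an : Nat → Nat) (ts i r m h z : Nat) : G :=
  ⟨A, t, an, ts, i, ua r, m, h, land h 127, land (shiftRight h 7) 127, dfl h, z⟩
noncomputable def lm4 (an : Nat → Nat) (g : G) (M n c : Nat) : Bool :=
  pf an g 0 M n c 0 (fun _ _ => true)
noncomputable def lm3 (an : Nat → Nat) (g : Nat → G) (M n y d c : Nat) : Bool :=
  cb (beq y 9) (cb (beq (add y (mul 16 (pk d))) 31) false
      (nw (g 0) (fun M1 n1 c _ _ => lm4 an (g (lor (bt n) (pa d))) M1 n1 c) M n 0 c 0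
        (fun _ _ => true)))
    (nw (g 0) (fun M1 n1 c _ _ => lm4 an (g (lor (bt n) 127)) M1 n1 c) M n (nb M 3) c 0
      (fun _ _ => true))
noncomputable def lm2 (an : Nat → Nat) (g : Nat → G) (z m M n c : Nat) : Bool :=
  nz (land 1 c) (lm4 an (g z) M n (shiftRight c 1))
    (lm3 an g M n (ltg (g 0) (mod (shiftRight c 1) m))
      ((g 0).A (lat (g 0) (mod (shiftRight c 1) m))) (div (shiftRight c 1) m))
noncomputable def lm (A an t : Nat → Nat) (ts i r S : Nat) : Bool :=
  lm2 an (mkG A t an ts i r (land S 31) (uh ts r)) (uz r) (land S 31)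
    (pr (dfl (uh ts r)) (uR r) (uk r) 7
      (lor cS (lor (ch4 (shiftRight (uc r) 14)) (ch2 (shiftRight (uh ts r) 14)))))
    (add 7 (uk r)) (shiftRight S 5)
/-- Check the refutations `L` of the statements `t a`, `t (a + 1)` and so on. -/
noncomputable def chk (A an t : Nat → Nat) (ts : Nat) (L : List Nat) : Nat → Bool :=
  @List.rec Nat (fun _ => Nat → Bool) (fun _ => true)
    (fun S _ ih i => Rup.and (lm A an t ts i (t i) S) (ih (succ i))) L
/-- The atoms of a statement without further vertices. -/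
noncomputable def lem (A : Nat → Nat) (ts r : Nat) : List Nat :=
  @Nat.rec (fun _ => List Nat) (lst A ts (shiftRight r 4)) (fun _ _ => [0]) (land r 15)

end Pool.Agent.Lib.MP_ad48ef_co.Dsk
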