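import Pool.Agent.Lib.MP_ad48ef_co.Bits
import Pool.Agent.Lib.MP_ad48ef_co.Dsk

/-!
# Bit level facts for the disk checker
-/

namespace Pool.Agent.Lib.MP_ad48ef_co.Dsk

theorem bt_eq (a : ℕ) : bt a = 2 ^ a := Nat.one_shiftLeft a
theorem tb_bt {a i : ℕ} : (bt a).testBit i = true ↔ i = a := tb_one
theorem tb_on {a i : ℕ} : (on a).testBit i = true ↔ i < a := by
  rw [show on a = 2 ^ a - 1 from congrArg (· - 1) (bt_eq a), Nat.testBit_two_pow_sub_one]
  simp
theorem tb_dif {a b i : ℕ} :
    (dif a b).testBit i = true ↔ a.testBit i = true ∧ b.testBit i = false := by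
  rw [dif, tb_xor, tb_and]
  cases a.testBit i <;> cases b.testBit i <;> simp
theorem tbo {a b i : ℕ} :
    (Nat.lor a b).testBit i = true ↔ a.testBit i = true ∨ b.testBit i = true := by
  rw [tb_or, Bool.or_eq_true]
theorem tba {a b i : ℕ} :
    (Nat.land a b).testBit i = true ↔ a.testBit i = true ∧ b.testBit i = true := by
  rw [tb_and, Bool.and_eq_true]
theorem tbl {a b i : ℕ} :
    (Nat.shiftLeft a b).testBit i = true ↔ b ≤ i ∧ a.testBit (i - b) = true := by
  rw [tb_sl]; simp
theorem tb1 {i : ℕ} : Nat.testBit 1 i = true ↔ i = 0 :=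
  Nat.testBit_one_eq_true_iff_self_eq_zero
theorem tb_m {k i : ℕ} : (2 ^ k - 1).testBit i = true ↔ i < k := by
  rw [Nat.testBit_two_pow_sub_one]; simp
theorem tb127 {i : ℕ} : Nat.testBit 127 i = true ↔ i < 7 := tb_m (k := 7)
theorem tb32 {i : ℕ} : Nat.testBit 0xffffffff i = true ↔ i < 32 := tb_m (k := 32)
theorem tb_p {k i : ℕ} : (2 ^ k).testBit i = true ↔ i = k := by
  rw [Nat.testBit_two_pow]; simp [eq_comm]
theorem sl7 (a : ℕ) : Nat.shiftLeft a 7 = 128 * a := by
  show a <<< 7 = _
  rw [Nat.shiftLeft_eq]; ring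
theorem tb_im {n i : ℕ} (h : 7 ≤ n) : (im n).testBit i = true ↔ 7 ≤ i ∧ i < n := by
  have : im n = 2 ^ 7 * (2 ^ (n - 7) - 1) := by
    show bt n - 128 = _
    rw [bt_eq, Nat.mul_sub, ← pow_add, show 7 + (n - 7) = n by omega]; rfl
  rw [this, Nat.testBit_two_pow_mul, Bool.and_eq_true, tb_m]
  simp; omega
theorem zero_of {x : ℕ} (h : x = 0) {i : ℕ} : x.testBit i = true → False := by simp [h]
theorem lt_of {x k : ℕ} (h : ∀ i, x.testBit i = true → i < k) : x < 2 ^ k :=
  Nat.lt_pow_two_of_testBit _ fun i hi => by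
    by_contra e
    have := h i (by simpa using e)
    omega
theorem of_lt {x k i : ℕ} (h : x < 2 ^ k) (e : x.testBit i = true) : i < k := by
  by_contra c
  rw [Nat.testBit_lt_two_pow (h.trans_le (Nat.pow_le_pow_right (by norm_num) (not_lt.1 c)))] at e
  cases e

theorem cG_eq : cG = geo 128 31 := by decide +kernel
theorem cC_eq : cC = geo 32 124 := by decide +kernel
theorem c7_eq : c7 = geo 127 31 := by decide +kernel
theorem tb_geo {s n p : ℕ} (h : 0 < s) : (geo s n).testBit p = true ↔ p < s * n ∧ p % s = 0 := by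
  have := geo_tb (s := s) 1 (Nat.one_lt_two_pow (by omega)) n p
  rw [one_mul] at this
  rw [this]
  simp [tb1]
theorem tb_cC {p : ℕ} : cC.testBit p = true ↔ p < 3968 ∧ p % 32 = 0 := by
  rw [cC_eq, tb_geo (by norm_num)]
theorem tb_mG {x p : ℕ} (h : x < 2 ^ 128) :
    (Nat.mul x cG).testBit p = true ↔ p < 3968 ∧ x.testBit (p % 128) = true := by
  rw [Nat.mul_eq, cG_eq, geo_tb _ h]; simp
theorem tb_cE {p : ℕ} : cE.testBit p = true ↔ p < 3968 ∧ p % 128 < 32 := by
  rw [show cE = (2 ^ 32 - 1) * geo 128 31 by decide +kernel, geo_tb _ (by norm_num),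
    Bool.and_eq_true, tb_m, decide_eq_true_eq]
theorem tb_cD {p : ℕ} : cD.testBit p = true ↔ p < 3968 ∧ 32 ≤ p % 128 ∧ p % 128 < 64 := by
  rw [show cD = Nat.shiftLeft cE 32 by decide +kernel, tbl, tb_cE]; omega
theorem tb_cQ {p : ℕ} (h : cQ.testBit p = true) : p % 32 < 7 := by
  rw [show cQ = 127 * geo 32 124 by decide +kernel, geo_tb _ (by norm_num), Bool.and_eq_true,
    tb127] at h
  exact h.2
theorem tb_cI {p : ℕ} (h : cI.testBit p = true) : ∃ i, p = 129 * i + 32 := by
  rw [show cI = Nat.shiftLeft (geo 129 31) 32 by decide +kernel, tbl, tb_geo (by norm_num)] at h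
  exact ⟨(p - 32) / 129, by omega⟩
theorem tb_cB : ∀ a < 7, ∀ j < 7, cB.testBit (128 * a + j) = true := by decide +kernel
theorem tb_cF {p : ℕ} : cF.testBit p = true ↔ p < 3968 ∧ p % 128 < 64 := by
  rw [show cF = Nat.lor cE cD by decide +kernel, tbo, tb_cE, tb_cD]; omega

theorem tb_row {M a q : ℕ} :
    (row M a).testBit q = true ↔ q < 128 ∧ M.testBit (128 * a + q) = true := by
  rw [row, tba, tb_sr, sl7]
  exact and_comm.trans (and_congr_left' (tb_m (k := 128)))
theorem tb_fld {M a o q : ℕ} :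
    (fld M a o).testBit q = true ↔ q < 32 ∧ M.testBit (128 * a + o + q) = true := by
  rw [fld, tba, tb_sr, sl7]
  exact and_comm.trans (and_congr_left' tb32)

theorem tb_spr {R p : ℕ} (hR : R < 2 ^ 127) (h : (spr R).testBit p = true) :
    p % 32 = 0 ∧ p < 3968 ∧ R.testBit (p % 128 + p / 128) = true := by
  rw [spr, tba, tb_cC, Nat.mul_eq, c7_eq, geo_tb _ hR] at h
  simp only [Bool.and_eq_true, decide_eq_true_eq] at h
  refine ⟨h.2.2, h.2.1, ?_⟩
  rw [show p % 128 + p / 128 = p % 127 by omega]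
  exact h.1.2

theorem tb_rc {M R a b f j : ℕ} (hR : R < 2 ^ 127) (ha : a < 32) (hf : f < 4) (hj : j < 32)
    (h : (rc M R a).testBit (128 * b + 32 * f + j) = true) :
    M.testBit (128 * b + 32 * f + j) = true ∨ (b = a ∧ R.testBit (32 * f + j) = true) ∨
      (j = a ∧ b < 31 ∧ R.testBit (32 * f + b) = true) := by
  rw [rc, tbo, tbo, tbl, tbl, sl7] at h
  rcases h with h | h | h
  · exact Or.inl h
  · have := of_lt hR h.2
    obtain rfl : b = a := by omega
    exact Or.inr (Or.inl ⟨rfl, by rw [← h.2]; congr 1; omega⟩)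
  · obtain ⟨h1, h2, h3⟩ := tb_spr hR h.2
    obtain rfl : j = a := by omega
    exact Or.inr (Or.inr ⟨rfl, by omega, by rw [← h3]; congr 1; omega⟩)

theorem outer {w x : ℕ} (hw : 0 < w) (hx : x < 2 ^ w) (p : ℕ) : ∀ Y : ℕ,
    (∀ q, Y.testBit q = true → q % w = 0) → (x * Y).testBit p = true →
    Y.testBit (p - p % w) = true ∧ x.testBit (p % w) = true := by
  induction p using Nat.strong_induction_on with
  | _ p ih =>
    intro Y hY h
    have h0 : Y % 2 ^ w < 2 ^ 1 := lt_of fun i hi => by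
      rw [Nat.testBit_mod_two_pow, Bool.and_eq_true, decide_eq_true_eq] at hi
      have := hY i hi.2
      rw [Nat.mod_eq_of_lt hi.1] at this
      omega
    have e : x * Y = 2 ^ w * (x * (Y / 2 ^ w)) + x * (Y % 2 ^ w) := by
      conv_lhs => rw [← Nat.div_add_mod Y (2 ^ w)]
      ring
    have l : x * (Y % 2 ^ w) < 2 ^ w := by
      have : Y % 2 ^ w ≤ 1 := by omega
      nlinarith
    rw [e, Nat.testBit_two_pow_mul_add _ l] at h
    split_ifs at h with c
    · rw [Nat.mod_eq_of_lt c, Nat.sub_self]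
      have : Y % 2 ^ w = 1 := by
        by_contra z
        rw [show Y % 2 ^ w = 0 by omega] at h
        simp at h
      rw [this, mul_one] at h
      refine ⟨?_, h⟩
      have k := Nat.testBit_mod_two_pow Y w 0
      rw [this] at k
      simpa [hw] using k.symm
    · obtain ⟨a, b⟩ := ih (p - w) (by omega) (Y / 2 ^ w) (fun q hq => by
        rw [Nat.testBit_div_two_pow] at hq
        simpa using hY _ hq) h
      have m : (p - w) % w = p % w := (Nat.mod_eq_sub_mod (by omega)).symm
      rw [m] at a b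
      rw [Nat.testBit_div_two_pow] at a
      have := Nat.mod_le (p - w) w
      exact ⟨by rw [← a]; congr 1; omega, b⟩

theorem tb_rs {M R S b f j : ℕ} (hR : R < 2 ^ 127) (hS : S < 2 ^ 31) (hf : f < 4) (hj : j < 32)
    (h : (rs M R S).testBit (128 * b + 32 * f + j) = true) :
    M.testBit (128 * b + 32 * f + j) = true ∨
      (S.testBit b = true ∧ R.testBit (32 * f + j) = true) ∨
      (S.testBit j = true ∧ b < 31 ∧ R.testBit (32 * f + b) = true) := by
  rw [rs, tbo, tbo] at h
  have hS' : S < 2 ^ 127 := hS.trans (by norm_num)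
  rcases h with h | h | h
  · exact Or.inl h
  · obtain ⟨h1, h2⟩ := outer (w := 128) (by norm_num) (hR.trans (by norm_num)) _ _ (fun q hq => by
      obtain ⟨k1, k2, k3⟩ := tb_spr hS' hq
      have := of_lt hS k3
      omega) h
    obtain ⟨k1, k2, k3⟩ := tb_spr hS' h1
    exact Or.inr (Or.inl ⟨by rw [← k3]; congr 1; omega, by rw [← h2]; congr 1; omega⟩)
  · obtain ⟨h1, h2⟩ := outer (w := 32) (by norm_num) (hS.trans (by norm_num)) _ _
      (fun q hq => (tb_spr hR hq).1) h
    obtain ⟨k1, k2, k3⟩ := tb_spr hR h1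
    exact Or.inr (Or.inr ⟨by rw [← h2]; congr 1; omega, by omega, by rw [← k3]; congr 1; omega⟩)

theorem geo_succ (s n : ℕ) : geo s (n + 1) = 2 ^ s * geo s n + 1 := by
  induction n with
  | zero => simp [geo]
  | succ n ih =>
    have e : 2 ^ s * geo s (n + 1) = 2 ^ (s * (n + 1)) + 2 ^ s * geo s n := by
      rw [geo]; ring
    rw [e, geo, ih]
    omega

theorem carry (n : ℕ) : ∀ X : ℕ, (∀ q, X.testBit q = true → q % 32 ≠ 31) → ∀ m, m < n →
    ((X + (2 ^ 31 - 1) * geo 32 n).testBit (32 * m + 31) = true ↔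
      ∃ j, j < 31 ∧ X.testBit (32 * m + j) = true) := by
  induction n with
  | zero => intro X _ m hm; omega
  | succ n ih =>
    intro X hX m hm
    have h0 : X % 2 ^ 32 < 2 ^ 31 := lt_of fun i hi => by
      rw [Nat.testBit_mod_two_pow, Bool.and_eq_true, decide_eq_true_eq] at hi
      have := hX i hi.2
      omega
    have e : X + (2 ^ 31 - 1) * geo 32 (n + 1) =
        2 ^ 32 * (X / 2 ^ 32 + (2 ^ 31 - 1) * geo 32 n) + (X % 2 ^ 32 + (2 ^ 31 - 1)) := by
      rw [geo_succ]
      conv_lhs => rw [← Nat.div_add_mod X (2 ^ 32)]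
      ring
    rw [e, Nat.testBit_two_pow_mul_add _ (by omega)]
    cases m with
    | zero =>
      rw [if_pos (by omega), Nat.testBit_eq_decide_div_mod_eq, decide_eq_true_eq]
      constructor
      · intro h
        obtain ⟨j, hj⟩ := ex_bit (x := X % 2 ^ 32) (by omega)
        have := of_lt h0 hj
        rw [Nat.testBit_mod_two_pow, Bool.and_eq_true] at hj
        exact ⟨j, this, by simpa using hj.2⟩
      · rintro ⟨j, hj, h⟩
        have : X % 2 ^ 32 ≠ 0 := fun z => zero_of z (i := j) (by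
          rw [Nat.testBit_mod_two_pow, Bool.and_eq_true]
          exact ⟨decide_eq_true (by omega), by simpa using h⟩)
        omega
    | succ m =>
      rw [if_neg (by omega), show 32 * (m + 1) + 31 - 32 = 32 * m + 31 by omega,
        ih _ (fun q hq => by
          rw [Nat.testBit_div_two_pow] at hq
          have := hX _ hq
          omega) m (by omega)]
      refine exists_congr fun j => and_congr_right fun _ => ?_
      rw [Nat.testBit_div_two_pow, show 32 * m + j + 32 = 32 * (m + 1) + j by omega]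

theorem add_or : ∀ a b : ℕ, (∀ i, a.testBit i = true → b.testBit i = true → False) →
    a + b = Nat.lor a b := by
  intro a
  induction a using Nat.strong_induction_on with
  | _ a ih =>
    intro b h
    rcases Nat.eq_zero_or_pos a with rfl | ha
    · rw [zero_add]; exact (Nat.zero_or b).symm
    have e := ih (a / 2) (by omega) (b / 2) fun i h1 h2 =>
      h (i + 1) (by rwa [Nat.testBit_add_one]) (by rwa [Nat.testBit_add_one])
    have d : Nat.lor a b / 2 = Nat.lor (a / 2) (b / 2) := Nat.or_div_two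
    have m : Nat.lor a b % 2 = 1 ↔ a % 2 = 1 ∨ b % 2 = 1 := Nat.or_mod_two_eq_one
    have z : ¬ (a % 2 = 1 ∧ b % 2 = 1) := fun k => h 0 (by simp [k.1]) (by simp [k.2])
    rw [← e] at d
    generalize Nat.lor a b = c at *
    omega

theorem fold (n : ℕ) : n ≤ 31 → ∀ Y : ℕ, (∀ p, Y.testBit p = true → p % 32 = 0 ∧ p < 128 * n) →
    ∃ Z, Y % (2 ^ 127 - 1) = Z % (2 ^ 127 - 1) ∧ ∀ f i, i < 32 → (Z.testBit (32 * f + i) = true ↔
      f < 4 ∧ i < n ∧ Y.testBit (128 * i + 32 * f) = true) := by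
  induction n with
  | zero =>
    intro _ Y h
    obtain rfl : Y = 0 := by
      by_contra z
      obtain ⟨i, hi⟩ := ex_bit z
      have := h i hi
      omega
    exact ⟨0, rfl, by simp⟩
  | succ n ih =>
    intro hn Y h
    obtain ⟨Z, z1, z2⟩ := ih (by omega) (Y / 2 ^ 128) fun p hp => by
      rw [Nat.testBit_div_two_pow] at hp
      have := h _ hp
      omega
    have y : ∀ q, (Y % 2 ^ 128).testBit q = true ↔ q < 128 ∧ Y.testBit q = true := fun q => by
      rw [Nat.testBit_mod_two_pow]; simp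
    have z : ∀ q, (2 ^ 1 * Z).testBit q = true ↔ 1 ≤ q ∧ Z.testBit (q - 1) = true := fun q => by
      rw [Nat.testBit_two_pow_mul]; simp
    have z3 : ∀ q, Z.testBit q = true → q % 32 < n := fun q hq =>
      ((z2 (q / 32) (q % 32) (Nat.mod_lt _ (by norm_num))).1 (by rwa [Nat.div_add_mod])).2.1
    refine ⟨Y % 2 ^ 128 + 2 ^ 1 * Z, ?_, fun f i hi => ?_⟩
    · conv_lhs => rw [← Nat.mod_add_div Y (2 ^ 128)]
      have : (2 : ℕ) ^ 128 ≡ 2 ^ 1 [MOD 2 ^ 127 - 1] := by decide +kernel
      exact (Nat.ModEq.refl _).add (this.mul z1)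
    · rw [add_or _ _ fun q h1 h2 => by
        have := h _ ((y q).1 h1).2
        have := z3 _ ((z q).1 h2).2
        have := ((z q).1 h2).1
        omega, tbo, y, z]
      cases i with
      | zero =>
        constructor
        · rintro (k | k)
          · exact ⟨by omega, by omega, by simpa using k.2⟩
          · have := z3 _ k.2
            omega
        · exact fun k => Or.inl ⟨by omega, by simpa using k.2.2⟩
      | succ i =>
        rw [show 32 * f + (i + 1) - 1 = 32 * f + i by omega, z2 f i (by omega),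
          Nat.testBit_div_two_pow, show 128 * i + 32 * f + 128 = 128 * (i + 1) + 32 * f by omega]
        constructor
        · rintro (k | k)
          · have := h _ k.2
            omega
          · exact ⟨k.2.1, by omega, k.2.2.2⟩
        · exact fun k => Or.inr ⟨by omega, k.1, by omega, k.2.2⟩

/-- The masks accepted by the gathering operation. -/
def Gd (S : ℕ) : Prop := ∀ q, S.testBit q = true → q < 128 ∧ q % 32 ≠ 31

theorem tb_gat {M S f i : ℕ} (hS : Gd S) (hi : i < 32) :
    (gat M S).testBit (32 * f + i) = true ↔ f < 4 ∧ i < 31 ∧ ∃ j, j < 31 ∧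
      S.testBit (32 * f + j) = true ∧ M.testBit (128 * i + 32 * f + j) = true := by
  have h1 : S < 2 ^ 128 := lt_of fun q hq => (hS q hq).1
  have hX : ∀ q, (Nat.land M (Nat.mul S cG)).testBit q = true → q % 32 ≠ 31 := fun q hq => by
    have := (hS _ ((tb_mG h1).1 (tba.1 hq).2).2).2
    omega
  obtain ⟨Z, z1, z2⟩ := fold 31 le_rfl (Nat.land (Nat.shiftRight (Nat.add (Nat.land M
    (Nat.mul S cG)) cO) 31) cC) fun p hp => by
      have := tb_cC.1 (tba.1 hp).2
      omega
  have z3 : ∀ q, Z.testBit q = true → q < 127 ∧ q ≠ 31 := fun q hq => by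
    have := (z2 (q / 32) (q % 32) (Nat.mod_lt _ (by norm_num))).1 (by rwa [Nat.div_add_mod])
    omega
  have z4 : Z < 2 ^ 127 - 1 := by
    have a : Z < 2 ^ 127 := lt_of fun q hq => (z3 q hq).1
    have : Z ≠ 2 ^ 127 - 1 := fun e => (z3 31 (by rw [e]; decide +kernel)).2 rfl
    omega
  rw [show gat M S = Z from z1.trans (Nat.mod_eq_of_lt z4), z2 f i hi]
  refine and_congr_right fun hf => and_congr_right fun h31 => ?_
  rw [tba, tb_cC, tb_sr, Nat.add_eq, show cO = (2 ^ 31 - 1) * geo 32 124 by decide +kernel,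
    show 31 + (128 * i + 32 * f) = 32 * (4 * i + f) + 31 by omega, carry 124 _ hX _ (by omega)]
  constructor
  · rintro ⟨⟨j, hj, h⟩, -⟩
    rw [tba, tb_mG h1] at h
    exact ⟨j, hj, by rw [← h.2.2]; congr 1; omega, by rw [← h.1]; congr 1; omega⟩
  · rintro ⟨j, hj, a, b⟩
    refine ⟨⟨j, hj, ?_⟩, by omega, by omega⟩
    rw [tba, tb_mG h1]
    exact ⟨by rw [← b]; congr 1; omega, by omega, by rw [← a]; congr 1; omega⟩

theorem Gd.of {S : ℕ} (h : ∀ q, S.testBit q = true → q < 31) : Gd S := fun q hq => by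
  have := h q hq
  omega

theorem gat_lo {M S q : ℕ} (hS : ∀ q, S.testBit q = true → q < 31)
    (h : (gat M S).testBit q = true) :
    q < 31 ∧ ∃ j, S.testBit j = true ∧ M.testBit (128 * q + j) = true := by
  obtain ⟨a, b, j, c, d, e⟩ := (tb_gat (f := q / 32) (Gd.of hS) (Nat.mod_lt q (by norm_num))).1
    (by rwa [Nat.div_add_mod])
  have := hS _ d
  have z : q / 32 = 0 := by omega
  rw [z] at d e
  exact ⟨by omega, j, by simpa using d, by rw [← e]; congr 1; omega⟩

theorem low {a i j : ℕ} (hi : (Nat.land a (Nat.gcd a 0x80000000)).testBit i = true)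
    (hj : (Nat.land a (Nat.gcd a 0x80000000)).testBit j = true) : i = j := by
  obtain ⟨k, -, e⟩ := (Nat.dvd_prime_pow Nat.prime_two (m := 31)).1 (Nat.gcd_dvd_right a _)
  rw [show (0x80000000 : ℕ) = 2 ^ 31 from rfl, e, tba, tb_p] at hi hj
  omega

end Pool.Agent.Lib.MP_ad48ef_co.Dsk
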