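import Pool.Agent.Lib.MP_ad48ef_co.Disk
import Pool.Agent.Lib.MP_ad48ef_co.DskBits

/-!
# Two disjoint bridges of the boundary cycle of a disk do not overlap
-/

namespace Pool.Agent.Lib.MP_ad48ef_co.Dsk

open Pool.Agent.Shared.Planar

def Il (A B : ℕ) : Prop := ∃ a b c d, a < b ∧ b < c ∧ c < d ∧ d < 7 ∧ A.testBit a = true ∧
  B.testBit b = true ∧ A.testBit c = true ∧ B.testBit d = true

def Cf (A B : ℕ) : Prop := Il A B ∨ Il B A ∨ ∃ a b c, a < b ∧ b < c ∧ c < 7 ∧
  ∀ t, t = a ∨ t = b ∨ t = c → A.testBit t = true ∧ B.testBit t = true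

theorem tb_up {x j : ℕ} (h : (up x).testBit j = true) : j < 7 ∧ ∃ i, i < j ∧ x.testBit i = true := by
  have e : up x = up (x % 128) := by
    unfold up
    rw [Nat.gcd_comm x, Nat.gcd_rec 128 x]
  have k : ∀ y < 128, up y < 2 ^ 7 ∧ ∀ j < 7, (up y).testBit j = true →
      ∃ i < j, y.testBit i = true := by decide +kernel
  obtain ⟨k1, k2⟩ := k _ (Nat.mod_lt x (by norm_num))
  rw [e] at h
  obtain ⟨i, a, b⟩ := k2 j (of_lt k1 h) h
  rw [show 128 = 2 ^ 7 from rfl, Nat.testBit_mod_two_pow, Bool.and_eq_true] at b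
  exact ⟨of_lt k1 h, i, a, b.2⟩

theorem il_ok {A B q : ℕ} (h : (il A B).testBit q = true) : Il A B := by
  obtain ⟨h1, h⟩ := tba.1 h
  obtain ⟨q7, c, c1, h⟩ := tb_up h
  obtain ⟨h2, h⟩ := tba.1 h
  obtain ⟨-, b, b1, h⟩ := tb_up h
  obtain ⟨h3, h⟩ := tba.1 h
  obtain ⟨-, a, a1, h⟩ := tb_up h
  exact ⟨a, b, c, q, a1, b1, c1, q7, h, h3, h2, h1⟩

theorem cfb_ok {A B : ℕ} (h : cfb A B ≠ 0) : Cf A B := by
  obtain ⟨q, h⟩ := ex_bit h
  rcases tbo.1 h with h | h
  · exact (tbo.1 h).elim (fun k => Or.inl (il_ok k)) fun k => Or.inr (Or.inl (il_ok k))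
  obtain ⟨h1, h⟩ := tba.1 h
  obtain ⟨q7, b, b1, h⟩ := tb_up h
  obtain ⟨h2, h⟩ := tba.1 h
  obtain ⟨-, a, a1, h⟩ := tb_up h
  refine Or.inr (Or.inr ⟨a, b, q, a1, b1, q7, ?_⟩)
  rintro t (rfl | rfl | rfl)
  exacts [tba.1 h, tba.1 h2, tba.1 h1]

theorem kil_ok {h t : ℕ} (e : (kil h).testBit t = true) :
    t < 7 ∧ Cf (Nat.lor (Nat.shiftRight h 64) (bt t)) (Nat.land h 127) := by
  unfold kil at e
  generalize 7 = n at e ⊢
  induction n with
  | zero => simp at e
  | succ n ih =>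
    rcases tbo.1 e with e | e
    · exact ⟨(ih e).1.trans n.lt_succ_self, (ih e).2⟩
    · generalize k : cfb _ _ = y at e
      cases y with
      | zero => simp at e
      | succ y =>
        obtain rfl := tb_bt.1 e
        exact ⟨t.lt_succ_self, cfb_ok (by rw [k]; simp)⟩

theorem kil_zero : kil 0 = 0 := by decide +kernel

theorem Cn.ins {V : Type} {G : SimpleGraph V} {S : Set V} (h : Cn G S) {x y : V} (hy : y ∈ S)
    (e : G.Adj y x) : Cn G (insert x S) := by
  refine Cn.of_root y ?_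
  rintro a (rfl | ha)
  · exact R.single (Or.inr hy) (Or.inl rfl) e
  · exact (h y hy a ha).mono (Set.subset_insert _ _) le_rfl

theorem Cn.un {V : Type} {G : SimpleGraph V} {S T : Set V} (h : Cn G S) (k : Cn G T) {x : V}
    (hx : x ∈ S) (kx : x ∈ T) : Cn G (S ∪ T) := by
  refine Cn.of_root x ?_
  rintro a (ha | ha)
  · exact (h x hx a ha).mono Set.subset_union_left le_rfl
  · exact (k x kx a ha).mono Set.subset_union_right le_rfl

theorem Cn.one {V : Type} {G : SimpleGraph V} (x : V) : Cn G {x} :=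
  Cn.of_root x fun a ha => by rw [ha]; exact R.refl

variable {D : Disk}

/-- `S` is a connected set of interior vertices attached at the positions in `A`, or `S` is empty
and `A` consists of the ends of a chord. -/
structure Br (D : Disk) (S : Set D.X) (A : ℕ) : Prop where
  int : ∀ x ∈ S, D.I x
  cn : Cn D.K (some '' S)
  att : (∀ a, a < 7 → A.testBit a = true → ∃ x ∈ S, D.G.Adj x (D.b a)) ∨
    (S = ∅ ∧ ∃ a c, D.K.Adj (some (D.b a)) (some (D.b c)) ∧
      ∀ t, A.testBit t = true → t = a ∨ t = c)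

theorem Br.link {S : Set D.X} {A a c : ℕ} (h : Br D S A) (ha : a < 7) (hc : c < 7) (n : a ≠ c)
    (a1 : A.testBit a = true) (c1 : A.testBit c = true) :
    Cn D.K (insert (some (D.b a)) (some '' S)) ∧
      ∃ x ∈ insert (some (D.b a)) (some '' S), D.K.Adj x (some (D.b c)) := by
  rcases h.att with k | ⟨rfl, p, q, k1, k2⟩
  · obtain ⟨x, x1, x2⟩ := k a ha a1
    obtain ⟨y, y1, y2⟩ := k c hc c1
    exact ⟨Cn.ins h.cn ⟨x, x1, rfl⟩ (D.kI _ _ (h.int x x1) x2),
      some y, Or.inr ⟨y, y1, rfl⟩, D.kI _ _ (h.int y y1) y2⟩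
  · refine ⟨by simpa using Cn.one _, _, Or.inl rfl, ?_⟩
    rcases k2 a a1 with rfl | rfl <;> rcases k2 c c1 with rfl | rfl
    exacts [absurd rfl n, k1, k1.symm, absurd rfl n]

theorem cyc (D : Disk) (j : ℕ) : D.K.Adj (some (D.b (j % 7))) (some (D.b ((j + 1) % 7))) := by
  by_cases h : j % 7 = 6
  · rw [h, show (j + 1) % 7 = 0 by omega]; exact D.kend.symm
  · rw [show (j + 1) % 7 = j % 7 + 1 by omega]; exact D.kpath _ (by omega)

def arc (D : Disk) (l h : ℕ) : Set (Option D.X) := {x | ∃ j, l ≤ j ∧ j < h ∧ x = some (D.b (j % 7))}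

theorem arc_cn (D : Disk) (l h : ℕ) : Cn D.K (arc D l h) := by
  refine Cn.of_root (some (D.b (l % 7))) ?_
  rintro _ ⟨j, j1, j2, rfl⟩
  induction j, j1 using Nat.le_induction with
  | base => exact R.refl
  | succ j j1 ih =>
    exact (ih (by omega)).tail ⟨j, j1, by omega, rfl⟩ ⟨j + 1, by omega, j2, rfl⟩ (cyc D j)

theorem no_il {S T : Set D.X} {A B : ℕ} (hS : Br D S A) (hT : Br D T B)
    (d : ∀ x ∈ S, x ∈ T → False) (h : Il A B) : False := by
  obtain ⟨a, b, c, e, h1, h2, h3, h4, a1, b1, c1, e1⟩ := h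
  obtain ⟨s1, x, s2, s3⟩ := hS.link (by omega) (by omega) (by omega) a1 c1
  obtain ⟨t1, y, t2, t3⟩ := hT.link (by omega) (by omega) (by omega) b1 e1
  have st : ∀ l h, l < h → l < 7 → some (D.b l) ∈ arc D l h := fun l h k m =>
    ⟨l, le_rfl, k, by rw [Nat.mod_eq_of_lt m]⟩
  have nx : ∀ l h, l < h → ∃ v ∈ arc D l h, D.K.Adj v (some (D.b (h % 7))) := fun l h k =>
    ⟨_, ⟨h - 1, by omega, by omega, rfl⟩, by
      have := cyc D (h - 1); rwa [show h - 1 + 1 = h by omega] at this⟩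
  have aa : ∀ l h l' h', h ≤ l' → h' ≤ l + 7 → ∀ v, v ∈ arc D l h → v ∈ arc D l' h' → False := by
    rintro l h l' h' k m _ ⟨i, i1, i2, rfl⟩ ⟨j, j1, j2, z⟩
    have := D.inj _ _ (Nat.mod_lt _ (by norm_num)) (Nat.mod_lt _ (by norm_num))
      (Option.some.inj z)
    omega
  have ai : ∀ {U : Set D.X} {C}, Br D U C → ∀ l h v, v ∈ arc D l h → v ∈ some '' U → False := by
    rintro U C hU l h _ ⟨i, i1, i2, rfl⟩ ⟨z, z1, z2⟩
    exact D.off _ (Nat.mod_lt _ (by norm_num)) (Option.some.inj z2 ▸ hU.int z z1)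
  have ex : ∀ l h (U : Set (Option D.X)), l < h → l < 7 →
      insert (some (D.b l)) U ⊆ arc D l h ∪ U := by
    rintro l h U k m v (rfl | hv)
    exacts [Or.inl (st l h k m), Or.inr hv]
  have cu : ∀ l h (U : Set (Option D.X)), l < h → l < 7 → Cn D.K (insert (some (D.b l)) U) →
      Cn D.K (arc D l h ∪ U) := fun l h U k m z => by
    have := Cn.un (arc_cn D l h) z (st l h k m) (Or.inl rfl)
    rwa [Set.union_insert, Set.insert_eq_of_mem (Set.mem_union_left _ (st l h k m))] at this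
  have hb : ∀ l, l < 7 → D.K.Adj (some (D.b l)) none := fun l m => (D.khub l m).symm
  have so : ∀ v ∈ some '' S, v ∈ some '' T → False := by
    rintro _ ⟨p, p1, rfl⟩ ⟨q, q1, q2⟩
    exact d p p1 (Option.some.inj q2 ▸ q1)
  have nn : ∀ l h, none ∉ arc D l h := by rintro l h ⟨i, -, -, z⟩; cases z
  have ni : ∀ U : Set D.X, none ∉ some '' U := by rintro U ⟨i, -, z⟩; cases z
  obtain ⟨v1, w1, z1⟩ := nx a b h1
  obtain ⟨v2, w2, z2⟩ := nx b c h2
  obtain ⟨v3, w3, z3⟩ := nx c e h3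
  obtain ⟨v4, w4, z4⟩ := nx e (a + 7) (by omega)
  rw [Nat.mod_eq_of_lt (by omega)] at z1 z2 z3
  rw [show (a + 7) % 7 = a by omega] at z4
  have m1 := st a b h1 (by omega)
  have m2 := st b c h2 (by omega)
  have m3 := st c e h3 (by omega)
  have m4 := st e (a + 7) (by omega) h4
  refine D.ht.no_K5 ![arc D a b ∪ some '' S, arc D b c ∪ some '' T, arc D c e, arc D e (a + 7),
    {none}] ?_ ?_ ?_
  · intro i
    fin_cases i
    exacts [cu a b _ h1 (by omega) s1, cu b c _ h2 (by omega) t1, arc_cn D _ _, arc_cn D _ _,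
      Cn.one _]
  · have key : ∀ i j : Fin 5, i < j → ∀ v, v ∈ (![arc D a b ∪ some '' S, arc D b c ∪ some '' T,
        arc D c e, arc D e (a + 7), {none}] : Fin 5 → Set (Option D.X)) i →
        v ∈ (![arc D a b ∪ some '' S, arc D b c ∪ some '' T, arc D c e, arc D e (a + 7),
        {none}] : Fin 5 → Set (Option D.X)) j → False := by
      intro i j hij v
      fin_cases i <;> fin_cases j <;> first | exact absurd hij (by decide) | skip
      · rintro (p | p) (q | q)
        exacts [aa _ _ _ _ le_rfl (by omega) v p q, ai hT _ _ v p q, ai hS _ _ v q p, so v p q]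
      · rintro (p | p) q
        exacts [aa _ _ _ _ (by omega) (by omega) v p q, ai hS _ _ v q p]
      · rintro (p | p) q
        exacts [aa _ _ _ _ (by omega) (by omega) v p q, ai hS _ _ v q p]
      · rintro (p | p) rfl
        exacts [nn _ _ p, ni _ p]
      · rintro (p | p) q
        exacts [aa _ _ _ _ (by omega) (by omega) v p q, ai hT _ _ v q p]
      · rintro (p | p) q
        exacts [aa _ _ _ _ (by omega) (by omega) v p q, ai hT _ _ v q p]
      · rintro (p | p) rfl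
        exacts [nn _ _ p, ni _ p]
      · exact aa _ _ _ _ le_rfl (by omega) v
      · rintro p rfl; exact nn _ _ p
      · rintro p rfl; exact nn _ _ p
    intro i j hij v p q
    rcases lt_or_gt_of_ne hij with k | k
    exacts [key i j k v p q, key j i k v q p]
  · intro i j hij
    fin_cases i <;> fin_cases j <;> first | exact absurd hij (by decide) | skip
    exacts [⟨v1, Or.inl w1, _, Or.inl m2, z1⟩, ⟨x, ex a b _ h1 (by omega) s2, _, m3, s3⟩,
      ⟨_, Or.inl m1, v4, w4, z4.symm⟩, ⟨_, Or.inl m1, _, rfl, hb a (by omega)⟩,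
      ⟨v2, Or.inl w2, _, m3, z2⟩, ⟨y, ex b c _ h2 (by omega) t2, _, m4, t3⟩,
      ⟨_, Or.inl m2, _, rfl, hb b (by omega)⟩, ⟨v3, w3, _, m4, z3⟩,
      ⟨_, m3, _, rfl, hb c (by omega)⟩, ⟨_, m4, _, rfl, hb e h4⟩]

theorem no_cf {S T : Set D.X} {A B : ℕ} (hS : Br D S A) (hT : Br D T B)
    (d : ∀ x ∈ S, x ∈ T → False) (h : Cf A B) : False := by
  rcases h with h | h | ⟨a, b, c, h1, h2, h3, h⟩
  · exact no_il hS hT d h
  · exact no_il hT hS (fun x p q => d x q p) h
  have k : ∀ {U : Set D.X} {C}, Br D U C → (∀ t, t = a ∨ t = b ∨ t = c → C.testBit t = true) →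
      ∀ t, t = a ∨ t = b ∨ t = c → Tch D.K (some '' U) {some (D.b t)} := by
    intro U C hU e t ht
    rcases hU.att with k | ⟨-, p, q, -, k⟩
    · obtain ⟨x, x1, x2⟩ := k t (by omega) (e t ht)
      exact ⟨_, ⟨x, x1, rfl⟩, _, rfl, D.kI _ _ (hU.int x x1) x2⟩
    · have := k a (e a (by omega))
      have := k b (e b (by omega))
      have := k c (e c (by omega))
      omega
  have p : ∀ j : Fin 3, ![a, b, c] j = a ∨ ![a, b, c] j = b ∨ ![a, b, c] j = c := by
    intro j; fin_cases j <;> simp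
  have so : ∀ v ∈ some '' S, v ∈ some '' T → False := by
    rintro _ ⟨p, p1, rfl⟩ ⟨q, q1, q2⟩
    exact d p p1 (Option.some.inj q2 ▸ q1)
  have ni : ∀ U : Set D.X, none ∉ some '' U := by rintro U ⟨i, -, z⟩; cases z
  refine D.ht.no_K33 ![some '' S, some '' T, {none}] (fun j => {some (D.b (![a, b, c] j))})
    ?_ (fun _ => Cn.one _) ?_ ?_ ?_ ?_
  · intro i
    fin_cases i
    exacts [hS.cn, hT.cn, Cn.one _]
  · intro i j hij v
    fin_cases i <;> fin_cases j <;> first | exact absurd rfl hij | skip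
    exacts [so v, fun p q => ni _ (q ▸ p), fun p q => so v q p, fun p q => ni _ (q ▸ p),
      fun q p => ni _ (q ▸ p), fun q p => ni _ (q ▸ p)]
  · rintro i j hij v rfl q
    have := D.inj _ _ (by have := p i; omega) (by have := p j; omega) (Option.some.inj q)
    fin_cases i <;> fin_cases j <;> simp at this hij <;> omega
  · rintro i j v q rfl
    have o := D.off _ (show ![a, b, c] j < 7 by have := p j; omega)
    fin_cases i
    · obtain ⟨z, z1, z2⟩ := q
      exact o (Option.some.inj z2 ▸ hS.int z z1)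
    · obtain ⟨z, z1, z2⟩ := q
      exact o (Option.some.inj z2 ▸ hT.int z z1)
    · cases q
  · intro i j
    fin_cases i
    exacts [k hS (fun t e => (h t e).1) _ (p j), k hT (fun t e => (h t e).2) _ (p j),
      ⟨_, rfl, _, rfl, D.khub _ (by have := p j; omega)⟩]

end Pool.Agent.Lib.MP_ad48ef_co.Dsk
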