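import Pool.Agent.Lib.MP_ad48ef_co.DskX

/-!
# Soundness of the simple steps of the disk checker
-/

namespace Pool.Agent.Lib.MP_ad48ef_co.Dsk

open Pool.Agent.Shared.Planar

variable {D : Disk} {ρ : ℕ → D.X} {n M z : ℕ} {g : G} {nx : PF}

def Hh (D : Disk) (h : H) : Prop :=
  ∀ g nx M n, Cx g D → Ok D g nx → Sn (h g nx M n) (No D g.z M n fun _ => True)

def Ux (rx : RX) : Prop := ∀ n c k, rx n c k = true → ∃ u c', k u c' = true

def Us (rs : ℕ → ℕ → ℕ → K → Bool) : Prop :=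
  ∀ n c s k, rs n c s k = true → ∃ u c', k u c' = true

def Fn (D : Disk) (fn : PF → ℕ → ℕ → ℕ → ℕ → K → K3) : Prop :=
  ∀ g nx M n c s k V I h, Ok D g nx → fn nx M n c s k V I h = true →
    (∃ c' s', k c' s' = true) ∧ ∀ ρ, St D g.z M n ρ → Xs D ρ n V I h → False

theorem hX_ok {rx rs fn} (a : Ux rx) (b : Us rs) (f : Fn D fn) : Hh D (hX rx rs fn) := by
  intro g nx M n C h c s k e
  obtain ⟨x, c1, e⟩ := a _ _ _ e
  obtain ⟨s1, c2, e⟩ := b _ _ _ _ e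
  obtain ⟨V, I, y, e, X⟩ := x2_ok e
  exact ⟨(f g _ _ _ _ _ _ _ _ _ h e).1, fun ρ s _ =>
    (f g _ _ _ _ _ _ _ _ _ h e).2 ρ s (X D ρ _ C s)⟩

theorem ux0_ok : Ux ux0 := fun _ _ _ e => ⟨_, _, e⟩
theorem ux1_ok : Ux ux1 := fun _ _ _ e => ⟨_, _, e⟩
theorem rs0_ok : Us rs0 := fun _ _ _ _ e => ⟨_, _, e⟩
theorem rs1_ok : Us rs1 := by
  intro n c s k e
  unfold rs1 rs2 at e
  generalize Nat.ble _ _ = b at e
  cases b
  · exact ⟨_, _, e⟩
  · rcases nz_t e with e | e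
    exacts [tl_t e.2, ⟨_, _, e.2⟩]

theorem fn0_ok : Fn D fn0 := by
  intro g nx M n c s k V I h _ e
  unfold fn0 km at e
  generalize q : cfb _ _ = y at e
  cases y with
  | zero => cases e
  | succ y =>
    refine ⟨⟨_, _, e⟩, fun ρ s X => ?_⟩
    rcases X with rfl | ⟨S, T, a, b, d, -⟩
    · exact absurd ((by decide +kernel : cfb (Nat.shiftRight 0 64) (Nat.land 0 127) = 0).symm.trans q)
        (by omega)
    · exact no_cf a b d (cfb_ok (q ▸ y.succ_ne_zero))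

theorem Br.ext {S U : Set D.X} {A t : ℕ} {x : D.X} (h : Br D S A) (hx : x ∈ S) (s : S ⊆ U)
    (i : ∀ y ∈ U, D.I y) (c : Cn D.K (some '' U)) (e : ∃ y ∈ U, D.G.Adj y (D.b t)) :
    Br D U (Nat.lor A (bt t)) := by
  refine ⟨i, c, Or.inl fun a p q => ?_⟩
  rcases h.att with k | ⟨rfl, -⟩
  · rcases tbo.1 q with q | q
    · obtain ⟨y, u, v⟩ := k a p q
      exact ⟨y, s u, v⟩
    · rwa [tb_bt.1 q]
  · cases hx

theorem fn1_ok : Fn D fn1 := by
  intro g nx M n c s k V I h o e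
  refine ⟨(o _ _ _ _ _ _ e).1, fun ρ s X => (o _ _ _ _ _ _ e).2 ρ (s.set ?_) trivial⟩
  have n7 := s.n7
  have n30 := s.n30
  have kl : ∀ q, (kil h).testBit q = true → q < 31 := fun q e => by have := (kil_ok e).1; omega
  rcases X with rfl | ⟨S, T, a, b, d, v, i⟩
  · have : gr M I (kil 0) = 0 := Nat.eq_of_testBit_eq fun q => by
      rw [Nat.zero_testBit, Bool.eq_false_iff]
      intro e
      rcases tbo.1 e with e | e
      · simp [kil_zero] at e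
      · obtain ⟨-, j, p, -⟩ := gat_lo kl (tba.1 e).1
        simp [kil_zero] at p
    rw [this]
    simpa [rs] using s.ms
  refine s.ms.rs (lt_of fun q e => ?_) s.n31 fun t e => ⟨(v t e).1,
    RS.sh 2 rfl (by omega) s.n31 fun j p => ?_⟩
  · have e : (gr M I (kil h)).testBit (q - 64) = true := (tbl.1 e).2
    rcases tbo.1 e with k | k
    · have := kl _ k; omega
    · have := i _ (tba.1 k).2; omega
  · rcases tbo.1 p with p | p
    · obtain ⟨p1, p2⟩ := kil_ok p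
      exact ⟨by omega, fun y => no_cf (a.ext (v t e).2 subset_rfl a.int a.cn
        ⟨_, (v t e).2, s.bd j p1 ▸ y⟩) b d p2⟩
    · obtain ⟨i1, i2, i3⟩ := i j (tba.1 p).2
      obtain ⟨-, u, p, q⟩ := s.ms.gat kl (tba.1 p).1
      obtain ⟨p1, p2⟩ := kil_ok p
      refine ⟨i2, fun y => no_cf (a.ext (U := insert (ρ j) S) (v t e).2 (Set.subset_insert _ _)
        ?_ ?_ ⟨_, Or.inl rfl, s.bd u p1 ▸ q⟩) b ?_ p2⟩
      · rintro _ (rfl | w)
        exacts [s.int j i1 i2, a.int _ w]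
      · rw [Set.image_insert_eq]
        exact Cn.ins a.cn ⟨_, (v t e).2, rfl⟩ (D.kI _ _ (a.int _ (v t e).2) y)
      · rintro _ (rfl | w)
        exacts [i3, d _ w]

theorem atom_of {d : ℕ} (h : D.holds d) : D.atom (Nat.land d 15) (pa d) (pb d) (pk d) := by
  have m : ∀ x k, Nat.land x (2 ^ k - 1) = x % 2 ^ k := Nat.and_two_pow_sub_one_eq_mod
  have r : ∀ x k, Nat.shiftRight x k = x / 2 ^ k := Nat.shiftRight_eq_div_pow
  rw [show Nat.land d 15 = d % 16 from m d 4, show pk d = d / 262144 from r d 18,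
    show pa d = d / 16 % 128 from (m _ 7).trans (by rw [r]; rfl),
    show pb d = d / 2048 % 128 from (m _ 7).trans (by rw [r]; rfl)]
  exact h

theorem ltg_ok (C : Cx g D) (d : ℕ) : ltg g d = 0 ∨ (ltg g d ≤ 15 ∧ D.atom (ltg g d)
    (pa (g.A (lat g d))) (pb (g.A (lat g d))) (pk (g.A (lat g d)))) := by
  rw [ltg, Nat.mul_eq, mul_comm]
  refine one_mul_tb.imp_right fun ⟨a, b⟩ => ?_
  rw [Nat.mul_eq] at b
  rw [b]
  exact ⟨Nat.and_le_right, atom_of (C.hy _ (by rwa [tb_sr] at a))⟩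

theorem slA_ok (t : ℕ) : Ha D t (slA t).f := by
  unfold slA
  split
  exacts [aC_ok, aD_ok, aB_ok, aW_ok, aN_ok, aR_ok, aV_ok, aM_ok, aF_ok,
    fun _ _ _ _ _ _ _ _ _ _ _ _ _ e => by cases e]

theorem hA_ok {rx : RX} (r : Rx rx) : Hh D (hA rx) := by
  intro g nx M n C h c s k e
  change (slA (ltg g (Nat.mod c g.m))).f rx g nx M n _ _ s k = true at e
  rcases ltg_ok C (Nat.mod c g.m) with q | q
  · rw [q] at e; cases e
  · exact slA_ok _ _ _ _ _ _ _ r C h q.2 _ _ _ e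

theorem hP_ok {rx : RX} (r : Rx rx) : Hh D (hP rx) := by
  intro g nx M n C h c s k e
  obtain ⟨u, c1, a, b, e⟩ := r _ _ _ e
  obtain ⟨v, c2, p, q, e⟩ := rx1_ok _ _ _ e
  obtain ⟨y, e⟩ := nz_f e
  obtain ⟨t, y⟩ := ex_bit y
  obtain rfl := tb_bt.1 (tba.1 y).1
  refine (Sn.mv C h b _ _ (Sn.d3 C h b q)).mono (fun A ρ s _ => A ρ s
    ⟨fun j e => tb_bt.1 e ▸ q, fun j e => tb_bt.1 e ▸ q, fun p1 q1 => ?_⟩) _ _ _ e
  have p0 : ρ u ≠ ρ t := (s.ms.fld 1 rfl (by omega) (tba.1 y).2).2.2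
  have p1 := p1 _ (tb_bt.2 rfl)
  have q1 := q1 _ (tb_bt.2 rfl)
  obtain ⟨x, y, h1, h2, h3⟩ := D.d3 _ _ (s.int u a b) (s.int t p q)
  rcases h1 with rfl | h1 <;> rcases h2 with rfl | h2 <;> rcases h3 with h3 | h3
  exacts [(p0 h3).elim, (p1 h3).elim, (p1 (h3 ▸ h2)).elim, (q1 _ h2 h3).elim, (p1 (h3 ▸ h1)).elim,
    (q1 _ h1 h3).elim, (q1 _ h1 (h3 ▸ h2)).elim, ⟨x, y, h1, h2, h3⟩]

theorem hZ_ok {rx : RX} (r : Rx rx) : Hh D (hZ rx) := by
  intro g nx M n C h c s k e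
  obtain ⟨y, e⟩ := nz_f e
  obtain ⟨u, c1, a, b, e⟩ := r _ _ _ e
  refine (Sn.mv C h b _ _ Sn.dn).mono (fun A ρ s _ => A ρ s ⟨s.zl, by simp, fun p _ => ?_⟩) _ _ _ e
  obtain ⟨t, t1, t2⟩ := s.dom y _ (s.int u a b)
  exact p t t1 t2

theorem St.mod (s : St D z M n ρ) (c : ℕ) : Nat.mod c n < n :=
  Nat.mod_lt _ (by have := s.n7; omega)

theorem hL_ok : Hh D hL := fun _ _ _ _ _ h _ _ _ e =>
  (h _ _ _).mono (fun A ρ s _ => A ρ (s.set (s.ms.cl (s.mod _) s.n31)) trivial) _ _ _ e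

theorem hE_ok : Hh D hE := by
  intro g nx M n C h c s k e
  obtain ⟨x, c1, -, a, e⟩ := rx1_ok _ _ _ e
  obtain ⟨y, c2, -, b, e⟩ := rx1_ok _ _ _ e
  refine ((h _ _ _).seq (h _ _ _)).mono (fun A ρ s _ => ?_) _ _ _ e
  by_cases q : ρ x = ρ y
  · exact A.1 ρ (s.set (s.ms.rc (q ▸ s.ms.row x) b s.n31)) trivial
  · exact A.2 ρ (s.set (s.ms.rc (RS.one 1 rfl (by omega) s.n31 b q) a s.n31)) trivial

theorem hC_ok : Hh D hC := by
  intro g nx M n C h c s k e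
  refine ((h _ _ _).seq (h _ _ _)).mono (fun A ρ s _ => ?_) _ _ _ e
  by_cases q : D.G.Adj (ρ (Nat.mod c n)) (ρ (Nat.mod (Nat.div c n) n))
  · exact A.1 ρ (s.set (s.ms.edge (s.mod _) (s.mod _) s.n31 q)) trivial
  · exact A.2 ρ (s.set (s.ms.rc (RS.one 2 rfl (by omega) s.n31 (s.mod _) q) (s.mod _) s.n31))
      trivial

theorem hO_ok : Hh D hO := by
  intro g nx M n C h c s k e
  obtain ⟨y, e⟩ := nz_f e
  obtain ⟨p, y⟩ := ex_bit y
  rw [tba, tba, tb_sr, tb_cE] at y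
  exact ⟨⟨_, _, e⟩, fun ρ s _ => (s.ms (p / 128) 2 (p % 128) (by omega) y.2.2.2
    (by rw [← y.2.1]; congr 1; omega)).2.2 (s.ms (p / 128) 0 (p % 128) (by omega) y.2.2.2
    (by rw [← y.1]; congr 1; omega)).2.2⟩

end Pool.Agent.Lib.MP_ad48ef_co.Dsk
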