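import Pool.Agent.Lib.MP_ad48ef_co.DskSem

/-!
# Soundness of the branching rules of the disk checker
-/

namespace Pool.Agent.Lib.MP_ad48ef_co.Dsk

variable {D : Disk} {ρ : ℕ → D.X} {n M R z : ℕ} {g : G} {nx : PF}

theorem RS.ne {w : D.X} (h : RS D ρ n R w) {t : ℕ} (ht : t < 32)
    (e : (Nat.shiftRight R 32).testBit t = true) : w ≠ ρ t :=
  (h 1 t ht (by rwa [tb_sr] at e)).2.2

theorem St.split (h : St D z M n ρ) (S : ℕ) {B : ℕ} {v w : D.X} (e : D.G.Adj v w)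
    (hB : ∀ t, t < 32 → B.testBit t = true → w ≠ ρ t) :
    (D.I w ∧ ∀ t, (Nat.land S (Dsk.im n)).testBit t = true → t < n ∧ w ≠ ρ t) ∨
      ∃ t, t < n ∧ (dif (Nat.lor 127 (Nat.land S (Dsk.im n))) B).testBit t = true ∧ w = ρ t := by
  have := h.n7
  have := h.n30
  by_cases c : ∃ t, (Nat.lor 127 (Nat.land S (Dsk.im n))).testBit t = true ∧ w = ρ t
  · obtain ⟨t, a, b⟩ := c
    have : t < n := (tbo.1 a).elim (fun k => by have := tb127.1 k; omega) fun k => (h.im k).2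
    exact Or.inr ⟨t, this, tb_dif.2 ⟨a, Bool.eq_false_iff.2 fun k => hB t (by omega) k b⟩, b⟩
  · refine Or.inl ⟨(D.cov _ _ e).resolve_right ?_, fun t k =>
      ⟨(h.im k).2, fun b => c ⟨t, tbo.2 (Or.inr k), b⟩⟩⟩
    rintro ⟨i, a, b⟩
    exact c ⟨i, tbo.2 (Or.inl (tb127.2 a)), by rw [h.bd i a, b]⟩

theorem Sn.cn (C : Cx g D) (h : Ok D g nx) (x M n u v : ℕ) : Sn (cn g nx x M n u v)
    (No D g.z M n fun ρ => u < n ∧ v < n ∧ ∃ w, D.G.Adj (ρ u) w ∧ D.G.Adj w (ρ v)) := by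
  have hR : ∀ ρ w, St D g.z M n ρ → u < n → v < n → D.G.Adj (ρ u) w → D.G.Adj w (ρ v) →
      RS D ρ n (Nat.lor (nb M u) (nb M v)) w := fun ρ w s a b c d =>
    (s.ms.nb a s.n31 c.symm).or (s.ms.nb b s.n31 d)
  have L := Sn.lp1 (f := cnO nx x M n u v (Nat.lor (nb M u) (nb M v)))
    (Q := fun t => ∀ ρ, St D g.z M n ρ → u < n → v < n → t < n → D.G.Adj (ρ u) (ρ t) →
      D.G.Adj (ρ t) (ρ v) → False) fun p => (h _ _ _).mono fun k ρ s a b c d e =>
    k ρ (s.set ((s.ms.rc (hR ρ _ s a b d e) c s.n31).rs ((s.ms.nb c s.n31 d).lt s.n31) s.n31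
      fun y hy => by
        rcases tbo.1 hy with hy | hy <;> obtain rfl := tb_bt.1 hy
        exacts [⟨a, s.ms.nb c s.n31 d⟩, ⟨b, s.ms.nb c s.n31 e.symm⟩])) trivial
  intro c s k e
  unfold Dsk.cn cn2 at e
  generalize hy : Nat.land _ g.r7 = y at e
  cases y with
  | zero =>
    refine Sn.dl (fun S => ((Sn.nw C (P := fun _ => True) fun M => h x M _).seq (L _)).mono ?_)
      c s k e
    rintro ⟨A, B⟩ ρ s ⟨a, b, w, c, d⟩
    have r := hR ρ w s a b c d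
    rcases s.split S c fun t => r.ne with ⟨p, q⟩ | ⟨t, p, q, rfl⟩
    · exact A ρ w s p (r.or (RS.sh 1 rfl (by omega) s.n31 q)) trivial
    · exact B t q ρ s a b p c d
  | succ y =>
    refine (L _).mono ?_ c s k e
    rintro B ρ s ⟨a, b, w, c, d⟩
    have r := hR ρ w s a b c d
    obtain ⟨t, ht⟩ := ex_bit (x := Nat.land _ g.r7) (by rw [hy]; simp)
    obtain ⟨t1, t2⟩ := C.r7 t (tba.1 ht).2
    rcases s.split 0 c fun t => r.ne with ⟨p, -⟩ | ⟨t, p, q, rfl⟩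
    · exact t2 w p (s.bd t t1 ▸ (r 0 t (by omega) (by simpa using (tba.1 ht).1)).2.2)
    · rw [show Nat.land 0 (im n) = 0 from Nat.zero_and _] at q
      exact B t q ρ s a b p c d

theorem lo_aux (p : ℕ) : ∃ k, (p + 1).testBit k = true ∧ Nat.xor (p + 1) p + 1 = 2 ^ (k + 1) := by
  induction p using Nat.strong_induction_on with
  | _ p ih =>
    have d : Nat.xor (p + 1) p / 2 = Nat.xor ((p + 1) / 2) (p / 2) := Nat.xor_div_two
    have m : Nat.xor (p + 1) p % 2 = 1 := Nat.xor_mod_two_eq_one.2 (by omega)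
    by_cases c : p % 2 = 0
    · rw [show (p + 1) / 2 = p / 2 by omega, show Nat.xor (p / 2) (p / 2) = 0 from
        Nat.xor_self _] at d
      exact ⟨0, by simp; omega, by omega⟩
    · obtain ⟨k, a, b⟩ := ih (p / 2) (by omega)
      rw [show (p + 1) / 2 = p / 2 + 1 by omega] at d
      refine ⟨k + 1, by rwa [Nat.testBit_add_one, show (p + 1) / 2 = p / 2 + 1 by omega], ?_⟩
      rw [pow_succ, ← b, ← d]
      omega

theorem lo_mem {p : ℕ} (h : ∀ t, (p + 1).testBit t = true → t < 31) :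
    (p + 1).testBit (lo p) = true := by
  obtain ⟨k, a, b⟩ := lo_aux p
  have e : Nat.xor (Nat.succ p) p = 2 ^ (k + 1) - 1 := by rw [← b]; rfl
  have := h k a
  rw [lo, e]
  convert a
  clear a b e
  revert k
  decide +kernel

theorem MS.cf (h : MS D ρ n M) {u e : ℕ} (hu : u < n) (he : e < n) (hn : n ≤ 31)
    (k : rel D 3 (ρ u) (ρ e)) : MS D ρ n (cf M u e) :=
  (h.rc ((RS.one 3 (by norm_num) (by omega) hn he k).or (RS.sh 2 rfl (by omega) hn fun _ a =>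
    ⟨(h.fld 0 rfl (by omega) a).2.1, fun c => k _ c (h.fld 0 rfl (by omega) a).2.2.symm⟩))
    hu hn).rc (RS.sh 2 rfl (by omega) hn fun _ a => ⟨(h.fld 0 rfl (by omega) a).2.1,
      fun c => k _ (h.fld 0 rfl (by omega) a).2.2 c.symm⟩) he hn

theorem Sn.mv (C : Cx g D) (h : Ok D g nx) {P : (ℕ → D.X) → Prop} {u : ℕ} (hu : u < n)
    (s1 s2 : ℕ) {fin : ℕ → F} (hf : ∀ M, Sn (fin M) (No D g.z M n P)) :
    Sn (mv g nx M n u s1 s2 fin) (No D g.z M n fun ρ => (∀ t, s1.testBit t = true → t < n) ∧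
      (∀ t, s2.testBit t = true → t < n) ∧ ((∀ t, s1.testBit t = true → ¬ D.G.Adj (ρ u) (ρ t)) →
        (∀ t, s2.testBit t = true → rel D 3 (ρ u) (ρ t)) → P ρ)) := by
  have L2 := Rup.q8_ind (f := p2S g nx n u fin) (fun nt : ℕ → ℕ → F => ∀ m M, Sn (nt m M)
    (No D g.z M n fun ρ => (∀ t, m.testBit t = true → t < n) ∧
      ((∀ t, m.testBit t = true → rel D 3 (ρ u) (ρ t)) → P ρ))) (fun nt ih m M => by
    cases m with
    | zero => exact (hf M).mono fun k ρ s a => k ρ s (a.2 (by simp))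
    | succ p =>
      refine Sn.esc ((h _ _ _).mono fun k ρ s _ => k ρ s trivial)
        (((Sn.cn C h _ M n u (lo p)).seq (ih (nm p) (cf M u (lo p)))).mono ?_)
      rintro ⟨A, B⟩ ρ s ⟨a, b⟩
      have l := a _ (lo_mem fun t e => by have := a t e; have := s.n30; omega)
      have r : rel D 3 (ρ u) (ρ (lo p)) := fun w c d => A ρ s ⟨hu, l, w, c, d⟩
      exact B ρ (s.set (s.ms.cf hu l s.n31 r)) ⟨fun t e => a t (tb_dif.1 e).1,
        fun k => b fun t e => (nm_tb e).elim (· ▸ r) (k t)⟩)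
    (fun _ _ _ _ _ => false) fun _ _ _ _ _ e => by cases e
  unfold Dsk.mv
  have hm : ∀ t, s1.testBit t = true → (dif s1 (fld M u 64)).testBit t = true ∨
      (fld M u 64).testBit t = true := fun t e => by
    rw [tb_dif]; cases (fld M u 64).testBit t <;> simp [e]
  have hs : ∀ t, (dif s1 (fld M u 64)).testBit t = true → s1.testBit t = true :=
    fun t e => (tb_dif.1 e).1
  generalize dif s1 (fld M u 64) = m0 at hm hs ⊢
  have L1 := Sn.lp (f := p1O nx M n u m0) (Q := fun m => No D g.z M n fun ρ =>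
    (∀ t, m0.testBit t = true → t < n) ∧ (∀ t, m.testBit t = true → m0.testBit t = true) ∧
    (∃ t, m.testBit t = true ∧ D.G.Adj (ρ u) (ρ t)) ∧
    ∀ t, m0.testBit t = true → m.testBit t = false → ¬ D.G.Adj (ρ u) (ρ t))
    (fun ρ _ a => by simpa using a.2.2.1) (fun p => (h _ _ _).mono fun A B ρ s ⟨a, b, c, d⟩ => by
      by_cases e : (p + 1).testBit (lo p) = true ∧ D.G.Adj (ρ u) (ρ (lo p))
      · have l := a _ (b _ e.1)
        refine A ρ (s.set ((s.ms.rc (s.ms.nb hu s.n31 e.2.symm) l s.n31).rc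
          ((s.ms.nb l s.n31 e.2).or (RS.sh 2 rfl (by omega) s.n31 fun j k => ?_)) hu s.n31)) trivial
        rw [tb_xor] at k
        cases q : (p + 1).testBit j
        · have : m0.testBit j = true := by simpa [q] using k
          exact ⟨a j this, d j this q⟩
        · simp [q, b j q] at k
      · obtain ⟨t, c1, c2⟩ := c
        refine B ρ s ⟨a, fun t k => b t (tb_dif.1 k).1,
          ⟨t, (nm_tb c1).resolve_left fun k => e (k ▸ ⟨c1, c2⟩), c2⟩, fun t k l => ?_⟩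
        cases q : (p + 1).testBit t
        · exact d t k q
        · rcases nm_tb q with r | r
          · exact fun y => e (r ▸ ⟨q, y⟩)
          · rw [l] at r; cases r) m0
  refine (L1.seq (L2 _ _)).mono ?_
  rintro ⟨A, B⟩ ρ s ⟨a, b, c⟩
  have r : ∀ t, m0.testBit t = true → t < n ∧ ¬ D.G.Adj (ρ u) (ρ t) := fun t e =>
    ⟨a t (hs t e), fun y => A ρ s ⟨fun t e => a t (hs t e), fun _ => id, ⟨t, e, y⟩,
      fun t k l => by rw [k] at l; cases l⟩⟩
  refine B ρ (s.set (s.ms.rc (RS.sh 2 rfl (by omega) s.n31 r) hu s.n31))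
    ⟨fun t e => b t (tb_dif.1 e).1, fun k => c (fun t e => (hm t e).elim (fun y => (r t y).2)
      fun y => (s.ms.fld 2 rfl (by omega) y).2.2) fun t e => ?_⟩
  cases q : (fld M u 96).testBit t
  · exact k t (tb_dif.2 ⟨e, q⟩)
  · exact (s.ms.fld 3 rfl (by omega) q).2.2

theorem Sn.dn (M : ℕ) : Sn (dn M) (No D z M n fun _ => False) :=
  fun c s _ e => ⟨⟨c, s, e⟩, fun _ _ => id⟩

theorem Sn.d3 (C : Cx g D) (h : Ok D g nx) {u v : ℕ} (hu : u < n) (hv : v < n) (M : ℕ) :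
    Sn (d3 g nx n u v M) (No D g.z M n fun ρ =>
      ∃ x y, D.G.Adj (ρ u) x ∧ D.G.Adj x y ∧ D.G.Adj y (ρ v)) := by
  refine Sn.esc ((h _ _ _).mono fun k ρ s _ => k ρ s trivial) (Sn.dl fun S =>
    ((Sn.nw C fun M1 => Sn.cn C h _ M1 (n + 1) n v).seq
      (Sn.lp1 (Q := fun t => No D g.z (edge M u t) n fun ρ =>
        t < n ∧ v < n ∧ ∃ w, D.G.Adj (ρ t) w ∧ D.G.Adj w (ρ v))
        (fun p => Sn.cn C h _ (edge M u (lo p)) n (lo p) v) _)).mono ?_)
  rintro ⟨A, B⟩ ρ s ⟨x, y, a, b, c⟩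
  have r := s.ms.nb hu s.n31 a.symm
  have f : ∀ t, (fld M v 96).testBit t = true → t < n ∧ x ≠ ρ t := fun t e =>
    ⟨(s.ms.fld 3 rfl (by omega) e).2.1, fun k =>
      (s.ms.fld 3 rfl (by omega) e).2.2 y c.symm (k ▸ b.symm)⟩
  rcases s.split S (B := Nat.lor (Nat.shiftRight (nb M u) 32) (fld M v 96)) a
    fun t l e => (tbo.1 e).elim (r.ne l) fun k => (f t k).2 with ⟨p, q⟩ | ⟨t, p, q, rfl⟩
  · refine A ρ x s p (r.or (RS.sh 1 rfl (by omega) s.n31 fun t e => (tbo.1 e).elim (q t) (f t)))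
      ⟨by omega, by omega, y, ?_, ?_⟩
    · rwa [Function.update_self]
    · rwa [Function.update_of_ne (by omega)]
  · exact B t q ρ (s.set (s.ms.edge hu p s.n31 a)) ⟨p, hv, y, b, c⟩

theorem pa_tb {d t : ℕ} (h : (pa d).testBit t = true) : t < 7 := tb127.1 (tba.1 h).2
theorem pb_tb {d t : ℕ} (h : (pb d).testBit t = true) : t < 7 := tb127.1 (tba.1 h).2

def Ha (D : Disk) (t : ℕ) (a : HA) : Prop := ∀ rx g nx M n d, Rx rx → Cx g D → Ok D g nx →
  D.atom t (pa d) (pb d) (pk d) → Sn (a rx g nx M n d) (No D g.z M n fun _ => True)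

theorem aB_ok : Ha D 5 aB := by
  intro rx g nx M n d hr C h H c s k e
  obtain ⟨u, c1, a, b, e⟩ := hr _ _ _ e
  refine (Sn.mv C h b _ _ Sn.dn).mono (fun A ρ s _ => A ρ s ⟨fun t e => ?_, fun t e => ?_,
    fun p q => ?_⟩) _ _ _ e
  · exact (pa_tb e).trans_le s.n7
  · exact (pb_tb e).trans_le s.n7
  · rcases H _ (s.int u a b) with ⟨t, t1, t2, t3⟩ | ⟨t, t1, t2, x, t3, t4⟩
    · exact p t t2 (s.bd t t1 ▸ t3)
    · exact q t t2 x t3 (s.bd t t1 ▸ t4)

theorem aN_ok : Ha D 7 aN := by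
  intro rx g nx M n d hr C h H c s k e
  obtain ⟨l, e⟩ := cb_f e
  have l : pa d ≤ 6 := Nat.le_of_ble_eq_true l
  obtain ⟨u, c1, a, b, e⟩ := hr _ _ _ e
  refine (Sn.mv C h b _ _ (Sn.d3 C h b (v := pa d) (by omega))).mono
    (fun A ρ s _ => A ρ s ⟨fun t e => ?_, fun t e => ?_, fun p q => ?_⟩) _ _ _ e
  · rcases tbo.1 e with e | e
    exacts [by have := tb_bt.1 e; omega, (pb_tb e).trans_le s.n7]
  · have := tb_bt.1 e; omega
  · have p1 := p _ (tbo.2 (Or.inl (tb_bt.2 rfl)))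
    have q1 := q _ (tb_bt.2 rfl)
    rcases H _ (s.int u a b) with ⟨t, t1, t2, t3⟩ | ⟨x, y, h1, h2, h3⟩
    · exact (p t (tbo.2 (Or.inr t2)) (s.bd t t1 ▸ t3)).elim
    rw [← s.bd _ (by omega)] at h3
    rcases h1 with rfl | h1 <;> rcases h2 with rfl | h2
    exacts [(p1 h3).elim, (q1 _ h2 h3).elim, (q1 _ h1 h3).elim, ⟨x, y, h1, h2, h3⟩]

theorem rdX_t {r j X c : ℕ} {k : K} (h : rdX r j k X c = true) : ∃ (l : List ℕ) (Y c' : ℕ),
    l.length = j ∧ (∀ t, Y.testBit t = true → X.testBit t = true ∨ t ∈ l) ∧ k Y c' = true := by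
  induction j generalizing X c with
  | zero => exact ⟨[], X, c, rfl, fun _ => Or.inl, h⟩
  | succ j ih =>
    obtain ⟨l, Y, c', a, b, e⟩ := ih h
    refine ⟨(7 + Nat.mod c r) :: l, Y, c', by simp [a], fun t y => ?_, e⟩
    rcases b t y with y | y
    · rcases tbo.1 y with y | y
      · exact Or.inl y
      · have a := (tbl.1 y).1
        have b := (tb_p (k := 7)).1 (tbl.1 y).2
        exact Or.inr (List.mem_cons.2 (Or.inl (by omega)))
    · exact Or.inr (List.mem_cons_of_mem _ y)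

theorem aW_ok : Ha D 6 aW := by
  intro rx g nx M n d hr C h H c s k e
  obtain ⟨l, Y, c1, l1, l2, e⟩ := rdX_t e
  have l3 : l.length ≤ pk d := by
    rw [l1]
    exact Nat.le_of_lt_succ (Nat.mod_lt _ (Nat.succ_pos _))
  have hX : ∀ ρ, St D g.z M n ρ → ∀ t, (Nat.land Y (im n)).testBit t = true →
    7 ≤ t ∧ t < n ∧ t ∈ l := fun ρ s t e => ⟨(s.im e).1, (s.im e).2,
      (l2 t (tba.1 e).1).resolve_left (by simp)⟩
  generalize Nat.land Y (im n) = X at e hX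
  refine Sn.dl (fun S => ((Sn.nw C (P := fun _ => True) fun M => h _ M _).seq (Sn.lp1
    (Q := fun t => No D g.z (rc M (Nat.shiftLeft (@Bool.rec (fun _ => ℕ) X (Nat.lor (pa d) X)
      (Nat.ble 7 t)) 64) t) n fun _ => True) (fun p => h _ _ _) _)).mono ?_) _ _ _ e
  rintro ⟨A, B⟩ ρ s -
  have n7 := s.n7
  have n30 := s.n30
  have hY : ∀ t, (Nat.lor (pa d) X).testBit t = true → t < n := fun t e =>
    (tbo.1 e).elim (fun k => by have := pa_tb k; omega) fun k => (hX ρ s t k).2.1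
  have m : ∀ t, X.testBit t = true → ρ t ∈ (l.filter fun t => X.testBit t).map ρ := fun t e =>
    List.mem_map.2 ⟨t, List.mem_filter.2 ⟨(hX ρ s t e).2.2, e⟩, rfl⟩
  rcases H ((l.filter fun t => X.testBit t).map ρ)
    (by rw [List.length_map]; exact (List.length_filter_le _ _).trans l3) (fun x e => by
      obtain ⟨t, a, rfl⟩ := List.mem_map.1 e
      have := hX ρ s t (List.mem_filter.1 a).2
      exact s.int t this.1 this.2.1) with ⟨w, w1, w2, w3⟩ | ⟨u, u1, u2, u3⟩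
  · have r : ∀ t, (Nat.lor (pa d) X).testBit t = true → t < n ∧ ¬ D.G.Adj w (ρ t) := fun t e =>
      ⟨hY t e, (tbo.1 e).elim (fun k y => w2 ⟨t, pa_tb k, k, s.bd t (pa_tb k) ▸ y⟩)
        fun k => w3 _ (m t k)⟩
    have q : ∀ t, (gat M (Nat.lor (pa d) X)).testBit t = true → t < n ∧ w ≠ ρ t := fun t e => by
      obtain ⟨a, j, b, c⟩ := s.ms.gat (fun q k => by have := hY q k; omega) e
      exact ⟨a, fun y => (r j b).2 (y ▸ c)⟩
    by_cases c : ∃ t, (Nat.land S (im n)).testBit t = true ∧ w = ρ t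
    · obtain ⟨t, a, rfl⟩ := c
      refine B t (tbo.2 (Or.inl (tb_dif.2 ⟨a, Bool.eq_false_iff.2 fun k => (q t k).2 rfl⟩))) ρ
        (s.set (s.ms.rc ?_ (s.im a).2 s.n31)) trivial
      rw [Nat.ble_eq_true_of_le (s.im a).1]
      exact RS.sh 2 rfl (by omega) s.n31 r
    · exact A ρ w s w1 ((RS.sh 2 rfl (by omega) s.n31 r).or (RS.sh 1 rfl (by omega) s.n31
        fun t e => (tbo.1 e).elim (q t) fun k => ⟨(s.im k).2, fun y => c ⟨t, k, y⟩⟩)) trivial
  · rw [← s.bd u u1] at u3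
    refine B u (tbo.2 (Or.inr (tb_dif.2 ⟨u2, Bool.eq_false_iff.2 fun k => ?_⟩))) ρ
      (s.set (s.ms.rc ?_ (by omega) s.n31)) trivial
    · obtain ⟨-, j, b, c⟩ := s.ms.gat (fun q k => by have := hX ρ s q k; omega) k
      exact u3 _ (m j b) c
    · rw [show Nat.ble 7 u = false from Bool.eq_false_iff.2 fun k => by
        have := Nat.le_of_ble_eq_true k; omega]
      exact RS.sh 2 rfl (by omega) s.n31 fun t e => ⟨(hX ρ s t e).2.1, u3 _ (m t e)⟩

theorem St.nb (s : St D z M n ρ) {a : ℕ} {x : D.X} (ha : a ≤ 6) (e : D.G.Adj x (D.b a)) :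
    RS D ρ n (nb M a) x :=
  s.ms.nb (by have := s.n7; omega) s.n31 (by rwa [s.bd a (by omega)])

theorem aC_ok : Ha D 3 aC := by
  intro rx g nx M n d hr C h H c s k e
  obtain ⟨a, e⟩ := cb_f e
  obtain ⟨b, e⟩ := cb_f e
  have a : pa d ≤ 6 := Nat.le_of_ble_eq_true a
  have b : pb d ≤ 6 := Nat.le_of_ble_eq_true b
  refine (Sn.nw C (P := fun _ => True) fun M => h _ M _).mono (fun A ρ s _ => ?_) _ _ _ e
  obtain ⟨x, x1, x2, x3⟩ := H
  exact A ρ x s x1 ((s.nb a x2.symm).or (s.nb b x3)) trivial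

theorem aD_ok : Ha D 4 aD := by
  intro rx g nx M n d hr C h H c s k e
  obtain ⟨a, e⟩ := cb_f e
  obtain ⟨b, e⟩ := cb_f e
  have a : pa d ≤ 6 := Nat.le_of_ble_eq_true a
  have b : pb d ≤ 6 := Nat.le_of_ble_eq_true b
  obtain ⟨x, y, x1, y1, h1, h2, h3⟩ := H
  refine (Sn.nw C (P := fun ρ => ρ n = x) (f := fun M1 n1 =>
    nw g (nx 7) M1 n1 (Nat.lor (nb M1 n) (nb M1 (pb d)))) fun M1 =>
    (Sn.nw C (P := fun _ => True) fun M => h _ M _).mono fun A ρ s p => ?_).mono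
    (fun A ρ s _ => ?_) _ _ _ e
  · exact A ρ y s y1 ((s.ms.nb (by omega) s.n31 (by rw [p]; exact h2.symm)).or (s.nb b h3)) trivial
  · exact A ρ x s x1 (s.nb a h1.symm) (Function.update_self ..)

theorem tb_ga2 {N S : ℕ} (hS : ∀ q, S.testBit q = true → q < 31) {t : ℕ} (ht : t < 31) :
    ((ga2 N S).testBit t = true → ∃ j, S.testBit j = true ∧ N.testBit (128 * t + j) = true) ∧
    ((Nat.shiftRight (ga2 N S) 32).testBit t = false → ∀ j, S.testBit j = true →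
      N.testBit (128 * t + 32 + j) = true) := by
  have l : S < 2 ^ 32 := lt_of fun q e => by have := hS q e; omega
  have s : ∀ q, (Nat.mul S 0x100000001).testBit q = true → S.testBit q = true ∨
      (32 ≤ q ∧ S.testBit (q - 32) = true) := fun q e =>
    (tb_mul2 (a := 0) (b := 32) l (by omega) e).imp_left fun k => k.2
  have G : Gd (Nat.mul S 0x100000001) := fun q e => by
    rcases s q e with k | k
    · have := hS _ k; omega
    · have := hS _ k.2; omega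
  refine ⟨fun e => ?_, fun e j k => ?_⟩
  · obtain ⟨-, -, j, a, b, c⟩ := (tb_gat (f := 0) (i := t) G (by omega)).1
      (by rw [Nat.mul_zero, Nat.zero_add]; exact e)
    rw [tb_xor, show cD.testBit _ = false from Bool.eq_false_iff.2 fun k => by
      have := tb_cD.1 k; omega] at c
    rcases s _ b with k | k
    · exact ⟨j, by simpa using k, by simpa using c⟩
    · omega
  · by_contra c
    have := hS j k
    rw [tb_sr, Bool.eq_false_iff] at e
    refine e ((tb_gat (f := 1) G (by omega)).2 ⟨by omega, ht, j, this, ?_, ?_⟩)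
    · rw [Nat.mul_eq, show 0x100000001 = 2 ^ 32 + 1 from rfl, mul_add, mul_one, mul_comm,
        Nat.testBit_two_pow_mul_add _ l, if_neg (by omega)]
      rwa [show 32 * 1 + j - 32 = j by omega]
    · rw [tb_xor, tb_cD.2 (by omega)]
      simpa using c

theorem cnt (X k : ℕ) : ∃ l : List ℕ, l.Nodup ∧ (∀ t ∈ l, X.testBit t = true ∧
    (@Nat.rec (fun _ => ℕ) X (fun _ Y => Nat.land Y (Nat.sub Y 1)) k).testBit t = false) ∧
    (∀ t, (@Nat.rec (fun _ => ℕ) X (fun _ Y => Nat.land Y (Nat.sub Y 1)) k).testBit t = true →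
      X.testBit t = true) ∧
    (@Nat.rec (fun _ => ℕ) X (fun _ Y => Nat.land Y (Nat.sub Y 1)) k ≠ 0 → l.length = k) := by
  induction k with
  | zero => exact ⟨[], by simp, by simp, fun _ => id, fun _ => rfl⟩
  | succ k ih =>
    obtain ⟨l, a, b, c, d⟩ := ih
    dsimp only
    generalize @Nat.rec (fun _ => ℕ) X (fun _ Y => Nat.land Y (Nat.sub Y 1)) k = Y at *
    by_cases y : Y = 0
    · exact ⟨[], by simp, by simp, fun t e => c t (tba.1 e).1, fun e => by simp [y] at e⟩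
    have : ∃ t, Y.testBit t = true ∧ (Nat.land Y (Nat.sub Y 1)).testBit t = false := by
      by_contra q
      have : Y ≤ Nat.land Y (Nat.sub Y 1) := Nat.le_of_testBit fun t e => by
        by_contra r
        exact q ⟨t, e, by simpa using r⟩
      have : Nat.land Y (Nat.sub Y 1) ≤ Y - 1 := Nat.and_le_right
      omega
    obtain ⟨t, t1, t2⟩ := this
    refine ⟨t :: l, List.nodup_cons.2 ⟨fun m => by simp [(b t m).2] at t1, a⟩, fun u m => ?_,
      fun t e => c t (tba.1 e).1, fun _ => by simp [d y]⟩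
    rcases List.mem_cons.1 m with rfl | m
    · exact ⟨c _ t1, t2⟩
    · exact ⟨(b u m).1, by rw [tb_and, (b u m).2]; rfl⟩

theorem aR_ok : Ha D 8 aR := by
  intro rx g nx M n d hr C h H c s k e
  obtain ⟨S, c1, e⟩ := tl_t e
  obtain ⟨a, e⟩ := cb_f e
  obtain ⟨e1, e⟩ := nz_0 e
  obtain ⟨e2, e⟩ := nz_0 e
  obtain ⟨e3, e⟩ := nz_f e
  have a : pa d ≤ 6 := Nat.le_of_ble_eq_true a
  refine ⟨⟨_, _, e⟩, fun ρ s _ => ?_⟩
  have hX := fun t => s.im (S := S) (t := t)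
  have n30 := s.n30
  generalize Nat.land S (im n) = X at *
  obtain ⟨l, l1, l2, l3, l4⟩ := cnt X (pk d)
  obtain ⟨t, ht⟩ := ex_bit e3
  have m : ∀ u ∈ t :: l, X.testBit u = true := fun u m => by
    rcases List.mem_cons.1 m with rfl | m
    exacts [l3 _ ht, (l2 u m).1]
  have := H ((t :: l).map ρ) ((List.nodup_cons.2 ⟨fun m =>
    Bool.false_ne_true ((l2 t m).2.symm.trans ht), l1⟩).map_on
    fun x p y q r => ?_) fun x e => ?_
  · simp [l4 e3] at this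
  · have b := hX x (m x p)
    have c := hX y (m y q)
    have := (tb_ga2 (N := Nat.lor M cI) (fun q e => by have := hX q e; omega) (t := x)
      (by omega)).2 (Bool.eq_false_iff.2 fun k => zero_of e2 (tba.2 ⟨m x p, k⟩)) y (m y q)
    rcases tbo.1 this with k | k
    · exact absurd r (s.ms x 1 y (by omega) (by omega) k).2.2
    · obtain ⟨i, k⟩ := tb_cI k
      omega
  · obtain ⟨u, p, rfl⟩ := List.mem_map.1 e
    refine ⟨s.int u (hX u (m u p)).1 (hX u (m u p)).2, ?_⟩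
    cases q : (fld M (pa d) 0).testBit u
    · exact (zero_of e1 (tb_dif.2 ⟨m u p, q⟩)).elim
    · rw [← s.bd (pa d) (by omega)]
      exact (s.ms.fld 0 rfl (by omega) q).2.2.symm

theorem aM_ok : Ha D 13 aM := by
  intro rx g nx M n d hr C h H c s k e
  obtain ⟨a, e⟩ := cb_f e
  obtain ⟨b, e⟩ := cb_f e
  have a : pa d ≤ 6 := Nat.le_of_ble_eq_true a
  have b : pb d ≤ 6 := Nat.le_of_ble_eq_true b
  have q : ∀ ρ, St D g.z M n ρ → ∀ p, p ≤ 6 → ∀ t, (Nat.land (fld M p 0) (im n)).testBit t = true →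
      t < n ∧ D.I (ρ t) ∧ D.G.Adj (ρ p) (ρ t) := fun ρ s p _ t e =>
    ⟨(s.im e).2, s.int t (s.im e).1 (s.im e).2, (s.ms.fld 0 rfl (by omega) (tba.1 e).1).2.2⟩
  have r : ∀ ρ, St D g.z M n ρ → ∀ x, D.I x → D.G.Adj (ρ (pa d)) x → ¬ D.G.Adj (ρ (pb d)) x :=
    fun ρ s x i p r => H ⟨x, i, by rwa [← s.bd _ (by omega)], by
      rw [← s.bd _ (by omega)]; exact r.symm⟩
  rcases nz_t e with ⟨-, e⟩ | ⟨y, e⟩
  · refine (h _ _ _).mono (fun A ρ s _ => A ρ (s.set ?_) trivial) _ _ _ e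
    have := s.n7
    exact (s.ms.rc (RS.sh 2 rfl (by omega) s.n31 fun t e => ⟨(q ρ s _ a t e).1,
      r ρ s _ (q ρ s _ a t e).2.1 (q ρ s _ a t e).2.2⟩) (by omega) s.n31).rc
      (RS.sh 2 rfl (by omega) s.n31 fun t e => ⟨(q ρ s _ b t e).1,
      fun k => r ρ s _ (q ρ s _ b t e).2.1 k (q ρ s _ b t e).2.2⟩) (by omega) s.n31
  · obtain ⟨t, ht⟩ := ex_bit y
    exact ⟨⟨_, _, e⟩, fun ρ s _ => r ρ s _ (q ρ s _ a t (tba.1 ht).1).2.1
      (q ρ s _ a t (tba.1 ht).1).2.2 (q ρ s _ b t (tba.1 ht).2).2.2⟩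

theorem Sn.aF2 (C : Cx g D) (h : Ok D g nx) (S N E B : ℕ) :
    Sn (aF2 g nx M n S (Nat.lor N (gat M S)) E B) (No D g.z M n fun ρ => ∃ w,
      (D.I w ∨ ∃ t, t < n ∧ B.testBit t = true ∧ w = ρ t) ∧
      (∀ t, E.testBit t = true → t < n ∧ w ≠ ρ t) ∧
      (∀ t, N.testBit t = true → t < n ∧ ¬ D.G.Adj w (ρ t)) ∧
      ∀ t, S.testBit t = true → t < n ∧ rel D 3 w (ρ t)) := by
  refine Sn.dl fun T => ((Sn.nw C (P := fun _ => True) fun M => h _ M _).seq (Sn.lp1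
    (Q := fun t => No D g.z (rs (rc M (Nat.lor (Nat.shiftLeft (Nat.lor N (gat M S)) 64)
      (Nat.shiftLeft S 96)) t) (Nat.shiftLeft (fld M t 0) 64) S) n fun _ => True)
    (fun p => h _ _ _) _)).mono ?_
  rintro ⟨A, Z⟩ ρ s ⟨w, w1, w2, w3, w4⟩
  have n30 := s.n30
  have y : ∀ t, (Nat.lor N (gat M S)).testBit t = true → t < n ∧ ¬ D.G.Adj w (ρ t) := fun t e =>
    (tbo.1 e).elim (w3 t) fun k => by
      obtain ⟨a, j, b, c⟩ := s.ms.gat (fun q k => by have := (w4 q k).1; omega) k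
      exact ⟨a, fun y => (w4 j b).2 _ y c⟩
  have r := (RS.sh 2 rfl (by omega) s.n31 y).or (RS.sh 3 rfl (by omega) s.n31 w4)
  have u : ∀ t, (Nat.lor E (gat M (Nat.lor N (gat M S)))).testBit t = true → t < n ∧ w ≠ ρ t :=
    fun t e => (tbo.1 e).elim (w2 t) fun k => by
      obtain ⟨a, j, b, c⟩ := s.ms.gat (fun q k => by have := (y q k).1; omega) k
      exact ⟨a, fun z => (y j b).2 (z ▸ c)⟩
  by_cases c : ∃ t, t < n ∧ (Nat.lor B (Nat.land T (im n))).testBit t = true ∧ w = ρ t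
  · obtain ⟨t, a, b, rfl⟩ := c
    have f : ∀ v, S.testBit v = true → RS D ρ n (Nat.shiftLeft (fld M t 0) 64) (ρ v) :=
      fun v e => RS.sh 2 rfl (by omega) s.n31 fun j k => ⟨(s.ms.fld 0 rfl (by omega) k).2.1,
        fun y => (w4 v e).2 _ (s.ms.fld 0 rfl (by omega) k).2.2 y.symm⟩
    refine Z t (tb_dif.2 ⟨b, Bool.eq_false_iff.2 fun k => (u t k).2 rfl⟩) ρ
      (s.set ((s.ms.rc r a s.n31).rs (lt_of fun q e => ?_) s.n31 fun v e =>
        ⟨(w4 v e).1, f v e⟩)) trivial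
    have := (tb_fld.1 (tbl.1 e).2).1
    omega
  · exact A ρ w s (w1.resolve_right fun ⟨t, a, b, k⟩ => c ⟨t, a, tbo.2 (Or.inl b), k⟩)
      (r.or (RS.sh 1 rfl (by omega) s.n31 fun t e => (tbo.1 e).elim (u t) fun k =>
        ⟨(s.im k).2, fun y => c ⟨t, (s.im k).2, tbo.2 (Or.inr k), y⟩⟩)) trivial

theorem aV_ok : Ha D 12 aV := by
  intro rx g nx M n d hr C h H
  refine (Sn.aF2 C h _ _ _ _).mono fun A ρ s _ => H fun w i => ?_
  by_contra c
  refine A ρ s ⟨w, Or.inl i, by simp, fun t e => ?_, fun t e => ?_⟩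
  · exact ⟨(pa_tb e).trans_le s.n7, fun y => c (Or.inl ⟨t, pa_tb e, e, s.bd t (pa_tb e) ▸ y⟩)⟩
  · exact ⟨(pb_tb e).trans_le s.n7, fun x y v =>
      c (Or.inr ⟨t, pb_tb e, e, x, y, s.bd t (pb_tb e) ▸ v⟩)⟩

theorem fs_ok (k x y z : ℕ) : ∃ a b c, (∀ t, (fs k x y z).testBit t = true ↔
    t = a ∨ t = b ∨ t = c) ∧ (∀ n, x < n → y < n → z < n → a < n ∧ b < n ∧ c < n) ∧
    ∀ (D : Disk) (ρ : ℕ → D.X), Wk D.G (ρ x) (ρ y) → Wk D.G (ρ x) (ρ z) →
      Lev D.G (k + 1) (ρ a) (ρ b) (ρ c) := by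
  match k with
  | 0 => exact ⟨x, x, x, fun t => tb_bt.trans (by simp), fun _ a _ _ => ⟨a, a, a⟩,
      fun _ _ _ _ => ⟨rfl, rfl⟩⟩
  | 1 => exact ⟨x, y, y, fun t => tbo.trans (by simp [tb_bt]), fun _ a b _ => ⟨a, b, b⟩,
      fun _ _ a _ => ⟨rfl, a⟩⟩
  | 2 => exact ⟨y, z, z, fun t => tbo.trans (by simp [tb_bt]), fun _ _ a b => ⟨a, b, b⟩,
      fun D ρ a b => ⟨rfl, _, a.symm, b⟩⟩
  | _ + 3 => exact ⟨x, y, z, fun t => tbo.trans (by rw [tbo, tb_bt, tb_bt, tb_bt]), fun _ a b c => ⟨a, b, c⟩,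
      fun _ _ a b => ⟨a, b⟩⟩

theorem dif_z {a b c t : ℕ} (h : Nat.lor (dif a b) c = 0 ∨ Nat.lor c (dif a b) = 0 ∨ dif a b = 0)
    (e : a.testBit t = true) : b.testBit t = true := by
  by_contra q
  have := tb_dif.2 ⟨e, Bool.eq_false_iff.2 q⟩
  rcases h with h | h | h
  exacts [zero_of h (tbo.2 (Or.inl this)), zero_of h (tbo.2 (Or.inr this)), zero_of h this]

theorem lor_z {a b : ℕ} (h : Nat.lor a b = 0) : a = 0 ∧ b = 0 := Nat.or_eq_zero_iff.1 h

theorem St.in (s : St D z M n ρ) {t : ℕ} (h : t < n) : D.In (ρ t) := by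
  by_cases c : t < 7
  · exact Or.inr ⟨t, c, s.bd t c⟩
  · exact Or.inl (s.int t (by omega) h)

theorem aF_ok : Ha D 14 aF := by
  intro rx g nx M n d hr C h H c s k e
  obtain ⟨e0, e⟩ := nz_0 e
  obtain ⟨e1, e2⟩ := lor_z e0
  refine (Sn.aF2 C h _ _ _ _).mono (fun A ρ s _ => ?_) _ _ _ e
  have n7 := s.n7
  have n30 := s.n30
  have m : ∀ c, Nat.mod c n < n := fun c => Nat.mod_lt _ (by omega)
  have hx := m c
  have hy := m (Nat.div c n)
  have hz := m (Nat.div (Nat.div c n) n)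
  generalize Nat.mod c n = x, Nat.mod (Nat.div c n) n = y, Nat.mod (Nat.div (Nat.div c n) n) n = z
    at *
  obtain ⟨a, b, c, f1, f2, f3⟩ := fs_ok (pk d) x y z
  obtain ⟨ha, hb, hc⟩ := f2 n hx hy hz
  have l : ∀ t, (fs (pk d) x y z).testBit t = true → t < n := fun t e => by
    rcases (f1 t).1 e with rfl | rfl | rfl <;> assumption
  have q : ∀ t, (Nat.lor (bt y) (bt z)).testBit t = true → ρ x = ρ t ∨ D.G.Adj (ρ x) (ρ t) :=
    fun t e => (tbo.1 (dif_z (c := 0) (Or.inr (Or.inr e1)) e)).imp (fun k => by rw [tb_bt.1 k])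
      fun k => (s.ms.fld 0 rfl (by omega) k).2.2
  have o : ∀ t, (fs (pk d) x y z).testBit t = true → ρ t = ρ a ∨ ρ t = ρ b ∨ ρ t = ρ c :=
    fun t e => by rcases (f1 t).1 e with rfl | rfl | rfl <;> simp
  obtain ⟨v, v0, v1, v2, v3⟩ := H (ρ a) (ρ b) (ρ c) (s.in ha) (s.in hb) (s.in hc)
    (f3 D ρ (q y (tbo.2 (Or.inl (tb_bt.2 rfl)))) (q z (tbo.2 (Or.inr (tb_bt.2 rfl)))))
    (fun t t7 e => s.bd t t7 ▸ o t (dif_z (Or.inl e2) e)) fun t t7 e => by
      rw [← s.bd t t7]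
      rcases tbo.1 (dif_z (Or.inr (Or.inl e2)) e) with k | k
      · exact (o t k).imp Or.inl (Or.imp Or.inl Or.inl)
      · obtain ⟨-, j, p, r⟩ := s.ms.gat (fun q k => by have := l q k; omega) k
        have w : ∀ y, ρ j = y → Wk D.G (ρ t) y := fun y e => Or.inr (e ▸ r)
        exact (o j p).imp (w _) (Or.imp (w _) (w _))
  have F : ∀ t, (fs (pk d) x y z).testBit t = true → ¬ D2 D.G v (ρ t) := fun t e => by
    rcases (f1 t).1 e with rfl | rfl | rfl <;> assumption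
  exact A ρ s ⟨v, v0.imp_right fun ⟨t, p, r⟩ => ⟨t, by omega, tb127.2 p, by rw [s.bd t p, r]⟩,
    fun t e => ⟨l t e, fun k => F t e ⟨v, Or.inl rfl, Or.inl k⟩⟩,
    fun t e => ⟨l t e, fun k => F t e ⟨v, Or.inl rfl, Or.inr k⟩⟩,
    fun t e => ⟨l t e, fun w p q => F t e ⟨w, Or.inr p, Or.inr q⟩⟩⟩

end Pool.Agent.Lib.MP_ad48ef_co.Dsk
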