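import Pool.Agent.Lib.MP_ad48ef_co.DskH

/-!
# Soundness of references and of minors in the disk checker
-/

namespace Pool.Agent.Lib.MP_ad48ef_co.Dsk

open Pool.Agent.Shared.Planar

variable {D : Disk} {ρ : ℕ → D.X} {n M z : ℕ} {g : G} {nx : PF}

structure Rv (M n z j Q P I : ℕ) (τ : ℕ → ℕ) : Prop where
  lo : ∀ i, i < 7 → τ i = i
  hi : ∀ i, 7 ≤ i → i < j → 7 ≤ τ i ∧ τ i < n
  q : ∀ a f i, f < 4 → i < 32 → Q.testBit (128 * a + 32 * f + i) = true →
    i < j ∧ M.testBit (128 * a + 32 * f + τ i) = true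
  p : ∀ a f i, f < 4 → i < 32 → P.testBit (128 * a + 32 * f + i) = true →
    a < j ∧ i < j ∧ M.testBit (128 * τ a + 32 * f + τ i) = true
  i : ∀ u, I.testBit u = true → ∃ i, i < j ∧ z.testBit i = true ∧ τ i = u

theorem rf_s {k : K3} {m j Q P I c : ℕ} : rf M n z k (m + 1) j Q P I c = rx1 n c fun t c1 =>
    rf M n z k m (j + 1) (Nat.lor Q (Nat.shiftLeft (Nat.land (Nat.shiftRight M t) cC) j))
      (Nat.lor P (Nat.shiftLeft (row Q t) (Nat.shiftLeft j 7)))
      (Nat.lor I (Nat.shiftLeft (Nat.land 1 (Nat.shiftRight z j)) t)) c1 := by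
  unfold rf
  rfl

theorem rf_ok {k : K3} (m : ℕ) : ∀ j Q P I c τ, 7 ≤ j → j + m ≤ 31 → Rv M n z j Q P I τ →
    rf M n z k m j Q P I c = true →
    ∃ τ Q P I c, Rv M n z (j + m) Q P I τ ∧ k P I c = true := by
  induction m with
  | zero => exact fun j Q P I c τ _ _ h e => ⟨τ, Q, P, I, c, h, e⟩
  | succ m ih =>
    intro j Q P I c τ a b h e
    rw [rf_s] at e
    obtain ⟨t, c1, t1, t2, e⟩ := rx1_ok _ _ _ e
    have u : ∀ i, i < j → Function.update τ j t i = τ i := fun i hi =>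
      Function.update_of_ne (by omega) _ _
    have v : Function.update τ j t j = t := Function.update_self ..
    rw [show j + (m + 1) = j + 1 + m by omega]
    refine ih (j + 1) _ _ _ c1 (Function.update τ j t) (by omega) (by omega) ⟨fun i hi => ?_,
      fun i p q => ?_, fun x f i hf hi y => ?_, fun x f i hf hi y => ?_, fun x y => ?_⟩ e
    · rw [u i (by omega), h.lo i hi]
    · by_cases w : i = j
      · rw [w, v]; exact ⟨t1, t2⟩
      · rw [u i (by omega)]; exact h.hi i p (by omega)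
    · rcases tbo.1 y with y | y
      · have := h.q x f i hf hi y
        rw [u i this.1]
        exact ⟨by omega, this.2⟩
      · rw [tbl, tba, tb_sr, tb_cC] at y
        obtain rfl : i = j := by omega
        rw [v]
        exact ⟨by omega, by rw [← y.2.1]; congr 1; omega⟩
    · rcases tbo.1 y with y | y
      · have := h.p x f i hf hi y
        rw [u i this.2.1, u x this.1]
        exact ⟨by omega, by omega, this.2.2⟩
      · rw [tbl, tb_row, sl7] at y
        obtain rfl : x = j := by omega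
        have := h.q t f i hf hi (by rw [← y.2.2]; congr 1; omega)
        rw [v, u i this.1]
        exact ⟨by omega, by omega, this.2⟩
    · rcases tbo.1 y with y | y
      · obtain ⟨i, p, q, r⟩ := h.i x y
        exact ⟨i, by omega, q, by rw [u i p, r]⟩
      · rw [tbl, tba, tb1, tb_sr] at y
        exact ⟨j, by omega, by rw [← y.2.2]; congr 1; omega, by rw [v]; omega⟩

theorem uk_le (r : ℕ) : uk r ≤ 15 := Nat.and_le_right

theorem uz_lt {r t : ℕ} (h : (uz r).testBit t = true) : t < 7 + uk r := by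
  have a : t < uw r := of_lt (by rw [uz, bt_eq]; exact Nat.mod_lt _ (by positivity)) h
  have b : Nat.land (Nat.shiftRight r 4) (ue r) ≤ ue r := Nat.and_le_right
  have c : ue r = (uk r + 15) / 2 ^ 4 := Nat.shiftRight_eq_div_pow _ _
  have := uk_le r
  have : uw r ≤ 1 * (7 + uk r) := Nat.mul_le_mul_right _ (by omega)
  omega

theorem hR2_ok (C : Cx g D) {r c s : ℕ} {k : K} (v : Val g.A g.ts r)
    (e : hR2 g M n r c s k = true) :
    (∃ c' s', k c' s' = true) ∧ No D g.z M n fun _ => True := by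
  have := uk_le r
  obtain ⟨τ, Q, P, I, c, h, e⟩ := rf_ok _ _ _ _ _ _ id le_rfl (by omega) ⟨fun _ _ => rfl,
    fun _ _ _ => by omega, fun a f i _ _ y => ⟨by have := tb_cQ (tba.1 y).2; omega, (tba.1 y).1⟩,
    fun a f i _ _ y => ⟨by have := tb_on.1 (tba.1 y).2; omega,
      by have := tb_cQ (tba.1 (tba.1 y).1).2; omega, (tba.1 (tba.1 y).1).1⟩,
    fun u y => ⟨u, tb127.1 (tba.1 y).2, (tba.1 y).1, rfl⟩⟩ e
  obtain ⟨e0, e⟩ := nz_0 e
  obtain ⟨e1, e⟩ := cb_f e
  refine ⟨⟨_, _, e⟩, fun ρ s _ => v D (fun i => ρ (τ i)) (fun j y => C.hy j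
    (dif_z (Or.inr (Or.inl e0)) y)) ⟨by omega, by omega, fun i hi => by rw [h.lo i hi, s.bd i hi],
    fun i a b => s.int _ (h.hi i a b).1 (h.hi i a b).2, fun a f i hf hi y => ?_,
    fun _ => uz_lt, fun y w hw => ?_⟩⟩
  · obtain ⟨p, q, r⟩ := h.p a f i hf hi (dif_z (Or.inl e0) y)
    refine ⟨p, q, (s.ms _ f _ hf ?_ r).2.2⟩
    have := s.n30
    by_cases c : i < 7
    · rw [h.lo i c]; omega
    · have := h.hi i (by omega) q; omega
  · rcases nz_t e1 with ⟨a, -⟩ | ⟨-, a⟩
    · exact (y a).elim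
    obtain ⟨a, b⟩ := nz_f a
    obtain ⟨t, t1, t2⟩ := s.dom a w hw
    obtain ⟨i, -, p, rfl⟩ := h.i t (dif_z (c := 0) (Or.inr (Or.inr (nz_0 b).1)) t1)
    exact ⟨i, p, t2⟩

theorem hR_ok : Hh D hR := by
  intro g nx M n C h c s k e
  obtain ⟨a, e⟩ := nz_f e
  exact hR2_ok C (C.ref (Nat.mod c g.nl) (Nat.mod_lt _ (by omega))) e

theorem hQ_ok : Hh D hQ := by
  intro g nx M n C h c s k e
  obtain ⟨a, e⟩ := nz_f e
  exact hR2_ok C (C.ref (g.nl - 1 - Nat.land c 31) (by omega)) e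

theorem chm_ok {m p : ℕ} (e : (chm m).testBit p = true) :
    ∃ i, i < 7 ∧ m.testBit i = true ∧ (p = 128 * ca i + cz i ∨ p = 128 * cz i + ca i) := by
  unfold chm at e
  generalize 7 = n at e ⊢
  induction n with
  | zero => simp at e
  | succ n ih =>
    rcases tbo.1 e with e | e
    · obtain ⟨i, a, b⟩ := ih e
      exact ⟨i, by omega, b⟩
    · rcases one_mul_tb with q | ⟨q, r⟩
      · exact (zero_of q e).elim
      · rw [r, tbo, tb_bt, tb_bt] at e
        exact ⟨n, by omega, by rwa [tb_sr] at q, e⟩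

theorem ch1_ok {m p : ℕ} (e : (ch1 m).testBit p = true) :
    ∃ i, i < 7 ∧ m.testBit i = true ∧ ca i < 7 ∧ cz i < 7 ∧
      (p = 128 * ca i + cz i ∨ p = 128 * cz i + ca i) :=
  let ⟨i, a, b, c⟩ := chm_ok (m := Nat.land m 127) e
  let k := (by decide : ∀ i < 7, ca i < 7 ∧ cz i < 7) i a
  ⟨i, a, (tba.1 b).1, k.1, k.2, c⟩

theorem cY_ok {p : ℕ} (e : cY.testBit p = true) :
    ∃ a, a < 7 ∧ ∃ b, b < 7 ∧ p = 128 * a + b ∧ (b = (a + 1) % 7 ∨ a = (b + 1) % 7) :=
  (by decide +kernel : ∀ p < 896, cY.testBit p = true → ∃ a < 7, ∃ b < 7,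
    p = 128 * a + b ∧ (b = (a + 1) % 7 ∨ a = (b + 1) % 7)) p (of_lt (by decide +kernel) e) e

def hub (ρ : ℕ → D.X) (n t : ℕ) : Option D.X := if t = n then none else some (ρ t)

theorem hub_lt {t : ℕ} (h : t < n) : hub ρ n t = some (ρ t) := if_neg (by omega)
theorem hub_n : hub ρ n n = none := if_pos rfl

def KS (D : Disk) (f : ℕ → Option D.X) (N : ℕ) : Prop := ∀ a j, j < 32 →
  (N.testBit (128 * a + j) = true → D.K.Adj (f a) (f j)) ∧
    (N.testBit (128 * a + 32 + j) = true → f a ≠ f j)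

theorem ks_ok (C : Cx g D) (s : St D z M n ρ) : KS D (hub ρ n) (rc (Nat.lor
    (dif M (Nat.xor cB (ch1 g.i7))) cY) (Nat.lor 127 (Nat.shiftLeft (on n) 32)) n) := by
  have n7 := s.n7
  have n30 := s.n30
  have r : ∀ q, (Nat.lor 127 (Nat.shiftLeft (on n) 32)).testBit q = true →
      q < 7 ∨ (32 ≤ q ∧ q - 32 < n) := fun q e => by rwa [tbo, tbl, tb127, tb_on] at e
  have l : Nat.lor 127 (Nat.shiftLeft (on n) 32) < 2 ^ 127 := lt_of fun q e => by
    have := r q e; omega
  have hb : ∀ j, j < 7 → D.K.Adj (hub ρ n n) (hub ρ n j) := fun j h => by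
    rw [hub_n, hub_lt (by omega), s.bd j h]; exact D.khub j h
  have hd : ∀ j, j < n → hub ρ n n ≠ hub ρ n j := fun j h => by
    rw [hub_n, hub_lt h]; simp
  refine fun a j hj => ⟨fun e => ?_, fun e => ?_⟩
  · rcases tb_rc (f := 0) l (by omega) (by omega) hj e with e | ⟨rfl, e⟩ | ⟨rfl, p, e⟩
    · rcases tbo.1 e with e | e
      · obtain ⟨e, y⟩ := tb_dif.1 e
        obtain ⟨p, q, w⟩ := s.ms a 0 j (by omega) hj e
        rw [hub_lt p, hub_lt q]
        by_cases c : 7 ≤ a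
        · exact D.kI _ _ (s.int a c p) w
        by_cases d : 7 ≤ j
        · exact (D.kI _ _ (s.int j d q) w.symm).symm
        rw [tb_xor, show 128 * a + 32 * 0 + j = 128 * a + j from rfl,
          tb_cB a (by omega) j (by omega)] at y
        obtain ⟨i, i1, i2, i3, i4, i5⟩ := ch1_ok (by simpa using y)
        rw [s.bd a (by omega), s.bd j (by omega)] at w ⊢
        rcases i5 with i5 | i5
        · obtain ⟨rfl, rfl⟩ : a = ca i ∧ j = cz i := by omega
          exact C.i7 i i1 i2 w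
        · obtain ⟨rfl, rfl⟩ : a = cz i ∧ j = ca i := by omega
          exact (C.i7 i i1 i2 w.symm).symm
      · obtain ⟨x, i1, y, i2, i3, i4⟩ := cY_ok e
        obtain ⟨rfl, rfl⟩ : a = x ∧ j = y := by clear i4; omega
        have u := cyc D a
        have v := cyc D j
        rw [Nat.mod_eq_of_lt i1] at u
        rw [Nat.mod_eq_of_lt i2] at v
        rw [hub_lt (i1.trans_le n7), hub_lt (i2.trans_le n7), s.bd a i1, s.bd j i2]
        rcases i4 with i4 | i4
        exacts [i4 ▸ u, i4 ▸ v.symm]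
    · exact hb j (by have := r _ e; omega)
    · exact (hb a (by have := r _ e; omega)).symm
  · rcases tb_rc (f := 1) l (by omega) (by omega) hj e with e | ⟨rfl, e⟩ | ⟨rfl, p, e⟩
    · rcases tbo.1 e with e | e
      · obtain ⟨p, q, w⟩ := s.ms a 1 j (by omega) hj (tb_dif.1 e).1
        rw [hub_lt p, hub_lt q]
        exact fun c => w (Option.some.inj c)
      · obtain ⟨x, i1, y, i2, i3, -⟩ := cY_ok e
        omega
    · exact hd j (by have := r _ e; omega)
    · exact (hd a (by have := r _ e; omega)).symm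

def Bs (D : Disk) (f : ℕ → Option D.X) (S : ℕ) : Prop :=
  (∀ t, S.testBit t = true → t < 31) ∧ Cn D.K (ims f fun t => S.testBit t = true)

theorem clo_ok {f : ℕ → Option D.X} {N al : ℕ} (h : KS D f N)
    (a : ∀ t, al.testBit t = true → t < 31) : Bs D f (clo N al) := by
  refine Rup.q8_ind (fun nx : ℕ → ℕ => ∀ S, Bs D f S → Bs D f (nx S)) (fun nx ih S b => ?_) _
    (fun _ => id) _ ⟨fun t e => a t (tba.1 e).1, cn_one fun _ _ => low⟩
  unfold cloS
  cases Nat.beq S al
  · refine ih _ ⟨fun t e => (tbo.1 e).elim (b.1 t) fun k => a t (tba.1 k).2,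
      grow b.2 (fun t e => tbo.2 (Or.inl e)) fun t e => (tbo.1 e).imp_right fun k => ?_⟩
    obtain ⟨-, j, p, q⟩ := gat_lo b.1 (tba.1 k).1
    exact ⟨j, p, ((h t j (by have := b.1 j p; omega)).1 q).symm⟩
  · exact b

theorem ms_ok {N b c : ℕ} {k : ℕ → K3} (e : ms N n b c k = true) : ∃ S c',
    k S (ga2 N S) (Nat.lor b (ga2 N S)) c' = true ∧ Nat.land S (Nat.shiftRight b 32) = 0 ∧
      ∀ (D : Disk) (f : ℕ → Option D.X), n ≤ 30 → KS D f N → Bs D f S := by
  obtain ⟨X, c1, e⟩ := tl_t e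
  exact ⟨_, _, (nz_0 e).2, (nz_0 e).1, fun D f a h => clo_ok h fun t y => by
    have : t < n + 1 := tb_on.1 (tba.1 y).2
    omega⟩

theorem hM_ok : Hh D hM := by
  intro g nx M n C h c s k e
  obtain ⟨S1, c, e, -, b1⟩ := ms_ok e
  obtain ⟨S2, c, e, a2, b2⟩ := ms_ok e
  obtain ⟨S3, c, e, a3, b3⟩ := ms_ok e
  obtain ⟨S4, c, e, a4, b4⟩ := ms_ok e
  obtain ⟨S5, c, e, a5, b5⟩ := ms_ok e
  obtain ⟨S6, c, e, a6, b6⟩ := ms_ok e
  obtain ⟨y, e⟩ := nz_f e
  refine ⟨⟨_, _, e⟩, fun ρ s _ => ?_⟩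
  have ks := ks_ok C s
  replace b1 := b1 D _ s.n30 ks
  replace b2 := b2 D _ s.n30 ks
  replace b3 := b3 D _ s.n30 ks
  replace b4 := b4 D _ s.n30 ks
  replace b5 := b5 D _ s.n30 ks
  replace b6 := b6 D _ s.n30 ks
  generalize rc _ _ n = N at *
  generalize hub ρ n = f at *
  have dj : ∀ {S T b}, Bs D f S → Bs D f T → Nat.land T (Nat.shiftRight b 32) = 0 →
      (∀ q, (ga2 N S).testBit q = true → b.testBit q = true) →
      ∀ v, v ∈ ims f (fun t => S.testBit t = true) → v ∈ ims f (fun t => T.testBit t = true) →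
        False := by
    rintro S T b p q r w _ ⟨j, j1, rfl⟩ ⟨t, t1, t2⟩
    refine (ks t j (by have := p.1 j j1; omega)).2 ((tb_ga2 p.1 (q.1 t t1)).2
      (Bool.eq_false_iff.2 fun y => zero_of r (tba.2 ⟨t1, ?_⟩)) j j1) t2.symm
    rw [tb_sr] at y ⊢
    exact w _ y
  have tc : ∀ {S T}, Bs D f S → Bs D f T → Nat.land (ga2 N S) T ≠ 0 →
      Tch D.K (ims f fun t => S.testBit t = true) (ims f fun t => T.testBit t = true) := by
    intro S T p q r
    obtain ⟨t, r⟩ := ex_bit r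
    obtain ⟨j, j1, j2⟩ := (tb_ga2 p.1 (q.1 t (tba.1 r).2)).1 (tba.1 r).1
    exact ⟨_, ⟨j, j1, rfl⟩, _, ⟨t, (tba.1 r).2, rfl⟩,
      ((ks t j (by have := p.1 j j1; omega)).1 j2).symm⟩
  simp only [p3, Nat.mul_eq, ne_eq, mul_eq_zero, not_or] at y
  obtain ⟨⟨y1, y2, y3⟩, ⟨y4, y5, y6⟩, y7, y8, y9⟩ := y
  have d12 := dj b1 b2 a2 fun q e => by simp only [tbo, e, true_or, or_true]
  have d13 := dj b1 b3 a3 fun q e => by simp only [tbo, e, true_or, or_true]
  have d14 := dj b1 b4 a4 fun q e => by simp only [tbo, e, true_or, or_true]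
  have d15 := dj b1 b5 a5 fun q e => by simp only [tbo, e, true_or, or_true]
  have d16 := dj b1 b6 a6 fun q e => by simp only [tbo, e, true_or, or_true]
  have d23 := dj b2 b3 a3 fun q e => by simp only [tbo, e, true_or, or_true]
  have d24 := dj b2 b4 a4 fun q e => by simp only [tbo, e, true_or, or_true]
  have d25 := dj b2 b5 a5 fun q e => by simp only [tbo, e, true_or, or_true]
  have d26 := dj b2 b6 a6 fun q e => by simp only [tbo, e, true_or, or_true]
  have d34 := dj b3 b4 a4 fun q e => by simp only [tbo, e, true_or, or_true]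
  have d35 := dj b3 b5 a5 fun q e => by simp only [tbo, e, true_or, or_true]
  have d36 := dj b3 b6 a6 fun q e => by simp only [tbo, e, true_or, or_true]
  have d45 := dj b4 b5 a5 fun q e => by simp only [tbo, e, true_or, or_true]
  have d46 := dj b4 b6 a6 fun q e => by simp only [tbo, e, true_or, or_true]
  have d56 := dj b5 b6 a6 fun q e => by simp only [tbo, e, true_or, or_true]
  refine D.ht.no_K33 (fun i => ims f fun t => (![S1, S2, S3] i).testBit t = true)
    (fun i => ims f fun t => (![S4, S5, S6] i).testBit t = true)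
    (fun i => ?_) (fun i => ?_) (fun i j hij v => ?_) (fun i j hij v => ?_) (fun i j v => ?_)
    fun i j => ?_
  · fin_cases i
    exacts [b1.2, b2.2, b3.2]
  · fin_cases i
    exacts [b4.2, b5.2, b6.2]
  · fin_cases i <;> fin_cases j <;> first | exact absurd rfl hij | skip
    exacts [d12 v, d13 v, flip (d12 v), d23 v, flip (d13 v), flip (d23 v)]
  · fin_cases i <;> fin_cases j <;> first | exact absurd rfl hij | skip
    exacts [d45 v, d46 v, flip (d45 v), d56 v, flip (d46 v), flip (d56 v)]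
  · fin_cases i <;> fin_cases j
    exacts [d14 v, d15 v, d16 v, d24 v, d25 v, d26 v, d34 v, d35 v, d36 v]
  · fin_cases i <;> fin_cases j
    exacts [tc b1 b4 y1, tc b1 b5 y2, tc b1 b6 y3, tc b2 b4 y4, tc b2 b5 y5, tc b2 b6 y6,
      tc b3 b4 y7, tc b3 b5 y8, tc b3 b6 y9]

end Pool.Agent.Lib.MP_ad48ef_co.Dsk
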