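/-!
# A kernel-friendly checker for resolution refutations with symmetric images

Clauses are bit masks: variable `v` is bit `v`, its negation is bit `v + W`.
-/

set_option linter.unusedVariables false

namespace Pool.Agent.Lib.MP_ad48ef_co.Rup

abbrev E := Nat → Nat
abbrev R (α : Type) := E → Nat → α → Nat → (E → α → Nat → Bool) → Bool

inductive T : Type
  | leaf : Nat → Nat → Nat → Nat → T
  | node : Nat → T → T → T

inductive P : Type
  | nil : P
  | cons : Nat → Nat → Nat → P → P

noncomputable def rc (wd pk r : Nat) : Nat :=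
  Nat.mod (Nat.shiftRight pk (Nat.mul r wd)) (Nat.shiftLeft (nat_lit 1) wd)

noncomputable def get (t : T) (i : Nat) : Nat :=
  @T.rec (fun _ => Nat) (fun b n wd pk => rc wd pk (Nat.mod (Nat.sub i b) (Nat.succ n)))
    (fun k _ _ a b => @Bool.rec (fun _ => Nat) a b (Nat.ble k i)) t

def q8 {α : Type} (f : α → α) (k : α) : α := f (f (f (f (f (f (f (f k)))))))

noncomputable def dec (M s c : Nat) : Nat :=
  q8 (q8 (q8 (fun (k : Nat → Nat) (c : Nat) =>
    @Nat.rec (fun _ => Nat) (nat_lit 0)
      (fun l _ => Nat.lor (Nat.shiftLeft (nat_lit 1) l) (k (Nat.shiftRight c s)))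
      (Nat.land M c)))) (fun _ => nat_lit 0) c

noncomputable def app (p : P) (X : Nat) : Nat :=
  @P.rec (fun _ => Nat) (nat_lit 0)
    (fun m l r _ ih => Nat.lor (Nat.shiftRight (Nat.shiftLeft (Nat.land m X) l) r) ih) p

noncomputable def it (p : P) (a X : Nat) : Nat :=
  @Nat.rec (fun _ => Nat) X (fun _ ih => app p ih) a

noncomputable def frc (n : Nat) (k : Nat → Nat) : Nat :=
  @Nat.rec (fun _ => Nat) n (fun c _ => k c) (Nat.succ n)

noncomputable def img (A : Nat) (p q : P) (j X : Nat) : Nat :=
  frc (Nat.div j A) (fun b => it p (Nat.mod j A) (it q b X))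

noncomputable def memo (f : E) (h : Nat) : Nat :=
  @Nat.rec (fun _ => Nat) h (fun c _ => c) (Nat.succ (f h))

noncomputable def dbl {α : Type} (s : Nat) (r : R α) : R α := fun e b S u k =>
  r e b S u (fun fl S1 u1 =>
    @Nat.rec (fun _ => Bool) false (fun m _ =>
      r (fun i => @Bool.rec (fun _ => Nat) (e i) (fl i) (Nat.ble b i)) m S1 u1
        (fun fr S2 u2 => k (fun i => @Bool.rec (fun _ => Nat) (fl i) (fr i) (Nat.ble m i)) S2 u2))
      (Nat.succ (Nat.add s b)))

noncomputable def dblL (s : Nat) (r : R (List Nat)) : R (List Nat) := fun e b L u k =>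
  @List.rec Nat (fun _ => Bool) (k e L u) (fun _ _ _ => dbl s r e b L u k) L

noncomputable def pop (r : R Nat) : R (List Nat) := fun e b L u k =>
  @List.rec Nat (fun _ => Bool) (k e L u) (fun S tl _ => r e b S u (fun f _ u1 => k f tl u1)) L

inductive U : Type
  | l : Nat → U
  | n : U → U → U

abbrev K3 := Nat → Nat → Nat → Bool
abbrev Lp := E → Nat → K3 → K3
abbrev Sel := E → K3 → Nat → Nat → Nat → Nat → Bool
abbrev Fn := Lp → Sel → E → K3 → K3

inductive Bx : Type
  | mk : Fn → Bx

noncomputable def gu (t : U) : Nat → Nat :=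
  @U.rec (fun _ => Nat → Nat) (fun x _ => x)
    (fun _ _ a b i => @Nat.rec (fun _ => Nat) (a (Nat.shiftRight i (nat_lit 1)))
      (fun _ _ => b (Nat.shiftRight i (nat_lit 1))) (Nat.land i (nat_lit 1))) t

noncomputable def cw (S : Nat) : Nat :=
  Nat.shiftLeft (Nat.pow (Nat.gcd S (nat_lit 1048576)) (nat_lit 2)) (nat_lit 1)

noncomputable def cv (x : Nat) : Nat :=
  @Nat.rec (fun _ => Nat) x
    (fun g _ => Nat.add (Nat.shiftRight (Nat.div x (Nat.succ g)) (nat_lit 1)) g)
    (Nat.gcd x (nat_lit 1048576))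

noncomputable def skip (w X : Nat) : Nat :=
  @Nat.rec (fun _ => Nat) X
    (fun m _ => Nat.shiftRight (Nat.div X (Nat.succ m)) (Nat.mul w (cv (Nat.land X m)))) (cw X)

noncomputable def row (w : Nat) (t : U) (j : Nat) : Nat :=
  frc (Nat.shiftRight j (nat_lit 5)) (fun q =>
    frc (@Nat.rec (fun _ => Nat) (gu t q) (fun _ ih => frc ih (skip w)) (Nat.land j (nat_lit 31)))
      (fun X => Nat.div X (cw X)))

def lg1 : Nat := nat_lit 0x595a135b3114525c7f32681519539d5d4d808f330c692e16091a39541d9e975e224e2a813c908534420da96a572f7d174b0a071b203a4055491e479fa198785fa323af4f9a2b94827a3d759161866435a543710e25aa896bb1581230517e67189c4c8e0b2d08381c9621293b8441a8567c4a061f3f4846a077a2ae999379746063a4702488b01150669b8d2c37952883a77b053e4576ad9273626f8710658c3627a60444ac726e0f8b2603ab6d8a026c010000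
def lg2 : Nat := nat_lit 0x3d00000000009a3e000000005a0082000000009b003fa400530000006300005b2c0000836800000000000000009c0a0000409fa59300aa5414000d00220000648f000000005c752d000000001a84006936004300000098008000a20000000000089da80b00007300004196a000a671946f0000ab005500150000ad0e0000002300005700606500901f00170000000000005d0076792eaf004f0010007c00001b4b850000316a003789002544b20000003c00009900005981000000a3520062002b00670000000009009e92a9130c21008e00007400001900354200977fa1000007a70072009500706e00000000ac000000565f001e160000000078ae4e0f7b004a0030008824b1003b000058000051612a660000009112208d00001834007e00060000006d000000005e1d0000774d7a492f87b03a000050290000118c00337d05006c00001c004c4886390028008b32046b00004738278a030046260245010000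

/-- The exponent of a power of two, from its residue. -/
noncomputable def pos (j : Nat) : Nat :=
  frc (rc (nat_lit 8) lg1 (Nat.mod (Nat.succ j) (nat_lit 179))) (fun a =>
    Nat.add a (Nat.mul (nat_lit 178) (Nat.mod (Nat.sub (Nat.add a (nat_lit 179))
      (rc (nat_lit 8) lg2 (Nat.mod (Nat.succ j) (nat_lit 359)))) (nat_lit 179))))

def lgs : Nat := nat_lit 0x252711290b131d00000d1915001f00000000230f091b001700000021070000000500030100

noncomputable def len (x : Nat) : Nat :=
  rc (nat_lit 8) lgs (Nat.mod (Nat.gcd (Nat.succ x) (nat_lit 1048576)) (nat_lit 37))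

noncomputable def ofs (w x : Nat) : Nat := Nat.mul w (cv (Nat.succ x))

inductive Q : Type
  | mk : Nat → Nat → Nat → Q

noncomputable def lit (W w : Nat) (t : U) (j : Nat) : Q :=
  @Nat.rec (fun _ => Q) (Q.mk j j j) (fun a _ =>
    @Nat.rec (fun _ => Q) (Q.mk a a a) (fun bt _ =>
      @Nat.rec (fun _ => Q) (Q.mk a a a) (fun nb _ =>
        @Nat.rec (fun _ => Q) (Q.mk a a a) (fun r _ => Q.mk bt nb r) (Nat.succ (row w t a)))
        (Nat.succ (Nat.shiftLeft (nat_lit 1) (Nat.mod (Nat.add a W) (Nat.mul (nat_lit 2) W)))))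
      (Nat.succ (Nat.shiftLeft (nat_lit 1) a)))
    (Nat.succ (pos j))

noncomputable def fF (bt n j : Nat) : Bx :=
  Bx.mk (fun _ _ _ r S T L => r (Nat.shiftRight S n) (Nat.xor T bt) (Nat.lor L bt))

noncomputable def fG (bt n c : Nat) : Bx :=
  Bx.mk (fun lp _ e r S T L =>
    lp e c (fun S2 T2 L2 => r S2 (Nat.xor T2 bt) L2) (Nat.shiftRight S n) T L)

noncomputable def fL (bt n h nb : Nat) : Bx :=
  Bx.mk (fun lp _ e r S T L =>
    lp e (Nat.xor (e h) nb) (fun S2 T2 L2 => r S2 (Nat.xor T2 bt) L2) (Nat.shiftRight S n) T L)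

noncomputable def fB (bt n c j : Nat) : Bx :=
  Bx.mk (fun _ sl e r S T L => @Bool.rec (fun _ => Bool)
    (sl e (fun S2 T2 L2 => r S2 (Nat.xor T2 bt) L2) (Nat.shiftRight S n) T L j)
    (r (Nat.shiftRight S n) (Nat.xor T bt) L) (Nat.beq (Nat.land c T) (nat_lit 0)))

noncomputable def en2 (TT : Nat) (lt : Nat → Q) (bt n c : Nat) : Bx :=
  @Bool.rec (fun _ => Bx) (fG bt n c)
    (@Nat.rec (fun _ => Bx) (fG bt n c) (fun j _ =>
      @Q.rec (fun _ => Bx) (fun b _ _ =>
        @Bool.rec (fun _ => Bx) (fG bt n c) (fB bt n c j) (Nat.beq c b)) (lt j))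
      (Nat.mod c (nat_lit 64261)))
    (Nat.beq c (Nat.gcd c TT))

/-- The table entry for the literal with key `j` and the code word `x + 1`. -/
noncomputable def ent (TT w B N : Nat) (I : E) (lt : Nat → Q) (j x : Nat) : Bx :=
  @Q.rec (fun _ => Bx) (fun bt nb r =>
    @Nat.rec (fun _ => Bx) (fF bt x j) (fun n _ =>
      @Nat.rec (fun _ => Bx) (fF bt n j) (fun h _ =>
        @Bool.rec (fun _ => Bx) (en2 TT lt bt n (Nat.xor (I h) nb)) (fL bt n h nb) (Nat.ble N h))
        (Nat.land B (Nat.shiftRight r (ofs w x))))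
      (Nat.succ (len x))) (lt j)

def ret (k : K3) (S T L : Nat) : Bool := k S T L

noncomputable def tow (A : Lp → Sel → Lp) (B : Lp → Sel → Sel) (n : Nat) (k : Lp → Sel → Bool) :
    Bool :=
  @Nat.rec (fun _ => (Lp → Sel → Bool) → Bool)
    (fun k => k (fun _ _ _ _ _ _ => false) (fun _ _ _ _ _ _ => false))
    (fun _ ih k => ih (fun lp sl => k (A lp sl) (B lp sl))) n k

/-- Searching the derivation of a clause depth first: `T` holds the literals not known to be
false, `L` the literals assumed to be false. -/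
noncomputable def dfs (TT : Nat) (tb : Nat → Nat → Bx) (n : Nat) (k : Lp → Sel → Bool) : Bool :=
  tow
    (fun lp sl e y k S T L => @Bool.rec (fun _ => Bool)
      (@Nat.rec (fun _ => Bool) false (fun j _ => sl e (lp e y k) S T L j)
        (Nat.mod (Nat.gcd (Nat.land y T) TT) (nat_lit 64261)))
      (ret k S T L) (Nat.beq (Nat.land y T) (nat_lit 0)))
    (fun lp sl e r S T L j => @Nat.rec (fun _ => Bool) false
      (fun x _ => @Bx.rec (fun _ => Bool) (fun f => f lp sl e r S T L) (tb j x))
      (Nat.mod S (Nat.shiftLeft (Nat.pow (Nat.gcd S (nat_lit 1048576)) (nat_lit 2)) (nat_lit 1))))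
    n k

noncomputable def leaf (W TT w B N : Nat) (g : Nat → Nat → Nat) (I : E) (lp : Lp) :
    R Nat := fun e b S u k =>
  @Nat.rec (fun _ => Bool) (k I S u) (fun h _ =>
    @Bool.rec (fun _ => Bool)
      (@Nat.rec (fun _ => Bool) false (fun h1 _ =>
        @Bool.rec (fun _ => Bool)
          (@Nat.rec (fun _ => Bool) false
            (fun c _ => k (fun _ => c) (Nat.shiftRight (Nat.shiftRight S w) w) u)
            (Nat.succ (g h (@Bool.rec (fun _ => Nat) (I h1) (e h1) (Nat.ble N h1)))))
          (@Nat.rec (fun _ => Bool) false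
            (fun c _ => @Bool.rec (fun _ => Bool) false
              (@Nat.rec (fun _ => Bool) false
                (fun u1 _ => k (fun _ => c) (Nat.shiftRight (Nat.shiftRight S w) w) u1)
                (Nat.succ (Nat.xor u (Nat.land u (Nat.lor (Nat.shiftLeft c W) (Nat.shiftRight c W))))))
              (Nat.beq (Nat.gcd TT c) c))
            (Nat.succ (@Bool.rec (fun _ => Nat) (I h1) (e h1) (Nat.ble N h1))))
          (Nat.ble (nat_lit 6) h))
        (Nat.land B (Nat.shiftRight S w)))
      (lp e (@Bool.rec (fun _ => Nat) (I h) (e h) (Nat.ble N h))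
        (fun S1 _ L => @Nat.rec (fun _ => Bool) false (fun c _ => k (fun _ => c) S1 u) (Nat.succ L))
        (Nat.shiftRight S w) (@Nat.rec (fun _ => Nat) u (fun _ _ => u) b) (Nat.sub b b))
      (Nat.ble (nat_lit 7) h))
    (Nat.land B S)

noncomputable def allT (f : Nat → Bool) (t : T) : Bool :=
  @T.rec (fun _ => Bool)
    (fun _ n wd pk => @Nat.rec (fun _ => Bool) true
      (fun r ih => @Bool.rec (fun _ => Bool) false ih (f (rc wd pk r))) (Nat.succ n))
    (fun _ _ _ a b => @Bool.rec (fun _ => Bool) false b a) t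

noncomputable def run (W TT w B N M s : Nat) (g : Nat → Nat → Nat) (I : E) (lp : Lp)
    (L : List Nat) (u u1 : Nat) (O : T) : Bool :=
  dblL 65536 (dblL 32768 (dblL 16384 (dblL 8192 (dblL 4096 (dblL 2048 (dblL 1024 (dblL 512
    (dblL 256 (dblL 128 (dblL 64 (dblL 32 (dblL 16 (pop (dbl 8 (dbl 4 (dbl 2 (dbl 1
      (leaf W TT w B N g I lp)))))))))))))))))) I N L u
    (fun f _ u2 => @Bool.rec (fun _ => Bool) false
      (allT (fun c => Nat.beq (f (Nat.land B c)) (dec M s (Nat.shiftRight c w))) O) (Nat.beq u2 u1))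

noncomputable def all (f : Nat → Bool) (n : Nat) : Bool :=
  @Nat.rec (fun _ => Bool) true (fun r ih => @Bool.rec (fun _ => Bool) false ih (f r)) n

noncomputable def and (a b : Bool) : Bool := @Bool.rec (fun _ => Bool) false b a

noncomputable def tb (X i : Nat) : Bool :=
  Nat.beq (Nat.land (nat_lit 1) (Nat.shiftRight X i)) (nat_lit 1)

noncomputable def all2 (f : Nat → Bool) (n : Nat) : Bool :=
  all (fun a => all (fun b =>
    @Nat.rec (fun _ => Bool) false
      (fun v _ => @Bool.rec (fun _ => Bool) (f v) true (Nat.ble n v))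
      (Nat.succ (Nat.add (Nat.mul a (nat_lit 64)) b))) (nat_lit 64))
    (Nat.succ (Nat.div n (nat_lit 64)))

/-- Check one segment `L` of a refutation; `u`, `u1` are the masks of literals not known to be
false before and after, `O` lists the exported clauses. -/
noncomputable def chk (W w N M s A n : Nat) (p q : P) (I : E) (t : U) (L : List Nat) (u u1 : Nat)
    (O : T) : Bool :=
  @Nat.rec (fun _ => Bool) false (fun TT _ =>
  @Nat.rec (fun _ => Bool) false (fun B _ =>
    dfs TT (ent TT w B N I (lit W w t)) n (fun lp _ => run W TT w B N M s (img A p q) I lp L u u1 O))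
    (Nat.shiftLeft (nat_lit 1) w))
    (Nat.succ (Nat.shiftLeft (nat_lit 1) (Nat.mul (nat_lit 2) W)))

/-- The images of the input clauses. -/
noncomputable def inp (M s aw A G : Nat) (p q : P) (t : T) (h : Nat) : Nat :=
  frc (Nat.div h G) (fun r => frc (Nat.mod h G) (fun j =>
    img A p q j (dec M s (Nat.shiftRight (get t r) aw))))

/-- The exported clauses, from index `N` on. -/
noncomputable def ext (M s w N : Nat) (t : T) (I : E) (h : Nat) : Nat :=
  @Bool.rec (fun _ => Nat) (I h) (dec M s (Nat.shiftRight (get t h) w)) (Nat.ble N h)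

noncomputable def pi (p : P) (v : Nat) : Nat :=
  @P.rec (fun _ => Nat) v
    (fun m l r _ ih => @Nat.rec (fun _ => Nat) ih (fun _ _ => Nat.sub (Nat.add v l) r)
      (Nat.land (nat_lit 1) (Nat.shiftRight m v))) p

noncomputable def gen (W tw tt : Nat) (f : Nat → Nat) (p : P) (v : Nat) : Bool :=
  @Nat.rec (fun _ => Bool) false (fun x _ =>
    and (Nat.ble (Nat.succ x) W) (and (tb (app p (Nat.shiftLeft (nat_lit 1) v)) x)
      (and (tb (app p (Nat.shiftLeft (nat_lit 1) (Nat.add v W))) (Nat.add x W))
        (Nat.beq (f (Nat.mul (nat_lit 2) (rc tw tt v))) (Nat.mul (nat_lit 2) (rc tw tt x))))))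
    (Nat.succ (pi p v))

/-- The maps `p`, `q` on clauses agree with the maps `f`, `g` on literals. -/
noncomputable def chkS (W tw tt : Nat) (f g : Nat → Nat) (p q : P) : Bool :=
  all2 (fun v => and (gen W tw tt f p v) (gen W tw tt g q v)) W

/-- The literal at position `l`. -/
noncomputable def lc (W tw tt l : Nat) : Nat :=
  @Nat.rec (fun _ => Nat) l (fun c _ => c)
    (Nat.succ (Nat.add (Nat.mul (nat_lit 2) (rc tw tt (Nat.mod l W))) (Nat.div l W)))

/-- The distance from a literal to the negation of its equivalent form. -/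
noncomputable def off (c : Nat) : Nat :=
  @Bool.rec (fun _ => Nat)
    (@Bool.rec (fun _ => Nat)
      (@Bool.rec (fun _ => Nat)
        (@Bool.rec (fun _ => Nat) (nat_lit 2)
          (@Bool.rec (fun _ => Nat) (nat_lit 14) (nat_lit 2)
            (Nat.beq (Nat.land (Nat.shiftRight c (nat_lit 12)) (nat_lit 127)) (nat_lit 0)))
          (tb (nat_lit 3072) (Nat.land c (nat_lit 31))))
        (nat_lit 524292) (tb (nat_lit 196608) (Nat.land c (nat_lit 31))))
      (nat_lit 20) (tb (nat_lit 192) (Nat.land c (nat_lit 31))))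
    (@Bool.rec (fun _ => Nat) (nat_lit 2) (nat_lit 10) (tb (nat_lit 48) (Nat.land c (nat_lit 31))))
    (Nat.ble (nat_lit 6291456) c)

/-- An equivalent form of the literal `c`, if the test accepts it. -/
noncomputable def alt (ok : Nat → List Nat → Bool) (c : Nat) : Nat :=
  @Nat.rec (fun _ => Nat) c (fun d _ =>
    @Bool.rec (fun _ => Nat) c (Nat.xor d (nat_lit 1)) (ok (nat_lit 1) [c, d]))
    (Nat.succ (Nat.add c (off c)))

noncomputable def lits (M s : Nat) (f g : Nat → Nat) (c : Nat) : List Nat :=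
  q8 (q8 (q8 (fun (k : Nat → List Nat) (c : Nat) =>
    @Nat.rec (fun _ => List Nat) []
      (fun l _ => @Nat.rec (fun _ => List Nat) (f l :: k (Nat.shiftRight c s))
        (fun _ _ => g l :: k (Nat.shiftRight c s)) (Nat.land (Nat.succ M) c))
      (Nat.land M c)))) (fun _ => []) c

/-- Every listed clause passes the test `ok`. -/
noncomputable def chkI (ok : Nat → List Nat → Bool) (W M s aw tw tt : Nat) (t : T) : Bool :=
  allT (fun c =>
    @Nat.rec (fun _ => Bool) false (fun a _ =>
      @Nat.rec (fun _ => Bool) false (fun d _ =>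
        and (Nat.ble (Nat.succ (dec M s d)) (Nat.shiftLeft (nat_lit 1) (Nat.mul (nat_lit 2) W)))
          (ok a (lits M s (lc W tw tt) (fun l => frc (lc W tw tt l) (memo (alt ok))) d)))
        (Nat.succ (Nat.shiftRight c aw)))
      (Nat.succ (Nat.mod c (Nat.shiftLeft (nat_lit 1) aw)))) t

end Pool.Agent.Lib.MP_ad48ef_co.Rup
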