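import Pool.Agent.Lib.MP_ad48ef_co.Shapes
import Pool.Agent.Lib.MP_ad48ef_co.Rup

/-!
# Soundness of the resolution checker
-/

namespace Pool.Agent.Lib.MP_ad48ef_co.Rup

def L (W : ℕ) (w : ℕ → Prop) (p : ℕ) : Prop := if p < W then w p else ¬ w (p - W)

def Sat (W : ℕ) (w : ℕ → Prop) (X : ℕ) : Prop := ∃ p, p < 2 * W ∧ X.testBit p = true ∧ L W w p

def Good (W : ℕ) (M : (ℕ → Prop) → Prop) (X : ℕ) : Prop := ∀ w, M w → Sat W w X

def Un (W : ℕ) (M : (ℕ → Prop) → Prop) (u : ℕ) : Prop :=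
  ∀ w, M w → ∀ p, p < 2 * W → L W w p → u.testBit p = true

theorem tbo (x y i : ℕ) : (Nat.lor x y).testBit i = (x.testBit i || y.testBit i) :=
  Nat.testBit_or x y i
theorem tba (x y i : ℕ) : (Nat.land x y).testBit i = (x.testBit i && y.testBit i) :=
  Nat.testBit_and x y i
theorem tbx (x y i : ℕ) : (Nat.xor x y).testBit i = (x.testBit i ^^ y.testBit i) :=
  Nat.testBit_xor x y i
theorem tbr (x n i : ℕ) : (Nat.shiftRight x n).testBit i = x.testBit (n + i) :=
  Nat.testBit_shiftRight x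
theorem tbl (x n i : ℕ) :
    (Nat.shiftLeft x n).testBit i = (decide (i ≥ n) && x.testBit (i - n)) :=
  Nat.testBit_shiftLeft x
theorem sl1 (n : ℕ) : Nat.shiftLeft 1 n = 2 ^ n := Nat.one_shiftLeft n
theorem tb2 {n i : ℕ} : (2 ^ n).testBit i = true ↔ i = n := by
  rw [Nat.testBit_two_pow]; simp [eq_comm]

theorem and_t {a b : Bool} (h : Rup.and a b = true) : a = true ∧ b = true := by
  cases a
  · cases h
  · exact ⟨rfl, h⟩

theorem tb_t {X i : ℕ} (h : tb X i = true) : X.testBit i = true := by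
  have h1 : Nat.land 1 (Nat.shiftRight X i) = 1 := Nat.eq_of_beq_eq_true h
  have h2 : (Nat.land 1 (Nat.shiftRight X i)).testBit 0 = true := by rw [h1]; rfl
  rw [tba, tbr] at h2
  simpa using h2

theorem all_t {f : ℕ → Bool} {n : ℕ} (h : all f n = true) : ∀ i, i < n → f i = true := by
  induction n with
  | zero => intro i hi; omega
  | succ n ih =>
    have h' := and_t (a := f n) (b := all f n) h
    intro i hi
    rcases Nat.lt_succ_iff_lt_or_eq.1 hi with k | rfl
    · exact ih h'.2 i k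
    · exact h'.1

theorem all2_t {f : ℕ → Bool} {n : ℕ} (h : all2 f n = true) : ∀ i, i < n → f i = true := by
  intro i hi
  have h1 := all_t (all_t h (i / 64) (by show i / 64 < n / 64 + 1; omega)) (i % 64)
    (Nat.mod_lt _ (by norm_num))
  change @Bool.rec (fun _ => Bool) (f (i / 64 * 64 + i % 64)) true
    (Nat.ble n (i / 64 * 64 + i % 64)) = true at h1
  rw [show i / 64 * 64 + i % 64 = i by omega] at h1
  have : Nat.ble n i = false := by
    cases e : Nat.ble n i
    · rfl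
    · have := Nat.le_of_ble_eq_true e; omega
  rw [this] at h1
  exact h1

theorem allT_t {f : ℕ → Bool} {t : T} (h : allT f t = true) (i : ℕ) : f (get t i) = true := by
  induction t with
  | leaf b n wd pk =>
    exact all_t (f := fun r => f (rc wd pk r)) (n := n + 1) h _ (Nat.mod_lt _ (Nat.succ_pos _))
  | node k a b iha ihb =>
    have h' := and_t (a := allT f a) (b := allT f b) h
    show f (@Bool.rec (fun _ => ℕ) (get a i) (get b i) (Nat.ble k i)) = true
    cases Nat.ble k i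
    · exact iha h'.1
    · exact ihb h'.2

theorem q8_ind {α : Type} (Q : α → Prop) {f : α → α} (h : ∀ x, Q x → Q (f x)) (x : α) (k : Q x) :
    Q (q8 f x) := h _ (h _ (h _ (h _ (h _ (h _ (h _ (h _ k)))))))

theorem q8_rel {α β : Type} (Q : α → β → Prop) {f : α → α} {g : β → β}
    (h : ∀ x y, Q x y → Q (f x) (g y)) (x : α) (y : β) (k : Q x y) : Q (q8 f x) (q8 g y) :=
  h _ _ (h _ _ (h _ _ (h _ _ (h _ _ (h _ _ (h _ _ (h _ _ k)))))))

theorem L_excl {W : ℕ} {w : ℕ → Prop} {k : ℕ} (hk : k + W < 2 * W) (h1 : L W w k)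
    (h2 : L W w (k + W)) : False := by
  unfold L at h1 h2
  rw [if_pos (by omega)] at h1
  rw [if_neg (by omega), Nat.add_sub_cancel] at h2
  exact h2 h1

variable {W : ℕ} {M : (ℕ → Prop) → Prop}

theorem Un.add {u c : ℕ} (hu : Un W M u) (h : Good W M c)
    (e : Nat.gcd (2 ^ (2 * W)) c = c) :
    Un W M (Nat.xor u (Nat.land u (Nat.lor (Nat.shiftLeft c W) (Nat.shiftRight c W)))) := by
  have : c ∣ 2 ^ (2 * W) := by
    rw [← e]; exact Nat.gcd_dvd_left _ _
  obtain ⟨k, -, rfl⟩ := (Nat.dvd_prime_pow Nat.prime_two).1 this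
  intro w hw p p1 p2
  obtain ⟨q, q1, q2, q3⟩ := h w hw
  obtain rfl := tb2.1 q2
  rw [tbx, tba, hu w hw p p1 p2, tbo, tbl, tbr]
  have a1 : (decide (p ≥ W) && (2 ^ q).testBit (p - W)) = false := by
    by_contra z
    simp only [Bool.not_eq_false, Bool.and_eq_true, decide_eq_true_eq, tb2] at z
    obtain rfl : p = q + W := by omega
    exact L_excl p1 q3 p2
  have a2 : (2 ^ q).testBit (W + p) = false := by
    by_contra z
    simp only [Bool.not_eq_false, tb2] at z
    obtain rfl : q = p + W := by omega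
    exact L_excl q1 p2 q3
  rw [a1, a2]; rfl

theorem Un.init : Un W M (Nat.pred (Nat.shiftLeft 1 (Nat.mul 2 W))) := by
  intro w _ p p1 _
  rw [sl1, Nat.pred_eq_sub_one, Nat.testBit_two_pow_sub_one]
  simpa using p1

def GE (W : ℕ) (M : (ℕ → Prop) → Prop) (e : E) : Prop := ∀ i, Good W M (e i)

theorem GE.sel {e f : E} (he : GE W M e) (hf : GE W M f) (b : Bool) (i : ℕ) :
    Good W M (@Bool.rec (fun _ => ℕ) (e i) (f i) b) := by
  cases b
  · exact he i
  · exact hf i

def Out (W : ℕ) (M : (ℕ → Prop) → Prop) {α : Type} (k : E → α → ℕ → Bool) : Prop :=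
  ∃ f S u, GE W M f ∧ Un W M u ∧ k f S u = true

def Snd (W : ℕ) (M : (ℕ → Prop) → Prop) {α : Type} (r : R α) : Prop :=
  ∀ e b S u k, GE W M e → Un W M u → r e b S u k = true → Out W M k

theorem Snd.dbl {α : Type} {r : R α} (s : ℕ) (h : Snd W M r) : Snd W M (dbl s r) := by
  intro e b S u k he hu hr
  obtain ⟨fl, S1, u1, h1, h2, h3⟩ := h _ _ _ _ _ he hu hr
  obtain ⟨fr, S2, u2, h4, h5, h6⟩ := h _ (Nat.add s b) _ _ _ (fun i => he.sel h1 _ i) h2 h3
  exact ⟨_, _, _, fun i => h1.sel h4 _ i, h5, h6⟩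

theorem Snd.dblL {r : R (List ℕ)} (s : ℕ) (h : Snd W M r) : Snd W M (dblL s r) := by
  intro e b S u k he hu hr
  cases S with
  | nil => exact ⟨e, [], u, he, hu, hr⟩
  | cons a l => exact h.dbl s _ _ _ _ _ he hu hr

theorem Snd.pop {r : R ℕ} (h : Snd W M r) : Snd W M (pop r) := by
  intro e b S u k he hu hr
  cases S with
  | nil => exact ⟨e, [], u, he, hu, hr⟩
  | cons a l =>
    obtain ⟨f, _, u1, h1, h2, h3⟩ := h e b a u _ he hu hr
    exact ⟨f, l, u1, h1, h2, h3⟩

def Iv (W : ℕ) (M : (ℕ → Prop) → Prop) (T C : ℕ) : Prop :=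
  ∀ w, M w → Sat W w C ∨ ∀ p, p < 2 * W → L W w p → T.testBit p = true

def Kl (W : ℕ) (M : (ℕ → Prop) → Prop) (y C : ℕ) : Prop := ∀ w, M w → Sat W w y → Sat W w C

def Fi (W : ℕ) (M : (ℕ → Prop) → Prop) (y C : ℕ) (k : K3) : Prop :=
  ∃ S' T' C', Iv W M T' C' ∧ Kl W M y C' ∧ Kl W M C C' ∧ k S' T' C' = true

def SL (W : ℕ) (M : (ℕ → Prop) → Prop) (lp : Lp) : Prop := ∀ e, GE W M e → ∀ y k S T C,
  Iv W M T C → lp e y k S T C = true → Fi W M y C k

def SS (W : ℕ) (M : (ℕ → Prop) → Prop) (sl : Sel) : Prop := ∀ e, GE W M e → ∀ k S T C j,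
  Iv W M T C → sl e k S T C j = true → Fi W M (2 ^ pos j) C k

def SF (W : ℕ) (M : (ℕ → Prop) → Prop) (a : ℕ) : Bx → Prop
  | .mk f => ∀ lp sl, SL W M lp → SS W M sl → ∀ e, GE W M e → ∀ k S T C,
    Iv W M T C → f lp sl e k S T C = true → Fi W M (2 ^ a) C k

theorem Iv.drop {T C a : ℕ} (h : Iv W M T C) (k : Kl W M (2 ^ a) C) :
    Iv W M (Nat.xor T (2 ^ a)) C := by
  intro w hw
  refine (h w hw).elim Or.inl fun z => ?_
  by_cases c : Sat W w (2 ^ a)
  · exact Or.inl (k w hw c)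
  · refine Or.inr fun q q1 q2 => ?_
    have : (2 ^ a).testBit q = false := Bool.eq_false_iff.2 fun n => c ⟨q, q1, n, q2⟩
    rw [tbx, z q q1 q2, this]
    rfl

theorem Kl.neg {d a C : ℕ} (hd : Good W M d) (k : Kl W M (Nat.xor d (2 ^ ((a + W) % (2 * W)))) C) :
    Kl W M (2 ^ a) C := by
  rintro w hw ⟨q, q1, q2, q3⟩
  obtain rfl := tb2.1 q2
  obtain ⟨p, p1, p2, p3⟩ := hd w hw
  refine k w hw ⟨p, p1, ?_, p3⟩
  have : (2 ^ ((q + W) % (2 * W))).testBit p = false := by
    refine Bool.eq_false_iff.2 fun n => ?_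
    have c := tb2.1 n
    by_cases g : q < W
    · rw [Nat.mod_eq_of_lt (by omega)] at c
      subst c
      exact L_excl p1 q3 p3
    · rw [show q + W = q - W + 2 * W by omega, Nat.add_mod_right, Nat.mod_eq_of_lt (by omega)] at c
      obtain rfl : q = p + W := by omega
      exact L_excl q1 p3 q3
  rw [tbx, p2, this]
  rfl

theorem Iv.kl {T C y : ℕ} (h : Iv W M T C) (z : Nat.beq (Nat.land y T) 0 = true) : Kl W M y C := by
  rintro w hw ⟨p, p1, p2, p3⟩
  refine (h w hw).elim id fun k => ?_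
  have : (Nat.land y T).testBit p = true := by rw [tba, p2, k p p1 p3]; rfl
  rw [Nat.eq_of_beq_eq_true z] at this
  simp at this

theorem Fi.neg {d a C : ℕ} {r : K3} (hd : Good W M d)
    (h : Fi W M (Nat.xor d (2 ^ ((a + W) % (2 * W)))) C
      fun S2 T2 L2 => r S2 (Nat.xor T2 (2 ^ a)) L2) : Fi W M (2 ^ a) C r := by
  obtain ⟨S2, T2, C2, a1, a2, a3, a4⟩ := h
  exact ⟨S2, _, C2, a1.drop (a2.neg hd), a2.neg hd, a3, a4⟩

theorem fF_ok (a n j : ℕ) : SF W M a (fF (2 ^ a) n j) := by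
  intro lp sl _ _ e _ k S T C hi hr
  have up : Kl W M C (Nat.lor C (2 ^ a)) := fun w _ ⟨p, p1, p2, p3⟩ =>
    ⟨p, p1, by rw [tbo, p2]; rfl, p3⟩
  have u2 : Kl W M (2 ^ a) (Nat.lor C (2 ^ a)) := fun w _ ⟨p, p1, p2, p3⟩ =>
    ⟨p, p1, by rw [tbo, p2]; simp, p3⟩
  exact ⟨_, _, _, Iv.drop (fun w hw => (hi w hw).imp_left (up w hw)) u2, u2, up, hr⟩

theorem lit_eq (w : ℕ) (t : U) (j : ℕ) : lit W w t j =
    Q.mk (2 ^ pos j) (2 ^ ((pos j + W) % (2 * W))) (row w t (pos j)) := by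
  rw [← sl1, ← sl1]
  rfl

theorem en2_ok {TT w n a d : ℕ} {t : U} (hd : Good W M d) :
    SF W M a (en2 TT (lit W w t) (2 ^ a) n (Nat.xor d (2 ^ ((a + W) % (2 * W))))) := by
  have g : SF W M a (fG (2 ^ a) n (Nat.xor d (2 ^ ((a + W) % (2 * W))))) :=
    fun lp sl h1 _ e he k S T C hi hr => Fi.neg hd (h1 e he _ _ _ _ _ hi hr)
  unfold en2
  generalize hc : Nat.xor d (2 ^ ((a + W) % (2 * W))) = c at g ⊢
  cases Nat.beq c (Nat.gcd c TT)
  · exact g
  dsimp only
  generalize Nat.mod c (nat_lit 64261) = j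
  cases j with
  | zero => exact g
  | succ j =>
    dsimp only
    rw [lit_eq]
    dsimp only
    cases z : Nat.beq c (2 ^ pos j)
    · exact g
    intro lp sl _ h2 e he k S T C hi hr
    refine Fi.neg hd ?_
    rw [hc]
    dsimp only at hr
    cases y : Nat.beq (Nat.land c T) (nat_lit 0)
    · rw [y] at hr
      rw [Nat.eq_of_beq_eq_true z]
      exact h2 e he _ _ _ _ _ hi hr
    · rw [y] at hr
      exact ⟨_, T, C, hi, hi.kl y, fun _ _ z => z, hr⟩

theorem ent_ok {TT w B N : ℕ} {I : E} (hI : GE W M I) (t : U) (j x : ℕ) :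
    SF W M (pos j) (ent TT w B N I (lit W w t) j x) := by
  unfold ent
  rw [lit_eq]
  dsimp only
  generalize Nat.land B _ = d
  cases d with
  | zero => exact fF_ok _ _ _
  | succ h =>
    dsimp only
    cases Nat.ble N h
    · exact en2_ok (hI h)
    · exact fun lp sl h1 _ e he k S T C hi hr => Fi.neg (he h) (h1 e he _ _ _ _ _ hi hr)

theorem tow_t {A : Lp → Sel → Lp} {B : Lp → Sel → Sel}
    (hA : ∀ lp sl, SL W M lp → SS W M sl → SL W M (A lp sl))
    (hB : ∀ lp sl, SL W M lp → SS W M sl → SS W M (B lp sl)) (n : ℕ) (k : Lp → Sel → Bool)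
    (h : tow A B n k = true) : ∃ lp sl, SL W M lp ∧ SS W M sl ∧ k lp sl = true := by
  induction n generalizing k with
  | zero =>
    exact ⟨_, _, fun _ _ _ _ _ _ _ _ h => (by cases h), fun _ _ _ _ _ _ _ _ h => (by cases h), h⟩
  | succ n ih =>
    obtain ⟨lp, sl, a, b, c⟩ := ih (fun lp sl => k (A lp sl) (B lp sl)) h
    exact ⟨_, _, hA _ _ a b, hB _ _ a b, c⟩

theorem dfs_t {TT n : ℕ} {tb : ℕ → ℕ → Bx} (ht : ∀ j x, SF W M (pos j) (tb j x))
    {k : Lp → Sel → Bool} (h : dfs TT tb n k = true) :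
    ∃ lp sl, SL W M lp ∧ SS W M sl ∧ k lp sl = true := by
  refine tow_t ?_ ?_ n k h
  · intro lp sl h1 h2 e he y k S T C hi hr
    dsimp only at hr
    cases z : Nat.beq (Nat.land y T) (nat_lit 0)
    · rw [z] at hr
      dsimp only at hr
      generalize Nat.mod _ _ = j at hr
      cases j with
      | zero => cases hr
      | succ j =>
        obtain ⟨S2, T2, C2, a1, -, a3, a4⟩ := h2 e he _ _ _ _ _ hi hr
        obtain ⟨S3, T3, C3, b1, b2, b3, b4⟩ := h1 e he _ _ _ _ _ a1 a4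
        exact ⟨S3, T3, C3, b1, b2, fun w hw z => b3 w hw (a3 w hw z), b4⟩
    · rw [z] at hr
      exact ⟨S, T, C, hi, hi.kl z, fun _ _ z => z, hr⟩
  · intro lp sl h1 h2 e he k S T C j hi hr
    dsimp only at hr
    generalize Nat.mod _ _ = x at hr
    cases x with
    | zero => cases hr
    | succ x =>
      have o := ht j x
      dsimp only at hr
      generalize tb j x = f at hr o
      cases f
      exact o lp sl h1 h2 e he _ _ _ _ hi hr

theorem Snd.leaf (w B N : ℕ) {g : ℕ → ℕ → ℕ} {I : E} {lp : Lp} (hI : GE W M I)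
    (hg : ∀ j X, Good W M X → Good W M (g j X)) (hs : SL W M lp) :
    Snd W M (leaf W (2 ^ (2 * W)) w B N g I lp) := by
  intro e b S u k he hu hr
  unfold Rup.leaf at hr
  generalize Nat.land B S = d at hr
  cases d with
  | zero => exact ⟨I, S, u, hI, hu, hr⟩
  | succ h =>
    dsimp only at hr
    generalize Nat.ble (nat_lit 7) h = z at hr
    cases z
    · generalize Nat.land B (Nat.shiftRight S w) = d at hr
      cases d with
      | zero => cases hr
      | succ h1 =>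
        dsimp only at hr
        generalize Nat.ble (nat_lit 6) h = z at hr
        have gc := hI.sel he (Nat.ble N h1) h1
        generalize @Bool.rec (fun _ => ℕ) (I h1) (e h1) (Nat.ble N h1) = c at hr gc
        cases z
        · exact ⟨_, _, _, fun _ => hg h c gc, hu, hr⟩
        · dsimp only at hr
          cases z : Nat.beq (Nat.gcd (2 ^ (2 * W)) c) c
          · rw [z] at hr; cases hr
          · rw [z] at hr
            exact ⟨_, _, _, fun _ => gc, hu.add gc (Nat.eq_of_beq_eq_true z), hr⟩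
    · have e0 : @Nat.rec (fun _ => ℕ) u (fun _ _ => u) b = u := by cases b <;> rfl
      rw [e0] at hr
      obtain ⟨S1, _, C, -, a, -, c⟩ := hs e he _ _ _ _ _ (fun w hw => Or.inr (hu w hw)) hr
      exact ⟨_, _, _, fun _ w hw => a w hw (hI.sel he _ h w hw), hu, c⟩

/-- Every record of the tree decodes to a valid clause. -/
def GT (W : ℕ) (M : (ℕ → Prop) → Prop) (m s w : ℕ) (t : T) : Prop :=
  ∀ i, Good W M (dec m s (Nat.shiftRight (get t i) w))

theorem GT.node {m s w : ℕ} {a b : T} (k : ℕ) (ha : GT W M m s w a) (hb : GT W M m s w b) :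
    GT W M m s w (.node k a b) := by
  intro i
  show Good W M (dec m s (Nat.shiftRight
    (@Bool.rec (fun _ => ℕ) (get a i) (get b i) (Nat.ble k i)) w))
  cases Nat.ble k i
  · exact ha i
  · exact hb i

theorem GE.memo {I : E} (h : GE W M I) : GE W M (memo I) := h

theorem GE.ext {m s w : ℕ} (N : ℕ) {t : T} {I : E} (ht : GT W M m s w t) (h : GE W M I) :
    GE W M (ext m s w N t I) := fun i => h.sel ht _ i

/-- The class of valuations is stable under the map on clauses given by `p`. -/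
def Stab (W : ℕ) (M : (ℕ → Prop) → Prop) (p : P) : Prop := ∀ X, Good W M X → Good W M (app p X)

theorem Stab.it {p : P} (h : Stab W M p) (a : ℕ) {X : ℕ} (k : Good W M X) :
    Good W M (it p a X) := by
  induction a with
  | zero => exact k
  | succ a ih => exact h _ ih

theorem GE.inp {m s aw : ℕ} (A G : ℕ) {p q : P} {t : T} (hp : Stab W M p) (hq : Stab W M q)
    (ht : GT W M m s aw t) : GE W M (inp m s aw A G p q t) := fun _ => hp.it _ (hq.it _ (ht _))

theorem chk_t {w N m s A n : ℕ} {p q : P} {I : E} {t : U} {S : List ℕ} {u u1 : ℕ} {O : T}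
    (h : chk W w N m s A n p q I t S u u1 O = true) (hp : Stab W M p) (hq : Stab W M q)
    (hI : GE W M I) (hu : Un W M u) : Un W M u1 ∧ GT W M m s w O := by
  unfold chk at h
  dsimp only at h
  generalize Nat.shiftLeft (nat_lit 1) w = d at h
  cases d with
  | zero => cases h
  | succ B =>
    obtain ⟨lp, _, hl, -, h⟩ := dfs_t (ent_ok hI t) h
    change run W (Nat.shiftLeft 1 (2 * W)) w B N m s _ I lp S u u1 O = true at h
    rw [sl1] at h
    have := Snd.leaf (W := W) (M := M) w B N (g := img A p q) hI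
      (fun _ _ k => hp.it _ (hq.it _ k)) hl
    obtain ⟨f, _, u2, h1, h2, h3⟩ := ((((((((((((((((((this.dbl 1).dbl 2).dbl 4).dbl
      8).pop.dblL 16).dblL 32).dblL 64).dblL 128).dblL 256).dblL 512).dblL 1024).dblL 2048).dblL
      4096).dblL 8192).dblL 16384).dblL 32768).dblL 65536) I N S u _ hI hu h)
    have h4 := and_t (a := Nat.beq u2 u1) h3
    refine ⟨Nat.eq_of_beq_eq_true h4.1 ▸ h2, fun i => ?_⟩
    have := Nat.eq_of_beq_eq_true (allT_t h4.2 i)
    exact this ▸ h1 _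

theorem app_mono {p : P} {X a b : ℕ} (h : X.testBit a = true)
    (k : (app p (2 ^ a)).testBit b = true) : (app p X).testBit b = true := by
  induction p with
  | nil => exact k
  | cons m l r p ih =>
    change (Nat.lor (Nat.shiftRight (Nat.shiftLeft (Nat.land m _) l) r) (app p _)).testBit b = true
      at k ⊢
    rw [tbo, tbr, tbl, tba] at k ⊢
    simp only [Bool.or_eq_true, Bool.and_eq_true, tb2] at k ⊢
    rcases k with k | k
    · exact Or.inl ⟨k.1, k.2.1, k.2.2 ▸ h⟩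
    · exact Or.inr (ih k)

/-- The valuations of the listed variables given by the family `lv`. -/
def Md {Ω : Type} (lv : Ω → ℕ → Prop) (W tw tt : ℕ) (w : ℕ → Prop) : Prop :=
  ∃ ω, ∀ v, v < W → (w v ↔ lv ω (2 * rc tw tt v))

variable {Ω : Type} {lv : Ω → ℕ → Prop}

theorem gen_t {tw tt : ℕ} {f : ℕ → ℕ} {p : P} (hf : ∀ ω, ∃ ω', ∀ l, lv ω' l ↔ lv ω (f l))
    (h : ∀ v, v < W → gen W tw tt f p v = true) : Stab W (Md lv W tw tt) p := by
  have h' : ∀ v, v < W → pi p v < W ∧ (app p (2 ^ v)).testBit (pi p v) = true ∧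
      (app p (2 ^ (v + W))).testBit (pi p v + W) = true ∧
        f (2 * rc tw tt v) = 2 * rc tw tt (pi p v) := by
    intro v hv
    obtain ⟨a, b⟩ := and_t (a := Nat.ble (pi p v + 1) W) (h v hv)
    obtain ⟨b, c⟩ := and_t b
    obtain ⟨c, d⟩ := and_t c
    exact ⟨Nat.le_of_ble_eq_true a, sl1 v ▸ tb_t b, sl1 (v + W) ▸ tb_t c,
      Nat.eq_of_beq_eq_true d⟩
  rintro X hX w ⟨ω, hw⟩
  obtain ⟨ω', k⟩ := hf ω
  obtain ⟨a, a1, a2, a3⟩ := hX (fun v => w (pi p v)) ⟨ω', fun v hv => by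
    rw [k, (h' v hv).2.2.2]; exact hw _ (h' v hv).1⟩
  unfold L at a3
  split_ifs at a3 with c
  · obtain ⟨b1, b2, -⟩ := h' a c
    exact ⟨pi p a, by omega, app_mono a2 b2, by unfold L; rw [if_pos b1]; exact a3⟩
  · obtain ⟨b1, -, b2, -⟩ := h' (a - W) (by omega)
    rw [show a - W + W = a by omega] at b2
    refine ⟨pi p (a - W) + W, by omega, app_mono a2 b2, ?_⟩
    unfold L
    rw [if_neg (by omega), Nat.add_sub_cancel]
    exact a3

theorem chkS_t {tw tt : ℕ} {f g : ℕ → ℕ} {p q : P} (h : chkS W tw tt f g p q = true)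
    (hf : ∀ ω, ∃ ω', ∀ l, lv ω' l ↔ lv ω (f l)) (hg : ∀ ω, ∃ ω', ∀ l, lv ω' l ↔ lv ω (g l)) :
    Stab W (Md lv W tw tt) p ∧ Stab W (Md lv W tw tt) q :=
  ⟨gen_t hf fun v hv => (and_t (all2_t h v hv)).1, gen_t hg fun v hv => (and_t (all2_t h v hv)).2⟩

theorem lits_dec {m s : ℕ} {f g : ℕ → ℕ} (c x : ℕ) (h : x ∈ lits m s f g c) :
    ∃ l, (dec m s c).testBit l = true ∧ (x = f l ∨ x = g l) := by
  refine q8_rel (fun (k : ℕ → List ℕ) (j : ℕ → ℕ) =>
      ∀ c, x ∈ k c → ∃ l, (j c).testBit l = true ∧ (x = f l ∨ x = g l))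
    (q8_rel _ (q8_rel _ ?_)) _ _ (fun _ h => by cases h) c h
  intro k j ih c h
  beta_reduce at h ⊢
  generalize Nat.land m c = d at h ⊢
  cases d with
  | zero => cases h
  | succ l =>
    have z : (x = f l ∨ x = g l) ∨ x ∈ k (Nat.shiftRight c s) := by
      generalize Nat.land (Nat.succ m) c = d at h
      cases d with
      | zero => exact (List.mem_cons.1 h).imp_left Or.inl
      | succ _ => exact (List.mem_cons.1 h).imp_left Or.inr
    change ∃ l', (Nat.lor (Nat.shiftLeft 1 l) (j (Nat.shiftRight c s))).testBit l' = true ∧ _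
    rcases z with z | z
    · exact ⟨l, by rw [tbo, sl1, tb2.2 rfl]; rfl, z⟩
    · obtain ⟨l', a, b⟩ := ih _ z
      exact ⟨l', by rw [tbo, a]; simp, b⟩

theorem alt_t {lv : ℕ → Prop} {ok : ℕ → List ℕ → Bool} (hn : ∀ c, lv (2 * c + 1) ↔ ¬ lv (2 * c))
    (hok : ∀ a c, ok a c = true → ∃ l ∈ c, lv l) {c : ℕ} (h : lv (alt ok c)) : lv c := by
  unfold alt at h
  generalize Nat.add c (off c) = x at h
  dsimp only at h
  cases z : ok (nat_lit 1) [c, x]
  · rw [z] at h; exact h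
  · rw [z] at h
    change lv (x ^^^ 1) at h
    obtain ⟨l, hl, k⟩ := hok _ _ z
    simp only [List.mem_cons, List.not_mem_nil, or_false] at hl
    rcases hl with rfl | rfl
    · exact k
    · exfalso
      rcases Nat.even_or_odd' l with ⟨d, e | e⟩
      · rw [e] at h k
        rw [Nat.xor_one_of_even ⟨d, by ring⟩] at h
        exact (hn d).1 h k
      · rw [e] at h k
        rw [Nat.xor_one_of_odd ⟨d, rfl⟩, Nat.add_sub_cancel] at h
        exact (hn d).1 k h

theorem chkI_t {ok : ℕ → List ℕ → Bool} {m s aw tw tt : ℕ} {t : T}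
    (h : chkI ok W m s aw tw tt t = true) (hn : ∀ ω c, lv ω (2 * c + 1) ↔ ¬ lv ω (2 * c))
    (hok : ∀ ω a c, ok a c = true → ∃ l ∈ c, lv ω l) : GT W (Md lv W tw tt) m s aw t := by
  rintro i w ⟨ω, hw⟩
  obtain ⟨a, b⟩ := and_t (a := Nat.ble (Nat.succ (dec m s (Nat.shiftRight (get t i) aw)))
    (Nat.shiftLeft 1 (2 * W))) (allT_t h i)
  obtain ⟨x, hx, k⟩ := hok ω _ _ b
  obtain ⟨l, l1, l2⟩ := lits_dec _ _ hx
  have l3 : l < 2 * W := by
    by_contra z
    have := Nat.le_of_ble_eq_true a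
    rw [sl1] at this
    rw [Nat.testBit_lt_two_pow (lt_of_lt_of_le this
      (Nat.pow_le_pow_right (by norm_num) (not_lt.1 z)))] at l1
    cases l1
  have k' : lv ω (2 * rc tw tt (l % W) + l / W) := by
    rcases l2 with rfl | rfl
    · exact k
    · exact alt_t (hn ω) (hok ω) k
  refine ⟨l, l3, l1, ?_⟩
  unfold L
  split_ifs with c
  · rw [Nat.mod_eq_of_lt c, Nat.div_eq_of_lt c] at k'
    exact (hw l c).2 k'
  · have e1 : l / W = 1 := by
      apply Nat.div_eq_of_lt_le <;> omega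
    have e2 : l % W = l - W := by
      rw [Nat.mod_eq_sub_mod (by omega), Nat.mod_eq_of_lt (by omega)]
    rw [e1, e2] at k'
    rw [hw _ (by omega)]
    exact (hn ω _).1 k'

theorem fin {m s w tw tt : ℕ} (i : ℕ) {t : T} (h : GT W (Md lv W tw tt) m s w t) (ω : Ω)
    (e : Nat.beq (dec m s (Nat.shiftRight (get t i) w)) 0 = true) : False := by
  obtain ⟨_, -, z, -⟩ := h i (fun v => lv ω (2 * rc tw tt v)) ⟨ω, fun _ _ => Iff.rfl⟩
  rw [Nat.eq_of_beq_eq_true e] at z
  simp at z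

theorem litv_neg (val : Ω → ℕ → Prop) (ω : Ω) (c : ℕ) :
    Gl.litv (val ω) (2 * c + 1) ↔ ¬ Gl.litv (val ω) (2 * c) := by
  unfold Gl.litv
  rw [if_neg (by omega), if_pos (by omega), show (2 * c + 1) / 2 = 2 * c / 2 by omega]

theorem triv {s : Gl.Shp} {lem : ℕ → List ℕ} (h0 : Gl.ok s lem 4 [0] = true)
    (h1 : Gl.ok s lem 4 [1] = true) : Gl.TopS s lem := by
  intro _ val hok _ o
  obtain ⟨a, ha, h⟩ := hok o 4 _ h0
  obtain ⟨b, hb, k⟩ := hok o 4 _ h1
  rw [List.mem_singleton] at ha hb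
  subst ha hb
  exact (litv_neg val o 0).1 k h

end Pool.Agent.Lib.MP_ad48ef_co.Rup
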