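import Pool.Agent.Lib.MP_ad48ef_co.DskGeo
import Pool.Agent.Lib.MP_ad48ef_co.RupSound

/-!
# The meaning of the states of the disk checker
-/

namespace Pool.Agent.Lib.MP_ad48ef_co.Dsk

def rel (D : Disk) : ℕ → D.X → D.X → Prop
  | 0, x, y => D.G.Adj x y
  | 1, x, y => x ≠ y
  | 2, x, y => ¬ D.G.Adj x y
  | _, x, y => ∀ z, D.G.Adj x z → D.G.Adj z y → False

variable {D : Disk} {ρ : ℕ → D.X} {n M R z : ℕ} {x : D.X}

theorem rel.symm {f : ℕ} {x y : D.X} (h : rel D f x y) : rel D f y x := by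
  match f, h with
  | 0, h => exact SimpleGraph.Adj.symm h
  | 1, h => exact Ne.symm h
  | 2, h => exact fun k => h k.symm
  | _ + 3, h => exact fun z a b => h z b.symm a.symm

def RS (D : Disk) (ρ : ℕ → D.X) (n R : ℕ) (x : D.X) : Prop :=
  ∀ f j, j < 32 → R.testBit (32 * f + j) = true → f < 4 ∧ j < n ∧ rel D f x (ρ j)

def MS (D : Disk) (ρ : ℕ → D.X) (n M : ℕ) : Prop := ∀ a f j, f < 4 → j < 32 →
  M.testBit (128 * a + 32 * f + j) = true → a < n ∧ j < n ∧ rel D f (ρ a) (ρ j)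

theorem RS.lt (h : RS D ρ n R x) (hn : n ≤ 31) : R < 2 ^ 127 := lt_of fun q hq => by
  have := h (q / 32) (q % 32) (Nat.mod_lt _ (by norm_num)) (by rwa [Nat.div_add_mod])
  omega

theorem RS.or {S : ℕ} (h : RS D ρ n R x) (k : RS D ρ n S x) : RS D ρ n (Nat.lor R S) x :=
  fun f j m e => (tbo.1 e).elim (h f j m) (k f j m)

theorem RS.sh (f : ℕ) {o X : ℕ} (ho : o = 32 * f) (hf : f < 4) (hn : n ≤ 31)
    (h : ∀ j, X.testBit j = true → j < n ∧ rel D f x (ρ j)) :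
    RS D ρ n (Nat.shiftLeft X o) x := by
  intro g j m e
  rw [tbl] at e
  have := h _ e.2
  obtain rfl : g = f := by omega
  rw [show 32 * g + j - o = j by omega] at this
  exact ⟨hf, this⟩

theorem RS.one (f : ℕ) {o a : ℕ} (ho : o = 2 ^ (32 * f)) (hf : f < 4) (hn : n ≤ 31) (ha : a < n)
    (h : rel D f x (ρ a)) : RS D ρ n (Nat.shiftLeft o a) x := by
  intro g j m e
  rw [tbl, ho, tb_p] at e
  obtain ⟨rfl, rfl⟩ : g = f ∧ j = a := by omega
  exact ⟨hf, ha, h⟩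

theorem MS.or {N : ℕ} (h : MS D ρ n M) (k : MS D ρ n N) : MS D ρ n (Nat.lor M N) :=
  fun a f j m l e => (tbo.1 e).elim (h a f j m l) (k a f j m l)

theorem MS.rc {a : ℕ} (h : MS D ρ n M) (k : RS D ρ n R (ρ a)) (ha : a < n) (hn : n ≤ 31) :
    MS D ρ n (rc M R a) := by
  intro b f j hf hj e
  rcases tb_rc (k.lt hn) (by omega) hf hj e with l | ⟨rfl, l⟩ | ⟨rfl, m, l⟩
  · exact h b f j hf hj l
  · exact ⟨ha, (k f j hj l).2⟩
  · exact ⟨(k f b (by omega) l).2.1, ha, (k f b (by omega) l).2.2.symm⟩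

theorem MS.rs {S : ℕ} (h : MS D ρ n M) (hR : R < 2 ^ 127) (hn : n ≤ 31)
    (k : ∀ a, S.testBit a = true → a < n ∧ RS D ρ n R (ρ a)) : MS D ρ n (rs M R S) := by
  intro b f j hf hj e
  rcases tb_rs hR (lt_of fun a ha => by have := (k a ha).1; omega) hf hj e with
    e | ⟨m, e⟩ | ⟨l, m, e⟩
  · exact h b f j hf hj e
  · exact ⟨(k b m).1, ((k b m).2 f j hj e).2⟩
  · exact ⟨((k j l).2 f b (by omega) e).2.1, (k j l).1, ((k j l).2 f b (by omega) e).2.2.symm⟩

theorem MS.row (h : MS D ρ n M) (a : ℕ) : RS D ρ n (row M a) (ρ a) := by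
  intro f j m e
  rw [tb_row, ← add_assoc] at e
  exact ⟨by omega, (h a f j (by omega) m e.2).2⟩

theorem MS.fld (h : MS D ρ n M) (f : ℕ) {a o j : ℕ} (ho : o = 32 * f) (hf : f < 4)
    (e : (fld M a o).testBit j = true) : a < n ∧ j < n ∧ rel D f (ρ a) (ρ j) := by
  rw [tb_fld, ho] at e
  exact h a f j hf e.1 e.2

theorem MS.nb (h : MS D ρ n M) {u : ℕ} (hu : u < n) (hn : n ≤ 31) (e : D.G.Adj x (ρ u)) :
    RS D ρ n (nb M u) x := by
  refine RS.or (RS.one 0 rfl (by omega) hn hu e) fun f j m k => ?_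
  rw [tba, tb_sr, sl7, show (nat_lit 0xffffffffffffffff00000000 : ℕ) =
    Nat.shiftLeft (2 ^ 64 - 1) 32 from by decide +kernel, tbl, tb_m] at k
  obtain ⟨-, a, b⟩ := h u (f + 1) j (by omega) m (by rw [← k.1]; congr 1; show _ = 128 * u + 32 + _; omega)
  refine ⟨by omega, a, ?_⟩
  obtain rfl | rfl : f = 1 ∨ f = 2 := by omega
  · rintro rfl; exact b e.symm
  · exact fun c => b x e.symm c

theorem MS.edge (h : MS D ρ n M) {u t : ℕ} (hu : u < n) (ht : t < n) (hn : n ≤ 31)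
    (e : D.G.Adj (ρ u) (ρ t)) : MS D ρ n (edge M u t) :=
  (h.rc (h.nb hu hn e.symm) ht hn).rc (h.nb ht hn e) hu hn

theorem MS.gat (h : MS D ρ n M) {S t : ℕ} (hS : ∀ q, S.testBit q = true → q < 31)
    (e : (gat M S).testBit t = true) :
    t < n ∧ ∃ j, S.testBit j = true ∧ D.G.Adj (ρ t) (ρ j) := by
  obtain ⟨-, j, a, b⟩ := gat_lo hS e
  have := h t 0 j (by omega) (by have := hS j a; omega) b
  exact ⟨this.1, j, a, this.2.2⟩

theorem tb_mul2 {X a b q : ℕ} (hX : X < 2 ^ 32) (hab : a + 32 ≤ b)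
    (h : (Nat.mul X (2 ^ a + 2 ^ b)).testBit q = true) :
    (a ≤ q ∧ X.testBit (q - a) = true) ∨ (b ≤ q ∧ X.testBit (q - b) = true) := by
  rw [Nat.mul_eq, mul_add, add_or _ _ fun i h1 h2 => by
    rw [Nat.testBit_mul_two_pow, Bool.and_eq_true, decide_eq_true_eq] at h1 h2
    have := of_lt hX h1.2
    omega, tbo, Nat.testBit_mul_two_pow, Nat.testBit_mul_two_pow] at h
  simpa using h

theorem MS.cl (h : MS D ρ n M) {t : ℕ} (ht : t < n) (hn : n ≤ 31) : MS D ρ n (cl M t) := by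
  have hE : Dsk.fld M t 0 < 2 ^ 32 := lt_of fun i hi => (tb_fld.1 hi).1
  have s : ∀ q, (Nat.lor (Dsk.fld M t 96) (Nat.mul (Dsk.fld M t 0)
      0x1000000010000000000000000)).testBit q = true → (q < n ∧ rel D 3 (ρ t) (ρ q)) ∨
        ∃ j, j < n ∧ (q = 64 + j ∨ q = 96 + j) ∧ D.G.Adj (ρ t) (ρ j) := by
    intro q hq
    rcases tbo.1 hq with hq | hq
    · exact Or.inl (h.fld 3 rfl (by omega) hq).2
    · rcases tb_mul2 (a := 64) (b := 96) hE (by omega) hq with ⟨a, b⟩ | ⟨a, b⟩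
      · exact Or.inr ⟨_, (h.fld 0 rfl (by omega) b).2.1, by omega, (h.fld 0 rfl (by omega) b).2.2⟩
      · exact Or.inr ⟨_, (h.fld 0 rfl (by omega) b).2.1, by omega, (h.fld 0 rfl (by omega) b).2.2⟩
  have g : Gd _ := fun q hq => by
    rcases s q hq with k | ⟨j, k1, k2, -⟩ <;> omega
  refine h.rc (RS.or (RS.or (fun f j m e => ?_) (RS.sh 2 rfl (by omega) hn fun j e => ?_))
    (RS.sh 1 rfl (by omega) hn fun j e => ?_)) ht hn
  · rw [tb_sr, show 32 + (32 * f + j) = 32 * (f + 1) + j by omega, tb_gat g m] at e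
    obtain ⟨a, b, i, c, d, e⟩ := e
    obtain ⟨p1, p2, p3⟩ := h j (f + 1) i a (by omega) e
    rcases s _ d with k | ⟨l, k1, k2, k3⟩
    · omega
    obtain rfl : l = i := by omega
    refine ⟨by omega, p1, ?_⟩
    obtain rfl | rfl : f = 1 ∨ f = 2 := by omega
    · exact fun c => p3 (c ▸ k3)
    · exact fun c => p3 _ c.symm k3
  · rw [tba, tb32] at e
    obtain ⟨a, b, i, c, d, e⟩ := (tb_gat (f := 0) g e.2).1 (by simpa using e.1)
    obtain ⟨p1, p2, p3⟩ := h j 0 i a (by omega) e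
    rcases s _ d with k | ⟨l, k1, k2, k3⟩
    · rw [show 32 * 0 + i = i by omega] at k
      exact ⟨p1, fun c => k.2 _ c p3⟩
    · omega
  · obtain ⟨a, i, b, c⟩ := h.gat (fun q hq => by have := (h.fld 2 rfl (by omega) hq).2.1; omega) e
    exact ⟨a, fun d => (h.fld 2 rfl (by omega) b).2.2 (d ▸ c)⟩

structure St (D : Disk) (z M n : ℕ) (ρ : ℕ → D.X) : Prop where
  n7 : 7 ≤ n
  n30 : n ≤ 30
  bd : ∀ i, i < 7 → ρ i = D.b i
  int : ∀ i, 7 ≤ i → i < n → D.I (ρ i)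
  ms : MS D ρ n M
  zl : ∀ t, z.testBit t = true → t < n
  dom : z ≠ 0 → ∀ w, D.I w → ∃ t, z.testBit t = true ∧ D.G.Adj w (ρ t)

theorem St.set {N : ℕ} (h : St D z M n ρ) (k : MS D ρ n N) : St D z N n ρ :=
  ⟨h.n7, h.n30, h.bd, h.int, k, h.zl, h.dom⟩

theorem St.n31 (h : St D z M n ρ) : n ≤ 31 := h.n30.trans (by omega)

theorem St.im (h : St D z M n ρ) {S t : ℕ} (e : (Nat.land S (im n)).testBit t = true) :
    7 ≤ t ∧ t < n := (tb_im h.n7).1 (tba.1 e).2

theorem St.new (h : St D z M n ρ) (hn : n ≤ 29) {r : ℕ} (hI : D.I x) (hR : RS D ρ n R x)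
    (hr : ∀ t, r.testBit t = true → t < 7 ∧ ∀ x, D.I x → ¬ D.G.Adj x (D.b t)) :
    St D z (rc M (Nat.lor R (Nat.lor (Nat.lor 0x7f00000000 (Nat.shiftLeft r 64))
      (Nat.shiftLeft 0x10000000000000000 n))) n) (n + 1) (Function.update ρ n x) := by
  have u : ∀ i, i < n → Function.update ρ n x i = ρ i := fun i hi =>
    Function.update_of_ne (by omega) _ _
  have v : Function.update ρ n x n = x := Function.update_self ..
  have n7 := h.n7
  refine ⟨by omega, by omega, fun i hi => by rw [u i (by omega), h.bd i hi], fun i a b => ?_,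
    MS.rc (fun a f j hf hj e => ?_) ?_ (by omega) (by omega), fun t e => (h.zl t e).trans (by omega),
    fun e w hw => ?_⟩
  · by_cases c : i = n
    · rwa [c, v]
    · rw [u i (by omega)]; exact h.int i a (by omega)
  · obtain ⟨p, q, k⟩ := h.ms a f j hf hj e
    rw [u a p, u j q]
    exact ⟨by omega, by omega, k⟩
  · rw [v]
    refine RS.or (fun f j m e => ?_) (RS.or (RS.or
      (RS.sh (X := 127) 1 rfl (by omega) (by omega) fun j e => ?_)
      (RS.sh 2 rfl (by omega) (by omega) fun j e => ?_))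
      (RS.one 2 (by norm_num) (by omega) (by omega) (by omega) ?_))
    · obtain ⟨p, q, k⟩ := hR f j m e
      rw [u j q]
      exact ⟨p, by omega, k⟩
    · have := tb127.1 e
      rw [u j (by omega), h.bd j this]
      exact ⟨by omega, fun c => D.off j this (c ▸ hI)⟩
    · have := hr j e
      rw [u j (by omega), h.bd j this.1]
      exact ⟨by omega, this.2 x hI⟩
    · rw [v]; exact D.G.irrefl
  · obtain ⟨t, a, b⟩ := h.dom e w hw
    exact ⟨t, a, by rwa [u t (h.zl t a)]⟩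

/-- No disk with the listed atoms contains the configuration described by the statement `r`. -/
def Val (A : ℕ → ℕ) (ts r : ℕ) : Prop := ∀ (D : Disk) (ρ : ℕ → D.X),
  (∀ j, (uh ts r).testBit j = true → D.holds (A j)) → St D (uz r) (uR r) (7 + uk r) ρ → False

structure Cx (g : G) (D : Disk) : Prop where
  hy : ∀ j, g.h.testBit j = true → D.holds (g.A j)
  i7 : ∀ i, i < 7 → g.i7.testBit i = true → D.G.Adj (D.b (ca i)) (D.b (cz i)) →
    D.K.Adj (some (D.b (ca i))) (some (D.b (cz i)))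
  r7 : ∀ t, g.r7.testBit t = true → t < 7 ∧ ∀ x, D.I x → ¬ D.G.Adj x (D.b t)
  df : g.df = Nat.lor 0x7f00000000 (Nat.shiftLeft g.r7 64)
  ref : ∀ i, i < g.nl → Val g.A g.ts (g.t i)

def Sn (f : F) (Q : Prop) : Prop :=
  ∀ c s k, f c s k = true → (∃ c' s', k c' s' = true) ∧ Q

def No (D : Disk) (z M n : ℕ) (P : (ℕ → D.X) → Prop) : Prop := ∀ ρ, St D z M n ρ → P ρ → False

def Ok (D : Disk) (g : G) (nx : PF) : Prop :=
  ∀ x M n, Sn (nx x M n) (No D g.z M n fun _ => True)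

theorem Sn.mono {f : F} {P Q : Prop} (h : Sn f P) (k : P → Q) : Sn f Q :=
  fun c s e l => ⟨(h c s e l).1, k (h c s e l).2⟩

theorem Sn.seq {f g : F} {P Q : Prop} (h : Sn f P) (k : Sn g Q) :
    Sn (fun c s k => f c s fun c1 s1 => g c1 s1 k) (P ∧ Q) := by
  intro c s e l
  obtain ⟨⟨c1, s1, a⟩, b⟩ := h _ _ _ l
  exact ⟨(k _ _ _ a).1, b, (k _ _ _ a).2⟩

theorem nz_t {x : ℕ} {a b : Bool} (h : nz x a b = true) :
    (x = 0 ∧ a = true) ∨ (x ≠ 0 ∧ b = true) := by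
  cases x
  exacts [Or.inl ⟨rfl, h⟩, Or.inr ⟨Nat.succ_ne_zero _, h⟩]

theorem nz_f {x : ℕ} {b : Bool} (h : nz x false b = true) : x ≠ 0 ∧ b = true := by
  simpa using nz_t h

theorem nz_0 {x : ℕ} {a : Bool} (h : nz x a false = true) : x = 0 ∧ a = true := by
  simpa using nz_t h

theorem cb_f {p b : Bool} (h : cb p false b = true) : p = true ∧ b = true := by
  cases p
  · cases h
  · exact ⟨rfl, h⟩

theorem nm_tb {p t : ℕ} (h : (p + 1).testBit t = true) : t = lo p ∨ (nm p).testBit t = true := by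
  by_cases e : t = lo p
  · exact Or.inl e
  · exact Or.inr (tb_dif.2 ⟨h, by rw [← Bool.not_eq_true, tb_bt]; exact e⟩)

theorem Sn.lp {f : ℕ → F} {Q : ℕ → Prop} (h0 : Q 0) (h : ∀ p, Sn (f p) (Q (nm p) → Q (p + 1)))
    (m : ℕ) : Sn (lp f m) (Q m) := by
  refine Rup.q8_ind (fun nx : ℕ → F => ∀ m, Sn (nx m) (Q m)) (Rup.q8_ind _ fun nx ih m => ?_) _
    (fun _ _ _ _ e => by cases e) m
  cases m with
  | zero => exact fun c s k e => ⟨⟨c, s, e⟩, h0⟩
  | succ p => exact ((h p).seq (ih (nm p))).mono fun a => a.1 a.2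

/-- A loop that refutes one case for each bit. -/
theorem Sn.lp1 {f : ℕ → F} {Q : ℕ → Prop} (h : ∀ p, Sn (f p) (Q (lo p))) (m : ℕ) :
    Sn (Dsk.lp f m) (∀ t, m.testBit t = true → Q t) :=
  Sn.lp (Q := fun m => ∀ t, m.testBit t = true → Q t) (by simp)
    (fun p => (h p).mono fun a b t e => (nm_tb e).elim (· ▸ a) (b t)) m

theorem tl_t {r o S c : ℕ} {k : K} (h : tl r o S c k = true) : ∃ S c, k S c = true := by
  refine Rup.q8_ind (fun nx : ℕ → ℕ → K → Bool => ∀ S c k, nx S c k = true → ∃ S c, k S c = true)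
    (Rup.q8_ind _ fun nx ih S c k e => ?_) _ (fun _ _ _ e => by cases e) S c k h
  rcases nz_t e with e | e
  exacts [⟨_, _, e.2⟩, ih _ _ _ e.2]

theorem Sn.dl {g : G} {x n : ℕ} {f : ℕ → F} {Q : Prop}
    (h : ∀ S, Sn (f (Nat.land S (im n))) Q) : Sn (dl g x n f) Q := by
  intro c s k e
  change (dls _).f n f _ s k = true at e
  generalize ens _ _ _ = y at e
  unfold dls at e
  split at e
  · exact h 0 _ _ _ (by rwa [show Nat.land 0 (im n) = 0 from Nat.zero_and _])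
  · exact h _ _ _ _ e
  · dsimp only at e
    obtain ⟨S, c2, l⟩ := tl_t e
    exact h _ _ _ _ l

theorem Sn.esc {g : G} {x : ℕ} {a b : F} {Q : Prop} (h : Sn a Q) (l : Sn b Q) :
    Sn (esc g x a b) Q := by
  intro c s k e
  change (ess _).f a b _ s k = true at e
  generalize ens _ _ _ = y at e
  unfold ess at e
  split at e
  exacts [l _ _ _ e, h _ _ _ e]

theorem Sn.nw {g : G} (C : Cx g D) {f : ℕ → ℕ → F} {P : (ℕ → D.X) → Prop}
    (h : ∀ M, Sn (f M (n + 1)) (No D g.z M (n + 1) P)) :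
    Sn (nw g f M n R) (∀ ρ x, St D g.z M n ρ → D.I x → RS D ρ n R x →
      P (Function.update ρ n x) → False) := by
  intro c s k e
  obtain ⟨a, b⟩ := cb_f e
  rw [C.df] at b
  exact ⟨(h _ _ _ _ b).1, fun ρ x p q r => (h _ _ _ _ b).2 _
    (p.new (Nat.le_of_ble_eq_true a) q r C.r7)⟩

def Rx (rx : RX) : Prop :=
  ∀ n c k, rx n c k = true → ∃ u c', 7 ≤ u ∧ u < n ∧ k u c' = true

theorem rx0_ok : Rx rx0 := by
  intro n c k e
  obtain ⟨a, b⟩ := cb_f e
  have : 8 ≤ n := Nat.le_of_ble_eq_true a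
  exact ⟨n - 1, c, by omega, by omega, b⟩

theorem rx1_ok : Rx rx1 := by
  intro n c k e
  unfold rx1 at e
  generalize h : Nat.sub n 7 = m at e
  cases m with
  | zero => cases e
  | succ m =>
    have : c % (m + 1) < m + 1 := Nat.mod_lt _ m.succ_pos
    have h' : n - 7 = m + 1 := h
    exact ⟨7 + c % (m + 1), _, by omega, by omega, e⟩

end Pool.Agent.Lib.MP_ad48ef_co.Dsk
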