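import Pool.Agent.Lib.MP_ad48ef_co.DskR

/-!
# Soundness of the disk checker
-/

namespace Pool.Agent.Lib.MP_ad48ef_co.Dsk

variable {D : Disk} {ρ : ℕ → D.X} {n M z : ℕ} {g : G} {nx : PF}

theorem sl_ok (t : ℕ) : Hh D (sl t).f := by
  unfold sl
  split
  exacts [hX_ok ux0_ok rs0_ok fn0_ok, hX_ok ux0_ok rs1_ok fn0_ok, hX_ok ux1_ok rs0_ok fn0_ok,
    hX_ok ux1_ok rs1_ok fn0_ok, hX_ok ux0_ok rs0_ok fn1_ok, hX_ok ux0_ok rs1_ok fn1_ok,
    hX_ok ux1_ok rs0_ok fn1_ok, hX_ok ux1_ok rs1_ok fn1_ok, hA_ok rx0_ok, hA_ok rx1_ok,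
    hP_ok rx0_ok, hP_ok rx1_ok, hZ_ok rx0_ok, hZ_ok rx1_ok, hR_ok, hQ_ok, hM_ok, hL_ok, hE_ok,
    hC_ok, hO_ok, fun _ _ _ _ _ _ _ _ _ e => by cases e]

theorem step_ok (C : Cx g D) (an : ℕ → ℕ) (nx : PF) (h : Ok D g nx) : Ok D g (step an g nx) := by
  intro x M n c s k e
  change (sl (ens an x (Nat.land c 127))).f g nx M n _ s k = true at e
  exact sl_ok _ g nx M n C h _ s k e

theorem pf_ok (C : Cx g D) (an : ℕ → ℕ) : Ok D g (pf an g) :=
  Rup.q8_ind (Ok D g) (Rup.q8_ind _ (Rup.q8_ind _ (step_ok C an))) _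
    fun _ _ _ _ _ _ e => by cases e

theorem pr_ok {df R : ℕ} (hR : MS D ρ n R) (hn : n ≤ 31)
    (hd : ∀ t, 7 ≤ t → t < n → RS D ρ n df (ρ t)) (j : ℕ) :
    ∀ t M, 7 ≤ t → t + j ≤ n → MS D ρ n M → MS D ρ n (pr df R j t M) := by
  induction j with
  | zero => exact fun _ _ _ _ => id
  | succ j ih =>
    exact fun t M a b h => ih (t + 1) _ (by omega) (by omega) ((h.rc ((hR.row t).or
      ((hd t a (by omega)).or (RS.one 2 rfl (by omega) hn (by omega) D.G.irrefl))) (by omega)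
      hn).cl (by omega) hn)

theorem cS_ok (s : St D z M n ρ) : MS D ρ n cS := by
  intro a f j hf hj e
  have l : 128 * a + 32 * f + j < 896 := of_lt (by decide +kernel) e
  have a7 : a < 7 := by omega
  have j7 := (by decide +kernel : ∀ a < 7, ∀ f < 4, ∀ j < 32,
    cS.testBit (128 * a + 32 * f + j) = true → j < 7) a a7 f hf j hj e
  have n7 := s.n7
  refine ⟨by omega, by omega, ?_⟩
  rw [s.bd a a7, s.bd j j7]
  obtain rfl | rfl | rfl | rfl : f = 0 ∨ f = 1 ∨ f = 2 ∨ f = 3 := by omega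
  · rcases (by decide +kernel : ∀ a < 7, ∀ j < 7, cS.testBit (128 * a + 32 * 0 + j) = true →
      a + 1 = j ∨ j + 1 = a) a a7 j j7 e with rfl | rfl
    exacts [D.path a (by omega), (D.path j (by omega)).symm]
  · exact fun c => (by decide +kernel : ∀ a < 7, ∀ j < 7,
      cS.testBit (128 * a + 32 * 1 + j) = true → a ≠ j) a a7 j j7 e (D.inj _ _ a7 j7 c)
  · rcases (by decide +kernel : ∀ a < 7, ∀ j < 7, cS.testBit (128 * a + 32 * 2 + j) = true →
      a = j ∨ lev a + 2 ≤ lev j ∨ lev j + 2 ≤ lev a) a a7 j j7 e with rfl | q | q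
    exacts [D.G.irrefl, D.non _ _ a7 j7 q, fun c => D.non _ _ j7 a7 q c.symm]
  · rcases (by decide +kernel : ∀ a < 7, ∀ j < 7, cS.testBit (128 * a + 32 * 3 + j) = true →
      7 * a + j ∈ [21, 27, 3, 45]) a a7 j j7 e with k
    have : a = 3 ∧ (j = 0 ∨ j = 6) ∨ j = 3 ∧ (a = 0 ∨ a = 6) := by
      simp only [List.mem_cons, List.not_mem_nil, or_false] at k
      omega
    rcases this with ⟨rfl, rfl | rfl⟩ | ⟨rfl, rfl | rfl⟩
    exacts [fun y p q => D.far0 y p q.symm, fun y p q => D.far6 y p q.symm,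
      fun y p q => D.far0 y q.symm p, fun y p q => D.far6 y q.symm p]

/-- The first entries of the table of atoms. -/
abbrev TA (A : ℕ → ℕ) : Prop := ∀ i < 7, A i = 2 + 16 * ca i + 2048 * cz i ∧
  A (7 + i) = 8 + 16 * i + 2048 * 0 ∧ A (14 + i) = 0 + 16 * ca i + 2048 * cz i ∧
  A (21 + i) = 1 + 16 * ca i + 2048 * cz i

theorem hold_eq {t a b : ℕ} (ht : t < 16) (ha : a < 7) (hb : b < 7)
    (h : D.holds (t + 16 * a + 2048 * b)) : D.atom t a b 0 := by
  rwa [Disk.holds, show (t + 16 * a + 2048 * b) % 16 = t by omega,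
    show (t + 16 * a + 2048 * b) / 16 % 128 = a by omega,
    show (t + 16 * a + 2048 * b) / 2048 % 128 = b by omega,
    show (t + 16 * a + 2048 * b) / 262144 = 0 by omega] at h

variable {A t an : ℕ → ℕ} {ts : ℕ}

theorem ch2_ok (s : St D z M n ρ) (hA : TA A) {h : ℕ}
    (hy : ∀ j, h.testBit j = true → D.holds (A j)) : MS D ρ n (ch2 (Nat.shiftRight h 14)) := by
  have n7 := s.n7
  intro a f j hf hj e
  rcases tbo.1 e with e | e
  · obtain ⟨i, i1, i2, i3, i4, i5⟩ := ch1_ok e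
    rw [tb_sr] at i2
    have : rel D 0 (ρ (ca i)) (ρ (cz i)) := by
      rw [s.bd _ i3, s.bd _ i4]
      exact hold_eq (by omega) i3 i4 ((hA i i1).2.2.1 ▸ hy _ i2)
    rcases i5 with i5 | i5
    · obtain ⟨rfl, rfl, rfl⟩ : a = ca i ∧ f = 0 ∧ j = cz i := by omega
      exact ⟨by omega, by omega, this⟩
    · obtain ⟨rfl, rfl, rfl⟩ : a = cz i ∧ f = 0 ∧ j = ca i := by omega
      exact ⟨by omega, by omega, this.symm⟩
  · rw [tbl] at e
    obtain ⟨i, i1, i2, i3, i4, i5⟩ := ch1_ok e.2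
    rw [tb_sr, tb_sr, ← add_assoc] at i2
    have : rel D 2 (ρ (ca i)) (ρ (cz i)) := by
      rw [s.bd _ i3, s.bd _ i4]
      exact hold_eq (by omega) i3 i4 ((hA i i1).2.2.2 ▸ hy _ i2)
    rcases i5 with i5 | i5
    · obtain ⟨rfl, rfl, rfl⟩ : a = ca i ∧ f = 2 ∧ j = cz i := by omega
      exact ⟨by omega, by omega, this⟩
    · obtain ⟨rfl, rfl, rfl⟩ : a = cz i ∧ f = 2 ∧ j = ca i := by omega
      exact ⟨by omega, by omega, this.symm⟩

/-- The first `n` statements are refuted. -/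
def Rng (A t : ℕ → ℕ) (ts n : ℕ) : Prop := ∀ i, i < n → Val A ts (t i)

theorem cx_ok (hA : TA A) {i r m h : ℕ} (v : Rng A t ts i)
    (hy : ∀ j, h.testBit j = true → D.holds (A j)) (z : ℕ) : Cx (mkG A t an ts i r m h z) D := by
  refine ⟨hy, fun i p q => ?_, fun i q => ?_, rfl, v⟩
  · have k := (by decide : ∀ i < 7, ca i < 7 ∧ cz i < 7) i p
    exact hold_eq (t := 2) (by omega) k.1 k.2 ((hA i p).1 ▸ hy _ (tba.1 q).1)
  · have p := tb127.1 (tba.1 q).2
    have q := (tba.1 q).1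
    rw [tb_sr] at q
    refine ⟨p, fun x a b => ?_⟩
    have := hold_eq (t := 8) (by omega) p (by omega) ((hA i p).2.1 ▸ hy _ q) [x] (by simp)
      (by simpa using ⟨a, b⟩)
    simp at this

theorem hub_ok {g : ℕ → G} (C : ∀ z, Cx (g z) D) (gz : ∀ z, (g z).z = z) (s : St D z M n ρ)
    {a R c : ℕ} {x : D.X} (i : D.I x) (r : RS D ρ n R x) (ha : ∀ t, a.testBit t = true → t < 7)
    (d : ∀ w, D.I w → D.A1 w a ∨ D.G.Adj w x)
    (e : nw (g 0) (fun M1 n1 c _ _ => lm4 an (g (Nat.lor (bt n) a)) M1 n1 c) M n R c 0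
      (fun _ _ => true) = true) : False := by
  obtain ⟨l, e⟩ := cb_f e
  rw [(C 0).df] at e
  have k := s.new (Nat.le_of_ble_eq_true l) i r (C 0).r7
  have n7 := s.n7
  refine (pf_ok (C _) an _ _ _ _ _ _ e).2 _ ⟨k.n7, k.n30, k.bd, k.int, k.ms, fun t y => ?_,
    fun _ w y => ?_⟩ trivial
  · rw [gz, tbo, tb_bt] at y
    rcases y with y | y
    exacts [by omega, by have := ha t y; omega]
  · rw [gz]
    rcases d w y with ⟨t, p, q, u⟩ | u
    · exact ⟨t, tbo.2 (Or.inr q), by rwa [k.bd t p]⟩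
    · exact ⟨n, tbo.2 (Or.inl (tb_bt.2 rfl)), by rwa [Function.update_self]⟩

theorem cb_t {p a b : Bool} (h : cb p a b = true) : (p = false ∧ a = true) ∨ (p = true ∧ b = true) := by
  cases p
  exacts [Or.inl ⟨rfl, h⟩, Or.inr ⟨rfl, h⟩]

theorem lm2_ok {g : ℕ → G} (C : ∀ z, Cx (g z) D) (gz : ∀ z, (g z).z = z) (s : St D z M n ρ)
    {m c : ℕ} (e : lm2 an g z m M n c = true) : False := by
  rcases nz_t e with ⟨-, e⟩ | ⟨-, e⟩
  · exact (pf_ok (C _) an _ _ _ _ _ _ e).2 ρ (by rwa [gz]) trivial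
  have q := ltg_ok (C 0) (Nat.mod (Nat.shiftRight c 1) m)
  generalize ltg _ _ = y at e q
  generalize (g 0).A _ = d at e q
  unfold lm3 at e
  rcases cb_t e with ⟨-, e1⟩ | ⟨b, e1⟩
  · obtain ⟨p, e2⟩ := cb_f e1
    have p : y + 16 * pk d = 31 := Nat.eq_of_beq_eq_true p
    obtain ⟨rfl, k⟩ : y = 15 ∧ pk d = 1 := by omega
    obtain ⟨l, -, l1, l2, l3⟩ := (q.resolve_left (by omega)).2
    obtain ⟨x, rfl⟩ := List.length_eq_one_iff.1 (l1.trans k)
    exact hub_ok C gz s (l2 x (by simp)) (fun _ _ _ y => by simp at y) (fun _ => pa_tb)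
      (fun w i => (l3 w i).imp_right fun y => by simpa using y) e2
  · obtain rfl : y = 9 := Nat.eq_of_beq_eq_true b
    obtain ⟨x, x1, x2, x3⟩ := (q.resolve_left (by omega)).2
    exact hub_ok C gz s x1 (s.nb (by omega) x2) (fun _ => tb127.1) x3 e1

theorem lm_ok (hA : TA A) {i r S : ℕ} (v : Rng A t ts i) (e : lm A an t ts i r S = true) :
    Val A ts r := by
  intro D ρ hy s
  have C := cx_ok (an := an) (r := r) (m := Nat.land S 31) hA v hy
  refine lm2_ok C (fun _ => rfl) (s.set (pr_ok s.ms s.n31 (fun t a b => ?_) _ _ _ le_rfl le_rfl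
    ((cS_ok s).or (MS.or (fun a f j p q y => s.ms a f j p q (tbo.2 (Or.inl y)))
      (ch2_ok s hA hy))))) e
  have := s.n7
  refine (RS.sh (X := 127) 1 rfl (by omega) s.n31 fun j y => ?_).or
    (RS.sh 2 rfl (by omega) s.n31 fun j y => ?_)
  · have y := tb127.1 y
    exact ⟨by omega, fun c => D.off j y (s.bd j y ▸ c ▸ s.int t a b)⟩
  · have y := (C 0).r7 j y
    exact ⟨by omega, s.bd j y.1 ▸ y.2 _ (s.int t a b)⟩

theorem Rng.zero : Rng A t ts 0 := fun _ h => by omega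

theorem Rng.add {a b : ℕ} {L : List ℕ} (h : Rng A t ts a) (hA : TA A)
    (c : chk A an t ts L a = true) (e : a + L.length = b) : Rng A t ts b := by
  induction L generalizing a with
  | nil => exact e ▸ h
  | cons S L ih =>
    change Rup.and (lm A an t ts a (t a) S) (chk A an t ts L (a + 1)) = true at c
    obtain ⟨p, q⟩ := cb_f c
    refine ih (fun i hi => ?_) q (by rw [← e, List.length_cons]; omega)
    by_cases w : i = a
    · exact w ▸ lm_ok hA h p
    · exact h i (by omega)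

theorem msk_lst {r j : ℕ} (h : (msk ts r).testBit j = true) : A j ∈ lst A ts r := by
  refine Rup.q8_rel (fun (f : ℕ → ℕ) (l : ℕ → List ℕ) =>
    ∀ r, (f r).testBit j = true → A j ∈ l r) (Rup.q8_rel _ fun f l ih r h => ?_) _ _
    (fun _ h => by simp at h) r h
  cases r with
  | zero => simp at h
  | succ r =>
    rcases tbo.1 h with h | h
    · exact List.mem_cons.2 (Or.inl (by rw [tb_bt.1 h]))
    · exact List.mem_cons_of_mem _ (ih _ h)

theorem Rng.uns {N i : ℕ} (h : Rng A t ts N) (hi : i < N) : Unsat (lem A ts (t i)) := by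
  intro D hy
  have v := h i hi
  generalize t i = r at v hy
  unfold lem at hy
  generalize k : Nat.land r 15 = y at hy
  cases y with
  | succ y => exact D.G.irrefl (hy 0 (List.mem_singleton.2 rfl))
  | zero =>
    have k : uk r = 0 := k
    have e : ue r = 0 := by rw [ue, k]; rfl
    have w : uw r = 0 := by simp [uw, e]
    have c : uc r = 0 := by rw [uc, e]; exact Nat.mod_one _
    have u : ua r = Nat.shiftRight r 4 := by simp [ua, u2, u1, e, w, k]
    refine v D D.b (fun j y => hy _ (msk_lst ?_)) ?_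
    · simpa [uh, c, u] using y
    · rw [show uz r = 0 by rw [uz, w]; exact Nat.mod_one _, k,
        show uR r = 0 by rw [uR, c, k]; exact (Nat.or_zero _).trans (by decide +kernel)]
      exact ⟨by omega, by omega, fun _ _ => rfl, fun _ _ _ => by omega,
        fun _ _ _ _ _ y => by simp at y, by simp, by simp⟩

end Pool.Agent.Lib.MP_ad48ef_co.Dsk
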