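import Pool.Agent.Lib.MP_ad48ef_co.DskMv

/-!
# Soundness of the rules of the disk checker that use two bridges
-/

namespace Pool.Agent.Lib.MP_ad48ef_co.Dsk

open Pool.Agent.Shared.Planar

variable {D : Disk} {ρ : ℕ → D.X} {n M z : ℕ} {g : G} {nx : PF}

def ims {V : Type} (f : ℕ → V) (P : ℕ → Prop) : Set V := {v | ∃ t, P t ∧ v = f t}

theorem grow {V : Type} {G : SimpleGraph V} {f : ℕ → V} {P Q : ℕ → Prop} (h : Cn G (ims f P))
    (k : ∀ t, P t → Q t) (l : ∀ t, Q t → P t ∨ ∃ j, P j ∧ G.Adj (f j) (f t)) :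
    Cn G (ims f Q) := by
  have r : ∀ a ∈ ims f Q, ∃ p ∈ ims f P, R G (ims f Q) p a := by
    rintro _ ⟨t, a, rfl⟩
    rcases l t a with b | ⟨j, b, c⟩
    exacts [⟨_, ⟨t, b, rfl⟩, R.refl⟩, ⟨_, ⟨j, b, rfl⟩, R.single ⟨j, k j b, rfl⟩ ⟨t, a, rfl⟩ c⟩]
  intro a ha b hb
  obtain ⟨p, p1, p2⟩ := r a ha
  obtain ⟨q, q1, q2⟩ := r b hb
  exact (p2.symm.trans ((h p p1 q q1).mono (fun _ ⟨t, x, y⟩ => ⟨t, k t x, y⟩) le_rfl)).trans q2

theorem cn_one {V : Type} {G : SimpleGraph V} {f : ℕ → V} {P : ℕ → Prop}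
    (h : ∀ i j, P i → P j → i = j) : Cn G (ims f P) := by
  rintro _ ⟨i, a, rfl⟩ _ ⟨j, b, rfl⟩
  rw [h i j a b]
  exact R.refl

theorem ims_some (P : ℕ → Prop) : some '' ims ρ P = ims (fun t => some (ρ t)) P := by
  ext v
  constructor
  · rintro ⟨_, ⟨t, a, rfl⟩, rfl⟩; exact ⟨t, a, rfl⟩
  · rintro ⟨t, a, rfl⟩; exact ⟨_, ⟨t, a, rfl⟩, rfl⟩

def xN (M : ℕ) : ℕ :=
  Nat.lor (Nat.land (Nat.xor M cD) cF) (Nat.shiftLeft (Nat.land (Nat.xor M cD) cF) 64)

theorem xN_e {i f j : ℕ} (hf : f = 0 ∨ f = 2) (hj : j < 32)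
    (h : (xN M).testBit (128 * i + 32 * f + j) = true) : M.testBit (128 * i + 32 * 0 + j) = true := by
  have k : ∀ p, p % 128 < 32 → (Nat.xor M cD).testBit p = true → M.testBit p = true := fun p a b => by
    rw [tb_xor, show cD.testBit p = false from Bool.eq_false_iff.2 fun k => by
      have := tb_cD.1 k; omega] at b
    simpa using b
  rw [xN, tbo, tbl, tba, tba, tb_cF, tb_cF] at h
  rcases hf with rfl | rfl <;> rcases h with h | h
  · exact k _ (by omega) h.1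
  · omega
  · omega
  · rw [← k _ (by omega) h.2.1]; congr 1; omega

theorem xN_d {i j : ℕ} (hi : i < 31) (hj : j < 32)
    (h : M.testBit (128 * i + 32 * 1 + j) = false) : (xN M).testBit (128 * i + 32 * 1 + j) = true := by
  rw [xN, tbo, tba, tb_xor, h, tb_cD.2 (by omega), tb_cF]
  exact Or.inl ⟨rfl, by omega⟩

def Xs (D : Disk) (ρ : ℕ → D.X) (n V I h : ℕ) : Prop := h = 0 ∨ ∃ S T,
  Br D S (Nat.shiftRight h 64) ∧ Br D T (Nat.land h 127) ∧ (∀ x ∈ S, x ∈ T → False) ∧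
  (∀ t, (Nat.shiftRight V 64).testBit t = true → t < n ∧ ρ t ∈ S) ∧
  ∀ t, I.testBit t = true → 7 ≤ t ∧ t < n ∧ ρ t ∉ T

theorem one_mul_tb {a b : ℕ} : Nat.mul (Nat.land 1 a) b = 0 ∨
    (a.testBit 0 = true ∧ Nat.mul (Nat.land 1 a) b = b) := by
  rw [show Nat.land 1 a = a % 2 from Nat.one_and_eq_mod_two a, Nat.mul_eq, Nat.testBit_zero]
  rcases Nat.mod_two_eq_zero_or_one a with h | h <;> simp [h]

theorem chd_ok (C : Cx g D) (s : St D z M n ρ) {i : ℕ} (hi : i < 7) : chd g M i = 0 ∨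
    (D.K.Adj (some (D.b (ca i))) (some (D.b (cz i))) ∧
      ∀ t, (chd g M i).testBit t = true → t < 7 ∧ (t = ca i ∨ t = cz i)) := by
  refine one_mul_tb.imp_right fun ⟨a, b⟩ => ?_
  have c := (by decide : ∀ i < 7, ca i < 7 ∧ cz i < 7) i hi
  rw [tba, tb_sr, tb_sr] at a
  have := (s.ms (ca i) 0 (cz i) (by omega) (by omega) a.1).2.2
  rw [s.bd _ c.1, s.bd _ c.2] at this
  refine ⟨C.i7 i hi a.2 this, fun t e => ?_⟩
  rw [show chd g M i = cm i from b, cm, tbo, tb_bt, tb_bt] at e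
  omega

theorem x2_core (C : Cx g D) (s : St D z M n ρ) {σ x a a0 V0 I J W V : ℕ}
    (e1 : Nat.land σ (im n) = a) (e2 : Nat.land a (Nat.gcd a 0x80000000) = a0)
    (e3 : Nat.lor (Nat.lor a0 (Nat.shiftLeft a 32)) (Nat.shiftLeft 0x10000000000000000 x) = V0)
    (e4 : dif (im n) (Nat.shiftRight (gat (xN M) V0) 32) = I)
    (e5 : Nat.lor a (Nat.shiftLeft I 64) = J) (e6 : Nat.land (Nat.lor V0 (gat (xN M) V0)) J = W)
    (e7 : gr (xN M) J W = V) : Xs D ρ n V I (Nat.mul (Nat.land 1 (Nat.shiftRight I x))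
      (Nat.lor (Nat.land (gat (xN M) V) 0x7f000000000000007f)
        (@Bool.rec (fun _ => ℕ) (chd g M σ) 0 (Nat.ble 7 σ)))) := by
  refine one_mul_tb.imp_right fun ⟨hx, eh⟩ => ?_
  rw [eh]
  rw [tb_sr, add_zero] at hx
  have n30 := s.n30
  have ha := fun t => s.im (S := σ) (t := t)
  have h7 : σ < 7 → ∀ t, (Nat.land σ (im n)).testBit t = true → False := fun h t e => by
    have := of_lt (k := 3) (by omega) (tba.1 e).1
    have := ha t e
    omega
  rw [e1] at ha h7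
  have hl := fun i j => @low a i j
  have hs : ∀ t, (Nat.land a (Nat.gcd a 0x80000000)).testBit t = true → a.testBit t = true :=
    fun t e => (tba.1 e).1
  rw [e2] at hl hs
  have xl := (tb_im s.n7).1 (tb_dif.1 (e4 ▸ hx)).1
  have v0 : ∀ q, (Nat.lor (Nat.lor a0 (Nat.shiftLeft a 32))
      (Nat.shiftLeft 0x10000000000000000 x)).testBit q = true ↔
      a0.testBit q = true ∨ (32 ≤ q ∧ a.testBit (q - 32) = true) ∨ q = 64 + x := fun q => by
    rw [tbo, tbo, tbl, tbl, or_assoc, show 0x10000000000000000 = 2 ^ 64 from rfl, tb_p]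
    refine or_congr_right (or_congr_right ?_)
    omega
  rw [e3] at v0
  have g0 : Gd V0 := fun q e => by
    rcases (v0 q).1 e with k | k | k
    · have := ha _ (hs _ k); omega
    · have := ha _ k.2; omega
    · omega
  have hI : ∀ t, (dif (im n) (Nat.shiftRight (gat (xN M) V0) 32)).testBit t = true →
      7 ≤ t ∧ t < n ∧ ∀ j, a.testBit j = true → ρ t ≠ ρ j := fun t e => by
    obtain ⟨p, q⟩ := tb_dif.1 e
    have p := (tb_im s.n7).1 p
    refine ⟨p.1, p.2, fun j k => ?_⟩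
    have := ha j k
    cases c : M.testBit (128 * t + 32 * 1 + j)
    · rw [tb_sr, (tb_gat (f := 1) g0 (by omega)).2 ⟨by omega, by omega, j, by omega,
        (v0 _).2 (Or.inr (Or.inl ⟨by omega, by rwa [show 32 * 1 + j - 32 = j by omega]⟩)),
        xN_d (by omega) (by omega) c⟩] at q
      cases q
    · exact (s.ms t 1 j (by omega) (by omega) c).2.2
  rw [e4] at hI
  have hJ : ∀ q, (Nat.lor a (Nat.shiftLeft I 64)).testBit q = true ↔
    a.testBit q = true ∨ (64 ≤ q ∧ I.testBit (q - 64) = true) := fun q => by rw [tbo, tbl]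
  rw [e5] at hJ
  have jl : ∀ f t, f = 0 ∨ f = 2 → t < 32 → J.testBit (32 * f + t) = true → 7 ≤ t ∧ t < n := by
    intro f t hf ht e
    rcases (hJ _).1 e with k | k
    · have := ha _ k; omega
    · have := hI _ k.2; omega
  have gJ : ∀ W, (∀ q, W.testBit q = true → J.testBit q = true) → Gd W := fun W h q e => by
    rcases (hJ _).1 (h q e) with k | k
    · have := ha _ k; omega
    · have := hI _ k.2; omega
  have ad : ∀ W f t, Gd W → f = 0 ∨ f = 2 → t < 32 → (gat (xN M) W).testBit (32 * f + t) = true →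
      ∃ j, j < 32 ∧ W.testBit (32 * f + j) = true ∧ D.G.Adj (ρ t) (ρ j) := by
    intro W f t gw hf ht e
    obtain ⟨-, -, j, p, q, r⟩ := (tb_gat gw ht).1 e
    exact ⟨j, by omega, q, (s.ms t 0 j (by omega) (by omega) (xN_e hf (by omega) r)).2.2⟩
  have kk : ∀ t j, 7 ≤ t ∧ t < n → D.G.Adj (ρ t) (ρ j) → D.K.Adj (some (ρ j)) (some (ρ t)) :=
    fun t j p q => (D.kI _ _ (s.int t p.1 p.2) q).symm
  have w1 : ∀ q, (Nat.land (Nat.lor V0 (gat (xN M) V0)) J).testBit q = true →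
    J.testBit q = true := fun q e => (tba.1 e).2
  have c1 : ∀ f, f = 0 ∨ f = 2 → Cn D.K (ims (fun t => some (ρ t)) fun t => t < 32 ∧
      (Nat.land (Nat.lor V0 (gat (xN M) V0)) J).testBit (32 * f + t) = true) := by
    intro f hf
    refine grow (P := fun t => t < 32 ∧ V0.testBit (32 * f + t) = true) (cn_one ?_) ?_ ?_
    · rintro i j ⟨p, q⟩ ⟨u, v⟩
      rcases (v0 _).1 q with q | q | q <;> rcases (v0 _).1 v with v | v | v
      all_goals first
        | (have := hl _ _ q v; omega)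
        | (have := ha _ q.2; omega)
        | (have := ha _ v.2; omega)
        | (have := ha _ (hs _ q); omega)
        | (have := ha _ (hs _ v); omega)
        | omega
    · rintro t ⟨p, q⟩
      refine ⟨p, tba.2 ⟨tbo.2 (Or.inl q), (hJ _).2 ?_⟩⟩
      rcases (v0 _).1 q with q | q | q
      · exact Or.inl (hs _ q)
      · have := ha _ q.2; omega
      · exact Or.inr ⟨by omega, by rwa [show 32 * f + t - 64 = x by omega]⟩
    · rintro t ⟨p, q⟩
      refine (tbo.1 (tba.1 q).1).imp (fun k => ⟨p, k⟩) fun k => ?_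
      obtain ⟨j, u, v, w⟩ := ad _ f t g0 hf p k
      exact ⟨j, ⟨u, v⟩, kk t j (jl f t hf p (tba.1 q).2) w⟩
  rw [e6] at w1 c1
  have w2 : ∀ q, (gr (xN M) J W).testBit q = true → J.testBit q = true := fun q e =>
    (tbo.1 e).elim (w1 q) fun k => (tba.1 k).2
  have c2 : ∀ f, f = 0 ∨ f = 2 → Cn D.K (some '' ims ρ fun t => t < 32 ∧
      (gr (xN M) J W).testBit (32 * f + t) = true) := by
    intro f hf
    rw [ims_some]
    refine grow (c1 f hf) (fun t ⟨p, q⟩ => ⟨p, tbo.2 (Or.inl q)⟩) fun t ⟨p, q⟩ => ?_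
    refine (tbo.1 q).imp (fun k => ⟨p, k⟩) fun k => ?_
    obtain ⟨j, u, v, w⟩ := ad _ f t (gJ W w1) hf p (tba.1 k).1
    exact ⟨j, ⟨u, v⟩, kk t j (jl f t hf p (tba.1 k).2) w⟩
  rw [e7] at w2 c2
  have it : ∀ f, f = 0 ∨ f = 2 → ∀ y ∈ ims ρ fun t => t < 32 ∧ V.testBit (32 * f + t) = true,
      D.I y := by
    rintro f hf _ ⟨t, ⟨p, q⟩, rfl⟩
    exact s.int t (jl f t hf p (w2 _ q)).1 (jl f t hf p (w2 _ q)).2
  have at' : ∀ f t, f = 0 ∨ f = 2 → t < 7 → (gat (xN M) V).testBit (32 * f + t) = true →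
      ∃ y ∈ ims ρ fun t => t < 32 ∧ V.testBit (32 * f + t) = true, D.G.Adj y (D.b t) := by
    intro f t hf ht e
    obtain ⟨j, u, v, w⟩ := ad _ f t (gJ V w2) hf (by omega) e
    exact ⟨_, ⟨j, ⟨u, v⟩, rfl⟩, s.bd t ht ▸ w.symm⟩
  have a0 : ∀ t, t < 32 → V.testBit (32 * 0 + t) = true → a.testBit t = true := fun t p q => by
    rcases (hJ _).1 (w2 _ q) with k | k
    exacts [by simpa using k, by omega]
  have a2 : ∀ t, V.testBit (64 + t) = true → I.testBit t = true := fun t q => by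
    rcases (hJ _).1 (w2 _ q) with k | k
    exacts [by have := ha _ k; omega, by simpa using k.2]
  have nT : ∀ t, I.testBit t = true →
      ρ t ∉ ims ρ fun t => t < 32 ∧ V.testBit (32 * 0 + t) = true :=
    fun t e ⟨j, ⟨p, q⟩, r⟩ => (hI t e).2.2 j (a0 j p q) r
  have hc : ∀ Y, (Y = 0 ∨ (σ < 7 ∧ Y = chd g M σ)) → Br D (ims ρ fun t => t < 32 ∧
      V.testBit (32 * 2 + t) = true) (Nat.shiftRight (Nat.lor (Nat.land (gat (xN M) V)
      0x7f000000000000007f) Y) 64) ∧ Br D (ims ρ fun t => t < 32 ∧ V.testBit (32 * 0 + t) = true)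
      (Nat.land (Nat.lor (Nat.land (gat (xN M) V) 0x7f000000000000007f) Y) 127) := by
    intro Y hY
    have hY : Y = 0 ∨ (σ < 7 ∧ D.K.Adj (some (D.b (ca σ))) (some (D.b (cz σ))) ∧
        ∀ t, Y.testBit t = true → t < 7 ∧ (t = ca σ ∨ t = cz σ)) := by
      rcases hY with h | ⟨h, rfl⟩
      exacts [Or.inl h, (chd_ok C s h).imp_right fun k => ⟨h, k⟩]
    refine ⟨⟨it 2 (by omega), c2 2 (by omega), Or.inl fun t p q => ?_⟩,
      it 0 (by omega), c2 0 (by omega), ?_⟩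
    · rw [tb_sr] at q
      refine at' 2 t (by omega) p ((tbo.1 q).elim (fun k => (tba.1 k).1) fun k => ?_)
      rcases hY with rfl | h
      exacts [by simp at k, by have := h.2.2 _ k; omega]
    · rcases hY with rfl | ⟨h1, h2, h3⟩
      · exact Or.inl fun t p q => at' 0 t (by omega) p ((tbo.1 (tba.1 q).1).elim
          (fun k => by simpa using (tba.1 k).1) fun k => by simp at k)
      · refine Or.inr ⟨Set.eq_empty_of_forall_notMem fun _ ⟨j, ⟨p, q⟩, _⟩ => h7 h1 j (a0 j p q),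
          _, _, h2, fun t q => (tbo.1 (tba.1 q).1).elim (fun k => ?_) fun k => (h3 t k).2⟩
        obtain ⟨_, ⟨j, ⟨p, q⟩, -⟩, -⟩ := at' 0 t (by omega) (tb127.1 (tba.1 q).2)
          (by simpa using (tba.1 k).1)
        exact (h7 h1 j (a0 j p q)).elim
  obtain ⟨b1, b2⟩ := hc (@Bool.rec (fun _ => ℕ) (chd g M σ) 0 (Nat.ble 7 σ)) (by
    cases c : Nat.ble 7 σ
    · refine Or.inr ⟨?_, rfl⟩
      by_contra q
      rw [Nat.ble_eq_true_of_le (not_lt.1 q)] at c
      cases c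
    · exact Or.inl rfl)
  refine ⟨_, _, b1, b2, ?_, fun t e => ?_, fun t e => ⟨(hI t e).1, (hI t e).2.1, nT t e⟩⟩
  · rintro _ ⟨t, ⟨p, q⟩, rfl⟩
    exact nT t (a2 t q)
  · rw [tb_sr] at e
    have := hI t (a2 t e)
    exact ⟨this.2.1, t, ⟨by omega, e⟩, rfl⟩

theorem fc_eq (x : ℕ) (f : ℕ → Bool) : fc x f = f x := rfl

theorem x2_ok {σ x : ℕ} {k : K3} (e : x2 g M n σ x k = true) : ∃ V I h, k V I h = true ∧
    ∀ (D : Disk) (ρ : ℕ → D.X) z, Cx g D → St D z M n ρ → Xs D ρ n V I h := by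
  unfold x2 x2a x2b x2c x2d at e
  rw [fc_eq] at e
  exact ⟨_, _, _, e, fun _ _ _ C s => x2_core C s rfl rfl rfl rfl rfl rfl rfl⟩

end Pool.Agent.Lib.MP_ad48ef_co.Dsk
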