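import Pool.Agent.Lib.MP_ad48ef_co.Sink1

/-!
# The three disks at a sink
-/

namespace Pool.Agent.Lib.MP_ad48ef_co

open Pool.Agent.Shared.Planar

variable {V : Type*} {G H : SimpleGraph V}

/-- A wheel whose rim is closed by a path of `n + 1` new vertices. -/
def WN (In : V → V → Prop) (B : V → Prop) (a b : V) (n : ℕ) : SimpleGraph (Option (V ⊕ ℕ)) :=
  SimpleGraph.fromRel fun x y => (∃ p q, x = some (.inl p) ∧ y = some (.inl q) ∧ In p q) ∨
    (x = none ∧ ∃ p, y = some (.inl p) ∧ B p) ∨ (x = none ∧ ∃ i, i ≤ n ∧ y = some (.inr i)) ∨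
    (x = some (.inl a) ∧ y = some (.inr 0)) ∨
    (∃ i, i < n ∧ x = some (.inr i) ∧ y = some (.inr (i + 1))) ∨
    (x = some (.inr n) ∧ y = some (.inl b))

theorem ht_WN {In : V → V → Prop} {B : V → Prop} {a b : V} (hb : B b) (h : HT (WN In B a b 0))
    (n : ℕ) : HT (WN In B a b n) := by
  classical
  induction n with
  | zero => exact h
  | succ n ih =>
  have key : ∀ x, Tri (WN In B a b n) (some (.inr n)) none (some (.inl b)) x →
      R (WN In B a b n) {some (.inr n), none, some (.inl b)}ᶜ x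
        (if n = 0 then some (.inl a) else some (.inr (n - 1))) := by
    rintro x ⟨k, ⟨y, y1, y2⟩, -⟩
    have m := y1.mem k
    convert y1
    rcases y2.2 with (⟨_, _, ⟨⟩, -⟩ | ⟨⟨⟩, -⟩ | ⟨⟨⟩, -⟩ | ⟨⟨⟩, -⟩ | ⟨i, p, ⟨⟩, -⟩ | ⟨-, rfl⟩) |
      ⟨_, _, -, ⟨⟩, -⟩ | ⟨-, _, ⟨⟩, -⟩ | ⟨rfl, -⟩ | ⟨rfl, ⟨⟩⟩ | ⟨i, p, rfl, ⟨⟩⟩ | ⟨-, ⟨⟩⟩
    · omega
    all_goals simp at m ⊢
  have := apex_of_facial ih (w := some (.inr n)) (u := none) (v := some (.inl b))
    ⟨by simp, Or.inl (by simp [hb])⟩ ⟨by simp, Or.inl (by simp)⟩ ⟨by simp, Or.inr (by simp)⟩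
    fun x y hx hy => (key x hx).trans (key y hy).symm
  refine this.comap (fun x => if x = some (.inr (n + 1)) then none else some x) (fun x y e => ?_) ?_
  · dsimp only at e
    split_ifs at e with m n
    exacts [m.trans n.symm, Option.some.inj e]
  rintro x y ⟨z, e⟩
  wlog m : _ generalizing x y
  · exact (this y x z.symm e.symm (e.resolve_left m)).symm
  clear e
  rcases m with ⟨p, q, rfl, rfl, e⟩ | ⟨rfl, p, rfl, e⟩ | ⟨rfl, i, e, rfl⟩ | ⟨rfl, rfl⟩ |
    ⟨i, e, rfl, rfl⟩ | ⟨rfl, rfl⟩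
  · exact ⟨z, Or.inl (Or.inl ⟨p, q, rfl, rfl, e⟩)⟩
  · exact ⟨z, Or.inl (by simp [e])⟩
  · rcases e.eq_or_lt with rfl | e
    · simp [apex]
    · rw [if_neg (by simp), if_neg (by simp; omega)]
      exact ⟨z, Or.inl (by simp; omega)⟩
  · rw [if_neg (by simp), if_neg (by simp)]
    exact ⟨z, Or.inl (by simp)⟩
  · rcases (Nat.le_of_lt_succ e).eq_or_lt with rfl | e
    · simp [apex]
    · rw [if_neg (by simp; omega), if_neg (by simp; omega)]
      exact ⟨z, Or.inl (by simp; omega)⟩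
  · simp [apex]

theorem ht_KW {In : V → V → Prop} {B : V → Prop} {Q : Fin 3 → ℕ → V} {l : Fin 3 → ℕ} {r : Fin 3}
    {o : ℕ} (h : HT (WN In B (Q r (l r)) (Q (r + 1) (l (r + 1))) 0)) (top : Q (r + 1) 0 = Q r 0)
    (hB : ∀ i k, i = r ∨ i = r + 1 → k ≤ l i → B (Q i k))
    (hI : ∀ i k, i = r ∨ i = r + 1 → k < l i → Q i k ≠ Q i (k + 1) ∧ In (Q i k) (Q i (k + 1)))
    (o1 : o ≤ 3) (o3 : o + l r + l (r + 1) ≤ 6) : HT (KW In (bd Q l r o)) := by
  classical
  let b := bd Q l r o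
  let W := WN In B (Q r (l r)) (Q (r + 1) (l (r + 1))) 5
  let ψ : Option (V ⊕ ℕ) → Option (Option (V ⊕ ℕ)) := fun x => match x with
    | some (.inr j) => if 5 < j then none else
        some (some (b (if j < o then o - 1 - j else max (o + l r + l (r + 1)) (6 + o - j))))
    | x => some x
  let μ : Option (V ⊕ ℕ) → ℕ := fun x => match x with
    | some (.inr j) => if j < o ∨ o + l r + l (r + 1) < 6 + o - j then 0 else 6 - j
    | _ => 0
  have b1 : ∀ k, k ≤ l r → b (o + l r - k) = .inl (Q r k) := fun k m => by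
    simp only [b, bd, if_neg (by omega : ¬ o + l r - k < o),
      if_pos (by omega : o + l r - k ≤ o + l r), show o + l r - (o + l r - k) = k by omega]
  have b2 : ∀ k, k ≤ l (r + 1) → b (o + l r + k) = .inl (Q (r + 1) k) := by
    rintro (_ | k) m
    · rw [top]; exact b1 0 (by omega)
    · simp only [b, bd, if_neg (by omega : ¬ o + l r + (k + 1) < o),
        if_neg (by omega : ¬ o + l r + (k + 1) ≤ o + l r), Nat.add_le_add_iff_left, m, if_true,
        Nat.add_sub_cancel_left]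
  have b3 : ∀ i, i < o ∨ o + l r + l (r + 1) < i → b i = .inr i := fun i m => by
    simp only [b, bd]
    split_ifs <;> first | rfl | omega
  have c1 : ∀ k i, k ≤ l r ∧ i = o + l r - k → ψ (some (.inl (Q r k))) = some (some (b i)) :=
    fun k i m => by rw [m.2, b1 k m.1]
  have c2 : ∀ k i, k ≤ l (r + 1) ∧ i = o + l r + k →
      ψ (some (.inl (Q (r + 1) k))) = some (some (b i)) := fun k i m => by rw [m.2, b2 k m.1]
  let ρ : ℕ → Option (V ⊕ ℕ) := fun k => if k = 0 then some (.inl (Q r (l r))) else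
    if k = 7 then some (.inl (Q (r + 1) (l (r + 1)))) else some (.inr (k - 1))
  have ρ1 : ∀ k, k < 7 → W.Adj (ρ k) (ρ (k + 1)) := fun k m => by
    interval_cases k <;> exact ⟨by simp [ρ], Or.inl (by simp [ρ])⟩
  have ρ2 : ∀ k, k ≤ 7 → ψ (ρ k) = some (some (b (if k ≤ o then o - k else
      max (o + l r + l (r + 1)) (7 + o - k)))) := fun k m => by
    by_cases k0 : k = 0
    · subst k0
      exact c1 _ _ (by simp)
    by_cases k7 : k = 7
    · subst k7
      exact c2 _ _ (by split_ifs <;> omega)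
    simp only [ρ, ψ, k0, k7, if_false, if_neg (by omega : ¬ 5 < k - 1)]
    split_ifs <;> congr 3 <;> omega
  refine ht_minor' (H := W) (ht_WN (hB _ _ (Or.inr rfl) le_rfl) h 5) ψ μ ?_ ?_ ?_
  · rintro (_ | v | j) w k
    iterate 2 exact Or.inl rfl
    by_cases z : j < o ∨ o + l r + l (r + 1) < 6 + o - j
    · exact Or.inl (if_pos z)
    have j5 : j ≤ 5 := by
      by_contra m
      simp [ψ, show 5 < j by omega] at k
    have q : ρ (j + 1) = some (.inr j) := by simp [ρ]; omega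
    refine Or.inr ⟨ρ (j + 2), q ▸ ρ1 (j + 1) (by omega), ?_, ?_⟩
    · rw [← k, ← q, ρ2 _ (by omega), ρ2 _ (by omega)]
      split_ifs <;> congr 3 <;> omega
    · by_cases m : j = 5
      · subst m
        simp only [ρ, μ, z, if_false]
        simp
      · simp only [ρ, μ, z, if_false, if_neg (by omega : ¬ j + 2 = 0),
          if_neg (by omega : ¬ j + 2 = 7)]
        split_ifs <;> omega
  · have key : ∀ x w, ψ x = some w → μ x = 0 → x = match w with
        | some (.inr i) => some (.inr (if i < o then o - 1 - i else 6 + o - i))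
        | w => w := by
      rintro (_ | v | j) w k z
      iterate 2 (cases k; rfl)
      simp only [ψ, μ] at k z
      split_ifs at k with m n <;> cases k
      · rw [b3 _ (by omega)]
        dsimp only
        rw [if_pos (by omega)]
        congr 2; omega
      · have : o + l r + l (r + 1) < 6 + o - j := by split_ifs at z <;> omega
        rw [b3 _ (by omega)]
        dsimp only
        rw [if_neg (by omega)]
        congr 2; omega
    exact fun x y w k1 k2 z1 z2 => (key x w k1 z1).trans (key y w k2 z2).symm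
  rintro x y ⟨z, e⟩
  wlog m : _ generalizing x y
  · obtain ⟨p, q, k1, k2, k3⟩ := this y x z.symm e.symm (e.resolve_left m)
    exact ⟨q, p, k2, k1, k3.symm⟩
  clear e
  have wi : ∀ i k, i = r ∨ i = r + 1 → k < l i →
      W.Adj (some (.inl (Q i k))) (some (.inl (Q i (k + 1)))) := fun i k p q =>
    ⟨by simpa using (hI i k p q).1, Or.inl (Or.inl ⟨_, _, rfl, rfl, (hI i k p q).2⟩)⟩
  rcases m with ⟨p, q, rfl, rfl, e⟩ | ⟨i, i1, rfl, rfl⟩ | ⟨rfl, rfl⟩ | ⟨i, i1, rfl, rfl⟩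
  · exact ⟨_, _, rfl, rfl, z, Or.inl (Or.inl ⟨p, q, rfl, rfl, e⟩)⟩
  · rcases (by omega : i < o ∨ (o ≤ i ∧ i < o + l r) ∨ (o + l r ≤ i ∧ i < o + l r + l (r + 1)) ∨
      o + l r + l (r + 1) ≤ i) with c | c | c | c
    · refine ⟨_, _, ?_, ?_, (ρ1 (o - i - 1) (by omega)).symm⟩ <;> rw [ρ2 _ (by omega)] <;>
        split_ifs <;> congr 3 <;> omega
    · refine ⟨_, _, ?_, ?_, (wi r (o + l r - i - 1) (Or.inl rfl) (by omega)).symm⟩ <;>
        exact c1 _ _ (by omega)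
    · refine ⟨_, _, ?_, ?_, wi (r + 1) (i - (o + l r)) (Or.inr rfl) (by omega)⟩ <;>
        exact c2 _ _ (by omega)
    · refine ⟨_, _, ?_, ?_, (ρ1 (6 + o - i) (by omega)).symm⟩ <;> rw [ρ2 _ (by omega)] <;>
        split_ifs <;> congr 3 <;> omega
  · refine ⟨_, _, ?_, ?_, ρ1 o (by omega)⟩ <;> rw [ρ2 _ (by omega)] <;>
      split_ifs <;> congr 3 <;> omega
  · rcases (by omega : i < o ∨ (o ≤ i ∧ i ≤ o + l r) ∨ (o + l r ≤ i ∧ i ≤ o + l r + l (r + 1)) ∨
      o + l r + l (r + 1) < i) with c | c | c | c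
    · refine ⟨none, some (.inr (o - 1 - i)), rfl, ?_, by simp, Or.inl (by simp; omega)⟩
      simp only [ψ]
      split_ifs <;> first | omega | (congr 3; omega)
    · exact ⟨none, some (.inl (Q r (o + l r - i))), rfl, c1 _ _ (by omega), by simp,
        Or.inl (by simp [hB r _ (Or.inl rfl) (by omega : o + l r - i ≤ l r)])⟩
    · exact ⟨none, some (.inl (Q (r + 1) (i - (o + l r)))), rfl, c2 _ _ (by omega), by simp,
        Or.inl (by simp [hB _ _ (Or.inr rfl) (by omega : i - (o + l r) ≤ l (r + 1))])⟩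
    · refine ⟨none, some (.inr (6 + o - i)), rfl, ?_, by simp, Or.inl (by simp; omega)⟩
      simp only [ψ]
      split_ifs <;> first | omega | (congr 3; omega)

theorem Fac.of_mem {D : Set V} {a b w p q s : V} (f : Fac H D a b w) (hp : p ∈ D) (hq : q ∈ D)
    (hs : s ∈ D) (n1 : p ≠ q) (n2 : p ≠ s) (n3 : q ≠ s) : Fac H D p q s := by
  rw [f.2.2.2.1] at hp hq hs
  rcases hp with rfl | rfl | rfl <;> rcases hq with rfl | rfl | rfl <;>
    rcases hs with rfl | rfl | rfl <;>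
    first | exact absurd rfl n1 | exact absurd rfl n2 | exact absurd rfl n3 | exact f |
      exact f.swap | exact f.rot | exact f.rot.swap | exact f.rot.rot | exact f.rot.rot.swap

theorem regions3 [Finite V] (h : Mx H) (le : G ≤ H) {T : Tree G} (c : Coc (KK H T)) {D : Set V}
    (Q : Fin 3 → ℕ → V) (l : Fin 3 → ℕ)
    (f : ∀ r, Fac H D (Q r (l r)) (Q (r + 1) (l (r + 1))) (Q (r + 2) (l (r + 2))))
    (top : ∀ i j, Q i 0 = Q j 0) (adj : ∀ i k, k < l i → TE T (Q i k) (Q i (k + 1)))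
    (inj : ∀ i j k m, k ≤ l i → m ≤ l j → Q i k = Q j m → (i = j ∧ k = m) ∨ (k = 0 ∧ m = 0)) :
    ∃ R : Regs2 G Q l, ∀ r v, (R.Reg r v ∧ (∀ i k, k ≤ l i → v ≠ Q i k) ↔
      v ∈ Sd c D (Q r (l r)) (Q (r + 1) (l (r + 1))) (Q (r + 2) (l (r + 2))) 1) ∧ (¬ R.Reg r v ↔
      v ∈ Sd c D (Q r (l r)) (Q (r + 1) (l (r + 1))) (Q (r + 2) (l (r + 2))) 0) := by
  classical
  let P : Fin 3 → ℕ → XX V := fun i k =>
    if k ≤ l i then io (Q i k) else if k = l i + 1 then ga D (Q i (l i)) else zz D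
  have p1 : ∀ i k, k ≤ l i → P i k = io (Q i k) := fun i k m => if_pos m
  have p2 : ∀ i, P i (l i + 1) = ga D (Q i (l i)) := fun i => by simp [P]
  have p3 : ∀ i, P i (l i + 2) = zz D := fun i => by simp [P]
  have cs : ∀ i k, k ≤ l i + 2 → k ≤ l i ∨ k = l i + 1 ∨ k = l i + 2 := fun i k m => by omega
  have ui : ∀ i j, Q i (l i) = Q j (l j) → i = j := fun i j e => by
    rcases Theta.on_cases i j with rfl | rfl | rfl
    exacts [rfl, absurd e (f i).1.ne, absurd e (f i).2.1.ne]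
  let Θ : Theta (KK H T) := ⟨P, fun i => l i + 2, fun i => by omega,
    fun i j => by rw [p1 i 0 (by omega), p1 j 0 (by omega), top i j],
    fun i j => by rw [p3, p3], fun i k m => by
      rcases (by omega : k < l i ∨ k = l i ∨ k = l i + 1) with n | rfl | rfl
      · rw [p1 i k n.le, p1 i _ n]; exact ⟨_, _, rfl, rfl, adj i k n⟩
      · rw [p1 i _ le_rfl, p2]; exact a1 (f i).fs (f i).m1
      · rw [p2, p3]; exact a2 (f i).fs (f i).m1,
    fun i j k m h1 h2 e => by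
      rcases cs i k h1 with a | rfl | rfl <;> rcases cs j m h2 with b | rfl | rfl <;>
        simp only [p1, p2, p3, *, reduceCtorEq, Sum.inl.injEq, Sum.inr.injEq, Prod.mk.injEq] at e
      · have := inj i j k m a b e; omega
      · obtain rfl := ui _ _ e.1; simp
      · simp,
    fun i k m h1 h2 e => by
      rw [p1 i k (by omega)] at e
      rcases cs i m h2 with b | rfl | rfl
      · rw [p1 i m b] at e
        obtain ⟨_, _, ⟨⟩, ⟨⟩, e⟩ := e
        have i1 : ∀ s t, s < t → t ≤ l i → Q i s ≠ Q i t := fun s t p q e => by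
          have := inj i i s t (by omega) q e; omega
        have := (Cp_leg (T := T) (a := Q i k) (fun j => Q i (k + j)) (m - k)
          (fun j p => adj i _ (by omega)) (fun j p q s => i1 k _ (by omega) (by omega)
            (Cp_self s).symm) (fun s t p q => i1 _ _ (by omega) (by omega)) _).2
          (Or.inr ⟨1, by omega, rfl⟩)
        rw [show k + (m - k) = m by omega] at this
        rcases Cp_edge e this with e | e
        exacts [i1 _ _ (by omega) (by omega) e.symm, i1 _ _ h1 b e]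
      · rw [p2] at e
        have := inj i i k _ (by omega) le_rfl (Sum.inl.inj (e.2.resolve_right (by simp)))
        omega
      · rw [p3] at e
        obtain ⟨_, _, -, ⟨⟩, -⟩ := e⟩
  have on : ∀ i a, Θ.On i (io a) ↔ ∃ k, k ≤ l i ∧ a = Q i k := by
    refine fun i a => ⟨fun ⟨k, m, e⟩ => ?_, fun ⟨k, m, e⟩ =>
      ⟨k, by show k ≤ l i + 2; omega, e ▸ (p1 i k m).symm⟩⟩
    replace e : io a = P i k := e
    rcases cs i k m with b | rfl | rfl
    · rw [p1 i k b] at e; exact ⟨k, b, by cases e; rfl⟩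
    · rw [p2] at e; cases e
    · rw [p3] at e; cases e
  have og : ∀ p q i, ¬ Θ.On i (gg p q) := by
    rintro p q i ⟨k, m, e⟩
    replace e : gg p q = P i k := e
    rcases cs i k m with b | rfl | rfl
    · rw [p1 i k b] at e; cases e
    · rw [p2] at e; cases e
    · rw [p3] at e; cases e
  have oy : ∀ i, Θ.On i (ga D (Q i (l i))) := fun i =>
    ⟨l i + 1, by show _ ≤ l i + 2; omega, (p2 i).symm⟩
  have oz : ∀ i, Θ.On i (zz D) := fun i => ⟨l i + 2, le_rfl, (p3 i).symm⟩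
  have cp : ∀ r v, v ∈ Cp T (Q r (l r)) (Q (r + 1) (l (r + 1))) ↔
      Θ.On r (io v) ∨ Θ.On (r + 1) (io v) := fun r v => by
    rw [on, on, Cp_legs Q l top adj inj (by omega)]
  have f1 : ∀ i k, k ≤ l i → ∀ v, Θ.f c i k v = FF c (Q 0 0) v + FF c (Q i k) v := by
    intro i k
    induction k with
    | zero => intro _ v; rw [top i 0]; simp only [Theta.f, Pi.zero_apply]; ring_nf; reduce_mod_char
    | succ k ih =>
      intro m v
      have : c.x (P i k) (P i (k + 1)) v = FF c (Q i k) v + FF c (Q i (k + 1)) v := by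
        rw [p1 i k (by omega), p1 i _ m]
        rcases adj i k m with ⟨e1, e2⟩ | ⟨e1, e2⟩
        · rw [← e2, ← FF_par c e1]; rfl
        · rw [← e2, c.symm, ← FF_par c e1, add_comm]; rfl
      show Θ.f c i k v + c.x (P i k) (P i (k + 1)) v = _
      rw [ih (by omega), this]
      ring_nf; reduce_mod_char
  have sd : ∀ i j v, Θ.sd c i j v = ph c D (Q i (l i)) (Q j (l j)) v := fun i j v => by
    have : ∀ i, Θ.f c i (Θ.n i) v = FF c (Q 0 0) v + FF c (Q i (l i)) v + la c D (Q i (l i)) v :=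
      fun i => by
        show Θ.f c i (l i) v + c.x (P i (l i)) (P i (l i + 1)) v +
          c.x (P i (l i + 1)) (P i (l i + 2)) v = _
        rw [f1 i _ le_rfl, p1 i _ le_rfl, p2, p3, la, add_assoc]; rfl
    simp only [Theta.sd, ph, this]
    ring_nf; reduce_mod_char
  have ta : ∀ r v, Θ.ta c r v =
      be c D (Q r (l r)) (Q (r + 1) (l (r + 1))) (Q (r + 2) (l (r + 2))) v := fun r v => by
    rw [Theta.ta, ← Θ.sd_path c (k := l (r + 2) + 1) (by omega) (by omega) (by omega)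
      (by show _ < l (r + 2) + 2; omega), sd, sd, be, ← p2]
  have bad : ∀ p, Θ.Bad c p → Bad c D (Q 0 (l 0)) (Q 1 (l 1)) (Q 2 (l 2)) p := fun p k => by
    have o : ∀ r, Off T D (Q r (l r)) (Q (r + 1) (l (r + 1))) p := fun r =>
      ⟨fun v m e => ((cp r v).1 m).elim (e ▸ k.1 _) (e ▸ k.1 _), fun e => k.1 _ (e ▸ oy r),
        fun e => k.1 _ (e ▸ oy _), fun e => k.1 0 (e ▸ oz 0)⟩
    exact ⟨⟨o 0, o 1, o 2⟩, ta 0 p ▸ k.2 0, (ta 1 p).symm.trans (k.2 1), (ta 2 p).symm.trans (k.2 2)⟩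
  have cov : ∀ v, ∃ r, Θ.Reg c r (io v) := fun v =>
    (Θ.reg_or_bad c _).resolve_right fun k => nb_io c h le (f 0) (bad _ k)
  have off : ∀ a, (∀ i k, k ≤ l i → a ≠ Q i k) → ∀ i, ¬ Θ.On i (io a) := fun a m i k =>
    let ⟨k, k1, k2⟩ := (on i a).1 k; m i k k1 k2
  have gc : ∀ r p q, H.Adj p q → Θ.Reg c r (gg p q) → Θ.Reg c r (io p) ∧ Θ.Reg c r (io q) :=
    fun r p q e k => ⟨Θ.reg_closed c r k (og _ _ _) (og _ _ _) (a3 e).symm,
      Θ.reg_closed c r k (og _ _ _) (og _ _ _) (a4 e)⟩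
  let In : Fin 3 → V → V → Prop := fun r a b => G.Adj a b ∧ Θ.Reg c r (io a) ∧ Θ.Reg c r (io b) ∧
    (TE T a b ∨ Θ.Reg c r (gg a b) ∨ Θ.Reg c r (gg b a))
  have ro : ∀ r i v, i = r ∨ i = r + 1 → Θ.On i v → Θ.Reg c r v := by
    rintro r i v (rfl | rfl) m
    exacts [Or.inl m, Or.inr (Or.inl m)]
  refine ⟨⟨fun r a => Θ.Reg c r (io a), In, cov, fun r i k m => ⟨?_, ?_⟩, fun r a b h1 h2 e => ?_,
    fun r s a h1 h2 h3 => Θ.reg_uniq c h1 h2 (off a h3),
    fun r a b e => ⟨e.2.1, e.2.2.1, e.1.symm, e.2.2.1, e.2.1, e.2.2.2.imp TE.symm Or.symm⟩,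
    fun a b e => ?_, fun r o o1 _ o3 => ?_⟩, fun r v => ?_⟩
  · rintro (e | e | e)
    · obtain ⟨j, j1, j2⟩ := (on _ _).1 e
      have := inj _ _ _ _ m j1 j2; omega
    · obtain ⟨j, j1, j2⟩ := (on _ _).1 e
      have := inj _ _ _ _ m j1 j2; omega
    · exact absurd ((on _ _).2 ⟨k, m, rfl⟩) (e.1 i)
  · rintro (rfl | rfl | rfl)
    · exact Or.inl ((on _ _).2 ⟨k, m, rfl⟩)
    · exact Or.inr (Or.inl ((on _ _).2 ⟨k, m, rfl⟩))
    · exact Or.inl ((on _ _).2 ⟨0, by omega, top _ _⟩)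
  · have := Θ.reg_closed c r h1 (off a h2 _) (off a h2 _) (a3 (le e))
    exact ⟨e, h1, (gc r a b (le e) this).2, Or.inr (Or.inl this)⟩
  · obtain ⟨r, k⟩ := (Θ.reg_or_bad c (gg a b)).resolve_right fun k =>
      nb_two c h le (f 0) e.ne (by
        rintro y (rfl | rfl)
        exacts [⟨_, (a3 (le e)).symm, bad _ k⟩, ⟨_, a4 (le e), bad _ k⟩])
    exact ⟨r, e, (gc r a b (le e) k).1, (gc r a b (le e) k).2, Or.inr (Or.inl k)⟩
  · refine ht_KW (B := fun v => Θ.On r (io v) ∨ Θ.On (r + 1) (io v)) ?_ (top _ _) ?_ ?_ o1 o3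
    rotate_left
    · rintro i k (rfl | rfl) m
      exacts [Or.inl ((on _ _).2 ⟨k, m, rfl⟩), Or.inr ((on _ _).2 ⟨k, m, rfl⟩)]
    · exact fun i k p m => ⟨(adj i k m).adj.ne, (adj i k m).adj,
        ro r i _ p ((on _ _).2 ⟨k, m.le, rfl⟩), ro r i _ p ((on _ _).2 ⟨_, m, rfl⟩),
        Or.inl (adj i k m)⟩
    let ψ : Option (XX V) → Option (Option (V ⊕ ℕ)) := fun x => match x with
      | none => some none
      | some (.inl (.inl v)) => some (some (.inl v))
      | some (.inl (.inr E)) => if E = D then some (some (.inr 0)) else none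
      | some (.inr (.inl p, .inl q)) =>
        if H.Adj p q ∧ Θ.Reg c r (gg p q) then some (some (.inl p)) else none
      | some (.inr (.inl p, .inr E)) => if E = D ∧ ∃ i, (i = r ∨ i = r + 1) ∧ p = Q i (l i) then
          some (some (.inr 0)) else none
      | _ => none
    have wy : ∀ i, i = r ∨ i = r + 1 → ψ (some (ga D (Q i (l i)))) = some (some (.inr 0)) ∧
        (Θ.wheel c r).Adj (some (io (Q i (l i)))) (some (ga D (Q i (l i)))) := fun i m =>
      ⟨if_pos ⟨rfl, i, m, rfl⟩, ro r i _ m ((on _ _).2 ⟨_, le_rfl, rfl⟩), ro r i _ m (oy i),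
        a1 (f i).fs (f i).m1⟩
    refine ht_minor' (Θ.ht_wheel c r) ψ (fun x => match x with
      | some (.inr _) => 1
      | _ => 0) ?_ ?_ ?_
    · rintro (_ | (v | E) | ⟨p | p, q | E⟩) w k
      iterate 3 exact Or.inl rfl
      · simp only [ψ] at k
        split_ifs at k with m
        exact Or.inr ⟨some (io p), ⟨m.2, (gc r p q m.1 m.2).1, (a3 m.1).symm⟩, k, Nat.one_pos⟩
      · simp only [ψ] at k
        split_ifs at k with m
        obtain ⟨rfl, i, m, rfl⟩ := m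
        exact Or.inr ⟨some (zz E), ⟨ro r i _ m (oy i), Or.inl (oz r), a2 (f i).fs (f i).m1⟩,
          (if_pos rfl).trans k, Nat.one_pos⟩
      all_goals cases k
    · rintro (_ | (v | E) | x) (_ | (u | F) | y) w k1 k2 z1 z2 <;> first | cases z1 | skip
      all_goals first | cases z2 | skip
      all_goals simp only [ψ] at k1 k2
      all_goals first | split_ifs at k1 | skip
      all_goals first | split_ifs at k2 | skip
      all_goals first | rfl | (cases k1; cases k2; done) | (cases k1; cases k2; rfl) | skip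
      all_goals simp [*]
    rintro x y ⟨z, e⟩
    wlog m : _ generalizing x y
    · obtain ⟨p, q, k1, k2, k3⟩ := this y x z.symm e.symm (e.resolve_left m)
      exact ⟨q, p, k2, k1, k3.symm⟩
    clear e
    rcases m with ⟨p, q, rfl, rfl, e⟩ | ⟨rfl, p, rfl, e⟩ | ⟨rfl, i, e, rfl⟩ | ⟨rfl, rfl⟩ |
      ⟨i, e, rfl, rfl⟩ | ⟨rfl, rfl⟩
    · obtain ⟨e, e1, e2, k | k | k⟩ := e
      · exact ⟨some (io p), some (io q), rfl, rfl, e1, e2, p, q, rfl, rfl, k⟩
      · exact ⟨some (gg p q), some (io q), if_pos ⟨le e, k⟩, rfl, k, e2, a4 (le e)⟩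
      · exact ⟨some (io p), some (gg q p), rfl, if_pos ⟨le e.symm, k⟩, e1, k, (a4 (le e.symm)).symm⟩
    · exact ⟨none, some (io p), rfl, rfl, e⟩
    · obtain rfl := Nat.le_zero.1 e
      exact ⟨none, some (zz D), rfl, if_pos rfl, Or.inl (oz r)⟩
    · exact ⟨some (io _), some (ga D _), rfl, (wy r (Or.inl rfl)).1, (wy r (Or.inl rfl)).2⟩
    · omega
    · exact ⟨some (ga D _), some (io _), (wy _ (Or.inr rfl)).1, rfl, (wy _ (Or.inr rfl)).2.symm⟩
  simp only [Sd, Set.mem_setOf_eq, cp, ← ta, not_or]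
  have k1 : ¬ Θ.On r (io v) → ¬ Θ.On (r + 1) (io v) → Θ.ta c r (io v) = 1 →
      Θ.Reg c r (io v) ∧ ∀ i, ¬ Θ.On i (io v) := by
    intro m1 m2 m3
    have o : ∀ i, ¬ Θ.On i (io v) := fun i => by
      rcases Theta.on_cases r i with rfl | rfl | rfl
      exacts [m1, m2, fun k => absurd (m3.symm.trans (Θ.ta_on c r k m1)) (by decide)]
    obtain ⟨s, k⟩ := cov v
    obtain ⟨-, k1, k2⟩ := (k.resolve_left (o _)).resolve_left (o _)
    rcases Theta.on_cases s r with rfl | rfl | rfl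
    exacts [⟨k, o⟩, absurd (m3.symm.trans k1) (by decide), absurd (m3.symm.trans k2) (by decide)]
  have k2 : ¬ Θ.On r (io v) → ¬ Θ.On (r + 1) (io v) → Θ.Reg c r (io v) → Θ.ta c r (io v) = 1 :=
    fun m1 m2 k => let ⟨_, k1, k2⟩ := (k.resolve_left m1).resolve_left m2; Θ.ta_one c r k1 k2
  refine ⟨⟨fun ⟨a, b⟩ => ⟨⟨off v b _, off v b _⟩, k2 (off v b _) (off v b _) a⟩,
    fun ⟨a, b⟩ => ⟨(k1 a.1 a.2 b).1, fun i k p q => (k1 a.1 a.2 b).2 i ((on _ _).2 ⟨k, p, q⟩)⟩⟩,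
    fun a => ?_, fun ⟨a, b⟩ k => absurd (b.symm.trans (k2 a.1 a.2 k)) (by decide)⟩
  have m1 : ¬ Θ.On r (io v) := fun k => a (Or.inl k)
  have m2 : ¬ Θ.On (r + 1) (io v) := fun k => a (Or.inr (Or.inl k))
  exact ⟨⟨m1, m2⟩, (by decide : ∀ s : ZMod 2, s ≠ 1 → s = 0) _ fun k => a (k1 m1 m2 k).1⟩

/-- Sink theorem: a tripod none of whose regions is heavier than its outside. -/
theorem sink [Finite V] (h : HT G) (T : Tree G) (μ : Set V → Set V → ℕ)
    (μ0 : ∀ C S, μ C ∅ ≤ μ C S) {u v x : V} (e : G.Adj u v) (h1 : x ≠ u) (h2 : x ≠ v) :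
    ∃ a b w, a ≠ b ∧ a ≠ w ∧ b ≠ w ∧ (∀ v, ∃ p ∈ ({w, a, b} : Set V), ∃ q ∈ ({w, a, b} : Set V),
      p ≠ q ∧ (v ∈ Cp T p q ∨ ∃ S : Set V, v ∈ S ∧ (∀ x ∈ S, x ∉ Cp T p q ∧ ∀ y, G.Adj x y →
        y ∈ S ∨ y ∈ Cp T p q) ∧ μ (Cp T p q) S ≤ μ (Cp T p q) (S ∪ Cp T p q)ᶜ)) ∧ ∀ (Q : Fin 3 → ℕ → V) (l : Fin 3 → ℕ),
      (∀ i, Q i (l i) ∈ ({w, a, b} : Set V)) → (∀ i j, Q i (l i) = Q j (l j) → i = j) →
      (∀ i j, Q i 0 = Q j 0) → (∀ i k, k < l i → TE T (Q i k) (Q i (k + 1))) →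
      (∀ i j k m, k ≤ l i → m ≤ l j → Q i k = Q j m → (i = j ∧ k = m) ∨ (k = 0 ∧ m = 0)) →
      ∃ R : Regs2 G Q l, ∀ r (C : Set V),
        (∀ v, v ∈ C ↔ ∃ i k, (i = r ∨ i = r + 1) ∧ k ≤ l i ∧ v = Q i k) →
        μ C {v | R.Reg r v ∧ ∀ i k, k ≤ l i → v ≠ Q i k} ≤ μ C {v | ¬ R.Reg r v} := by
  obtain ⟨H, le, h⟩ := exists_mx h T
  obtain ⟨c⟩ := ht_KK h.ht le T
  obtain ⟨D, ⟨a, b, w, f⟩, k⟩ := sink_face c h le μ μ0 (le e) h1 h2
  refine ⟨a, b, w, f.1.ne, f.2.1.ne, f.2.2.1.ne, fun v => ?_, fun Q l m ui top adj inj => ?_⟩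
  · obtain ⟨p, q, s, g, e⟩ : ∃ p q s, Fac H D p q s ∧ be c D p q s (io v) = 1 := by
      rcases (by decide : ∀ p q r : ZMod 2, p + q + r = 1 → p = 1 ∨ q = 1 ∨ r = 1) _ _ _
        (be_sum c f (io v)) with e | e | e
      exacts [⟨_, _, _, f, e⟩, ⟨_, _, _, f.rot, e⟩, ⟨_, _, _, f.rot.rot, e⟩]
    rw [← f.2.2.2.1]
    refine ⟨p, g.m1, q, g.rot.m1, g.1.ne, (em _).imp_right fun n => ⟨Sd c D p q s 1, ⟨n, e⟩,
      fun x hx => ⟨hx.1, fun y k => (em _).symm.imp_left fun m => ⟨m, ?_⟩⟩, ?_⟩⟩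
    · rw [← hx.2, be, be, ph_H c g (le k) hx.1 m]
    · convert k _ _ _ g
      ext x
      simp only [Sd, Set.mem_compl_iff, Set.mem_union, Set.mem_setOf_eq]
      have := (by decide : ∀ s : ZMod 2, s = 0 ↔ ¬ s = 1) (be c D p q s (io x))
      tauto
  rw [← f.2.2.2.1] at m
  have g : ∀ r, Fac H D (Q r (l r)) (Q (r + 1) (l (r + 1))) (Q (r + 2) (l (r + 2))) := fun r =>
    f.of_mem (m _) (m _) (m _) (fun e => by have := ui _ _ e; omega)
      (fun e => by have := ui _ _ e; omega) fun e => by have := ui _ _ e; omega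
  obtain ⟨R, hR⟩ := regions3 h le c Q l g top adj inj
  refine ⟨R, fun r C hC => ?_⟩
  obtain rfl : C = Cp T (Q r (l r)) (Q (r + 1) (l (r + 1))) := Set.ext fun v => by
    rw [hC, Cp_legs Q l top adj inj (by omega)]
    refine ⟨?_, ?_⟩
    · rintro ⟨i, k, rfl | rfl, p⟩
      exacts [Or.inl ⟨k, p⟩, Or.inr ⟨k, p⟩]
    · rintro (⟨k, p⟩ | ⟨k, p⟩)
      exacts [⟨_, k, Or.inl rfl, p⟩, ⟨_, k, Or.inr rfl, p⟩]
  rw [show {v | R.Reg r v ∧ ∀ i k, k ≤ l i → v ≠ Q i k} = _ from Set.ext fun v => (hR r v).1,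
    show {v | ¬ R.Reg r v} = _ from Set.ext fun v => (hR r v).2]
  exact k _ _ _ (g r)

end Pool.Agent.Lib.MP_ad48ef_co
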