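import Pool.Agent.Lib.MP_ad48ef_co.Bfs
import Pool.Agent.Lib.MP_ad48ef_co.Sink2
import Pool.Agent.Lib.MP_ad48ef_co.Disk

/-!
# The choice of the root and of the tripod
-/

namespace Pool.Agent.Lib.MP_ad48ef_co

open Pool.Agent.Shared.Planar

variable {V : Type} {G : SimpleGraph V}

def nb (ω i : ℕ) : ℕ := ω / 16 ^ i % 16

/-- A vertex of least level, if the mode `ω` asks for it. -/
def Tp (B : Bfs G) (ω : ℕ) (C : V → Prop) (x : V) : Prop :=
  ω.testBit 6 = true ∧ ∀ y, C y → B.dep x ≤ B.dep y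

open Classical in
/-- The weight of a vertex of a path depends on its level and on being internal. -/
noncomputable def Wt (B : Bfs G) (ω : ℕ) (C : V → Prop) (v : V) : ℕ :=
  if ∃ p q, p ≠ q ∧ C p ∧ C q ∧ TE B.toTree v p ∧ TE B.toTree v q then nb ω (5 + B.dep v)
  else nb ω (9 + B.dep v)

def Em (B : Bfs G) (ω J : ℕ) (C S : V → Prop) : Prop :=
  Ez G J (nb ω 2) (ω / 4096 % 256) C (Tp B ω C) (Wt B ω C) S

theorem Em.mono {B : Bfs G} {ω I J : ℕ} {C S : V → Prop} (h : Em B ω I C S) (k : I ≤ J) :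
    Em B ω J C S :=
  let ⟨l, a, b⟩ := h
  ⟨l, a, b.imp (And.imp_left fun m => m.trans k) (And.imp_left fun m => m.trans k)⟩

theorem exists_root (x : V) : ∃ (k : ℕ) (r : V) (Z : List V), k ≤ 4 ∧ NF G k ∧
    (∀ z ∈ Z, G.Adj r z) ∧ (k ≤ 3 → Z.length ≤ min k 2 ∧ ∀ v, D2 G v r ∨ ∃ z ∈ Z, D2 G v z) ∧
    (k = 2 → ∀ v, ∃ z ∈ Z, D2 G v z) := by
  have no : ∀ k, ¬ NF G k → ∃ a b c, Lev G k a b c ∧ ∀ v, D2 G v a ∨ D2 G v b ∨ D2 G v c := by
    intro k h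
    by_contra m
    refine h fun a b c d => by_contra fun n => m ⟨a, b, c, d, fun v => by_contra fun e => n ⟨v, ?_⟩⟩
    tauto
  have ye : ∀ {k a b c}, NF G k → Lev G k a b c → ¬ ∀ v, D2 G v a ∨ D2 G v b ∨ D2 G v c :=
    fun h d e => let ⟨v, k⟩ := h _ _ _ d; by have := e v; tauto
  by_cases h1 : NF G 1
  swap
  · obtain ⟨a, _, _, ⟨rfl, rfl⟩, e⟩ := no 1 h1
    exact ⟨0, a, [], by omega, fun _ _ _ => False.elim, by simp,
      fun _ => ⟨le_rfl, fun v => Or.inl (by simpa using e v)⟩, by omega⟩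
  by_cases h2 : NF G 2
  swap
  · obtain ⟨a, b, _, ⟨rfl, rfl | d⟩, e⟩ := no 2 h2
    · exact absurd e (ye h1 ⟨rfl, rfl⟩)
    · exact ⟨1, a, [b], by omega, h1, by simpa using d,
        fun _ => ⟨le_rfl, fun v => by simpa using e v⟩, by omega⟩
  by_cases h3 : NF G 3
  swap
  · obtain ⟨a, b, _, ⟨rfl, m, m1, m2⟩, e⟩ := no 3 h3
    have k : ∀ v, ∃ z ∈ [a, b], D2 G v z := fun v => by simpa using e v
    exact ⟨2, m, [a, b], by omega, h2, by
      simpa using ⟨(m1.resolve_left fun n => ye h2 ⟨rfl, n ▸ m2⟩ e).symm,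
        m2.resolve_left fun n => ye h2 ⟨rfl, n ▸ m1⟩ e⟩,
      fun _ => ⟨le_rfl, fun v => Or.inr (k v)⟩, fun _ => k⟩
  by_cases h4 : NF G 4
  · exact ⟨4, x, [], le_rfl, h4, by simp, by omega, by omega⟩
  obtain ⟨a, b, c, ⟨m1, m2⟩, e⟩ := no 4 h4
  refine ⟨3, a, [b, c], by omega, h3, ?_, fun _ => ⟨le_rfl, fun v => by simpa using e v⟩, by omega⟩
  simpa using ⟨m1.resolve_left fun n => ye h2 ⟨rfl, m2⟩ fun v => by have := e v; rw [← n] at this; tauto,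
    m2.resolve_left fun n => ye h2 ⟨rfl, m1⟩ fun v => by have := e v; rw [← n] at this; tauto⟩

theorem Bfs.anc (B : Bfs G) {w p : V} (h : p ∈ B.toTree.P w) :
    ∃ n, n < 4 ∧ p = B.par^[n] w ∧ (n = 3 → p = B.root) := by
  have rt : ∀ n v, B.dep v ≤ n → B.par^[n] v = B.root := by
    intro n
    induction n with
    | zero => intro v k; by_contra m; have := B.dpar v m; omega
    | succ n ih =>
      intro v k
      refine ih _ ?_
      by_cases m : v = B.root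
      · rw [m, B.par_root, B.dep0]; omega
      · have := B.dpar v m; omega
  obtain ⟨n, rfl⟩ := h
  by_cases m : n < 3
  · exact ⟨n, by omega, rfl, by omega⟩
  · have := rt n w ((B.le3 w).trans (by omega))
    exact ⟨3, by omega, this.trans (rt 3 w (B.le3 w)).symm, fun _ => this⟩

/-- The data provided by the sink theorem in a counterexample. -/
structure Env3 (G : SimpleGraph V) (ω : ℕ → ℕ) where
  B : Bfs G
  u : ℕ → V
  Z : List V
  kk : ℕ
  ne : u 0 ≠ u 1 ∧ u 0 ≠ u 2 ∧ u 1 ≠ u 2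
  dom : ∃ y, ∀ v, G.Adj v y ∨ ∃ p q, p < 3 ∧ q < 3 ∧ ∃ x ∈ Cp B.toTree (u p) (u q), G.Adj v x
  reg : ∀ (Q : Fin 3 → ℕ → V) (l : Fin 3 → ℕ),
    (∀ i, Q i (l i) ∈ ({u 0, u 1, u 2} : Set V)) → (∀ i j, Q i (l i) = Q j (l j) → i = j) →
    (∀ i j, Q i 0 = Q j 0) → (∀ i k, k < l i → TE B.toTree (Q i k) (Q i (k + 1))) →
    (∀ i j k m, k ≤ l i → m ≤ l j → Q i k = Q j m → (i = j ∧ k = m) ∨ (k = 0 ∧ m = 0)) →
    ∃ R : Regs2 G Q l, ∀ r (C : V → Prop),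
      (∀ v, C v ↔ ∃ i k, (i = r ∨ i = r + 1) ∧ k ≤ l i ∧ v = Q i k) → ∀ J, J ≤ 127 →
      Em B (ω kk) J C (fun v => ¬ R.Reg r v) →
      Em B (ω kk) J C fun v => R.Reg r v ∧ ∀ i k, k ≤ l i → v ≠ Q i k
  k4 : kk ≤ 4
  nf : NF G kk
  zd : kk ≤ 3 → Z.length ≤ min kk 2 ∧ ∀ v, D2 G v B.root ∨ ∃ z ∈ Z, D2 G v z
  z2 : kk = 2 → ∀ v, ∃ z ∈ Z, D2 G v z
  zf : ∀ p q, B.dep p = 1 → B.dep q = 1 → B.key q ≤ B.key p → p ∈ Z → q ∈ Z
  za : kk ≤ 3 → ∀ v, B.dep v = 3 → B.par (B.par v) ∈ Z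

theorem exists_env3 [Finite V] (h : HT G) (d3 : D3 G) {x y z : V} (e : G.Adj x y) (h1 : z ≠ x)
    (h2 : z ≠ y) (ω : ℕ → ℕ) : Nonempty (Env3 G ω) := by
  classical
  obtain ⟨kk, r, Z, k4, nf, zs, zd, z2⟩ := exists_root (G := G) x
  obtain ⟨B, rfl, zf⟩ := exists_bfs d3 r {z | z ∈ Z}
  let μ : Set V → Set V → ℕ := fun C S => sInf {j | Em B (ω kk) j (· ∈ C) (· ∈ S) ∨ j = 128}
  have hμ : ∀ C S S' J, μ C S ≤ μ C S' → J ≤ 127 → Em B (ω kk) J (· ∈ C) (· ∈ S') →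
      Em B (ω kk) J (· ∈ C) (· ∈ S) := by
    intro C S S' J a b c
    have k : μ C S ≤ J := a.trans (Nat.sInf_le (Or.inl c))
    exact ((Nat.sInf_mem (s := {j | Em B (ω kk) j (· ∈ C) (· ∈ S) ∨ j = 128})
      ⟨128, Or.inr rfl⟩).resolve_right (fun m : μ C S = 128 => by omega)).mono k
  obtain ⟨a, b, w, n1, n2, n3, hd, hr⟩ := sink h B.toTree μ (fun C S =>
    (Nat.sInf_le (Or.inl ⟨[], by simp, Or.inl (by simp)⟩)).trans (Nat.zero_le _)) e h1 h2
  have ix : ∀ p ∈ ({w, a, b} : Set V), ∃ i, i < 3 ∧ [w, a, b].getD i a = p := by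
    rintro p (rfl | rfl | rfl)
    exacts [⟨0, by omega, rfl⟩, ⟨1, by omega, rfl⟩, ⟨2, by omega, rfl⟩]
  refine ⟨⟨B, fun k => [w, a, b].getD k a, Z, kk, ⟨n2.symm, n3.symm, n1⟩, ?_,
    fun Q l k1 k2 k3 k4 k5 => ?_, k4, nf, zd, z2, zf, fun k3 v hv => ?_⟩⟩
  · by_contra no
    push Not at no
    have no' : ∀ y, ∃ v, ¬ G.Adj v y ∧ ∀ p ∈ ({w, a, b} : Set V), ∀ q ∈ ({w, a, b} : Set V),
        ∀ x ∈ Cp B.toTree p q, ¬ G.Adj v x := fun y => by
      obtain ⟨v, v1, v2⟩ := no y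
      refine ⟨v, v1, fun p hp q hq => ?_⟩
      obtain ⟨i, i1, rfl⟩ := ix p hp
      obtain ⟨j, j1, rfl⟩ := ix q hq
      exact v2 i j i1 j1
    have nc : ∀ v, ∀ p ∈ ({w, a, b} : Set V), ∀ q ∈ ({w, a, b} : Set V), p ≠ q →
        (∀ x ∈ Cp B.toTree p q, ¬ G.Adj v x) → v ∉ Cp B.toTree p q := fun v p _ q _ n k m =>
      let ⟨y, y1, y2⟩ := Cp_nbr m n; k y y1 y2
    obtain ⟨v, -, hv⟩ := no' x
    obtain ⟨p, hp, q, hq, n, k⟩ := hd v
    obtain ⟨S, s1, s2, s3⟩ := k.resolve_left (nc v p hp q hq n (hv p hp q hq))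
    have key : ∀ t, t ∉ Cp B.toTree p q → (∀ x ∈ Cp B.toTree p q, ¬ G.Adj t x) → t ∈ S := by
      intro t t1 t2
      obtain ⟨c, d, c1, c2, c3⟩ := d3 v t
      have st : ∀ c d, c ∈ S → Wk G c d → d ∉ Cp B.toTree p q → d ∈ S := by
        rintro c d m (rfl | k) l
        exacts [m, ((s2 c m).2 d k).resolve_right l]
      refine st d t (st c d (st v c s1 c1 fun m => ?_) c2 fun m => ?_) c3 t1
      · exact c1.elim (fun k => (s2 v s1).1 (k ▸ m)) (hv p hp q hq c m)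
      · exact c3.elim (fun k => t1 (k ▸ m)) fun k => t2 d m k.symm
    obtain ⟨l, l1, l2 | ⟨-, -, -, y, -, l2⟩⟩ := hμ _ _ _ 127 s3 le_rfl
      ⟨[p, B.par p, B.par (B.par p), q, B.par q, B.par (B.par q), B.root].filter
        (· ∈ Cp B.toTree p q), by simp, Or.inl ⟨(List.sum_le_card_nsmul _ 15 fun x k => by
          obtain ⟨y, -, rfl⟩ := List.mem_map.1 k
          unfold Wt nb
          split_ifs <;> omega).trans (by
          rw [List.length_map, smul_eq_mul]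
          exact (Nat.mul_le_mul_right _ (List.length_filter_le _ _)).trans (by simp)),
        fun t ht => by
          by_contra m
          refine ht (Or.inl (key t (fun k => ht (Or.inr k)) fun x k n => m ⟨x, ?_, n⟩))
          rw [List.mem_filter, decide_eq_true_eq, and_iff_left k]
          rcases k.1 with k | k <;> obtain ⟨n, n1, n2, n3⟩ := B.anc k <;> interval_cases n <;>
            first | (simp [n3 rfl]; done) | simp [n2]⟩⟩
    · obtain ⟨x, x1, x2⟩ := l2.2 v s1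
      exact hv p hp q hq x (l1 x x1) x2
    · obtain ⟨t, t1, t2⟩ := no' y
      obtain ⟨x, x1, x2⟩ := (l2 t (key t (nc t p hp q hq n (t2 p hp q hq))
        (t2 p hp q hq))).resolve_left t1
      exact t2 p hp q hq x (l1 x x1) x2
  · obtain ⟨R, hR⟩ := hr Q l k1 k2 k3 k4 k5
    exact ⟨R, fun r C k J => hμ {v | C v} _ _ J (hR r _ k)⟩
  have l : ∀ p q, Wk G p q → B.dep p ≤ B.dep q + 1 := by
    rintro p q (rfl | k)
    exacts [by omega, B.lip _ _ k]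
  have d0 := B.dep0
  have up : ∀ v n, B.dep v = n + 1 → B.dep (B.par v) = n := fun v n k => by
    have := B.dpar v (by rintro rfl; omega)
    omega
  obtain ⟨t, t1, c, c1, c2⟩ := ((zd k3).2 v).resolve_left fun ⟨c, c1, c2⟩ => by
    have := l _ _ c1; have := l _ _ c2; omega
  have := B.lip _ _ (zs t t1).symm
  have := l _ _ c1
  have := l _ _ c2
  have k1 := B.min _ _ (c1.resolve_left (by rintro rfl; omega)) (by omega)
  have k2 := B.min _ _ (c2.resolve_left (by rintro rfl; omega)) (by omega)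
  have k3 := B.mono c (B.par v) (by omega) (up v 2 hv)
  exact zf t _ (by omega) (up _ 1 (up v 2 hv)) (by omega) t1

end Pool.Agent.Lib.MP_ad48ef_co
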