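import Pool.Agent.Lib.MP_ad48ef_co.Large1

/-!
# Large planar graphs of diameter three: reduction to a vertex of degree two
-/

namespace Pool.Agent.Lib.MP_ad48ef_co

open Pool.Agent.Shared Pool.Agent.Shared.Planar Finset

/-- The case of a vertex of degree two. -/
def T2 : Prop := ∀ (V : Type) [Finite V] (G : SimpleGraph V), HT G → D3 G → ∀ x a b, G.Adj x a →
  G.Adj x b → a ≠ b → (∀ y, G.Adj x y → y = a ∨ y = b) → ¬ ND G 6

variable {V : Type} {G : SimpleGraph V} {a b : V}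

/-- The case of radius at most two. -/
theorem radius_two [Finite V] (t2 : T2) (h : HT G) (d3 : D3 G) (e : G.Adj a b)
    (hr : ∀ v, ∃ y, Wk G a y ∧ Wk G y v) : ¬ ND G 6 := by
  classical
  intro nd
  have wk : ∀ {p q}, Wk G p q → Wk (apex G {a, b, b}) (some p) (some q) := fun k =>
    k.imp (congrArg some) id
  have na : (apex G {a, b, b}).Adj none (some a) := Or.inl rfl
  refine t2 _ _ (h.apex_edge e) ?_ none (some a) (some b) na (Or.inr (Or.inl rfl))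
    (fun k => e.ne (Option.some.inj k)) ?_ fun l hl => ?_
  · rintro (_ | p) (_ | q)
    · exact ⟨_, _, Or.inl rfl, Or.inl rfl, Or.inl rfl⟩
    · obtain ⟨y, y1, y2⟩ := hr q
      exact ⟨_, _, Or.inr na, wk y1, wk y2⟩
    · obtain ⟨y, y1, y2⟩ := hr p
      exact ⟨_, _, wk y2.symm, wk y1.symm, Or.inr na.symm⟩
    · obtain ⟨x, y, k1, k2, k3⟩ := d3 p q
      exact ⟨_, _, wk k1, wk k2, wk k3⟩
  · rintro (_ | y) k
    · exact k.elim
    · rcases k with rfl | rfl | rfl <;> simp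
  obtain ⟨v, hv⟩ := nd (l.map fun x => x.getD (if some a ∈ l then b else a)) (by simpa using hl)
  have hs : ∀ u, some u ∈ l → ¬ G.Adj v u := fun u m => hv _ (List.mem_map_of_mem m)
  by_cases m : none ∈ l ∧ (v = a ∨ v = b)
  · have := hv _ (List.mem_map_of_mem m.1)
    refine ⟨none, ?_⟩
    rintro (_ | u) hu k
    · exact k
    split_ifs at this with c
    · rcases m.2 with rfl | rfl
      exacts [this e, hs a c e.symm]
    · rcases m.2 with rfl | rfl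
      · rcases k with rfl | rfl | rfl
        exacts [c hu, hs _ hu e, hs _ hu e]
      · exact this e.symm
  · refine ⟨some v, ?_⟩
    rintro (_ | u) hu k
    · exact m ⟨hu, k.imp id fun k => k.elim id id⟩
    · exact hs u hu k

theorem T2.gen (t2 : T2) (V : Type) [Finite V] (G : SimpleGraph V) (h : HT G) (d3 : D3 G)
    (x a b : V) (e : G.Adj x a) (hx : ∀ y, G.Adj x y → y = a ∨ y = b) : ¬ ND G 6 := by
  by_cases m : G.Adj x b ∧ a ≠ b
  · exact t2 V G h d3 x a b e m.1 m.2 hx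
  have key : ∀ y, Wk G x y → y = x ∨ y = a := by
    rintro y (rfl | k)
    · exact Or.inl rfl
    rcases hx y k with rfl | rfl
    exacts [Or.inr rfl, Or.inr (by_contra fun c => m ⟨k, Ne.symm c⟩)]
  refine radius_two t2 h d3 e.symm fun v => ?_
  obtain ⟨p, q, k1, k2, k3⟩ := d3 x v
  rcases key p k1 with rfl | rfl
  · rcases key q k2 with rfl | rfl
    exacts [⟨_, Or.inr e.symm, k3⟩, ⟨_, Or.inl rfl, k3⟩]
  · exact ⟨q, k2, k3⟩

/-- A vertex adjacent or equal to neither `a` nor `b`. -/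
def Deep (G : SimpleGraph V) (a b w : V) : Prop := ¬ Wk G a w ∧ ¬ Wk G b w

theorem deep_path (d3 : D3 G) {u w : V} (hw : Deep G a b w) (hu : u ≠ a ∧ u ≠ b)
    (hn : ¬ Nr G a b 4 u w) : ∃ c t, (c = a ∨ c = b) ∧ G.Adj u c ∧ G.Adj c t ∧ G.Adj t w := by
  obtain ⟨p, q, k1, k2, k3⟩ := d3 u w
  have hq : q ≠ a ∧ q ≠ b := ⟨fun e => hw.1 (e ▸ k3), fun e => hw.2 (e ▸ k3)⟩
  have hp : p = a ∨ p = b := by
    by_contra m
    exact hn (Nr.four k1 k2 k3 hu (not_or.1 m) hq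
      ⟨fun e => hw.1 (Or.inl e.symm), fun e => hw.2 (Or.inl e.symm)⟩)
  refine ⟨p, q, hp, k1.resolve_left ?_, k2.resolve_left ?_, k3.resolve_left ?_⟩
  · rintro rfl; exact hp.elim hu.1 hu.2
  · rintro rfl; exact hp.elim hq.1 hq.2
  · rintro rfl
    rcases hp with rfl | rfl
    exacts [hw.1 k2, hw.2 k2]

/-- A family of pairwise distant short connections. -/
structure Fam2 (G : SimpleGraph V) (a b : V) (J : Finset V) (x y : V → V) : Prop where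
  fam : Fam G a b J fun j => {x j, y j}
  d3 : D3 G
  xa : ∀ j ∈ J, G.Adj a (x j)
  yb : ∀ j ∈ J, G.Adj b (y j)
  xy : ∀ j ∈ J, Wk G (x j) (y j)
  far : ∀ i ∈ J, ∀ j ∈ J, i ≠ j → ∀ v ∈ ({x i, y i} : Set V), ∀ w ∈ ({x j, y j} : Set V),
    ¬ Nr G a b 4 v w
  deep : ∀ j ∈ J, ∀ v ∈ ({x j, y j} : Set V), ∀ w, Deep G a b w → ¬ Nr G a b 6 w v

variable {J : Finset V} {x y : V → V}

def Ok (a b : V) (J : Finset V) (x y : V → V) (k : V) : Set V :=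
  {u | u ≠ a ∧ u ≠ b ∧ ∀ j ∈ J, j ≠ k → u ∉ ({x j, y j} : Set V)}

/-- The zone of a connection. -/
def Zn (G : SimpleGraph V) (a b : V) (J : Finset V) (x y : V → V) (k : V) : Set V :=
  {u | R G (Ok a b J x y k) (x k) u}

theorem Fam2.ok (h : Fam2 G a b J x y) {k v : V} (hk : k ∈ J) (hv : v ∈ ({x k, y k} : Set V)) :
    v ∈ Ok a b J x y k :=
  ⟨fun e => (h.fam.off k hk).1 (e ▸ hv), fun e => (h.fam.off k hk).2 (e ▸ hv),
    fun j hj m e => h.fam.dj j hj k hk m v e hv⟩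

theorem Fam2.zo (h : Fam2 G a b J x y) {k v : V} (hk : k ∈ J) (hv : v ∈ Zn G a b J x y k) :
    v ∈ Ok a b J x y k := R.mem hv (h.ok hk (Or.inl rfl))

theorem Fam2.zone (h : Fam2 G a b J x y) {l d : V} (hd : d ∈ Ok a b J x y l) {W : Finset V}
    (hW : W ⊆ J) (hz : ∀ j ∈ W, ∃ z ∈ Zn G a b J x y j, ∃ u, R G (Ok a b J x y l) d u ∧ Wk G u z) :
    W.card ≤ 3 := by
  classical
  have := h.fam.reach ((erase_subset l W).trans hW) d fun j hj => by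
    obtain ⟨j1, j2⟩ := mem_erase.1 hj
    obtain ⟨z, z1, u, u1, u2⟩ := hz j j2
    refine ⟨Ok a b J x y l ∪ Ok a b J x y j, fun e => e.elim (fun e => e.1 rfl) fun e => e.1 rfl,
      fun e => e.elim (fun e => e.2.1 rfl) fun e => e.2.1 rfl, Or.inl hd, fun i hi m v hv => ?_,
      x j, Or.inl rfl, (R.wk (u1.mono Set.subset_union_left le_rfl) (Or.inl (u1.mem hd))
        (Or.inr (h.zo (hW j2) z1)) u2).trans (R.mono z1 Set.subset_union_right le_rfl).symm⟩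
    obtain ⟨i1, i2⟩ := mem_erase.1 hi
    exact hv.elim (fun e => e.2.2 i (hW i2) i1) fun e => e.2.2 i (hW i2) m
  have := pred_card_le_card_erase (s := W) (a := l)
  omega

/-- The graph obtained by emptying a zone. -/
def Kp (G : SimpleGraph V) (Z : Set V) (a b p q : V) : SimpleGraph V where
  Adj u v := G.Adj u v ∧ ((u ∉ Z ∧ v ∉ Z) ∨ s(u, v) = s(a, p) ∨ s(u, v) = s(p, q) ∨
    s(u, v) = s(q, b))
  symm := ⟨fun u v h => ⟨h.1.symm, by rw [Sym2.eq_swap (a := v), and_comm]; exact h.2⟩⟩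
  loopless := ⟨fun _ h => G.irrefl h.1⟩

theorem Fam2.keep (h : Fam2 G a b J x y) {k i p q : V} (hk : k ∈ J) (hi : i ∈ J) (ik : i ≠ k)
    (hp : G.Adj a p) (hq : G.Adj b q) (pq : Wk G p q)
    (hc : p = q ∨ (p = x k ∧ q = y k ∧ ∀ z ∈ Zn G a b J x y k, G.Adj a z → ¬ G.Adj b z))
    (hd : ∀ t w, Deep G a b w → Wk G t w → t ∉ Zn G a b J x y k) {v w : V}
    (hv : v ∉ Zn G a b J x y k ∨ v = p ∨ v = q) (hw : w ∉ Zn G a b J x y k ∨ w = p ∨ w = q) :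
    ∃ s t, Wk (Kp G (Zn G a b J x y k) a b p q) v s ∧ Wk (Kp G (Zn G a b J x y k) a b p q) s t ∧
      Wk (Kp G (Zn G a b J x y k) a b p q) t w := by
  set Z := Zn G a b J x y k
  set K := Kp G Z a b p q
  have r : ∀ {u}, Wk K u u := Or.inl rfl
  have wk : ∀ {u v}, Wk G u v → u ∉ Z → v ∉ Z → Wk K u v := fun e m n =>
    e.imp id fun e => ⟨e, Or.inl ⟨m, n⟩⟩
  have aZ : a ∉ Z := fun e => (h.zo hk e).1 rfl
  have bZ : b ∉ Z := fun e => (h.zo hk e).2.1 rfl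
  have xZ : ∀ j ∈ J, j ≠ k → x j ∉ Z := fun j m n e => (h.zo hk e).2.2 j m n (Or.inl rfl)
  have yZ : ∀ j ∈ J, j ≠ k → y j ∉ Z := fun j m n e => (h.zo hk e).2.2 j m n (Or.inr rfl)
  have ap : Wk K a p := Or.inr ⟨hp, by simp⟩
  have pq' : Wk K p q := pq.imp id fun e => ⟨e, by simp⟩
  have qb : Wk K q b := Or.inr ⟨hq.symm, by simp⟩
  have ax : ∀ j ∈ J, j ≠ k → Wk K a (x j) := fun j m n => wk (Or.inr (h.xa j m)) aZ (xZ j m n)
  have yb : ∀ j ∈ J, j ≠ k → Wk K b (y j) := fun j m n => wk (Or.inr (h.yb j m)) bZ (yZ j m n)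
  have xy : ∀ j ∈ J, j ≠ k → Wk K (x j) (y j) := fun j m n => wk (h.xy j m) (xZ j m n) (yZ j m n)
  have bd : ∀ u z, u ∉ Z → z ∈ Z → Wk G u z → G.Adj u z ∧
      (u = a ∨ u = b ∨ ∃ j ∈ J, j ≠ k ∧ u ∈ ({x j, y j} : Set V)) := by
    intro u z m n e
    have e := e.resolve_left (by rintro rfl; exact m n)
    refine ⟨e, by_contra fun c => m (R.tail n (h.zo hk n) ?_ e.symm)⟩
    push Not at c
    exact c
  have two : ∀ u u' z z', u ∉ Z → u' ∉ Z → z ∈ Z → z' ∈ Z → Wk G u z → Wk G z z' → Wk G z' u' →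
      (∃ t, Wk K u t ∧ Wk K t u') ∨ (u = a ∧ u' = b) ∨ (u = b ∧ u' = a) := by
    intro u u' z z' m m' n n' e1 e2 e3
    have ca : ∀ j ∈ J, j ≠ k → ∀ u ∈ ({x j, y j} : Set V), ∃ t, Wk K a t ∧ Wk K t u := by
      rintro j j1 j2 _ (rfl | rfl)
      exacts [⟨_, ax j j1 j2, r⟩, ⟨_, ax j j1 j2, xy j j1 j2⟩]
    have cb : ∀ j ∈ J, j ≠ k → ∀ u ∈ ({x j, y j} : Set V), ∃ t, Wk K b t ∧ Wk K t u := by
      rintro j j1 j2 _ (rfl | rfl)
      exacts [⟨_, yb j j1 j2, (xy j j1 j2).symm⟩, ⟨_, yb j j1 j2, r⟩]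
    have sw : ∀ {u v}, (∃ t, Wk K u t ∧ Wk K t v) → ∃ t, Wk K v t ∧ Wk K t u :=
      fun ⟨t, t1, t2⟩ => ⟨t, t2.symm, t1.symm⟩
    rcases (bd u z m n e1).2 with rfl | rfl | ⟨j, j1, j2, j3⟩ <;>
      rcases (bd u' z' m' n' e3.symm).2 with rfl | rfl | ⟨l, l1, l2, l3⟩
    exacts [Or.inl ⟨_, r, r⟩, by simp, Or.inl (ca l l1 l2 _ l3), by simp, Or.inl ⟨_, r, r⟩,
      Or.inl (cb l l1 l2 _ l3), Or.inl (sw (ca j j1 j2 _ j3)), Or.inl (sw (cb j j1 j2 _ j3)), by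
        by_cases c : j = l
        · subst c
          rcases j3 with rfl | rfl <;> rcases l3 with rfl | rfl
          exacts [Or.inl ⟨_, r, r⟩, Or.inl ⟨_, r, xy j j1 j2⟩, Or.inl ⟨_, r, (xy j j1 j2).symm⟩,
            Or.inl ⟨_, r, r⟩]
        · have o := fun {v} (e : v ∈ Ok a b J x y j) => And.intro e.1 e.2.1
          have o' := fun {v} (e : v ∈ Z) => And.intro (h.zo hk e).1 (h.zo hk e).2.1
          exact absurd (Nr.four e1 e2 e3 (o (h.ok j1 j3)) (o' n) (o' n')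
            ⟨(h.ok l1 l3).1, (h.ok l1 l3).2.1⟩) (h.far j j1 l l1 c _ j3 _ l3)]
  have one : ∀ u u' z, u ∉ Z → u' ∉ Z → z ∈ Z → Wk G u z → Wk G z u' →
      ∃ t, Wk K u t ∧ Wk K t u' := by
    intro u u' z m m' n e1 e2
    have c : G.Adj a z → G.Adj b z → p = q := fun s t => hc.resolve_right fun c => c.2.2 z n s t
    rcases two u u' z z m m' n n e1 (Or.inl rfl) e2 with e | ⟨rfl, rfl⟩ | ⟨rfl, rfl⟩
    · exact e
    · exact ⟨p, ap, c (bd _ _ m n e1).1 (bd _ _ m' n e2.symm).1 ▸ qb⟩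
    · exact ⟨q, qb.symm, c (bd _ _ m' n e2.symm).1 (bd _ _ m n e1).1 ▸ ap.symm⟩
  have dp : ∀ w, Deep G a b w → ∀ u ∈ ({x k, y k} : Set V), ∃ c t, (c = a ∨ c = b) ∧ G.Adj u c ∧
      Wk K c t ∧ Wk K t w := by
    intro w e u hu
    obtain ⟨c, t, c1, c2, c3, c4⟩ := deep_path h.d3 e ⟨(h.ok hk hu).1, (h.ok hk hu).2.1⟩
      fun ⟨S, s1, s2⟩ => h.deep k hk u hu w e (Nr.symm ⟨S, by omega, s2⟩)
    have := hd t w e (Or.inr c4)
    exact ⟨c, t, c1, c2, wk (Or.inr c3) (by rcases c1 with rfl | rfl <;> assumption) this,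
      wk (Or.inr c4) this (hd w w e (Or.inl rfl))⟩
  have xk : x k ∈ Z := R.refl
  have yk : y k ∈ Z := R.wk xk (h.ok hk (Or.inl rfl)) (h.ok hk (Or.inr rfl)) (h.xy k hk)
  have kept : ∀ v w, v = p ∨ v = q → w ∉ Z → ∃ s t, Wk K v s ∧ Wk K s t ∧ Wk K t w := by
    clear hv hw
    intro v w hv hw
    by_cases c1 : Wk G a w
    · rcases hv with rfl | rfl
      exacts [⟨_, _, r, ap.symm, wk c1 aZ hw⟩, ⟨_, _, pq'.symm, ap.symm, wk c1 aZ hw⟩]
    by_cases c2 : Wk G b w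
    · rcases hv with rfl | rfl
      exacts [⟨_, _, pq', qb, wk c2 bZ hw⟩, ⟨_, _, r, qb, wk c2 bZ hw⟩]
    rcases hc with rfl | ⟨rfl, rfl, c⟩
    · obtain ⟨c, t, rfl | rfl, -, e1, e2⟩ := dp w ⟨c1, c2⟩ _ (Or.inl rfl) <;>
        obtain rfl := hv.elim id id
      exacts [⟨_, _, ap.symm, e1, e2⟩, ⟨_, _, qb, e1, e2⟩]
    rcases hv with rfl | rfl
    · obtain ⟨c, t, rfl | rfl, e, e1, e2⟩ := dp w ⟨c1, c2⟩ _ (Or.inl rfl)
      exacts [⟨_, _, ap.symm, e1, e2⟩, absurd e.symm (c _ xk hp)]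
    · obtain ⟨c, t, rfl | rfl, e, e1, e2⟩ := dp w ⟨c1, c2⟩ _ (Or.inr rfl)
      exacts [absurd hq (c _ yk e.symm), ⟨_, _, qb, e1, e2⟩]
  rcases hv with hv | hv <;> rcases hw with hw | hw
  · obtain ⟨s, t, k1, k2, k3⟩ := h.d3 v w
    by_cases m : s ∈ Z <;> by_cases n : t ∈ Z
    · rcases two v w s t hv hw m n k1 k2 k3 with ⟨t, e⟩ | ⟨rfl, rfl⟩ | ⟨rfl, rfl⟩
      exacts [⟨_, t, r, e⟩, ⟨_, _, ax i hi ik, xy i hi ik, (yb i hi ik).symm⟩,
        ⟨_, _, yb i hi ik, (xy i hi ik).symm, (ax i hi ik).symm⟩]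
    · obtain ⟨u, u1, u2⟩ := one v t s hv n m k1 k2
      exact ⟨u, t, u1, u2, wk k3 n hw⟩
    · obtain ⟨u, u1, u2⟩ := one s w t m hw n k2 k3
      exact ⟨s, u, wk k1 hv m, u1, u2⟩
    · exact ⟨s, t, wk k1 hv m, wk k2 m n, wk k3 n hw⟩
  · obtain ⟨s, t, k1, k2, k3⟩ := kept w v hw hv
    exact ⟨t, s, k3.symm, k2.symm, k1.symm⟩
  · exact kept v w hv hw
  · rcases hv with rfl | rfl <;> rcases hw with rfl | rfl
    exacts [⟨_, _, r, r, r⟩, ⟨_, _, r, r, pq'⟩, ⟨_, _, r, r, pq'.symm⟩, ⟨_, _, r, r, r⟩]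

theorem Fam2.main [Finite V] (t2 : T2) (h : Fam2 G a b J x y) (hJ : 90 ≤ J.card) : ¬ ND G 6 := by
  classical
  intro nd
  let W : Prop × Prop → Finset V := fun τ =>
    J.filter fun j => ∃ z ∈ Zn G a b J x y j, (G.Adj a z, G.Adj b z) = τ
  let B := J.filter fun j => ∃ t w, Deep G a b w ∧ Wk G t w ∧ t ∈ Zn G a b J x y j
  have hB : B.card ≤ 3 := by
    rcases B.eq_empty_or_nonempty with m | ⟨j, m⟩
    · simp [m]
    obtain ⟨-, -, w0, d0, -⟩ := mem_filter.1 m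
    have o : ∀ {w}, Deep G a b w → w ≠ a ∧ w ≠ b := fun e =>
      ⟨fun k => e.1 (Or.inl k.symm), fun k => e.2 (Or.inl k.symm)⟩
    have key : ∀ w, Deep G a b w → R G (Ok a b J x y j) w0 w ∧ w ∈ Ok a b J x y j := by
      intro w e
      obtain ⟨S, s1, s2, s3, s4, s5⟩ : Nr G a b 4 w0 w := by
        by_contra c
        obtain ⟨c, t, rfl | rfl, k, -⟩ := deep_path h.d3 e (o d0) c
        exacts [d0.1 (Or.inr k.symm), d0.2 (Or.inr k.symm)]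
      have : ∀ p, R G S w0 p → p ∈ Ok a b J x y j := fun p k =>
        ⟨fun c => s2 (c ▸ k.mem s4), fun c => s3 (c ▸ k.mem s4),
          fun i hi _ c => h.deep i hi p c w0 d0 ⟨S, by omega, s2, s3, s4, k⟩⟩
      exact ⟨s5.restrict fun p k _ => this p k, this w s5⟩
    refine h.zone (key w0 d0).2 (filter_subset _ _) fun i hi => ?_
    obtain ⟨-, t, w, e1, e2, e3⟩ := mem_filter.1 hi
    exact ⟨t, e3, w, (key w e1).1, e2.symm⟩
  have hW := card_biUnion_le_card_mul (univ.filter fun τ => (W τ).card ≤ 21) W 21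
    fun τ m => (mem_filter.1 m).2
  have c4 : (univ.filter fun τ => (W τ).card ≤ 21).card ≤ 4 := (card_le_univ _).trans (by simp)
  obtain ⟨k, hk, k1⟩ := exists_mem_notMem_of_card_lt_card
    (s := B ∪ (univ.filter fun τ => (W τ).card ≤ 21).biUnion W) (t := J)
    ((card_union_le _ _).trans_lt (by omega))
  rw [mem_union, not_or] at k1
  obtain ⟨i, hi, ik⟩ := exists_mem_ne (show 1 < J.card by omega) k
  set Z := Zn G a b J x y k
  have xk : x k ∈ Z := R.refl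
  obtain ⟨p, q, pZ, hp, hq, pq, hc⟩ : ∃ p q, p ∈ Z ∧ G.Adj a p ∧ G.Adj b q ∧ Wk G p q ∧
      (p = q ∨ (p = x k ∧ q = y k ∧ ∀ z ∈ Z, G.Adj a z → ¬ G.Adj b z)) := by
    by_cases m : ∃ z ∈ Z, G.Adj a z ∧ G.Adj b z
    · obtain ⟨z, z1, z2, z3⟩ := m
      exact ⟨z, z, z1, z2, z3, Or.inl rfl, Or.inl rfl⟩
    · exact ⟨_, _, xk, h.xa k hk, h.yb k hk, h.xy k hk,
        Or.inr ⟨rfl, rfl, fun z z1 z2 z3 => m ⟨z, z1, z2, z3⟩⟩⟩
  have aZ : a ∉ Z := fun e => (h.zo hk e).1 rfl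
  have bZ : b ∉ Z := fun e => (h.zo hk e).2.1 rfl
  let U := {v // v ∉ Z ∨ v = p ∨ v = q}
  let K := Kp G Z a b p q
  have cl : ∀ (u : U) v, Wk K u v → v ∉ Z ∨ v = p ∨ v = q := by
    rintro u v (rfl | ⟨-, e | e | e | e⟩)
    · exact u.2
    · exact Or.inl e.2
    all_goals rcases Sym2.eq_iff.1 e with ⟨-, rfl⟩ | ⟨-, rfl⟩ <;> simp [*]
  have wk : ∀ {u v : U}, Wk K u v → Wk (K.comap Subtype.val) u v := fun e => e.imp Subtype.ext id
  refine t2.gen U (K.comap Subtype.val) (h.fam.ht.comap _ Subtype.val_injective fun _ _ e => e.1)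
    (fun v w => ?_) ⟨p, by simp⟩ ⟨a, Or.inl aZ⟩
    (if p = q then ⟨b, Or.inl bZ⟩ else ⟨q, by simp⟩) ⟨hp.symm, by simp⟩ ?_ fun l hl => ?_
  · obtain ⟨s, t, k1, k2, k3⟩ := h.keep hk hi ik hp hq pq hc
      (fun t w e1 e2 e3 => k1.1 (mem_filter.2 ⟨hk, t, w, e1, e2, e3⟩)) v.2 w.2
    exact ⟨⟨s, cl _ _ k1⟩, ⟨t, cl _ _ k3.symm⟩, wk k1, wk k2, wk k3⟩
  · rintro ⟨u, hu⟩ ⟨e0, e | e | e | e⟩
    · exact absurd pZ e.1
    · rcases Sym2.eq_iff.1 e with ⟨e, -⟩ | ⟨-, e⟩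
      exacts [absurd pZ fun m => aZ (e ▸ m), Or.inl (Subtype.ext e)]
    · rcases Sym2.eq_iff.1 e with ⟨-, e⟩ | ⟨-, e⟩
      · refine Or.inr ?_
        rw [if_neg fun c => e0.ne (c.trans e.symm)]
        exact Subtype.ext e
      · exact absurd e.symm e0.ne
    · rcases Sym2.eq_iff.1 e with ⟨e, e'⟩ | ⟨e, -⟩
      · refine Or.inr ?_
        rw [if_pos e]
        exact Subtype.ext e'
      · exact absurd pZ fun m => bZ (e ▸ m)
  obtain ⟨v, hv⟩ := nd (l.map Subtype.val) (by simpa using hl)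
  by_cases m : v ∉ Z
  · exact ⟨⟨v, Or.inl m⟩, fun u hu e => hv _ (List.mem_map_of_mem hu) e.1⟩
  by_contra all
  push Not at all m
  have c1 : 21 < (W (G.Adj a v, G.Adj b v)).card := not_le.1 fun c => k1.2
    (mem_biUnion.2 ⟨_, mem_filter.2 ⟨mem_univ _, c⟩, mem_filter.2 ⟨hk, v, m, rfl⟩⟩)
  let M := J.filter fun j => ∃ z ∈ Zn G a b J x y j, z ∈ Z
  have c2 : M.card ≤ 3 := h.zone (h.ok hk (Or.inl rfl)) (filter_subset _ _) fun j hj =>
    let ⟨_, z, z1, z2⟩ := mem_filter.1 hj; ⟨z, z1, z, z2, Or.inl rfl⟩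
  let D : U → Finset V := fun d => J.filter fun j =>
    d.1 ≠ a ∧ d.1 ≠ b ∧ ∃ z ∈ Zn G a b J x y j, G.Adj d z
  have c3 := card_biUnion_le_card_mul l.toFinset D 3 fun d _ => by
    rcases (D d).eq_empty_or_nonempty with m | ⟨j, m⟩
    · simp [m]
    obtain ⟨-, d1, d2, -⟩ := mem_filter.1 m
    obtain ⟨l, hl⟩ : ∃ l, d.1 ∈ Ok a b J x y l := by
      by_cases c : ∃ l ∈ J, d.1 ∈ ({x l, y l} : Set V)
      · obtain ⟨l, l1, l2⟩ := c
        exact ⟨l, h.ok l1 l2⟩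
      · exact ⟨k, d1, d2, fun l l1 _ l2 => c ⟨l, l1, l2⟩⟩
    refine h.zone hl (filter_subset _ _) fun j hj => ?_
    obtain ⟨-, -, -, z, z1, z2⟩ := mem_filter.1 hj
    exact ⟨z, z1, _, R.refl, Or.inr z2⟩
  have c5 : (W (G.Adj a v, G.Adj b v)).card ≤ (M ∪ l.toFinset.biUnion D).card := by
    refine card_le_card fun j hj => ?_
    obtain ⟨j1, z, z1, z2⟩ := mem_filter.1 hj
    by_cases c : z ∈ Z
    · exact mem_union_left _ (mem_filter.2 ⟨j1, z, z1, c⟩)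
    obtain ⟨d, d1, d2⟩ := all ⟨z, Or.inl c⟩
    have d3 : G.Adj d z := d2.1.symm
    have d4 := hv _ (List.mem_map_of_mem d1)
    obtain ⟨e1, e2⟩ := Prod.mk.inj z2
    exact mem_union_right _ (mem_biUnion.2 ⟨d, List.mem_toFinset.2 d1, mem_filter.2 ⟨j1,
      fun e => d4 (e ▸ (e1 ▸ e ▸ d3 : G.Adj a v).symm),
      fun e => d4 (e ▸ (e2 ▸ e ▸ d3 : G.Adj b v).symm), z, z1, d3⟩⟩)
  have := card_union_le M (l.toFinset.biUnion D)
  have := List.toFinset_card_le l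
  omega

theorem large (t2 : T2) : ∃ N, ∀ (V : Type) [Fintype V] (G : SimpleGraph V), HT G → D3 G →
    N ≤ Fintype.card V → ¬ ND G 6 := by
  classical
  obtain ⟨M, hM⟩ := sun (90 * (2 * 63 + 1) + 81) 3
  refine ⟨(M + 1 + 1) ^ 3 + 1, fun V _ G h d3 hN => ?_⟩
  obtain ⟨a, Y, y1, y2⟩ := high_degree d3 hN
  by_cases hr : ∀ v, ∃ y, Wk G a y ∧ Wk G y v
  · obtain ⟨y, hy⟩ := card_pos.1 (show 0 < Y.card by omega)
    exact radius_two t2 h d3 (y2 y hy) hr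
  push Not at hr
  obtain ⟨v, hv⟩ := hr
  have r : ∀ {u}, Wk G u u := Or.inl rfl
  obtain ⟨b, ab, I, i1, i2, S, s1, s2⟩ := hM G a v Y (fun e => hv a r (Or.inl e)) (by omega)
    fun y hy => by
      obtain ⟨p, q, k1, k2, k3⟩ := d3 y v
      refine cut (S := {y, p, q, v}) (R.wk (R.wk (R.wk R.refl ?_ ?_ k1) ?_ ?_ k2) ?_ ?_ k3)
        (by simp) (fun e => hv y (Or.inr (y2 y hy)) (Or.inl e)) ?_ card_le_four
      iterate 6 simp
      simp only [mem_insert, mem_singleton, not_or]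
      exact ⟨(y2 y hy).ne, fun e => hv q (e ▸ k2) k3, fun e => hv a r (e ▸ k3),
        fun e => hv a r (Or.inl e)⟩
  have F : Fam G a b I fun i => S i := ⟨h, ab, fun i hi => Cn.of_root i (s1 i hi).2.2.2.2.1,
    fun i hi => ⟨(s1 i hi).2.1, (s1 i hi).2.2.1⟩, fun i hi => ⟨i, (s1 i hi).2.2.2.1, y2 i (i1 hi)⟩,
    fun i hi => (s1 i hi).2.2.2.2.2, s2⟩
  have nr : ∀ i ∈ I, ∀ u ∈ S i, Nr G a b 3 i u := fun i hi u hu =>
    let ⟨t1, t2, t3, t4, t5, _⟩ := s1 i hi; ⟨_, t1, t2, t3, t4, t5 u hu⟩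
  let B := I.filter fun i => ∃ u ∈ S i, ∃ w, Deep G a b w ∧ Nr G a b 6 w u
  have hB : B.card ≤ 81 := by
    rcases B.eq_empty_or_nonempty with m | ⟨j, m⟩
    · simp [m]
    obtain ⟨-, -, -, w0, d0, -⟩ := mem_filter.1 m
    refine (F.near 10 w0 (filter_subset _ _) fun i hi => ?_).trans (by norm_num)
    obtain ⟨-, u, u1, w, e, u2⟩ := mem_filter.1 hi
    refine ⟨u, u1, Nr.trans (r := 4) ?_ u2 le_rfl⟩
    by_contra c
    obtain ⟨c, t, rfl | rfl, k, -⟩ := deep_path d3 e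
      ⟨fun k => d0.1 (Or.inl k.symm), fun k => d0.2 (Or.inl k.symm)⟩ c
    exacts [d0.1 (Or.inr k.symm), d0.2 (Or.inr k.symm)]
  obtain ⟨J, j1, j2, j3⟩ := free_set (fun i j => ∃ w ∈ S j, Nr G a b 10 i w) 63 90 (I \ B)
    (fun i _ t ht k => F.near 10 i (ht.trans sdiff_subset) k)
    (by have := le_card_sdiff B I; omega)
  have jI : J ⊆ I := j1.trans sdiff_subset
  have nd : ∀ j ∈ J, ∀ u ∈ S j, ∀ w, Deep G a b w → ¬ Nr G a b 6 w u := fun j hj u hu w e k =>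
    (mem_sdiff.1 (j1 hj)).2 (mem_filter.2 ⟨jI hj, u, hu, w, e, k⟩)
  have pr : ∀ j ∈ J, ∃ x ∈ S j, ∃ y ∈ S j, G.Adj a x ∧ G.Adj b y ∧ Wk G x y := by
    intro j hj
    obtain ⟨-, t2, t3, t4, t5, s, t6, t7⟩ := s1 j (jI hj)
    refine ((t5 s t6).ind (fun u => G.Adj a u ∨ _) (Or.inl (y2 j (i1 (jI hj)))) ?_).elim
      (fun e => ⟨s, t6, s, t6, e, t7, r⟩) id
    rintro p q hp hq e (k | k)
    · by_cases c : G.Adj a q
      · exact Or.inl c
      refine Or.inr ⟨p, hp, q, hq, k, by_contra fun c' => nd j hj q hq q ⟨?_, ?_⟩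
        ⟨{q}, by simp, ?_, ?_, by simp, R.refl⟩, Or.inr e⟩
      · exact fun m => m.elim (fun m => t2 (m ▸ hq)) c
      · exact fun m => m.elim (fun m => t3 (m ▸ hq)) c'
      · exact fun m => t2 (mem_singleton.1 m ▸ hq)
      · exact fun m => t3 (mem_singleton.1 m ▸ hq)
    · exact Or.inr k
  choose! x x1 y y1' e1 e2 e3 using pr
  have sb : ∀ j ∈ J, ∀ u ∈ ({x j, y j} : Set V), u ∈ S j := by
    rintro j hj _ (rfl | rfl)
    exacts [x1 j hj, y1' j hj]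
  refine Fam2.main (J := J) (x := x) (y := y) t2 ⟨⟨h, ab, fun j hj => Cn.of_root (x j) ?_,
    fun j hj => ⟨fun e => (F.off j (jI hj)).1 (sb j hj _ e), fun e => (F.off j (jI hj)).2 (sb j hj _ e)⟩,
    fun j hj => ⟨_, Or.inl rfl, e1 j hj⟩, fun j hj => ⟨_, Or.inr rfl, e2 j hj⟩,
    fun i hi j hj m u h1 h2 => s2 i (jI hi) j (jI hj) m u (sb i hi u h1) (sb j hj u h2)⟩,
    d3, e1, e2, e3, fun i hi j hj m u h1 w h2 k => j3 i hi j hj m ⟨w, sb j hj w h2,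
      (nr i (jI hi) u (sb i hi u h1)).trans k (by norm_num)⟩,
    fun j hj u hu => nd j hj u (sb j hj u hu)⟩ j2.ge
  rintro _ (rfl | rfl)
  exacts [R.refl, R.wk R.refl (Or.inl rfl) (Or.inr rfl) (e3 j hj)]

end Pool.Agent.Lib.MP_ad48ef_co
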