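import Pool.Agent.Lib.MP_ad48ef_co.Glue1

/-!
# A finite planar graph has a vertex of degree at most five
-/

namespace Pool.Agent.Lib.MP_ad48ef_co

open Pool.Agent.Shared.Planar Finset

variable {V : Type} [Fintype V]

open Classical in
noncomputable def prs (G : SimpleGraph V) : Finset (V × V) := univ.filter fun p => G.Adj p.1 p.2

open Classical in
noncomputable def nbs (G : SimpleGraph V) (v : V) : Finset V := univ.filter (G.Adj v)

theorem mem_prs {G : SimpleGraph V} {p : V × V} : p ∈ prs G ↔ G.Adj p.1 p.2 := by simp [prs]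
theorem mem_nbs {G : SimpleGraph V} {v w : V} : w ∈ nbs G v ↔ G.Adj v w := by simp [nbs]

theorem prs_sum (G : SimpleGraph V) (s : Finset V) (h : ∀ a b, G.Adj a b → a ∈ s) :
    #(prs G) = ∑ v ∈ s, #(nbs G v) := by
  classical
  rw [card_eq_sum_card_fiberwise (f := Prod.fst) (t := s) fun p k => h _ _ (mem_prs.1 k)]
  refine sum_congr rfl fun v _ => (card_nbij' (fun w => (v, w)) Prod.snd ?_ ?_ ?_ ?_).symm
  · intro w k; simpa [mem_prs] using mem_nbs.1 k
  · rintro ⟨a, b⟩ k
    obtain ⟨j, rfl⟩ := mem_filter.1 k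
    exact mem_nbs.2 (mem_prs.1 j)
  · intro w _; rfl
  · rintro ⟨a, b⟩ k
    obtain ⟨-, rfl⟩ := mem_filter.1 k
    rfl

theorem dense_nb {G : SimpleGraph V} (h : HT G) {v w : V} (e : G.Adj v w) (h5 : #(nbs G v) ≤ 5) :
    ∃ u, G.Adj v u ∧ ∀ T : Finset V, (∀ x ∈ T, G.Adj v x ∧ G.Adj u x) → #T ≤ 2 := by
  classical
  by_contra k
  have k3 : ∀ u, G.Adj v u → 3 ≤ #(nbs G v ∩ nbs G u) := fun u a => by
    by_contra m
    exact k ⟨u, a, fun T p => (card_le_card fun x q =>
      mem_inter.2 ⟨mem_nbs.2 (p x q).1, mem_nbs.2 (p x q).2⟩).trans (by omega)⟩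
  have c1 : ∀ a : V, Cn G {a} := fun a => Cn.of_root a (by rintro _ rfl; exact R.refl)
  by_cases m : ∃ p q, G.Adj v p ∧ G.Adj v q ∧ p ≠ q ∧ ¬ G.Adj p q
  · obtain ⟨p, q, a, b, n, d⟩ := m
    have c3 : #((nbs G v).erase p |>.erase q) ≤ 3 := by
      rw [card_erase_of_mem (mem_erase.2 ⟨n.symm, mem_nbs.2 b⟩), card_erase_of_mem (mem_nbs.2 a)]
      omega
    have e1 : nbs G v ∩ nbs G p = ((nbs G v).erase p).erase q :=
      eq_of_subset_of_card_le (fun x y => by
        simp only [mem_inter, mem_erase, mem_nbs] at y ⊢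
        exact ⟨fun z => d (z ▸ y.2), y.2.ne', y.1⟩) (c3.trans (k3 p a))
    have e2 : nbs G v ∩ nbs G q = ((nbs G v).erase p).erase q :=
      eq_of_subset_of_card_le (fun x y => by
        simp only [mem_inter, mem_erase, mem_nbs] at y ⊢
        exact ⟨y.2.ne', fun z => d (z ▸ y.2).symm, y.1⟩) (c3.trans (k3 q b))
    obtain ⟨x, y, z, x1, y1, z1, n1, n2, n3⟩ := two_lt_card_iff.1 (k3 p a)
    have all : ∀ t ∈ nbs G v ∩ nbs G p, G.Adj v t ∧ G.Adj p t ∧ G.Adj q t := fun t m =>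
      ⟨mem_nbs.1 (mem_inter.1 m).1, mem_nbs.1 (mem_inter.1 m).2,
        mem_nbs.1 (mem_inter.1 (e2 ▸ e1 ▸ m)).2⟩
    have ad : ∀ i j : Fin 3, G.Adj (![v, p, q] i) (![x, y, z] j) := fun i j => by
      have := all x x1; have := all y y1; have := all z z1
      fin_cases i <;> fin_cases j <;> simp [*]
    refine h.no_K33 (fun i => {![v, p, q] i}) (fun j => {![x, y, z] j}) (fun _ => c1 _)
      (fun _ => c1 _) ?_ ?_ (fun i j t p q => (ad i j).ne (p.symm.trans q))
      fun i j => ⟨_, rfl, _, rfl, ad i j⟩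
    · rintro i j n _ rfl e
      have := a.ne; have := b.ne
      fin_cases i <;> fin_cases j <;> simp at n e <;> simp_all
    · rintro i j n _ rfl e
      fin_cases i <;> fin_cases j <;> simp at n e <;> simp_all
  · obtain ⟨x, y, z, x1, y1, z1, n1, n2, n3⟩ := two_lt_card_iff.1 (k3 w e)
    simp only [mem_inter, mem_nbs] at x1 y1 z1
    have f : ∀ p q, G.Adj v p → G.Adj v q → p ≠ q → G.Adj p q := fun p q a b n => by
      by_contra d
      exact m ⟨p, q, a, b, n, d⟩
    have ad : ∀ i j : Fin 5, i < j → G.Adj (![v, w, x, y, z] i) (![v, w, x, y, z] j) := by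
      have := f x y x1.1 y1.1 n1; have := f x z x1.1 z1.1 n2; have := f y z y1.1 z1.1 n3
      intro i j n
      fin_cases i <;> fin_cases j <;> simp at n <;> simp [*]
    refine h.no_K5 (fun i => {![v, w, x, y, z] i}) (fun _ => c1 _) (fun i j n t p q => ?_)
      fun i j n => ⟨_, rfl, _, rfl, ad i j n⟩
    rcases lt_or_gt_of_ne n with n | n
    exacts [(ad i j n).ne (p.symm.trans q), (ad j i n).ne (q.symm.trans p)]

theorem sparse (n : ℕ) : ∀ (m : ℕ) (s : Finset V) (G : SimpleGraph V), #s = n + 1 →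
    #(prs G) = m → HT G → (∀ a b, G.Adj a b → a ∈ s) → m + 4 ≤ 6 * (n + 1) := by
  classical
  induction n using Nat.strong_induction_on with
  | _ n ih =>
  intro m
  induction m using Nat.strong_induction_on with
  | _ m ih' =>
  intro s G hs hm h sup
  by_cases big : 6 * (n + 1) ≤ m
  · obtain ⟨⟨a, b⟩, e⟩ := card_pos.1 (by omega : 0 < #(prs G))
    let K := G.deleteEdges {s(a, b)}
    have k1 : prs K ⊂ prs G := ⟨fun p k => mem_prs.2 (mem_prs.1 k).1, fun k => by
      simpa [K, mem_prs] using k e⟩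
    have k2 : prs G ⊆ insert (a, b) (insert (b, a) (prs K)) := fun ⟨p, q⟩ k => by
      simp only [mem_insert, mem_prs, K, SimpleGraph.deleteEdges_adj, Set.mem_singleton_iff,
        Sym2.eq_iff, Prod.mk.injEq] at k ⊢
      tauto
    have := ih' _ (hm ▸ card_lt_card k1) s K hs rfl (h.mono (G.deleteEdges_le _))
      fun a b e => sup a b e.1
    have := (card_le_card k2).trans ((card_insert_le _ _).trans
      (Nat.succ_le_succ (card_insert_le _ _)))
    omega
  obtain ⟨v, v1, v2⟩ : ∃ v ∈ s, #(nbs G v) < 6 := by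
    by_contra k
    push Not at k
    have := card_nsmul_le_sum s _ 6 k
    rw [← prs_sum G s sup, hs, smul_eq_mul] at this
    omega
  have step : ∀ (K : SimpleGraph V) w, w ∈ s.erase v → HT K → (∀ a b, K.Adj a b → a ∈ s.erase v) →
      #(prs K) + 4 ≤ 6 * n := fun K w p q r => by
    have := card_erase_of_mem v1
    have := card_pos.2 ⟨w, p⟩
    have := ih (n - 1) (by omega) _ (s.erase v) K (by omega) rfl q r
    omega
  by_cases iso : ∃ w, G.Adj v w
  swap
  · rcases (prs G).eq_empty_or_nonempty with e | ⟨p, e⟩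
    · rw [e, card_empty] at hm; omega
    have k : ∀ a b, G.Adj a b → a ∈ s.erase v := fun a b e =>
      mem_erase.2 ⟨fun m => iso ⟨b, m ▸ e⟩, sup a b e⟩
    have := step G _ (k _ _ (mem_prs.1 e)) h k
    omega
  obtain ⟨w, e⟩ := iso
  obtain ⟨u, e, cm⟩ := dense_nb h e (by omega)
  let f : V → V := fun x => if x = v then u else x
  let K : SimpleGraph V := SimpleGraph.fromRel fun a b => ∃ x y, G.Adj x y ∧ f x = a ∧ f y = b
  have fs : ∀ x, x ∈ s → f x ∈ s.erase v := fun x k => by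
    simp only [f]
    split_ifs with m
    exacts [mem_erase.2 ⟨e.ne', sup _ _ e.symm⟩, mem_erase.2 ⟨m, k⟩]
  haveI : Nonempty V := ⟨v⟩
  have := step K u (mem_erase.2 ⟨e.ne', sup _ _ e.symm⟩)
    (ht_minor' h (fun x => some (f x)) (fun x => if x = v then 1 else 0) (fun x w k => ?_)
      (fun x y w a b c d => ?_) ?_) ?_
  · let T := nbs G v ∩ nbs G u
    have t2 : #T ≤ 2 := cm T fun x k => by simpa [T, mem_nbs] using k
    let B := insert (v, u) (insert (u, v) (T.image (fun x => (v, x)) ∪ T.image fun x => (x, v)))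
    have b6 : #B ≤ 6 := (card_insert_le _ _).trans (Nat.succ_le_succ ((card_insert_le _ _).trans
      (Nat.succ_le_succ ((card_union_le _ _).trans (Nat.add_le_add (card_image_le.trans t2)
        (card_image_le.trans t2))))))
    have mB : ∀ a b, (a, b) ∈ prs G \ B ↔ G.Adj a b ∧ ¬ (a = v ∧ b = u) ∧ ¬ (a = u ∧ b = v) ∧
        ¬ (a = v ∧ G.Adj u b) ∧ ¬ (b = v ∧ G.Adj u a) := fun a b => by
      simp only [B, T, mem_sdiff, mem_prs, mem_insert, mem_union, mem_image, mem_inter, mem_nbs,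
        Prod.mk.injEq, not_or]
      refine and_congr_right fun k => and_congr_right' (and_congr_right' (and_congr
        (not_congr ⟨?_, ?_⟩) (not_congr ⟨?_, ?_⟩)))
      · rintro ⟨x, p, rfl, rfl⟩; exact ⟨rfl, p.2⟩
      · rintro ⟨rfl, p⟩; exact ⟨b, ⟨k, p⟩, rfl, rfl⟩
      · rintro ⟨x, p, rfl, rfl⟩; exact ⟨rfl, p.2⟩
      · rintro ⟨rfl, p⟩; exact ⟨a, ⟨k.symm, p⟩, rfl, rfl⟩
    have := card_le_card_of_injOn (s := prs G \ B) (t := prs K) (Prod.map f f) ?_ ?_
    · have := le_card_sdiff B (prs G)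
      omega
    · rintro ⟨a, b⟩ k
      obtain ⟨k, k1⟩ := (mB a b).1 k
      refine mem_prs.2 ⟨?_, Or.inl ⟨a, b, k, rfl, rfl⟩⟩
      have := k.ne
      simp only [f, Prod.map]
      grind
    · rintro ⟨a, b⟩ k ⟨c, d⟩ l q
      obtain ⟨k, k1⟩ := (mB a b).1 k
      obtain ⟨l, l1⟩ := (mB c d).1 l
      have := k.ne; have := l.ne; have := k.symm; have := l.symm
      simp only [f, Prod.map, Prod.mk.injEq] at q ⊢
      grind
  · by_cases m : x = v
    · exact Or.inr ⟨u, m ▸ e, by simpa [f, m, e.ne'] using k, by simp [m, e.ne']⟩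
    · exact Or.inl (if_neg m)
  · have : x ≠ v := fun m => by simp [m] at c
    have : y ≠ v := fun m => by simp [m] at d
    simp_all [f]
  · rintro a b ⟨-, ⟨x, y, p, rfl, rfl⟩ | ⟨x, y, p, rfl, rfl⟩⟩
    exacts [⟨x, y, rfl, rfl, p⟩, ⟨y, x, rfl, rfl, p.symm⟩]
  · rintro a b ⟨-, ⟨x, y, p, rfl, rfl⟩ | ⟨x, y, p, rfl, rfl⟩⟩
    exacts [fs _ (sup _ _ p), fs _ (sup _ _ p.symm)]

theorem min_deg [Nonempty V] {G : SimpleGraph V} (h : HT G) : ∃ v, #(nbs G v) ≤ 5 := by
  by_contra k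
  push Not at k
  have c : 0 < #(univ : Finset V) := card_pos.2 univ_nonempty
  have := sparse (#(univ : Finset V) - 1) _ univ G (by omega) rfl h fun _ _ _ => mem_univ _
  have := card_nsmul_le_sum univ _ 6 fun v _ => k v
  rw [← prs_sum G univ fun _ _ _ => mem_univ _, smul_eq_mul] at this
  omega

end Pool.Agent.Lib.MP_ad48ef_co
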