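import Pool.Agent.Lib.MP_ad48ef_co.Front2b
import Pool.Agent.Lib.MP_ad48ef_co.MinDeg
import Pool.Agent.Lib.MP_ad48ef_co.Large2
import Pool.Agent.Lib.MP_ad48ef_co.Diam

/-!
# Reductions of the final statements to the refuted shapes
-/

namespace Pool.Agent.Lib.MP_ad48ef_co

open Pool.Agent.Shared.Planar Finset Gl

variable {V : Type} {G : SimpleGraph V}

/-- All shapes are refuted for root degree at most `d` and minimum degree at least `lo`. -/
def Tops (d lo : ℕ) : Prop := ∀ x ∈ SHS, Cfg (x.1.set d lo) → False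

theorem of_deg [Fintype V] {d lo : ℕ} (hT : Tops d lo) (h : HT G) (d3 : D3 G) {x y : V}
    (e : G.Adj x y) (hi : #(nbs G x) ≤ d) (hl : ∀ v, lo ≤ #(nbs G v)) : ¬ ND G 6 := by
  classical
  refine no_cex hT h d3 e (fun l a b => ?_) fun v => ⟨(nbs G v).toList, nodup_toList _,
    fun x k => mem_nbs.1 (mem_toList.1 k), by rw [length_toList]; exact hl v⟩
  rw [← List.toFinset_card_of_nodup a]
  exact (card_le_card fun z k => mem_nbs.2 (b z (List.mem_toFinset.1 k))).trans hi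

theorem t2_of (hT : Tops 2 0) : T2 := fun V _ G h d3 x a b e _ _ k => by
  classical
  haveI := Fintype.ofFinite V
  exact of_deg hT h d3 e ((card_le_card (t := {a, b}) fun y m => by
    simpa using k y (mem_nbs.1 m)).trans card_le_two) fun _ => Nat.zero_le _

/-- Graphs with a vertex of degree at most `d`. -/
theorem upto [Fintype V] {d : ℕ} (hT : ∀ k, k ≤ d → ∃ a b, b ≤ k ∧ k ≤ a ∧ Tops a b) (h : HT G)
    (dm : G.diam = 3) {x : V} (hx : #(nbs G x) ≤ d) :
    ∃ D : Finset V, D.card ≤ 6 ∧ ∀ v, ∃ u ∈ D, G.Adj v u := by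
  obtain ⟨d3, nb⟩ := d3_of_diam dm
  obtain ⟨z, -, m⟩ := exists_min_image univ (fun v => #(nbs G v)) ⟨x, mem_univ _⟩
  obtain ⟨a, b, p, q, r⟩ := hT _ ((m x (mem_univ _)).trans hx)
  obtain ⟨y, e⟩ := nb z
  exact set_of_not_nd (of_deg r h d3 e q fun v => p.trans (m v (mem_univ _)))

theorem nbs_card [Fintype V] (x : V) : #(nbs G x) = (G.neighborSet x).ncard := by
  rw [← Set.ncard_coe_finset]
  congr 1
  ext y
  exact mem_nbs

theorem all_of [Fintype V] (hT : ∀ k, k ≤ 5 → ∃ a b, b ≤ k ∧ k ≤ a ∧ Tops a b) (h : HT G)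
    (dm : G.diam = 3) : ∃ D : Finset V, D.card ≤ 6 ∧ ∀ v, ∃ u ∈ D, G.Adj v u := by
  haveI := (SimpleGraph.nontrivial_of_diam_ne_zero (G := G) (by omega)).to_nonempty
  obtain ⟨x, hx⟩ := min_deg h
  exact upto hT h dm hx

theorem large_of (hT : Tops 2 0) : ∃ N, ∀ (V : Type) [Fintype V] (G : SimpleGraph V), HT G →
    G.diam = 3 → N ≤ Fintype.card V → ∃ D : Finset V, D.card ≤ 6 ∧ ∀ v, ∃ u ∈ D, G.Adj v u :=
  let ⟨N, h⟩ := large (t2_of hT)
  ⟨N, fun V _ G a b c => set_of_not_nd (h V G a (d3_of_diam b).1 c)⟩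

end Pool.Agent.Lib.MP_ad48ef_co
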