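import Pool.Agent.Lib.MP_ad48ef_co.Sound1

/-!
# Soundness of the minor rule
-/

namespace Pool.Agent.Lib.MP_ad48ef_co

open Pool.Agent.Shared Pool.Agent.Shared.Planar

variable {X : Type} {P : Par} {C : Ctx P X} {ρ : ℕ → X} {M c : ℕ}

theorem NM_tb : ∀ t < 32, ∀ q < 192, NM.testBit (192 * t + q) =
    decide ((128 ≤ q ∧ q < 176) ∨ (48 ≤ q ∧ q < 52) ∨ q = 64 + t) := by decide +kernel

theorem MK_tb : ∀ t < 32, ∀ q < 192, MK.testBit (192 * t + q) = decide (q < 64 ∨ 128 ≤ q) := by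
  decide +kernel

theorem M16_tb {q : ℕ} : M16.testBit q = true ↔ q < 3072 := by
  rw [show M16 = ones 3072 by decide +kernel, tb_ones]

namespace Ctx

def In (C : Ctx P X) (r : ℕ) (x : X) : Prop := C.Reg r x ∨ ∀ y, ¬ C.G.Adj x y
def im (ρ : ℕ → X) (S : ℕ) : Set X := {x | ∃ a, S.testBit a = true ∧ x = ρ a}
def Ke (C : Ctx P X) (r : ℕ) (x y : X) : Prop := C.In r x → C.In r y → Wk (C.KG r) x y

/-- The meaning of the matrix used by the minor rule. -/
def Km (C : Ctx P X) (ρ : ℕ → X) (r K : ℕ) : Prop := ∀ t, t < 32 →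
  (∀ q, q < 32 → K.testBit (192 * t + q) = true → C.Ke r (ρ t) (ρ q)) ∧
  (K.testBit (192 * t + (48 + r)) = false → C.In r (ρ t)) ∧
  (∀ q, q < 32 → (K.testBit (192 * t + (64 + q)) = true ↔ q = t)) ∧
  ∀ q, q < 32 → K.testBit (192 * t + (128 + q)) = false → ρ t ≠ ρ q

theorem km_ok {r : ℕ} (hr : r < 4) (hH : C.Hub ρ) (h : C.St ρ M) : C.Km ρ r (Nat.xor (Nat.lor
    (Nat.land M MK) (Nat.land (Nat.shiftRight P.v3 (Nat.mul 3072 r)) M16)) NM) := by
  intro t ht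
  have v : ∀ q, q < 192 → (Nat.land (Nat.shiftRight P.v3 (Nat.mul 3072 r)) M16).testBit
      (192 * t + q) = true → r < 3 ∧ t < 16 ∧ (row P.VV (16 * r + t)).testBit q = true := by
    intro q hq e
    rw [tb_and, tb_sr, Bool.and_eq_true, M16_tb, C.tabs_ok.2.2.2.2.1, Nat.mul_eq,
      show 3072 * r + (192 * t + q) = 192 * (16 * r + t) + q by ring, Par.v3', tb_tbl hq] at e
    exact ⟨by omega, by omega, e.1.2⟩
  refine ⟨fun q hq e h1 h2 => ?_, fun e => ?_, fun q hq => ?_, fun q hq e => ?_⟩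
  · rw [tb_xor, NM_tb t ht q (by omega), decide_eq_false (by omega), Bool.xor_false, tb_or,
      tb_and, Bool.or_eq_true, Bool.and_eq_true] at e
    rcases e with e | e
    · refine ((h t q (by omega) e.1).1 (by omega)).imp id fun k => ?_
      exact C.kadj r _ _ (h1.resolve_right fun z => z _ k) (h2.resolve_right fun z => z _ k.symm) k
    · obtain ⟨a1, a2, a3⟩ := v q (by omega) e
      obtain ⟨k1, k2, -⟩ := C.kv r a1 t q a2 a3
      rw [hH t k1, hH q (k2 (by omega)).1]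
      exact Or.inr (k2 (by omega)).2
  · rw [tb_xor, NM_tb t ht _ (by omega), decide_eq_true (by omega), Bool.xor_true,
      Bool.not_eq_false', tb_or, tb_and, Bool.or_eq_true, Bool.and_eq_true] at e
    rcases e with e | e
    · exact Or.inl (by simpa using (h t _ (by omega) e.1).2.1 (by omega) (by omega))
    · obtain ⟨a1, a2, a3⟩ := v _ (by omega) e
      obtain ⟨k1, -, k3⟩ := C.kv r a1 t _ a2 a3
      rw [hH t k1]
      exact Or.inr (k3 (by omega))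
  · have z : (Nat.land (Nat.shiftRight P.v3 (Nat.mul 3072 r)) M16).testBit
        (192 * t + (64 + q)) = false := by
      by_contra k
      have := (tb_row.1 (v _ (by omega) (Bool.eq_true_of_not_eq_false k)).2.2).1
      omega
    rw [tb_xor, NM_tb t ht _ (by omega), tb_or, z, tb_and, MK_tb t ht _ (by omega),
      decide_eq_false (by omega : ¬ (64 + q < 64 ∨ 128 ≤ 64 + q))]
    simp
    omega
  · rw [tb_xor, NM_tb t ht _ (by omega), decide_eq_true (by omega), Bool.xor_true,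
      Bool.not_eq_false', tb_or, tb_and, Bool.or_eq_true, Bool.and_eq_true] at e
    rcases e with e | e
    · simpa using (h t _ (by omega) e.1).2.2.2 (by omega)
    · have := (tb_row.1 (v _ (by omega) e).2.2).1
      omega

theorem tb_sof {U a : ℕ} : (sof U).testBit a = true ↔ a < 32 ∧ U.testBit (64 + a) = true := by
  rw [sof, tb_and, tb_sr, show 4294967295 = 2 ^ 32 - 1 from rfl, Nat.testBit_two_pow_sub_one]
  simp [and_comm]

structure Inv (C : Ctx P X) (ρ : ℕ → X) (r U g : ℕ) : Prop where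
  le : g ≤ 1
  cn : g ≠ 0 → (∀ a, (sof U).testBit a = true → C.In r (ρ a)) → Cn (C.KG r) (im ρ (sof U))
  un : ∀ q, q < 32 → U.testBit q = true → ∃ a, (sof U).testBit a = true ∧ C.Ke r (ρ a) (ρ q)
  lb : U.testBit (48 + r) = false → ∀ a, (sof U).testBit a = true → C.In r (ρ a)
  ne : ∀ q, q < 32 → U.testBit (128 + q) = false → ∀ a, (sof U).testBit a = true → ρ a ≠ ρ q

variable {r K U g : ℕ}

theorem Inv.step (hK : C.Km ρ r K) (hI : Inv C ρ r U g) {t : ℕ} (ht : t < 32) :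
    Inv C ρ r (Nat.lor U (Nat.shiftRight K (Nat.mul 192 t))) (Nat.land g (Nat.shiftRight U t)) := by
  obtain ⟨k1, k2, k3, k4⟩ := hK t ht
  have so : ∀ a, (sof (Nat.lor U (Nat.shiftRight K (Nat.mul 192 t)))).testBit a = true ↔
      (sof U).testBit a = true ∨ a = t := by
    intro a
    rw [tb_sof, tb_sof, tb_or, tb_sr, Nat.mul_eq, Bool.or_eq_true]
    constructor
    · rintro ⟨h, e | e⟩
      exacts [Or.inl ⟨h, e⟩, Or.inr ((k3 a h).1 e)]
    · rintro (e | rfl)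
      exacts [⟨e.1, Or.inl e.2⟩, ⟨ht, Or.inr ((k3 a ht).2 rfl)⟩]
  refine ⟨le_trans Nat.and_le_left hI.le, fun hg hin => ?_, fun q m hq => ?_,
    fun hq a ha => ?_, fun q m hq a ha => ?_⟩
  · obtain ⟨q, q1, q2⟩ := and_ne hg
    have g1 : g = 1 := by
      have := hI.le
      have : g ≠ 0 := fun z => by simp [z] at q1
      omega
    subst g1
    obtain rfl := Nat.testBit_one_eq_true_iff_self_eq_zero.1 q1
    rw [tb_sr, add_zero] at q2
    obtain ⟨a, ha, ke⟩ := hI.un _ ht q2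
    have hc := hI.cn (by omega) fun a ha => hin a ((so a).2 (Or.inl ha))
    have : im ρ (sof (Nat.lor U (Nat.shiftRight K (Nat.mul 192 t)))) =
        insert (ρ t) (im ρ (sof U)) := by
      ext x
      simp only [im, Set.mem_ofPred_eq, Set.mem_insert_iff, so]
      constructor
      · rintro ⟨b, hb | rfl, rfl⟩
        exacts [Or.inr ⟨b, hb, rfl⟩, Or.inl rfl]
      · rintro (rfl | ⟨b, hb, rfl⟩)
        exacts [⟨_, Or.inr rfl, rfl⟩, ⟨b, Or.inl hb, rfl⟩]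
    rw [this]
    rcases ke (hin a ((so a).2 (Or.inl ha))) (hin _ ((so t).2 (Or.inr rfl))) with k | k
    · rwa [Set.insert_eq_of_mem (show ρ t ∈ im ρ (sof U) from ⟨a, ha, k.symm⟩)]
    · exact hc.insert ⟨a, ha, rfl⟩ k.symm
  · rw [tb_or, Bool.or_eq_true, tb_sr, Nat.mul_eq] at hq
    rcases hq with hq | hq
    · obtain ⟨a, ha, ke⟩ := hI.un q m hq
      exact ⟨a, (so a).2 (Or.inl ha), ke⟩
    · exact ⟨_, (so t).2 (Or.inr rfl), k1 q m hq⟩
  · rw [tb_or, Bool.or_eq_false_iff, tb_sr, Nat.mul_eq] at hq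
    rcases (so a).1 ha with ha | rfl
    exacts [hI.lb hq.1 a ha, k2 hq.2]
  · rw [tb_or, Bool.or_eq_false_iff, tb_sr, Nat.mul_eq] at hq
    rcases (so a).1 ha with ha | rfl
    exacts [hI.ne q m hq.1 a ha, k4 q m hq.2]

def Lp (C : Ctx P X) (ρ : ℕ → X) (r K : ℕ) (f : ML) : Prop :=
  ∀ k U g c, Inv C ρ r U g → f K k U g c ≠ 0 →
    ∃ U' g' c', Inv C ρ r U' g' ∧ (g' ≠ 0 → g ≠ 0) ∧ k U' g' c' ≠ 0

theorem ml_ok (hK : C.Km ρ r K) : C.Lp ρ r K ml := by
  refine iter_ind (f := mlS) (x := ml0) (Q := C.Lp ρ r K)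
    (fun k U g c h e => ⟨U, g, c, h, id, e⟩) (fun f hf k U g c h e => ?_) 12
  rw [mlS_eq, cnd_eq] at e
  have z : Nat.land g (Nat.shiftRight U (tk c)) ≠ 0 → g ≠ 0 := fun m z => m (by simp [z])
  split_ifs at e
  · obtain ⟨U', g', c', a1, a2, a3⟩ := hf _ _ _ _ (h.step hK (tk_lt c)) e
    exact ⟨U', g', c', a1, fun m => z (a2 m), a3⟩
  · exact ⟨_, _, _, h.step hK (tk_lt c), z, e⟩

theorem mS_ok {k : ℕ → ℕ → ℕ → ℕ} (hK : C.Km ρ r K) (hg : g ≤ 1) (e : mS K k g c ≠ 0) :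
    ∃ U' g' c', Inv C ρ r U' g' ∧ (g' ≠ 0 → g ≠ 0) ∧ k U' g' c' ≠ 0 := by
  obtain ⟨k1, k2, k3, k4⟩ := hK _ (tk_lt c)
  have so : ∀ a, (sof (Nat.shiftRight K (Nat.mul 192 (tk c)))).testBit a = true → a = tk c := by
    intro a ha
    rw [tb_sof, tb_sr, Nat.mul_eq] at ha
    exact (k3 a ha.1).1 ha.2
  have h : Inv C ρ r (Nat.shiftRight K (Nat.mul 192 (tk c))) g := by
    refine ⟨hg, fun _ _ => Cn.of_root (ρ (tk c)) ?_, fun q m hq => ⟨tk c, ?_, ?_⟩,
      fun hq a ha => ?_, fun q m hq a ha => ?_⟩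
    · rintro _ ⟨a, ha, rfl⟩
      rw [so a ha]
      exact R.refl
    · rw [tb_sof, tb_sr, Nat.mul_eq]
      exact ⟨tk_lt c, (k3 _ (tk_lt c)).2 rfl⟩
    · exact k1 q m (by rwa [tb_sr, Nat.mul_eq] at hq)
    · rw [so a ha]
      exact k2 (by rwa [tb_sr, Nat.mul_eq] at hq)
    · rw [so a ha]
      exact k4 q m (by rwa [tb_sr, Nat.mul_eq] at hq)
  rw [mS_eq, cnd_eq] at e
  split_ifs at e
  exacts [ml_ok hK _ _ _ _ h e, ⟨_, _, _, h, id, e⟩]

structure Good (C : Ctx P X) (ρ : ℕ → X) (r A U : ℕ) : Prop where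
  ins : ∀ a, (sof U).testBit a = true → C.In r (ρ a)
  cn : Cn (C.KG r) (im ρ (sof U))
  un : ∀ q, q < 32 → U.testBit q = true → ∃ a, (sof U).testBit a = true ∧ C.Ke r (ρ a) (ρ q)
  dj : ∀ a b, b < 32 → (sof U).testBit a = true → A.testBit b = true → ρ a ≠ ρ b

theorem Inv.good {A : ℕ} (h : Inv C ρ r U g) (hg : g ≠ 0)
    (e : Nat.land U (Nat.lor (Nat.shiftLeft A 128) (one (Nat.add 48 r))) = 0) :
    Good C ρ r A U := by
  have i := h.lb (and0 e (by rw [tb_or, one, tb_one.2 Nat.add_eq.symm, Bool.or_true]))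
  exact ⟨i, h.cn hg i, h.un, fun a b m ha hb => h.ne b m (and0 e (by
    rw [tb_or, tb_sl, Nat.add_sub_cancel_left, hb]; simp)) a ha⟩

theorem Inv.good0 (h : Inv C ρ r U g) (hg : g ≠ 0) (e : Nat.land U (one (Nat.add 48 r)) = 0) :
    Good C ρ r 0 U := h.good hg (by simpa using e)

theorem Good.dis {A U' : ℕ} (h : Good C ρ r A U)
    (k : ∀ b, (sof U').testBit b = true → A.testBit b = true) (v : X) (h1 : v ∈ im ρ (sof U'))
    (h2 : v ∈ im ρ (sof U)) : False := by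
  obtain ⟨a, ha, rfl⟩ := h1
  obtain ⟨b, hb, e⟩ := h2
  exact h.dj b a (tb_sof.1 ha).1 hb (k a ha) e.symm

theorem Good.tch {A A' U' : ℕ} (h : Good C ρ r A U) (g : Good C ρ r A' U')
    (k : ∀ b, (sof U').testBit b = true → A.testBit b = true) (e : Nat.land U (sof U') ≠ 0) :
    Tch (C.KG r) (im ρ (sof U')) (im ρ (sof U)) := by
  obtain ⟨q, q1, q2⟩ := and_ne e
  have m := (tb_sof.1 q2).1
  obtain ⟨b, hb, ke⟩ := h.un q m q1
  exact ⟨_, ⟨q, q2, rfl⟩, _, ⟨b, hb, rfl⟩,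
    ((ke (h.ins b hb) (g.ins q q2)).resolve_left (h.dj b q m hb (k q q2))).symm⟩

theorem sl {x y : ℕ} (b : ℕ) (k : x.testBit b = true) : (Nat.lor x y).testBit b = true := by
  rw [tb_or, k, Bool.true_or]

theorem sr {x y : ℕ} (b : ℕ) (k : y.testBit b = true) : (Nat.lor x y).testBit b = true := by
  rw [tb_or, k, Bool.or_true]

theorem rK5_ok (hK : C.Km ρ r K) (e : rK5 K (one (Nat.add 48 r)) c ≠ 0) : False := by
  rw [rK5_eq] at e
  obtain ⟨U1, g1, c, i1, z1, e⟩ := mS_ok hK le_rfl e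
  obtain ⟨U2, g2, c, i2, z2, e⟩ := mS_ok hK i1.le e
  obtain ⟨U3, g3, c, i3, z3, e⟩ := mS_ok hK i2.le e
  obtain ⟨U4, g4, c, i4, z4, e⟩ := mS_ok hK i3.le e
  obtain ⟨U5, g5, c, i5, z5, e⟩ := mS_ok hK i4.le e
  obtain ⟨b, p⟩ := or0 (ok_ne e).1
  have p := nz1_0 p
  obtain ⟨b, b5⟩ := or0 b
  obtain ⟨b, b4⟩ := or0 b
  obtain ⟨b, b3⟩ := or0 b
  obtain ⟨b, b2⟩ := or0 b
  obtain ⟨p, p45⟩ := mul_ne p
  obtain ⟨p, p35⟩ := mul_ne p
  obtain ⟨p, p25⟩ := mul_ne p
  obtain ⟨p, p15⟩ := mul_ne p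
  obtain ⟨p, p34⟩ := mul_ne p
  obtain ⟨p, p24⟩ := mul_ne p
  obtain ⟨p, p14⟩ := mul_ne p
  obtain ⟨p, p23⟩ := mul_ne p
  obtain ⟨p, p13⟩ := mul_ne p
  obtain ⟨p, p12⟩ := mul_ne p
  have y5 := p
  have y4 := z5 y5
  have y3 := z4 y4
  have y2 := z3 y3
  have y1 := z2 y2
  have G1 := i1.good0 y1 b
  have G2 := i2.good y2 b2
  have G3 := i3.good y3 b3
  have G4 := i4.good y4 b4
  have G5 := i5.good y5 b5
  have d12 := G2.dis (U' := U1) fun _ k => k
  have d13 := G3.dis (U' := U1) fun _ k => sl _ k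
  have d23 := G3.dis (U' := U2) fun _ k => sr _ k
  have d14 := G4.dis (U' := U1) fun _ k => sl _ (sl _ k)
  have d24 := G4.dis (U' := U2) fun _ k => sl _ (sr _ k)
  have d34 := G4.dis (U' := U3) fun _ k => sr _ k
  have d15 := G5.dis (U' := U1) fun _ k => sl _ (sl _ (sl _ k))
  have d25 := G5.dis (U' := U2) fun _ k => sl _ (sl _ (sr _ k))
  have d35 := G5.dis (U' := U3) fun _ k => sl _ (sr _ k)
  have d45 := G5.dis (U' := U4) fun _ k => sr _ k
  have t12 := G2.tch G1 (fun _ k => k) p12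
  have t13 := G3.tch G1 (fun _ k => sl _ k) p13
  have t23 := G3.tch G2 (fun _ k => sr _ k) p23
  have t14 := G4.tch G1 (fun _ k => sl _ (sl _ k)) p14
  have t24 := G4.tch G2 (fun _ k => sl _ (sr _ k)) p24
  have t34 := G4.tch G3 (fun _ k => sr _ k) p34
  have t15 := G5.tch G1 (fun _ k => sl _ (sl _ (sl _ k))) p15
  have t25 := G5.tch G2 (fun _ k => sl _ (sl _ (sr _ k))) p25
  have t35 := G5.tch G3 (fun _ k => sl _ (sr _ k)) p35
  have t45 := G5.tch G4 (fun _ k => sr _ k) p45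
  refine (C.ht r).no_K5 ![im ρ (sof U1), im ρ (sof U2), im ρ (sof U3), im ρ (sof U4),
    im ρ (sof U5)] ?_ ?_ ?_
  · intro i
    fin_cases i
    exacts [G1.cn, G2.cn, G3.cn, G4.cn, G5.cn]
  · intro i j hij v
    fin_cases i <;> fin_cases j
    exacts [absurd rfl hij, d12 v, d13 v, d14 v, d15 v,
      fun a b => d12 v b a, absurd rfl hij, d23 v, d24 v, d25 v,
      fun a b => d13 v b a, fun a b => d23 v b a, absurd rfl hij, d34 v, d35 v,
      fun a b => d14 v b a, fun a b => d24 v b a, fun a b => d34 v b a, absurd rfl hij, d45 v,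
      fun a b => d15 v b a, fun a b => d25 v b a, fun a b => d35 v b a, fun a b => d45 v b a, absurd rfl hij]
  · intro i j hij
    fin_cases i <;> fin_cases j <;> first | assumption | exact absurd hij (by decide)

theorem rK33_ok (hK : C.Km ρ r K) (e : rK33 K (one (Nat.add 48 r)) c ≠ 0) : False := by
  rw [rK33_eq] at e
  obtain ⟨U1, g1, c, i1, z1, e⟩ := mS_ok hK le_rfl e
  obtain ⟨U2, g2, c, i2, z2, e⟩ := mS_ok hK i1.le e
  obtain ⟨U3, g3, c, i3, z3, e⟩ := mS_ok hK i2.le e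
  obtain ⟨U4, g4, c, i4, z4, e⟩ := mS_ok hK i3.le e
  obtain ⟨U5, g5, c, i5, z5, e⟩ := mS_ok hK i4.le e
  obtain ⟨U6, g6, c, i6, z6, e⟩ := mS_ok hK i5.le e
  obtain ⟨b, p⟩ := or0 (ok_ne e).1
  have p := nz1_0 p
  obtain ⟨b, b6⟩ := or0 b
  obtain ⟨b, b5⟩ := or0 b
  obtain ⟨b, b4⟩ := or0 b
  obtain ⟨b, b3⟩ := or0 b
  obtain ⟨b, b2⟩ := or0 b
  obtain ⟨p, p36⟩ := mul_ne p
  obtain ⟨p, p26⟩ := mul_ne p
  obtain ⟨p, p16⟩ := mul_ne p
  obtain ⟨p, p35⟩ := mul_ne p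
  obtain ⟨p, p25⟩ := mul_ne p
  obtain ⟨p, p15⟩ := mul_ne p
  obtain ⟨p, p34⟩ := mul_ne p
  obtain ⟨p, p24⟩ := mul_ne p
  obtain ⟨p, p14⟩ := mul_ne p
  have y6 := p
  have y5 := z6 y6
  have y4 := z5 y5
  have y3 := z4 y4
  have y2 := z3 y3
  have y1 := z2 y2
  have G1 := i1.good0 y1 b
  have G2 := i2.good y2 b2
  have G3 := i3.good y3 b3
  have G4 := i4.good y4 b4
  have G5 := i5.good y5 b5
  have G6 := i6.good y6 b6
  have d12 := G2.dis (U' := U1) fun _ k => k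
  have d13 := G3.dis (U' := U1) fun _ k => sl _ k
  have d23 := G3.dis (U' := U2) fun _ k => sr _ k
  have d14 := G4.dis (U' := U1) fun _ k => sl _ (sl _ k)
  have d24 := G4.dis (U' := U2) fun _ k => sl _ (sr _ k)
  have d34 := G4.dis (U' := U3) fun _ k => sr _ k
  have d15 := G5.dis (U' := U1) fun _ k => sl _ (sl _ (sl _ k))
  have d25 := G5.dis (U' := U2) fun _ k => sl _ (sl _ (sr _ k))
  have d35 := G5.dis (U' := U3) fun _ k => sl _ (sr _ k)
  have d45 := G5.dis (U' := U4) fun _ k => sr _ k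
  have d16 := G6.dis (U' := U1) fun _ k => sl _ (sl _ (sl _ (sl _ k)))
  have d26 := G6.dis (U' := U2) fun _ k => sl _ (sl _ (sl _ (sr _ k)))
  have d36 := G6.dis (U' := U3) fun _ k => sl _ (sl _ (sr _ k))
  have d46 := G6.dis (U' := U4) fun _ k => sl _ (sr _ k)
  have d56 := G6.dis (U' := U5) fun _ k => sr _ k
  have t14 := G4.tch G1 (fun _ k => sl _ (sl _ k)) p14
  have t24 := G4.tch G2 (fun _ k => sl _ (sr _ k)) p24
  have t34 := G4.tch G3 (fun _ k => sr _ k) p34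
  have t15 := G5.tch G1 (fun _ k => sl _ (sl _ (sl _ k))) p15
  have t25 := G5.tch G2 (fun _ k => sl _ (sl _ (sr _ k))) p25
  have t35 := G5.tch G3 (fun _ k => sl _ (sr _ k)) p35
  have t16 := G6.tch G1 (fun _ k => sl _ (sl _ (sl _ (sl _ k)))) p16
  have t26 := G6.tch G2 (fun _ k => sl _ (sl _ (sl _ (sr _ k)))) p26
  have t36 := G6.tch G3 (fun _ k => sl _ (sl _ (sr _ k))) p36
  refine (C.ht r).no_K33 ![im ρ (sof U1), im ρ (sof U2), im ρ (sof U3)]
    ![im ρ (sof U4), im ρ (sof U5), im ρ (sof U6)] ?_ ?_ ?_ ?_ ?_ ?_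
  · intro i
    fin_cases i
    exacts [G1.cn, G2.cn, G3.cn]
  · intro i
    fin_cases i
    exacts [G4.cn, G5.cn, G6.cn]
  · intro i j hij v
    fin_cases i <;> fin_cases j
    exacts [absurd rfl hij, d12 v, d13 v, fun a b => d12 v b a, absurd rfl hij, d23 v,
      fun a b => d13 v b a, fun a b => d23 v b a, absurd rfl hij]
  · intro i j hij v
    fin_cases i <;> fin_cases j
    exacts [absurd rfl hij, d45 v, d46 v, fun a b => d45 v b a, absurd rfl hij, d56 v,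
      fun a b => d46 v b a, fun a b => d56 v b a, absurd rfl hij]
  · intro i j v
    fin_cases i <;> fin_cases j
    exacts [d14 v, d15 v, d16 v, d24 v, d25 v, d26 v, d34 v, d35 v, d36 v]
  · intro i j
    fin_cases i <;> fin_cases j
    exacts [t14, t15, t16, t24, t25, t26, t34, t35, t36]

theorem rMI_ok (hH : C.Hub ρ) (h : C.St ρ M) (e : rMI P M c ≠ 0) : False := by
  rw [rMI_eq, cnd_eq] at e
  have hK := km_ok (r := Nat.land c 3) (Nat.lt_succ_of_le Nat.and_le_right) hH h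
  split_ifs at e
  exacts [rK5_ok hK e, rK33_ok hK e]

end Ctx

end Pool.Agent.Lib.MP_ad48ef_co
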