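import Pool.Agent.Lib.MP_ad48ef_co.Sound2
import Pool.Agent.Lib.MP_ad48ef_co.Minor

/-!
# Soundness of the checker
-/

namespace Pool.Agent.Lib.MP_ad48ef_co

open Pool.Agent.Shared Pool.Agent.Shared.Planar

variable {X : Type} {P : Par} {C : Ctx P X} {ρ : ℕ → X} {M c : ℕ} {ih : Pr}

namespace Ctx

theorem domH_ok {S : ℕ} (hi : C.Snd ih) (h : C.St ρ M) (hH : C.Hub ρ) {g : ℕ} (hg : g < 48)
    (hS : Msk S fun b => b < 48 ∧ ¬ C.G.Adj (ρ g) (ρ b)) (n : ℕ) :
    ∀ c, domH ih M S n c ≠ 0 → ¬ g < n := by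
  induction n with
  | zero => intro _ _; omega
  | succ n rc =>
    intro c e hn
    have e : dhS ih M S n (domH ih M S n) c ≠ 0 := e
    rw [dhS_eq] at e
    simp only [cnd_eq, beq_iff] at e
    split_ifs at e with h1
    · rw [dhT_eq] at e
      obtain ⟨k1, k2⟩ := cnd1 e
      by_cases m : g = n
      · subst m
        exact hi _ _ ρ hH (h.rc hg (Rw.ofF fun b hb => ⟨by have := (hS b hb).1; omega,
          (hS b hb).2⟩)) k1
      · exact rc _ k2 (by omega)
    · by_cases m : g = n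
      · subst m
        obtain ⟨q, q1, q2⟩ := and_ne h1
        rw [tb_and, tb_sr, tb_sr, Bool.and_eq_true, Nat.add_eq, Nat.mul_eq, add_assoc] at q1
        have l := (hS q q2).1
        exact ((h g q (by omega) q1.1).1 l).elim
          (by simpa using (h g _ (by omega) q1.2).2.2.2 (by omega)) (hS q q2).2
      · exact rc _ e (by omega)

theorem domR_c {S r : ℕ} (e : domR P ih M S r c ≠ 0) : c ≠ 0 := by
  rw [domR_eq] at e
  exact nz1_0 (or0 (ok_ne e).1).2

theorem domR_ok {S r : ℕ} {v : X} (hi : C.Snd ih) (hH : C.Hub ρ) (h : C.St ρ M) (hr : C.Reg r v)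
    (hv : ∀ g, g < P.m → v ≠ C.hub g) (hS : Msk S fun b => b < 48 ∧ ¬ C.G.Adj v (ρ b))
    (e : domR P ih M S r c ≠ 0) : False := by
  rw [domR_eq] at e
  have m14 := C.m14
  obtain ⟨-, e, -, k4, k5⟩ := fresh_ok hH h (tk_lt' c) v e
  refine hi _ _ _ k4 (k5 _ ((Rw.ofF fun b hb => ⟨by have := (hS b hb).1; omega, ?_⟩).or
      ((Rw.oneL (by have := C.lt3 _ _ hr; omega) hr).or (Rw.ofN fun b hb => ?_)))) e
  · by_cases m : b = tk c
    · rw [m, Function.update_self]; exact C.G.irrefl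
    · rw [Function.update_of_ne m]; exact (hS b hb).2
  · have b1 : b < P.m + 2 := tb_ones.1 hb
    refine ⟨by omega, ?_⟩
    rw [k4 b b1]
    rcases (by omega : b < P.m ∨ b = P.m ∨ b = P.m + 1) with m | rfl | rfl
    exacts [hv b m, (C.virt r v hr).1, (C.virt r v hr).2]

theorem domA_ok {S r : ℕ} {v : X} (hi : C.Snd ih) (hH : C.Hub ρ) (h : C.St ρ M) (hr : C.Reg r v)
    (hS : Msk S fun b => b < 48 ∧ ¬ C.G.Adj v (ρ b)) (e : domA P ih M S c ≠ 0) : False := by
  rw [domA_eq] at e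
  have e3 := domR_c e
  have e2 := domR_c e3
  have e1 := domR_c e2
  have m14 := C.m14
  by_cases m : ∃ g, g < P.m ∧ v = C.hub g
  · obtain ⟨g, g1, rfl⟩ := m
    exact domH_ok hi h hH (by omega) (hH g (by omega) ▸ hS) _ _ e1 g1
  · have hv : ∀ g, g < P.m → v ≠ C.hub g := fun g g1 g2 => m ⟨g, g1, g2⟩
    have := C.lt3 _ _ hr
    rcases (by omega : r = 0 ∨ r = 1 ∨ r = 2) with rfl | rfl | rfl
    exacts [domR_ok hi hH h hr hv hS e2, domR_ok hi hH h hr hv hS e3, domR_ok hi hH h hr hv hS e]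

theorem rdK_ok (n : ℕ) : ∀ c, ∃ l : List ℕ, l.length = n ∧
    ∀ b, (rdK n c).testBit b = true → b < 48 ∧ b ∈ l := by
  induction n with
  | zero => exact fun c => ⟨[], rfl, fun b e => by simp [rdK] at e⟩
  | succ n rc =>
    intro c
    obtain ⟨l, h1, h3⟩ := rc (Nat.shiftRight c 5)
    refine ⟨tk c :: l, by simp [h1], fun b hb => ?_⟩
    have hb : (Nat.lor (one (tk c)) (rdK n (Nat.shiftRight c 5))).testBit b = true := hb
    rw [tb_or, Bool.or_eq_true] at hb
    rcases hb with m | m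
    · obtain rfl := tb_one.1 m
      exact ⟨tk_lt' c, List.mem_cons_self⟩
    · exact ⟨(h3 b m).1, List.mem_cons_of_mem _ (h3 b m).2⟩

theorem rDS_ok (hi : C.Snd ih) (hH : C.Hub ρ) (h : C.St ρ M) (e : rDS P ih M c ≠ 0) : False := by
  rw [rDS_eq] at e
  obtain ⟨l, h1, h3⟩ := rdK_ok P.K c
  obtain ⟨v, r, hr, hv⟩ := C.dom (l.map ρ) (by simp [h1])
  exact domA_ok hi hH h hr (fun b hb => ⟨(h3 b hb).1, hv _ (List.mem_map_of_mem (h3 b hb).2)⟩) e

/-- All records of a statement hold. -/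
def AllF (C : Ctx P X) (ρ : ℕ → X) : ℕ → ℕ → Prop
  | 0, _ => True
  | n + 1, code => code ≠ 0 →
      C.Rw (ρ (tk code)) ρ (recd code (tk code)) ∧ AllF C ρ n (rest code (tk code))

def Valid (C : Ctx P X) (code : ℕ) : Prop :=
  ∀ ρ, C.Hub ρ → C.AllF ρ 32 (Nat.shiftRight code 16) → C.Dom (Nat.land code 65535) → False

variable {db : DB} {i : ℕ}

theorem rDB_ok (hv : ∀ j, j < i → C.Valid (get db j)) (hi : C.Snd ih) (hH : C.Hub ρ)
    (h : C.St ρ M) (e : rDB P db i ih M c ≠ 0) : False := by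
  rw [rDB_eq, rDB2_eq] at e
  obtain ⟨h1, e⟩ := ok_ne e
  obtain ⟨h1, h2⟩ := or0 h1
  have m14 := C.m14
  have := hv _ (Nat.sub_eq_zero_iff_le.1 h1) ρ hH (by rw [h2]; exact fun k => absurd rfl k)
  simp only [Dom, imp_false, not_forall, not_exists, not_and] at this
  obtain ⟨r, v, hr, k⟩ := this
  refine domA_ok hi hH h hr (fun b hb => ?_) e
  obtain ⟨b1, b2⟩ := tb_xs hb
  have b3 := tb_ones.1 b1
  refine ⟨by omega, ?_⟩
  rw [hH b (by omega)]
  exact k b b3 (by rw [tb_and, b2]; rfl)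

theorem recd_lt {code a q : ℕ} (ha : a < 32) (h : (recd code a).testBit q = true) : q < 192 := by
  simp only [recd, tb_or, tb_sl, tb_and, Bool.or_eq_true, Bool.and_eq_true, tb_ones,
    decide_eq_true_eq, show 7 = ones 3 from rfl] at h
  omega

theorem useL_ok {T : ℕ} (h : C.St ρ M) (n : ℕ) : ∀ code D bad,
    Mt D (fun a q => Fact C.G C.Reg (ρ a) (fun b => ρ (mu T b)) q) →
    (usS M T c)^[n] (usE c) code D bad ≠ 0 →
      bad = 0 ∧ C.AllF (fun b => ρ (mu T b)) n code := by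
  induction n with
  | zero => exact fun _ _ _ _ e => ⟨(ok_ne e).1, trivial⟩
  | succ n rc =>
    intro code D bad hD e
    rw [Function.iterate_succ_apply', usS_eq] at e
    simp only [cnd_eq, beq_iff] at e
    split_ifs at e with hc
    · exact ⟨(ok_ne e).1, fun k => absurd hc k⟩
    obtain ⟨h1, h2⟩ := rc _ _ _ (col_ok h hD (tk_lt' _) (tk_lt' _) rfl) e
    obtain ⟨h1, h3⟩ := or0 h1
    refine ⟨h1, fun _ => ⟨fun q hq => ?_, h2⟩⟩
    have l := recd_lt (tk_lt _) hq
    exact ⟨l, hD _ q l (by simpa only [tb_sr, Nat.mul_eq] using ns0 h3 hq)⟩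

theorem hm_tb (m14 : P.m ≤ 14) {p : ℕ} (h : P.hm'.testBit p = true) :
    p % 64 < P.m + 2 ∨ (48 ≤ p % 192 ∧ p % 192 < 64) := by
  have key : ∀ q, (Nat.lor (Nat.lor (ones P.H) (Nat.shiftLeft 65535 48))
      (Nat.lor (Nat.shiftLeft (ones P.H) 64) (Nat.shiftLeft (ones P.H) 128))).testBit q = true →
      q < 192 ∧ (q % 64 < P.m + 2 ∨ (48 ≤ q ∧ q < 64)) := by
    intro q e
    simp only [tb_or, tb_sl, Bool.or_eq_true, Bool.and_eq_true, tb_ones, decide_eq_true_eq,
      show 65535 = ones 16 from rfl, show P.H = P.m + 2 from rfl] at e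
    omega
  have := key _ (tb_G3 (Nat.lt_pow_two_of_testBit _ fun q hq => by
    by_contra k
    have := key q (Bool.eq_true_of_not_eq_false k)
    omega) h)
  omega

theorem mu_id (C : Ctx P X) (x : ℕ) {a : ℕ} (ha : a < P.m + 2) :
    mu (Nat.lor P.idm (Nat.shiftLeft x (Nat.mul 5 P.H))) a = a := by
  have m14 := C.m14
  refine Nat.eq_of_testBit_eq fun q => ?_
  rw [mu, tk, tb_and, tb_sr, tb_or, tb_sl, show 31 = 2 ^ 5 - 1 from rfl,
    Nat.testBit_two_pow_sub_one, C.tabs_ok.2.2.2.2.2.1, Nat.mul_eq, Nat.mul_eq]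
  by_cases m : q < 5
  · have := tb_tbl (s := 5) (f := id) (c := a) m P.H
    rw [decide_eq_true m, Bool.and_true, decide_eq_false (by
      show ¬ 5 * (P.m + 2) ≤ 5 * a + q; omega), Bool.false_and, Bool.or_false, Bool.eq_iff_iff]
    exact this.trans ⟨fun k => k.2, fun k => ⟨ha, k⟩⟩
  · rw [decide_eq_false m, Bool.and_false, Nat.testBit_lt_two_pow]
    exact lt_of_lt_of_le (by omega : a < 2 ^ 5) (Nat.pow_le_pow_right (by norm_num) (by omega))

theorem rUS_ok {Z : ℕ} (hv : ∀ j, j < i → C.Valid (get db j)) (hZ : C.Dom Z) (hH : C.Hub ρ)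
    (h : C.St ρ M) (e : rUS P db i Z M c ≠ 0) : False := by
  rw [rUS_eq, rUS2_eq] at e
  have hm := fun a => C.mu_id (Nat.land (Nat.shiftRight c 23)
    (ones (Nat.mul 5 (tk (Nat.shiftRight c 18))))) (a := a)
  refine (useL_ok h 32 _ _ _ (fun a q m k => ?_) e).elim fun h1 e => ?_
  swap
  · obtain ⟨h1, h2⟩ := or0 h1
    refine hv _ (Nat.sub_eq_zero_iff_le.1 h1) _ (fun a ha => ?_) e fun r v hr => ?_
    · show ρ (mu _ a) = _
      rw [hm a ha, hH a ha]
    · obtain ⟨g, g1, g2, g3⟩ := hZ r v hr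
      refine ⟨g, g1, ?_, g3⟩
      by_contra k
      rw [ns0 h2 (Bool.eq_true_of_not_eq_false k)] at g2
      cases g2
  · rw [tb_and, Bool.and_eq_true, C.tabs_ok.2.2.2.2.2.2] at k
    obtain ⟨k1, k2, k3, k4⟩ := h a q m k.1
    have := hm_tb C.m14 k.2
    have m14 := C.m14
    refine ⟨fun z => ?_, k2, fun z z' => ?_, fun z => ?_⟩
    · simpa only [hm q (by omega)] using k1 z
    · simpa only [hm (q - 64) (by omega)] using k3 z z'
    · simpa only [hm (q - 128) (by omega)] using k4 z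

theorem cnd_ne {p : Bool} {a b : ℕ} (h : cnd p a b ≠ 0) : a ≠ 0 ∨ b ≠ 0 := by
  cases p
  exacts [Or.inr h, Or.inl h]

theorem step_ok {Z : ℕ} (hv : ∀ j, j < i → C.Valid (get db j)) (hZ : C.Dom Z)
    (hi : C.Snd ih) : C.Snd (step P db i Z ih) := by
  intro M c ρ hH h e
  rw [step_eq] at e
  rcases cnd_ne e with e | e
  swap; · exact (cnd_ne e).elim (rSP_ok hi hH h) (rMI_ok hH h)
  rcases cnd_ne e with e | e
  swap; · exact (cnd_ne e).elim (rAD_ok hi hH h) (rDA_ok hi hH h)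
  rcases cnd_ne e with e | e
  swap; · exact (cnd_ne e).elim (rAT_ok hZ hH h) (rUS_ok hv hZ hH h)
  rcases cnd_ne e with e | e
  swap; · exact (cnd_ne e).elim (rSE_ok hH h) (rLK_ok hi hH h)
  rcases cnd_ne e with e | e
  swap; · exact (cnd_ne e).elim (rC1_ok h) (rDS_ok hi hH h)
  rcases cnd_ne e with e | e
  swap; · exact rFA_ok hH h e
  exact (cnd_ne e).elim (rDB_ok hv hi hH h) (rDR_ok hi hH h)

theorem t2_ind {α : Type} {f : α → α} {Q : α → Prop} (h : ∀ y, Q y → Q (f y)) :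
    ∀ y, Q y → Q (t1024 f y) := by
  have h32 : ∀ y, Q y → Q (t32 f y) := fun y k => iter_ind k h 32
  have h128 : ∀ y, Q y → Q (t128 f y) := fun y k => iter_ind k h32 4
  exact fun y k => iter_ind k h128 8

theorem ld_ok {k : ℕ → ℕ} (hH : C.Hub ρ) (n : ℕ) : ∀ code M, C.St ρ M → C.AllF ρ n code →
    (ldS P k)^[n] (fun _ M => k M) code M ≠ 0 → ∃ M', C.St ρ M' ∧ k M' ≠ 0 := by
  induction n with
  | zero => exact fun _ M h _ e => ⟨M, h, e⟩
  | succ n rc =>
    intro code M h hA e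
    rw [Function.iterate_succ_apply', ldS_eq] at e
    simp only [cnd_eq, beq_iff] at e
    split_ifs at e with hc
    · exact ⟨M, h, e⟩
    obtain ⟨h1, h2⟩ := hA hc
    refine rc _ _ (h.rc (tk_lt' _) ((h1.or (Rw.dg (tk_lt' _) rfl)).or ?_)) h2 e
    have key : ∀ r, r < 3 → C.Rw (ρ (tk code)) ρ
        (if (Nat.land (Nat.shiftRight code 5) 7).testBit r then P.fr r else 0) := by
      intro r hr
      split_ifs with m
      · refine rw_fr hH (h1.L (by omega) ?_)
        rw [recd, tb_or, tb_or, tb_sl, Nat.add_sub_cancel_left, m]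
        simp
      · exact Rw.zero
    intro q hq
    rw [C.tabs_ok.2.2.2.1, Par.fm', tb_rt] at hq
    exact (key 0 (by omega)).or ((key 1 (by omega)).or (key 2 (by omega))) q hq.2.2

theorem chkL_ok {p : ℕ} (hv : ∀ j, j < i → C.Valid (get db j))
    (e : chkC P db i p (get db i) ≠ 0) : C.Valid (get db i) := by
  intro ρ hH hA hZ
  obtain ⟨M, h, e⟩ := ld_ok hH 32 _ _ (C.x0 ρ hH) hA e
  exact t2_ind (Q := C.Snd) (fun _ => step_ok hv hZ) _ (fun _ _ _ _ _ e => e rfl) _ _ ρ hH h e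

theorem run_ok (ps : List ℕ) : ∀ i, (∀ j, j < i → C.Valid (get db j)) →
    run P db ps i = true → ∀ j, j < i + ps.length → C.Valid (get db j) := by
  induction ps with
  | nil => exact fun i h _ => h
  | cons p ps rc =>
    intro i h e j hj
    have e : Bool.rec (motive := fun _ => Bool) false (force (Nat.succ i) (run P db ps))
      (Nat.ble 1 (chkC P db i p (get db i))) = true := e
    rw [force_eq] at e
    cases m : Nat.ble 1 (chkC P db i p (get db i)) <;> rw [m] at e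
    · cases e
    refine rc (i + 1) (fun j hj => ?_) e j (by simp at hj; omega)
    rcases Nat.lt_succ_iff_lt_or_eq.1 hj with k | rfl
    exacts [h j k, chkL_ok (p := p) h (by have := ble_iff.1 m; omega)]

end Ctx

/-- All statements of the data base below `n` are valid. -/
def Upto (P : Par) (db : DB) (n : ℕ) : Prop :=
  ∀ (X : Type) (C : Ctx P X) (j : ℕ), j < n → C.Valid (get db j)

theorem Upto.zero (P : Par) (db : DB) : Upto P db 0 := fun _ _ _ h => absurd h (by omega)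

theorem Upto.run {P : Par} {db : DB} {i n : ℕ} {ps : List ℕ} (h : Upto P db i)
    (e : (run P db ps i && Nat.beq (i + ps.length) n) = true) : Upto P db n := by
  rw [Bool.and_eq_true, beq_iff] at e
  exact fun X C j hj => Ctx.run_ok ps i (h X C) e.1 j (e.2 ▸ hj)

/-- No context has the hubs outside `Z` dominating. -/
def Ref (P : Par) (Z : ℕ) : Prop := ∀ (X : Type) (C : Ctx P X), ¬ C.Dom Z

theorem Upto.ref {P : Par} {db : DB} {n Z : ℕ} (h : Upto P db (n + 1))
    (e : (Nat.beq (get db n) Z && Nat.ble Z 65535) = true) : Ref P Z := by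
  rw [Bool.and_eq_true, beq_iff, ble_iff] at e
  intro X C hZ
  have := h X C n (by omega) C.hub (fun _ _ => rfl)
  rw [e.1] at this
  refine this (fun k => absurd ?_ k) ?_
  · show Z >>> 16 = 0
    rw [Nat.shiftRight_eq_div_pow]
    omega
  · rwa [show Nat.land Z 65535 = Z from
      (Nat.and_two_pow_sub_one_eq_mod Z 16).trans (Nat.mod_eq_of_lt (by omega))]

end Pool.Agent.Lib.MP_ad48ef_co
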