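import Pool.Agent.Lib.MP_ad48ef_co.Bfs
import Pool.Agent.Lib.MP_ad48ef_co.Sound3

/-!
# Case analysis on the shape of the tripod
-/

set_option synthInstance.maxSize 4000

namespace Pool.Agent.Lib.MP_ad48ef_co

open Pool.Agent.Shared Pool.Agent.Shared.Planar

variable {V : Type} {G : SimpleGraph V}

/-- A test on all set bits of a number. -/
def ab (p : ℕ → Bool) : ℕ → ℕ → Bool
  | 0, x => Nat.beq x 0
  | n + 1, x => Nat.beq x 0 || (p x.log2 && ab p n (Nat.xor x (Nat.shiftLeft 1 x.log2)))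

theorem ab_ok {p : ℕ → Bool} (n : ℕ) : ∀ x, ab p n x = true → ∀ q, x.testBit q = true →
    p q = true := by
  induction n with
  | zero => intro x e q k; rw [ab, Nat.beq_eq] at e; simp [e] at k
  | succ n ih =>
    intro x e q k
    simp only [ab, Bool.or_eq_true, Bool.and_eq_true, Nat.beq_eq] at e
    rcases e with rfl | ⟨e1, e2⟩
    · simp at k
    by_cases m : q = x.log2
    · exact m ▸ e1
    · refine ih _ e2 q ?_
      rw [tb_xor, k, Bool.eq_false_iff.2 fun c => m (tb_one.1 c)]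
      rfl

variable {K : ℕ} {E : Env G K} {S : St} {h : ℕ → V}

section

variable (Q : List (List ℕ))

def qv (i k : ℕ) : ℕ := (Q.getD i []).getD k 0
def ql (i : ℕ) : ℕ := (Q.getD i []).length - 1
def onP (i j : ℕ) : Prop := ∃ k ≤ ql Q i, qv Q i k = j
def inR (r j : ℕ) : Prop := onP Q r j ∨ onP Q ((r + 1) % 3) j
def onr (j : ℕ) : Prop := ∃ i < 3, onP Q i j
def enR (r j : ℕ) : Prop := j = qv Q r (ql Q r) ∨ j = qv Q ((r + 1) % 3) (ql Q ((r + 1) % 3))

instance {i j} : Decidable (onP Q i j) := by unfold onP; infer_instance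
instance {i j} : Decidable (inR Q i j) := by unfold inR; infer_instance
instance {j} : Decidable (onr Q j) := by unfold onr; infer_instance
instance {i j} : Decidable (enR Q i j) := by unfold enR; infer_instance

def Th (S : St) : Prop := S.us.length = 3 ∧ ∀ i < 3, qv Q i (ql Q i) ∈ S.us ∧ qv Q i 0 = qv Q 0 0 ∧
  ∀ k ≤ ql Q i, qv Q i k < S.m ∧ (k < ql Q i → S.e (qv Q i k) (qv Q i (k + 1)) = true) ∧
    (∀ l ≤ ql Q i, k + 1 < l → S.f (qv Q i k) (qv Q i l) = true) ∧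
    ∀ j < 3, ∀ l ≤ ql Q j, qv Q i k = qv Q j l → (i = j ∧ k = l) ∨ (k = 0 ∧ l = 0)

instance {S} : Decidable (Th Q S) := by unfold Th; infer_instance

/-- Regions, described through hub indices. -/
structure RG (G : SimpleGraph V) (m : ℕ) (h : ℕ → V) where
  Reg : ℕ → V → Prop
  cover : ∀ v, ∃ r, r < 3 ∧ Reg r v
  on : ∀ r j, r < 3 → onr Q j → (Reg r (h j) ↔ inR Q r j)
  closed : ∀ r a b, Reg r a → (∀ j, j < m → onr Q j → a ≠ h j) → G.Adj a b → Reg r b
  uniq : ∀ r s a, r < 3 → s < 3 → Reg r a → Reg s a → (∀ j, j < m → onr Q j → a ≠ h j) → r = s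
  ht : ∀ r, r < 3 → HT (wh G (Reg r) (fun a => ∃ j, inR Q r j ∧ a = h j) (h (qv Q r (ql Q r)))
    (h (qv Q ((r + 1) % 3) (ql Q ((r + 1) % 3)))))

end

variable {Q : List (List ℕ)}

theorem Sat.rg (H : Sat E.B E.u S h) (c : Th Q S) : Nonempty (RG Q G S.m h) := by
  obtain ⟨c0, c⟩ := c
  have lt : ∀ (i : Fin 3) k, k ≤ ql Q i → qv Q i k < S.m := fun i k m => ((c i i.2).2.2 k m).1
  obtain ⟨R⟩ := regions (G := G) (fun i k => h (qv Q i k)) (fun i => ql Q i) (E.ht.mono (by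
      have : ∀ i : Fin 3, h (qv Q i (ql Q i)) ∈ ({E.u 0, E.u 1, E.u 2} : Set V) := by
        intro i
        obtain ⟨k, k1, k2⟩ := List.getElem_of_mem (c i i.2).1
        have := (H.us k k1).2
        rw [List.getD_eq_getElem _ _ k1, k2] at this
        rw [this]
        rcases (by omega : k = 0 ∨ k = 1 ∨ k = 2) with rfl | rfl | rfl <;> simp
      have : ∀ a ∈ ({h (qv Q (0 : Fin 3) (ql Q (0 : Fin 3))), h (qv Q (1 : Fin 3) (ql Q (1 : Fin 3))),
          h (qv Q (2 : Fin 3) (ql Q (2 : Fin 3)))} : Set V), a ∈ ({E.u 0, E.u 1, E.u 2} : Set V) := by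
        rintro a (rfl | rfl | rfl) <;> exact this _
      rintro (_ | a) (_ | b) e
      exacts [e, this _ e, this _ e, e]))
    (fun i j => by rw [(c i i.2).2.1, (c j j.2).2.1])
    (fun i k m => H.e (lt i k m.le) (lt i _ m) (((c i i.2).2.2 k m.le).2.1 m))
    (fun i j k l a b e => by
      have := ((c i i.2).2.2 k a).2.2.2 j j.2 l b (H.inj _ _ (lt i k a) (lt j l b) e)
      omega)
    (fun i k l a b => H.f (lt i k (by omega)) (lt i l b)
      (((c i i.2).2.2 k (by omega)).2.2.1 l b a))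
  have off : ∀ a, (∀ j, j < S.m → onr Q j → a ≠ h j) →
      ∀ (i : Fin 3) k, k ≤ ql Q i → a ≠ h (qv Q i k) :=
    fun a m i k l => m _ (lt i k l) ⟨i, i.2, k, l, rfl⟩
  have top : ∀ i < 3, onP Q i (qv Q 0 0) := fun i m => ⟨0, Nat.zero_le _, (c i m).2.1⟩
  refine ⟨⟨fun r => R.Reg (Fin.ofNat 3 r), fun v => ?_, fun r j hr ⟨i, i1, k, k1, e⟩ => ?_,
    fun r a b h1 h2 => R.closed _ a b h1 (off a h2), fun r s a h1 h2 h3 h4 h5 => ?_,
    fun r hr => ?_⟩⟩
  · obtain ⟨r, e⟩ := R.cover v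
    exact ⟨r, r.2, by rwa [Fin.ofNat_val_eq_self]⟩
  · subst e
    refine (R.on _ ⟨i, i1⟩ k k1).trans ⟨?_, ?_⟩
    · rintro (m | m | rfl)
      · obtain rfl : i = r := by have := congrArg Fin.val m; simp at this; omega
        exact Or.inl ⟨k, k1, rfl⟩
      · obtain rfl : i = (r + 1) % 3 := by
          have := congrArg Fin.val m; simp [Fin.val_add] at this; omega
        exact Or.inr ⟨k, k1, rfl⟩
      · rw [(c i i1).2.1]; exact Or.inl (top r hr)
    · rintro (⟨l, l1, e⟩ | ⟨l, l1, e⟩)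
      · rcases ((c i i1).2.2 k k1).2.2.2 r hr l l1 e.symm with m | m
        · exact Or.inl (Fin.ext (by simp; omega))
        · exact Or.inr (Or.inr m.1)
      · rcases ((c i i1).2.2 k k1).2.2.2 _ (by omega) l l1 e.symm with m | m
        · exact Or.inr (Or.inl (Fin.ext (by simp [Fin.val_add]; omega)))
        · exact Or.inr (Or.inr m.1)
  · have := congrArg Fin.val (R.uniq _ _ a h3 h4 (off a h5))
    simp at this; omega
  · have e1 : ((Fin.ofNat 3 r : Fin 3) : ℕ) = r := Nat.mod_eq_of_lt hr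
    have e2 : ((Fin.ofNat 3 r + 1 : Fin 3) : ℕ) = (r + 1) % 3 := by simp [Fin.val_add]
    have := R.ht (Fin.ofNat 3 r)
    simp only [e1, e2] at this
    refine this.mono ?_
    have key : ∀ x : Option V, (∀ a, x = some a → ∃ j, inR Q r j ∧ a = h j) → ∀ a, x = some a →
        ∃ (i : Fin 3), ∃ k, (i = Fin.ofNat 3 r ∨ i = Fin.ofNat 3 r + 1) ∧ k ≤ ql Q i ∧
          a = h (qv Q i k) := by
      intro x m a e
      obtain ⟨j, ⟨k, k1, rfl⟩ | ⟨k, k1, rfl⟩, rfl⟩ := m a e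
      · exact ⟨_, k, Or.inl rfl, by rwa [e1], by rw [e1]⟩
      · exact ⟨_, k, Or.inr rfl, by rwa [e2], by rw [e2]⟩
    rintro (_ | a) (_ | b) e
    exacts [e, key _ e, key _ e, e]

/-- Known regions of hubs. -/
def TS (R : RG Q G S.m h) (T : List (ℕ × ℕ)) : Prop := ∀ p ∈ T, p.2 < 3 ∧ R.Reg p.2 (h p.1)

def k1 (Q : List (List ℕ)) (m : ℕ) (σ : ℕ → ℕ) (r a q : ℕ) : Prop :=
  (a = m ∧ q = m + 1) ∨ (a = m ∧ q < m ∧ enR Q r (σ q)) ∨ (a = m + 1 ∧ q < m ∧ inR Q r (σ q))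

def dj (Q : List (List ℕ)) (P : Par) (σ : ℕ → ℕ) (a b : ℕ) : Prop :=
  ¬ onr Q (σ a) ∧ ∃ r < 3, (row P.Y r).testBit a = true ∧ (row P.Y r).testBit b = false

def okX (S : St) (Q : List (List ℕ)) (P : Par) (σ : ℕ → ℕ) (a q : ℕ) : Prop :=
  if q < 48 then a = q ∨ (a < P.m ∧ q < P.m ∧ S.e (σ a) (σ q) = true)
  else if q < 64 then a < P.m ∧ q - 48 < 3 ∧ (row P.Y (q - 48)).testBit a = true
  else if q < 128 then a < P.m ∧ q - 64 < P.m ∧ (S.f (σ a) (σ (q - 64)) = true ∨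
    S.fa (σ a) (σ (q - 64)) = true ∨ dj Q P σ a (q - 64) ∨ dj Q P σ (q - 64) a)
  else a < P.m + 2 ∧ q - 128 < P.m + 2 ∧ a ≠ q - 128

def okV (Q : List (List ℕ)) (P : Par) (σ π : ℕ → ℕ) (r a q : ℕ) : Prop :=
  a < P.m + 2 ∧ (q < 48 → k1 Q P.m σ (π r) a q ∨ k1 Q P.m σ (π r) q a) ∧ (48 ≤ q → P.m ≤ a)

instance {Q m σ r a q} : Decidable (k1 Q m σ r a q) := by unfold k1; infer_instance
instance {Q P σ a b} : Decidable (dj Q P σ a b) := by unfold dj; infer_instance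
instance {S Q P σ a q} : Decidable (okX S Q P σ a q) := by unfold okX; infer_instance
instance {Q P σ π r a q} : Decidable (okV Q P σ π r a q) := by unfold okV; infer_instance

structure Leaf (K : ℕ) (S : St) (Q : List (List ℕ)) (T : List (ℕ × ℕ)) (P : Par) (Z : ℕ)
    (σ π : ℕ → ℕ) : Prop where
  a : P.m = S.m ∧ P.m ≤ 14 ∧ P.K ≤ K ∧ S.us.length = 3
  s : (∀ a < P.m, σ a < P.m ∧ ∀ b < P.m, σ a = σ b → a = b) ∧ ∀ j < P.m, ∃ a < P.m, σ a = j
  p : (∀ a < 3, π a < 3 ∧ ∀ b < 3, π a = π b → a = b) ∧ ∀ j < 3, ∃ a < 3, π a = j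
  rim : ab (fun a => decide (a < P.m)) 14 P.rim = true ∧
    ∀ a < P.m, P.rim.testBit a = true ↔ onr Q (σ a)
  Y : ∀ r < 3, ab (fun a => decide (a < P.m)) 14 (row P.Y r) = true ∧ ∀ a < P.m,
    (row P.Y r).testBit a = true ↔ if onr Q (σ a) then inR Q (π r) (σ a) else (σ a, π r) ∈ T
  kn : ∀ j < P.m, onr Q j ∨ ∃ r < 3, (j, r) ∈ T
  X : ab (fun p => decide (okX S Q P σ (p / 192) (p % 192))) 999 P.X0 = true
  W : ab (fun p => decide (okV Q P σ π (p / 1024) (p / 64 % 16) (p % 64))) 999 P.VV = true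
  far : ab (fun p => decide (p / 64 < P.m ∧ p % 64 < P.m ∧
    S.fa (σ (p / 64)) (σ (p % 64)) = true)) 999 P.far = true
  sea : P.sn ≠ 0 → S.cl = true ∧ P.sc < P.m ∧ σ P.sc = 0 ∧
    ∀ a < P.m, 1 < S.dp (σ a) ∨ P.sn.testBit a = true
  dom : ∀ k < 3, ∀ n < 4, (∃ a < P.m, Z.testBit a = false ∧ σ a = S.anc k n) ∧
    ∃ a < P.m, Z.testBit a = false ∧ S.e (S.anc k n) (σ a) = true

instance {K S Q T P Z σ π} : Decidable (Leaf K S Q T P Z σ π) :=
  decidable_of_iff (_ ∧ _ ∧ _ ∧ _ ∧ _ ∧ _ ∧ _ ∧ _ ∧ _ ∧ _ ∧ _)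
    ⟨fun ⟨a, b, c, d, e, f, g, h, i, j, k⟩ => ⟨a, b, c, d, e, f, g, h, i, j, k⟩,
      fun ⟨a, b, c, d, e, f, g, h, i, j, k⟩ => ⟨a, b, c, d, e, f, g, h, i, j, k⟩⟩

theorem Sat.leaf (H : Sat E.B E.u S h) (R : RG Q G S.m h) {T : List (ℕ × ℕ)} (hT : TS R T)
    {P : Par} {Z : ℕ} {σ π : ℕ → ℕ} (c : Leaf K S Q T P Z σ π) (hP : Ref P Z)
    (tab : (tabs P && tabOK P) = true) : False := by
  obtain ⟨a1, a2, a3, a4⟩ := c.a
  let G' := apex (apex G ∅) ∅
  let hub : ℕ → Option (Option V) := fun a =>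
    if a < P.m then some (some (h (σ a))) else if a = P.m then some none else none
  let Reg : ℕ → Option (Option V) → Prop := fun r x =>
    r < 3 ∧ ∃ v, x = some (some v) ∧ R.Reg (π r) v
  have h1 : ∀ a, a < P.m → hub a = some (some (h (σ a))) := fun a m => if_pos m
  have h2 : hub P.m = some none := by simp [hub]
  have h3 : hub (P.m + 1) = none := by simp [hub]
  have sl : ∀ a, a < P.m → σ a < S.m := fun a m => a1 ▸ (c.s.1 a m).1
  have ga : ∀ x y, G'.Adj x y → ∃ a b, x = some (some a) ∧ y = some (some b) ∧ G.Adj a b := by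
    rintro (_ | _ | a) (_ | _ | b) e
    all_goals first | exact e.elim | exact ⟨a, b, rfl, rfl, e⟩
  have wk : ∀ a b, Wk G a b → Wk G' (some (some a)) (some (some b)) := fun a b e =>
    e.imp (fun k => by rw [k]) id
  have wk' : ∀ a y, Wk G' (some (some a)) y → ∃ b, y = some (some b) ∧ Wk G a b := by
    rintro a y (rfl | e)
    · exact ⟨a, rfl, Or.inl rfl⟩
    · obtain ⟨p, q, e1, rfl, e3⟩ := ga _ _ e
      cases e1
      exact ⟨q, rfl, Or.inr e3⟩
  have cov : ∀ v, ∃ r, Reg r (some (some v)) := fun v => by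
    obtain ⟨r, r1, r2⟩ := R.cover v
    obtain ⟨s, s1, rfl⟩ := c.p.2 r r1
    exact ⟨s, s1, v, rfl, r2⟩
  have hinj : ∀ a b, a < P.m + 2 → b < P.m + 2 → hub a = hub b → a = b := by
    intro a b ha hb e
    simp only [hub] at e
    split_ifs at e with k l
    · exact (c.s.1 a k).2 b l (H.inj _ _ (sl a k) (sl b l) (by simpa using e))
    all_goals first | omega | cases e
  have off : ∀ v, (∀ g, P.rim.testBit g = true → some (some v) ≠ hub g) →
      ∀ j, j < S.m → onr Q j → v ≠ h j := by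
    rintro v m j j1 j2 rfl
    obtain ⟨a, b, rfl⟩ := c.s.2 j (a1 ▸ j1)
    exact m a ((c.rim.2 a b).2 j2) (h1 a b).symm
  have tl : ∀ a, a < P.m → ¬ onr Q (σ a) → ∀ j, j < S.m → onr Q j → h (σ a) ≠ h j :=
    fun a m k j j1 j2 e => k (H.inj _ _ (sl a m) j1 e ▸ j2)
  have hY : ∀ r a, r < 3 → a < P.m → ((row P.Y r).testBit a = true ↔ R.Reg (π r) (h (σ a))) := by
    intro r a hr ha
    rw [(c.Y r hr).2 a ha]
    split_ifs with m
    · exact (R.on _ _ (c.p.1 r hr).1 m).symm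
    refine ⟨fun k => (hT _ k).2, fun k => ?_⟩
    obtain ⟨s, s1, s2⟩ := (c.kn _ (c.s.1 a ha).1).resolve_left m
    rwa [R.uniq _ _ _ (c.p.1 r hr).1 s1 k (hT _ s2).2 (tl a ha m)]
  have hdj : ∀ a b, a < P.m → b < P.m → dj Q P σ a b → ¬ G.Adj (h (σ a)) (h (σ b)) := by
    rintro a b ha hb ⟨d1, r, hr, d2, d3⟩ e
    rw [(hY r b hr hb).2 (R.closed _ _ _ ((hY r a hr ha).1 d2) (tl a ha d1) e)] at d3
    cases d3
  refine hP _ ⟨G', hub, Reg, fun r => if r < 3 then wh G (R.Reg (π r))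
    (fun a => ∃ j, inR Q (π r) j ∧ a = h j) (h (qv Q (π r) (ql Q (π r))))
    (h (qv Q ((π r + 1) % 3) (ql Q ((π r + 1) % 3)))) else G', a2, fun ρ hρ a q hq e => ?_,
    fun a b ha hb => hinj a b (by omega) (by omega), fun r => ?_, ?_, fun r hr a q ha e => ?_,
    fun r v k => k.1, fun g e => of_decide_eq_true (ab_ok _ _ c.rim.1 g e), ?_, ?_,
    fun r g hg k => ?_, fun r g hr e => ?_, ?_, fun g hg => h1 g hg ▸ cov _, fun x y e => ?_, ?_,
    fun g f e => ?_, fun k => ?_, fun l hl => ?_, tab⟩ ?_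
  · have := of_decide_eq_true (ab_ok _ _ c.X _ e)
    rw [show (192 * a + q) / 192 = a by omega, show (192 * a + q) % 192 = q by omega, okX] at this
    split_ifs at this with m1 m2 m3
    · refine ⟨fun _ => ?_, fun _ => by omega, fun _ => by omega, fun _ => by omega⟩
      rcases this with rfl | ⟨k1, k2, k3⟩
      · exact Or.inl rfl
      · rw [hρ a (by omega), hρ q (by omega), h1 a k1, h1 q k2]
        exact Or.inr (H.e (sl a k1) (sl q k2) k3)
    · refine ⟨fun _ => by omega, fun _ _ => ?_, fun _ => by omega, fun _ => by omega⟩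
      rw [hρ a (by omega), h1 a this.1]
      exact ⟨this.2.1, _, rfl, (hY _ a this.2.1 this.1).1 this.2.2⟩
    · refine ⟨fun _ => by omega, fun _ _ => by omega, fun _ _ => ?_, fun _ => by omega⟩
      obtain ⟨k1, k2, k3⟩ := this
      rw [hρ a (by omega), hρ _ (by omega), h1 a k1, h1 _ k2]
      intro (e : G.Adj _ _)
      rcases k3 with k | k | k | k
      exacts [H.f (sl _ k1) (sl _ k2) k e,
        H.fa (sl _ k1) (sl _ k2) k _ (Or.inl rfl) (Or.inr e.symm), hdj _ _ k1 k2 k e,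
        hdj _ _ k2 k1 k e.symm]
    · refine ⟨fun _ => by omega, fun _ _ => by omega, fun _ _ => by omega, fun _ => ?_⟩
      rw [hρ a this.1, hρ _ this.2.1]
      exact fun e => this.2.2 (hinj _ _ this.1 this.2.1 e)
  · show HT (ite _ _ _)
    split_ifs with m
    · exact R.ht _ (c.p.1 r m).1
    · refine E.ht.of_apex.comap_on (fun x => (x.getD none).getD (h 0)) {x | ∃ a, x = some (some a)}
        ?_ fun x y e => ?_
      · rintro _ ⟨a, rfl⟩ _ ⟨b, rfl⟩ (rfl : a = b); rfl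
      · obtain ⟨a, b, rfl, rfl, e⟩ := ga x y e
        exact ⟨⟨a, rfl⟩, e⟩
  · rintro r _ _ ⟨hr, a, rfl, k⟩ ⟨-, b, rfl, l⟩ e
    show (ite _ _ _ : SimpleGraph _).Adj _ _
    rw [if_pos hr]
    exact ⟨k, l, e⟩
  · obtain ⟨q1, e⟩ := tb_row.1 e
    have := of_decide_eq_true (ab_ok _ _ c.W _ e)
    rw [show (64 * (16 * r + a) + q) / 1024 = r by omega,
      show (64 * (16 * r + a) + q) / 64 % 16 = a by omega,
      show (64 * (16 * r + a) + q) % 64 = q by omega] at this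
    refine ⟨this.1, fun m => ?_, fun m y e => ?_⟩
    · show _ ∧ (ite _ _ _ : SimpleGraph _).Adj _ _
      rw [if_pos hr]
      have key : ∀ a q, k1 Q P.m σ (π r) a q → a < P.m + 2 ∧ q < P.m + 2 ∧
          (wh G (R.Reg (π r)) (fun a => ∃ j, inR Q (π r) j ∧ a = h j)
            (h (qv Q (π r) (ql Q (π r))))
            (h (qv Q ((π r + 1) % 3) (ql Q ((π r + 1) % 3))))).Adj (hub a) (hub q) := by
        rintro a q (⟨rfl, rfl⟩ | ⟨rfl, k, l⟩ | ⟨rfl, k, l⟩)
        · rw [h2, h3]; exact ⟨by omega, by omega, fun _ e => by cases e⟩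
        · rw [h2, h1 q k]; exact ⟨by omega, by omega, l.imp (congrArg h) (congrArg h)⟩
        · rw [h3, h1 q k]; exact ⟨by omega, by omega, fun _ e => ⟨_, l, by cases e; rfl⟩⟩
      exact (this.2.1 m).elim (fun k => (key _ _ k).2) fun k => ⟨(key _ _ k).1, (key _ _ k).2.2.symm⟩
    · obtain ⟨p, -, e, -⟩ := ga _ _ e
      have := this.2.2 m
      simp only [hub, if_neg (by omega : ¬ a < P.m)] at e
      split_ifs at e
      cases e
  · rintro r _ y ⟨hr, a, rfl, k⟩ m e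
    obtain ⟨p, b, e1, rfl, e⟩ := ga _ _ e
    cases e1
    exact ⟨hr, b, rfl, R.closed _ _ _ k (off _ m) e⟩
  · rintro r s _ ⟨hr, a, rfl, k⟩ ⟨hs, b, e, l⟩ m
    cases e
    exact (c.p.1 r hr).2 s hs (R.uniq _ _ _ (c.p.1 r hr).1 (c.p.1 s hs).1 k l (off _ m))
  · obtain ⟨hr, v, e, k⟩ := k
    rcases (by omega : g < P.m ∨ g = P.m ∨ g = P.m + 1) with m | rfl | rfl
    · rw [h1 g m] at e
      cases e
      exact (hY r g hr m).2 k
    · rw [h2] at e; cases e
    · rw [h3] at e; cases e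
  · have m : g < P.m := of_decide_eq_true (ab_ok _ _ (c.Y r hr).1 g e)
    exact ⟨m, hr, _, h1 g m, (hY r g hr m).1 e⟩
  · rintro r _ ⟨-, v, rfl, -⟩
    show _ ≠ hub _ ∧ _ ≠ hub _
    rw [h2, h3]
    exact ⟨by simp, by simp⟩
  · obtain ⟨a, b, -, rfl, -⟩ := ga x y e
    exact cov b
  · rintro _ _ r s ⟨-, a, rfl, -⟩ ⟨-, b, rfl, -⟩
    obtain ⟨x, y, k1, k2, k3⟩ := E.d3 a b
    exact ⟨_, _, wk _ _ k1, wk _ _ k2, wk _ _ k3⟩
  · obtain ⟨q1, e⟩ := tb_row.1 e
    have := of_decide_eq_true (ab_ok _ _ c.far _ e)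
    rw [show (64 * g + f) / 64 = g by omega, show (64 * g + f) % 64 = f by omega] at this
    refine ⟨this.1, this.2.1, fun y k l => ?_⟩
    rw [h1 _ this.1] at k
    rw [h1 _ this.2.1] at l
    obtain ⟨b, rfl, k'⟩ := wk' _ _ k
    obtain ⟨_, e, l'⟩ := wk' _ _ l
    cases e
    exact H.fa (sl _ this.1) (sl _ this.2.1) this.2.2 _ k' l'
  · obtain ⟨s1, s2, s3, s4⟩ := c.sea k
    refine ⟨s2, fun y e => ?_⟩
    rw [h1 _ s2, s3] at e
    obtain ⟨b, rfl, e'⟩ := wk' _ _ e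
    obtain ⟨j, j1, j2, rfl⟩ := H.nbr s1 e'
    obtain ⟨a, b, rfl⟩ := c.s.2 j (a1 ▸ j1)
    exact ⟨a, b, (s4 a b).resolve_left (by omega), (h1 a b).symm⟩
  · obtain ⟨v, hv⟩ := E.nd (l.map fun x => (x.getD none).getD (h 0)) (by simpa using hl.trans a3)
    obtain ⟨r, hr⟩ := cov v
    refine ⟨_, r, hr, fun y hy e => ?_⟩
    obtain ⟨p, b, e1, rfl, e⟩ := ga _ _ e
    cases e1
    exact hv _ (List.mem_map_of_mem hy) e
  · rintro r _ ⟨-, v, rfl, -⟩
    obtain ⟨k, k1, n, n1, a, rfl | e⟩ := H.dom a4 v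
    · obtain ⟨g, g1, g2, g3⟩ := (c.dom k k1 n n1).2
      refine ⟨g, g1, g2, ?_⟩
      show G'.Adj _ (hub g)
      rw [h1 g g1]
      exact H.e a (sl g g1) g3
    · obtain ⟨g, g1, g2, g3⟩ := (c.dom k k1 n n1).1
      refine ⟨g, g1, g2, ?_⟩
      show G'.Adj _ (hub g)
      rw [h1 g g1, g3]
      exact e

inductive RT
  | reg (j : ℕ) (a b c : RT)
  | nb (i j r : ℕ) (t : RT)
  | bad (i j r : ℕ)
  | leaf (k : ℕ) (σ π : List ℕ)

inductive DT
  | nil
  | cons (d r : DT)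
  | path (c : DT)
  | adj (i j : ℕ) (y n : DT)
  | ord (i j : ℕ) (y n : DT)
  | small (D : List ℕ)
  | th (Q : List (List ℕ)) (t : RT)

def Nbr (S : St) (Q : List (List ℕ)) (T : List (ℕ × ℕ)) (i j r : ℕ) : Prop :=
  (i, r) ∈ T ∧ i < S.m ∧ j < S.m ∧ ¬ onr Q i ∧ S.e i j = true

instance {S Q T i j r} : Decidable (Nbr S Q T i j r) := by unfold Nbr; infer_instance

def RT.go (K : ℕ) (L : List (Par × ℕ)) (S : St) (Q : List (List ℕ)) : RT → List (ℕ × ℕ) → Bool
  | .reg j a b c, T => go K L S Q a ((j, 0) :: T) && go K L S Q b ((j, 1) :: T) &&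
      go K L S Q c ((j, 2) :: T)
  | .nb i j r t, T => decide (Nbr S Q T i j r) && go K L S Q t ((j, r) :: T)
  | .bad i j r, T => decide (Nbr S Q T i j r ∧ onr Q j ∧ ¬ inR Q r j)
  | .leaf k σ π, T => (L.drop k).head?.any fun x =>
      decide (Leaf K S Q T x.1 x.2 (fun a => σ.getD a 0) fun a => π.getD a 0)

def DT.go (K : ℕ) (L : List (Par × ℕ)) : DT → List St → Bool
  | .nil, l => l.isEmpty
  | .cons d r, l => go K L d (l.take 1) && go K L r (l.drop 1)
  | .path c, l => l.all fun S => go K L c S.exts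
  | .adj i j y n, l => l.all fun S => decide (i < S.m ∧ j < S.m) &&
      go K L y [{ S with E := (i, j) :: S.E }] && go K L n [{ S with F := (i, j) :: S.F }]
  | .ord i j y n, l => l.all fun S => decide (i < S.m ∧ j < S.m ∧ i ≠ j ∧ S.dp i = S.dp j) &&
      go K L y [{ S with O := (i, j) :: S.O }] && go K L n [{ S with O := (j, i) :: S.O }]
  | .small D, l => l.all fun S => decide (Small K S D)
  | .th Q t, l => l.all fun S => decide (Th Q S) && t.go K L S Q []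

/-- All certificates of a library are valid. -/
def Lib (L : List (Par × ℕ)) : Prop := ∀ x ∈ L, Ref x.1 x.2 ∧ (tabs x.1 && tabOK x.1) = true

theorem Lib.nil : Lib [] := fun _ h => by cases h

theorem Lib.cons {L : List (Par × ℕ)} {P : Par} {Z : ℕ} (h1 : Ref P Z)
    (h2 : (tabs P && tabOK P) = true) (h : Lib L) : Lib ((P, Z) :: L) := by
  intro x hx
  rcases List.mem_cons.1 hx with rfl | hx
  exacts [⟨h1, h2⟩, h x hx]

variable {L : List (Par × ℕ)}

theorem RT.ok (hL : Lib L) (H : Sat E.B E.u S h) (R : RG Q G S.m h) (t : RT) :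
    ∀ T, TS R T → t.go K L S Q T = true → False := by
  have nbr : ∀ T i j r, TS R T → Nbr S Q T i j r → r < 3 ∧ R.Reg r (h j) :=
    fun T i j r hT ⟨c1, c2, c3, c4, c5⟩ => ⟨(hT _ c1).1, R.closed _ _ _ (hT _ c1).2
      (fun k k1 k2 e => c4 (H.inj _ _ c2 k1 e ▸ k2)) (H.e c2 c3 c5)⟩
  induction t with
  | reg j a b c ia ib ic =>
    intro T hT e
    simp only [RT.go, Bool.and_eq_true] at e
    obtain ⟨r, r1, r2⟩ := R.cover (h j)
    have : TS R ((j, r) :: T) := List.forall_mem_cons.2 ⟨⟨r1, r2⟩, hT⟩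
    rcases (by omega : r = 0 ∨ r = 1 ∨ r = 2) with rfl | rfl | rfl
    exacts [ia _ this e.1.1, ib _ this e.1.2, ic _ this e.2]
  | nb i j r t ih =>
    intro T hT e
    simp only [RT.go, Bool.and_eq_true, decide_eq_true_eq] at e
    exact ih _ (List.forall_mem_cons.2 ⟨nbr T i j r hT e.1, hT⟩) e.2
  | bad i j r =>
    intro T hT e
    simp only [RT.go, decide_eq_true_eq] at e
    have := nbr T i j r hT e.1
    exact e.2.2 ((R.on r j this.1 e.2.1).1 this.2)
  | leaf k σ π =>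
    intro T hT e
    simp only [RT.go, Option.any_eq_true, decide_eq_true_eq] at e
    obtain ⟨x, x1, x2⟩ := e
    have := hL x (List.mem_of_mem_drop (List.mem_of_mem_head? x1))
    exact H.leaf R hT x2 this.1 this.2

theorem DT.ok (hL : Lib L) (E : Env G K) (t : DT) :
    ∀ l, t.go K L l = true → ∀ S ∈ l, ∀ h, Sat E.B E.u S h → False := by
  induction t with
  | nil => intro l e S hS; rw [DT.go, List.isEmpty_iff] at e; simp [e] at hS
  | cons d r id ir =>
    intro l e S hS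
    rw [DT.go, Bool.and_eq_true] at e
    rw [← List.take_append_drop 1 l, List.mem_append] at hS
    exact hS.elim (id _ e.1 S) (ir _ e.2 S)
  | path c ih =>
    intro l e S hS h H
    obtain ⟨T, t1, g, t2⟩ := H.exts
    exact ih _ (List.all_eq_true.1 e S hS) T t1 g t2
  | adj i j y n iy jn =>
    intro l e S hS h H
    have := List.all_eq_true.1 e S hS
    simp only [Bool.and_eq_true, decide_eq_true_eq] at this
    obtain ⟨⟨⟨c1, c2⟩, e1⟩, e2⟩ := this
    by_cases m : G.Adj (h i) (h j)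
    · exact iy _ e1 _ List.mem_cons_self h
        { H with E := List.forall_mem_cons.2 ⟨⟨c1, c2, m⟩, H.E⟩ }
    · exact jn _ e2 _ List.mem_cons_self h
        { H with F := List.forall_mem_cons.2 ⟨⟨c1, c2, m⟩, H.F⟩ }
  | ord i j y n iy jn =>
    intro l e S hS h H
    have := List.all_eq_true.1 e S hS
    simp only [Bool.and_eq_true, decide_eq_true_eq] at this
    obtain ⟨⟨⟨c1, c2, c3, c4⟩, e1⟩, e2⟩ := this
    rcases lt_trichotomy (E.B.key (h i)) (E.B.key (h j)) with m | m | m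
    · exact iy _ e1 _ List.mem_cons_self h
        { H with O := List.forall_mem_cons.2 ⟨⟨c1, c2, m⟩, H.O⟩ }
    · exact c3 (H.inj _ _ c1 c2 (E.B.inj _ _ (by rw [H.dep i c1, H.dep j c2, c4]) m))
    · exact jn _ e2 _ List.mem_cons_self h
        { H with O := List.forall_mem_cons.2 ⟨⟨c2, c1, m⟩, H.O⟩ }
  | small D =>
    intro l e S hS h H
    exact H.small (of_decide_eq_true (List.all_eq_true.1 e S hS))
  | th Q t =>
    intro l e S hS h H
    have := List.all_eq_true.1 e S hS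
    simp only [Bool.and_eq_true, decide_eq_true_eq] at this
    obtain ⟨R⟩ := H.rg this.1
    exact t.ok hL H R [] (fun _ k => by cases k) this.2

end Pool.Agent.Lib.MP_ad48ef_co
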