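import Pool.Agent.Lib.MP_ad48ef_co.Glue7

/-!
# Soundness of the clause test, lemma instances and symmetries
-/

namespace Pool.Agent.Lib.MP_ad48ef_co.Gl.Cfg

variable {s : Shp} {C : Cfg s} {c L : List ℕ} {R l t a b k x σ : ℕ}

theorem nl_ok (hR : R < 3) (ht : t < 16) (ha : a < 128) (hb : b < 128) (hk : k < 4)
    (h : ¬ litv C.val (nl s R t a b k)) : (C.D R).atom t a b k := by
  have e : (Nat.mul t 2).succ = 2 * t + 1 := by show t * 2 + 1 = _; omega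
  rw [nl, cn_eq, e] at h
  split_ifs at h with p
  · simp only [bn_eq, Nat.ble_eq] at p
    rw [C.lit_tp (a := s.loc R a) (b := s.loc R b) 0 (by omega) (lt16 _) (lt16 _), sg,
      if_neg (by omega), not_not] at h
    rcases (by omega : t = 0 ∨ t = 1) with rfl | rfl
    exacts [(at0 hR p.2.1 p.2.2).2 h, fun q => h ((at0 hR p.2.1 p.2.2).1 q)]
  · rwa [C.lit_rl hR (by omega) ha hb hk, sg, if_neg (by omega), not_not,
      show (2 * t + 1) / 2 = t by omega] at h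

theorem inst_ok {g : ℕ → ℕ} (e : inst g L c = true) (h : C.N c) :
    ∀ x ∈ L, x ≤ 1048575 ∧ ¬ litv C.val (g x) := by
  induction L generalizing c with
  | nil => simp
  | cons x L ih =>
    rcases c with _ | ⟨l, c⟩
    · cases e
    obtain ⟨p, q⟩ := r_and.1 e
    obtain ⟨q, r⟩ := r_and.1 q
    exact List.forall_mem_cons.2 ⟨⟨Nat.le_of_ble_eq_true q, Nat.eq_of_beq_eq_true p ▸ h.cons.1⟩,
      ih r h.cons.2⟩

theorem f4 (x : ℕ) : fld x 4 127 = x / 16 % 128 := fm x 4 7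
theorem f11 (x : ℕ) : fld x 11 127 = x / 2048 % 128 := fm x 11 7
theorem f18 (x : ℕ) : Nat.shiftRight x 18 = x / 262144 := Nat.shiftRight_eq_div_pow x 18

theorem lem0 (u : Unsat L) (hR : R < 3) (h : C.N c) (e : inst (nl0 s R) L c = true) : False := by
  refine u (C.D R) fun x m => ?_
  obtain ⟨p, q⟩ := inst_ok e h x m
  change ¬ litv _ (cn _ _ _) at q
  rw [cn_eq, l15, f4, f11, f18] at q
  split_ifs at q
  · exact nl_ok hR (by omega) (by omega) (by omega) (by omega) q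
  · rwa [show Nat.add (Nat.mul R 2097152) (Nat.mul x 2).succ = rl R (2 * (x % 16) + 1)
      (x / 16 % 128) (x / 2048 % 128) (x / 262144) by
        rw [rl_eq]; show R * 2097152 + (x * 2 + 1) = _; omega,
      C.lit_rl hR (by omega) (by omega) (by omega) (by omega), sg, if_neg (by omega), not_not,
      show (2 * (x % 16) + 1) / 2 = x % 16 by omega] at q

theorem lem1 (u : Unsat L) (hR : R < 3) (h : C.N c) (e : inst (nl1 s R) L c = true) : False := by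
  refine u ((C.D R).fl true) fun x m => ?_
  obtain ⟨p, q⟩ := inst_ok e h x m
  rw [nl1, nl2, l15, f4, f11, f18] at q
  exact (fl_atom _ _ (by omega) (by omega) (by omega)).2
    (nl_ok hR (by omega) (rfa_lt (by omega)) (rfb_lt (by omega)) (by omega) q)

theorem ok_sound {lem : ℕ → List ℕ} (u : ∀ i, Unsat (lem i)) (C : Cfg s)
    (e : ok s lem x c = true) : ∃ l ∈ c, litv C.val l := by
  by_contra n
  have h : C.N c := fun l p q => n ⟨l, p, q⟩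
  rcases cb_eq.1 e with ⟨-, e⟩ | ⟨-, e⟩
  · obtain ⟨p, e⟩ := bn_eq.1 e
    have := Nat.le_of_ble_eq_true p
    rcases cb_eq.1 e with ⟨-, e⟩ | ⟨-, e⟩
    exacts [lem1 (u _) (by omega) h e, lem0 (u _) (by omega) h e]
  obtain ⟨l, c1, rfl, e0⟩ := nx_ok e
  obtain ⟨h1, h2⟩ := h.cons
  simp only [cb_eq, ok1] at e0
  rcases e0 with ⟨-, e⟩ | ⟨-, ⟨-, e⟩ | ⟨-, ⟨-, e⟩ | ⟨-, ⟨-, e⟩ | ⟨-, ⟨-, e⟩ | ⟨-, ⟨-, e⟩ | ⟨-, ⟨-, e⟩ |
    ⟨-, ⟨-, e⟩ | ⟨-, ⟨-, e⟩ | ⟨-, ⟨-, e⟩ | ⟨-, ⟨-, e⟩ | ⟨-, ⟨-, e⟩ | ⟨-, ⟨-, e⟩ |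
    ⟨-, e⟩⟩⟩⟩⟩⟩⟩⟩⟩⟩⟩⟩⟩
  · obtain ⟨l', c2, rfl, e1⟩ := nx_ok e
    obtain ⟨l'', c3, rfl, e2⟩ := nx_ok e1
    exact dom_ok h2.cons.2.cons.2 h1 h2.cons.1 h2.cons.2.cons.1 e2
  · obtain ⟨l', c2, rfl, e1⟩ := nx_ok e
    refine (bo_eq.1 e1).elim (mono_ok h1 h2.cons.1) fun e => ?_
    obtain ⟨p, q⟩ := bn_eq.1 e
    obtain ⟨hR, k⟩ := rp 2 h2.cons.1 p
    exact k fun m => absurd m (nl_ok (C := C) (t := 1) (k := 0) hR (by omega) (fA_lt l') (fB_lt l')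
      (by omega) (Nat.eq_of_beq_eq_true q ▸ h1))
  · obtain ⟨l', c2, rfl, e1⟩ := nx_ok e
    exact comp_ok h2.cons.2 h1 h2.cons.1 e1
  · exact far_ok h2 h1 e
  · obtain ⟨l', c2, rfl, e1⟩ := nx_ok e
    exact (bo_eq.1 e1).elim (cp_ok h1 h2.cons.1) (cp_ok h2.cons.1 h1)
  · obtain ⟨l', c2, rfl, e1⟩ := nx_ok e
    obtain ⟨l'', c3, rfl, e2⟩ := nx_ok e1
    obtain ⟨h3, h4⟩ := h2.cons
    obtain ⟨h4, h5⟩ := h4.cons
    rcases bo_eq.1 e2 with e | e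
    exacts [out_ok h5 h1 h3 h4 e, (bo_eq.1 e).elim (out_ok h5 h3 h1 h4) (out_ok h5 h4 h1 h3)]
  · exact ok2_ok h e
  · obtain ⟨R, p, e⟩ := an_ok e
    exact (bo_eq.1 e).elim (lem0 (u _) p h) (lem1 (u _) p h)
  exacts [unit_ok h h1 e, deg_ok h e, dlo_ok h e, aux_ok h h1 e, near_ok h h1 e, tt_ok h h1 e]

structure SW (s : Shp) (τ ρ : ℕ → ℕ) (f : Bool) : Prop where
  z : τ 0 = 0
  t10 : ∀ t, t < 10 → τ t < 10
  zi : ∀ t, t < 16 → (s.zz.testBit (τ t) = true ↔ s.zz.testBit t = true)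
  oi : ∀ u t, u < s.n → t < s.n → (s.o u t = 0 ∧ s.o (τ u) (τ t) = 0) ∨ (s.o u t ≠ 0 ∧
    s.o (τ u) (τ t) ≠ 0 ∧ s.o (τ u) (τ t) % 16 = τ (s.o u t % 16) ∧
      s.o (τ u) (τ t) / 16 = τ (s.o u t / 16))
  r : ∀ R, R < 3 → ρ R < 3 ∧ (∃ Q, Q < 3 ∧ ρ Q = R) ∧
    (∀ Q, Q < 3 → Q = R ∨ ρ Q ≠ ρ R) ∧
    (∀ i, i < 7 → (s.n ≤ s.loc R i ∧ s.n ≤ s.loc (ρ R) (fp f i)) ∨
      (¬ s.n ≤ s.loc R i ∧ s.loc (ρ R) (fp f i) = τ (s.loc R i) ∧
        s.w (ρ R) (fp f i) = s.w R i)) ∧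
    ∀ t, t < s.n → (s.pos (ρ R) (τ t) < 7 ↔ s.pos R t < 7)
  v : ∀ t, t < s.n → τ t < s.n ∧ (∃ u, u < s.n ∧ τ u = t) ∧ ∀ u, u < s.n →
    (u = t ∨ τ u ≠ τ t) ∧ (s.a u t = true → s.a (τ u) (τ t) = true) ∧
    (s.na u t = true → s.na (τ u) (τ t) = true) ∧
    (s.d2 u t = true → s.d2 (τ u) (τ t) = true) ∧
    (s.f u t = true → s.f (τ u) (τ t) = true)

theorem swf_ok (h : swf s σ = true) : SW s (sv σ) (sr σ) (bt σ 80) := by
  simp only [swf, bn_eq, al_eq, bo_eq, cb_eq, im_eq, lt_eq, ne_eq', Nat.beq_eq, Nat.ble_eq,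
    Shp.du] at h
  obtain ⟨⟨a, a1, a2, a3⟩, b, d⟩ := h
  refine ⟨a, fun t p => by have := a1 t p; omega, fun t p => ?_,
    fun u t p q => ?_, fun R p => ?_, fun t p => ?_⟩
  · rw [← bt_eq, ← bt_eq]
    exact ⟨(a2 t p).2, (a2 t p).1⟩
  · refine (a3 t q u p).imp_right fun ⟨x, y, z⟩ => ⟨x, y, ?_⟩
    have : sv σ (s.o u t % 16) < 16 := lt16 _
    rw [l15, sr4, Nat.add_eq, Nat.mul_eq] at z
    omega
  · obtain ⟨b1, b2, b3, b4, b5⟩ := b R p
    obtain ⟨Q, q1, q2⟩ := an_ok b2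
    exact ⟨by omega, ⟨Q, q1, Nat.eq_of_beq_eq_true q2⟩, b3, b4, fun t q => by
      have := b5 t q; omega⟩
  · obtain ⟨b1, b2, b3⟩ := d t p
    obtain ⟨Q, q1, q2⟩ := an_ok b2
    exact ⟨b1, ⟨Q, q1, Nat.eq_of_beq_eq_true q2⟩, b3⟩

variable {τ ρ : ℕ → ℕ} {f : Bool}

theorem SW.off (h : SW s τ ρ f) {v : C.V} :
    (∀ t, t < s.n → v ≠ C.T (τ t)) ↔ ∀ t, t < s.n → v ≠ C.T t :=
  ⟨fun p t q => let ⟨u, a, b⟩ := (h.v t q).2.1; b ▸ p u a, fun p t q => p _ (h.v t q).1⟩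

theorem SW.bd (h : SW s τ ρ f) (A : C.V → Prop) :
    Bd s.n (fun t => C.T (τ t)) A = Bd s.n C.T A := funext fun _ => propext <| and_congr_right'
  ⟨fun ⟨t, a, b⟩ => ⟨_, (h.v t a).1, b⟩,
    fun ⟨t, a, b⟩ => let ⟨u, p, q⟩ := (h.v t a).2.1; ⟨u, p, b.trans (congrArg _ q.symm)⟩⟩

theorem SW.rh (h : SW s τ ρ f) (C : Cfg s) :
    RH s C.G (fun t => C.T (τ t)) ↔ RH s C.G C.T := by
  have o : ∀ u t, s.o u t / 16 < 16 := fun u t => by
    have : s.o u t ≤ 255 := Nat.and_le_right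
    omega
  refine and_congr (forall_congr' fun _ => ⟨fun ⟨t, a, b, d⟩ =>
    ⟨_, (h.v t a).1, (h.zi t (C.n16 a)).2 b, d⟩, fun ⟨t, a, b, d⟩ => ?_⟩)
    ⟨fun k u t a b => ?_, fun k u t a b p q r => ?_⟩
  · obtain ⟨u, p, rfl⟩ := (h.v t a).2.1
    exact ⟨u, p, (h.zi u (C.n16 p)).1 b, d⟩
  · obtain ⟨x, p, rfl⟩ := (h.v u a).2.1
    obtain ⟨y, q, rfl⟩ := (h.v t b).2.1
    intro e
    obtain ⟨e1, -, e2, e3⟩ := (h.oi x y p q).resolve_left fun m => e m.2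
    rw [e2, e3, h.zi _ (o _ _), h.zi _ (by omega)]
    exact k x y p q e1
  · obtain ⟨-, e1, e2, e3⟩ := (h.oi u t a b).resolve_left fun m => p m.1
    have := k _ _ (h.v u a).1 (h.v t b).1 e1
    rw [e2, e3, h.zi _ (o _ _), h.zi _ (by omega)] at this
    exact this q r

/-- The configuration obtained by a symmetry of the shape. -/
def act (C : Cfg s) (h : SW s τ ρ f) : Cfg s where
  V := C.V
  G := C.G
  T t := C.T (τ t)
  r := C.r
  Reg R := C.Reg (ρ R)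
  D R := (C.D (ρ R)).fl f
  e R := C.e (ρ R)
  wf := C.wf
  inj u t p q e := (((h.v t q).2.2 u p).1).resolve_right
    fun k => k (C.inj _ _ (h.v u p).1 (h.v t q).1 e)
  sa u t p q e := C.sa _ _ (h.v u p).1 (h.v t q).1 (((h.v t q).2.2 u p).2.1 e)
  sn u t p q e := C.sn _ _ (h.v u p).1 (h.v t q).1 (((h.v t q).2.2 u p).2.2.1 e)
  s2 u t p q e := C.s2 _ _ (h.v u p).1 (h.v t q).1 (((h.v t q).2.2 u p).2.2.2.1 e)
  sf u t p q e := C.sf _ _ (h.v u p).1 (h.v t q).1 (((h.v t q).2.2 u p).2.2.2.2 e)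
  on R t p q := (C.on _ _ (h.r R p).1 (h.v t q).1).trans ((h.r R p).2.2.2.2 t q)
  cover v := let ⟨R, a, b⟩ := C.cover v; let ⟨Q, p, q⟩ := (h.r R a).2.1; ⟨Q, p, q ▸ b⟩
  closed R a b p q r := C.closed _ a b (h.r R p).1 q (h.off.1 r)
  uniq R Q a p q x y z := ((h.r Q q).2.2.1 R p).resolve_right
    fun k => k (C.uniq _ _ a (h.r R p).1 (h.r Q q).1 x y (h.off.1 z))
  inx a b e := by
    obtain ⟨R, p, q⟩ := C.inx a b e
    obtain ⟨Q, x, rfl⟩ := (h.r R p).2.1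
    exact ⟨Q, x, q⟩
  ei R := C.ei _
  eI R x p := (C.eI _ x (h.r R p).1).trans
    (exists_congr fun _ => and_congr_right' (and_congr_right' h.off.symm))
  eA R p q x := C.eA _ p q (h.r R x).1
  eb R i p q r := by
    obtain ⟨-, e, -⟩ := ((h.r R p).2.2.2.1 i q).resolve_left (by omega)
    rw [← e]
    exact C.eb _ _ (h.r R p).1 (fp_lt _ q) (e ▸ (h.v _ r).1)
  ed R i y p q r e := by
    obtain ⟨j, a, b, d⟩ := C.ed _ _ y (h.r R p).1 (fp_lt _ q)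
      (((h.r R p).2.2.2.1 i q).resolve_right fun k => k.1 r).2 e
    refine ⟨fp f j, fp_lt _ a, b.trans (congrArg _ ?_), ?_⟩
    · cases f
      exacts [rfl, by show j = 6 - (6 - j); omega]
    · revert d
      cases f
      exacts [id, by show j = 6 - i + 1 ∨ 6 - i = j + 1 → 6 - j = i + 1 ∨ i = 6 - j + 1; omega]
  d3 := C.d3
  nd := C.nd
  dom d v := (C.dom d v).imp_left fun ⟨t, a, b⟩ => let ⟨u, p, q⟩ := (h.v t a).2.1; ⟨u, p, q ▸ b⟩
  root p := ⟨h.off.2 (C.root p).1, by rw [h.z]; exact (C.root p).2⟩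
  hi p := by rw [h.z]; exact C.hi p
  lo := C.lo
  key t := C.key (τ t)
  top := C.top
  wt := C.wt
  ord d u t p q e k := by
    obtain ⟨-, e1, e2, e3⟩ := (h.oi u t p q).resolve_left fun m => e m.1
    rw [← e2, ← e3]
    exact C.ord d _ _ (h.v u p).1 (h.v t q).1 e1
      (k.imp_right fun k => ⟨((h.v t q).2.2 u p).2.2.1 k.1, k.2⟩)
  tpE d R p v k := by
    rw [h.bd] at k ⊢
    have := ((h.r R p).2.2.2.1 3 (by omega)).resolve_left fun m => by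
      have := C.wf.l3 R p; omega
    rw [← this.2.1, show fp f 3 = 3 by cases f <;> rfl]
    exact C.tpE d _ (h.r R p).1 v k
  wtE d R i p q r := by
    obtain ⟨-, e, k⟩ := ((h.r R p).2.2.2.1 i q).resolve_left (by omega)
    rw [h.bd, ← e, ← k]
    exact C.wtE d _ _ (h.r R p).1 (fp_lt _ q) (e ▸ (h.v _ r).1)
  bal d R p J q := by
    simp only [h.bd, h.off]
    exact C.bal d _ (h.r R p).1 J q
  nf d := (C.nf d).imp_right fun k m => k (mt (h.rh C).2 m)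

theorem pm_tb (σ S j : ℕ) : (pm σ S).testBit j = true ↔
    ∃ i, i < 10 ∧ S.testBit i = true ∧ j = sv σ i := by
  unfold pm
  generalize 10 = n
  induction n with
  | zero => simp
  | succ n ih =>
    change Nat.testBit (cn _ _ _) j = true ↔ _
    rw [cn_eq, bt_eq]
    refine Iff.trans (b := (∃ i, i < n ∧ S.testBit i = true ∧ j = sv σ i) ∨
      (S.testBit n = true ∧ j = sv σ n)) ?_ ⟨?_, fun ⟨i, a, b⟩ => ?_⟩
    · split_ifs with p
      · simp only [tb_or, Bool.or_eq_true, tb_one, ih, p, true_and]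
      · simp only [ih, p, Bool.false_eq_true, false_and, or_false]
    · rintro (⟨i, a, b⟩ | b)
      exacts [⟨i, by omega, b⟩, ⟨n, by omega, b⟩]
    · rcases Nat.lt_succ_iff_lt_or_eq.1 a with m | rfl
      exacts [Or.inl ⟨i, m, b⟩, Or.inr b]

theorem pm_all (h : SW s (sv σ) (sr σ) f) (S : ℕ) : pm σ S < 1024 ∧ ∀ P : ℕ → Prop,
    (∀ u, u < 10 → S.testBit u = true → P (sv σ u)) ↔
      ∀ u, u < 10 → (pm σ S % 16 + 16 * (pm σ S / 16)).testBit u = true → P u := by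
  refine ⟨Nat.lt_pow_two_of_testBit (n := 10) _ fun j k => Bool.eq_false_iff.2 fun m => ?_,
    fun P => ?_⟩
  · obtain ⟨i, a, -, rfl⟩ := (pm_tb _ _ _).1 m
    have := h.t10 i a
    omega
  rw [Nat.mod_add_div]
  refine ⟨fun k u _ m => ?_, fun k u a b => k _ (h.t10 u a) ((pm_tb _ _ _).2 ⟨u, a, b, rfl⟩)⟩
  obtain ⟨i, a, b, rfl⟩ := (pm_tb _ _ _).1 m
  exact k i a b

theorem act_val (h : SW s (sv σ) (sr σ) (bt σ 80)) (l : ℕ) :
    litv (C.act h).val l ↔ litv C.val (pi σ l) := by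
  rw [pi, cn_eq, l31]
  have m : l % 32 < 32 := by omega
  split_ifs with p
  · replace p := Nat.le_of_ble_eq_true p
    have e : Nat.shiftRight (l % 32) 1 = l % 32 / 2 := Nat.shiftRight_eq_div_pow _ 1
    have r := (h.r (fR l) (by rw [fR_eq]; omega)).1
    have k : fK l < 4 := by rw [fK_eq]; omega
    rw [lit_R _ p, pr, e]
    change sg _ (((C.D _).fl _).atom _ _ _ _) ↔ _
    cases bt σ 80
    · exact (C.lit_rl r m (fA_lt l) (fB_lt l) k).symm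
    · rw [fl_atom _ _ (by omega) (fA_lt l) (fB_lt l)]
      exact (C.lit_rl r m (rfa_lt (fA_lt l)) (rfb_lt (fB_lt l)) k).symm
  · rw [lit_T _ (by rw [Nat.ble_eq] at p; omega), pt]
    simp only [cn_eq, Nat.ble_eq]
    have v : ∀ t, sv σ t < 16 := fun t => lt16 _
    have v' : ∀ t, sv σ t < 64 := fun t => (v t).trans (by omega)
    have w : sr σ (g1 l) < 16 := lt16 _
    have sc : ∀ {P Q : Prop}, (P ↔ Q) → (sg (l % 32) P ↔ sg (l % 32) Q) := fun k => by rw [k]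
    obtain ⟨m1, m2⟩ := pm_all h (gm l)
    split_ifs with a b d e f g i j k n
    · rw [C.lit_tp 0 (by omega) (v _) (v _)]
      rcases (by omega : l % 32 / 2 = 0 ∨ l % 32 / 2 = 1 ∨ l % 32 / 2 = 2) with z | z | z <;>
        rw [z] <;> rfl
    · rw [C.lit_tv m (v _) (v _) (v' _), show l % 32 / 2 = 3 by omega]; rfl
    · rw [C.lit_tv m (v _) (v _) (v' _), show l % 32 / 2 = 3 by omega]
      exact sc ⟨fun k => ⟨k.2.symm, k.1.symm⟩, fun k => ⟨k.2.symm, k.1.symm⟩⟩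
    · rw [C.lit_tv m (v _) (v _) (v' _), show l % 32 / 2 = 4 by omega]; rfl
    · rw [C.lit_tv m w (v _) (v' _), show l % 32 / 2 = 5 by omega]; rfl
    · rw [C.lit_tv m w (v _) (v' _), show l % 32 / 2 = 5 by omega]
      exact sc ⟨fun ⟨x, a, b, c⟩ => ⟨x, a, c.symm, b.symm⟩,
        fun ⟨x, a, b, c⟩ => ⟨x, a, c.symm, b.symm⟩⟩
    · rw [C.lit_tw m w (by rw [gm_eq]; omega), show l % 32 / 2 = 6 by omega]
      exact sc (by rw [ts, ts, gm2, Nat.mod_add_div, Ew, Ew, ← h.bd (C := C)]; rfl)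
    · rw [C.lit_tp 0 (by omega) (v _) (v _), show l % 32 / 2 = 7 by omega]; rfl
    · rw [C.lit_tw m (v _) m1, show l % 32 / 2 = 8 by omega]
      exact sc (by rw [ts, gm2]; exact m2 fun u => ¬ C.B _ u)
    · rw [C.lit_tw m w m1, show l % 32 / 2 = 9 by omega]
      exact sc (by
        rw [ts, gm2]
        exact exists_congr fun x => and_congr (and_congr_right' (h.off (C := C)))
          (m2 fun u => ¬ D2 C.G x (C.T u)))
    · rw [C.lit_tv m (by omega) (by omega) (by omega),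
        show l % 32 / 2 = l % 32 / 2 - 10 + 10 by omega]
      exact sc (h.rh C)

end Cfg

/-- Main statement: a refuted shape has no configuration. -/
theorem TopS.no {s : Shp} {lem : ℕ → List ℕ} (h : TopS s lem) (u : ∀ i, Unsat (lem i))
    (C : Cfg s) : False := by
  refine h {v // ∃ C : Cfg s, v = C.val} Subtype.val ?_ ?_ ⟨_, C, rfl⟩
  · rintro ⟨_, C, rfl⟩ x c e
    exact Cfg.ok_sound u C e
  · rintro σ e ⟨_, C, rfl⟩
    exact ⟨⟨_, C.act (Cfg.swf_ok e), rfl⟩, Cfg.act_val _⟩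

end Pool.Agent.Lib.MP_ad48ef_co.Gl
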