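import Pool.Agent.Lib.MP_ad48ef_co.Glue1
import Pool.Agent.Lib.MP_ad48ef_co.Glue5

/-!
# Building a configuration from a tripod
-/

set_option synthInstance.maxSize 4000

namespace Pool.Agent.Lib.MP_ad48ef_co.Gl

open Pool.Agent.Shared.Planar

def qv (Q : List (List ℕ)) (i k : ℕ) : ℕ := (Q.getD i []).getD k 0
def ql (Q : List (List ℕ)) (i : ℕ) : ℕ := (Q.getD i []).length - 1

/-- The legs `Q` and offsets `o` describe the shape `s`. -/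
def Lg (s : Shp) (Q : List (List ℕ)) (o : List ℕ) : Prop := s.wf = true ∧
  (∀ t < s.n, ∃ i < 3, ∃ k ≤ ql Q i, qv Q i k = t) ∧ ∀ i < 3, qv Q i 0 = qv Q 0 0 ∧
  (∀ k ≤ ql Q i, qv Q i k < s.n ∧ (k < ql Q i → s.a (qv Q i k) (qv Q i (k + 1)) = true) ∧
    ∀ j < 3, (s.pos j (qv Q i k) < 7 ↔ i = j ∨ i = (j + 1) % 3 ∨ k = 0) ∧
      ∀ m ≤ ql Q j, qv Q i k = qv Q j m → (i = j ∧ k = m) ∨ (k = 0 ∧ m = 0)) ∧
  (o.getD i 0 ≤ 3 ∧ 3 ≤ o.getD i 0 + ql Q i + ql Q ((i + 1) % 3) ∧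
    o.getD i 0 + ql Q i + ql Q ((i + 1) % 3) ≤ 6) ∧
  ∀ k < 7, (if k < o.getD i 0 then s.n ≤ s.loc i k else if k ≤ o.getD i 0 + ql Q i then
      s.loc i k = qv Q i (o.getD i 0 + ql Q i - k)
    else if k ≤ o.getD i 0 + ql Q i + ql Q ((i + 1) % 3) then
      s.loc i k = qv Q ((i + 1) % 3) (k - (o.getD i 0 + ql Q i)) else s.n ≤ s.loc i k) ∧
    (s.loc i k < s.n → (k = 0 ∨ k = 6 → s.f (s.loc i 3) (s.loc i k) = true) ∧
      ∀ m < 7, s.loc i m < s.n → (m = k + 1 → s.a (s.loc i k) (s.loc i m) = true) ∧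
        (lev k + 2 ≤ lev m → s.na (s.loc i k) (s.loc i m) = true))

noncomputable instance {s Q o} : Decidable (Lg s Q o) := by unfold Lg; infer_instance

variable {V : Type} {G : SimpleGraph V}

/-- The graph of a closed region with its completed boundary path. -/
def DG (G : SimpleGraph V) (A : V → Prop) (b : ℕ → V ⊕ ℕ) : SimpleGraph (V ⊕ ℕ) :=
  SimpleGraph.fromRel fun x y => (∃ p q, x = .inl p ∧ y = .inl q ∧ G.Adj p q ∧ A p ∧ A q) ∨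
    ∃ i, i < 6 ∧ x = b i ∧ y = b (i + 1)

/-- Hypotheses for one region. -/
structure Pre (G : SimpleGraph V) (n : ℕ) (T : ℕ → V) (loc : ℕ → ℕ) (A : V → Prop)
    (In : V → V → Prop) (b : ℕ → V ⊕ ℕ) : Prop where
  bE : ∀ i, i < 7 → b i = if loc i < n then .inl (T (loc i)) else .inr i
  inj : ∀ i j, i < 7 → j < 7 → loc i < n → loc j < n → T (loc i) = T (loc j) → i = j
  l3 : loc 3 < n
  on : ∀ t, t < n → A (T t) → ∃ i, i < 7 ∧ loc i = t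
  path : ∀ i, i < 6 → loc i < n → loc (i + 1) < n → G.Adj (T (loc i)) (T (loc (i + 1)))
  non : ∀ i j, i < 7 → j < 7 → loc i < n → loc j < n → lev i + 2 ≤ lev j →
    ¬ G.Adj (T (loc i)) (T (loc j))
  far : ∀ i, i = 0 ∨ i = 6 → loc i < n → ¬ D2 G (T (loc 3)) (T (loc i))
  closed : ∀ a c, A a → (∀ t, t < n → a ≠ T t) → G.Adj a c → In a c
  inR : ∀ a c, In a c → A c
  d3 : D3 G
  ht : HT (KW In b)

namespace Pre

variable {n : ℕ} {T : ℕ → V} {loc : ℕ → ℕ} {A : V → Prop} {In : V → V → Prop} {b : ℕ → V ⊕ ℕ}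
  (h : Pre G n T loc A In b)
include h

theorem binj {i j : ℕ} (hi : i < 7) (hj : j < 7) (e : b i = b j) : i = j := by
  rw [h.bE i hi, h.bE j hj] at e
  split_ifs at e with p q
  exacts [h.inj i j hi hj p q (Sum.inl.inj e), Sum.inr.inj e]

theorem real {i : ℕ} {v : V} (hi : i < 7) (e : .inl v = b i) : loc i < n ∧ v = T (loc i) := by
  rw [h.bE i hi] at e
  split_ifs at e with p
  exact ⟨p, Sum.inl.inj e⟩

theorem adj {p q : V} (e : (DG G A b).Adj (.inl p) (.inl q)) : G.Adj p q := by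
  have key : ∀ p q i, i < 6 → .inl p = b i → .inl q = b (i + 1) → G.Adj p q := fun p q i a c d => by
    obtain ⟨c1, rfl⟩ := h.real (by omega) c
    obtain ⟨d1, rfl⟩ := h.real (by omega) d
    exact h.path i a c1 d1
  rcases e.2 with (⟨_, _, ⟨⟩, ⟨⟩, a, -⟩ | ⟨i, a, c, d⟩) | ⟨_, _, ⟨⟩, ⟨⟩, a, -⟩ | ⟨i, a, c, d⟩
  exacts [a, key p q i a c d, a.symm, (key q p i a c d).symm]

omit h in
theorem adj' {p q : V} (e : G.Adj p q) (a : A p) (c : A q) : (DG G A b).Adj (.inl p) (.inl q) :=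
  ⟨fun k => e.ne (Sum.inl.inj k), Or.inl (Or.inl ⟨p, q, rfl, rfl, e, a, c⟩)⟩

omit h in
theorem cases {x y : V ⊕ ℕ} (e : (DG G A b).Adj x y) :
    (∃ p q, x = .inl p ∧ y = .inl q ∧ A q) ∨
      ∃ i j, i < 7 ∧ j < 7 ∧ x = b i ∧ y = b j ∧ (j = i + 1 ∨ i = j + 1) := by
  rcases e.2 with (⟨p, q, a, c, -, -, d⟩ | ⟨i, a, c, d⟩) | ⟨p, q, a, c, -, d, -⟩ | ⟨i, a, c, d⟩
  exacts [Or.inl ⟨p, q, a, c, d⟩, Or.inr ⟨i, _, by omega, by omega, c, d, Or.inl rfl⟩,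
    Or.inl ⟨q, p, c, a, d⟩, Or.inr ⟨_, i, by omega, by omega, d, c, Or.inr rfl⟩]

theorem non' (i j : ℕ) (hi : i < 7) (hj : j < 7) (k : lev i + 2 ≤ lev j) :
    ¬ (DG G A b).Adj (b i) (b j) := fun e => by
  rcases cases e with ⟨p, q, a, c, -⟩ | ⟨p, q, p1, q1, a, c, d⟩
  · obtain ⟨a1, rfl⟩ := h.real hi a.symm
    obtain ⟨c1, rfl⟩ := h.real hj c.symm
    exact h.non i j hi hj a1 c1 k (h.adj (a ▸ c ▸ e))
  · obtain rfl := h.binj hi p1 a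
    obtain rfl := h.binj hj q1 c
    unfold lev at k
    omega

theorem far' (i : ℕ) (hi : i = 0 ∨ i = 6) (y : V ⊕ ℕ) (e : (DG G A b).Adj (b 3) y) :
    ¬ (DG G A b).Adj (b i) y := fun k => by
  rcases cases k with ⟨p, q, a, rfl, -⟩ | ⟨p, q, p1, q1, a, rfl, d⟩
  · obtain ⟨a1, rfl⟩ := h.real (by omega) a.symm
    rw [h.bE 3 (by omega), if_pos h.l3] at e
    exact h.far i hi a1 ⟨q, Or.inr (h.adj e), Or.inr (h.adj (a ▸ k)).symm⟩
  · obtain rfl := h.binj (by omega) p1 a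
    exact h.non' 3 q (by omega) q1 (by unfold lev; omega) e

def disk : Disk where
  X := V ⊕ ℕ
  G := DG G A b
  K := KW In b
  b := b
  I x := ∃ v, x = .inl v ∧ A v ∧ ∀ t, t < n → v ≠ T t
  inj _ _ := h.binj
  off i a := fun ⟨_, p, _, q⟩ => q _ (h.real a p.symm).1 (h.real a p.symm).2
  cov x y e := by
    rcases cases e with ⟨p, q, -, rfl, a⟩ | ⟨p, q, -, q1, -, c, -⟩
    · by_cases m : ∃ t, t < n ∧ q = T t
      · obtain ⟨t, t1, rfl⟩ := m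
        obtain ⟨i, i1, rfl⟩ := h.on t t1 a
        exact Or.inr ⟨i, i1, by rw [h.bE i i1, if_pos t1]⟩
      · exact Or.inl ⟨q, rfl, a, fun t p r => m ⟨t, p, r⟩⟩
    · exact Or.inr ⟨q, q1, c⟩
  path i a := ⟨fun e => by have := h.binj (by omega) (by omega) e; omega,
    Or.inl (Or.inr ⟨i, a, rfl, rfl⟩)⟩
  non := h.non'
  far0 := h.far' 0 (Or.inl rfl)
  far6 := h.far' 6 (Or.inr rfl)
  d3 := by
    rintro _ _ ⟨u, rfl, a, c⟩ ⟨v, rfl, d, e⟩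
    obtain ⟨x, y, p, q, r⟩ := h.d3 u v
    have k : ∀ u x, A u → (∀ t, t < n → u ≠ T t) → Wk G u x → A x := by
      rintro u x a c (rfl | p)
      exacts [a, h.inR _ _ (h.closed _ _ a c p)]
    have x1 := k u x a c p
    have y1 := k v y d e r.symm
    exact ⟨.inl x, .inl y, p.imp (congrArg _) fun m => adj' m a x1,
      q.imp (congrArg _) fun m => adj' m x1 y1, r.imp (congrArg _) fun m => adj' m y1 d⟩
  ht := h.ht
  kI := by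
    rintro _ y ⟨u, rfl, a, c⟩ e
    rcases cases e with ⟨p, q, -, rfl, -⟩ | ⟨p, q, p1, -, d, -⟩
    · exact ⟨fun k => e.ne (Option.some.inj k),
        Or.inl (Or.inl ⟨u, q, rfl, rfl, h.closed _ _ a c (h.adj e)⟩)⟩
    · exact absurd (h.real p1 d).2 (c _ (h.real p1 d).1)
  kpath i a := ⟨fun e => by have := h.binj (by omega) (by omega) (Option.some.inj e); omega,
    Or.inl (Or.inr (Or.inl ⟨i, a, rfl, rfl⟩))⟩
  kend := ⟨fun e => by have := h.binj (by omega) (by omega) (Option.some.inj e); omega,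
    Or.inl (Or.inr (Or.inr (Or.inl ⟨rfl, rfl⟩)))⟩
  khub i a := ⟨by simp, Or.inl (Or.inr (Or.inr (Or.inr ⟨i, a, rfl, rfl⟩)))⟩

end Pre

theorem Lg.lt {s : Shp} {Q : List (List ℕ)} {o : List ℕ} (hs : Lg s Q o) (i : Fin 3) (k : ℕ)
    (m : k ≤ ql Q i) : qv Q i k < s.n := ((hs.2.2 i i.2).2.1 k m).1

theorem Lg.inj {s : Shp} {Q : List (List ℕ)} {o : List ℕ} (hs : Lg s Q o) {T : ℕ → V}
    (inj : ∀ u t, u < s.n → t < s.n → T u = T t → u = t) (i j : Fin 3) (k l : ℕ) (a : k ≤ ql Q i)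
    (b : l ≤ ql Q j) (e : T (qv Q i k) = T (qv Q j l)) : (i = j ∧ k = l) ∨ (k = 0 ∧ l = 0) := by
  have := (((hs.2.2 i i.2).2.1 k a).2.2 j j.2).2 l b (inj _ _ (hs.lt i k a) (hs.lt j l b) e)
  omega

theorem exists_cfg' {s : Shp} {Q : List (List ℕ)} {o : List ℕ} (hs : Lg s Q o)
    (T : ℕ → V) (r : V) (inj : ∀ u t, u < s.n → t < s.n → T u = T t → u = t)
    (sa : ∀ u t, u < s.n → t < s.n → s.a u t = true → G.Adj (T u) (T t))
    (sn : ∀ u t, u < s.n → t < s.n → s.na u t = true → ¬ G.Adj (T u) (T t))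
    (s2 : ∀ u t, u < s.n → t < s.n → s.d2 u t = true → D2 G (T u) (T t))
    (sf : ∀ u t, u < s.n → t < s.n → s.f u t = true → ¬ D2 G (T u) (T t))
    (R : Regs2 G (fun i k => T (qv Q i k)) fun i => ql Q i) (d3 : D3 G) (nd : ND G 6)
    (dom : s.d ≠ 0 → ∀ v, (∃ t, t < s.n ∧ Wk G v (T t)) ∨ (s.p ≠ 0 ∧ G.Adj v r))
    (root : s.p ≠ 0 → (∀ t, t < s.n → r ≠ T t) ∧ G.Adj r (T 0))
    (hi : s.p = 0 ∧ s.d ≠ 0 → ∀ l : List V, l.Nodup → (∀ x ∈ l, G.Adj (T 0) x) → l.length ≤ s.d)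
    (lo : s.d ≠ 0 → ∀ v, ∃ l : List V, l.Nodup ∧ (∀ x ∈ l, G.Adj v x) ∧ s.lo ≤ l.length)
    (key : ℕ → ℕ) (top : (V → Prop) → V → Prop) (wt : (V → Prop) → V → ℕ)
    (ord : s.d = 0 → ∀ u t, u < s.n → t < s.n → s.o u t ≠ 0 →
      G.Adj (T u) (T t) ∨ (s.na u t = true ∧ D2 G (T u) (T t)) →
      key (s.o u t % 16) < key (s.o u t / 16))
    (tw : s.d = 0 → ∀ X (C : V → Prop), X < 3 →
      (∀ v, C v ↔ ∃ t, t < s.n ∧ s.pos X t < 7 ∧ v = T t) →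
      (∀ v, C v → (top C v ↔ s.h3 = true ∧ v = T (s.loc X 3))) ∧
        ∀ i, i < 7 → s.loc X i < s.n → wt C (T (s.loc X i)) = s.w X i)
    (bal : s.d = 0 → ∀ (ρ : Fin 3) (C : V → Prop), (∀ v, C v ↔ ∃ (i : Fin 3) (k : ℕ),
      (i = ρ ∨ i = ρ + 1) ∧ k ≤ ql Q i ∧ v = T (qv Q i k)) → ∀ J, J ≤ 127 →
      Ez G J s.wh s.jh C (top C) (wt C) (fun v => ¬ R.Reg ρ v) →
      Ez G J s.wh s.jh C (top C) (wt C) fun v => R.Reg ρ v ∧
        ∀ (i : Fin 3) k, k ≤ ql Q i → v ≠ T (qv Q i k))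
    (nf : s.d = 0 → NF G (s.lo % 8) ∧ (¬ RH s G T → s.lo % 64 < 40 ∧ NF G (s.lo / 8 % 8))) :
    Nonempty (Cfg s) := by
  have lt := hs.lt
  obtain ⟨wf, sur, hs⟩ := hs
  replace wf := Shp.wf_ok wf
  have off : ∀ a, (∀ t, t < s.n → a ≠ T t) → ∀ (i : Fin 3) k, k ≤ ql Q i → a ≠ T (qv Q i k) :=
    fun a m i k l => m _ (lt i k l)
  have e1 : ∀ ρ : Fin 3, ((ρ + 1 : Fin 3) : ℕ) = (ρ + 1) % 3 := fun ρ => Fin.val_add _ _
  have on : ∀ (ρ : Fin 3) t, t < s.n → (R.Reg ρ (T t) ↔ s.pos ρ t < 7) := fun ρ t m => by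
    obtain ⟨i, i1, k, k1, rfl⟩ := sur t m
    rw [R.on ρ ⟨i, i1⟩ k k1, (((hs i i1).2.1 k k1).2.2 ρ ρ.2).1, Fin.ext_iff, Fin.ext_iff, e1]
  have pre : ∀ ρ : Fin 3, Pre G s.n T (s.loc ρ) (R.Reg ρ) (R.In ρ)
      (bd (fun i k => T (qv Q i k)) (fun i => ql Q i) ρ (o.getD ρ 0)) := fun ρ => by
    obtain ⟨-, -, ⟨o1, o2, o3⟩, k⟩ := hs ρ ρ.2
    refine ⟨fun i a => ?_, fun i j a b c d e => ?_, wf.l3 _ ρ.2, fun t a b =>
      ⟨_, (on ρ t a).1 b, wf.pl _ t ρ.2 a ((on ρ t a).1 b)⟩, fun i a b c =>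
      sa _ _ b c ((((k i (by omega)).2 b).2 _ (by omega) c).1 rfl), fun i j a b c d e =>
      sn _ _ c d ((((k i a).2 c).2 j b d).2 e), fun i a b => sf _ _ (wf.l3 _ ρ.2) b
      (((k i (by omega)).2 b).1 a), fun a c p q => R.closed ρ a c p (off a q),
      fun a c p => (R.inR ρ a c p).2.1, d3, R.ht ρ _ o1 (e1 ρ ▸ o2) (e1 ρ ▸ o3)⟩
    · have := (k i a).1
      unfold bd
      beta_reduce
      rw [← e1] at this o2 o3
      split_ifs at this ⊢ with p q r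
      any_goals first | rfl | omega | rw [this]
      exacts [absurd (this ▸ lt _ _ (by omega)) ‹_›, absurd (this ▸ lt _ _ (by omega)) ‹_›]
    · rw [← wf.lp _ i ρ.2 a c, inj _ _ c d e, wf.lp _ j ρ.2 b d]
  have e0 : ∀ {R}, R < 3 → ((Fin.ofNat 3 R : Fin 3) : ℕ) = R := Nat.mod_eq_of_lt
  have bd : ∀ X, X < 3 → ∀ v, Bd s.n T (R.Reg (Fin.ofNat 3 X)) v ↔
      ∃ t, t < s.n ∧ s.pos X t < 7 ∧ v = T t := fun X p v =>
    ⟨fun ⟨a, t, b, e⟩ => ⟨t, b, by rwa [e, on _ t b, e0 p] at a, e⟩,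
      fun ⟨t, b, a, e⟩ => ⟨by rwa [e, on _ t b, e0 p], t, b, e⟩⟩
  refine ⟨⟨V, G, T, r, fun X => R.Reg (Fin.ofNat 3 X), fun X => (pre (Fin.ofNat 3 X)).disk,
    fun _ v => (Sum.inl v : V ⊕ ℕ), wf, inj, sa, sn, s2, sf, fun X t a b => by rw [on _ t b, e0 a], fun v => ?_,
    fun X a b _ p q e => (R.inR _ _ _ (R.closed _ a b p (off a q) e)).2.1,
    fun X Y a p q x y z => ?_, fun a b e => ?_, fun _ => Sum.inl_injective, fun _ _ _ => Iff.rfl,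
    fun X p q _ a b => ⟨(pre _).adj, fun e => Pre.adj' e a b⟩, fun X i p q e => ?_,
    fun X i y p q e k => ?_, d3, nd, dom, root, hi, lo, key, top, wt, ord,
    fun d X p => (tw d X _ p (bd X p)).1, fun d X i p => (tw d X _ p (bd X p)).2 i,
    fun d X p J q k => ?_, nf⟩⟩
  · obtain ⟨ρ, e⟩ := R.cover v
    exact ⟨ρ, ρ.2, by rwa [Fin.ofNat_val_eq_self]⟩
  · rw [← e0 p, R.uniq _ _ a x y (off a z), e0 q]
  · obtain ⟨ρ, k⟩ := R.inx a b e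
    rw [← Fin.ofNat_val_eq_self ρ] at k
    exact ⟨ρ, ρ.2, (R.inR _ _ _ k).1, (R.inR _ _ _ k).2.1,
      fun m => e.ne (Sum.inl.inj (Option.some.inj m)), Or.inl (Or.inl ⟨a, b, rfl, rfl, k⟩)⟩
  · exact ((pre (Fin.ofNat 3 X)).bE i q).trans (by rw [e0 p, if_pos e])
  · rcases Pre.cases k with ⟨a, b, c, -⟩ | ⟨a, b, c, d, f, g, m⟩
    · have := ((pre _).real q c.symm).1
      rw [e0 p] at this
      omega
    · exact ⟨b, d, g, (pre _).binj q c f ▸ m⟩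
  · have : (fun v => R.Reg (Fin.ofNat 3 X) v ∧ ∀ t, t < s.n → v ≠ T t) = fun v =>
        R.Reg (Fin.ofNat 3 X) v ∧ ∀ (i : Fin 3) k, k ≤ ql Q i → v ≠ T (qv Q i k) :=
      funext fun v => propext <| and_congr_right' ⟨off v, fun m t a => by
        obtain ⟨i, i1, k, k1, rfl⟩ := sur t a
        exact m ⟨i, i1⟩ k k1⟩
    rw [this]
    refine bal d _ _ (fun v => ⟨fun ⟨a, t, b, e⟩ => ?_, fun ⟨i, k, a, b, e⟩ =>
      ⟨e ▸ (R.on _ i k b).2 (a.imp_right Or.inl), _, lt i k b, e⟩⟩) J q k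
    obtain ⟨i, i1, k, k1, rfl⟩ := sur t b
    subst e
    rcases (R.on _ ⟨i, i1⟩ k k1).1 a with m | m | rfl
    exacts [⟨⟨i, i1⟩, k, Or.inl m, k1, rfl⟩, ⟨⟨i, i1⟩, k, Or.inr m, k1, rfl⟩,
      ⟨_, 0, Or.inl rfl, Nat.zero_le _, by rw [(hs i i1).1, (hs _ (Fin.is_lt _)).1]⟩]

theorem exists_cfg [Finite V] {s : Shp} {Q : List (List ℕ)} {o : List ℕ} (hs : Lg s Q o)
    (T : ℕ → V) (r : V) (inj : ∀ u t, u < s.n → t < s.n → T u = T t → u = t)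
    (sa : ∀ u t, u < s.n → t < s.n → s.a u t = true → G.Adj (T u) (T t))
    (sn : ∀ u t, u < s.n → t < s.n → s.na u t = true → ¬ G.Adj (T u) (T t))
    (s2 : ∀ u t, u < s.n → t < s.n → s.d2 u t = true → D2 G (T u) (T t))
    (sf : ∀ u t, u < s.n → t < s.n → s.f u t = true → ¬ D2 G (T u) (T t))
    (ht : HT (apex G {T (qv Q 0 (ql Q 0)), T (qv Q 1 (ql Q 1)), T (qv Q 2 (ql Q 2))}))
    (d3 : D3 G) (nd : ND G 6) (d0 : s.d ≠ 0)
    (dom : ∀ v, (∃ t, t < s.n ∧ Wk G v (T t)) ∨ (s.p ≠ 0 ∧ G.Adj v r))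
    (root : s.p ≠ 0 → (∀ t, t < s.n → r ≠ T t) ∧ G.Adj r (T 0))
    (hi : s.p = 0 → ∀ l : List V, l.Nodup → (∀ x ∈ l, G.Adj (T 0) x) → l.length ≤ s.d)
    (lo : ∀ v, ∃ l : List V, l.Nodup ∧ (∀ x ∈ l, G.Adj v x) ∧ s.lo ≤ l.length) :
    Nonempty (Cfg s) := by
  obtain ⟨R⟩ := regions2 (G := G) (fun i k => T (qv Q i k)) (fun i => ql Q i) ht
    (fun i j => by rw [(hs.2.2 i i.2).1, (hs.2.2 j j.2).1])
    (fun i k m => sa _ _ (hs.lt i k m.le) (hs.lt i _ m) (((hs.2.2 i i.2).2.1 k m.le).2.1 m))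
    (fun i j k l a b e => hs.inj (T := T) inj i j k l a b e)
  exact exists_cfg' hs T r inj sa sn s2 sf R d3 nd (fun _ => dom) root (fun k => hi k.1)
    (fun _ => lo) id (fun _ _ => True) (fun _ _ => 0) (absurd · d0) (absurd · d0) (absurd · d0) (absurd · d0)

end Pool.Agent.Lib.MP_ad48ef_co.Gl
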