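import Pool.Agent.Lib.MP_ad48ef_co.Bfs
import Pool.Agent.Lib.MP_ad48ef_co.Glue6
import Pool.Agent.Lib.MP_ad48ef_co.Shapes

/-!
# Matching the explored tree with a shape
-/

set_option synthInstance.maxSize 4000

namespace Pool.Agent.Lib.MP_ad48ef_co.Gl

open Pool.Agent.Shared.Planar

def Shp.set (s : Shp) (d lo : ℕ) : Shp := { s with d := d, lo := lo }

def Ed (P : List ℕ) (u t : ℕ) : Prop := (u ≠ 0 ∧ P.getD u 0 = t) ∨ (t ≠ 0 ∧ P.getD t 0 = u)

instance {P u t} : Decidable (Ed P u t) := by unfold Ed; infer_instance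

/-- The static tables follow from the parents `P` and levels `L`. -/
def Sta (s : Shp) (P L : List ℕ) : Prop := ∀ u < s.n, ∀ t < s.n, (s.a u t = true → Ed P u t) ∧
  (s.na u t = true → u = t ∨ L.getD u 0 + 2 ≤ L.getD t 0 ∨ L.getD t 0 + 2 ≤ L.getD u 0) ∧
  (s.d2 u t = true → ∃ j < s.n, (u = j ∨ Ed P u j) ∧ (j = t ∨ Ed P j t)) ∧
  (s.f u t = true → L.getD u 0 + 3 ≤ L.getD t 0 ∨ L.getD t 0 + 3 ≤ L.getD u 0)

noncomputable instance {s P L} : Decidable (Sta s P L) := by unfold Sta; infer_instance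

/-- The map `σ` identifies the tree of the shape with the explored tree. -/
def Lf (S : St) (s : Shp) (Q : List (List ℕ)) (P L σ : List ℕ) : Prop :=
  (∀ i < 3, σ.getD (qv Q i (ql Q i)) 0 ∈ S.us) ∧
  (∀ j < S.m, (∃ t < s.n, σ.getD t 0 = j) ∨ (s.p ≠ 0 ∧ j = 0)) ∧
  (if s.p = 0 then σ.getD 0 0 = 0 else σ.getD 0 0 ≠ 0 ∧ S.pr (σ.getD 0 0) = 0) ∧
  ∀ u < s.n, σ.getD u 0 < S.m ∧ S.dp (σ.getD u 0) = L.getD u 0 ∧
    (u ≠ 0 → σ.getD u 0 ≠ 0 ∧ S.pr (σ.getD u 0) = σ.getD (P.getD u 0) 0) ∧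
    ∀ t < s.n, σ.getD u 0 = σ.getD t 0 → u = t

instance {S s Q P L σ} : Decidable (Lf S s Q P L σ) := by unfold Lf; infer_instance

def S0 : St := ⟨1, [0], [0], [], [], [], [], false⟩

variable {V : Type} {G : SimpleGraph V}

/-- Facts about the embedded tree. -/
structure Pk (B : Bfs G) (u : ℕ → V) (s : Shp) (Q : List (List ℕ)) (P L : List ℕ) (T : ℕ → V) :
    Prop where
  inj : ∀ u t, u < s.n → t < s.n → T u = T t → u = t
  sa : ∀ u t, u < s.n → t < s.n → s.a u t = true → G.Adj (T u) (T t)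
  sn : ∀ u t, u < s.n → t < s.n → s.na u t = true → ¬ G.Adj (T u) (T t)
  s2 : ∀ u t, u < s.n → t < s.n → s.d2 u t = true → D2 G (T u) (T t)
  sf : ∀ u t, u < s.n → t < s.n → s.f u t = true → ¬ D2 G (T u) (T t)
  en : ∀ i < 3, T (qv Q i (ql Q i)) ∈ ({u 0, u 1, u 2} : Set V)
  root : s.p ≠ 0 → (∀ t, t < s.n → B.root ≠ T t) ∧ G.Adj B.root (T 0)
  r0 : s.p = 0 → T 0 = B.root
  dp : ∀ t, t < s.n → B.dep (T t) = L.getD t 0
  par : ∀ t, t < s.n → t ≠ 0 → T t ≠ B.root ∧ B.par (T t) = T (P.getD t 0)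

theorem pack {B : Bfs G} {u : ℕ → V} {S : St} {h : ℕ → V} (H : Sat B u S h)
    (us : S.us.length = 3) {s : Shp} {Q : List (List ℕ)} {o P L σ : List ℕ} (a : Lg s Q o)
    (b : Sta s P L) (c : Lf S s Q P L σ) : Pk B u s Q P L fun t => h (σ.getD t 0) := by
  obtain ⟨c1, -, c3, c⟩ := c
  have n0 : 0 < s.n := Nat.zero_lt_of_lt ((Shp.wf_ok a.1).l3 0 (by omega))
  have up : ∀ j, j < S.m → j ≠ 0 → G.Adj (h j) (h (S.pr j)) := fun j p q =>
    (H.par j p).2 ▸ B.adj _ (H.ne_root p q)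
  have ed : ∀ u t, u < s.n → t < s.n → Ed P u t → G.Adj (h (σ.getD u 0)) (h (σ.getD t 0)) := by
    rintro u t p q (⟨k, rfl⟩ | ⟨k, rfl⟩)
    · exact ((c u p).2.2.1 k).2 ▸ up _ (c u p).1 ((c u p).2.2.1 k).1
    · exact (((c t q).2.2.1 k).2 ▸ up _ (c t q).1 ((c t q).2.2.1 k).1).symm
  have dp : ∀ u, u < s.n → B.dep (h (σ.getD u 0)) = L.getD u 0 := fun u p =>
    (H.dep _ (c u p).1).trans (c u p).2.1
  have wk : ∀ p q, Wk G p q → B.dep p ≤ B.dep q + 1 ∧ B.dep q ≤ B.dep p + 1 := by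
    rintro p q (rfl | k)
    exacts [by omega, ⟨B.lip _ _ k, B.lip _ _ k.symm⟩]
  refine ⟨fun u t p q e => (c u p).2.2.2 t q (H.inj _ _ (c u p).1 (c t q).1 e),
    fun u t p q e => ed u t p q ((b u p t q).1 e), fun u t p q e k => ?_, fun u t p q e => ?_,
    fun u t p q e ⟨x, k, m⟩ => ?_, fun i p => ?_, fun p => ?_,
    fun p => by rw [if_pos p] at c3; rw [c3, H.root], dp, fun t p q =>
      ⟨H.ne_root (c t p).1 ((c t p).2.2.1 q).1, ((c t p).2.2.1 q).2 ▸ (H.par _ (c t p).1).2⟩⟩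
  · have := wk _ _ (Or.inr k)
    rw [dp u p, dp t q] at this
    rcases (b u p t q).2.1 e with rfl | m
    exacts [k.ne rfl, by omega]
  · obtain ⟨j, j1, j2, j3⟩ := (b u p t q).2.2.1 e
    exact ⟨_, j2.imp (fun k => by rw [k]) (ed u j p j1), j3.imp (fun k => by rw [k]) (ed j t j1 q)⟩
  · have k1 := wk _ _ k
    have k2 := wk _ _ m
    have := (b u p t q).2.2.2 e
    rw [dp u p] at k1
    rw [dp t q] at k2
    omega
  · obtain ⟨k, k1, k2⟩ := List.getElem_of_mem (c1 i p)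
    have := (H.us k k1).2
    rw [List.getD_eq_getElem _ _ k1, k2] at this
    rw [this]
    rcases (by omega : k = 0 ∨ k = 1 ∨ k = 2) with rfl | rfl | rfl <;> simp
  · rw [if_neg p] at c3
    refine ⟨fun t q => (H.ne_root (c t q).1 ?_).symm, ?_⟩
    · by_cases k : t = 0
      exacts [k ▸ c3.1, ((c t q).2.2.1 k).1]
    · have := (up _ (c 0 n0).1 c3.1).symm
      rwa [c3.2, H.root] at this

theorem of_cert {α β : Type} {R : α → β → Prop} {A : List α} {B : List β}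
    (h : List.Forall₂ R A B) {a : α} (m : a ∈ A) : ∃ c, R a c := by
  induction h with
  | nil => cases m
  | cons p _ ih =>
    rcases List.mem_cons.1 m with rfl | m
    exacts [⟨_, p⟩, ih m]

theorem exists_st (B : Bfs G) (u : ℕ → V) :
    ∃ S ∈ (S0.exts.flatMap St.exts).flatMap St.exts, ∃ g, Sat B u S g := by
  have H0 : Sat B u S0 fun _ => B.root := by
    refine ⟨rfl, rfl, Nat.one_pos, fun i j (a : i < 1) (b : j < 1) _ => by omega, rfl,
      fun j (a : j < 1) => ?_, fun j (a : j < 1) => ?_, fun k (a : k < 0) => by omega, by simp [S0],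
      by simp [S0], by simp [S0], by simp [S0]⟩ <;> obtain rfl : j = 0 := by omega
    exacts [⟨Nat.one_pos, B.par_root⟩, B.dep0]
  obtain ⟨S1, a1, g1, H1⟩ := H0.exts
  obtain ⟨S2, a2, g2, H2⟩ := H1.exts
  obtain ⟨S, a3, g, H⟩ := H2.exts
  exact ⟨S, List.mem_flatMap.2 ⟨S2, List.mem_flatMap.2 ⟨S1, a1, a2⟩, a3⟩, g, H⟩

end Pool.Agent.Lib.MP_ad48ef_co.Gl
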