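import Pool.Agent.Lib.MP_ad48ef_co.Front2

/-!
# Every counterexample gives a configuration of one of the shapes
-/

set_option synthInstance.maxSize 4000

namespace Pool.Agent.Lib.MP_ad48ef_co.Gl

open Pool.Agent.Shared.Planar

def SHS : List (Shp × List (List ℕ) × List ℕ × List ℕ × List ℕ) := [
  (S33300 0 0, [[0, 1, 2, 3], [0, 4, 5, 6], [0, 7, 8, 9]], [0, 0, 0],
    [0, 0, 1, 2, 0, 4, 5, 0, 7, 8], [0, 1, 2, 3, 1, 2, 3, 1, 2, 3]),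
  (S33200 0 0, [[0, 1, 2, 3], [0, 4, 5, 6], [0, 7, 8]], [0, 0, 1],
    [0, 0, 1, 2, 0, 4, 5, 0, 7], [0, 1, 2, 3, 1, 2, 3, 1, 2]),
  (S33100 0 0, [[0, 1, 2, 3], [0, 4, 5, 6], [0, 7]], [0, 0, 2],
    [0, 0, 1, 2, 0, 4, 5, 0], [0, 1, 2, 3, 1, 2, 3, 1]),
  (S33000 0 0, [[0, 1, 2, 3], [0, 4, 5, 6], [0]], [0, 0, 3],
    [0, 0, 1, 2, 0, 4, 5], [0, 1, 2, 3, 1, 2, 3]),
  (S32200 0 0, [[0, 1, 2, 3], [0, 4, 5], [0, 6, 7]], [0, 1, 1],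
    [0, 0, 1, 2, 0, 4, 0, 6], [0, 1, 2, 3, 1, 2, 1, 2]),
  (S32100 0 0, [[0, 1, 2, 3], [0, 4, 5], [0, 6]], [0, 1, 2],
    [0, 0, 1, 2, 0, 4, 0], [0, 1, 2, 3, 1, 2, 1]),
  (S22200 0 0, [[0, 1, 2], [0, 3, 4], [0, 5, 6]], [1, 1, 1],
    [0, 0, 1, 0, 3, 0, 5], [0, 1, 2, 1, 2, 1, 2]),
  (S33310 0 0, [[1, 2, 3], [1, 4, 5], [1, 0, 6, 7, 8]], [1, 0, 0],
    [0, 0, 1, 2, 1, 4, 0, 6, 7], [0, 1, 2, 3, 2, 3, 1, 2, 3]),
  (S33210 0 0, [[1, 2, 3], [1, 4, 5], [1, 0, 6, 7]], [1, 0, 1],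
    [0, 0, 1, 2, 1, 4, 0, 6], [0, 1, 2, 3, 2, 3, 1, 2]),
  (S33110 0 0, [[1, 2, 3], [1, 4, 5], [1, 0, 6]], [1, 0, 2],
    [0, 0, 1, 2, 1, 4, 0], [0, 1, 2, 3, 2, 3, 1]),
  (S32310 0 0, [[1, 2, 3], [1, 4], [1, 0, 5, 6, 7]], [1, 1, 0],
    [0, 0, 1, 2, 1, 0, 5, 6], [0, 1, 2, 3, 2, 1, 2, 3]),
  (S32210 0 0, [[1, 2, 3], [1, 4], [1, 0, 5, 6]], [1, 1, 1],
    [0, 0, 1, 2, 1, 0, 5], [0, 1, 2, 3, 2, 1, 2]),
  (S22310 0 0, [[1, 2], [1, 3], [1, 0, 4, 5, 6]], [2, 1, 0],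
    [0, 0, 1, 1, 0, 4, 5], [0, 1, 2, 2, 1, 2, 3]),
  (S31310 0 0, [[1, 2, 3], [1], [1, 0, 4, 5, 6]], [1, 2, 0],
    [0, 0, 1, 2, 0, 4, 5], [0, 1, 2, 3, 1, 2, 3]),
  (S33320 0 0, [[2, 3], [2, 4], [2, 1, 0, 5, 6, 7]], [2, 0, 0],
    [0, 0, 1, 2, 2, 0, 5, 6], [0, 1, 2, 3, 3, 1, 2, 3]),
  (S33220 0 0, [[2, 3], [2, 4], [2, 1, 0, 5, 6]], [2, 0, 1],
    [0, 0, 1, 2, 2, 0, 5], [0, 1, 2, 3, 3, 1, 2]),
  (S32320 0 0, [[2, 3], [2], [2, 1, 0, 4, 5, 6]], [2, 1, 0],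
    [0, 0, 1, 2, 0, 4, 5], [0, 1, 2, 3, 1, 2, 3]),
  (S33330 0 0, [[3], [3], [3, 2, 1, 0, 4, 5, 6]], [3, 0, 0],
    [0, 0, 1, 2, 0, 4, 5], [0, 1, 2, 3, 1, 2, 3]),
  (S33311 0 0, [[0, 1, 2], [0, 3, 4], [0, 5, 6]], [1, 1, 1],
    [0, 0, 1, 0, 3, 0, 5], [1, 2, 3, 2, 3, 2, 3]),
  (S33211 0 0, [[0, 1, 2], [0, 3, 4], [0, 5]], [1, 1, 2],
    [0, 0, 1, 0, 3, 0], [1, 2, 3, 2, 3, 2]),
  (S33321 0 0, [[1, 2], [1, 3], [1, 0, 4, 5]], [2, 1, 1],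
    [0, 0, 1, 1, 0, 4], [1, 2, 3, 3, 2, 3])]

def CERT : List (ℕ × List ℕ) := [
  (99, []), (99, []), (99, []), (99, []), (99, []), (99, []), (99, []), (99, []), (99, []),
  (99, []), (99, []), (99, []), (99, []), (99, []), (99, []), (99, []), (99, []), (99, []),
  (99, []), (99, []), (99, []), (99, []), (99, []), (3, [0, 1, 2, 3, 4, 5, 6]), (99, []),
  (99, []), (99, []), (99, []), (99, []), (99, []), (99, []), (99, []), (99, []), (99, []),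
  (99, []), (99, []), (99, []), (99, []), (99, []), (99, []), (99, []), (99, []), (99, []),
  (99, []), (99, []), (99, []), (99, []), (99, []), (99, []), (99, []),
  (5, [0, 4, 5, 6, 2, 3, 1]), (99, []), (99, []), (99, []), (99, []), (99, []), (99, []),
  (99, []), (99, []), (99, []), (99, []), (5, [0, 2, 3, 4, 5, 6, 1]),
  (2, [0, 2, 3, 4, 5, 6, 7, 1]), (99, []), (99, []), (13, [0, 1, 5, 6, 2, 3, 4]), (99, []),
  (99, []), (9, [0, 2, 3, 4, 5, 6, 1]), (99, []), (99, []), (99, []), (99, []), (99, []),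
  (99, []), (99, []), (99, []), (99, []), (99, []), (99, []), (99, []), (99, []), (99, []),
  (99, []), (99, []), (99, []), (99, []), (99, []), (99, []), (99, []), (99, []),
  (13, [0, 1, 2, 3, 4, 5, 6]), (99, []), (99, []), (99, []), (99, []), (99, []), (99, []),
  (99, []), (99, []), (99, []), (99, []), (99, []), (99, []), (99, []), (99, []), (99, []),
  (99, []), (99, []), (99, []), (5, [0, 4, 5, 6, 1, 2, 3]), (99, []), (99, []), (99, []),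
  (99, []), (99, []), (99, []), (99, []), (99, []), (99, []), (99, []),
  (6, [0, 1, 2, 3, 4, 5, 6]), (4, [0, 5, 6, 7, 1, 2, 3, 4]), (99, []), (99, []),
  (11, [0, 1, 5, 6, 2, 3, 4]), (99, []), (99, []), (99, []), (99, []),
  (11, [0, 3, 5, 6, 4, 1, 2]), (99, []), (99, []), (99, []), (5, [0, 3, 4, 5, 1, 2, 6]),
  (4, [0, 3, 4, 5, 1, 2, 6, 7]), (1, [0, 3, 4, 5, 6, 7, 8, 1, 2]), (99, []),
  (12, [0, 1, 2, 6, 3, 4, 5]), (10, [0, 1, 6, 7, 2, 3, 4, 5]), (99, []),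
  (16, [0, 1, 2, 6, 3, 4, 5]), (99, []), (11, [0, 3, 4, 5, 6, 1, 2]),
  (8, [0, 3, 4, 5, 6, 7, 1, 2]), (99, []), (15, [0, 3, 4, 5, 6, 1, 2]), (99, []), (99, []),
  (99, []), (99, []), (99, []), (99, []), (99, []), (99, []), (99, []), (99, []), (99, []),
  (99, []), (99, []), (12, [0, 1, 2, 3, 4, 5, 6]), (99, []), (99, []), (99, []), (99, []),
  (99, []), (99, []), (99, []), (99, []), (99, []), (11, [0, 1, 3, 4, 2, 5, 6]),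
  (10, [0, 1, 3, 4, 2, 5, 6, 7]), (99, []), (99, []), (19, [1, 3, 4, 5, 6, 2]), (99, []),
  (99, []), (99, []), (99, []), (99, []), (99, []), (99, []), (99, []), (99, []), (99, []),
  (99, []), (99, []), (99, []), (99, []), (99, []), (99, []), (99, []),
  (16, [0, 1, 2, 3, 4, 5, 6]), (99, []), (99, []), (99, []), (99, []), (99, []), (99, []),
  (99, []), (99, []), (99, []), (3, [0, 1, 2, 3, 4, 5, 6]), (99, []), (99, []), (99, []),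
  (99, []), (99, []), (99, []), (99, []), (99, []), (5, [0, 1, 2, 3, 5, 6, 4]),
  (2, [0, 1, 2, 3, 5, 6, 7, 4]), (99, []), (99, []), (9, [0, 1, 2, 3, 5, 6, 4]), (99, []),
  (99, []), (99, []), (99, []), (99, []), (13, [0, 4, 5, 6, 1, 2, 3]), (99, []),
  (5, [0, 1, 2, 3, 4, 5, 6]), (4, [0, 1, 2, 3, 4, 5, 6, 7]), (1, [0, 1, 2, 3, 6, 7, 8, 4, 5]),
  (99, []), (11, [0, 1, 2, 3, 6, 4, 5]), (8, [0, 1, 2, 3, 6, 7, 4, 5]), (99, []),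
  (15, [0, 1, 2, 3, 6, 4, 5]), (99, []), (99, []), (12, [0, 4, 5, 6, 1, 2, 3]),
  (10, [0, 4, 6, 7, 5, 1, 2, 3]), (99, []), (16, [0, 4, 5, 6, 1, 2, 3]),
  (3, [0, 1, 2, 3, 4, 5, 6]), (2, [0, 1, 2, 3, 4, 5, 6, 7]), (1, [0, 1, 2, 3, 4, 5, 6, 7, 8]),
  (0, [0, 1, 2, 3, 4, 5, 6, 7, 8, 9]), (13, [0, 1, 2, 3, 4, 5, 6]),
  (10, [0, 1, 2, 3, 7, 4, 5, 6]), (7, [0, 1, 2, 3, 7, 8, 4, 5, 6]), (16, [0, 1, 2, 3, 4, 5, 6]),
  (14, [0, 1, 2, 3, 7, 4, 5, 6]), (17, [0, 1, 2, 3, 4, 5, 6]), (13, [0, 4, 5, 6, 1, 2, 3]),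
  (10, [0, 4, 5, 6, 7, 1, 2, 3]), (7, [0, 4, 5, 6, 7, 8, 1, 2, 3]), (16, [0, 4, 5, 6, 1, 2, 3]),
  (14, [0, 4, 5, 6, 7, 1, 2, 3]), (17, [0, 1, 2, 3, 4, 5, 6]), (99, []), (99, []), (99, []),
  (13, [0, 1, 2, 3, 4, 5, 6]), (99, []), (99, []), (99, []), (99, []), (99, []), (99, []),
  (99, []), (99, []), (11, [0, 1, 2, 3, 4, 5, 6]), (10, [0, 1, 2, 3, 4, 5, 6, 7]), (99, []),
  (99, []), (19, [1, 2, 3, 5, 6, 4]), (99, []), (99, []), (99, []), (99, []), (99, []), (99, []),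
  (9, [0, 1, 2, 3, 4, 5, 6]), (8, [0, 1, 2, 3, 4, 5, 6, 7]), (7, [0, 1, 2, 3, 4, 5, 6, 7, 8]),
  (99, []), (19, [1, 2, 3, 4, 5, 6]), (18, [1, 2, 3, 4, 5, 6, 7]), (99, []),
  (20, [1, 2, 3, 6, 4, 5]), (99, []), (99, []), (20, [1, 4, 5, 6, 2, 3]), (99, []), (99, []),
  (99, []), (99, []), (16, [0, 1, 2, 3, 4, 5, 6]), (99, []), (99, []), (99, []), (99, []),
  (99, []), (99, []), (99, []), (99, []), (15, [0, 1, 2, 3, 4, 5, 6]),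
  (14, [0, 1, 2, 3, 4, 5, 6, 7]), (99, []), (99, []), (20, [1, 2, 3, 4, 5, 6]), (99, []),
  (99, []), (99, []), (99, []), (99, []), (99, []), (99, []), (17, [0, 1, 2, 3, 4, 5, 6]),
  (99, []), (99, []), (99, []), (99, []), (99, []), (99, [])]

theorem shs_ok : ∀ x ∈ SHS, Lg x.1 x.2.1 x.2.2.1 ∧ Sta x.1 x.2.2.2.1 x.2.2.2.2 := by
  decide +kernel

def Good (S : St) (c : ℕ × List ℕ) : Prop := S.us.length = 3 ∧ (S.m = 1 ∨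
  if c.1 = 99 then Small 6 S (List.range S.m) else
    ∃ x ∈ SHS[c.1]?, Lf S x.1 x.2.1 x.2.2.2.1 x.2.2.2.2 c.2)

instance {S c} : Decidable (Good S c) := by unfold Good; infer_instance

theorem cert_ok : List.Forall₂ Good ((S0.exts.flatMap St.exts).flatMap St.exts) CERT := by
  decide +kernel

variable {V : Type} {G : SimpleGraph V}

theorem leaf [Finite V] {E : Env G 6} {S : St} {h : ℕ → V} (H : Sat E.B E.u S h)
    (us : S.us.length = 3) {s : Shp} {Q : List (List ℕ)} {o P L σ : List ℕ} (a : Lg s Q o)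
    (b : Sta s P L) (c : Lf S s Q P L σ) {d lo : ℕ} (d0 : d ≠ 0)
    (hi : ∀ l : List V, l.Nodup → (∀ y ∈ l, G.Adj E.B.root y) → l.length ≤ d)
    (hl : ∀ v, ∃ l : List V, l.Nodup ∧ (∀ x ∈ l, G.Adj v x) ∧ lo ≤ l.length) :
    Nonempty (Cfg (s.set d lo)) := by
  have K := pack H us a b c
  have n0 : 0 < s.n := Nat.zero_lt_of_lt ((Shp.wf_ok a.1).l3 0 (by omega))
  refine exists_cfg (s := s.set d lo) a _ E.B.root K.inj K.sa K.sn K.s2 K.sf (E.ht.mono ?_) E.d3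
    E.nd d0 (fun v => ?_) K.root (fun p => by rw [K.r0 p]; exact hi) hl
  · have : ∀ a ∈ ({h (σ.getD (qv Q 0 (ql Q 0)) 0), h (σ.getD (qv Q 1 (ql Q 1)) 0),
        h (σ.getD (qv Q 2 (ql Q 2)) 0)} : Set V), a ∈ ({E.u 0, E.u 1, E.u 2} : Set V) := by
      rintro a (rfl | rfl | rfl) <;> exact K.en _ (by omega)
    rintro (_ | a) (_ | b) e
    exacts [e, this _ e, this _ e, e]
  · obtain ⟨k, -, n, -, p, q⟩ := H.dom us v
    rcases c.2.1 _ p with ⟨t, a, b⟩ | ⟨a, b⟩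
    · exact Or.inl ⟨t, a, b ▸ q⟩
    rw [b, H.root] at q
    exact q.elim (fun k => Or.inl ⟨0, n0, Or.inr (k ▸ (K.root a).2)⟩) fun k => Or.inr ⟨a, k⟩

theorem no_cex [Finite V] {d lo : ℕ} (hT : ∀ x ∈ SHS, Cfg (x.1.set d lo) → False) (h : HT G)
    (d3 : D3 G) {x y : V} (e : G.Adj x y)
    (hi : ∀ l : List V, l.Nodup → (∀ y ∈ l, G.Adj x y) → l.length ≤ d)
    (hl : ∀ v, ∃ l : List V, l.Nodup ∧ (∀ x ∈ l, G.Adj v x) ∧ lo ≤ l.length) : ¬ ND G 6 := by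
  intro nd
  obtain ⟨E, rfl⟩ := exists_env h d3 nd e
  obtain ⟨S, m, g, H⟩ := exists_st E.B E.u
  obtain ⟨c, us, k⟩ := of_cert cert_ok m
  rcases k with k | k
  · obtain ⟨v, hv⟩ := nd [E.B.root, y] (by simp)
    obtain ⟨k, -, n, -, p, q⟩ := H.dom us v
    rw [show S.anc k n = 0 by omega, H.root] at q
    rcases q with rfl | q
    exacts [hv y (by simp) e, hv _ (by simp) q]
  split_ifs at k
  · exact H.small k
  · obtain ⟨z, p, q⟩ := k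
    have := List.mem_of_getElem? p
    obtain ⟨C⟩ := leaf H us (shs_ok z this).1 (shs_ok z this).2 q
      (by have := hi [y] (by simp) (by simpa using e); simp at this; omega) hi hl
    exact hT z this C

end Pool.Agent.Lib.MP_ad48ef_co.Gl
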