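import Pool.Agent.Lib.MP_ad48ef_co.Front2
import Pool.Agent.Lib.MP_ad48ef_co.Env3
import Pool.Agent.Lib.MP_ad48ef_co.Diam

/-!
# Every counterexample gives a configuration in sink mode
-/

set_option synthInstance.maxSize 4000

namespace Pool.Agent.Lib.MP_ad48ef_co.Gl

open Pool.Agent.Shared.Planar

def SH3 : List ((Shp × List (List ℕ) × List ℕ × List ℕ × List ℕ) × List ℕ) := [
  ((S33300 0 0, [[0, 1, 2, 3], [0, 4, 5, 6], [0, 7, 8, 9]], [0, 0, 0],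
    [0, 0, 1, 2, 0, 4, 5, 0, 7, 8], [0, 1, 2, 3, 1, 2, 3, 1, 2, 3]),
    [0x2002002020020020200200203324]),
  ((S33200 0 0, [[0, 1, 2, 3], [0, 4, 5, 6], [0, 7, 8]], [0, 0, 1],
    [0, 0, 1, 2, 0, 4, 5, 0, 7], [0, 1, 2, 3, 1, 2, 3, 1, 2]),
    [0x2002000000020020200200203323, 0x200200000002002020020020332a]),
  ((S33100 0 0, [[0, 1, 2, 3], [0, 4, 5, 6], [0, 7]], [0, 0, 2],
    [0, 0, 1, 2, 0, 4, 5, 0], [0, 1, 2, 3, 1, 2, 3, 1]),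
    [0x2002000000020020200200203323, 0x200200000002002020020020332a]),
  ((S33000 0 0, [[0, 1, 2, 3], [0, 4, 5, 6], [0]], [0, 0, 3],
    [0, 0, 1, 2, 0, 4, 5], [0, 1, 2, 3, 1, 2, 3]),
    [0x2002000000020020200200203323, 0x200200000002002020020020332a]),
  ((S32200 0 0, [[0, 1, 2, 3], [0, 4, 5], [0, 6, 7]], [0, 1, 1],
    [0, 0, 1, 2, 0, 4, 0, 6], [0, 1, 2, 3, 1, 2, 1, 2]),
    [0x2002000000020000000200203311]),
  ((S32100 0 0, [[0, 1, 2, 3], [0, 4, 5], [0, 6]], [0, 1, 2],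
    [0, 0, 1, 2, 0, 4, 0], [0, 1, 2, 3, 1, 2, 1]),
    [0x2002000000020000000200203311]),
  ((S32000 0 0, [[0, 1, 2, 3], [0, 4, 5], [0]], [0, 1, 3],
    [0, 0, 1, 2, 0, 4], [0, 1, 2, 3, 1, 2]),
    [0x2002000000020000000200203311]),
  ((S31100 0 0, [[0, 1, 2, 3], [0, 4], [0, 5]], [0, 2, 2],
    [0, 0, 1, 2, 0, 0], [0, 1, 2, 3, 1, 1]),
    [0x2002000000020000000200203311]),
  ((S22200 0 0, [[0, 1, 2], [0, 3, 4], [0, 5, 6]], [1, 1, 1],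
    [0, 0, 1, 0, 3, 0, 5], [0, 1, 2, 1, 2, 1, 2]),
    [0x2000000020000000200003308]),
  ((S22100 0 0, [[0, 1, 2], [0, 3, 4], [0, 5]], [1, 1, 2],
    [0, 0, 1, 0, 3, 0], [0, 1, 2, 1, 2, 1]),
    [0x2000000020000000200003308]),
  ((S33310 0 0, [[1, 2, 3], [1, 4, 5], [1, 0, 6, 7, 8]], [1, 0, 0],
    [0, 0, 1, 2, 1, 4, 0, 6, 7], [0, 1, 2, 3, 2, 3, 1, 2, 3]),
    [0x2002002020020020020002003323, 0x200200202002002002000200332a]),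
  ((S33210 0 0, [[1, 2, 3], [1, 4, 5], [1, 0, 6, 7]], [1, 0, 1],
    [0, 0, 1, 2, 1, 4, 0, 6], [0, 1, 2, 3, 2, 3, 1, 2]),
    [0x2002000000020020020002003311]),
  ((S33110 0 0, [[1, 2, 3], [1, 4, 5], [1, 0, 6]], [1, 0, 2],
    [0, 0, 1, 2, 1, 4, 0], [0, 1, 2, 3, 2, 3, 1]),
    [0x2002000000020020020002003311]),
  ((S33010 0 0, [[1, 2, 3], [1, 4, 5], [1, 0]], [1, 0, 3],
    [0, 0, 1, 2, 1, 4], [0, 1, 2, 3, 2, 3]),
    [0x2002000000020020020002003311]),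
  ((S32310 0 0, [[1, 2, 3], [1, 4], [1, 0, 5, 6, 7]], [1, 1, 0],
    [0, 0, 1, 2, 1, 0, 5, 6], [0, 1, 2, 3, 2, 1, 2, 3]),
    [0x2002002020020000000002003323, 0x200200202002000000000200332a]),
  ((S32210 0 0, [[1, 2, 3], [1, 4], [1, 0, 5, 6]], [1, 1, 1],
    [0, 0, 1, 2, 1, 0, 5], [0, 1, 2, 3, 2, 1, 2]),
    [0x2002000000020000000002003311]),
  ((S32110 0 0, [[1, 2, 3], [1, 4], [1, 0, 5]], [1, 1, 2],
    [0, 0, 1, 2, 1, 0], [0, 1, 2, 3, 2, 1]),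
    [0x2002000000020000000002003311]),
  ((S31310 0 0, [[1, 2, 3], [1], [1, 0, 4, 5, 6]], [1, 2, 0],
    [0, 0, 1, 2, 0, 4, 5], [0, 1, 2, 3, 1, 2, 3]),
    [0x2002002020020000000002003323, 0x200200202002000000000200332a]),
  ((S31210 0 0, [[1, 2, 3], [1], [1, 0, 4, 5]], [1, 2, 1],
    [0, 0, 1, 2, 0, 4], [0, 1, 2, 3, 1, 2]),
    [0x2002000000020000000002003311]),
  ((S22310 0 0, [[1, 2], [1, 3], [1, 0, 4, 5, 6]], [2, 1, 0],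
    [0, 0, 1, 1, 0, 4, 5], [0, 1, 2, 2, 1, 2, 3]),
    [0x2002020020000000000003311]),
  ((S22210 0 0, [[1, 2], [1, 3], [1, 0, 4, 5]], [2, 1, 1],
    [0, 0, 1, 1, 0, 4], [0, 1, 2, 2, 1, 2]),
    [0x2000000020000000000003308]),
  ((S21310 0 0, [[1, 2], [1], [1, 0, 3, 4, 5]], [2, 2, 0],
    [0, 0, 1, 0, 3, 4], [0, 1, 2, 1, 2, 3]),
    [0x2002020020000000000003311]),
  ((S33320 0 0, [[2, 3], [2, 4], [2, 1, 0, 5, 6, 7]], [2, 0, 0],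
    [0, 0, 1, 2, 2, 0, 5, 6], [0, 1, 2, 3, 3, 1, 2, 3]),
    [0x2002002020020020002020003323, 0x200200202002002000202000332a]),
  ((S33220 0 0, [[2, 3], [2, 4], [2, 1, 0, 5, 6]], [2, 0, 1],
    [0, 0, 1, 2, 2, 0, 5], [0, 1, 2, 3, 3, 1, 2]),
    [0x2002000000020020002020003311]),
  ((S33120 0 0, [[2, 3], [2, 4], [2, 1, 0, 5]], [2, 0, 2],
    [0, 0, 1, 2, 2, 0], [0, 1, 2, 3, 3, 1]),
    [0x2002000000020020002020003311]),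
  ((S32320 0 0, [[2, 3], [2], [2, 1, 0, 4, 5, 6]], [2, 1, 0],
    [0, 0, 1, 2, 0, 4, 5], [0, 1, 2, 3, 1, 2, 3]),
    [0x2002002020020000000020003323, 0x200200202002000000002000332a]),
  ((S32220 0 0, [[2, 3], [2], [2, 1, 0, 4, 5]], [2, 1, 1],
    [0, 0, 1, 2, 0, 4], [0, 1, 2, 3, 1, 2]),
    [0x2002000000020000000020003311]),
  ((S33311 0 0, [[0, 1, 2], [0, 3, 4], [0, 5, 6]], [1, 1, 1],
    [0, 0, 1, 0, 3, 0, 5], [1, 2, 3, 2, 3, 2, 3]),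
    [0x200020002000200020002003309]),
  ((S33211 0 0, [[0, 1, 2], [0, 3, 4], [0, 5]], [1, 1, 2],
    [0, 0, 1, 0, 3, 0], [1, 2, 3, 2, 3, 2]),
    [0x200000000000200020002003309]),
  ((S33321 0 0, [[1, 2], [1, 3], [1, 0, 4, 5]], [2, 1, 1],
    [0, 0, 1, 1, 0, 4], [1, 2, 3, 3, 2, 3]),
    [0x200020002000200002020003309])]

def CERT3 : List (ℕ × List ℕ) := [
  (99, []), (99, []), (99, []), (99, []), (99, []), (99, [0, 1, 2]), (99, [0, 1, 2, 3]),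
  (99, [0, 1, 2, 3, 4]), (99, []), (99, [0, 1, 2]), (99, [0, 1, 2, 3]), (99, []),
  (99, [0, 1, 2, 3]), (99, [0, 1, 2, 3, 4]), (6, [0, 3, 4, 5, 1, 2]), (99, [0, 1, 2]),
  (99, [0, 1, 2, 3]), (99, [0, 1, 2, 3, 4]), (99, []), (99, [0, 1, 2, 3]), (99, []),
  (99, [0, 1, 2, 3, 4]), (6, [0, 1, 2, 3, 4, 5]), (3, [0, 1, 2, 3, 4, 5, 6]), (99, [0, 1, 2, 3]),
  (99, [0, 1, 2, 3, 4]), (13, [0, 1, 2, 3, 4, 5]), (99, [0, 1, 2, 3]), (99, [0, 1, 2, 3, 4]),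
  (99, []), (99, []), (99, [0, 1, 2]), (99, [0, 1, 2, 3]), (99, [0, 1, 2, 3, 4]), (99, []),
  (99, [0, 1, 2]), (99, [0, 1, 2, 3]), (99, [0, 1, 2]), (99, [0, 1, 2, 3]),
  (99, [0, 1, 2, 3, 4]), (7, [0, 3, 4, 5, 1, 2]), (99, []), (99, [0, 1, 2, 3]),
  (99, [0, 1, 2, 3, 4]), (99, []), (99, [0, 1, 2, 3]), (99, [0, 1, 2, 3, 4]), (99, [0, 1, 2, 3]),
  (99, [0, 1, 2, 3, 4]), (9, [0, 2, 3, 4, 5, 1]), (5, [0, 4, 5, 6, 2, 3, 1]), (99, []),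
  (99, [0, 1, 2, 3, 4]), (18, [0, 1, 4, 5, 2, 3]), (99, [0, 1, 2, 3]), (99, [0, 1, 2, 3, 4]),
  (16, [0, 2, 4, 5, 3, 1]), (99, []), (99, [0, 1, 2, 3, 4]), (99, [0, 1, 2, 3, 4]),
  (7, [0, 2, 3, 4, 1, 5]), (5, [0, 2, 3, 4, 5, 6, 1]), (2, [0, 2, 3, 4, 5, 6, 7, 1]), (99, []),
  (21, [0, 1, 5, 2, 3, 4]), (17, [0, 1, 5, 6, 2, 3, 4]), (99, [0, 1, 2, 3, 4]),
  (16, [0, 2, 3, 4, 5, 1]), (12, [0, 2, 3, 4, 5, 6, 1]), (99, [0, 1, 2, 3, 4]),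
  (24, [0, 2, 3, 4, 5, 1]), (99, []), (99, []), (99, []), (99, []), (99, []), (99, []), (99, []),
  (99, []), (99, [0, 1, 2]), (99, [0, 1, 2, 3]), (99, [0, 1, 2, 3, 4]), (21, [0, 1, 2, 3, 4, 5]),
  (99, []), (99, [1, 2, 3]), (99, [1, 2, 3, 4]), (99, []), (99, [1, 2, 3]), (99, [0, 1, 2, 3]),
  (99, [0, 1, 2, 3, 4]), (18, [0, 1, 2, 3, 4, 5]), (17, [0, 1, 2, 3, 4, 5, 6]), (99, []),
  (99, [1, 2, 3, 4]), (99, [1, 2, 3, 4, 5]), (99, [1, 2, 3]), (99, [1, 2, 3, 4]), (99, []),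
  (99, []), (99, [0, 1, 2, 3]), (99, [0, 1, 2, 3, 4]), (6, [0, 3, 4, 5, 1, 2]), (99, [0, 1, 2]),
  (99, [0, 1, 2, 3]), (99, [0, 1, 2, 3, 4]), (99, []), (99, [0, 1, 2, 3]), (99, [0, 1, 2, 3]),
  (99, [0, 1, 2, 3, 4]), (9, [0, 1, 2, 4, 5, 3]), (5, [0, 4, 5, 6, 1, 2, 3]), (99, [0, 1, 2, 3]),
  (99, [0, 1, 2, 3, 4]), (16, [0, 1, 4, 5, 2, 3]), (99, []), (99, [0, 1, 2, 3, 4]), (99, []),
  (99, [0, 1, 2, 3, 4]), (18, [0, 3, 4, 5, 1, 2]), (99, [0, 1, 2, 3, 4]),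
  (9, [0, 1, 2, 3, 4, 5]), (8, [0, 1, 2, 3, 4, 5, 6]), (4, [0, 5, 6, 7, 1, 2, 3, 4]),
  (99, [0, 1, 2, 3, 4]), (20, [0, 1, 2, 5, 3, 4]), (15, [0, 1, 5, 6, 2, 3, 4]), (99, []),
  (26, [0, 1, 2, 5, 3, 4]), (99, [0, 1, 2, 3, 4]), (20, [0, 3, 4, 5, 1, 2]),
  (15, [0, 3, 5, 6, 4, 1, 2]), (99, []), (26, [0, 3, 4, 5, 1, 2]), (6, [0, 3, 4, 5, 1, 2]),
  (5, [0, 3, 4, 5, 1, 2, 6]), (4, [0, 3, 4, 5, 1, 2, 6, 7]), (1, [0, 3, 4, 5, 6, 7, 8, 1, 2]),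
  (21, [0, 1, 2, 3, 4, 5]), (19, [0, 1, 2, 6, 3, 4, 5]), (14, [0, 1, 6, 7, 2, 3, 4, 5]),
  (99, []), (25, [0, 1, 2, 6, 3, 4, 5]), (18, [0, 3, 4, 5, 1, 2]), (15, [0, 3, 4, 5, 6, 1, 2]),
  (11, [0, 3, 4, 5, 6, 7, 1, 2]), (26, [0, 3, 4, 5, 1, 2]), (23, [0, 3, 4, 5, 6, 1, 2]),
  (99, []), (99, [0, 1, 2]), (99, [0, 1, 2, 3]), (99, [0, 1, 2, 3, 4]), (21, [0, 1, 2, 3, 4, 5]),
  (99, []), (99, [1, 2, 3]), (99, [1, 2, 3, 4]), (99, []), (99, [1, 2, 3]), (99, [0, 1, 2, 3]),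
  (99, [0, 1, 2, 3, 4]), (20, [0, 1, 2, 3, 4, 5]), (19, [0, 1, 2, 3, 4, 5, 6]), (99, [1, 2, 3]),
  (99, [1, 2, 3, 4]), (99, [1, 2, 3, 4, 5]), (99, []), (99, [1, 2, 3, 4]), (99, []),
  (99, [1, 2, 3, 4]), (99, [0, 1, 2, 3, 4]), (16, [0, 1, 3, 4, 2, 5]),
  (15, [0, 1, 3, 4, 2, 5, 6]), (14, [0, 1, 3, 4, 2, 5, 6, 7]), (99, [1, 2, 3, 4]),
  (99, [1, 2, 3, 4, 5]), (28, [1, 3, 4, 5, 6, 2]), (99, []), (99, [1, 2, 3, 4, 5]),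
  (99, [1, 2, 3, 4]), (99, [1, 2, 3, 4, 5]), (99, []), (99, []), (99, []), (99, []), (99, []),
  (99, []), (99, []), (99, []), (99, []), (99, []), (99, [0, 1, 2, 3]), (99, [0, 1, 2, 3, 4]),
  (26, [0, 1, 2, 3, 4, 5]), (25, [0, 1, 2, 3, 4, 5, 6]), (99, [1, 2, 3]), (99, [1, 2, 3, 4]),
  (99, [1, 2, 3, 4, 5]), (99, []), (99, [2, 3, 4]), (99, []), (99, []), (99, [0, 1, 2, 3, 4]),
  (6, [0, 1, 2, 3, 4, 5]), (3, [0, 1, 2, 3, 4, 5, 6]), (99, [0, 1, 2, 3]), (99, [0, 1, 2, 3, 4]),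
  (13, [0, 1, 2, 3, 4, 5]), (99, [0, 1, 2, 3]), (99, [0, 1, 2, 3, 4]), (99, []),
  (99, [0, 1, 2, 3, 4]), (7, [0, 1, 2, 3, 4, 5]), (5, [0, 1, 2, 3, 5, 6, 4]),
  (2, [0, 1, 2, 3, 5, 6, 7, 4]), (99, [0, 1, 2, 3, 4]), (16, [0, 1, 2, 3, 5, 4]),
  (12, [0, 1, 2, 3, 5, 6, 4]), (99, [0, 1, 2, 3, 4]), (24, [0, 1, 2, 3, 5, 4]), (99, []),
  (99, []), (21, [0, 4, 5, 1, 2, 3]), (17, [0, 4, 5, 6, 1, 2, 3]), (6, [0, 1, 2, 3, 4, 5]),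
  (5, [0, 1, 2, 3, 4, 5, 6]), (4, [0, 1, 2, 3, 4, 5, 6, 7]), (1, [0, 1, 2, 3, 6, 7, 8, 4, 5]),
  (18, [0, 1, 2, 3, 4, 5]), (15, [0, 1, 2, 3, 6, 4, 5]), (11, [0, 1, 2, 3, 6, 7, 4, 5]),
  (26, [0, 1, 2, 3, 4, 5]), (23, [0, 1, 2, 3, 6, 4, 5]), (99, []), (21, [0, 4, 5, 1, 2, 3]),
  (19, [0, 4, 5, 6, 1, 2, 3]), (14, [0, 4, 6, 7, 5, 1, 2, 3]), (99, []),
  (25, [0, 4, 5, 6, 1, 2, 3]), (3, [0, 1, 2, 3, 4, 5, 6]), (2, [0, 1, 2, 3, 4, 5, 6, 7]),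
  (1, [0, 1, 2, 3, 4, 5, 6, 7, 8]), (0, [0, 1, 2, 3, 4, 5, 6, 7, 8, 9]),
  (17, [0, 1, 2, 3, 4, 5, 6]), (14, [0, 1, 2, 3, 7, 4, 5, 6]), (10, [0, 1, 2, 3, 7, 8, 4, 5, 6]),
  (25, [0, 1, 2, 3, 4, 5, 6]), (22, [0, 1, 2, 3, 7, 4, 5, 6]), (99, []),
  (17, [0, 4, 5, 6, 1, 2, 3]), (14, [0, 4, 5, 6, 7, 1, 2, 3]), (10, [0, 4, 5, 6, 7, 8, 1, 2, 3]),
  (25, [0, 4, 5, 6, 1, 2, 3]), (22, [0, 4, 5, 6, 7, 1, 2, 3]), (99, []), (99, [0, 1, 2, 3]),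
  (99, [0, 1, 2, 3, 4]), (18, [0, 1, 2, 3, 4, 5]), (17, [0, 1, 2, 3, 4, 5, 6]), (99, []),
  (99, [1, 2, 3, 4]), (99, [1, 2, 3, 4, 5]), (99, [1, 2, 3]), (99, [1, 2, 3, 4]), (99, []),
  (99, [0, 1, 2, 3, 4]), (16, [0, 1, 2, 3, 4, 5]), (15, [0, 1, 2, 3, 4, 5, 6]),
  (14, [0, 1, 2, 3, 4, 5, 6, 7]), (99, [1, 2, 3, 4]), (99, [1, 2, 3, 4, 5]),
  (28, [1, 2, 3, 5, 6, 4]), (99, [1, 2, 3, 4]), (99, [1, 2, 3, 4, 5]), (99, []), (99, []),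
  (99, [1, 2, 3, 4, 5]), (13, [0, 1, 2, 3, 4, 5]), (12, [0, 1, 2, 3, 4, 5, 6]),
  (11, [0, 1, 2, 3, 4, 5, 6, 7]), (10, [0, 1, 2, 3, 4, 5, 6, 7, 8]), (99, [1, 2, 3, 4, 5]),
  (28, [1, 2, 3, 4, 5, 6]), (27, [1, 2, 3, 4, 5, 6, 7]), (99, [1, 2, 3, 4, 5]),
  (29, [1, 2, 3, 6, 4, 5]), (99, []), (99, [1, 2, 3, 4, 5]), (29, [1, 4, 5, 6, 2, 3]), (99, []),
  (99, [0, 1, 2, 3]), (99, [0, 1, 2, 3, 4]), (26, [0, 1, 2, 3, 4, 5]),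
  (25, [0, 1, 2, 3, 4, 5, 6]), (99, [1, 2, 3]), (99, [1, 2, 3, 4]), (99, [1, 2, 3, 4, 5]),
  (99, []), (99, [2, 3, 4]), (99, []), (99, [0, 1, 2, 3, 4]), (24, [0, 1, 2, 3, 4, 5]),
  (23, [0, 1, 2, 3, 4, 5, 6]), (22, [0, 1, 2, 3, 4, 5, 6, 7]), (99, [1, 2, 3, 4]),
  (99, [1, 2, 3, 4, 5]), (29, [1, 2, 3, 4, 5, 6]), (99, [2, 3, 4]), (99, [2, 3, 4, 5]), (99, []),
  (99, []), (99, []), (99, []), (99, []), (99, []), (99, []), (99, []), (99, []), (99, []),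
  (99, []), (99, [])]

def WT (_ : ℕ) : ℕ := 0x2002200203300

def Od (P L : List ℕ) (o x y : ℕ) : Prop := x ≠ 0 ∧ L.getD x 0 = L.getD y 0 + 1 ∧
  ((o % 16 = P.getD x 0 ∧ o / 16 = y ∧ P.getD x 0 ≠ y) ∨ (L.getD y 0 = 2 ∧ P.getD x 0 ≠ 0 ∧ y ≠ 0 ∧
    o % 16 = P.getD (P.getD x 0) 0 ∧ o / 16 = P.getD y 0 ∧ P.getD (P.getD x 0) 0 ≠ P.getD y 0))

instance {P L o x y} : Decidable (Od P L o x y) := by unfold Od; infer_instance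

def Oe (P L : List ℕ) (o x y : ℕ) : Prop := x ≠ 0 ∧ P.getD x 0 ≠ 0 ∧ L.getD x 0 = 3 ∧
  L.getD y 0 = 1 ∧ o % 16 = P.getD (P.getD x 0) 0 ∧ o / 16 = y ∧ P.getD (P.getD x 0) 0 ≠ y

instance {P L o x y} : Decidable (Oe P L o x y) := by unfold Oe; infer_instance

/-- The weights in the mode of `s` are those of the code `ω`. -/
def Wm (s : Shp) (P L : List ℕ) (ω : ℕ) : Prop :=
  s.h3 = ω.testBit 6 ∧ s.wh = nb ω 2 ∧ s.jh = ω / 4096 % 256 ∧ ∀ X < 3, ∀ i < 7, s.loc X i < s.n →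
    s.w X i = nb ω ((if ∃ a < s.n, ∃ b < s.n, a ≠ b ∧ s.pos X a < 7 ∧ s.pos X b < 7 ∧
      Ed P (s.loc X i) a ∧ Ed P (s.loc X i) b then 5 else 9) + L.getD (s.loc X i) 0)

noncomputable instance {s P L ω} : Decidable (Wm s P L ω) := by unfold Wm; infer_instance

/-- The tables of the sink mode follow from the parents and levels, and the list `M` of modes
covers all cases. -/
def St3 (s : Shp) (Q : List (List ℕ)) (P L M : List ℕ) : Prop :=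
  (∀ i < 3, ∀ j < 3, qv Q i (ql Q i) = qv Q j (ql Q j) → i = j) ∧
  (∀ X < 3, ∀ t < s.n, s.pos X t < 7 → t ≠ s.loc X 3 → L.getD (s.loc X 3) 0 < L.getD t 0) ∧
  (∀ u < s.n, (P.getD u 0 < s.n ∧ L.getD 0 0 ≤ L.getD u 0) ∧ ∀ t < s.n, s.o u t ≠ 0 →
    ((s.na u t = false ∧ (Od P L (s.o u t) u t ∨ Od P L (s.o u t) t u)) ∨
      Oe P L (s.o u t) u t ∨ Oe P L (s.o u t) t u) ∧ s.o u t % 16 < s.n ∧ s.o u t / 16 < s.n ∧
      s.o u t / 16 ≠ 0 ∧ L.getD (s.o u t % 16) 0 = L.getD (s.o u t / 16) 0) ∧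
  s.z < 1024 ∧ (∀ t < 10, s.z.testBit t = true → L.getD t 0 = 1 ∧ ∃ w < s.n, L.getD w 0 = 3 ∧
    w ≠ 0 ∧ P.getD w 0 ≠ 0 ∧ P.getD (P.getD w 0) 0 = t) ∧
  (∀ m ∈ M, Wm (s.set 0 m) P L (WT 0)) ∧
  ∀ k ≤ 4, (k ≤ 3 ∧ min k 2 < pc s.z) ∨ ∃ m ∈ M, m % 8 ≤ k ∧
    (m / 8 % 8 ≤ k ∨ (k ≤ 3 ∧ min k 2 ≤ pc s.z ∧ ((s.p = 0 ∧ m / 8 % 8 ≠ 5) ∨ k = 2)))

noncomputable instance {s Q P L M} : Decidable (St3 s Q P L M) := by unfold St3; infer_instance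

theorem sh3_ok : ∀ x ∈ SH3, Lg x.1.1 x.1.2.1 x.1.2.2.1 ∧ Sta x.1.1 x.1.2.2.2.1 x.1.2.2.2.2 ∧
    St3 x.1.1 x.1.2.1 x.1.2.2.2.1 x.1.2.2.2.2 x.2 := by
  decide +kernel

/-- The union of the three paths has at most five vertices. -/
def Sm (S : St) (σ : List ℕ) : Prop := σ.length ≤ 5 ∧
  (∀ k < 3, ∃ n < 4, S.anc k n = σ.getD 0 0) ∧ ∀ j < S.m, j ∈ σ ∨ S.dp j < S.dp (σ.getD 0 0)

instance {S σ} : Decidable (Sm S σ) := by unfold Sm; infer_instance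

def Good3 (S : St) (c : ℕ × List ℕ) : Prop := S.us.length = 3 ∧
  ((S.us.getD 0 0 = S.us.getD 1 0 ∨ S.us.getD 0 0 = S.us.getD 2 0 ∨ S.us.getD 1 0 = S.us.getD 2 0) ∨
    if c.1 = 99 then Sm S c.2 else
      ∃ x ∈ SH3[c.1]?, Lf S x.1.1 x.1.2.1 x.1.2.2.2.1 x.1.2.2.2.2 c.2)

instance {S c} : Decidable (Good3 S c) := by unfold Good3; infer_instance

theorem cert3_ok : List.Forall₂ Good3 ((S0.exts.flatMap St.exts).flatMap St.exts) CERT3 := by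
  decide +kernel

variable {V : Type} {G : SimpleGraph V}

theorem leaf3 (E : Env3 G WT) (d3 : D3 G) (nd : ND G 6) {s : Shp} {Q : List (List ℕ)}
    {o P L M : List ℕ} {T : ℕ → V} (a : Lg s Q o) (b : Sta s P L) (c : St3 s Q P L M)
    (K : Pk E.B E.u s Q P L T) : ∃ m ∈ M, Nonempty (Cfg (s.set 0 m)) := by
  classical
  obtain ⟨c1, c2, c3, c4, c5, c7, c6⟩ := c
  obtain ⟨R, hR⟩ := E.reg (fun i k => T (qv Q i k)) (fun i => ql Q i) (fun i => K.en i i.2)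
    (fun i j e => Fin.ext (c1 i i.2 j j.2 (K.inj _ _ (a.lt i _ le_rfl) (a.lt j _ le_rfl) e)))
    (fun i j => by rw [(a.2.2 i i.2).1, (a.2.2 j j.2).1]) (fun i k m => by
      have p := a.lt i k m.le
      have q := a.lt i _ m
      rcases (b _ p _ q).1 (((a.2.2 i i.2).2.1 k m.le).2.1 m) with ⟨e, f⟩ | ⟨e, f⟩
      exacts [Or.inl (f ▸ K.par _ p e), Or.inr (f ▸ K.par _ q e)])
    (fun i j k l p q e => a.inj (T := T) K.inj i j k l p q e)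
  let Y := ((List.range 10).filter (bt s.z)).map T
  have y1 : ∀ t, t ∈ (List.range 10).filter (bt s.z) → t < s.n ∧ (E.kk ≤ 3 → T t ∈ E.Z) := by
    intro t m
    obtain ⟨m1, m2⟩ := List.mem_filter.1 m
    obtain ⟨-, w, w1, w2, w3, w4, rfl⟩ := c5 t (List.mem_range.1 m1) (bt_eq _ _ ▸ m2)
    refine ⟨(c3 _ (c3 w w1).1.1).1.1, fun k => ?_⟩
    rw [← (K.par _ (c3 w w1).1.1 w4).2, ← (K.par w w1 w3).2]
    exact E.za k _ ((K.dp w w1).trans w2)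
  have y2 : E.kk ≤ 3 → Y.Subperm E.Z := fun k => List.subperm_of_subset
    ((List.nodup_range.filter _).map_on fun x p y q => K.inj _ _ (y1 x p).1 (y1 y q).1)
    fun v m => by
      obtain ⟨t, p, rfl⟩ := List.mem_map.1 m
      exact (y1 t p).2 k
  have y3 : Y.length = pc s.z := by rw [List.length_map, Cfg.pc_eq c4]
  obtain ⟨m, m1, m2, m3⟩ := (c6 _ E.k4).resolve_left fun k => by
    have := (y2 k.1).length_le
    have := (E.zd k.1).1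
    omega
  obtain ⟨w1, w2, w3, w4⟩ : Wm (s.set 0 m) P L (WT E.kk) := c7 m m1
  have ord : ∀ u t, u < s.n → t < s.n → s.o u t ≠ 0 →
      G.Adj (T u) (T t) ∨ (s.na u t = true ∧ D2 G (T u) (T t)) →
      E.B.key (T (s.o u t % 16)) < E.B.key (T (s.o u t / 16)) := by
    intro u t p q e k
    have ke2 : ∀ x y, x < s.n → y < s.n → D2 G (T x) (T y) → Oe P L (s.o u t) x y →
        E.B.key (T (s.o u t % 16)) < E.B.key (T (s.o u t / 16)) := by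
      intro x y p q ⟨w, w1, w2⟩ ⟨e1, e2, e3, e4, e5, e6, e7⟩
      obtain ⟨a1, a2⟩ := K.par x p e1
      obtain ⟨b1, b2⟩ := K.par _ (c3 x p).1.1 e2
      have d1 := K.dp x p
      have d2 := K.dp y q
      have d3 := E.B.dpar _ a1
      have d4 := E.B.dpar _ b1
      have l : ∀ a b, Wk G a b → E.B.dep a ≤ E.B.dep b + 1 := fun a b k =>
        k.elim (fun k => k ▸ Nat.le_succ _) (E.B.lip a b)
      have l1 := l _ _ w1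
      have l2 := l _ _ w2
      have k1 := E.B.min _ _ (w1.resolve_left fun m => by rw [← m] at l2; omega) (by omega)
      have k2 := E.B.min _ _ (w2.resolve_left fun m => by rw [m] at l1; omega) (by omega)
      rw [a2] at d3 k1
      have k3 := E.B.mono w (T (P.getD x 0)) (by omega) (by omega)
      rw [b2] at d4 k3
      rw [e5, e6]
      exact lt_of_le_of_ne (by omega) fun m =>
        e7 (K.inj _ _ (c3 _ (c3 x p).1.1).1.1 q (E.B.inj _ _ (by omega) m))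
    have key : ∀ x y, x < s.n → y < s.n → G.Adj (T x) (T y) → Od P L (s.o u t) x y →
        E.B.key (T (s.o u t % 16)) < E.B.key (T (s.o u t / 16)) := by
      intro x y p q k ⟨e1, e2, e⟩
      obtain ⟨a1, a2⟩ := K.par x p e1
      have d1 := K.dp x p
      have d2 := K.dp y q
      have d3 := E.B.dpar _ a1
      have k1 := E.B.min _ _ k (by omega)
      rw [a2] at d3 k1
      rcases e with ⟨e3, e4, e5⟩ | ⟨e3, e4, e5, e6, e7, e8⟩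
      · rw [e3, e4]
        exact k1.lt_of_ne fun m => e5 (K.inj _ _ (c3 x p).1.1 q (E.B.inj _ _ (by omega) m))
      obtain ⟨b1, b2⟩ := K.par _ (c3 x p).1.1 e4
      obtain ⟨b3, b4⟩ := K.par y q e5
      have d4 := E.B.dpar _ b1
      have d5 := E.B.dpar _ b3
      have k2 := E.B.mono (T y) (T (P.getD x 0)) (by omega) (by omega)
      rw [b2] at d4 k2
      rw [b4] at d5 k2
      rw [e6, e7]
      exact lt_of_le_of_ne (by omega) fun m =>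
        e8 (K.inj _ _ (c3 _ (c3 x p).1.1).1.1 (c3 y q).1.1 (E.B.inj _ _ (by omega) m))
    have k2 : D2 G (T u) (T t) := k.elim (fun k => ⟨_, Or.inl rfl, Or.inr k⟩) And.right
    rcases ((c3 u p).2 t q e).1 with ⟨n, m⟩ | m | m
    · have k := k.resolve_right fun k => by simp [n] at k
      exact m.elim (key u t p q k) (key t u q p k.symm)
    exacts [ke2 u t p q k2 m, ke2 t u q p (let ⟨w, a, b⟩ := k2; ⟨w, b.symm, a.symm⟩) m]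
  have te : ∀ t u, t < s.n → u < s.n → (TE E.B.toTree (T t) (T u) ↔ Ed P t u) := by
    have : ∀ t u, t < s.n → u < s.n → ((T t ≠ E.B.root ∧ E.B.par (T t) = T u) ↔
        t ≠ 0 ∧ P.getD t 0 = u) := fun t u p q => by
      refine ⟨fun ⟨e, k⟩ => ?_, fun ⟨e, k⟩ => k ▸ K.par t p e⟩
      have n : t ≠ 0 := by
        rintro rfl
        have := E.B.dpar _ e
        rw [k, K.dp _ p, K.dp _ q] at this
        have := (c3 u q).1.2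
        omega
      exact ⟨n, K.inj _ _ (c3 t p).1.1 q ((K.par t p n).2.symm.trans k)⟩
    exact fun t u p q => or_congr (this t u p q) (this u t q p)
  refine ⟨m, m1, exists_cfg' (s := s.set 0 m) a T E.B.root K.inj K.sa K.sn K.s2 K.sf R d3 nd
    (absurd rfl) K.root (fun k => absurd rfl k.2) (absurd rfl) (fun t => E.B.key (T t))
    (Tp E.B (WT E.kk)) (Wt E.B (WT E.kk)) (fun _ => ord) (fun _ X C p hC => ⟨?_, fun i q r => ?_⟩)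
    (fun _ => by rw [w2, w3]; exact hR) fun _ => ⟨E.nf.mono m2, fun k => ?_⟩⟩
  · have l3 := (Shp.wf_ok a.1).l3 X p
    have lt : ∀ t, t < s.n → s.pos X t < 7 → t ≠ s.loc X 3 →
        E.B.dep (T (s.loc X 3)) < E.B.dep (T t) := fun t q e k =>
      (K.dp _ l3).trans_lt ((c2 X p t q e k).trans_eq (K.dp t q).symm)
    intro v hv
    obtain ⟨t, t1, t2, rfl⟩ := (hC v).1 hv
    rw [w1]
    refine and_congr_right' ⟨fun k => by_contra fun n => (lt t t1 t2 fun e => n (e ▸ rfl)).not_ge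
      (k _ ((hC _).2 ⟨_, l3, ((Shp.wf_ok a.1).lp X 3 p (by omega) l3).trans_lt (by omega), rfl⟩)),
      fun k y e => ?_⟩
    obtain ⟨u, u1, u2, rfl⟩ := (hC y).1 e
    rw [k]
    by_cases n : u = s.loc X 3
    exacts [n ▸ le_rfl, (lt u u1 u2 n).le]
  · rw [w4 X p i q r, Wt, K.dp _ r, ← apply_ite (fun j => nb (WT E.kk) (j + _))]
    refine congrArg (fun j => nb _ (j + _)) (if_congr ⟨fun ⟨x, y, n, x1, y1, x2, y2⟩ => ?_,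
      fun ⟨x, x1, y, y1, n, x2, y2, x3, y3⟩ => ⟨T x, T y, fun e => n (K.inj _ _ x1 y1 e),
        (hC _).2 ⟨x, x1, x2, rfl⟩, (hC _).2 ⟨y, y1, y2, rfl⟩, (te _ x r x1).2 x3,
        (te _ y r y1).2 y3⟩⟩ rfl rfl)
    obtain ⟨x, x3, x4, rfl⟩ := (hC _).1 x1
    obtain ⟨y, y3, y4, rfl⟩ := (hC _).1 y1
    exact ⟨x, x3, y, y3, fun e => n (e ▸ rfl), x4, y4, (te _ x r x3).1 x2, (te _ y r y3).1 y2⟩
  rcases m3 with m3 | ⟨k3, k4, m3⟩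
  · exact ⟨by have := E.k4; change m % 64 < 40; omega, E.nf.mono m3⟩
  have zz : ∀ z ∈ E.Z, ∃ u, u < s.n ∧ (s.set 0 m).zz.testBit u = true ∧ z = T u := fun z p => by
    obtain ⟨t, r, rfl⟩ := List.mem_map.1
      (((y2 k3).perm_of_length_le (by have := (E.zd k3).1; omega)).symm.subset p)
    refine ⟨t, (y1 t r).1, ?_, rfl⟩
    have : s.z.testBit t = true := bt_eq _ _ ▸ (List.mem_filter.1 r).2
    rw [Shp.zz, cn_eq]
    split_ifs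
    exacts [by rw [tb_or]; exact Bool.or_eq_true _ _ ▸ Or.inl this, this]
  refine absurd ⟨fun v => ?_, fun u t p q e f g => ?_⟩ k
  · have zz' : (∃ z ∈ E.Z, D2 G v z) → ∃ u, u < s.n ∧ (s.set 0 m).zz.testBit u = true ∧
        D2 G v (T u) := fun ⟨z, p, q⟩ => let ⟨u, a, b, c⟩ := zz z p; ⟨u, a, b, c ▸ q⟩
    rcases m3 with ⟨p, q⟩ | q
    · refine ((E.zd k3).2 v).elim (fun e => ⟨0, Nat.zero_lt_of_lt
        ((Shp.wf_ok a.1).l3 0 (by omega)), ?_, K.r0 p ▸ e⟩) zz'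
      rw [Shp.zz, cn_eq, if_pos (show ne (fld (s.set 0 m).lo 3 7) 5 = true from
        ne_eq'.2 fun e => q ((fm m 3 3).symm.trans e)), tb_or]
      exact Bool.or_true _
    · exact zz' (E.z2 q v)
  · obtain ⟨-, e1, e2, e3, e4⟩ := (c3 u p).2 t q e
    have n10 := (Shp.wf_ok a.1).n
    have f1 : s.z.testBit (s.o u t / 16) = true := by
      rw [Shp.zz, cn_eq] at f
      split_ifs at f
      · rw [tb_or, Bool.or_eq_true] at f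
        exact f.resolve_right fun k => e3 ((@tb_one 0 _).1 k)
      · exact f
    have f2 := (c5 _ (by omega) f1).1
    obtain ⟨x, x1, x2, x3⟩ := zz _ (E.zf _ (T (s.o u t % 16)) ((K.dp _ e2).trans f2)
      ((K.dp _ e1).trans (e4.trans f2)) (ord u t p q e (Or.inl g)).le ((y1 _ (List.mem_filter.2
        ⟨List.mem_range.2 (by omega), bt_eq _ _ ▸ f1⟩)).2 k3))
    exact K.inj _ _ e1 x1 x3 ▸ x2

/-- All shapes are refuted in sink mode. -/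
def Tops3 : Prop := ∀ x ∈ SH3, ∀ m ∈ x.2, Cfg (x.1.1.set 0 m) → False

theorem no_cex3 [Finite V] (hT : Tops3) (h : HT G) (d3 : D3 G) {x y z : V} (e : G.Adj x y)
    (h1 : z ≠ x) (h2 : z ≠ y) : ¬ ND G 6 := by
  intro nd
  obtain ⟨E⟩ := exists_env3 h d3 e h1 h2 WT
  obtain ⟨S, m, g, H⟩ := exists_st E.B E.u
  obtain ⟨c, us, k | k⟩ := of_cert cert3_ok m
  · have u0 := (H.us 0 (by omega)).2
    have u1 := (H.us 1 (by omega)).2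
    have u2 := (H.us 2 (by omega)).2
    rcases k with k | k | k
    exacts [E.ne.1 (by rw [← u0, k, u1]), E.ne.2.1 (by rw [← u0, k, u2]),
      E.ne.2.2 (by rw [← u1, k, u2])]
  split_ifs at k
  · obtain ⟨k1, k2, k3⟩ := k
    have an : ∀ k, k < 3 → ∀ n, S.anc k n < S.m ∧ g (S.anc k n) = E.B.par^[n] (E.u k) := by
      intro k p n
      induction n with
      | zero => exact H.us k (by omega)
      | succ n ih =>
        simp only [St.anc, Function.iterate_succ_apply'] at ih ⊢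
        exact ⟨(H.par _ ih.1).1, by rw [← (H.par _ ih.1).2, ih.2]⟩
    have tp : ∀ k, k < 3 → c.2.getD 0 0 < S.m ∧ g (c.2.getD 0 0) ∈ E.B.toTree.P (E.u k) :=
      fun k p => let ⟨n, _, q⟩ := k2 k p; q ▸ ⟨(an k p n).1, n, (an k p n).2.symm⟩
    obtain ⟨w, hw⟩ := E.dom
    obtain ⟨v, hv⟩ := nd (w :: c.2.map g) (by simp; omega)
    obtain ⟨p, q, p1, q1, t, t1, t2⟩ := (hw v).resolve_left (hv w List.mem_cons_self)
    obtain ⟨j, j1, rfl⟩ : ∃ j, j < S.m ∧ g j = t := by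
      rcases t1.1 with ⟨n, m⟩ | ⟨n, m⟩
      exacts [⟨_, (an p p1 n).1, (an p p1 n).2.trans m⟩, ⟨_, (an q q1 n).1, (an q q1 n).2.trans m⟩]
    rcases k3 j j1 with m | m
    · exact hv _ (List.mem_cons_of_mem _ (List.mem_map_of_mem m)) t2
    · rw [← H.dep j j1, ← H.dep _ (tp 0 (by omega)).1] at m
      rcases Tree.eq_or_lt (t1.2 _ (tp p p1).2 (tp q q1).2) with n | n
      exacts [absurd m (by rw [n]; omega), by omega]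
  · obtain ⟨t, p, q⟩ := k
    have := List.mem_of_getElem? p
    obtain ⟨a, b, c⟩ := sh3_ok t this
    obtain ⟨m, m1, ⟨C⟩⟩ := leaf3 E d3 nd a b c (pack H us a b q)
    exact hT t this m m1 C

theorem main_of [Finite V] (hT : Tops3) (h : HT G) (dm : G.diam = 3) :
    ∃ D : Finset V, D.card ≤ 6 ∧ ∀ v, ∃ u ∈ D, G.Adj v u := by
  obtain ⟨d3, nb⟩ := d3_of_diam dm
  obtain ⟨x, -⟩ := (SimpleGraph.nontrivial_of_diam_ne_zero (G := G) (by omega)).exists_pair_ne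
  obtain ⟨y, e⟩ := nb x
  refine set_of_not_nd fun nd => ?_
  obtain ⟨z, k⟩ := nd [x, y] (by simp)
  exact no_cex3 hT h d3 e (z := z) (fun m => k y (by simp) (m ▸ e))
    (fun m => k x (by simp) (m ▸ e.symm)) nd

end Pool.Agent.Lib.MP_ad48ef_co.Gl
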