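import Pool.Agent.Lib.MP_ad48ef_co.Region

/-!
# Minors, subdivisions, and the three disks of a tripod
-/

namespace Pool.Agent.Lib.MP_ad48ef_co

open Pool.Agent.Shared.Planar

theorem ht_minor {X W : Type*} [Nonempty X] {H : SimpleGraph X} {K : SimpleGraph W} (h : HT H)
    (ψ : X → Option W) (hc : ∀ w, Cn H {x | ψ x = some w})
    (hA : ∀ a b, K.Adj a b → Tch H {x | ψ x = some a} {x | ψ x = some b}) : HT K := by
  classical
  obtain ⟨c⟩ := h
  letI : LinearOrder W := linearOrderOfSTO WellOrderingRel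
  let ρ : W → X := fun w => Classical.epsilon fun x => ψ x = some w
  have hρ : ∀ w, (∃ x, ψ x = some w) → ψ (ρ w) = some w := fun w => Classical.epsilon_spec
  have m : ∀ {a b}, K.Adj a b → (∃ x, ψ x = some a) ∧ ∃ x, ψ x = some b := fun e =>
    let ⟨x, h1, y, h2, _⟩ := hA _ _ e; ⟨⟨x, h1⟩, y, h2⟩
  have hw : ∀ a b, ∃ f, K.Adj a b →
      c.Wk ({x | ψ x = some a} ∪ {x | ψ x = some b}) (ρ a) (ρ b) f := fun a b => by
    by_cases e : K.Adj a b
    · obtain ⟨f, hf⟩ := wk_between c (hc a) (hc b) (hA a b e) (hρ a (m e).1) (hρ b (m e).2)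
      exact ⟨f, fun _ => hf⟩
    · exact ⟨0, fun k => absurd k e⟩
  choose f hf using hw
  have key : ∀ a b p q, K.Adj a b → K.Adj p q → a ≠ p → a ≠ q → b ≠ p → b ≠ q →
      f a b (ρ p) + f a b (ρ q) + f p q (ρ a) + f p q (ρ b) =
        c.t (ρ a) (ρ p) + c.t (ρ a) (ρ q) + c.t (ρ b) (ρ p) + c.t (ρ b) (ρ q) := by
    intro a b p q h1 h2 e1 e2 e3 e4
    refine (hf a b h1).walk (hf p q h2) ?_
    rintro v (k | k) (l | l)
    exacts [e1 (Option.some.inj (k.symm.trans l)), e2 (Option.some.inj (k.symm.trans l)),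
      e3 (Option.some.inj (k.symm.trans l)), e4 (Option.some.inj (k.symm.trans l))]
  refine ⟨⟨fun a b => if (∃ x, ψ x = some a) ∧ ∃ x, ψ x = some b then c.t (ρ a) (ρ b)
    else if a < b then 1 else 0, fun a b v => f (min a b) (max a b) (ρ v), fun a b h => ?_,
    fun a b v => by rw [min_comm, max_comm], fun a b p q h1 h2 e1 e2 e3 e4 => ?_⟩⟩
  · by_cases k : (∃ x, ψ x = some a) ∧ ∃ x, ψ x = some b
    · rw [if_pos k, if_pos k.symm]
      exact c.anti _ _ fun e => h (Option.some.inj ((hρ a k.1).symm.trans (e ▸ hρ b k.2)))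
    · rw [if_neg k, if_neg fun e => k (And.symm e)]
      rcases lt_or_gt_of_ne h with e | e <;> simp [e, e.not_gt]
  · simp only [(m h1).1, (m h1).2, (m h2).1, (m h2).2, and_self, if_true]
    rcases le_total a b with k | k <;> rcases le_total p q with l | l <;>
      simp only [k, l, min_eq_left, min_eq_right, max_eq_left, max_eq_right]
    · exact key a b p q h1 h2 e1 e2 e3 e4
    · linear_combination key a b q p h1 h2.symm e2 e1 e4 e3
    · linear_combination key b a p q h1.symm h2 e3 e4 e1 e2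
    · linear_combination key b a q p h1.symm h2.symm e4 e3 e2 e1

theorem ht_minor' {X W : Type*} [Nonempty X] {H : SimpleGraph X} {K : SimpleGraph W} (h : HT H)
    (ψ : X → Option W) (μ : X → ℕ)
    (h1 : ∀ x w, ψ x = some w → μ x = 0 ∨ ∃ y, H.Adj x y ∧ ψ y = some w ∧ μ y < μ x)
    (h0 : ∀ x y w, ψ x = some w → ψ y = some w → μ x = 0 → μ y = 0 → x = y)
    (hA : ∀ a b, K.Adj a b → ∃ x y, ψ x = some a ∧ ψ y = some b ∧ H.Adj x y) : HT K := by
  refine ht_minor h ψ (fun w => ?_) fun a b e =>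
    let ⟨x, y, k1, k2, k3⟩ := hA a b e; ⟨x, k1, y, k2, k3⟩
  have : ∀ n x, μ x = n → ψ x = some w → ∃ y, μ y = 0 ∧ R H {x | ψ x = some w} x y := by
    intro n
    induction n using Nat.strong_induction_on with
    | _ n ih =>
    intro x e k
    rcases h1 x w k with m | ⟨y, y1, y2, y3⟩
    · exact ⟨x, m, R.refl⟩
    · obtain ⟨z, z1, z2⟩ := ih _ (e ▸ y3) y rfl y2
      exact ⟨z, z1, R.trans (R.single (S := {x | ψ x = some w}) k y2 y1) z2⟩
  intro x hx y hy
  obtain ⟨p, p1, p2⟩ := this _ x rfl hx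
  obtain ⟨q, q1, q2⟩ := this _ y rfl hy
  obtain rfl := h0 p q w (p2.mem hx) (q2.mem hy) p1 q1
  exact p2.trans q2.symm

/-- New vertices joined to both ends of given edges. -/
def par {X ι : Type*} (H : SimpleGraph X) (p q : ι → X) (S : Set ι) : SimpleGraph (X ⊕ ι) where
  Adj
    | .inl a, .inl b => H.Adj a b
    | .inl a, .inr i => i ∈ S ∧ (a = p i ∨ a = q i)
    | .inr i, .inl a => i ∈ S ∧ (a = p i ∨ a = q i)
    | .inr _, .inr _ => False
  symm := ⟨by rintro (a | a) (b | b) h <;> first | exact h | exact h.symm⟩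
  loopless := ⟨by rintro (a | a) h; exacts [H.irrefl h, h]⟩

theorem ht_par {X ι : Type*} [Finite ι] [Nonempty X] {H : SimpleGraph X} (h : HT H) (p q : ι → X)
    (S : Set ι) (hS : ∀ i ∈ S, H.Adj (p i) (q i)) : HT (par H p q S) := by
  classical
  induction S, S.toFinite using Set.Finite.induction_on with
  | empty =>
    refine h.comap_on (Sum.elim id fun _ => Classical.arbitrary X) (Set.range Sum.inl) ?_ ?_
    · rintro _ ⟨a, rfl⟩ _ ⟨b, rfl⟩ (rfl : a = b); rfl
    · rintro (a | a) (b | b) e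
      exacts [⟨⟨a, rfl⟩, e⟩, e.1.elim, e.1.elim, e.elim]
  | @insert i S hi _ ih =>
    have := (ih fun j hj => hS j (Or.inr hj)).apex_edge (w := .inl (p i)) (u := .inl (q i))
      (hS i (Or.inl rfl))
    refine this.comap (fun x => if x = .inr i then none else some x) (fun x y e => ?_) ?_
    · dsimp only at e
      split_ifs at e with m n
      exacts [m.trans n.symm, Option.some.inj e]
    have key : ∀ a j, (par H p q (insert i S)).Adj (.inl a) (.inr j) →
        (apex (par H p q S) {.inl (p i), .inl (q i), .inl (q i)}).Adj (some (.inl a))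
          (if (Sum.inr j : X ⊕ ι) = .inr i then none else some (.inr j)) := by
      rintro a j ⟨rfl | m, e⟩
      · rw [if_pos rfl]
        rcases e with rfl | rfl
        exacts [Or.inl rfl, Or.inr (Or.inl rfl)]
      · rw [if_neg fun k : (Sum.inr j : X ⊕ ι) = .inr i => hi (Sum.inr.inj k ▸ m)]
        exact ⟨m, e⟩
    rintro (a | a) (b | b) e
    exacts [e, key a b e, (key b a e).symm, e.elim]

variable {V : Type*}

/-- The boundary path of a disk, completed by dummy vertices. -/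
def bd (Q : Fin 3 → ℕ → V) (l : Fin 3 → ℕ) (r : Fin 3) (o i : ℕ) : V ⊕ ℕ :=
  if i < o then .inr i else if i ≤ o + l r then .inl (Q r (o + l r - i))
  else if i ≤ o + l r + l (r + 1) then .inl (Q (r + 1) (i - (o + l r))) else .inr i

/-- The wheel over a disk. -/
def KW (In : V → V → Prop) (b : ℕ → V ⊕ ℕ) : SimpleGraph (Option (V ⊕ ℕ)) :=
  SimpleGraph.fromRel fun x y => (∃ p q, x = some (.inl p) ∧ y = some (.inl q) ∧ In p q) ∨
    (∃ i, i < 6 ∧ x = some (b i) ∧ y = some (b (i + 1))) ∨ (x = some (b 0) ∧ y = some (b 6)) ∨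
    ∃ i, i < 7 ∧ x = none ∧ y = some (b i)

structure Regs2 (G : SimpleGraph V) (Q : Fin 3 → ℕ → V) (l : Fin 3 → ℕ) where
  Reg : Fin 3 → V → Prop
  In : Fin 3 → V → V → Prop
  cover : ∀ v, ∃ r, Reg r v
  on : ∀ r i k, k ≤ l i → (Reg r (Q i k) ↔ i = r ∨ i = r + 1 ∨ k = 0)
  closed : ∀ r a b, Reg r a → (∀ i k, k ≤ l i → a ≠ Q i k) → G.Adj a b → In r a b
  uniq : ∀ r s a, Reg r a → Reg s a → (∀ i k, k ≤ l i → a ≠ Q i k) → r = s
  inR : ∀ r a b, In r a b → Reg r a ∧ Reg r b ∧ In r b a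
  inx : ∀ a b, G.Adj a b → ∃ r, In r a b
  ht : ∀ r o, o ≤ 3 → 3 ≤ o + l r + l (r + 1) → o + l r + l (r + 1) ≤ 6 →
    HT (KW (In r) (bd Q l r o))

/-- Chords subdivided and pendant paths attached. -/
def GS (G : SimpleGraph V) (C : V → V → Prop) (u : Fin 3 → V) :
    SimpleGraph (V ⊕ (V × V) ⊕ Fin 3 × Fin 3) :=
  SimpleGraph.fromRel fun x y => match x, y with
    | .inl a, .inl b => G.Adj a b ∧ ¬ C a b ∧ ¬ C b a
    | .inl a, .inr (.inl e) => C e.1 e.2 ∧ (a = e.1 ∨ a = e.2)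
    | .inl a, .inr (.inr t) => t.2 = 0 ∧ a = u t.1
    | .inr (.inr s), .inr (.inr t) => s.1 = t.1 ∧ s.2.1 + 1 = t.2.1
    | _, _ => False

theorem ht_GS [Finite V] {G : SimpleGraph V} {C : V → V → Prop} {u : Fin 3 → V}
    (h : HT (apex G {u 0, u 1, u 2})) (hC : ∀ a b, C a b → G.Adj a b) :
    HT (apex (GS G C u) {.inr (.inr (0, 2)), .inr (.inr (1, 2)), .inr (.inr (2, 2))}) := by
  let H1 := par (apex G {u 0, u 1, u 2}) (fun e : V × V => some e.1) (fun e => some e.2)
    {e | C e.1 e.2}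
  let H2 := par H1 (fun _ : Fin 3 => .inl none) (fun i => .inl (some (u i))) Set.univ
  let H3 := par H2 (fun i : Fin 3 => .inr i) (fun i => .inl (.inl (some (u i)))) Set.univ
  let H4 := par H3 (fun i : Fin 3 => .inr i) (fun i => .inl (.inl (.inl (some (u i))))) Set.univ
  have h1 : HT H1 := ht_par h _ _ _ fun e m => hC _ _ m
  have h2 : HT H2 := ht_par h1 _ _ _ fun i _ => by fin_cases i <;> simp [H1, par, apex]
  have h3 : HT H3 := ht_par h2 _ _ _ fun i _ => ⟨trivial, Or.inr rfl⟩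
  have h4 : HT H4 := ht_par h3 _ _ _ fun i _ => ⟨trivial, Or.inr rfl⟩
  let f : Option (V ⊕ (V × V) ⊕ Fin 3 × Fin 3) → (((Option V ⊕ V × V) ⊕ Fin 3) ⊕ Fin 3) ⊕ Fin 3 :=
    fun x => match x with
    | none => .inl (.inl (.inl (.inl none)))
    | some (.inl v) => .inl (.inl (.inl (.inl (some v))))
    | some (.inr (.inl e)) => .inl (.inl (.inl (.inr e)))
    | some (.inr (.inr (i, j))) => ![.inr i, .inl (.inr i), .inl (.inl (.inr i))] j
  refine h4.comap f ?_ ?_
  · rintro (_ | a | a | ⟨a, i⟩) (_ | b | b | ⟨b, j⟩) e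
    all_goals first | fin_cases i | skip
    all_goals first | fin_cases j | skip
    all_goals first | rfl | (cases e; rfl) | cases e
  have k0 : ∀ x, x ∈ ({.inr (.inr (0, 2)), .inr (.inr (1, 2)), .inr (.inr (2, 2))} :
      Set (V ⊕ (V × V) ⊕ Fin 3 × Fin 3)) → H4.Adj (f none) (f (some x)) := by
    rintro _ (rfl | rfl | rfl) <;> exact ⟨trivial, Or.inl rfl⟩
  rintro (_ | x) (_ | y) e
  · exact e.elim
  · exact k0 _ e
  · exact (k0 _ e).symm
  obtain ⟨-, e⟩ := e
  wlog m : _ generalizing x y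
  · exact (this y x e.symm (e.resolve_left m)).symm
  clear e
  rcases x with a | a | ⟨a, i⟩ <;> rcases y with b | b | ⟨b, j⟩
  · exact m.1
  · exact ⟨m.1, m.2.imp (congrArg some) (congrArg some)⟩
  · obtain ⟨rfl, rfl⟩ : j = 0 ∧ a = u b := m
    exact ⟨trivial, Or.inr rfl⟩
  iterate 5 exact m.elim
  obtain ⟨rfl, m⟩ : a = b ∧ i.1 + 1 = j.1 := m
  fin_cases i <;> fin_cases j <;> first | exact ⟨trivial, Or.inl rfl⟩ | cases m

theorem regions2 [Finite V] {G : SimpleGraph V} (Q : Fin 3 → ℕ → V) (l : Fin 3 → ℕ)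
    (h : HT (apex G {Q 0 (l 0), Q 1 (l 1), Q 2 (l 2)})) (top : ∀ i j, Q i 0 = Q j 0)
    (adj : ∀ i k, k < l i → G.Adj (Q i k) (Q i (k + 1)))
    (inj : ∀ i j k m, k ≤ l i → m ≤ l j → Q i k = Q j m → (i = j ∧ k = m) ∨ (k = 0 ∧ m = 0)) :
    Nonempty (Regs2 G Q l) := by
  classical
  let C : V → V → Prop := fun a b =>
    ∃ i k m, k + 1 < m ∧ m ≤ l i ∧ a = Q i k ∧ b = Q i m ∧ G.Adj a b
  let H := GS G C fun i => Q i (l i)
  let P : Fin 3 → ℕ → V ⊕ (V × V) ⊕ Fin 3 × Fin 3 := fun i k =>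
    if k ≤ l i then .inl (Q i k) else .inr (.inr (i, Fin.ofNat 3 (k - l i - 1)))
  have p1 : ∀ i k, k ≤ l i → P i k = .inl (Q i k) := fun i k m => if_pos m
  have p2 : ∀ i (j : Fin 3), P i (l i + 1 + j) = .inr (.inr (i, j)) := fun i j => by
    simp only [P, if_neg (by omega : ¬ l i + 1 + j ≤ l i), show l i + 1 + j - l i - 1 = j by omega,
      Fin.ofNat_val_eq_self]
  have cs : ∀ i k, k ≤ l i + 3 → k ≤ l i ∨ ∃ j : Fin 3, k = l i + 1 + j := fun i k m => by
    by_cases c : k ≤ l i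
    exacts [Or.inl c, Or.inr ⟨⟨k - l i - 1, by omega⟩, by dsimp only; omega⟩]
  have ha : ∀ a b, G.Adj a b → ¬ C a b → ¬ C b a → H.Adj (.inl a) (.inl b) := fun a b e m n =>
    ⟨fun k => e.ne (Sum.inl.inj k), Or.inl ⟨e, m, n⟩⟩
  have hc : ∀ a b, C a b → H.Adj (.inr (.inl (a, b))) (.inl a) ∧
      H.Adj (.inr (.inl (a, b))) (.inl b) := fun a b m =>
    ⟨⟨by simp, Or.inr ⟨m, Or.inl rfl⟩⟩, by simp, Or.inr ⟨m, Or.inr rfl⟩⟩
  have adj' : ∀ i k, k < l i + 3 → H.Adj (P i k) (P i (k + 1)) := by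
    intro i k m
    rcases (by omega : k < l i ∨ k = l i ∨ k = l i + 1 ∨ k = l i + 2) with n | rfl | rfl | rfl
    · rw [p1 i k n.le, p1 i _ n]
      refine ha _ _ (adj i k n) ?_ ?_ <;> rintro ⟨j, s, t, c1, c2, c3, c4, -⟩
      · have := inj _ _ _ _ n.le (by omega) c3; have := inj _ _ _ _ n c2 c4; omega
      · have := inj _ _ _ _ n (by omega) c3; have := inj _ _ _ _ n.le c2 c4; omega
    · rw [p1 i _ le_rfl, show l i + 1 = l i + 1 + (0 : Fin 3) from rfl, p2]
      exact ⟨by simp, Or.inl ⟨rfl, rfl⟩⟩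
    · rw [show P i (l i + 1) = _ from p2 i 0, show P i (l i + 1 + 1) = _ from p2 i 1]
      exact ⟨by simp, Or.inl ⟨rfl, rfl⟩⟩
    · rw [show P i (l i + 2) = _ from p2 i 1, show P i (l i + 2 + 1) = _ from p2 i 2]
      exact ⟨by simp, Or.inl ⟨rfl, rfl⟩⟩
  have pe : ∀ i, P i (l i + 3) = .inr (.inr (i, 2)) := fun i => p2 i 2
  obtain ⟨R⟩ := regions (G := H) P (fun i => l i + 3)
    (by simp only [pe]; exact ht_GS h fun a b ⟨_, _, _, _, _, _, _, e⟩ => e)
    (fun i j => by rw [p1 i 0 (by omega), p1 j 0 (by omega), top i j]) adj'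
    (fun i j k m h1 h2 e => by
      rcases cs i k h1 with a | ⟨s, rfl⟩ <;> rcases cs j m h2 with b | ⟨t, rfl⟩
      · rw [p1 i k a, p1 j m b] at e; exact inj i j k m a b (Sum.inl.inj e)
      · rw [p1 i k a, p2] at e; cases e
      · rw [p1 j m b, p2] at e; cases e
      · rw [p2, p2] at e; cases e; exact Or.inl ⟨rfl, rfl⟩)
    (fun i k m h1 h2 e => by
      rcases cs i k (by omega) with a | ⟨s, rfl⟩ <;> rcases cs i m h2 with b | ⟨t, rfl⟩
      · rw [p1 i k a, p1 i m b] at e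
        rcases e.2 with e | e
        exacts [e.2.1 ⟨i, k, m, h1, b, rfl, rfl, e.1⟩, e.2.2 ⟨i, k, m, h1, b, rfl, rfl, e.1.symm⟩]
      · rw [p1 i k a, p2] at e
        obtain ⟨rfl, e'⟩ : t = 0 ∧ Q i k = Q i (l i) := e.2.resolve_right id
        have := inj _ _ _ _ a le_rfl e'
        simp at h1; omega
      · omega
      · rw [p2, p2] at e
        rcases e.2 with ⟨-, e⟩ | ⟨-, e⟩ <;> dsimp only at e <;> omega)
  have off : ∀ a, (∀ i k, k ≤ l i → a ≠ Q i k) → ∀ i k, k ≤ l i + 3 → .inl a ≠ P i k := by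
    intro a m i k n e
    rcases cs i k n with c | ⟨s, rfl⟩
    · rw [p1 i k c] at e; exact m i k c (Sum.inl.inj e)
    · rw [p2] at e; cases e
  have offc : ∀ e, ∀ i k, k ≤ l i + 3 → .inr (.inl e) ≠ P i k := by
    intro a i k n e
    rcases cs i k n with c | ⟨s, rfl⟩
    · rw [p1 i k c] at e; cases e
    · rw [p2] at e; cases e
  have on : ∀ r i k, k ≤ l i → (R.Reg r (.inl (Q i k)) ↔ i = r ∨ i = r + 1 ∨ k = 0) :=
    fun r i k m => p1 i k m ▸ R.on r i k (by omega)
  let In : Fin 3 → V → V → Prop := fun r a b => R.Reg r (.inl a) ∧ R.Reg r (.inl b) ∧ G.Adj a b ∧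
    (C a b → R.Reg r (.inr (.inl (a, b)))) ∧ (C b a → R.Reg r (.inr (.inl (b, a))))
  have sy : ∀ r a b, In r a b → In r b a := fun r a b e =>
    ⟨e.2.1, e.1, e.2.2.1.symm, e.2.2.2.2, e.2.2.2.1⟩
  have cl : ∀ r a b, R.Reg r (.inl a) → (∀ i k, k ≤ l i → a ≠ Q i k) → G.Adj a b → In r a b := by
    intro r a b h1 h2 e
    have c1 : ¬ C a b := fun ⟨i, k, _, _, _, c, _⟩ => h2 i k (by omega) c
    have c2 : ¬ C b a := fun ⟨i, _, k, _, c', _, c, _⟩ => h2 i k c' c
    exact ⟨h1, R.closed r _ _ h1 (off a h2) (ha a b e c1 c2), e, fun c => absurd c c1,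
      fun c => absurd c c2⟩
  have ch : ∀ a b, C a b → ∃ r, In r a b := by
    intro a b c
    obtain ⟨r, hr⟩ := R.cover (.inr (.inl (a, b)))
    refine ⟨r, R.closed r _ _ hr (offc _) (hc a b c).1, R.closed r _ _ hr (offc _) (hc a b c).2,
      c.choose_spec.choose_spec.choose_spec.2.2.2.2, fun _ => hr, fun c' => ?_⟩
    obtain ⟨i, k, m, c1, c2, rfl, rfl, -⟩ := c
    obtain ⟨j, s, t, d1, d2, d3, d4, -⟩ := c'
    have := inj _ _ _ _ c2 (by omega) d3
    have := inj _ _ _ _ (by omega) d2 d4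
    omega
  refine ⟨⟨fun r a => R.Reg r (.inl a), In, fun v => R.cover _, on, cl,
    fun r s a h1 h2 h3 => R.uniq r s _ h1 h2 (off a h3), fun r a b e => ⟨e.1, e.2.1, sy r a b e⟩,
    fun a b e => ?_, fun r o o1 o2 o3 => ?_⟩⟩
  · by_cases c1 : C a b
    · exact ch a b c1
    by_cases c2 : C b a
    · exact (ch b a c2).imp fun r => sy r b a
    by_cases m : ∀ i k, k ≤ l i → a ≠ Q i k
    · exact (R.cover (.inl a)).imp fun r k => cl r a b k m e
    by_cases n : ∀ i k, k ≤ l i → b ≠ Q i k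
    · exact (R.cover (.inl b)).imp fun r k => sy r _ _ (cl r b a k n e.symm)
    push Not at m n
    obtain ⟨i, k, k1, rfl⟩ := m
    obtain ⟨j, t, t1, rfl⟩ := n
    obtain ⟨r, r1, r2⟩ := (by decide : ∀ i j : Fin 3, ∃ r, (i = r ∨ i = r + 1) ∧
      (j = r ∨ j = r + 1)) i j
    exact ⟨r, (on r i k k1).2 (by tauto), (on r j t t1).2 (by tauto), e, fun c => absurd c c1,
      fun c => absurd c c2⟩
  let b := bd Q l r o
  let ψ : Option (Option (V ⊕ (V × V) ⊕ Fin 3 × Fin 3)) → Option (Option (V ⊕ ℕ)) := fun x =>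
    match x with
    | none => some none
    | some none => some (some (b 0))
    | some (some (.inl v)) => some (some (.inl v))
    | some (some (.inr (.inl e))) =>
      if C e.1 e.2 ∧ R.Reg r (.inr (.inl e)) then some (some (.inl e.1)) else none
    | some (some (.inr (.inr t))) => if t.1 = r then some (some (b (o - 1 - t.2)))
      else if t.1 = r + 1 then some (some (b (min 6 (o + l r + l (r + 1) + 1 + t.2)))) else none
  let μ : Option (Option (V ⊕ (V × V) ⊕ Fin 3 × Fin 3)) → ℕ := fun x =>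
    match x with
    | some none => 4
    | some (some (.inr (.inl _))) => 1
    | some (some (.inr (.inr t))) => if t.1 = r then (if t.2 < o then 0 else t.2 + 1)
      else if o + l r + l (r + 1) + 1 + t.2 ≤ 6 then 0 else t.2 + 1
    | _ => 0
  have rr : r + 1 ≠ r := by omega
  have ψ1 : ∀ k, k ≤ l r + 3 → ψ (some (some (P r k))) = some (some (b (o + l r - k))) := by
    intro k m
    rcases cs r k m with c | ⟨s, rfl⟩
    · rw [p1 r k c]
      simp only [ψ, b, bd, if_neg (by omega : ¬ o + l r - k < o),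
        if_pos (by omega : o + l r - k ≤ o + l r), show o + l r - (o + l r - k) = k by omega]
    · rw [p2]
      simp only [ψ, if_true, show o + l r - (l r + 1 + s) = o - 1 - s by omega]
  have ψ2 : ∀ k, 0 < k → k ≤ l (r + 1) + 3 →
      ψ (some (some (P (r + 1) k))) = some (some (b (min 6 (o + l r + k)))) := by
    intro k n m
    rcases cs _ k m with c | ⟨s, rfl⟩
    · rw [p1 _ k c, min_eq_right (by omega)]
      simp only [ψ, b, bd, if_neg (by omega : ¬ o + l r + k < o),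
        if_neg (by omega : ¬ o + l r + k ≤ o + l r), Nat.add_le_add_iff_left, c, if_true,
        Nat.add_sub_cancel_left]
    · rw [p2]
      simp only [ψ, rr, if_true, if_false, add_assoc]
  have ψ2' : ∀ k, k ≤ l (r + 1) + 3 →
      ψ (some (some (P (r + 1) k))) = some (some (b (min 6 (o + l r + k)))) := by
    rintro (_ | k) m
    · rw [p1 _ 0 (by omega), top _ r, ← p1 r 0 (by omega), ψ1 0 (by omega), min_eq_right (by omega)]
      rfl
    · exact ψ2 _ (by omega) m
  let W := wh H (R.Reg r) (fun a => ∃ i k, (i = r ∨ i = r + 1) ∧ k ≤ l i + 3 ∧ a = P i k)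
    (P r (l r + 3)) (P (r + 1) (l (r + 1) + 3))
  have wp : ∀ i k, i = r ∨ i = r + 1 → k < l i + 3 →
      W.Adj (some (some (P i k))) (some (some (P i (k + 1)))) := fun i k m n =>
    ⟨(R.on r i k n.le).2 (by tauto), (R.on r i _ n).2 (by tauto), adj' i k n⟩
  have wc : ∀ a b, C a b → R.Reg r (.inr (.inl (a, b))) →
      W.Adj (some (some (.inr (.inl (a, b))))) (some (some (.inl a))) ∧
      W.Adj (some (some (.inr (.inl (a, b))))) (some (some (.inl b))) := fun a b c e =>
    ⟨⟨e, R.closed r _ _ e (offc _) (hc a b c).1, (hc a b c).1⟩,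
      e, R.closed r _ _ e (offc _) (hc a b c).2, (hc a b c).2⟩
  have μp : ∀ i k, k ≤ l i + 3 → μ (some (some (P i k))) ≤ k - l i := by
    intro i k m
    rcases cs i k m with c | ⟨s, rfl⟩
    · rw [p1 i k c]; exact Nat.zero_le _
    · rw [p2]; simp only [μ]; split_ifs <;> omega
  refine ht_minor' (H := W) (R.ht r) ψ μ ?_ ?_ ?_
  · rintro (_ | _ | v | e | ⟨i, j⟩) w k
    · exact Or.inl rfl
    · refine Or.inr ⟨some (some (P r (l r + 3))), Or.inl rfl, ?_, ?_⟩
      · rw [ψ1 _ le_rfl, show o + l r - (l r + 3) = 0 by omega]; exact k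
      · have := μp r _ le_rfl; simp only [μ] at this ⊢; omega
    · exact Or.inl rfl
    · simp only [ψ] at k
      split_ifs at k with c
      exact Or.inr ⟨_, (wc _ _ c.1 c.2).1, k, Nat.one_pos⟩
    by_cases z : μ (some (some (.inr (.inr (i, j))))) = 0
    · exact Or.inl z
    have ij : i = r ∨ i = r + 1 := by
      simp only [ψ] at k
      split_ifs at k with c d
      exacts [Or.inl c, Or.inr d]
    have := μp i (l i + j) (by omega)
    have q : P i (l i + j + 1) = .inr (.inr (i, j)) := by rw [add_right_comm, p2]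
    refine Or.inr ⟨some (some (P i (l i + j))), q ▸ (wp i _ ij (by omega)).symm, ?_, ?_⟩
    · rw [← k, ← q]
      rcases ij with rfl | rfl
      · simp only [μ, if_true] at z
        rw [ψ1 _ (by omega), ψ1 _ (by omega)]
        split_ifs at z <;> congr 3 <;> omega
      · simp only [μ, rr, if_false] at z
        rw [ψ2' _ (by omega), ψ2' _ (by omega)]
        split_ifs at z <;> congr 3 <;> omega
    · simp only [μ] at z this ⊢
      split_ifs at z ⊢ <;> omega
  · have key : ∀ x w, ψ x = some w → μ x = 0 → x = match w with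
        | none => none
        | some (.inl v) => some (some (.inl v))
        | some (.inr n) => some (some (.inr (.inr (if n < o then (r, Fin.ofNat 3 (o - 1 - n))
            else (r + 1, Fin.ofNat 3 (n - (o + l r + l (r + 1) + 1))))))) := by
      rintro (_ | _ | v | e | ⟨i, j⟩) w k z
      · cases k; rfl
      · cases z
      · cases k; rfl
      · cases z
      simp only [ψ, μ] at k z
      by_cases c : i = r
      · rw [if_pos c] at k z
        have d : j.1 < o := by split_ifs at z with d; exact d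
        cases k
        simp only [b, bd, if_pos (by omega : o - 1 - j < o), c,
          show o - 1 - (o - 1 - j) = j by omega, Fin.ofNat_val_eq_self]
      · rw [if_neg c] at k z
        have g : o + l r + l (r + 1) + 1 + j ≤ 6 := by split_ifs at z with d; exact d
        split_ifs at k with f
        cases k
        rw [min_eq_right g]
        simp only [b, bd, if_neg (by omega : ¬ o + l r + l (r + 1) + 1 + j < o),
          if_neg (by omega : ¬ o + l r + l (r + 1) + 1 + j ≤ o + l r),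
          if_neg (by omega : ¬ o + l r + l (r + 1) + 1 + j ≤ o + l r + l (r + 1)), f,
          Nat.add_sub_cancel_left, Fin.ofNat_val_eq_self]
    exact fun x y w k1 k2 z1 z2 => (key x w k1 z1).trans (key y w k2 z2).symm
  · rintro x y ⟨-, e⟩
    wlog m : _ generalizing x y
    · obtain ⟨p, q, k1, k2, k3⟩ := this y x e.symm (e.resolve_left m)
      exact ⟨q, p, k2, k1, k3.symm⟩
    clear e
    rcases m with ⟨p, q, rfl, rfl, e⟩ | ⟨i, i1, rfl, rfl⟩ | ⟨rfl, rfl⟩ | ⟨i, i1, rfl, rfl⟩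
    · by_cases c1 : C p q
      · exact ⟨some (some (.inr (.inl (p, q)))), _, if_pos ⟨c1, e.2.2.2.1 c1⟩, rfl,
          (wc _ _ c1 (e.2.2.2.1 c1)).2⟩
      by_cases c2 : C q p
      · exact ⟨_, some (some (.inr (.inl (q, p)))), rfl, if_pos ⟨c2, e.2.2.2.2 c2⟩,
          (wc _ _ c2 (e.2.2.2.2 c2)).2.symm⟩
      exact ⟨some (some (.inl p)), some (some (.inl q)), rfl, rfl, e.1, e.2.1,
        ha _ _ e.2.2.1 c1 c2⟩
    · by_cases c : i < o + l r
      · refine ⟨_, _, ?_, ?_, (wp r (o + l r - i - 1) (Or.inl rfl) (by omega)).symm⟩ <;>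
          rw [ψ1 _ (by omega)] <;> congr 3 <;> omega
      · refine ⟨_, _, ?_, ?_, wp (r + 1) (i - (o + l r)) (Or.inr rfl) (by omega)⟩ <;>
          rw [ψ2' _ (by omega)] <;> congr 3 <;> omega
    · refine ⟨some none, some (some (P (r + 1) (l (r + 1) + 3))), rfl, ?_, Or.inr rfl⟩
      rw [ψ2' _ le_rfl, min_eq_left (by omega)]
    · by_cases c : i < o + l r
      · refine ⟨none, some (some (P r (o + l r - i))), rfl, ?_,
          fun _ e => ⟨r, _, Or.inl rfl, by omega, (Option.some.inj e).symm⟩⟩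
        rw [ψ1 _ (by omega)]; congr 3; omega
      · refine ⟨none, some (some (P (r + 1) (i - (o + l r)))), rfl, ?_,
          fun _ e => ⟨r + 1, _, Or.inr rfl, by omega, (Option.some.inj e).symm⟩⟩
        rw [ψ2' _ (by omega)]; congr 3; omega

end Pool.Agent.Lib.MP_ad48ef_co
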