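import Pool.Agent.Shared.Planar.Theta
import Pool.Agent.Shared.Planar.Tripod

/-!
# The three regions of a tripod whose ends are cofacial
-/

namespace Pool.Agent.Lib.MP_ad48ef_co

open Pool.Agent.Shared.Planar

def Wk {X : Type} (G : SimpleGraph X) (a b : X) : Prop := a = b ∨ G.Adj a b

theorem Wk.symm {X : Type} {G : SimpleGraph X} {a b : X} (h : Wk G a b) : Wk G b a :=
  h.imp Eq.symm fun e => e.symm

/-- Any two vertices are at distance at most three. -/
def D3 {V : Type} (G : SimpleGraph V) : Prop := ∀ a b, ∃ x y, Wk G a x ∧ Wk G x y ∧ Wk G y b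

/-- No list of at most `K` vertices is totally dominating. -/
def ND {V : Type} (G : SimpleGraph V) (K : ℕ) : Prop :=
  ∀ l : List V, l.length ≤ K → ∃ v, ∀ u ∈ l, ¬ G.Adj v u

def D2 {V : Type} (G : SimpleGraph V) (a b : V) : Prop := ∃ x, Wk G a x ∧ Wk G x b

theorem D2.symm {V : Type} {G : SimpleGraph V} {a b : V} (h : D2 G a b) : D2 G b a :=
  let ⟨x, p, q⟩ := h; ⟨x, q.symm, p.symm⟩

/-- `S` is dominated by vertices of `C` of total weight at most `J`, or by a vertex of `S`, which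
has weight `h`, together with vertices of `C` that include all top vertices, of total weight at
most `J` and `m`. -/
def Ez {V : Type} (G : SimpleGraph V) (J h m : ℕ) (C top : V → Prop) (w : V → ℕ) (S : V → Prop) :
    Prop :=
  ∃ l : List V, (∀ x ∈ l, C x) ∧ (((l.map w).sum ≤ J ∧ ∀ v, S v → ∃ x ∈ l, G.Adj v x) ∨
    ((l.map w).sum + h ≤ J ∧ (l.map w).sum + h ≤ m ∧ (∀ x, C x → top x → x ∈ l) ∧
      ∃ y, S y ∧ ∀ v, S v → G.Adj v y ∨ ∃ x ∈ l, G.Adj v x))

/-- Edges at one vertex `z` may be realised by paths of length two. -/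
theorem comap_sub {X W : Type*} {H : SimpleGraph X} {K : SimpleGraph W} (h : HT H) (f : W → X)
    (hf : Function.Injective f) (z : W) (hA : ∀ a b, K.Adj a b → H.Adj (f a) (f b) ∨
      ((a = z ∨ b = z) ∧ ∃ y, (∀ s, f s ≠ y) ∧ H.Adj (f a) y ∧ H.Adj (f b) y)) : HT K := by
  classical
  obtain ⟨c⟩ := h
  haveI : Nonempty X := ⟨f z⟩
  let y : W → W → X := fun a b =>
    Classical.epsilon fun y => (∀ s, f s ≠ y) ∧ H.Adj (f a) y ∧ H.Adj (f b) y
  have ys : ∀ a b, y a b = y b a := fun a b => by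
    simp only [y]; congr 1; funext v; rw [and_comm (a := H.Adj (f a) v)]
  have hy : ∀ a b, K.Adj a b → ¬ H.Adj (f a) (f b) → (a = z ∨ b = z) ∧
      (∀ s, f s ≠ y a b) ∧ H.Adj (f a) (y a b) ∧ H.Adj (f b) (y a b) := fun a b e m =>
    ⟨((hA a b e).resolve_left m).1, Classical.epsilon_spec ((hA a b e).resolve_left m).2⟩
  refine ⟨⟨fun a b => c.t (f a) (f b), fun a b v => if H.Adj (f a) (f b) then c.x (f a) (f b) (f v)
    else c.x (f a) (y a b) (f v) + c.x (f b) (y a b) (f v), fun a b h => c.anti _ _ (hf.ne h),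
    fun a b v => ?_, fun a b p q h1 h2 e1 e2 e3 e4 => ?_⟩⟩
  · rw [H.adj_comm, c.symm (f a) (f b), ys, add_comm]
  by_cases m : H.Adj (f a) (f b) <;> by_cases n : H.Adj (f p) (f q) <;>
    simp only [m, n, if_true, if_false]
  · exact c.eqn _ _ _ _ m n (hf.ne e1) (hf.ne e2) (hf.ne e3) (hf.ne e4)
  · obtain ⟨-, k1, k2, k3⟩ := hy p q h2 n
    have i1 := c.eqn _ _ _ _ m k2 (hf.ne e1) (k1 _) (hf.ne e3) (k1 _)
    have i2 := c.eqn _ _ _ _ m k3 (hf.ne e2) (k1 _) (hf.ne e4) (k1 _)
    linear_combination (norm := (ring_nf; reduce_mod_char)) i1 + i2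
  · obtain ⟨-, k1, k2, k3⟩ := hy a b h1 m
    have i1 := c.eqn _ _ _ _ k2 n (hf.ne e1) (hf.ne e2) (k1 _).symm (k1 _).symm
    have i2 := c.eqn _ _ _ _ k3 n (hf.ne e3) (hf.ne e4) (k1 _).symm (k1 _).symm
    linear_combination (norm := (ring_nf; reduce_mod_char)) i1 + i2
  · rcases (hy a b h1 m).1 with rfl | rfl <;> rcases (hy p q h2 n).1 with k | k
    exacts [absurd k.symm e1, absurd k.symm e2, absurd k.symm e3, absurd k.symm e4]

/-- The cocycle can be chosen so that every vertex lies in a region. -/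
theorem exists_good {X : Type*} {H : SimpleGraph X} (T : Theta H) (h : HT H)
    (hz : ∀ v, H.Adj v (T.P 0 (T.n 0)) → ∃ i, T.On i v) :
    ∃ c : Coc H, ∀ v, ∃ r, T.Reg c r v := by
  classical
  obtain ⟨c⟩ := h
  let b : X → ZMod 2 := fun v => if T.Bad c v then 1 else 0
  have hb : ∀ p q, H.Adj p q → p ≠ T.P 0 0 → q ≠ T.P 0 0 → b p = b q := by
    have key : ∀ p q, H.Adj p q → q ≠ T.P 0 0 → T.Bad c p → T.Bad c q := fun p q e m k =>
      T.bad_closed c k e m (by
        rintro rfl
        obtain ⟨i, hi⟩ := hz p e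
        exact k.1 i hi)
    intro p q e m n
    simp only [b]
    rw [propext ⟨key p q e n, key q p e.symm m⟩]
  let s : X → X → ZMod 2 := fun p q => if s(p, q) = s(T.P 2 0, T.P 2 1) then 1 else 0
  have hs : ∀ p q u v, H.Adj u v → p ≠ u → p ≠ v → q ≠ u → q ≠ v →
      s p q * b u + s p q * b v = 0 := by
    intro p q u v e h1 h2 h3 h4
    by_cases m : s(p, q) = s(T.P 2 0, T.P 2 1)
    · have : u ≠ T.P 0 0 ∧ v ≠ T.P 0 0 := by
        rw [T.top 0 2]
        rcases Sym2.eq_iff.1 m with k | k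
        · exact ⟨k.1 ▸ h1.symm, k.1 ▸ h2.symm⟩
        · exact ⟨k.2 ▸ h3.symm, k.2 ▸ h4.symm⟩
      rw [hb u v e this.1 this.2]
      ring_nf; reduce_mod_char
    · simp only [s, m, if_false, zero_mul, add_zero]
  let d : Coc H := ⟨c.t, fun p q v => c.x p q v + s p q * b v, c.anti,
    fun p q v => by simp only [s, c.symm p q, Sym2.eq_swap], fun p q u v e1 e2 h1 h2 h3 h4 => by
      have i1 := c.eqn p q u v e1 e2 h1 h2 h3 h4
      have i2 := hs p q u v e2 h1 h2 h3 h4
      have i3 := hs u v p q e1 h1.symm h3.symm h2.symm h4.symm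
      linear_combination i1 + i2 + i3⟩
  have hf : ∀ i k, k ≤ T.n i → ∀ v,
      T.f d i k v = T.f c i k v + if i = 2 ∧ k ≠ 0 then b v else 0 := by
    intro i k
    induction k with
    | zero => intro _ v; simp [Theta.f]
    | succ k ih =>
      intro hk v
      have t2 := T.two 2
      have ti := T.two i
      have : s (T.P i k) (T.P i (k + 1)) = if i = 2 ∧ k = 0 then 1 else 0 := by
        simp only [s]
        congr 1
        refine propext ⟨fun m => ?_, by rintro ⟨rfl, rfl⟩; rfl⟩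
        rcases Sym2.eq_iff.1 m with m | m
        · have h1 := T.inj _ _ _ _ (by omega) (by omega) m.1
          have h2 := T.inj _ _ _ _ (by omega) (by omega) m.2
          omega
        · have h1 := T.inj _ _ _ _ (by omega) (by omega) m.1
          have h2 := T.inj _ _ _ _ (by omega) (by omega) m.2
          omega
      simp only [Theta.f, Pi.add_apply, ih (by omega), d, this]
      by_cases m : i = 2 <;> by_cases n : k = 0 <;> simp [m, n] <;> ring
  have b0 : ∀ i, b (T.P i 1) = 0 := fun i =>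
    if_neg fun k => k.1 i ⟨1, by have := T.two i; omega, rfl⟩
  have n0 : ∀ i, T.n i ≠ 0 := fun i => by have := T.two i; omega
  have ht : ∀ r v, T.ta d r v = T.ta c r v + if r = 0 then 0 else b v := by
    intro r v
    simp only [Theta.ta, Theta.sd, hf _ _ le_rfl, b0, n0]
    fin_cases r <;> simp [n0] <;> ring
  refine ⟨d, fun v => (T.reg_or_bad d v).resolve_right fun k => ?_⟩
  by_cases m : T.Bad c v
  · have := k.2 1
    rw [ht, m.2 1] at this
    simp only [b, m, if_true] at this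
    exact absurd this (by decide)
  · refine m ⟨k.1, fun r => ?_⟩
    have := k.2 r
    simpa [ht, b, m] using this

variable {V : Type*}

/-- The subgraph on a set of vertices. -/
def subG (G : SimpleGraph V) (R : V → Prop) : SimpleGraph V where
  Adj a b := R a ∧ R b ∧ G.Adj a b
  symm := ⟨fun _ _ h => ⟨h.2.1, h.1, h.2.2.symm⟩⟩
  loopless := ⟨fun _ h => G.irrefl h.2.2⟩

/-- A region with a vertex closing the boundary path and a vertex joined to the boundary. -/
def wh (G : SimpleGraph V) (R B : V → Prop) (u v : V) : SimpleGraph (Option (Option V)) :=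
  apex (apex (subG G R) {u, v}) {x | ∀ a, x = some a → B a}

structure Regs (G : SimpleGraph V) (Q : Fin 3 → ℕ → V) (l : Fin 3 → ℕ) where
  Reg : Fin 3 → V → Prop
  cover : ∀ v, ∃ r, Reg r v
  on : ∀ r i k, k ≤ l i → (Reg r (Q i k) ↔ i = r ∨ i = r + 1 ∨ k = 0)
  closed : ∀ r a b, Reg r a → (∀ i k, k ≤ l i → a ≠ Q i k) → G.Adj a b → Reg r b
  uniq : ∀ r s a, Reg r a → Reg s a → (∀ i k, k ≤ l i → a ≠ Q i k) → r = s
  ht : ∀ r, HT (wh G (Reg r) (fun a => ∃ i k, (i = r ∨ i = r + 1) ∧ k ≤ l i ∧ a = Q i k)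
    (Q r (l r)) (Q (r + 1) (l (r + 1))))

/-- The apex with subdivided edges. -/
def sd3 (G : SimpleGraph V) (u : Fin 3 → V) : SimpleGraph (V ⊕ Option (Fin 3)) where
  Adj
    | .inl a, .inl b => G.Adj a b
    | .inl a, .inr j => ∃ i, j = some i ∧ a = u i
    | .inr j, .inl a => ∃ i, j = some i ∧ a = u i
    | .inr i, .inr j => i.isSome ≠ j.isSome
  symm := ⟨by rintro (a | a) (b | b) h <;> first | exact h | exact h.symm⟩
  loopless := ⟨by rintro (a | a) h; exacts [G.irrefl h, h rfl]⟩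

theorem ht_sd3 {G : SimpleGraph V} {u : Fin 3 → V} (h : HT (apex G {u 0, u 1, u 2})) :
    HT (sd3 G u) := by
  have h1 := h.apex_edge (w := none) (u := some (u 0)) (by simp [apex])
  have h2 := h1.apex_edge (w := some none) (u := some (some (u 1))) (by simp [apex])
  have h3 := h2.apex_edge (w := some (some none)) (u := some (some (some (u 2)))) (by simp [apex])
  refine h3.comap (fun x => match x with
    | .inl a => some (some (some (some a)))
    | .inr none => some (some (some none))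
    | .inr (some i) => ![some (some none), some none, none] i) ?_ ?_
  · rintro (a | _ | a) (b | _ | b) e
    all_goals first | fin_cases a | skip
    all_goals first | fin_cases b | skip
    all_goals simp_all
  · rintro (a | _ | a) (b | _ | b) e
    all_goals first | fin_cases a | skip
    all_goals first | fin_cases b | skip
    all_goals simp_all [sd3, apex]

theorem regions {G : SimpleGraph V} (Q : Fin 3 → ℕ → V) (l : Fin 3 → ℕ)
    (h : HT (apex G {Q 0 (l 0), Q 1 (l 1), Q 2 (l 2)})) (top : ∀ i j, Q i 0 = Q j 0)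
    (adj : ∀ i k, k < l i → G.Adj (Q i k) (Q i (k + 1)))
    (inj : ∀ i j k m, k ≤ l i → m ≤ l j → Q i k = Q j m → (i = j ∧ k = m) ∨ (k = 0 ∧ m = 0))
    (ind : ∀ i k m, k + 1 < m → m ≤ l i → ¬ G.Adj (Q i k) (Q i m)) : Nonempty (Regs G Q l) := by
  let P : Fin 3 → ℕ → V ⊕ Option (Fin 3) := fun i k =>
    if k ≤ l i then .inl (Q i k) else if k = l i + 1 then .inr (some i) else .inr none
  have p1 : ∀ i k, k ≤ l i → P i k = .inl (Q i k) := fun i k m => if_pos m
  have p2 : ∀ i, P i (l i + 1) = .inr (some i) := fun i => by simp [P]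
  have p3 : ∀ i, P i (l i + 2) = .inr none := fun i => by simp [P]
  have cs : ∀ i k, k ≤ l i + 2 → k ≤ l i ∨ k = l i + 1 ∨ k = l i + 2 := fun i k m => by omega
  let T : Theta (sd3 G fun i => Q i (l i)) := ⟨P, fun i => l i + 2, fun i => by omega,
    fun i j => by rw [p1 i 0 (by omega), p1 j 0 (by omega), top i j],
    fun i j => by rw [p3, p3], fun i k m => by
      rcases (by omega : k < l i ∨ k = l i ∨ k = l i + 1) with n | rfl | rfl
      · rw [p1 i k n.le, p1 i _ n]; exact adj i k n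
      · rw [p1 i _ le_rfl, p2]; exact ⟨i, rfl, rfl⟩
      · rw [p2, p3]; simp [sd3],
    fun i j k m h1 h2 e => by
      rcases cs i k h1 with a | rfl | rfl <;> rcases cs j m h2 with b | rfl | rfl <;>
        simp only [p1, p2, p3, *, reduceCtorEq, Sum.inl.injEq, Sum.inr.injEq,
          Option.some.injEq] at e
      · have := inj i j k m a b e; omega
      · subst e; simp
      · simp,
    fun i k m h1 h2 e => by
      rw [p1 i k (by omega)] at e
      rcases cs i m h2 with b | rfl | rfl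
      · rw [p1 i m b] at e; exact ind i k m h1 b e
      · rw [p2] at e
        obtain ⟨j, e1, e2⟩ := e
        obtain rfl := Option.some.inj e1
        have := inj i i k _ (by omega) le_rfl e2
        omega
      · rw [p3] at e
        obtain ⟨j, e1, -⟩ := e
        cases e1⟩
  have on : ∀ i a, T.On i (.inl a) ↔ ∃ k, k ≤ l i ∧ a = Q i k := by
    refine fun i a => ⟨fun ⟨k, m, e⟩ => ?_, fun ⟨k, m, e⟩ =>
      ⟨k, by show k ≤ l i + 2; omega, e ▸ (p1 i k m).symm⟩⟩
    replace e : Sum.inl a = P i k := e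
    rcases cs i k m with b | rfl | rfl
    · rw [p1 i k b] at e; exact ⟨k, b, Sum.inl.inj e⟩
    · rw [p2] at e; cases e
    · rw [p3] at e; cases e
  have oy : ∀ i, T.On i (.inr (some i)) := fun i =>
    ⟨l i + 1, by show _ ≤ l i + 2; omega, (p2 i).symm⟩
  have oz : ∀ i, T.On i (.inr none) := fun i => ⟨l i + 2, le_rfl, (p3 i).symm⟩
  obtain ⟨c, hc⟩ := exists_good T (ht_sd3 h) (by
    show ∀ v, (sd3 G _).Adj v (P 0 (l 0 + 2)) → _
    rw [p3]
    rintro (a | _ | i) e
    · obtain ⟨j, e1, -⟩ := e; cases e1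
    · exact absurd rfl e
    · exact ⟨i, oy i⟩)
  have off : ∀ a, (∀ i k, k ≤ l i → a ≠ Q i k) → ∀ i, ¬ T.On i (.inl a) := fun a m i k =>
    let ⟨k, k1, k2⟩ := (on i a).1 k; m i k k1 k2
  refine ⟨⟨fun r a => T.Reg c r (.inl a), fun v => hc _, fun r i k m => ⟨?_, ?_⟩,
    fun r a b h1 h2 e => T.reg_closed c r h1 (off a h2 _) (off a h2 _) e,
    fun r s a h1 h2 h3 => T.reg_uniq c h1 h2 (off a h3), fun r => ?_⟩⟩
  · rintro (e | e | e)
    · obtain ⟨j, j1, j2⟩ := (on _ _).1 e
      have := inj _ _ _ _ m j1 j2; omega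
    · obtain ⟨j, j1, j2⟩ := (on _ _).1 e
      have := inj _ _ _ _ m j1 j2; omega
    · exact absurd ((on _ _).2 ⟨k, m, rfl⟩) (e.1 i)
  · rintro (rfl | rfl | rfl)
    · exact Or.inl ((on _ _).2 ⟨k, m, rfl⟩)
    · exact Or.inr (Or.inl ((on _ _).2 ⟨k, m, rfl⟩))
    · exact Or.inl ((on _ _).2 ⟨0, by omega, top _ _⟩)
  have ru : ∀ i, i = r ∨ i = r + 1 → (T.wheel c r).Adj (some (.inr none)) (some (.inr (some i))) ∧
      (T.wheel c r).Adj (some (.inl (Q i (l i)))) (some (.inr (some i))) := by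
    intro i hi
    have k : ∀ v, T.On i v → T.Reg c r v := fun v m => by
      rcases hi with rfl | rfl
      exacts [Or.inl m, Or.inr (Or.inl m)]
    exact ⟨⟨k _ (oz i), k _ (oy i), by simp [sd3]⟩,
      k _ ((on _ _).2 ⟨_, le_rfl, rfl⟩), k _ (oy i), i, rfl, rfl⟩
  have bd : ∀ a, (∃ i k, (i = r ∨ i = r + 1) ∧ k ≤ l i ∧ a = Q i k) →
      T.On r (.inl a) ∨ T.On (r + 1) (.inl a) := by
    rintro a ⟨i, k, rfl | rfl, m⟩
    exacts [Or.inl ((on _ _).2 ⟨k, m⟩), Or.inr ((on _ _).2 ⟨k, m⟩)]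
  refine comap_sub (T.ht_wheel c r) (Option.map fun x => match x with
    | none => .inr none
    | some a => .inl a) (Option.map_injective ?_) (some none) ?_
  · rintro (_ | a) (_ | b) e <;> simp_all
  have ny : ∀ (i : Fin 3) (s : Option (Option V)), Option.map (fun x => match x with
      | none => Sum.inr none
      | some a => Sum.inl a) s ≠ some (Sum.inr (some i) : V ⊕ Option (Fin 3)) := by
    rintro i (_ | _ | a) <;> simp
  rintro (_ | _ | a) (_ | _ | b) e
  · exact e.elim
  · exact Or.inl (Or.inl (oz r))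
  · exact Or.inl (bd b (e b rfl))
  · exact Or.inl (Or.inl (oz r))
  · exact e.elim
  · rcases e with rfl | rfl
    · exact Or.inr ⟨Or.inl rfl, _, ny r, ru r (Or.inl rfl)⟩
    · exact Or.inr ⟨Or.inl rfl, _, ny _, ru _ (Or.inr rfl)⟩
  · exact Or.inl (bd a (e a rfl))
  · rcases e with rfl | rfl
    · exact Or.inr ⟨Or.inr rfl, _, ny r, (ru r (Or.inl rfl)).symm⟩
    · exact Or.inr ⟨Or.inr rfl, _, ny _, (ru _ (Or.inr rfl)).symm⟩
  · exact Or.inl e

end Pool.Agent.Lib.MP_ad48ef_co
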