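import Pool.Agent.Lib.MP_ad48ef_co.Ok
import Pool.Agent.Lib.MP_ad48ef_co.Disk
import Pool.Agent.Lib.MP_ad48ef_co.Region

/-!
# Configurations and the intended valuation
-/

namespace Pool.Agent.Lib.MP_ad48ef_co

/-- Reflection of a position. -/
def fp (f : Bool) (i : ℕ) : ℕ := Gl.cn f (Nat.sub 6 i) i

theorem fp_lt (f : Bool) {i : ℕ} (h : i < 7) : fp f i < 7 := by
  cases f
  exacts [h, by show 6 - i < 7; omega]

/-- The reflected disk. -/
def Disk.fl (D : Disk) (f : Bool) : Disk where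
  X := D.X
  G := D.G
  K := D.K
  b i := D.b (fp f i)
  I := D.I
  inj i j hi hj e := by
    have := D.inj _ _ (fp_lt f hi) (fp_lt f hj) e
    cases f
    exacts [this, by change 6 - i = 6 - j at this; omega]
  off i h := D.off _ (fp_lt f h)
  cov x y e := (D.cov x y e).imp_right fun ⟨i, h, k⟩ => ⟨fp f i, fp_lt f h, by
    cases f
    exacts [k, k.trans (congrArg D.b (by show i = 6 - (6 - i); omega))]⟩
  path i h := by
    cases f
    · exact D.path i h
    · have := (D.path (5 - i) (by omega)).symm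
      rwa [show 5 - i + 1 = 6 - i by omega, show 5 - i = 6 - (i + 1) by omega] at this
  non i j hi hj e := D.non _ _ (fp_lt f hi) (fp_lt f hj) (by
    cases f
    exacts [e, by change lev (6 - i) + 2 ≤ lev (6 - j); unfold lev at e ⊢; omega])
  far0 := by cases f; exacts [D.far0, D.far6]
  far6 := by cases f; exacts [D.far6, D.far0]
  d3 := D.d3
  ht := D.ht
  kI := D.kI
  kpath i h := by
    cases f
    · exact D.kpath i h
    · have := (D.kpath (5 - i) (by omega)).symm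
      rwa [show 5 - i + 1 = 6 - i by omega, show 5 - i = 6 - (i + 1) by omega] at this
  kend := by cases f; exacts [D.kend, D.kend.symm]
  khub i h := D.khub _ (fp_lt f h)

namespace Gl

@[simp] theorem bn_eq {a b : Bool} : bn a b = true ↔ a = true ∧ b = true := by
  cases a <;> simp [bn]
@[simp] theorem bo_eq {a b : Bool} : bo a b = true ↔ a = true ∨ b = true := by
  cases a <;> simp [bo]
@[simp] theorem cb_eq {a b c : Bool} :
    cb a b c = true ↔ (a = true ∧ b = true) ∨ (¬ a = true ∧ c = true) := by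
  cases a <;> simp [cb]
@[simp] theorem im_eq {a b : Bool} : im a b = true ↔ (a = true → b = true) := by
  cases a <;> simp [im]
theorem cn_eq (a : Bool) (b c : ℕ) : cn a b c = if a = true then b else c := by cases a <;> rfl
@[simp] theorem lt_eq {a b : ℕ} : lt a b = true ↔ a < b := by
  rw [← not_le, ← Nat.ble_eq, lt]; cases Nat.ble b a <;> simp
@[simp] theorem ne_eq' {a b : ℕ} : ne a b = true ↔ a ≠ b := by
  rw [Ne, ← Nat.beq_eq, ne]; cases Nat.beq a b <;> simp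
theorem r_and {a b : Bool} : (Bool.rec false b a : Bool) = true ↔ a = true ∧ b = true := bn_eq
theorem r_or {a b : Bool} : (Bool.rec b true a : Bool) = true ↔ a = true ∨ b = true := bo_eq
theorem r_im {a b : Bool} : (Bool.rec true b a : Bool) = true ↔ (a = true → b = true) := im_eq

theorem al_eq {n : ℕ} {f : ℕ → Bool} : al n f = true ↔ ∀ i, i < n → f i = true := by
  induction n with
  | zero => simp [al]
  | succ n ih =>
    refine r_and.trans ((and_congr_right' ih).trans ⟨fun h i k => ?_, fun h =>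
      ⟨h n (by omega), fun i k => h i (by omega)⟩⟩)
    rcases Nat.lt_succ_iff_lt_or_eq.1 k with m | rfl
    exacts [h.2 i m, h.1]

theorem an_ok {n : ℕ} {f : ℕ → Bool} (h : an n f = true) : ∃ i, i < n ∧ f i = true := by
  induction n with
  | zero => cases h
  | succ n ih =>
    rcases r_or.1 h with k | k
    · exact ⟨n, by omega, k⟩
    · obtain ⟨i, a, b⟩ := ih k
      exact ⟨i, by omega, b⟩

theorem a10_eq {f : ℕ → Bool} : a10 f = true ↔ ∀ i, i < 10 → f i = true := by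
  simp only [a10, r_and]
  refine ⟨fun ⟨_, _, _, _, _, _, _, _, _, _⟩ i k => by interval_cases i <;> assumption, fun h => ?_⟩
  refine ⟨?_, ?_, ?_, ?_, ?_, ?_, ?_, ?_, ?_, ?_⟩ <;> exact h _ (by omega)

theorem bt_eq (x i : ℕ) : bt x i = x.testBit i := by
  have : Nat.land (Nat.shiftRight x i) 1 = x / 2 ^ i % 2 := by
    rw [← Nat.shiftRight_eq_div_pow]; exact Nat.and_one_is_mod _
  rw [bt, this, Nat.testBit_eq_decide_div_mod_eq, Bool.eq_iff_iff]
  simp

theorem mem_ok {c : List ℕ} {x : ℕ} (h : mem c x = true) : x ∈ c := by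
  induction c with
  | nil => cases h
  | cons a t ih =>
    rcases r_or.1 h with k | k
    · exact Nat.eq_of_beq_eq_true k ▸ List.mem_cons_self
    · exact List.mem_cons_of_mem _ (ih k)

theorem nx_ok {c : List ℕ} {k : ℕ → List ℕ → Bool} (h : nx c k = true) :
    ∃ a t, c = a :: t ∧ k a t = true := by
  cases c
  exacts [absurd h Bool.false_ne_true, ⟨_, _, rfl, h⟩]

theorem fm (x i k : ℕ) : Nat.land (Nat.shiftRight x i) (2 ^ k - 1) = x / 2 ^ i % 2 ^ k := by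
  rw [← Nat.shiftRight_eq_div_pow]; exact Nat.and_two_pow_sub_one_eq_mod _ _

theorem fR_eq (l : ℕ) : fR l = l / 2097152 := Nat.shiftRight_eq_div_pow l 21
theorem fA_eq (l : ℕ) : fA l = l / 32 % 128 := fm l 5 7
theorem fB_eq (l : ℕ) : fB l = l / 4096 % 128 := fm l 12 7
theorem fK_eq (l : ℕ) : fK l = l / 524288 % 4 := fm l 19 2
theorem g1_eq (l : ℕ) : g1 l = l / 32 % 16 := fm l 5 4
theorem g2_eq (l : ℕ) : g2 l = l / 512 % 16 := fm l 9 4
theorem g3_eq (l : ℕ) : g3 l = l / 8192 % 64 := fm l 13 6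
theorem gm_eq (l : ℕ) : gm l = l / 512 % 1024 := fm l 9 10
theorem l31 (l : ℕ) : Nat.land l 31 = l % 32 := Nat.and_two_pow_sub_one_eq_mod l 5
theorem l15 (l : ℕ) : Nat.land l 15 = l % 16 := Nat.and_two_pow_sub_one_eq_mod l 4
theorem rl_eq (R t a b k : ℕ) :
    rl R t a b k = R * 2097152 + k * 524288 + b * 4096 + a * 32 + t := rfl
theorem tv_eq (k a b c : ℕ) : tv k a b c = 6291456 + c * 8192 + b * 512 + a * 32 + k := rfl
theorem isR_eq {l m : ℕ} : isR l m = true ↔ l % 32 = m ∧ l ≤ 6291455 := by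
  rw [isR, r_and, Nat.beq_eq, Nat.ble_eq, l31]
theorem isT_eq {l m : ℕ} : isT l m = true ↔ l % 32 = m ∧ 6291456 ≤ l := by
  rw [isT, r_and, Nat.beq_eq, Nat.ble_eq, l31]
theorem fA_lt (l : ℕ) : fA l < 128 := by rw [fA_eq]; omega
theorem fB_lt (l : ℕ) : fB l < 128 := by rw [fB_eq]; omega
theorem lt16 (x : ℕ) : Nat.land x 15 < 16 := by rw [l15]; omega
theorem rev_lt (S : ℕ) : rev S < 128 := Nat.lt_succ_of_le Nat.and_le_right

theorem rev_tb {S i : ℕ} (h : S < 128) (k : i < 7) : (rev S).testBit (6 - i) = S.testBit i := by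
  have : al 128 (fun S => al 7 fun i => decide (bt (rev S) (6 - i) = bt S i)) = true := by
    decide +kernel
  simpa only [bt_eq, decide_eq_true_eq] using al_eq.1 (al_eq.1 this S h) i k

theorem rfa_lt {t a b : ℕ} (h : a < 128) : rfa t a b < 128 := by
  have := rev_lt a
  simp only [rfa, cn_eq, Nat.sub_eq]
  split_ifs <;> omega

theorem rfb_lt {t a b : ℕ} (h : b < 128) : rfb t a b < 128 := by
  have := rev_lt b
  simp only [rfb, cn_eq, Nat.sub_eq]
  split_ifs <;> omega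

theorem fl_bit {S : ℕ} (h : S < 128) (P : ℕ → Prop) :
    (∃ u, u < 7 ∧ S.testBit u = true ∧ P (6 - u)) ↔
      ∃ u, u < 7 ∧ (rev S).testBit u = true ∧ P u :=
  ⟨fun ⟨u, a, b, c⟩ => ⟨6 - u, by omega, (rev_tb h a).trans b, c⟩, fun ⟨u, a, b, c⟩ =>
    ⟨6 - u, by omega, by rw [← rev_tb h (by omega), show 6 - (6 - u) = u by omega, b],
      by rwa [show 6 - (6 - u) = u by omega]⟩⟩

theorem fl_atom (D : Disk) {t a b : ℕ} (k : ℕ) (ht : t < 16) (ha : a < 128) (hb : b < 128) :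
    (D.fl true).atom t a b k ↔ D.atom t (rfa t a b) (rfb t a b) k := by
  have h1 : ∀ w S, S < 128 → ((D.fl true).A1 w S ↔ D.A1 w (rev S)) := fun w S h =>
    fl_bit h fun u => D.G.Adj w (D.b u)
  have h2 : ∀ w S, S < 128 → ((D.fl true).A2 w S ↔ D.A2 w (rev S)) := fun w S h =>
    fl_bit h fun u => ∃ x, D.G.Adj w x ∧ D.G.Adj x (D.b u)
  have h3 : ∀ p q, (∃ x, D.I x ∧ D.G.Adj p x ∧ D.G.Adj x q) ↔
      ∃ x, D.I x ∧ D.G.Adj q x ∧ D.G.Adj x p := fun p q =>
    ⟨fun ⟨x, a, b, c⟩ => ⟨x, a, c.symm, b.symm⟩, fun ⟨x, a, b, c⟩ => ⟨x, a, c.symm, b.symm⟩⟩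
  have h6 : ∀ x, (D.fl true).In x ↔ D.In x := fun x => or_congr_right
    ⟨fun ⟨i, p, q⟩ => ⟨_, fp_lt true p, q⟩, fun ⟨i, p, q⟩ => ⟨6 - i, by omega,
      q.trans (congrArg D.b (by show i = 6 - (6 - i); omega))⟩⟩
  have h7 : ∀ S, S < 128 → ∀ P : ℕ → Prop, (∀ u, u < 7 → S.testBit u = true → P (6 - u)) ↔
      ∀ u, u < 7 → (rev S).testBit u = true → P u := fun S k P => by
    have := fl_bit k fun u => ¬ P u
    rw [← not_iff_not] at this
    simpa only [not_exists, not_and, not_not] using this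
  have h4 : ∀ p q, (∃ x y, D.I x ∧ D.I y ∧ D.G.Adj p x ∧ D.G.Adj x y ∧ D.G.Adj y q) ↔
      ∃ x y, D.I x ∧ D.I y ∧ D.G.Adj q x ∧ D.G.Adj x y ∧ D.G.Adj y p := fun p q =>
    ⟨fun ⟨x, y, a, b, c, d, e⟩ => ⟨y, x, b, a, e.symm, d.symm, c.symm⟩,
      fun ⟨x, y, a, b, c, d, e⟩ => ⟨y, x, b, a, e.symm, d.symm, c.symm⟩⟩
  have h5 : (∀ w, D.I w → (D.fl true).A1 w a ∨ (D.fl true).A2 w b) ↔
      ∀ w, D.I w → D.A1 w (rev a) ∨ D.A2 w (rev b) :=
    forall₂_congr fun w _ => or_congr (h1 w a ha) (h2 w b hb)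
  interval_cases t
  · exact D.G.adj_comm _ _
  · exact not_congr (D.G.adj_comm _ _)
  · exact imp_congr (D.G.adj_comm _ _) (D.K.adj_comm _ _)
  · exact h3 _ _
  · exact h4 _ _
  · exact h5
  · exact forall₃_congr fun l _ _ => or_congr (exists_congr fun w => and_congr_right' <|
      and_congr_left' (not_congr (h1 w a ha))) (fl_bit hb fun u => ∀ x ∈ l, ¬ D.G.Adj (D.b u) x)
  · exact forall₂_congr fun w _ => or_congr_left (h1 w b hb)
  · rfl
  · refine exists_congr fun x => and_congr_right' <| and_congr_right' <| forall₂_congr fun w _ =>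
      or_congr_left ((h1 w 127 (by omega)).trans (by rw [show rev 127 = 127 by decide +kernel]))
  · rfl
  · rfl
  · exact not_congr h5
  · exact not_congr (h3 _ _)
  · exact forall₃_congr fun x y z => imp_congr (h6 x) <| imp_congr (h6 y) <| imp_congr (h6 z) <|
      imp_congr_right fun _ => imp_congr (h7 b hb fun u => D.b u = x ∨ D.b u = y ∨ D.b u = z) <|
      imp_congr (h7 a ha fun u => Wk D.G (D.b u) x ∨ Wk D.G (D.b u) y ∨ Wk D.G (D.b u) z) <|
      exists_congr fun v => and_congr_left' (h6 v)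
  · exact exists_congr fun l => and_congr_right' <| and_congr_right' <| and_congr_right' <|
      forall₂_congr fun w _ => or_congr_left (h1 w a ha)

/-- The nearest real position. -/
noncomputable def Shp.rt (s : Shp) (R i : ℕ) : ℕ := if s.du R i then if i < 3 then
  if s.du R (i + 1) then if s.du R (i + 2) then 3 else i + 2 else i + 1 else
  if s.du R (i - 1) then if s.du R (i - 2) then 3 else i - 2 else i - 1 else i

/-- Consistency of the tables of a shape. -/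
noncomputable def Shp.wf (s : Shp) : Bool :=
  bn (Nat.ble s.n 10) (bn (lt s.sn (2 ^ 256)) (bn (lt s.sa (2 ^ 256)) (al 3 fun R =>
    bn (lt (s.loc R 3) s.n) (bn (al s.n fun t => bo (Nat.ble 7 (s.pos R t))
      (Nat.beq (s.loc R (s.pos R t)) t)) (bn (al 7 fun i => bo (s.du R i)
      (Nat.beq (s.pos R (s.loc R i)) i)) (bn (al 7 fun i => bn (s.re R (s.rt R i))
      (im (bn (lt i 6) (bo (s.du R i) (s.du R (i + 1)))) (Nat.beq (s.rt R i) (s.rt R (i + 1)))))
      (al 128 fun S => a10 fun t =>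
        decide (bt (s.tm R S) t = bn (lt t s.n) (bn (lt (s.pos R t) 7) (bt S (s.pos R t)))))))))))

structure Shp.Wf (s : Shp) : Prop where
  n : s.n ≤ 10
  sn : s.sn < 2 ^ 256
  sa : s.sa < 2 ^ 256
  l3 : ∀ R, R < 3 → s.loc R 3 < s.n
  pl : ∀ R t, R < 3 → t < s.n → s.pos R t < 7 → s.loc R (s.pos R t) = t
  lp : ∀ R i, R < 3 → i < 7 → s.loc R i < s.n → s.pos R (s.loc R i) = i
  rt : ∀ R i, R < 3 → i < 7 → s.re R (s.rt R i) = true ∧
    (i < 6 → s.n ≤ s.loc R i ∨ s.n ≤ s.loc R (i + 1) → s.rt R i = s.rt R (i + 1))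
  tm : ∀ R S t, R < 3 → S < 128 → ((s.tm R S).testBit t = true ↔
    t < s.n ∧ s.pos R t < 7 ∧ S.testBit (s.pos R t) = true)

theorem Shp.wf_ok {s : Shp} (h : s.wf = true) : s.Wf := by
  simp only [Shp.wf, bn_eq, al_eq, a10_eq, bo_eq, lt_eq, Nat.ble_eq, Nat.beq_eq, Shp.du,
    decide_eq_true_eq, bt_eq, im_eq, and_imp] at h
  obtain ⟨a, b, c, d⟩ := h
  refine ⟨a, b, c, fun R m => (d R m).1, fun R t m k l => ((d R m).2.1 t k).resolve_left (by omega),
    fun R i m k l => ((d R m).2.2.1 i k).resolve_left (by omega),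
    fun R i m k => (d R m).2.2.2.1 i k, fun R S t m k => ?_⟩
  by_cases e : t < 10
  · rw [(d R m).2.2.2.2 S k t e]; simp
  · refine iff_of_false (fun x => ?_) (by omega)
    have : s.tm R S < 2 ^ 10 := Nat.lt_succ_of_le Nat.and_le_right
    rw [Nat.testBit_lt_two_pow (this.trans_le (Nat.pow_le_pow_right (by omega) (by omega)))] at x
    cases x

def Bd {V : Type} (n : ℕ) (T : ℕ → V) (A : V → Prop) (v : V) : Prop := A v ∧ ∃ t, t < n ∧ v = T t

/-- Every vertex is within distance two of a marked vertex, and marked vertices come first. -/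
def RH (s : Shp) {V : Type} (G : SimpleGraph V) (T : ℕ → V) : Prop :=
  (∀ v, ∃ u, u < s.n ∧ s.zz.testBit u = true ∧ D2 G v (T u)) ∧ ∀ u t, u < s.n → t < s.n →
    s.o u t ≠ 0 → s.zz.testBit (s.o u t / 16) = true → G.Adj (T u) (T t) →
    s.zz.testBit (s.o u t % 16) = true

/-- A counterexample cut along a tripod of shape `s`. -/
structure Cfg (s : Shp) where
  V : Type
  G : SimpleGraph V
  T : ℕ → V
  r : V
  Reg : ℕ → V → Prop
  D : ℕ → Disk
  e : ∀ R, V → (D R).X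
  wf : s.Wf
  inj : ∀ u t, u < s.n → t < s.n → T u = T t → u = t
  sa : ∀ u t, u < s.n → t < s.n → s.a u t = true → G.Adj (T u) (T t)
  sn : ∀ u t, u < s.n → t < s.n → s.na u t = true → ¬ G.Adj (T u) (T t)
  s2 : ∀ u t, u < s.n → t < s.n → s.d2 u t = true → D2 G (T u) (T t)
  sf : ∀ u t, u < s.n → t < s.n → s.f u t = true → ¬ D2 G (T u) (T t)
  on : ∀ R t, R < 3 → t < s.n → (Reg R (T t) ↔ s.pos R t < 7)
  cover : ∀ v, ∃ R, R < 3 ∧ Reg R v
  closed : ∀ R a b, R < 3 → Reg R a → (∀ t, t < s.n → a ≠ T t) → G.Adj a b → Reg R b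
  uniq : ∀ R Q a, R < 3 → Q < 3 → Reg R a → Reg Q a → (∀ t, t < s.n → a ≠ T t) → R = Q
  inx : ∀ a b, G.Adj a b → ∃ R, R < 3 ∧ Reg R a ∧ Reg R b ∧
    (D R).K.Adj (some (e R a)) (some (e R b))
  ei : ∀ R, Function.Injective (e R)
  eI : ∀ R x, R < 3 → ((D R).I x ↔ ∃ v, x = e R v ∧ Reg R v ∧ ∀ t, t < s.n → v ≠ T t)
  eA : ∀ R p q, R < 3 → Reg R p → Reg R q → ((D R).G.Adj (e R p) (e R q) ↔ G.Adj p q)
  eb : ∀ R i, R < 3 → i < 7 → s.loc R i < s.n → (D R).b i = e R (T (s.loc R i))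
  ed : ∀ R i y, R < 3 → i < 7 → s.n ≤ s.loc R i → (D R).G.Adj ((D R).b i) y →
    ∃ j, j < 7 ∧ y = (D R).b j ∧ (j = i + 1 ∨ i = j + 1)
  d3 : D3 G
  nd : ND G 6
  dom : s.d ≠ 0 → ∀ v, (∃ t, t < s.n ∧ Wk G v (T t)) ∨ (s.p ≠ 0 ∧ G.Adj v r)
  root : s.p ≠ 0 → (∀ t, t < s.n → r ≠ T t) ∧ G.Adj r (T 0)
  hi : s.p = 0 ∧ s.d ≠ 0 → ∀ l : List V, l.Nodup → (∀ x ∈ l, G.Adj (T 0) x) → l.length ≤ s.d
  lo : s.d ≠ 0 → ∀ v, ∃ l : List V, l.Nodup ∧ (∀ x ∈ l, G.Adj v x) ∧ s.lo ≤ l.length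
  key : ℕ → ℕ
  top : (V → Prop) → V → Prop
  wt : (V → Prop) → V → ℕ
  ord : s.d = 0 → ∀ u t, u < s.n → t < s.n → s.o u t ≠ 0 →
    G.Adj (T u) (T t) ∨ (s.na u t = true ∧ D2 G (T u) (T t)) →
    key (s.o u t % 16) < key (s.o u t / 16)
  tpE : s.d = 0 → ∀ R, R < 3 → ∀ v, Bd s.n T (Reg R) v →
    (top (Bd s.n T (Reg R)) v ↔ s.h3 = true ∧ v = T (s.loc R 3))
  wtE : s.d = 0 → ∀ R i, R < 3 → i < 7 → s.loc R i < s.n →
    wt (Bd s.n T (Reg R)) (T (s.loc R i)) = s.w R i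
  bal : s.d = 0 → ∀ R, R < 3 → ∀ J, J ≤ 127 →
    Ez G J s.wh s.jh (Bd s.n T (Reg R)) (top (Bd s.n T (Reg R))) (wt (Bd s.n T (Reg R)))
      (fun v => ¬ Reg R v) →
    Ez G J s.wh s.jh (Bd s.n T (Reg R)) (top (Bd s.n T (Reg R))) (wt (Bd s.n T (Reg R)))
      fun v => Reg R v ∧ ∀ t, t < s.n → v ≠ T t
  nf : s.d = 0 → NF G (s.lo % 8) ∧ (¬ RH s G T → s.lo % 64 < 40 ∧ NF G (s.lo / 8 % 8))

namespace Cfg

variable {s : Shp} (C : Cfg s)

def Int (R : ℕ) (v : C.V) : Prop := C.Reg R v ∧ ∀ t, t < s.n → v ≠ C.T t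
def A (u t : ℕ) : Prop := C.G.Adj (C.T u) (C.T t)
def B (u t : ℕ) : Prop := D2 C.G (C.T u) (C.T t)

def Ew (J R : ℕ) (S : C.V → Prop) : Prop := Ez C.G J s.wh s.jh (Bd s.n C.T (C.Reg R))
  (C.top (Bd s.n C.T (C.Reg R))) (C.wt (Bd s.n C.T (C.Reg R))) S

def ts (k a b c : ℕ) : Prop :=
  match k with
  | 0 => C.A a b
  | 1 => ¬ C.A a b
  | 2 => C.B a b
  | 3 => C.A a b ∧ C.A b c
  | 4 => C.B a b ∧ C.A b c
  | 5 => ∃ x, ¬ C.Reg a x ∧ C.G.Adj (C.T b) x ∧ C.G.Adj x (C.T c)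
  | 6 => ¬ C.Ew (b + 16 * c) a fun v => ¬ C.Reg a v
  | 7 => ¬ C.B a b
  | 8 => ∀ u, u < 10 → (b + 16 * c).testBit u = true → ¬ C.B a u
  | 9 => ∃ w, C.Int a w ∧ ∀ u, u < 10 → (b + 16 * c).testBit u = true → ¬ D2 C.G w (C.T u)
  | _ => RH s C.G C.T

def val (x : ℕ) : Prop := if x < 3145728 then (C.D (x / 1048576)).holds (x % 1048576)
  else C.ts (x % 16) (x / 16 % 16) (x / 256 % 16) (x / 4096 % 64)

def sg (m : ℕ) (P : Prop) : Prop := if m % 2 = 0 then P else ¬ P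

theorem lit_R {l : ℕ} (h : l ≤ 6291455) : litv C.val l ↔
    sg (l % 32) ((C.D (fR l)).atom (l % 32 / 2) (fA l) (fB l) (fK l)) := by
  rw [litv, sg, val, if_pos (show l / 2 < 3145728 by omega), Disk.holds, fR_eq, fA_eq, fB_eq, fK_eq,
    show l % 32 % 2 = l % 2 by omega, show l / 2 / 1048576 = l / 2097152 by omega,
    show l / 2 % 1048576 % 16 = l % 32 / 2 by omega,
    show l / 2 % 1048576 / 16 % 128 = l / 32 % 128 by omega,
    show l / 2 % 1048576 / 2048 % 128 = l / 4096 % 128 by omega,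
    show l / 2 % 1048576 / 262144 = l / 524288 % 4 by omega]

theorem lit_T {l : ℕ} (h : 6291456 ≤ l) :
    litv C.val l ↔ sg (l % 32) (C.ts (l % 32 / 2) (g1 l) (g2 l) (g3 l)) := by
  rw [litv, sg, val, if_neg (show ¬ l / 2 < 3145728 by omega), g1_eq, g2_eq, g3_eq,
    show l % 32 % 2 = l % 2 by omega,
    show l / 2 % 16 = l % 32 / 2 by omega, show l / 2 / 16 % 16 = l / 32 % 16 by omega,
    show l / 2 / 256 % 16 = l / 512 % 16 by omega, show l / 2 / 4096 % 64 = l / 8192 % 64 by omega]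

theorem lit_rl {R m a b k : ℕ} (hR : R < 3) (hm : m < 32) (ha : a < 128) (hb : b < 128)
    (hk : k < 4) : litv C.val (rl R m a b k) ↔ sg m ((C.D R).atom (m / 2) a b k) := by
  rw [C.lit_R (by rw [rl_eq]; omega), show rl R m a b k % 32 = m by rw [rl_eq]; omega,
    show fR (rl R m a b k) = R by rw [fR_eq, rl_eq]; omega,
    show fA (rl R m a b k) = a by rw [fA_eq, rl_eq]; omega,
    show fB (rl R m a b k) = b by rw [fB_eq, rl_eq]; omega,
    show fK (rl R m a b k) = k by rw [fK_eq, rl_eq]; omega]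

theorem lit_tv {m a b c : ℕ} (hm : m < 32) (ha : a < 16) (hb : b < 16) (hc : c < 64) :
    litv C.val (tv m a b c) ↔ sg m (C.ts (m / 2) a b c) := by
  rw [C.lit_T (by rw [tv_eq]; omega), show tv m a b c % 32 = m by rw [tv_eq]; omega,
    show g1 (tv m a b c) = a by rw [g1_eq, tv_eq]; omega,
    show g2 (tv m a b c) = b by rw [g2_eq, tv_eq]; omega,
    show g3 (tv m a b c) = c by rw [g3_eq, tv_eq]; omega]

theorem lit_tw {m a S : ℕ} (hm : m < 32) (ha : a < 16) (hS : S < 1024) :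
    litv C.val (tv m a S 0) ↔ sg m (C.ts (m / 2) a (S % 16) (S / 16)) := by
  rw [← C.lit_tv hm ha (by omega) (by omega),
    show tv m a S 0 = tv m a (S % 16) (S / 16) by rw [tv_eq, tv_eq]; omega]

theorem lit0 : ¬ litv C.val 0 := fun h =>
  (C.D 0).G.irrefl ((C.lit_rl (R := 0) (m := 0) (a := 0) (b := 0) (k := 0) (by omega) (by omega)
    (by omega) (by omega) (by omega)).1 h)

theorem lit1 : litv C.val 1 :=
  (C.lit_rl (R := 0) (m := 1) (a := 0) (b := 0) (k := 0) (by omega) (by omega)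
    (by omega) (by omega) (by omega)).2 (C.D 0).G.irrefl

theorem ts_symm {k : ℕ} (h : k < 3 ∨ k = 7) (a b c d : ℕ) : C.ts k a b c ↔ C.ts k b a d := by
  rcases h with h | rfl
  · interval_cases k
    exacts [C.G.adj_comm _ _, not_congr (C.G.adj_comm _ _), ⟨D2.symm, D2.symm⟩]
  · exact not_congr ⟨D2.symm, D2.symm⟩

theorem lit_tp {m a b : ℕ} (c : ℕ) (hm : m < 6 ∨ m = 14 ∨ m = 15) (ha : a < 16) (hb : b < 16) :
    litv C.val (tp m a b) ↔ sg m (C.ts (m / 2) a b c) := by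
  rw [tp, cn_eq]
  split_ifs
  · rw [C.lit_tv (by omega) ha hb (by omega), C.ts_symm (by omega) a b 0 0,
      C.ts_symm (by omega) b a 0 c]
  · rw [C.lit_tv (by omega) hb ha (by omega), C.ts_symm (by omega) b a 0 c]

end Cfg

end Gl

end Pool.Agent.Lib.MP_ad48ef_co
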