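import Pool.Agent.Lib.MP_ad48ef_co.Glue2

/-!
# Soundness of the clause test, local families
-/

namespace Pool.Agent.Lib.MP_ad48ef_co.Gl.Cfg

variable {s : Shp} {C : Cfg s} {c : List ℕ} {R l l' m i t u a b k S : ℕ} {v w x : C.V}

def N (C : Cfg s) (c : List ℕ) : Prop := ∀ l ∈ c, ¬ litv C.val l

theorem N.cons (h : C.N (l :: c)) : ¬ litv C.val l ∧ C.N c :=
  ⟨h l List.mem_cons_self, fun x k => h x (List.mem_cons_of_mem _ k)⟩

theorem N.has (h : C.N c) (e : has c l = true) : ¬ litv C.val l := by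
  rcases bo_eq.1 e with e | e
  exacts [Nat.eq_of_beq_eq_true e ▸ C.lit0, h _ (mem_ok e)]

theorem rp (t : ℕ) (h : ¬ litv C.val l) (e : isR l (2 * t) = true) :
    fR l < 3 ∧ ¬ (C.D (fR l)).atom t (fA l) (fB l) (fK l) := by
  obtain ⟨e1, e2⟩ := isR_eq.1 e
  rw [C.lit_R e2, e1, sg, if_pos (by omega), show 2 * t / 2 = t by omega] at h
  exact ⟨by rw [fR_eq]; omega, h⟩

theorem rn (t : ℕ) (h : ¬ litv C.val l) (e : isR l (2 * t + 1) = true) :
    (C.D (fR l)).atom t (fA l) (fB l) (fK l) := by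
  obtain ⟨e1, e2⟩ := isR_eq.1 e
  rwa [C.lit_R e2, e1, sg, if_neg (by omega), show (2 * t + 1) / 2 = t by omega, not_not] at h

theorem tn (t : ℕ) (h : ¬ litv C.val l) (e : isT l (2 * t + 1) = true) :
    C.ts t (g1 l) (g2 l) (g3 l) := by
  obtain ⟨e1, e2⟩ := isT_eq.1 e
  rwa [C.lit_T e2, e1, sg, if_neg (by omega), show (2 * t + 1) / 2 = t by omega, not_not] at h

theorem N.rl (h : C.N c) (hR : R < 3) (e : mem c (rl R m a b k) = true)
    (p : m < 32 ∧ a < 128 ∧ b < 128 ∧ k < 4) : ¬ sg m ((C.D R).atom (m / 2) a b k) :=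
  fun x => h _ (mem_ok e) ((C.lit_rl hR p.1 p.2.1 p.2.2.1 p.2.2.2).2 x)

theorem I_e (hR : R < 3) (h : C.Int R v) : (C.D R).I (C.e R v) := (C.eI R _ hR).2 ⟨v, rfl, h⟩

theorem reg_loc (hR : R < 3) (hi : i < 7) (h : s.loc R i < s.n) : C.Reg R (C.T (s.loc R i)) :=
  (C.on R _ hR h).2 (by rwa [C.wf.lp R i hR hi h])

theorem b_pos (hR : R < 3) (ht : t < s.n) (h : s.pos R t < 7) :
    (C.D R).b (s.pos R t) = C.e R (C.T t) := by
  rw [C.eb R _ hR h (by rwa [C.wf.pl R t hR ht h]), C.wf.pl R t hR ht h]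

theorem Int.reg (h : C.Int R v) (hR : R < 3) (a : C.G.Adj v x) : C.Reg R x :=
  C.closed R v x hR h.1 h.2 a

theorem Int.wk (h : C.Int R v) (hR : R < 3) (a : Wk C.G v x) : C.Reg R x := by
  rcases a with rfl | a
  exacts [h.1, h.reg hR a]

theorem Int.adj (h : C.Int R v) (hR : R < 3) (a : C.G.Adj v x) :
    (C.D R).G.Adj (C.e R v) (C.e R x) := (C.eA R v x hR h.1 (h.reg hR a)).2 a

theorem Int.nb (h : C.Int R v) (hR : R < 3) (hi : i < 7)
    (a : (C.D R).G.Adj (C.e R v) ((C.D R).b i)) : s.loc R i < s.n ∧ C.G.Adj v (C.T (s.loc R i)) := by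
  by_cases e : s.loc R i < s.n
  · rw [C.eb R i hR hi e] at a
    exact ⟨e, (C.eA R _ _ hR h.1 (reg_loc hR hi e)).1 a⟩
  · obtain ⟨j, j1, j2, -⟩ := C.ed R i _ hR hi (by omega) a.symm
    exact absurd (j2 ▸ I_e hR h) ((C.D R).off j j1)

theorem Int.pos (h : C.Int R v) (hR : R < 3) (ht : t < s.n) (a : C.G.Adj v (C.T t)) :
    s.pos R t < 7 := (C.on R t hR ht).1 (h.reg hR a)

theorem Int.bp (h : C.Int R v) (hR : R < 3) (ht : t < s.n) (a : C.G.Adj v (C.T t)) :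
    (C.D R).G.Adj (C.e R v) ((C.D R).b (s.pos R t)) := by
  rw [b_pos hR ht (h.pos hR ht a)]; exact h.adj hR a

theorem cs (hR : C.Reg R v) : (∃ t, t < s.n ∧ v = C.T t) ∨ C.Int R v := by
  by_cases e : ∃ t, t < s.n ∧ v = C.T t
  exacts [Or.inl e, Or.inr ⟨hR, fun t k m => e ⟨t, k, m⟩⟩]

theorem split (v : C.V) : (∃ t, t < s.n ∧ v = C.T t) ∨ ∃ R, R < 3 ∧ C.Int R v :=
  let ⟨R, a, b⟩ := C.cover v; (cs b).imp_right fun k => ⟨R, a, k⟩

theorem lift (hR : R < 3) (L : List (C.D R).X) (h : ∀ x ∈ L, (C.D R).I x) :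
    ∃ M : List C.V, L = M.map (C.e R) ∧ ∀ v ∈ M, C.Int R v := by
  induction L with
  | nil => exact ⟨[], rfl, by simp⟩
  | cons x L ih =>
    obtain ⟨M, rfl, k⟩ := ih fun y m => h y (List.mem_cons_of_mem _ m)
    obtain ⟨v, rfl, e⟩ := (C.eI R x hR).1 (h x List.mem_cons_self)
    exact ⟨v :: M, rfl, List.forall_mem_cons.2 ⟨e, k⟩⟩

theorem Int.A1 (h : C.Int R v) (hR : R < 3) (hS : S < 128) : (C.D R).A1 (C.e R v) S ↔
    ∃ t, (s.tm R S).testBit t = true ∧ C.G.Adj v (C.T t) := by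
  refine ⟨fun ⟨i, a, b, e⟩ => ?_, fun ⟨t, a, b⟩ => ?_⟩
  · obtain ⟨e1, e2⟩ := h.nb hR a e
    refine ⟨_, (C.wf.tm R S _ hR hS).2 ⟨e1, ?_⟩, e2⟩
    rw [C.wf.lp R i hR a e1]
    exact ⟨a, b⟩
  · obtain ⟨a1, a2, a3⟩ := (C.wf.tm R S t hR hS).1 a
    exact ⟨_, a2, a3, h.bp hR a1 b⟩

theorem Int.A2 (h : C.Int R v) (hR : R < 3) (hS : S < 128) (a : (s.tm R S).testBit t = true)
    (p : C.G.Adj v x) (q : C.G.Adj x (C.T t)) : (C.D R).A2 (C.e R v) S := by
  obtain ⟨a1, a2, a3⟩ := (C.wf.tm R S t hR hS).1 a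
  refine ⟨_, a2, a3, _, h.adj hR p, ?_⟩
  rw [b_pos hR a1 a2]
  exact (C.eA R _ _ hR (h.reg hR p) ((C.on R t hR a1).2 a2)).2 q

theorem tm127 (hR : R < 3) : (s.tm R 127).testBit t = true ↔ t < s.n ∧ C.Reg R (C.T t) := by
  rw [C.wf.tm R 127 t hR (by omega)]
  refine and_congr_right fun k => (and_iff_left_of_imp fun e => ?_).trans (C.on R t hR k).symm
  generalize s.pos R t = j at e
  interval_cases j <;> rfl

theorem nban (hR : R < 3) (ha : a < 128) (hb : b < 128) (h : ¬ (C.D R).atom 5 a b k) :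
    ∃ w, C.Int R w ∧ (∀ t, (s.tm R a).testBit t = true → ¬ C.G.Adj w (C.T t)) ∧
      ∀ t x, (s.tm R b).testBit t = true → C.G.Adj w x → ¬ C.G.Adj x (C.T t) := by
  obtain ⟨y, h⟩ := not_forall.1 h
  obtain ⟨h1, h2⟩ := Classical.not_imp.1 h
  obtain ⟨w, rfl, k⟩ := (C.eI R y hR).1 h1
  exact ⟨w, k, fun t p q => h2 (Or.inl ((Int.A1 k hR ha).2 ⟨t, p, q⟩)),
    fun t x p q r => h2 (Or.inr (Int.A2 k hR hb p q r))⟩

theorem nd0 (h : ¬ litv C.val l) (q : isR l 12 = true) (e2 : fB l = 0) (e3 : fK l = 0)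
    (w : (C.D (fR l)).X) (a : (C.D (fR l)).I w) : (C.D (fR l)).A1 w (fA l) := by
  by_contra k
  refine (rp 6 h q).2 fun L p _ => Or.inl ⟨w, a, k, ?_⟩
  rw [List.eq_nil_of_length_eq_zero (by omega : L.length = 0)]
  simp

theorem mono_ok (h : ¬ litv C.val l) (h' : ¬ litv C.val l') (e : mono l l' = true) : False := by
  simp only [mono, bn_eq, bo_eq, cb_eq, Nat.beq_eq, Nat.ble_eq] at e
  obtain ⟨e0, e⟩ := e
  have m1 : ∀ {a b w}, sub a b = true → (C.D (fR l')).A1 w a → (C.D (fR l')).A1 w b :=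
    fun e ⟨i, p, q, r⟩ => ⟨i, p, sub_tb e q, r⟩
  have m2 : ∀ {a b w}, sub a b = true → (C.D (fR l')).A2 w a → (C.D (fR l')).A2 w b :=
    fun e ⟨i, p, q, r⟩ => ⟨i, p, sub_tb e q, r⟩
  rcases e with ⟨p, q, e1, e2, e3⟩ | ⟨-, ⟨p, q, e1, e2⟩ | ⟨-, ⟨p, e1, ⟨q, e2⟩ | ⟨q, e2, e3⟩⟩ |
    ⟨-, ⟨p, q, e1, e2, e3⟩ | ⟨-, ⟨p, q, e1, e2⟩ |
    ⟨-, ⟨p, q, e1, e2⟩ | ⟨-, ⟨p, q, e1, e2⟩ | ⟨-, ⟨p, q, e1, e2⟩ | ⟨-, p, q, e1⟩⟩⟩⟩⟩⟩⟩⟩
  · exact (rp 6 h' q).2 fun L a b => ((e0 ▸ rn 6 h p) L (a.trans e3) b).imp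
      (Exists.imp fun _ => And.imp_right (And.imp_left (mt (m1 e1))))
      (Exists.imp fun _ => And.imp_right (And.imp_left (sub_tb e2)))
  · exact (rp 5 h' q).2 fun w a => ((e0 ▸ rn 5 h p) w a).imp (m1 e1) (m2 e2)
  · exact (rp 12 h' q).2 fun k => (e0 ▸ rn 12 h p) fun w a => (k w a).imp (m1 e1) (m2 e2)
  · refine (e0 ▸ rn 12 h p) fun w a => Or.inl (m1 e1 (nd0 h' q e2 e3 w a))
  · refine (rp 14 h' q).2 fun x y z a b c d f g => ?_
    obtain ⟨x', y', z', d', k, i⟩ := lev_up (Nat.succ_le_succ e3) d (C.D _).In a b c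
      fun u v p q => q.elim (fun m => m ▸ p) ((C.D _).cov u v)
    obtain ⟨v, v1, v2⟩ := (e0 ▸ rn 14 h p) x' y' z' i.1 i.2.1 i.2.2 d'
      (fun u p q => k (_ = ·) (f u p (sub_tb e2 q))) fun u p q => k _ (g u p (sub_tb e1 q))
    exact ⟨v, v1, far_of k (D2 _ v) v2⟩
  · exact (rp 7 h' q).2 fun w a => ((e0 ▸ e1 ▸ rn 7 h p) w a).imp_left (m1 e2)
  · exact (rp 8 h' q).2 fun L a b => ((e0 ▸ e1 ▸ rn 8 h p) L a b).trans e2
  · obtain ⟨L, a, b, d⟩ := e0 ▸ e1 ▸ rn 10 h p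
    exact (rp 10 h' q).2 ⟨L, a, b, e2.trans d⟩
  · obtain ⟨L, a, b, d, f⟩ := e0 ▸ e2 ▸ rn 15 h p
    exact (rp 15 h' q).2 ⟨L, a, b, d, fun w k => (f w k).imp_left (m1 e1)⟩
  · exact (rp 11 h' q).2 fun w a =>
      let ⟨L, b, d, f⟩ := (e0 ▸ rn 11 h p) w a; ⟨L, b, d, e1.trans f⟩

theorem cpl {P Q : Prop} {n : ℕ} (e : m % 2 = n % 2) (h : Q ↔ ¬ P) (p : ¬ sg m P)
    (q : ¬ sg n Q) : False := by
  unfold sg at p q
  rw [e, h] at *
  split_ifs at p q <;> tauto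

theorem cpr (d j : ℕ) (h : ¬ litv C.val l) (h' : ¬ litv C.val l') (hl : l ≤ 6291455)
    (e : l' = l + (2 * d + 524288 * j)) (e1 : l % 32 / 2 + d < 16) (e2 : fK l + j < 4)
    (k : (C.D (fR l)).atom (l % 32 / 2 + d) (fA l) (fB l) (fK l + j) ↔
      ¬ (C.D (fR l)).atom (l % 32 / 2) (fA l) (fB l) (fK l)) : False := by
  rw [fK_eq] at e2
  rw [C.lit_R hl] at h
  rw [C.lit_R (by omega), show fR l' = fR l by rw [fR_eq, fR_eq]; omega,
    show fA l' = fA l by rw [fA_eq, fA_eq]; omega, show fB l' = fB l by rw [fB_eq, fB_eq]; omega,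
    show fK l' = fK l + j by rw [fK_eq, fK_eq]; omega,
    show l' % 32 / 2 = l % 32 / 2 + d by omega] at h'
  exact cpl (by omega) k h h'

theorem cp_ok (h : ¬ litv C.val l) (h' : ¬ litv C.val l') (e : cp l l' = true) : False := by
  simp only [cp, bn_eq, bo_eq, cb_eq, Nat.beq_eq, Nat.ble_eq, l31, Nat.add_eq] at e
  have k4 := fK_eq l
  have tb : ∀ m, m < 32 → (bt 3072 m = true → m / 2 = 5) ∧ (bt 192 m = true → m / 2 = 3)
      ∧ (bt 196608 m = true → m / 2 = 8) ∧ (bt 48 m = true → m / 2 = 2) := by decide +kernel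
  obtain ⟨t1, t2, t3, t4⟩ := tb (l % 32) (by omega)
  rcases e with ⟨e1, e2⟩ | ⟨e0, ⟨e1, e2 | ⟨e2, e3, e4⟩⟩ | ⟨e1, e2⟩ | ⟨e1, e2, e3⟩ |
    ⟨e1, e2, e3, e4, e5, e6⟩⟩ | ⟨e0, e1, e2⟩
  · have z : l % 32 / 2 = 0 := by omega
    by_cases m : l ≤ 6291455
    · exact cpr 1 0 h h' m e2 (by omega) (by omega) (by rw [z]; rfl)
    · rw [C.lit_T (by omega), z] at h
      rw [C.lit_T (by omega), show g1 l' = g1 l by rw [g1_eq, g1_eq]; omega,
        show g2 l' = g2 l by rw [g2_eq, g2_eq]; omega, show l' % 32 / 2 = 1 by omega] at h'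
      exact cpl (by omega) Iff.rfl h h'
  · exact cpr 7 0 h h' e0 e2 (by have := t1 e1; omega) (by omega) (by rw [t1 e1]; rfl)
  · refine cpr 1 0 h h' e0 e2 (by have := t1 e1; omega) (by omega) ?_
    rw [t1 e1, e3, e4]
    refine ⟨fun p q => ?_, fun p L a _ => Or.inl ?_⟩
    · rcases p [] le_rfl (by simp) with ⟨w, a, b, -⟩ | ⟨u, -, b, -⟩
      · rcases q w a with q | ⟨u, -, q, -⟩
        exacts [b q, by simp at q]
      · simp at b
    · obtain ⟨w, p⟩ := not_forall.1 p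
      obtain ⟨p1, p2⟩ := Classical.not_imp.1 p
      obtain rfl : L = [] := List.eq_nil_of_length_eq_zero (by omega)
      exact ⟨w, p1, fun k => p2 (Or.inl k), by simp⟩
  · exact cpr 10 0 h h' e0 e2 (by have := t2 e1; omega) (by omega) (by rw [t2 e1]; rfl)
  · refine cpr 2 1 h h' e0 e2 (by have := t3 e1; omega) (by omega) ?_
    rw [t3 e1]
    refine ⟨fun ⟨L, a, b, d⟩ q => by have := q L a b; omega, fun p => ?_⟩
    by_contra q
    exact p fun L a b => by by_contra r; exact q ⟨L, a, b, by omega⟩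
  · obtain ⟨L, -, a, b, d⟩ := e3 ▸ rn 15 h e1
    rcases rn 6 h' e2 L (by omega) b with ⟨w, w1, w2, w3⟩ | ⟨u, -, w, -⟩
    · rcases d w w1 with ⟨i, p, q, r⟩ | ⟨x, p, q⟩
      exacts [w2 ⟨i, p, sub_tb e4 q, r⟩, w3 x p q]
    · simp [e5] at w
  · have z := t4 e1
    rw [C.lit_T (by omega), z] at h
    rw [C.lit_T (by omega), show g1 l' = g1 l by rw [g1_eq, g1_eq]; omega,
      show g2 l' = g2 l by rw [g2_eq, g2_eq]; omega, show l' % 32 / 2 = 7 by omega] at h'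
    exact cpl (by omega) Iff.rfl h h'

theorem pos16 (R t : ℕ) : s.pos R t < 16 := lt16 _

theorem cats_ok {z : ℕ} (h : C.N c) (e : cats s c m u t z = true) (hm : m < 32) (hR : R < 3)
    (hz : R ≠ z) (hu : s.pos R u < 7) (ht : s.pos R t < 7)
    (p : sg m ((C.D R).atom (m / 2) (s.pos R u) (s.pos R t) 0))
    (q : sg m ((C.D R).atom (m / 2) (s.pos R t) (s.pos R u) 0)) : False := by
  have := al_eq.1 e R hR
  simp only [cat, bo_eq, Nat.beq_eq, Nat.ble_eq, cn_eq] at this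
  rcases this with k | k | k | k
  · exact hz k
  · omega
  · omega
  split_ifs at k
  exacts [absurd p (h.rl hR k (by omega)), absurd q (h.rl hR k (by omega))]

theorem re_eq : s.re R i = true ↔ i < 7 ∧ s.loc R i < s.n := by
  simp only [Shp.re, bn_eq, Nat.ble_eq, lt_eq]; omega

theorem at0 (hR : R < 3) (ha : s.re R a = true) (hb : s.re R b = true) :
    (C.D R).G.Adj ((C.D R).b a) ((C.D R).b b) ↔ C.A (s.loc R a) (s.loc R b) := by
  obtain ⟨a1, a2⟩ := re_eq.1 ha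
  obtain ⟨b1, b2⟩ := re_eq.1 hb
  rw [C.eb R a hR a1 a2, C.eb R b hR b1 b2]
  exact C.eA R _ _ hR (reg_loc hR a1 a2) (reg_loc hR b1 b2)

theorem Int.dom (h : C.Int R w) (hR : R < 3) (hd : s.d ≠ 0) :
    (∃ t, (s.tm R 127).testBit t = true ∧ C.G.Adj w (C.T t)) ∨ (s.p ≠ 0 ∧ C.G.Adj w C.r) := by
  refine (C.dom hd w).imp_left fun ⟨t, a, b⟩ => ?_
  have := b.resolve_left (h.2 t a)
  exact ⟨t, (tm127 hR).2 ⟨a, h.reg hR this⟩, this⟩

theorem stem (hd : s.d ≠ 0) (hR : R < 3) (hb : b < 128) (h : ¬ (C.D R).atom 5 127 b k) :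
    s.p ≠ 0 ∧ C.Int R C.r := by
  obtain ⟨w, w1, w2, -⟩ := nban hR (by omega) hb h
  obtain ⟨p, q⟩ := (w1.dom hR hd).resolve_left fun ⟨t, a, b⟩ => w2 t a b
  exact ⟨p, w1.reg hR q, (C.root p).1⟩

theorem unit_ok (h : C.N c) (hl : ¬ litv C.val l)
    (e : unit s c l (fR l) (fA l) (fB l) = true) : False := by
  simp only [unit, bn_eq, bo_eq, ne_eq', Nat.beq_eq, Nat.ble_eq, Shp.du, Nat.add_eq] at e
  rcases e with ⟨e0, e1, e2, e3⟩ | ⟨e0, e1, e2, e3⟩ | ⟨e0, e1, e2⟩ | ⟨e0, ⟨e1, hd⟩, e2⟩ |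
    ⟨⟨e0, hd⟩, e1⟩
  · have : fR l < 3 ∧ (C.D (fR l)).G.Adj ((C.D _).b (fA l)) ((C.D _).b (fB l)) := by
      rcases e0 with e0 | e0
      exacts [⟨(rp 1 hl e0).1, not_not.1 (rp 1 hl e0).2⟩,
        ⟨(rp 2 hl e0).1, (Classical.not_imp.1 (rp 2 hl e0).2).1⟩]
    rcases e3 with e3 | e3
    · obtain ⟨j, j1, j2, j3⟩ := C.ed _ _ _ this.1 (by omega) e3 this.2
      have := (C.D _).inj _ _ (by omega) j1 j2
      omega
    · obtain ⟨j, j1, j2, j3⟩ := C.ed _ _ _ this.1 (by omega) e3 this.2.symm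
      have := (C.D _).inj _ _ (by omega) j1 j2
      omega
  · obtain ⟨p, q⟩ := rp 2 hl e0
    obtain ⟨R, r1, r2, r3, r4⟩ := C.inx _ _ ((at0 p e1 e2).1 (Classical.not_imp.1 q).1)
    have a1 := (re_eq.1 e1).2
    have a2 := (re_eq.1 e2).2
    have b1 := (C.on R _ r1 a1).1 r2
    have b2 := (C.on R _ r1 a2).1 r3
    rw [← b_pos r1 a1 b1, ← b_pos r1 a2 b2] at r4
    exact cats_ok h e3 (by omega) r1 (by omega) b1 b2 (fun _ => r4) fun _ => r4.symm
  · obtain ⟨p, q⟩ := rp 8 hl e0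
    refine q fun L _ k => ?_
    rcases L with _ | ⟨x, L⟩
    · exact Nat.zero_le _
    obtain ⟨k1, k2⟩ := k x List.mem_cons_self
    obtain ⟨j, j1, rfl, -⟩ := C.ed _ _ _ p (by omega) e2 k2.symm
    exact absurd k1 ((C.D _).off j j1)
  · obtain ⟨p, q⟩ := rp 5 hl e0
    obtain ⟨q1, q2⟩ := stem hd p (fB_lt l) (e1 ▸ q)
    have n0 : 0 < s.n := Nat.zero_lt_of_lt (C.wf.l3 0 (by omega))
    rcases e2 with e2 | e2 | ⟨e2, e3⟩ | e2
    · exact q1 e2
    · have := q2.pos p n0 (C.root q1).2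
      omega
    · refine absurd ⟨_, I_e p q2, ?_, fun y k => ?_⟩ (h.rl p e3 (by omega))
      · rw [C.eb _ 3 p (by omega) (by omega), e2]
        exact q2.adj p (C.root q1).2
      · obtain ⟨w, rfl, j⟩ := (C.eI _ y p).1 k
        exact (Int.dom j p hd).imp (Int.A1 j p (by omega)).2 fun m => Int.adj j p m.2
    · obtain ⟨Q, a1, a2⟩ := an_ok e2
      rw [bn_eq, ne_eq'] at a2
      exact a2.1 (C.uniq _ _ _ a1 p
        (stem (k := 0) hd a1 (by omega) (h.rl a1 a2.2 (by omega))).2.1 q2.1 q2.2)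
  · obtain ⟨p, q⟩ := rp 11 hl e0
    refine q fun y k => ?_
    obtain ⟨w, rfl, j⟩ := (C.eI _ y p).1 k
    obtain ⟨L, a, b, d⟩ := C.lo hd w
    refine ⟨L.map (C.e _), a.map (C.ei _), fun x m => ?_, by rw [List.length_map]; omega⟩
    obtain ⟨z, z1, rfl⟩ := List.mem_map.1 m
    exact Int.adj j p (b z z1)

theorem cnt_eq (n : ℕ) (f : ℕ → Bool) : cnt n f = ((List.range n).filter f).length := by
  induction n with
  | zero => rfl
  | succ n ih =>
    rw [List.range_succ, List.filter_append, List.length_append, ← ih]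
    show (Bool.rec (cnt n f) (cnt n f).succ (f n) : ℕ) = _
    cases e : f n <;> simp [e]

theorem dg_ok (h : C.N c) (hR : R < 3) : ∃ L : List C.V, L.Nodup ∧
    (∀ v ∈ L, C.Int R v ∧ C.G.Adj (C.T 0) v) ∧ dg s c R ≤ L.length := by
  rw [dg, cn_eq]
  split_ifs with e
  swap
  · exact ⟨[], by simp⟩
  rw [Nat.beq_eq] at e
  suffices ∀ n, n ≤ 4 → ∃ L : List C.V, L.Nodup ∧ (∀ v ∈ L, C.Int R v ∧ C.G.Adj (C.T 0) v) ∧
    (Nat.rec 0 (fun k r => cn (mem c (rl R 16 3 0 k)) (Nat.succ k) r) n : ℕ) ≤ L.length from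
    this 4 le_rfl
  intro n hn
  induction n with
  | zero => exact ⟨[], by simp⟩
  | succ n ih =>
    show ∃ L : List C.V, _ ∧ _ ∧ cn _ _ _ ≤ _
    rw [cn_eq]
    split_ifs with m
    swap
    · exact ih (by omega)
    have := h.rl hR m (by omega)
    by_contra q
    refine this fun L a b => ?_
    obtain ⟨M, rfl, k⟩ := lift hR L fun x y => (b x y).1
    rw [List.length_map]
    by_contra r
    refine q ⟨M, a.of_map _, fun v y => ⟨k v y, ?_⟩, by omega⟩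
    exact (e ▸ ((k v y).nb hR (by omega) (b _ (List.mem_map_of_mem y)).2).2).symm

theorem deg_ok (h : C.N c) (e : deg s c = true) : False := by
  simp only [deg, bn_eq, ne_eq', Nat.beq_eq, lt_eq, Nat.add_eq, cnt_eq] at e
  obtain ⟨L0, a0, b0, c0⟩ := dg_ok h (R := 0) (by omega)
  obtain ⟨L1, a1, b1, c1⟩ := dg_ok h (R := 1) (by omega)
  obtain ⟨L2, a2, b2, c2⟩ := dg_ok h (R := 2) (by omega)
  have n0 : 0 < s.n := Nat.zero_lt_of_lt (C.wf.l3 0 (by omega))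
  have d : ∀ {R Q v}, C.Int R v → C.Int Q v → R < 3 → Q < 3 → R = Q := fun a b p q =>
    C.uniq _ _ _ p q a.1 b.1 a.2
  have m : ∀ v ∈ ((List.range s.n).filter (s.a 0)).map C.T, ∃ t, t < s.n ∧ v = C.T t ∧
      C.G.Adj (C.T 0) v := fun v k => by
    obtain ⟨t, j, rfl⟩ := List.mem_map.1 k
    obtain ⟨k1, k2⟩ := List.mem_filter.1 j
    exact ⟨t, List.mem_range.1 k1, rfl, C.sa _ _ n0 (List.mem_range.1 k1) k2⟩
  have := C.hi e.1 (((List.range s.n).filter (s.a 0)).map C.T ++ (L0 ++ (L1 ++ L2))) ?_ ?_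
  · simp only [List.length_append, List.length_map] at this
    omega
  · refine List.nodup_append.2 ⟨(List.nodup_range.filter _).map_on fun x p y q => C.inj _ _
      (List.mem_range.1 (List.mem_filter.1 p).1) (List.mem_range.1 (List.mem_filter.1 q).1),
      List.nodup_append.2 ⟨a0, List.nodup_append.2 ⟨a1, a2, ?_⟩, ?_⟩, ?_⟩
    · rintro v p _ q rfl
      cases d (b1 v p).1 (b2 v q).1 (by omega) (by omega)
    · rintro v p _ q rfl
      rcases List.mem_append.1 q with q | q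
      · cases d (b0 v p).1 (b1 v q).1 (by omega) (by omega)
      · cases d (b0 v p).1 (b2 v q).1 (by omega) (by omega)
    · rintro v p _ q rfl
      obtain ⟨t, t1, t2, -⟩ := m v p
      simp only [List.mem_append] at q
      rcases q with q | q | q
      exacts [(b0 v q).1.2 t t1 t2, (b1 v q).1.2 t t1 t2, (b2 v q).1.2 t t1 t2]
  · simp only [List.mem_append]
    rintro v (q | q | q | q)
    exacts [let ⟨_, _, _, k⟩ := m v q; k, (b0 v q).2, (b1 v q).2, (b2 v q).2]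

theorem dl_ok (h : C.N c) (hR : R < 3) (e : dl s c R < s.lo) (L : List C.V) (a : L.Nodup)
    (b : ∀ v ∈ L, C.Int R v ∧ C.G.Adj (C.T 0) v) : L.length ≤ dl s c R := by
  have n0 : 0 < s.n := Nat.zero_lt_of_lt (C.wf.l3 0 (by omega))
  simp only [dl, cn_eq (Nat.ble _ _), cn_eq (Nat.beq _ _), Nat.beq_eq, Nat.ble_eq] at e ⊢
  split_ifs at e ⊢ with p q
  · rcases L with _ | ⟨x, L⟩
    · exact le_rfl
    have := (b x List.mem_cons_self).1.pos hR n0 (b x List.mem_cons_self).2.symm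
    omega
  swap
  · omega
  suffices ∀ n, n ≤ 4 → ∀ z : ℕ, z = Nat.rec s.lo (fun k r => cn (mem c (rl R 17 3 0 k)) k r) n →
    z < s.lo → L.length ≤ z from this 4 le_rfl _ rfl e
  intro n hn
  induction n with
  | zero => intro z p q; exact absurd q (by rw [p]; exact lt_irrefl _)
  | succ n ih =>
    intro z p r
    change z = cn _ _ _ at p
    rw [cn_eq] at p
    split_ifs at p with m
    swap
    · exact ih (by omega) z p r
    have := not_not.1 (h.rl hR m (by omega)) (L.map (C.e R)) (a.map (C.ei R)) fun x y => by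
      obtain ⟨v, j, rfl⟩ := List.mem_map.1 y
      exact ⟨I_e hR (b v j).1, q ▸ (b v j).1.bp hR n0 (b v j).2.symm⟩
    rwa [List.length_map, ← p] at this

theorem dlo_ok (h : C.N c) (e : dlo s c = true) : False := by
  classical
  simp only [dlo, bn_eq, ne_eq', lt_eq, Nat.add_eq, cnt_eq] at e
  obtain ⟨hd, e⟩ := e
  obtain ⟨L, a, b, d⟩ := C.lo hd (C.T 0)
  have n0 : 0 < s.n := Nat.zero_lt_of_lt (C.wf.l3 0 (by omega))
  have f : ∀ R, R < 3 → dl s c R < s.lo → (L.filter (C.Int R ·)).length ≤ dl s c R :=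
    fun R p q => dl_ok h p q _ (a.filter _) fun v k =>
      ⟨of_decide_eq_true (List.mem_filter.1 k).2, b v (List.mem_filter.1 k).1⟩
  have f0 := f 0 (by omega) (by omega)
  have f1 := f 1 (by omega) (by omega)
  have f2 := f 2 (by omega) (by omega)
  have := (List.subperm_of_subset a (l₂ := ((List.range s.n).filter
    fun t => cb (s.na 0 t) false true).map C.T ++ (L.filter (C.Int 0 ·) ++
      (L.filter (C.Int 1 ·) ++ L.filter (C.Int 2 ·)))) fun v k => ?_).length_le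
  · simp only [List.length_append, List.length_map] at this
    omega
  simp only [List.mem_append, List.mem_filter, k, true_and, decide_eq_true_eq, List.mem_map,
    List.mem_range]
  rcases split v with ⟨t, p, rfl⟩ | ⟨R, p, q⟩
  · exact Or.inl ⟨t, ⟨p, cb_eq.2 (Or.inr ⟨fun m => C.sn _ _ n0 p m (b _ k), rfl⟩)⟩, rfl⟩
  · interval_cases R <;> simp [q]

end Pool.Agent.Lib.MP_ad48ef_co.Gl.Cfg
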