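import Pool.Agent.Lib.MP_ad48ef_co.Glue3

/-!
# Soundness of the clause test, distance and domination families
-/

namespace Pool.Agent.Lib.MP_ad48ef_co.Gl.Cfg

variable {s : Shp} {C : Cfg s} {c : List ℕ} {R l l' l'' m i t u y a b k S : ℕ} {v w x : C.V}

theorem n16 (C : Cfg s) (h : t < s.n) : t < 16 := by have := C.wf.n; omega
theorem n64 (C : Cfg s) (h : t < s.n) : t < 64 := by have := C.wf.n; omega

theorem adjP_of (hu : u < s.n) (ht : t < s.n) (h : C.A u t) : litv C.val (adjP s u t) := by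
  rw [adjP, cn_eq, cn_eq]
  split_ifs with p q
  exacts [C.lit1, absurd h (C.sn u t hu ht q),
    (C.lit_tp 0 (by omega) (C.n16 hu) (C.n16 ht)).2 h]

theorem d2P_of (hu : u < s.n) (ht : t < s.n) (h : C.B u t) : litv C.val (d2P s u t) := by
  rw [d2P, cn_eq, cn_eq]
  split_ifs with p q
  exacts [C.lit1, absurd h (C.sf u t hu ht q),
    (C.lit_tp 0 (by omega) (C.n16 hu) (C.n16 ht)).2 h]

theorem andP_of {p q z : ℕ} (a : litv C.val p) (b : litv C.val q) (d : litv C.val z) :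
    litv C.val (andP p q z) := by
  rw [andP, cn_eq, cn_eq, cn_eq]
  split_ifs with e
  · rcases bo_eq.1 e with e | e
    exacts [Nat.eq_of_beq_eq_true e ▸ a, Nat.eq_of_beq_eq_true e ▸ b]
  exacts [b, a, d]

theorem LP_of (hu : u < s.n) (hy : y < s.n) (ht : t < s.n) (p : C.A u y) (q : C.A y t) :
    litv C.val (LP s u y t) := by
  refine andP_of (adjP_of hu hy p) (adjP_of hy ht q) ?_
  rw [cn_eq]
  split_ifs
  exacts [(C.lit_tv (by omega) (C.n16 hu) (C.n16 hy) (C.n64 ht)).2 ⟨p, q⟩,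
    (C.lit_tv (by omega) (C.n16 ht) (C.n16 hy) (C.n64 hu)).2 ⟨q.symm, p.symm⟩]

theorem QP_of (hu : u < s.n) (hy : y < s.n) (ht : t < s.n) (p : C.B u y) (q : C.A y t) :
    litv C.val (QP s u y t) := andP_of (d2P_of hu hy p) (adjP_of hy ht q)
  ((C.lit_tv (by omega) (C.n16 hu) (C.n16 hy) (C.n64 ht)).2 ⟨p, q⟩)

theorem c2_ok {z : ℕ} (h : C.N c) (e : cats s c 6 u t z = true) (hu : u < s.n) (ht : t < s.n)
    (hR : R < 3) (hz : R ≠ z) (k : C.Int R x) (p : C.G.Adj (C.T u) x) (q : C.G.Adj x (C.T t)) :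
    False :=
  cats_ok h e (by omega) hR hz (k.pos hR hu p.symm) (k.pos hR ht q)
    ⟨_, I_e hR k, (k.bp hR hu p.symm).symm, k.bp hR ht q⟩
    ⟨_, I_e hR k, (k.bp hR ht q).symm, k.bp hR hu p.symm⟩

theorem aux_ok (h : C.N c) (hl : ¬ litv C.val l) (e : aux s c l (g1 l) (g2 l) (g3 l) = true) :
    False := by
  simp only [aux, bn_eq, bo_eq, lt_eq, ne_eq', al_eq, Nat.beq_eq, Nat.ble_eq] at e
  obtain ⟨hu, hy, ht, ⟨e0, e1⟩ | ⟨e0, e1⟩ | ⟨e0, e1, e2, e3, e4⟩ | ⟨e0, e1, e2⟩⟩ := e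
  · obtain ⟨p, q⟩ := tn 3 hl e0
    exact e1.elim (fun k => h.has k (adjP_of hu hy p)) fun k => h.has k (adjP_of hy ht q)
  · obtain ⟨p, q⟩ := tn 4 hl e0
    exact e1.elim (fun k => h.has k (d2P_of hu hy p)) fun k => h.has k (adjP_of hy ht q)
  · have n : ¬ C.A _ _ := fun k => h.has e2 (adjP_of hu hy k)
    obtain ⟨x, rfl | p, q⟩ := tn 2 hl e0
    · exact q.elim (fun k => e1 (C.inj _ _ hu hy k)) n
    rcases q with rfl | q
    · exact n p
    rcases split x with ⟨z, z1, rfl⟩ | ⟨R, r1, r2⟩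
    · rcases e4 z z1 with rfl | rfl | k
      exacts [p.ne rfl, q.ne rfl, h.has k (LP_of hu z1 hy p q)]
    · exact c2_ok h e3 hu hy r1 (by omega) r2 p q
  · obtain ⟨x, n, p, q⟩ := tn 5 hl e0
    rcases split x with ⟨z, z1, rfl⟩ | ⟨R, r1, r2⟩
    · rcases e2.2 z z1 with k | k
      exacts [n ((C.on _ z (by omega) z1).2 (by omega)), h.has k (LP_of hy z1 ht p q)]
    · exact c2_ok h e2.1 hy ht r1 (fun k => n (k ▸ r2.1)) r2 p q

theorem path_wk (D : Disk) {i j : ℕ} (hi : i < 7) (hj : j < 7) (p : i ≤ j + 2) (q : j ≤ i + 2)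
    {w : D.X} (a : D.G.Adj w (D.b i)) :
    ∃ x y, (w = x ∨ D.G.Adj w x) ∧ (x = y ∨ D.G.Adj x y) ∧ D.G.Adj y (D.b j) := by
  rcases (by omega : i = j ∨ j = i + 1 ∨ i = j + 1 ∨ j = i + 2 ∨ i = j + 2) with
    rfl | rfl | rfl | rfl | rfl
  · exact ⟨w, w, Or.inl rfl, Or.inl rfl, a⟩
  · exact ⟨w, _, Or.inl rfl, Or.inr a, D.path i (by omega)⟩
  · exact ⟨w, _, Or.inl rfl, Or.inr a, (D.path j (by omega)).symm⟩
  · exact ⟨_, _, Or.inr a, Or.inr (D.path i (by omega)), D.path (i + 1) (by omega)⟩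
  · exact ⟨_, _, Or.inr a, Or.inr (D.path (j + 1) (by omega)).symm, (D.path j (by omega)).symm⟩

theorem near_ok (h : C.N c) (hl : ¬ litv C.val l)
    (e : near s c l (fR l) (fA l) (fB l) (s.loc (fR l) (fA l)) = true) : False := by
  simp only [near, bn_eq, bo_eq, al_eq, Nat.ble_eq, re_eq, Shp.du, bt_eq, Nat.add_eq] at e
  obtain ⟨e0, ⟨e1, e2⟩, e⟩ := e
  obtain ⟨hR, q⟩ := rp 7 hl e0
  refine q fun z k => ?_
  obtain ⟨w, rfl, j⟩ := (C.eI _ z hR).1 k
  replace j : C.Int _ w := j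
  have ru := reg_loc (C := C) hR e1 e2
  have bu := C.eb _ _ hR e1 e2
  obtain ⟨x, y, a1, a2, a3⟩ := C.d3 w (C.T (s.loc (fR l) (fA l)))
  have rx := j.wk hR a1
  have up : ∀ p q, C.Reg (fR l) p → C.Reg (fR l) q → Wk C.G p q →
      C.e (fR l) p = C.e _ q ∨ (C.D (fR l)).G.Adj (C.e _ p) (C.e _ q) := fun p q a b k =>
    k.imp (congrArg _) (C.eA _ p q hR a b).2
  rcases a3 with rfl | a3
  · right
    rw [bu]
    rcases a2 with rfl | a2
    · exact ⟨_, _, Or.inl rfl, Or.inl rfl, j.adj hR (a1.resolve_left (j.2 _ e2))⟩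
    · exact ⟨_, _, Or.inl rfl, up _ _ j.1 rx a1, (C.eA _ _ _ hR rx ru).2 a2⟩
  by_cases ry : C.Reg (fR l) y
  · exact Or.inr ⟨_, _, up _ _ j.1 rx a1, up _ _ rx ry a2, bu ▸ (C.eA _ _ _ hR ry ru).2 a3⟩
  obtain ⟨t, t1, rfl⟩ := (cs rx).resolve_right fun k => ry (k.wk hR a2)
  replace a1 := a1.resolve_left (j.2 t t1)
  replace a2 := a2.resolve_left fun k => ry (k ▸ rx)
  have t2 := j.pos hR t1 a1
  have := e _ t2
  rw [C.wf.pl _ t hR t1 t2] at this
  rcases this with k | k | ⟨k1, k2⟩ | k | k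
  · exact Or.inl ⟨_, t2, k, j.bp hR t1 a1⟩
  · omega
  · exact Or.inr (path_wk _ t2 e1 k1 k2 (j.bp hR t1 a1))
  · exact absurd ⟨y, Or.inr a2, Or.inr a3⟩ (C.sf _ _ t1 e2 k)
  · refine absurd ?_ (h _ (mem_ok k))
    rw [cn_eq]
    split_ifs
    exacts [(C.lit_tv (by omega) (by omega) (C.n16 e2) (C.n64 t1)).2 ⟨y, ry, a3.symm, a2.symm⟩,
      (C.lit_tv (by omega) (by omega) (C.n16 t1) (C.n64 e2)).2 ⟨y, ry, a2, a3⟩]

theorem tt_ok (h : C.N c) (hl : ¬ litv C.val l) (e : tt s c l (g1 l) (g2 l) = true) : False := by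
  simp only [tt, bn_eq, bo_eq, lt_eq, al_eq, Nat.beq_eq] at e
  obtain ⟨e0, hu, ht, e1, e⟩ := e
  obtain ⟨p, q⟩ := isT_eq.1 e0
  rw [C.lit_T q, p] at hl
  refine hl ?_
  obtain ⟨x, y, rfl | a1, a2, a3⟩ := C.d3 (C.T (g1 l)) (C.T (g2 l))
  · exact ⟨y, a2, a3⟩
  rcases a3 with rfl | a3
  · exact ⟨x, Or.inr a1, a2⟩
  rcases a2 with rfl | a2
  · exact ⟨x, Or.inr a1, Or.inr a3⟩
  rcases split x with ⟨z, z1, rfl⟩ | ⟨R, r1, r2⟩
  · rcases e z z1 with rfl | rfl | k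
    exacts [absurd rfl a1.ne, ⟨_, Or.inr a1, Or.inl rfl⟩,
      absurd (QP_of ht z1 hu ⟨y, Or.inr a3.symm, Or.inr a2.symm⟩ a1.symm) (h.has k.2)]
  rcases cs (r2.reg r1 a2) with ⟨z, z1, rfl⟩ | r3
  · rcases e z z1 with rfl | rfl | k
    exacts [⟨_, Or.inl rfl, Or.inr a3⟩, absurd rfl a3.ne,
      absurd (QP_of hu z1 ht ⟨x, Or.inr a1, Or.inr a2⟩ a3) (h.has k.1)]
  exact (cats_ok h e1 (by omega) r1 (by omega) (r2.pos r1 hu a1.symm) (r3.pos r1 ht a3)
    ⟨_, _, I_e r1 r2, I_e r1 r3, (r2.bp r1 hu a1.symm).symm, r2.adj r1 a2, r3.bp r1 ht a3⟩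
    ⟨_, _, I_e r1 r3, I_e r1 r2, (r3.bp r1 ht a3).symm, r3.adj r1 a2.symm,
      r2.bp r1 hu a1.symm⟩).elim

theorem l25 (h : Nat.land l 25 = 0) : Nat.land l 6 = l % 32 ∧ l % 32 ≤ 6 ∧ l % 2 = 0 := by
  have e : ∀ m, Nat.land 31 m = m → Nat.land l m = Nat.land (l % 32) m := fun m k => by
    rw [← l31]
    exact (congrArg (Nat.land l) k.symm).trans (Nat.and_assoc l 31 m).symm
  have : ∀ m, m < 32 → Nat.land m 25 = 0 → Nat.land m 6 = m ∧ m ≤ 6 ∧ m % 2 = 0 := by decide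
  have := this (l % 32) (by omega) (e 25 rfl ▸ h)
  rw [e 6 rfl]
  omega

theorem mat_ok (h : C.N c) (hk : k < 3) (hu : u < s.n) (ht : t < s.n)
    (e : (mat s c).testBit (256 * k + (u * 16 + t)) = true) : ¬ C.ts k u t 0 := by
  have u1 := C.n16 hu
  have t1 := C.n16 ht
  have ie : ix u t = u * 16 + t := rfl
  induction c with
  | nil =>
    have z : ∀ x j, x < 2 ^ 256 → 256 ≤ j → x.testBit j = false := fun x j p q =>
      Nat.testBit_lt_two_pow (p.trans_le (Nat.pow_le_pow_right (by omega) q))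
    change s.st.testBit _ = true at e
    simp only [Shp.st, tb_or, tb_sl, Bool.or_eq_true, Bool.and_eq_true, decide_eq_true_eq] at e
    interval_cases k
    · refine C.sn u t hu ht ((bt_eq _ _).trans ?_)
      rcases e with e | e | e
      exacts [by rwa [show ix u t = 256 * 0 + (u * 16 + t) by omega], by omega, by omega]
    · refine not_not.2 (C.sa u t hu ht ((bt_eq _ _).trans ?_))
      rcases e with e | e | e
      exacts [by simp [z _ _ C.wf.sn] at e,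
        by rw [show ix u t = 256 * 1 + (u * 16 + t) - 256 by omega, e.2], by omega]
    · refine C.sf u t hu ht ((bt_eq _ _).trans ?_)
      rcases e with e | e | e
      exacts [by rw [z _ _ C.wf.sn (by omega)] at e; exact absurd e (by simp),
        by rw [z _ _ C.wf.sa (by omega)] at e; exact absurd e.2 (by simp),
        by rw [show ix u t = 256 * 2 + (u * 16 + t) - 512 by omega, e.2]]
  | cons l c ih =>
    change Nat.testBit (cn (Nat.beq (Nat.land l 25) 0) (cn (Nat.ble 6291456 l) (Nat.lor (mat s c) _)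
      (mat s c)) (mat s c)) _ = true at e
    rw [cn_eq, cn_eq] at e
    split_ifs at e with p q
    rotate_left
    · exact ih h.cons.2 e
    · exact ih h.cons.2 e
    obtain ⟨p1, p2, p3⟩ := l25 (Nat.eq_of_beq_eq_true p)
    have hl := h.cons.1
    have a1 : g1 l < 16 := lt16 _
    have a2 : g2 l < 16 := lt16 _
    rw [C.lit_T (Nat.le_of_ble_eq_true q), sg, if_pos (by omega)] at hl
    rw [tb_or, tb_sl] at e
    simp only [tb_or, Bool.or_eq_true, Bool.and_eq_true, decide_eq_true_eq,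
      tb_one, p1, ix, Nat.add_eq, Nat.mul_eq] at e
    have a3 : l % 32 = 0 ∨ l % 32 = 2 ∨ l % 32 = 4 ∨ l % 32 = 6 := by omega
    rcases e with e | ⟨e1, e | e⟩
    · exact ih h.cons.2 e
    · rwa [show l % 32 / 2 = k by omega, show g1 l = u by omega, show g2 l = t by omega,
        C.ts_symm (Or.inl hk) u t _ 0, C.ts_symm (Or.inl hk) t u 0 0] at hl
    · rwa [show l % 32 / 2 = k by omega, show g1 l = t by omega, show g2 l = u by omega,
        C.ts_symm (Or.inl hk) t u _ 0] at hl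

theorem tb_full : s.full.testBit t = true ↔ t < s.n := by
  rw [show s.full = 2 ^ s.n - 1 from congrArg (· - 1) (Nat.one_shiftLeft _),
    Nat.testBit_two_pow_sub_one, decide_eq_true_eq]

theorem tmc (hR : R < 3) (hS : S < 128) (ht : t < s.n) (h : C.Reg R (C.T t))
    (e : ¬ (s.tm R S).testBit t = true) : (s.tm R (Nat.xor S 127)).testBit t = true := by
  have p := (C.on R t hR ht).1 h
  rw [C.wf.tm R S t hR hS] at e
  refine (C.wf.tm R _ t hR (Nat.xor_lt_two_pow (n := 7) hS (by omega))).2 ⟨ht, p, ?_⟩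
  rw [Nat.testBit_xor, Bool.eq_false_iff.2 fun k => e ⟨ht, p, k⟩]
  generalize s.pos R t = j at p
  interval_cases j <;> rfl

theorem far_ok (h : C.N c) (hl : ¬ litv C.val l) (e : far s c l = true) : False := by
  obtain ⟨e0, e⟩ := bn_eq.1 e
  obtain ⟨hR, q⟩ := rp 5 hl e0
  obtain ⟨w, j, w1, w2⟩ := nban hR (fA_lt l) (fB_lt l) q
  refine ((cb_eq.1 e).resolve_left fun k => absurd k.2 (by simp)).1 (a10_eq.2 fun z _ => ?_)
  refine r_im.2 fun o => r_im.2 fun eX => r_im.2 fun eY => False.elim ?_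
  rw [bt_eq, tb_xor] at o
  have nz : z < s.n ∧ ¬ C.Reg (fR l) (C.T z) := by
    by_cases p : z < s.n
    · exact ⟨p, fun r => by simp [(tm127 hR).2 ⟨p, r⟩, tb_full.2 p] at o⟩
    · simp [Bool.eq_false_iff.2 (mt (tm127 (C := C) hR).1 fun k => p k.1),
        Bool.eq_false_iff.2 (mt tb_full.1 p)] at o
  have fX : ∀ t, t < s.n → C.G.Adj w (C.T t) → ¬ C.B z t := fun t p a =>
    mat_ok h (k := 2) (by omega) nz.1 p (by
      have := sub_tb eX (tmc hR (fA_lt l) p (j.reg hR a) fun k => w1 t k a)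
      rw [tb_sr] at this
      rw [← this]; congr 1; show _ = z * 16 + 512 + t; omega)
  obtain ⟨x, y, a1, a2, a3⟩ := C.d3 w (C.T z)
  rcases cs (j.wk hR a1) with ⟨t, t1, rfl⟩ | jx
  · exact fX t t1 (a1.resolve_left (j.2 t t1)) ⟨y, a3.symm, a2.symm⟩
  have ry := jx.wk hR a2
  obtain ⟨t, t1, rfl⟩ := (cs ry).resolve_right fun k => nz.2 (k.wk hR a3)
  replace a2 := a2.resolve_left (jx.2 t t1)
  rcases a1 with rfl | a1
  · exact fX t t1 a2 ⟨_, a3.symm, Or.inl rfl⟩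
  refine mat_ok h (k := 0) (by omega) nz.1 t1 ?_ (a3.resolve_left fun k => nz.2 (k ▸ ry)).symm
  have := sub_tb eY (tmc hR (fB_lt l) t1 ry fun k => w2 t x k a1 a2)
  rw [tb_sr] at this
  rw [← this]; congr 1; show _ = z * 16 + t; omega

theorem comp_ok (h : C.N c) (hl : ¬ litv C.val l) (hl' : ¬ litv C.val l')
    (e : comp s c l l' = true) : False := by
  simp only [comp, comp1, comp2, bn_eq, bo_eq, ne_eq', a10_eq, r_im, bt_eq, Nat.beq_eq] at e
  obtain ⟨e0, e0', ne, e1, e2⟩ := e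
  obtain ⟨hR, q⟩ := rp 5 hl e0
  obtain ⟨hQ, q'⟩ := rp 5 hl' e0'
  obtain ⟨w, j, w1, w2⟩ := nban hR (fA_lt l) (fB_lt l) q
  obtain ⟨w', j', w1', w2'⟩ := nban hQ (fA_lt l') (fB_lt l') q'
  have sh : ∀ t, t < s.n → C.Reg (fR l) (C.T t) → C.Reg (fR l') (C.T t) →
      (C.G.Adj w (C.T t) → ∀ x, Wk C.G w' x → ¬ Wk C.G x (C.T t)) ∧
      (C.G.Adj w' (C.T t) → ∀ x, Wk C.G w x → ¬ Wk C.G x (C.T t)) := by
    intro t p a b
    have := @sub_tb _ _ e1 t
    simp only [tb_and, tb_or, (tm127 hR).2 ⟨p, a⟩, (tm127 hQ).2 ⟨p, b⟩, Bool.and_eq_true,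
      Bool.or_eq_true, and_self, true_imp_iff] at this
    refine ⟨fun k => ?_, fun k => ?_⟩
    · obtain ⟨m, n⟩ := this.1.resolve_left fun m => w1 t m k
      rintro x (rfl | r) (rfl | r')
      exacts [j'.2 t p rfl, w1' t m r', w1' t m r, w2' t x n r r']
    · obtain ⟨m, n⟩ := this.2.resolve_left fun m => w1' t m k
      rintro x (rfl | r) (rfl | r')
      exacts [j.2 t p rfl, w1 t m r', w1 t m r, w2 t x n r r']
  obtain ⟨x, y, a1, a2, a3⟩ := C.d3 w w'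
  have rx := j.wk hR a1
  have ry := j'.wk hQ a3.symm
  rcases cs ry with ⟨t, t1, rfl⟩ | jy
  swap
  · have rx' := jy.wk hQ a2.symm
    obtain ⟨u, u1, rfl⟩ := (cs rx).resolve_right fun k => ne (C.uniq _ _ _ hR hQ rx rx' k.2)
    exact (sh u u1 rx rx').1 (a1.resolve_left (j.2 u u1)) y a3.symm a2.symm
  replace a3 := a3.symm.resolve_left (j'.2 t t1)
  by_cases rt : C.Reg (fR l) (C.T t)
  · exact (sh t t1 rt ry).2 a3 x a1 a2
  obtain ⟨u, u1, rfl⟩ := (cs rx).resolve_right fun k => rt (k.wk hR a2)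
  replace a1 := a1.resolve_left (j.2 u u1)
  by_cases ru : C.Reg (fR l') (C.T u)
  · exact (sh u u1 rx ru).1 a1 _ (Or.inr a3) a2.symm
  have own : ∀ {P A P' z : ℕ}, P.testBit z = true → ¬ A.testBit z = true → ¬ P'.testBit z = true →
      (Nat.xor P (Nat.land P (Nat.lor A P'))).testBit z = true := fun a b c => by
    simp [tb_xor, tb_and, tb_or, a, b, c]
  have oy := own ((tm127 hQ).2 ⟨t1, ry⟩) (fun k => w1' t k a3) fun k => rt ((tm127 hR).1 k).2
  have ox := own ((tm127 hR).2 ⟨u1, rx⟩) (fun k => w1 u k a1) fun k => ru ((tm127 hQ).1 k).2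
  rcases e2 with e2 | e2
  · rw [e2] at oy; simp at oy
  refine mat_ok h (k := 0) (by omega) u1 t1 ?_ (a2.resolve_left fun k => rt (k ▸ rx))
  have := sub_tb (e2 u (by have := C.wf.n; omega) ox) oy
  rw [tb_sr] at this
  rw [← this]; congr 1; show _ = u * 16 + t; omega

theorem nd1 (hl : ¬ litv C.val l) (e : isR l 12 = true) : ∃ L : List C.V,
    (L.length ≤ fK l ∧ ∀ x ∈ L, C.Int (fR l) x) ∧
    (∀ w, C.Int (fR l) w → (∃ t, (s.tm (fR l) (fA l)).testBit t = true ∧ C.G.Adj w (C.T t)) ∨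
      ∃ x ∈ L, C.G.Adj w x) ∧
    ∀ t, (s.tm (fR l) (fB l)).testBit t = true → ∃ x ∈ L, C.G.Adj (C.T t) x := by
  obtain ⟨hR, q⟩ := rp 6 hl e
  obtain ⟨L, q⟩ := not_forall.1 q
  obtain ⟨q1, q⟩ := Classical.not_imp.1 q
  obtain ⟨q2, q⟩ := Classical.not_imp.1 q
  obtain ⟨M, rfl, j⟩ := lift hR L q2
  refine ⟨M, ⟨by rwa [List.length_map] at q1, j⟩, fun w k => ?_, fun t k => ?_⟩ <;> by_contra r
  · refine q (Or.inl ⟨_, I_e hR k, fun m => r (Or.inl ((k.A1 hR (fA_lt l)).1 m)), fun x m a => ?_⟩)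
    obtain ⟨y, y1, rfl⟩ := List.mem_map.1 m
    exact r (Or.inr ⟨y, y1, (C.eA _ _ _ hR k.1 (j y y1).1).1 a⟩)
  · obtain ⟨k1, k2, k3⟩ := (C.wf.tm _ _ t hR (fB_lt l)).1 k
    refine q (Or.inr ⟨_, k2, k3, fun x m a => ?_⟩)
    obtain ⟨y, y1, rfl⟩ := List.mem_map.1 m
    rw [b_pos hR k1 k2] at a
    exact r ⟨y, y1, (C.eA _ _ _ hR ((C.on _ t hR k1).2 k2) (j y y1).1).1 a⟩

theorem pc_eq {A : ℕ} (h : A < 1024) : pc A = ((List.range 10).filter (bt A)).length := by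
  have : al 1024 (fun A => Nat.beq (pc A) (cnt 10 (bt A))) = true := by decide +kernel
  rw [← cnt_eq, Nat.eq_of_beq_eq_true (al_eq.1 this A h)]

theorem dom_ok (h : C.N c) (hl : ¬ litv C.val l) (hl' : ¬ litv C.val l') (hl'' : ¬ litv C.val l'')
    (e : Gl.dom s c l l' l'' = true) : False := by
  simp only [Gl.dom, dom1, bn_eq, a10_eq, Nat.beq_eq, Nat.ble_eq, Nat.add_eq] at e
  obtain ⟨e0, e1, e2, e3, e4, e5⟩ := e
  obtain ⟨L0, ⟨a0, -⟩, b0, c0⟩ := nd1 hl e0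
  obtain ⟨L1, ⟨a1, -⟩, b1, c1⟩ := nd1 hl' e1
  obtain ⟨L2, ⟨a2, -⟩, b2, c2⟩ := nd1 hl'' e2
  have tl : ∀ R S, s.tm R S < 2 ^ 10 := fun R S => Nat.lt_succ_of_le Nat.and_le_right
  have tn : ∀ l t, ¬ litv C.val l → isR l 12 = true → (s.tm (fR l) (fA l)).testBit t = true →
      t < s.n := fun l t p q r => ((C.wf.tm _ _ t (rp 6 p q).1 (fA_lt l)).1 r).1
  generalize hA : Nat.lor (Nat.lor (s.tm (fR l) (fA l)) _) _ = A at e4 e5
  have A1 : A < 1024 := hA ▸ Nat.or_lt_two_pow (Nat.or_lt_two_pow (tl _ _) (tl _ _)) (tl _ _)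
  have A2 : ∀ t, A.testBit t = true ↔ ((s.tm (fR l) (fA l)).testBit t = true ∨
      (s.tm (fR l') (fA l')).testBit t = true) ∨ (s.tm (fR l'') (fA l'')).testBit t = true :=
    fun t => by simp only [← hA, tb_or, Bool.or_eq_true]
  have A3 : ∀ t, A.testBit t = true → t < s.n := fun t k => by
    rcases (A2 t).1 k with (k | k) | k
    exacts [tn l t hl e0 k, tn l' t hl' e1 k, tn l'' t hl'' e2 k]
  have n10 := C.wf.n
  rw [pc_eq A1] at e4
  obtain ⟨v, hv⟩ := C.nd (((List.range 10).filter (bt A)).map C.T ++ (L0 ++ (L1 ++ L2)))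
    (by simp only [List.length_append, List.length_map]; omega)
  simp only [List.mem_append, or_imp, forall_and, List.mem_map, List.mem_filter, List.mem_range,
    bt_eq] at hv
  obtain ⟨v0, v1, v2, v3⟩ := hv
  replace v0 : ∀ t, A.testBit t = true → ¬ C.G.Adj v (C.T t) := fun t k =>
    v0 _ ⟨t, ⟨by have := A3 t k; omega, k⟩, rfl⟩
  rcases split v with ⟨u, u1, rfl⟩ | ⟨R, r1, r2⟩
  · obtain ⟨t, k⟩ := ex_bit (Nat.one_le_iff_ne_zero.1 (e5 u (by omega)))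
    simp only [tb_or, tb_and, tb_sr, tb_xor, Bool.or_eq_true, Bool.and_eq_true] at k
    rcases k with ⟨k, z⟩ | ⟨k, z⟩
    · obtain rfl : t = 0 := (@tb_one 0 t).1 z
      rcases k with ((k | k) | k) | k
      · obtain ⟨x, p, q⟩ := c0 u k; exact v1 x p q
      · obtain ⟨x, p, q⟩ := c1 u k; exact v2 x p q
      · obtain ⟨x, p, q⟩ := c2 u k; exact v3 x p q
      · rw [add_zero, tb_full.2 u1, show (1023 : ℕ) = 2 ^ 10 - 1 from rfl,
          Nat.testBit_two_pow_sub_one, decide_eq_true (by omega)] at k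
        cases k
    · exact mat_ok h (k := 1) (by omega) u1 (A3 t z) k (v0 t z)
  · have : Nat.testBit 7 R = true := by interval_cases R <;> rfl
    simp only [← e3, tb_or, Bool.or_eq_true, tb_one] at this
    rcases this with (rfl | rfl) | rfl
    · exact (b0 v r2).elim (fun ⟨t, p, q⟩ => v0 t ((A2 t).2 (by simp [p])) q) fun ⟨x, p⟩ =>
        v1 x p.1 p.2
    · exact (b1 v r2).elim (fun ⟨t, p, q⟩ => v0 t ((A2 t).2 (by simp [p])) q) fun ⟨x, p⟩ =>
        v2 x p.1 p.2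
    · exact (b2 v r2).elim (fun ⟨t, p, q⟩ => v0 t ((A2 t).2 (by simp [p])) q) fun ⟨x, p⟩ =>
        v3 x p.1 p.2

end Pool.Agent.Lib.MP_ad48ef_co.Gl.Cfg
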