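import Pool.Agent.Lib.MP_ad48ef_co.Glue4

/-!
# Soundness of the clause test, families of the sink mode
-/

namespace Pool.Agent.Lib.MP_ad48ef_co.Gl.Cfg

variable {s : Shp} {C : Cfg s} {c : List ℕ} {R J l l' l'' m i t u h S : ℕ} {v w x : C.V}

theorem tp' (t : ℕ) (h : ¬ litv C.val l) (e : isT l (2 * t) = true) :
    ¬ C.ts t (g1 l) (g2 l) (g3 l) := by
  obtain ⟨e1, e2⟩ := isT_eq.1 e
  rwa [C.lit_T e2, e1, sg, if_pos (by omega), show 2 * t / 2 = t by omega] at h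

theorem gm2 (l : ℕ) : g2 l + 16 * g3 l = gm l := by rw [g2_eq, g3_eq, gm_eq]; omega

theorem ex_ok {f : ℕ → Bool} (e : ex c f = true) : ∃ l ∈ c, f l = true := by
  induction c with
  | nil => cases e
  | cons a t ih =>
    rcases r_or.1 e with k | k
    · exact ⟨a, List.mem_cons_self, k⟩
    · obtain ⟨l, p, q⟩ := ih k
      exact ⟨l, List.mem_cons_of_mem _ p, q⟩

theorem A.d2 (h : C.A u t) : C.B u t := ⟨_, Or.inr h, Or.inl rfl⟩

theorem mx_ok {k : ℕ} (h : C.N c) (hk : k < 2) (hu : u < s.n) (ht : t < s.n)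
    (e : (mx s c).testBit (256 * k + (u * 16 + t)) = true) : C.ts (2 * k) u t 0 := by
  have u1 := C.n16 hu
  have t1 := C.n16 ht
  have ie : ix u t = u * 16 + t := rfl
  induction c with
  | nil =>
    change (Nat.lor s.sa (Nat.shiftLeft s.s2 256)).testBit _ = true at e
    simp only [tb_or, tb_sl, Bool.or_eq_true, Bool.and_eq_true, decide_eq_true_eq] at e
    interval_cases k
    · refine C.sa u t hu ht ((bt_eq _ _).trans ?_)
      exact e.elim (fun e => by rwa [show ix u t = 256 * 0 + (u * 16 + t) by omega]) (by omega)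
    · refine C.s2 u t hu ht ((bt_eq _ _).trans ?_)
      rcases e with e | e
      · rw [Nat.testBit_lt_two_pow (C.wf.sa.trans_le
          (Nat.pow_le_pow_right (by omega) (by omega)))] at e
        cases e
      · rw [show ix u t = 256 * 1 + (u * 16 + t) - 256 by omega, e.2]
  | cons l c ih =>
    change Nat.testBit (cn (bt 16422 (Nat.land l 31)) (cn (Nat.ble 6291456 l) (Nat.lor (mx s c) _)
      (mx s c)) (mx s c)) _ = true at e
    rw [cn_eq, cn_eq] at e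
    split_ifs at e with p q
    rotate_left
    · exact ih h.cons.2 e
    · exact ih h.cons.2 e
    have e4 : Nat.land l 4 = Nat.land (l % 32) 4 := by
      rw [← l31]
      exact (congrArg (Nat.land l) (rfl : 4 = Nat.land 31 4)).trans (Nat.and_assoc l 31 4).symm
    have tb : ∀ m, m < 32 → bt 16422 m = true → ((m = 1 ∨ m = 2) ∧ Nat.land m 4 = 0) ∨
      ((m = 5 ∨ m = 14) ∧ Nat.land m 4 = 4) := by decide +kernel
    have p1 := tb _ (by omega) (l31 l ▸ p)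
    have hl := h.cons.1
    have a1 : g1 l < 16 := lt16 _
    have a2 : g2 l < 16 := lt16 _
    rw [C.lit_T (Nat.le_of_ble_eq_true q)] at hl
    rw [tb_or, tb_sl, e4] at e
    simp only [tb_or, Bool.or_eq_true, Bool.and_eq_true, decide_eq_true_eq,
      tb_one, ix, Nat.add_eq, Nat.mul_eq] at e
    rcases e with e | ⟨e1, e⟩
    · exact ih h.cons.2 e
    have : C.ts (2 * k) (g1 l) (g2 l) 0 := by
      rcases p1 with ⟨p1 | p1, p2⟩ | ⟨p1 | p1, p2⟩ <;> rw [p2] at e e1 <;> rw [p1] at hl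
      · rw [show k = 0 by omega]; exact not_not.1 hl
      · rw [show k = 0 by omega]; exact not_not.1 hl
      · rw [show k = 1 by omega]; exact not_not.1 hl
      · rw [show k = 1 by omega]; exact not_not.1 hl
    rcases (by omega : (g1 l = u ∧ g2 l = t) ∨ (g1 l = t ∧ g2 l = u)) with
      ⟨rfl, rfl⟩ | ⟨rfl, rfl⟩
    exacts [this, (C.ts_symm (by omega) _ _ 0 0).1 this]

theorem hit_ok {k P : ℕ} (h : C.N c) (hk : k < 2) (hu : u < s.n)
    (e : hit s (mx s c) (u + 16 * k) P = true) :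
    ∃ t, t < s.n ∧ P.testBit t = true ∧ C.ts (2 * k) u t 0 := by
  obtain ⟨t, p⟩ := ex_bit (ne_eq'.1 e)
  simp only [ro, tb_and, tb_sr, Bool.and_eq_true, tb_full] at p
  refine ⟨t, p.1.2, p.2, mx_ok h hk hu p.1.2 ?_⟩
  rw [← p.1.1]; congr 1; show _ = (u + 16 * k) * 16 + t; omega

theorem hitA {P : ℕ} (h : C.N c) (hu : u < s.n) (e : hit s (mx s c) u P = true) :
    ∃ t, t < s.n ∧ P.testBit t = true ∧ C.A u t := hit_ok (k := 0) h (by omega) hu e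

theorem hitB {P : ℕ} (h : C.N c) (hu : u < s.n) (e : hit s (mx s c) (Nat.add u 16) P = true) :
    ∃ t, t < s.n ∧ P.testBit t = true ∧ C.B u t := hit_ok (k := 1) h (by omega) hu e

theorem mA (h : C.N c) (hu : u < s.n) (ht : t < s.n) (e : bt (mx s c) (ix u t) = true) :
    C.A u t := mx_ok (k := 0) h (by omega) hu ht (by rw [← bt_eq, ← e]; congr 1; simp [ix])

theorem mB (h : C.N c) (hu : u < s.n) (ht : t < s.n)
    (e : bt (mx s c) (ix (Nat.add u 16) t) = true) : C.B u t :=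
  mx_ok (k := 1) h (by omega) hu ht (by
    rw [← bt_eq, ← e]; congr 1; show _ = (u + 16) * 16 + t; omega)

theorem top_bd (hR : R < 3) : Bd s.n C.T (C.Reg R) (C.T (s.loc R 3)) :=
  ⟨reg_loc hR (by omega) (C.wf.l3 R hR), _, C.wf.l3 R hR, rfl⟩

theorem sm_eq (n A : ℕ) (f : ℕ → ℕ) : sm n A f = (((List.range n).filter (bt A)).map f).sum := by
  induction n with
  | zero => rfl
  | succ n ih =>
    rw [List.range_succ, List.filter_append, List.map_append, List.sum_append, ← ih]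
    show (Bool.rec (sm n A f) (sm n A f + f n) (bt A n) : ℕ) = _
    cases e : bt A n <;> simp [e]

theorem sm_or (n A i : ℕ) (f : ℕ → ℕ) :
    sm n (Nat.lor A (Nat.shiftLeft 1 i)) f ≤ sm n A f + if i < n then f i else 0 := by
  induction n with
  | zero => exact le_rfl
  | succ n ih =>
    show cn (bt _ n) (sm n _ f + f n) (sm n _ f) ≤ cn (bt A n) (sm n A f + f n) (sm n A f) + _
    have : bt (Nat.lor A (Nat.shiftLeft 1 i)) n = true ↔ bt A n = true ∨ n = i := by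
      simp only [bt_eq, tb_or, Bool.or_eq_true, tb_one]
    simp only [cn_eq, this]
    by_cases e : n = i
    · subst e
      rw [if_neg (lt_irrefl _)] at ih
      simp only [or_true, if_true, Nat.lt_succ_self]
      split_ifs <;> omega
    · simp only [e, or_false, show i < n + 1 ↔ i < n by omega]
      split_ifs at ih ⊢ <;> omega

theorem out_ok (h : C.N c) (hl : ¬ litv C.val l) (hl' : ¬ litv C.val l') (hl'' : ¬ litv C.val l'')
    (e : out s c l l' l'' = true) : False := by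
  simp only [out, out1, out2, bn_eq, cb_eq, im_eq, ne_eq', a10_eq, Nat.beq_eq, Nat.ble_eq,
    Nat.add_eq] at e
  obtain ⟨e0, e1, e2, e3, ⟨hd, n1, n2⟩, e6, e5⟩ := e
  obtain ⟨L1, ⟨a1, i1⟩, b1, c1⟩ := nd1 hl' e1
  obtain ⟨L2, ⟨a2, i2⟩, b2, c2⟩ := nd1 hl'' e2
  have r1 := (rp 6 hl' e1).1
  have r2 := (rp 6 hl'' e2).1
  have cov : ∀ Q, Nat.testBit 7 Q = true ↔ (Q = g1 l ∨ Q = fR l') ∨ Q = fR l'' := fun Q => by
    simp only [← e3, tb_or, Bool.or_eq_true, tb_one]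
  have hR : g1 l < 3 := by
    by_contra k
    have := (cov _).2 (Or.inl (Or.inl rfl))
    rw [Nat.testBit_lt_two_pow (lt_of_lt_of_le (by omega : 7 < 2 ^ 3)
      (Nat.pow_le_pow_right (by omega) (by omega)))] at this
    cases this
  have tl : ∀ R S, s.tm R S < 2 ^ 10 := fun R S => Nat.lt_succ_of_le Nat.and_le_right
  generalize hA : Nat.lor (s.tm (fR l') (fA l')) _ = A at e5 e6
  have A1 : A < 2 ^ 10 := hA ▸ Nat.or_lt_two_pow (tl _ _) (tl _ _)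
  have A2 : ∀ t, A.testBit t = true ↔ (s.tm (fR l') (fA l')).testBit t = true ∨
      (s.tm (fR l'') (fA l'')).testBit t = true := fun t => by
    simp only [← hA, tb_or, Bool.or_eq_true]
  have A3 : ∀ t, A.testBit t = true → t < s.n := fun t k => ((A2 t).1 k).elim
    (fun k => ((C.wf.tm _ _ t r1 (fA_lt _)).1 k).1) fun k => ((C.wf.tm _ _ t r2 (fA_lt _)).1 k).1
  have n10 := C.wf.n
  generalize hP : s.tm (g1 l) 127 = P at e5 e6
  have P1 : ∀ t, P.testBit t = true ↔ t < s.n ∧ C.Reg (g1 l) (C.T t) := fun t => hP ▸ tm127 hR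
  have e8 : pc (Nat.xor A (Nat.land A P)) =
      (((List.range 10).filter (bt A)).filter (!bt P ·)).length := by
    rw [pc_eq (A := Nat.xor A (Nat.land A P))
      (Nat.xor_lt_two_pow A1 (lt_of_le_of_lt Nat.and_le_left A1)), List.filter_filter]
    congr 2
    funext t
    simp only [bt_eq, tb_xor, tb_and]
    cases A.testBit t <;> cases P.testBit t <;> rfl
  generalize hX : (((List.range 10).filter (bt A)).filter (!bt P ·)).map C.T ++ (L1 ++ L2) = X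
  generalize hY : (((List.range 10).filter (bt A)).filter (bt P)).map C.T = Y
  have y0 : (Y.map (C.wt (Bd s.n C.T (C.Reg (g1 l))))).sum =
      sm 10 (Nat.land A P) fun t => s.w (g1 l) (s.pos (g1 l) t) := by
    rw [← hY, sm_eq, List.map_map, List.filter_filter,
      show (fun t => bt P t && bt A t) = bt (Nat.land A P) from funext fun t => by
        simp only [bt_eq, tb_and, Bool.and_comm]]
    refine congrArg _ (List.map_congr_left fun t m => ?_)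
    have := (List.mem_filter.1 m).2
    rw [bt_eq, tb_and, Bool.and_eq_true, P1] at this
    have p := (C.on _ t hR this.2.1).1 this.2.2
    have q := C.wf.pl _ t hR this.2.1 p
    have := C.wtE hd _ _ hR p (q.symm ▸ this.2.1)
    rwa [q] at this
  have x0 : X.length ≤ pc (Nat.xor A (Nat.land A P)) + (fK l' + fK l'') := by
    simp only [← hX, List.length_append, List.length_map, e8]; omega
  have y1 : ∀ t, A.testBit t = true → P.testBit t = true → C.T t ∈ Y := fun t p q => hY ▸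
    List.mem_map_of_mem (by have := A3 t p; simp [bt_eq, p, q]; omega)
  have y2 : ∀ t, A.testBit t = true → C.T t ∈ X ∨ C.T t ∈ Y := fun t p => by
    by_cases q : P.testBit t = true
    · exact Or.inr (y1 t p q)
    · exact Or.inl (hX ▸ List.mem_append_left _ (List.mem_map_of_mem
        (by have := A3 t p; simp [bt_eq, p, q]; omega)))
  have x1 : ∀ x ∈ L1, x ∈ X := fun x p => by simp [← hX, p]
  have x2 : ∀ x ∈ L2, x ∈ X := fun x p => by simp [← hX, p]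
  have y3 : ∀ x ∈ Y, Bd s.n C.T (C.Reg (g1 l)) x := fun x p => by
    obtain ⟨t, q, rfl⟩ := List.mem_map.1 (hY ▸ p)
    have := (P1 t).1 (bt_eq _ _ ▸ (List.mem_filter.1 q).2)
    exact ⟨this.2, t, this.1, rfl⟩
  have x3 : ∀ x ∈ X, ¬ C.Reg (g1 l) x := fun x p k => by
    simp only [← hX, List.mem_append, List.mem_map, List.mem_filter, bt_eq] at p
    rcases p with ⟨t, ⟨p, q⟩, rfl⟩ | p | p
    · simp [(P1 t).2 ⟨A3 t p.2, k⟩] at q
    · exact n1 (C.uniq _ _ x hR r1 k (i1 x p).1 (i1 x p).2)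
    · exact n2 (C.uniq _ _ x hR r2 k (i2 x p).1 (i2 x p).2)
  have dm : ∀ v, ¬ C.Reg (g1 l) v → (∃ x ∈ X, C.G.Adj v x) ∨ ∃ x ∈ Y, C.G.Adj v x := by
    intro v hv
    have fa : ∀ t, A.testBit t = true → C.G.Adj v (C.T t) →
        (∃ x ∈ X, C.G.Adj v x) ∨ ∃ x ∈ Y, C.G.Adj v x := fun t p q =>
      (y2 t p).imp (fun k => ⟨_, k, q⟩) fun k => ⟨_, k, q⟩
    rcases split v with ⟨u, u1, rfl⟩ | ⟨R, q1, q2⟩
    · obtain ⟨t, k⟩ := ex_bit (Nat.one_le_iff_ne_zero.1 (e5 u (by omega)))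
      simp only [tb_or, tb_and, tb_sr, tb_xor, Bool.or_eq_true, Bool.and_eq_true] at k
      rcases k with ⟨k, z⟩ | ⟨k, z⟩
      · obtain rfl : t = 0 := (@tb_one 0 t).1 z
        rcases k with ((k | k) | k) | k
        · exact absurd ((P1 u).1 k).2 hv
        · obtain ⟨x, p, q⟩ := c1 u k; exact Or.inl ⟨x, x1 x p, q⟩
        · obtain ⟨x, p, q⟩ := c2 u k; exact Or.inl ⟨x, x2 x p, q⟩
        · rw [add_zero, tb_full.2 u1, show (1023 : ℕ) = 2 ^ 10 - 1 from rfl,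
            Nat.testBit_two_pow_sub_one, decide_eq_true (by omega)] at k
          cases k
      · exact fa t z (not_not.1 (mat_ok h (k := 1) (by omega) u1 (A3 t z) k))
    · rcases (cov R).1 (by interval_cases R <;> rfl) with (rfl | rfl) | rfl
      · exact absurd q2.1 hv
      · exact (b1 v q2).elim (fun ⟨t, p, q⟩ => fa t ((A2 t).2 (Or.inl p)) q) fun ⟨x, p⟩ =>
          Or.inl ⟨x, x1 x p.1, p.2⟩
      · exact (b2 v q2).elim (fun ⟨t, p, q⟩ => fa t ((A2 t).2 (Or.inr p)) q) fun ⟨x, p⟩ =>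
          Or.inl ⟨x, x2 x p.1, p.2⟩
  refine tn 6 hl e0 ⟨Y, y3, ?_⟩
  rw [gm2, y0]
  rcases X with _ | ⟨y, _ | ⟨z, X⟩⟩
  · exact Or.inl ⟨by omega, fun v k => (dm v k).resolve_left (by simp)⟩
  · obtain ⟨-, k1, k2, k3, k4⟩ := e6.resolve_left (by rw [List.length_singleton] at x0; omega)
    refine Or.inr ⟨k2, k3, fun x p q => ?_, y, x3 y (by simp),
      fun v k => (dm v k).imp_left (by simp)⟩
    obtain ⟨r, rfl⟩ := (C.tpE hd _ hR x p).1 q
    exact y1 _ (bt_eq _ _ ▸ k4 r) ((P1 _).2 ⟨C.wf.l3 _ hR, p.1⟩)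
  · simp only [List.length_cons] at x0
    omega

theorem mask (hd : s.d = 0) (hR : R < 3) (L : List C.V)
    (h : ∀ x ∈ L, Bd s.n C.T (C.Reg R) x) : ∃ A, A < 128 ∧
      sm 7 A (s.w R) ≤ (L.map (C.wt (Bd s.n C.T (C.Reg R)))).sum ∧ (∀ i, A.testBit i = true → s.loc R i < s.n) ∧
      ∀ t, t < s.n → C.T t ∈ L → A.testBit (s.pos R t) = true := by
  induction L with
  | nil => exact ⟨0, by omega, le_rfl, by simp, by simp⟩
  | cons x L ih =>
    obtain ⟨A, a1, a2, a3, a4⟩ := ih fun y k => h y (List.mem_cons_of_mem _ k)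
    obtain ⟨x1, t, t1, rfl⟩ := h x List.mem_cons_self
    have p := (C.on R t hR t1).1 x1
    have q := C.wf.pl R t hR t1 p
    have e1 := sm_or 7 A (s.pos R t) (s.w R)
    have e2 := C.wtE hd R _ hR p (q.symm ▸ t1)
    rw [q] at e2
    rw [if_pos p] at e1
    refine ⟨Nat.lor A (Nat.shiftLeft 1 (s.pos R t)), Nat.or_lt_two_pow (n := 7) a1
      ((Nat.one_shiftLeft _).trans_lt (Nat.pow_lt_pow_right (a := 2) (by omega) p)),
      by rw [List.map_cons, List.sum_cons]; omega, fun i k => ?_, fun u u1 k => ?_⟩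
    · simp only [tb_or, Bool.or_eq_true, tb_one] at k
      rcases k with k | rfl
      exacts [a3 i k, by rwa [q]]
    · simp only [tb_or, Bool.or_eq_true, tb_one]
      rcases List.mem_cons.1 k with k | k
      exacts [Or.inr (by rw [C.inj _ _ u1 t1 k]), Or.inl (a4 u u1 k)]

theorem ez7 (hd : s.d = 0) (hR : R < 3) : C.Ew 127 R (C.Int R) := by
  let L := ((List.range 7).filter (s.re R)).map fun i => C.T (s.loc R i)
  have l1 : (L.map (C.wt (Bd s.n C.T (C.Reg R)))).sum ≤ 127 := by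
    refine (List.sum_le_card_nsmul _ 15 fun x k => ?_).trans ?_
    · obtain ⟨y, p, rfl⟩ := List.mem_map.1 k
      obtain ⟨i, r, rfl⟩ := List.mem_map.1 p
      obtain ⟨r, q⟩ := re_eq.1 (List.mem_filter.1 r).2
      rw [C.wtE hd R i hR r q]
      exact Nat.and_le_right
    · have := List.length_filter_le (s.re R) (List.range 7)
      simp only [List.length_map, L, List.length_range, smul_eq_mul] at this ⊢
      omega
  have l2 : ∀ x ∈ L, Bd s.n C.T (C.Reg R) x := fun x k => by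
    obtain ⟨i, p, rfl⟩ := List.mem_map.1 k
    obtain ⟨p, q⟩ := re_eq.1 (List.mem_filter.1 p).2
    exact ⟨reg_loc hR p q, _, q, rfl⟩
  have l3 : ∀ t, t < s.n → C.Reg R (C.T t) → C.T t ∈ L := fun t p q => by
    have a := (C.on R t hR p).1 q
    have b := C.wf.pl R t hR p a
    exact List.mem_map.2 ⟨_, List.mem_filter.2 ⟨List.mem_range.2 a, re_eq.2 ⟨a, b.symm ▸ p⟩⟩,
      congrArg _ b⟩
  by_cases k : ∀ w, C.Int R w → ∃ x ∈ L, C.G.Adj w x
  · exact ⟨L, l2, Or.inl ⟨l1, k⟩⟩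
  push Not at k
  obtain ⟨w, w1, w2⟩ := k
  refine C.bal hd R hR 127 le_rfl ⟨L, l2, Or.inl ⟨l1, fun v hv => ?_⟩⟩
  obtain ⟨x, y, a1, a2, a3⟩ := C.d3 w v
  have rx := w1.wk hR a1
  have jx : C.Int R x := (cs rx).resolve_left fun ⟨t, p, q⟩ =>
    a1.elim (fun k => w1.2 t p (k.trans q)) (w2 x (q ▸ l3 t p (q ▸ rx)))
  have ry := jx.wk hR a2
  obtain ⟨t, p, rfl⟩ := (cs ry).resolve_right fun k => hv (k.wk hR a3)
  exact ⟨_, l3 t p ry, (a3.resolve_left fun k => hv (k ▸ ry)).symm⟩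

theorem bal_ok (h : C.N c) (e : Gl.bal s c R J = true) : False := by
  simp only [Gl.bal, bal1, bn_eq, bo_eq, im_eq, al_eq, lt_eq, Nat.beq_eq, Nat.ble_eq] at e
  obtain ⟨hd, r, j, e1, e2⟩ := e
  have hR : R < 3 := by omega
  obtain ⟨L, l1, l2⟩ : C.Ew J R (C.Int R) := by
    rcases e1 with rfl | e1
    · exact ez7 hd hR
    · refine C.bal hd R hR J j (not_not.1 fun k => h _ (mem_ok e1) ?_)
      refine (C.lit_tw (by omega) (by omega) (by omega)).2 ?_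
      change ¬ C.Ew (J % 16 + 16 * (J / 16)) R _
      rwa [Nat.mod_add_div]
  obtain ⟨A, a1, a2, a3, a4⟩ := mask hd hR L l1
  obtain ⟨e3, e4⟩ := (e2 A a1).resolve_left fun k => by
    obtain ⟨i, -, k⟩ := an_ok k
    rw [bn_eq, bt_eq, Shp.du, Nat.ble_eq] at k
    have := a3 i k.1
    omega
  have key : ∀ S w, sub A S = true → C.Int R w → (∃ x ∈ L, C.G.Adj w x) →
      (C.D R).A1 (C.e R w) S := fun S w k p ⟨x, q, r⟩ => by
    obtain ⟨-, t, t1, rfl⟩ := l1 x q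
    exact ⟨_, p.pos hR t1 r, sub_tb k (a4 t t1 q), p.bp hR t1 r⟩
  rcases l2 with ⟨b1, b2⟩ | ⟨b1, b2, b3, y, b5, b6⟩
  · obtain ⟨l, p, q⟩ := ex_ok (e3.resolve_left (by omega))
    simp only [bn_eq, Nat.beq_eq] at q
    obtain ⟨q1, rfl, q2⟩ := q
    refine (rp 5 (h l p) q1).2 fun z k => ?_
    obtain ⟨w, rfl, j⟩ := (C.eI _ z hR).1 k
    exact Or.inl (key _ w q2 j (b2 w j))
  · obtain ⟨l, p, q⟩ := ex_ok (e4 ⟨fun k => by
      have := a4 _ (C.wf.l3 R hR) (b3 _ (top_bd hR) ((C.tpE hd R hR _ (top_bd hR)).2 ⟨k, rfl⟩))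
      rwa [C.wf.lp R 3 hR (by omega) (C.wf.l3 R hR), ← bt_eq] at this,
      by rw [Nat.add_eq]; omega, by rw [Nat.add_eq]; omega⟩)
    simp only [bn_eq, Nat.beq_eq] at q
    obtain ⟨q1, rfl, q2, q3⟩ := q
    refine (rp 15 (h l p) q1).2 ⟨[C.e _ y], by simp, q2.symm, by simpa using I_e hR b5,
      fun z k => ?_⟩
    obtain ⟨w, rfl, j⟩ := (C.eI _ z hR).1 k
    exact (b6 w j).symm.imp (key _ w q3 j) fun m => ⟨_, by simp, Int.adj j hR m⟩

theorem f2_ok (h : C.N c) (hl : ¬ litv C.val l) (e : f2 s c l (g1 l) (g2 l) (mx s c) = true) :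
    False := by
  simp only [f2, bn_eq, bo_eq, lt_eq] at e
  obtain ⟨e0, hu, ht, e⟩ := e
  refine (tn 7 hl e0 : ¬ C.B _ _) ?_
  rcases e with e | e | e
  · exact (mA h hu ht e).d2
  · obtain ⟨y, p, q, e⟩ := hitA h hu e
    rw [ro, tb_and, tb_sr, Bool.and_eq_true, ← bt_eq] at q
    exact ⟨_, Or.inr e, Or.inr (mA h ht p q.1).symm⟩
  obtain ⟨R, hR, e⟩ := an_ok e
  simp only [bn_eq, bo_eq, Nat.ble_eq] at e
  have key : ∀ u t, u < s.n → t < s.n → s.pos R u ≤ 6 → s.pos R t ≤ 6 →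
      mem c (rl R 26 (s.pos R u) (s.pos R t) 0) = true → C.B u t := fun u t a b p q k => by
    obtain ⟨z, z1, z2, z3⟩ := not_not.1 (h.rl hR k (by omega))
    obtain ⟨w, rfl, j⟩ := (C.eI _ z hR).1 z1
    have k1 := (Int.nb j hR (by omega) z2.symm).2
    have k2 := (Int.nb j hR (by omega) z3).2
    rw [C.wf.pl R _ hR ‹_› (by omega)] at k1 k2
    exact ⟨w, Or.inr k1.symm, Or.inr k2⟩
  exact e.2.2.elim (key _ _ hu ht e.1 e.2.1) fun k => D2.symm (key _ _ ht hu e.2.1 e.1 k)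

theorem fv_ok (h : C.N c) (hl : ¬ litv C.val l) (e : fv s c l (g1 l) = true) : False := by
  simp only [fv, bn_eq, lt_eq] at e
  obtain ⟨u, p, q, k⟩ := hitB h e.2.1 e.2.2
  exact tn 8 hl e.1 u (by have := C.wf.n; omega) (gm2 l ▸ q) k

theorem wok_ok {P Q : ℕ} {d : List ℕ} (h : C.N c) (hd : C.N d) (j : C.Int R w)
    (w0 : ∀ t, t < s.n → P.testBit t = true → ¬ C.G.Adj w (C.T t))
    (w1 : ∀ t, t < s.n → Q.testBit t = true → ¬ D2 C.G w (C.T t))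
    (e : wok s c R P Q (mx s d) = true) : False := by
  obtain ⟨l, p, e⟩ := ex_ok e
  simp only [bn_eq, bo_eq, im_eq, al_eq, a10_eq, Nat.beq_eq, re_eq, bt_eq] at e
  obtain ⟨rfl, e1, e5⟩ := e
  have n10 := C.wf.n
  have k1 : fR l < 3 → ¬ (C.D (fR l)).A1 (C.e _ w) (fA l) := fun hR k => by
    obtain ⟨t, t1, t2⟩ := (j.A1 hR (fA_lt _)).1 k
    have t3 := ((C.wf.tm _ _ t hR (fA_lt _)).1 t1).1
    rcases e5 t (by omega) t1 with k | k
    · exact w0 t t3 k t2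
    · obtain ⟨u, u1, k1, k2⟩ := hitA hd t3 k
      exact w1 u u1 k1 ⟨_, Or.inr t2, Or.inr k2⟩
  rcases e1 with ⟨e1, e3, e4⟩ | ⟨e1, e3, e4⟩
  swap
  · exact k1 (rp 6 (h l p) e1).1 (nd0 (h l p) e1 e3 e4 _ (I_e (rp 6 (h l p) e1).1 j))
  obtain ⟨hR, q⟩ := rp 12 (h l p) e1
  obtain ⟨i, i1, i2, x, x1, x2⟩ := (not_not.1 q _ (I_e hR j)).resolve_left (k1 hR)
  have i3 := (e4 i i1 i2).2
  obtain ⟨y, rfl, ry⟩ : ∃ y, x = C.e _ y ∧ C.Reg (fR l) y := by
    rcases (C.D _).cov _ _ x1 with k | ⟨k, k1, rfl⟩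
    · obtain ⟨y, a, b, -⟩ := (C.eI _ x hR).1 k
      exact ⟨y, a, b⟩
    · have := (j.nb hR k1 x1).1
      exact ⟨_, C.eb _ k hR k1 this, reg_loc hR k1 this⟩
  rw [C.eb _ i hR i1 i3] at x2
  refine w1 _ i3 (sub_tb e3 ((C.wf.tm _ _ _ hR (fB_lt _)).2 ⟨i3, ?_⟩))
    ⟨y, Or.inr ((C.eA _ _ _ hR j.1 ry).1 x1),
      Or.inr ((C.eA _ _ _ hR ry (reg_loc hR i1 i3)).1 x2)⟩
  rw [C.wf.lp _ i hR i1 i3]
  exact ⟨i1, i2⟩

theorem fwr_ok (h : C.N c) (hl : ¬ litv C.val l) (e : fwr s c l = true) : False := by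
  obtain ⟨e0, e⟩ := bn_eq.1 e
  obtain ⟨w, j, w1⟩ := tn 9 hl e0
  rw [gm2] at w1
  have n10 := C.wf.n
  exact wok_ok h h j (fun t p q k => w1 t (by omega) q ⟨_, Or.inr k, Or.inl rfl⟩)
    (fun t p => w1 t (by omega)) e

theorem lit_rh : litv C.val 6291476 ↔ RH s C.G C.T :=
  C.lit_tv (m := 20) (a := 0) (b := 0) (c := 0) (by omega) (by omega) (by omega) (by omega)

theorem lv_ok (h : C.N c) (hd : s.d = 0) : NF C.G (lv s c) := by
  rw [lv, cn_eq]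
  split_ifs with p
  · rw [show fld s.lo 3 7 = s.lo / 8 % 8 from fm _ 3 3]
    exact ((C.nf hd).2 fun k => h _ (mem_ok p) (lit_rh.2 k)).2
  · rw [show Nat.land s.lo 7 = s.lo % 8 from Nat.and_two_pow_sub_one_eq_mod _ 3]
    exact (C.nf hd).1

theorem fw_ok (h : C.N c) (e : fw s c = true) : False := by
  obtain ⟨hd, e⟩ := bn_eq.1 e
  obtain ⟨l, -, e⟩ := ex_ok e
  have s1 : gm l < 1024 := by rw [gm_eq]; omega
  have nf := lv_ok h (Nat.eq_of_beq_eq_true hd)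
  simp only [fw1, bn_eq, bo_eq, al_eq] at e
  generalize gm l = S at e s1
  obtain ⟨-, e1, e3, e4⟩ := e
  obtain ⟨x, x1, e1⟩ := an_ok e1
  obtain ⟨y, y1, e1⟩ := an_ok (bn_eq.1 e1).2
  obtain ⟨z, z1, e1⟩ := an_ok (bn_eq.1 e1).2
  obtain ⟨e1, e2⟩ := bn_eq.1 (bn_eq.1 e1).2
  have n10 := C.wf.n
  obtain ⟨v, v1⟩ : ∃ v, ¬ D2 C.G v (C.T x) ∧ ¬ D2 C.G v (C.T y) ∧ ¬ D2 C.G v (C.T z) := by
    simp only [lvl, cb_eq, bn_eq, Nat.beq_eq, Nat.ble_eq] at e1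
    rcases e1 with ⟨rfl, ⟨rfl, k⟩ | ⟨-, ⟨p, k⟩ | ⟨-, k, p⟩⟩⟩ | ⟨-, k, p, q⟩
    exacts [nf.mono k _ _ _ ⟨rfl, rfl⟩, nf.mono k _ _ _ ⟨rfl, Or.inr (mA h x1 y1 p)⟩,
      nf.mono k _ _ _ ⟨rfl, mB h x1 y1 p⟩,
      nf.mono k _ _ _ ⟨Or.inr (mA h x1 y1 p), Or.inr (mA h x1 z1 q)⟩]
  have key : ∀ u, u < 10 → (S % 16 + 16 * (S / 16)).testBit u = true → ¬ D2 C.G v (C.T u) := by
    intro u p q
    rw [Nat.mod_add_div] at q
    have := sub_tb e2 q
    simp only [tb_or, Bool.or_eq_true, tb_one] at this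
    rcases this with rfl | rfl | rfl
    exacts [v1.1, v1.2.1, v1.2.2]
  rcases split v with ⟨t, t1, rfl⟩ | ⟨R, r1, r2⟩
  · rcases e3 t t1 with k | k
    · obtain ⟨u, u1, p, q⟩ := hitB h t1 k
      exact key u (by omega) (by rwa [Nat.mod_add_div]) q
    · exact h _ (mem_ok k) ((C.lit_tw (by omega) (by omega) s1).2 key)
  · exact h _ (mem_ok (e4 R r1)) ((C.lit_tw (by omega) (by omega) s1).2 ⟨v, r2, key⟩)

/-- The retraction of a disk onto its region. -/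
def Rt (C : Cfg s) (R : ℕ) (x : (C.D R).X) (v : C.V) : Prop := (C.Reg R v ∧ x = C.e R v) ∨
  ∃ i, i < 7 ∧ s.n ≤ s.loc R i ∧ x = (C.D R).b i ∧ v = C.T (s.loc R (s.rt R i))

theorem rt_ex (hR : R < 3) {x : (C.D R).X} (h : (C.D R).In x) : ∃ v, C.Rt R x v := by
  rcases h with h | ⟨i, p, rfl⟩
  · obtain ⟨v, a, b, -⟩ := (C.eI R x hR).1 h
    exact ⟨v, Or.inl ⟨b, a⟩⟩
  · by_cases k : s.loc R i < s.n
    exacts [⟨_, Or.inl ⟨reg_loc hR p k, C.eb R i hR p k⟩⟩, ⟨_, Or.inr ⟨i, p, by omega, rfl, rfl⟩⟩]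

theorem e_b (hR : R < 3) (hi : i < 7) (h : C.Reg R v) (e : C.e R v = (C.D R).b i) :
    s.loc R i < s.n ∧ v = C.T (s.loc R i) := by
  rcases cs h with ⟨t, p, rfl⟩ | k
  · have q := (C.on R t hR p).1 h
    rw [← b_pos hR p q] at e
    rw [← (C.D R).inj _ _ q hi e, C.wf.pl R t hR p q]
    exact ⟨p, rfl⟩
  · exact absurd (e ▸ I_e hR k) ((C.D R).off i hi)

theorem rt_eq (hR : R < 3) {x y : (C.D R).X} (p : C.Rt R x v) (q : C.Rt R y w) (h : x = y) :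
    v = w := by
  rcases p with ⟨p, rfl⟩ | ⟨i, i1, i2, rfl, rfl⟩ <;> rcases q with ⟨q, e⟩ | ⟨j, j1, j2, e, rfl⟩
  exacts [C.ei R (h.trans e), absurd (e_b hR j1 p (h.trans e)).1 (by omega),
    absurd (e_b hR i1 q (h.trans e).symm).1 (by omega), by rw [(C.D R).inj _ _ i1 j1 (h.trans e)]]

theorem rt_wk (hR : R < 3) {x y : (C.D R).X} (p : C.Rt R x v) (q : C.Rt R y w)
    (h : Wk (C.D R).G x y) : Wk C.G v w := by
  have key : ∀ i j, i < 7 → j < 7 → s.n ≤ s.loc R i → Wk (C.D R).G ((C.D R).b i) ((C.D R).b j) →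
      s.rt R i = s.rt R j := fun i j a b d e => by
    rcases e with e | e
    · rw [(C.D R).inj _ _ a b e]
    obtain ⟨k, k1, k2, k3⟩ := C.ed R i _ hR a d e
    obtain rfl := (C.D R).inj _ _ b k1 k2
    rcases k3 with rfl | rfl
    exacts [(C.wf.rt R i hR a).2 (by omega) (Or.inl d),
      ((C.wf.rt R j hR b).2 (by omega) (Or.inr d)).symm]
  have k2 : ∀ i v, i < 7 → s.n ≤ s.loc R i → C.Reg R v → Wk (C.D R).G ((C.D R).b i) (C.e R v) →
      C.T (s.loc R (s.rt R i)) = v := fun i v a b d e => by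
    obtain ⟨j, j1, j2⟩ : ∃ j, j < 7 ∧ C.e R v = (C.D R).b j := e.elim (fun e => ⟨i, a, e.symm⟩)
      fun e => let ⟨j, p, q, _⟩ := C.ed R i _ hR a b e; ⟨j, p, q⟩
    obtain ⟨m, rfl⟩ := e_b hR j1 d j2
    rw [key i j a j1 b (j2 ▸ e), Shp.rt, if_neg (by rw [Shp.du, Nat.ble_eq]; omega)]
  rcases p with ⟨p, rfl⟩ | ⟨i, i1, i2, rfl, rfl⟩ <;> rcases q with ⟨q, rfl⟩ | ⟨j, j1, j2, rfl, rfl⟩
  exacts [h.imp (C.ei R ·) (C.eA R _ _ hR p q).1, Or.inl (k2 j v j1 j2 p h.symm).symm,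
    Or.inl (k2 i w i1 i2 q h), Or.inl (by rw [key i j i1 j1 i2 h])]

theorem rt_d2 (hR : R < 3) {x y : (C.D R).X} (i : (C.D R).In x) (p : C.Rt R x v) (q : C.Rt R y w)
    (h : D2 (C.D R).G x y) : D2 C.G v w :=
  let ⟨m, a, b⟩ := h
  let ⟨z, k⟩ := rt_ex hR (x := m) (a.elim (fun e => e ▸ i) ((C.D R).cov x m))
  ⟨z, rt_wk hR p k a, rt_wk hR k q b⟩

theorem fs_ok (h : C.N c) (hl : ¬ litv C.val l) (e : fs s c l = true) : False := by
  simp only [fs, fs1, bn_eq, bo_eq, al_eq, lt_eq, Nat.beq_eq, Nat.ble_eq] at e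
  obtain ⟨hd, e0, e1, e2, e3⟩ := e
  obtain ⟨hR, q⟩ := rp 14 hl e0
  refine q fun x y z a b d k p q => ?_
  obtain ⟨x', x1⟩ := rt_ex hR a
  obtain ⟨y', y1⟩ := rt_ex hR b
  obtain ⟨z', z1⟩ := rt_ex hR d
  obtain ⟨v, v1, v2, v3⟩ := (lv_ok h hd).mono e1 x' y' z' (by
    have : fK l < 4 := by rw [fK_eq]; omega
    generalize fK l = n at k this
    interval_cases n
    exacts [⟨rt_eq hR x1 y1 k.1, rt_eq hR y1 z1 k.2⟩, ⟨rt_eq hR y1 z1 k.1, rt_wk hR x1 y1 k.2⟩,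
      ⟨rt_eq hR y1 z1 k.1, rt_d2 hR a x1 y1 k.2⟩, ⟨rt_wk hR x1 y1 k.1, rt_wk hR x1 z1 k.2⟩])
  have bd : ∀ S t, S < 128 → (s.tm (fR l) S).testBit t = true → s.pos (fR l) t < 7 ∧
      S.testBit (s.pos (fR l) t) = true ∧ C.Rt (fR l) ((C.D _).b (s.pos (fR l) t)) (C.T t) :=
    fun S t m n => let ⟨a, b, d⟩ := (C.wf.tm _ S t hR m).1 n
      ⟨b, d, Or.inl ⟨(C.on _ t hR a).2 b, b_pos hR a b⟩⟩
  have f1 : ∀ t, (s.tm (fR l) (fA l)).testBit t = true → ¬ Wk C.G v (C.T t) := fun t m n => by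
    obtain ⟨t1, t2, t3⟩ := bd _ t (fA_lt l) m
    rcases q _ t1 t2 with j | j | j
    exacts [v1 ⟨_, n, rt_wk hR t3 x1 j⟩, v2 ⟨_, n, rt_wk hR t3 y1 j⟩, v3 ⟨_, n, rt_wk hR t3 z1 j⟩]
  have f2 : ∀ t, (s.tm (fR l) (fB l)).testBit t = true → ¬ D2 C.G v (C.T t) := fun t m n => by
    obtain ⟨t1, t2, t3⟩ := bd _ t (fB_lt l) m
    rcases p _ t1 t2 with j | j | j
    exacts [v1 (rt_eq hR t3 x1 j ▸ n), v2 (rt_eq hR t3 y1 j ▸ n), v3 (rt_eq hR t3 z1 j ▸ n)]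
  by_cases r : C.Reg (fR l) v
  · have i : (C.D (fR l)).In (C.e _ v) := (cs r).symm.imp (I_e hR) fun ⟨t, p, q⟩ =>
      ⟨_, (C.on _ t hR p).1 (q ▸ r), q ▸ (b_pos hR p ((C.on _ t hR p).1 (q ▸ r))).symm⟩
    exact ⟨_, i, fun m => v1 (rt_d2 hR i (Or.inl ⟨r, rfl⟩) x1 m),
      fun m => v2 (rt_d2 hR i (Or.inl ⟨r, rfl⟩) y1 m),
      fun m => v3 (rt_d2 hR i (Or.inl ⟨r, rfl⟩) z1 m)⟩
  exfalso
  rcases split v with ⟨t, t1, rfl⟩ | ⟨X, r1, r2⟩
  · rcases e2 t t1 with m | m | m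
    · exact r ((C.on _ t hR t1).2 (by omega))
    · obtain ⟨u, -, m, n⟩ := hitA h t1 m
      exact f1 u m (Or.inr n)
    · obtain ⟨u, -, m, n⟩ := hitB h t1 m
      exact f2 u m n
  · exact wok_ok h h r2 (fun t _ m n => f1 t m (Or.inr n)) (fun t _ => f2 t)
      ((e3 X r1).resolve_left fun m => r (m ▸ r2.1))

theorem frb_ok (h : C.N c) (hl : ¬ litv C.val l) (e : frb s l (fR l) (mat s c) = true) :
    ¬ RH s C.G C.T := fun rh => by
  simp only [frb, bn_eq, cb_eq, im_eq, a10_eq, lt_eq, Nat.ble_eq, bt_eq] at e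
  obtain ⟨hR, q⟩ := rp 5 hl e.1
  obtain ⟨w, j, w1, w2⟩ := nban hR (fA_lt l) (fB_lt l) q
  obtain ⟨u, a, b, x, x1, x2⟩ := rh.1 w
  obtain ⟨u1, ⟨-, k1, k2⟩ | ⟨k1, k2⟩⟩ := e.2 u (by have := C.wf.n; omega) b
  · rcases x1 with rfl | x1 <;> rcases x2 with rfl | x2
    exacts [j.2 u u1 rfl, w1 u k1 x2, w1 u k1 x1, w2 u x k2 x1 x2]
  have nu : ¬ C.Reg (fR l) (C.T u) := fun k => k1 (by have := (C.on _ u hR u1).1 k; omega)
  have rx := j.wk hR x1
  obtain ⟨t, t1, rfl⟩ := (cs rx).resolve_right fun k => nu (k.wk hR x2)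
  refine mat_ok h (k := 0) (by omega) u1 t1 ?_ (x2.resolve_left fun k => nu (k ▸ rx)).symm
  have := sub_tb k2 (tmc hR (fA_lt l) t1 rx fun k => w1 t k (x1.resolve_left (j.2 t t1)))
  rw [tb_sr] at this
  rw [← this]; congr 1; show _ = u * 16 + t; omega

theorem rho_ok (h : C.N c) (hl : ¬ litv C.val l) (e : rho s c l = true) : False := by
  obtain ⟨e0, e⟩ := bn_eq.1 e
  have rh : RH s C.G C.T := tn 10 hl e0
  rcases bo_eq.1 e with e | e
  · obtain ⟨l', c2, rfl, e⟩ := nx_ok e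
    exact frb_ok h.cons.2 h.cons.1 e rh
  · obtain ⟨v, p, e⟩ := an_ok e
    obtain ⟨u, a, b, k⟩ := rh.1 (C.T v)
    exact h.has (im_eq.1 (al_eq.1 e u a) (bt_eq _ _ ▸ b)) (d2P_of p a k)

theorem oo_eq (hl : ¬ litv C.val l) (e : oo s l ≠ 0) :
    ∃ u t, u < s.n ∧ t < s.n ∧ (oa l = true → C.A u t) ∧
      (C.A u t ∨ (s.na u t = true ∧ C.B u t)) ∧ oo s l = s.o u t := by
  have a : oa l = true → C.A (g1 l) (g2 l) := fun p =>
    (bo_eq.1 p).elim (tn 0 hl) fun k => not_not.1 (tp' 1 hl k)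
  rw [oo, cn_eq] at e ⊢
  split_ifs at e ⊢ with p
  · simp only [bn_eq, bo_eq, lt_eq] at p
    exact ⟨_, _, p.2.1, p.2.2, a, p.1.imp a fun k =>
      ⟨k.2, k.1.elim (tn 2 hl) fun k => not_not.1 (tp' 7 hl k)⟩, rfl⟩
  · exact absurd rfl e

theorem sr4 (x : ℕ) : Nat.shiftRight x 4 = x / 16 := Nat.shiftRight_eq_div_pow _ 4

theorem oo_ok (hd : s.d = 0) (hl : ¬ litv C.val l) {q : ℕ} (e : ch (oo s l) q = true) :
    C.key (oo s l % 16) < C.key (q % 16) := by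
  simp only [ch, bn_eq, ne_eq', Nat.beq_eq, l15, sr4] at e
  obtain ⟨u, t, a, b, -, k, m⟩ := oo_eq hl e.1
  rw [← e.2, m]
  exact C.ord hd u t a b (m ▸ e.1) k

theorem zf_ok (hl : ¬ litv C.val l) (hl' : ¬ litv C.val l') (p : isT l 21 = true)
    (q : oa l' = true) (e : zf s (oo s l') = true) : False := by
  simp only [zf, bn_eq, cb_eq, ne_eq', l15, sr4, bt_eq] at e
  obtain ⟨u, t, a, b, k, -, m⟩ := oo_eq hl' e.1.1
  rw [m] at e
  simp [(tn 10 hl p : RH s C.G C.T).2 u t a b e.1.1 e.1.2 (k q)] at e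

theorem ord_ok (h : C.N c) (hl : ¬ litv C.val l) (hl' : ¬ litv C.val l')
    (e : Gl.ord s c (oo s l) (oo s l') = true) : False := by
  simp only [Gl.ord, bn_eq, bo_eq, Nat.beq_eq] at e
  obtain ⟨hd, ⟨p, q⟩ | e⟩ := e
  · exact lt_asymm (oo_ok hd hl p) (oo_ok hd hl' q)
  obtain ⟨z, c', rfl, e⟩ := nx_ok e
  rcases bo_eq.1 e with e | e <;> obtain ⟨p, e⟩ := bn_eq.1 e <;> obtain ⟨q, r⟩ := bn_eq.1 e
  · exact lt_asymm ((oo_ok hd hl p).trans (oo_ok hd hl' q)) (oo_ok hd h.cons.1 r)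
  · exact lt_asymm ((oo_ok hd hl' p).trans (oo_ok hd hl q)) (oo_ok hd h.cons.1 r)

theorem ok2_ok {f : ℕ} (h : C.N (l :: c)) (e : ok2 s f l c = true) : False := by
  obtain ⟨h1, h2⟩ := h.cons
  simp only [ok2, cb_eq] at e
  rcases e with ⟨-, e⟩ | ⟨-, ⟨-, e⟩ | ⟨-, ⟨-, e⟩ | ⟨-, ⟨-, e⟩ | ⟨-, ⟨-, e⟩ | ⟨-, ⟨-, e⟩ |
    ⟨-, ⟨-, e⟩ | ⟨-, ⟨-, ⟨-, e⟩ | ⟨-, e⟩⟩ | ⟨-, ⟨-, e⟩ | ⟨-, e⟩⟩⟩⟩⟩⟩⟩⟩⟩
  · exact fwr_ok h2 h1 e
  · exact fs_ok h2 h1 e
  · exact f2_ok h2 h1 e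
  · exact fv_ok h2 h1 e
  · exact fw_ok h e
  · exact rho_ok h2 h1 e
  · simp only [bn_eq, Nat.beq_eq, Nat.ble_eq] at e
    have := ((C.nf e.1).2 (tp' 10 h1 e.2.1)).1
    have : Nat.land s.lo 63 = s.lo % 64 := Nat.and_two_pow_sub_one_eq_mod _ 6
    omega
  · exact bal_ok h e
  · exact bal_ok h e
  · obtain ⟨l', c2, rfl, e⟩ := nx_ok e
    exact ord_ok h2.cons.2 h1 h2.cons.1 e
  · obtain ⟨l', c2, rfl, k⟩ := nx_ok (bn_eq.1 e).2
    exact zf_ok h1 h2.cons.1 (bn_eq.1 e).1 (bn_eq.1 k).1 (bn_eq.1 k).2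

end Pool.Agent.Lib.MP_ad48ef_co.Gl.Cfg
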