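import Pool.Agent.Lib.MP_ad48ef_co.Bfs

/-!
# Large planar graphs of diameter three: many parallel connections between two vertices
-/

namespace Pool.Agent.Lib.MP_ad48ef_co

open Pool.Agent.Shared Pool.Agent.Shared.Planar Finset

theorem free_set {ι : Type*} (rel : ι → ι → Prop) (r n : ℕ) : ∀ s : Finset ι,
    (∀ i ∈ s, ∀ t ⊆ s, (∀ j ∈ t, rel i j) → t.card ≤ r) → n * (2 * r + 1) ≤ s.card →
    ∃ t ⊆ s, t.card = n ∧ ∀ i ∈ t, ∀ j ∈ t, i ≠ j → ¬ rel i j := by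
  classical
  induction n with
  | zero => exact fun s _ _ => ⟨∅, empty_subset _, rfl, by simp⟩
  | succ n ih =>
    intro s h0 hs
    have h : ∀ i ∈ s, (s.filter (rel i)).card ≤ r := fun i hi =>
      h0 i hi _ (filter_subset _ _) fun j hj => (mem_filter.1 hj).2
    obtain ⟨i, hi, k⟩ : ∃ i ∈ s, (s.filter fun j => rel j i).card ≤ r := by
      refine exists_le_of_sum_le (f := fun i => (s.filter fun j => rel j i).card) (g := fun _ => r)
        (card_pos.1 (by nlinarith)) ?_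
      rw [← show ∑ i ∈ s, (s.filter (rel i)).card = ∑ i ∈ s, (s.filter fun j => rel j i).card from
        sum_card_bipartiteAbove_eq_sum_card_bipartiteBelow rel]
      exact sum_le_sum h
    let s' := s \ (insert i (s.filter (rel i) ∪ s.filter fun j => rel j i))
    have c1 := le_card_sdiff (insert i (s.filter (rel i) ∪ s.filter fun j => rel j i)) s
    have c2 := card_insert_le i (s.filter (rel i) ∪ s.filter fun j => rel j i)
    have c3 := card_union_le (s.filter (rel i)) (s.filter fun j => rel j i)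
    have c4 := h i hi
    obtain ⟨t, t1, t2, t3⟩ := ih s' (fun j hj t ht =>
      h0 j (sdiff_subset hj) t (ht.trans sdiff_subset)) (by
        show _ ≤ (s \ _).card
        rw [Nat.succ_mul] at hs
        omega)
    have t4 : ∀ j ∈ t, j ∈ s ∧ j ≠ i ∧ ¬ rel i j ∧ ¬ rel j i := fun j hj => by
      have := t1 hj
      simp only [s', mem_sdiff, mem_insert, mem_union, mem_filter] at this
      tauto
    refine ⟨insert i t, insert_subset hi fun j hj => (t4 j hj).1,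
      by rw [card_insert_of_notMem fun m => (t4 i m).2.1 rfl, t2], fun p hp q hq m => ?_⟩
    rcases mem_insert.1 hp with rfl | hp' <;> rcases mem_insert.1 hq with rfl | hq'
    exacts [absurd rfl m, (t4 q hq').2.2.1, (t4 p hp').2.2.2, t3 p hp' q hq' m]

variable {V : Type} {G : SimpleGraph V} {ι : Type} {a b : V}

theorem entry {S T : Set V} {v w : V} (h : R G S v w) (hv : v ∉ T) (hw : w ∈ T) :
    ∃ u p, R G (S \ T) v u ∧ u ∉ T ∧ p ∈ T ∧ G.Adj u p := by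
  refine (h.ind (fun w => (R G (S \ T) v w ∧ w ∉ T) ∨
    ∃ u p, R G (S \ T) v u ∧ u ∉ T ∧ p ∈ T ∧ G.Adj u p) (Or.inl ⟨R.refl, hv⟩) ?_).resolve_left
    fun k => k.2 hw
  rintro p q hp hq e (⟨k, m⟩ | k)
  · by_cases n : q ∈ T
    exacts [Or.inr ⟨p, q, k, m, n, e⟩, Or.inl ⟨k.tail ⟨hp, m⟩ ⟨hq, n⟩ e, n⟩]
  · exact Or.inr k

theorem R.wk {S : Set V} {u v w : V} (h : R G S u v) (hv : v ∈ S) (hw : w ∈ S) (e : Wk G v w) :
    R G S u w := by
  rcases e with rfl | e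
  exacts [h, h.tail hv hw e]

/-- Disjoint connected sets joining `a` and `b`. -/
structure Fam (G : SimpleGraph V) (a b : V) (I : Finset ι) (P : ι → Set V) : Prop where
  ht : HT G
  ne : a ≠ b
  cn : ∀ i ∈ I, Cn G (P i)
  off : ∀ i ∈ I, a ∉ P i ∧ b ∉ P i
  ta : ∀ i ∈ I, ∃ x ∈ P i, G.Adj a x
  tb : ∀ i ∈ I, ∃ x ∈ P i, G.Adj b x
  dj : ∀ i ∈ I, ∀ j ∈ I, i ≠ j → ∀ v, v ∈ P i → v ∈ P j → False

variable {I J : Finset ι} {P : ι → Set V}

theorem Fam.reach (h : Fam G a b I P) (hJ : J ⊆ I) (d : V) (hd : ∀ j ∈ J, ∃ S : Set V, a ∉ S ∧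
    b ∉ S ∧ d ∈ S ∧ (∀ i ∈ J, i ≠ j → ∀ v ∈ S, v ∉ P i) ∧ ∃ w ∈ P j, R G S d w) : J.card ≤ 2 := by
  by_contra hc
  obtain ⟨i, j, k, hi, hj, hk, e1, e2, e3⟩ := two_lt_card_iff.1 (not_le.1 hc)
  let O : Set V := {u | u ≠ a ∧ u ≠ b ∧ ∀ j ∈ J, u ∉ P j}
  have dO : d ∈ O := by
    obtain ⟨S, s1, s2, s3, s4, -⟩ := hd i hi
    obtain ⟨S', -, -, s5, s6, -⟩ := hd j hj
    refine ⟨fun e => s1 (e ▸ s3), fun e => s2 (e ▸ s3), fun l hl => ?_⟩
    by_cases m : l = i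
    exacts [s6 l hl (m ▸ e1) d s5, s4 l hl m d s3]
  have cO : ∀ u, R G O d u → u ∈ O := fun u e => e.mem dO
  let f : Fin 3 → ι := ![i, j, k]
  have f1 : ∀ t, f t ∈ J := fun t => by fin_cases t <;> assumption
  have f2 : ∀ s t, s ≠ t → f s ≠ f t := fun s t m => by
    fin_cases s <;> fin_cases t <;> first | exact absurd rfl m | assumption | exact Ne.symm ‹_›
  have sg : ∀ v, Cn G {v} := by rintro v _ rfl _ rfl; exact R.refl
  refine h.ht.no_K33 ![{a}, {b}, {u | R G O d u}] (fun t => P (f t)) (fun t => ?_)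
    (fun t => h.cn _ (hJ (f1 t))) (fun s t m v h1 h2 => ?_)
    (fun s t m => h.dj _ (hJ (f1 s)) _ (hJ (f1 t)) (f2 s t m)) (fun s t v h1 h2 => ?_)
    fun s t => ?_
  · fin_cases t
    exacts [sg a, sg b, Cn.of_root d fun u e => R.restrict e fun _ k _ => k]
  · fin_cases s <;> fin_cases t
    exacts [m rfl, h.ne (h1.symm.trans h2), (cO v h2).1 h1, h.ne (h2.symm.trans h1), m rfl,
      (cO v h2).2.1 h1, (cO v h1).1 h2, (cO v h1).2.1 h2, m rfl]
  · have := h.off _ (hJ (f1 t))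
    fin_cases s
    exacts [this.1 (h1 ▸ h2), this.2 (h1 ▸ h2), (cO v h1).2.2 _ (f1 t) h2]
  · fin_cases s
    · obtain ⟨x, x1, x2⟩ := h.ta _ (hJ (f1 t)); exact ⟨a, rfl, x, x1, x2⟩
    · obtain ⟨x, x1, x2⟩ := h.tb _ (hJ (f1 t)); exact ⟨b, rfl, x, x1, x2⟩
    · obtain ⟨S, s1, s2, s3, s4, w, w1, w2⟩ := hd _ (f1 t)
      obtain ⟨u, p, u1, -, u3, u4⟩ := entry w2 (dO.2.2 _ (f1 t)) w1
      refine ⟨u, u1.mono (fun v hv => ⟨fun e => s1 (e ▸ hv.1), fun e => s2 (e ▸ hv.1),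
        fun l hl => ?_⟩) le_rfl, p, u3, u4⟩
      by_cases m : l = f t
      exacts [m ▸ hv.2, s4 l hl m v hv.1]

/-- Joined by a small connected set avoiding `a` and `b`. -/
def Nr (G : SimpleGraph V) (a b : V) (r : ℕ) (v w : V) : Prop :=
  ∃ S : Finset V, S.card ≤ r ∧ a ∉ S ∧ b ∉ S ∧ v ∈ S ∧ R G S v w

theorem Nr.symm {r : ℕ} {v w : V} (h : Nr G a b r v w) : Nr G a b r w v :=
  let ⟨S, s1, s2, s3, s4, s5⟩ := h; ⟨S, s1, s2, s3, s5.mem s4, s5.symm⟩

theorem Nr.trans {r s t : ℕ} {u v w : V} (h : Nr G a b r u v) (k : Nr G a b s v w)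
    (e : r + s ≤ t) : Nr G a b t u w := by
  classical
  obtain ⟨S, s1, s2, s3, s4, s5⟩ := h
  obtain ⟨T, t1, t2, t3, t4, t5⟩ := k
  refine ⟨S ∪ T, (card_union_le _ _).trans (by omega), by simp [s2, t2], by simp [s3, t3],
    mem_union_left _ s4, (s5.mono ?_ le_rfl).trans (t5.mono ?_ le_rfl)⟩ <;> simp

theorem Nr.four {v p q w : V} (h1 : Wk G v p) (h2 : Wk G p q) (h3 : Wk G q w)
    (hv : v ≠ a ∧ v ≠ b) (hp : p ≠ a ∧ p ≠ b) (hq : q ≠ a ∧ q ≠ b) (hw : w ≠ a ∧ w ≠ b) :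
    Nr G a b 4 v w := by
  classical
  refine ⟨{v, p, q, w}, card_le_four, by simp [hv.1.symm, hp.1.symm, hq.1.symm, hw.1.symm],
    by simp [hv.2.symm, hp.2.symm, hq.2.symm, hw.2.symm], by simp,
    R.wk (R.wk (R.wk R.refl ?_ ?_ h1) ?_ ?_ h2) ?_ ?_ h3⟩ <;> simp

theorem Fam.near (h : Fam G a b I P) (r : ℕ) (d : V) (hJ : J ⊆ I)
    (hn : ∀ j ∈ J, ∃ w ∈ P j, Nr G a b r d w) : J.card ≤ 3 * (2 * r + 1) := by
  by_contra hc
  haveI : Nonempty V := ⟨d⟩
  choose! w w1 S s1 s2 s3 s4 s5 using hn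
  obtain ⟨t, t1, t2, t3⟩ := free_set (fun i j => ∃ v ∈ S i, v ∈ P j) r 3 J (fun i hi t ht k => by
    refine le_trans ?_ (s1 i hi)
    choose! v v1 v2 using k
    refine card_le_card_of_injOn v v1 fun j hj k hk e => ?_
    by_contra m
    exact h.dj _ (hJ (ht hj)) _ (hJ (ht hk)) m _ (v2 j hj) (e ▸ v2 k hk)) (not_le.1 hc).le
  have := h.reach (t1.trans hJ) d fun j hj => ⟨S j, s2 j (t1 hj), s3 j (t1 hj), s4 j (t1 hj),
    fun i hi m v hv k => t3 j hj i hi m.symm ⟨v, hv, k⟩, w j, w1 j (t1 hj), s5 j (t1 hj)⟩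
  omega

/-- A small connected set containing `y`, touching `b` and avoiding `a` and `b`. -/
def Lk (G : SimpleGraph V) (a b : V) (l : ℕ) (y : V) (S : Finset V) : Prop :=
  S.card ≤ l ∧ a ∉ S ∧ b ∉ S ∧ y ∈ S ∧ (∀ s ∈ S, R G S y s) ∧ ∃ s ∈ S, G.Adj b s

theorem cut {S : Finset V} {y z : V} {l : ℕ} (h : R G S y z) (hy : y ∈ S) (e : y ≠ z)
    (ha : a ∉ S) (hl : S.card ≤ l + 1) : ∃ T, Lk G a z l y T := by
  classical
  obtain ⟨u, p, u1, -, rfl, u4⟩ := entry (T := {z}) h e rfl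
  have m : ∀ s, R G ((S : Set V) \ {p}) y s → s ∈ (S.erase p).filter (R G ((S : Set V) \ {p}) y) :=
    fun s k => mem_filter.2 ⟨mem_erase.2 (k.mem ⟨hy, e⟩).symm, k⟩
  refine ⟨(S.erase p).filter (R G ((S : Set V) \ {p}) y), (card_filter_le _ _).trans ?_,
    fun k => ha (mem_erase.1 (mem_filter.1 k).1).2, by simp, m y R.refl,
    fun s hs => (mem_filter.1 hs).2.restrict fun q k _ => m q k, u, m u u1, u4.symm⟩
  rw [card_erase_of_mem (h.mem hy)]
  omega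

theorem sun (n l : ℕ) : ∃ M, ∀ {V : Type} (G : SimpleGraph V) (a b : V) (Y : Finset V), a ≠ b →
    M ≤ Y.card → (∀ y ∈ Y, ∃ S, Lk G a b l y S) → ∃ c, a ≠ c ∧ ∃ Z ⊆ Y, Z.card = n ∧
      ∃ S : V → Finset V, (∀ y ∈ Z, Lk G a c l y (S y)) ∧
        ∀ i ∈ Z, ∀ j ∈ Z, i ≠ j → ∀ v, v ∈ S i → v ∈ S j → False := by
  classical
  induction l with
  | zero =>
    refine ⟨1, fun G a b Y _ hY h => ?_⟩
    obtain ⟨y, hy⟩ := card_pos.1 hY
    obtain ⟨S, s1, -, -, s4, -⟩ := h y hy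
    have := card_pos.2 ⟨y, s4⟩
    omega
  | succ l ih =>
    obtain ⟨M, hM⟩ := ih
    refine ⟨n * (2 * ((l + 1) * M) + 1), fun {V} G a b Y ab hY h => ?_⟩
    choose! S hS using h
    by_cases m : ∃ z, M + 1 ≤ (Y.filter fun y => z ∈ S y).card
    · obtain ⟨z, hz⟩ := m
      have hy : ∀ y ∈ (Y.filter fun y => z ∈ S y).erase z, y ≠ z ∧ y ∈ Y ∧ z ∈ S y := by simp
      obtain ⟨y, y1⟩ := card_pos.1 (show 0 < (Y.filter fun y => z ∈ S y).card by omega)
      obtain ⟨c, c1, Z, z1, z2, T, t1, t2⟩ := hM G a z ((Y.filter fun y => z ∈ S y).erase z)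
        (fun e => (hS y (mem_filter.1 y1).1).2.1 (e ▸ (mem_filter.1 y1).2))
        (by have := pred_card_le_card_erase (s := Y.filter fun y => z ∈ S y) (a := z); omega)
        fun y hy' =>
          let ⟨y1, y2, y3⟩ := hy y hy'
          let ⟨s1, s2, _, s4, s5, _⟩ := hS y y2
          cut (s5 z y3) s4 y1 s2 s1
      exact ⟨c, c1, Z, fun y k => (hy y (z1 k)).2.1, z2, T,
        fun y k => ⟨(t1 y k).1.trans (by omega), (t1 y k).2⟩, t2⟩
    · push Not at m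
      obtain ⟨Z, z1, z2, z3⟩ := free_set (fun i j => ∃ v ∈ S i, v ∈ S j) ((l + 1) * M) n Y
        (fun i hi t ht k => by
          refine (card_le_card (t := (S i).biUnion fun v => Y.filter fun y => v ∈ S y)
            fun j hj => ?_).trans ((card_biUnion_le_card_mul _ _ M fun v _ =>
              Nat.lt_succ_iff.1 (m v)).trans (Nat.mul_le_mul_right _ (hS i hi).1))
          obtain ⟨v, v1, v2⟩ := k j hj
          exact mem_biUnion.2 ⟨v, v1, mem_filter.2 ⟨ht hj, v2⟩⟩) hY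
      exact ⟨b, ab, Z, z1, z2, S, fun y k => hS y (z1 k),
        fun i hi j hj e v v1 v2 => z3 i hi j hj e ⟨v, v1, v2⟩⟩

theorem high_degree [Fintype V] (h : D3 G) {M : ℕ} (hM : (M + 1) ^ 3 < Fintype.card V) :
    ∃ (a : V) (Y : Finset V), M ≤ Y.card ∧ ∀ y ∈ Y, G.Adj a y := by
  classical
  by_contra hc
  let N : V → Finset V := fun v => univ.filter (Wk G v)
  have hN : ∀ v, (N v).card ≤ M + 1 := by
    intro v
    have : (univ.filter (G.Adj v)).card < M :=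
      not_le.1 fun k => hc ⟨v, _, k, fun y m => (mem_filter.1 m).2⟩
    refine (card_le_card (t := insert v (univ.filter (G.Adj v))) fun w m => ?_).trans
      ((card_insert_le _ _).trans (by omega))
    rcases (mem_filter.1 m).2 with rfl | e <;> simp [*]
  obtain ⟨v⟩ := Fintype.card_pos_iff.1 (show 0 < Fintype.card V by omega)
  have c1 := card_biUnion_le_card_mul (N v) N _ fun w _ => hN w
  have c2 := card_biUnion_le_card_mul ((N v).biUnion N) N _ fun w _ => hN w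
  have c3 : Fintype.card V ≤ (((N v).biUnion N).biUnion N).card := card_le_card fun w _ => by
    obtain ⟨x, y, k⟩ := h v w
    simp only [N, mem_biUnion, mem_filter, mem_univ, true_and]
    exact ⟨y, ⟨x, k.1, k.2.1⟩, k.2.2⟩
  have := hN v
  have c4 : (N v).card * (M + 1) * (M + 1) ≤ (M + 1) ^ 3 := by
    rw [pow_succ, pow_two]; gcongr
  have := Nat.mul_le_mul_right (M + 1) c1
  omega

end Pool.Agent.Lib.MP_ad48ef_co
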