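import Pool.Agent.Lib.MP_ad48ef_co.DskSound
import Pool.Agent.Lib.MP_ad48ef_co.NMx0
import Pool.Agent.Lib.MP_ad48ef_co.NMx1
import Pool.Agent.Lib.MP_ad48ef_co.NMx2
import Pool.Agent.Lib.MP_ad48ef_co.NMx3
import Pool.Agent.Lib.MP_ad48ef_co.NMx4
import Pool.Agent.Lib.MP_ad48ef_co.NMx5
import Pool.Agent.Lib.MP_ad48ef_co.NMx6
import Pool.Agent.Lib.MP_ad48ef_co.NMx7
import Pool.Agent.Lib.MP_ad48ef_co.NMx8
import Pool.Agent.Lib.MP_ad48ef_co.NMx9
import Pool.Agent.Lib.MP_ad48ef_co.NMx10
import Pool.Agent.Lib.MP_ad48ef_co.NMx11
import Pool.Agent.Lib.MP_ad48ef_co.NMx12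
import Pool.Agent.Lib.MP_ad48ef_co.NMx13
import Pool.Agent.Lib.MP_ad48ef_co.NMx14
import Pool.Agent.Lib.MP_ad48ef_co.NMx15

namespace Pool.Agent.Lib.MP_ad48ef_co.NM
open Rup Dsk

theorem hA : TA A := by decide +kernel
theorem h0 : Rng A (get tr) 2051 0 := Rng.zero
theorem h1 : Rng A (get tr) 2051 742 := h0.add hA c0 (by decide +kernel)
theorem h2 : Rng A (get tr) 2051 1173 := h1.add hA c1 (by decide +kernel)
theorem h3 : Rng A (get tr) 2051 1488 := h2.add hA c2 (by decide +kernel)
theorem h4 : Rng A (get tr) 2051 1849 := h3.add hA c3 (by decide +kernel)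
theorem h5 : Rng A (get tr) 2051 2135 := h4.add hA c4 (by decide +kernel)
theorem h6 : Rng A (get tr) 2051 2370 := h5.add hA c5 (by decide +kernel)
theorem h7 : Rng A (get tr) 2051 2608 := h6.add hA c6 (by decide +kernel)
theorem h8 : Rng A (get tr) 2051 2846 := h7.add hA c7 (by decide +kernel)
theorem h9 : Rng A (get tr) 2051 3048 := h8.add hA c8 (by decide +kernel)
theorem h10 : Rng A (get tr) 2051 3274 := h9.add hA c9 (by decide +kernel)
theorem h11 : Rng A (get tr) 2051 3477 := h10.add hA c10 (by decide +kernel)
theorem h12 : Rng A (get tr) 2051 3708 := h11.add hA c11 (by decide +kernel)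
theorem h13 : Rng A (get tr) 2051 3890 := h12.add hA c12 (by decide +kernel)
theorem h14 : Rng A (get tr) 2051 4056 := h13.add hA c13 (by decide +kernel)
theorem h15 : Rng A (get tr) 2051 4259 := h14.add hA c14 (by decide +kernel)
theorem h16 : Rng A (get tr) 2051 4431 := h15.add hA c15 (by decide +kernel)
theorem h17 : Rng A (get tr) 2051 4611 := h16.add hA c16 (by decide +kernel)
theorem h18 : Rng A (get tr) 2051 4766 := h17.add hA c17 (by decide +kernel)
theorem h19 : Rng A (get tr) 2051 4911 := h18.add hA c18 (by decide +kernel)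
theorem h20 : Rng A (get tr) 2051 5063 := h19.add hA c19 (by decide +kernel)
theorem h21 : Rng A (get tr) 2051 5200 := h20.add hA c20 (by decide +kernel)
theorem h22 : Rng A (get tr) 2051 5339 := h21.add hA c21 (by decide +kernel)
theorem h23 : Rng A (get tr) 2051 5475 := h22.add hA c22 (by decide +kernel)
theorem h24 : Rng A (get tr) 2051 5610 := h23.add hA c23 (by decide +kernel)
theorem h25 : Rng A (get tr) 2051 5751 := h24.add hA c24 (by decide +kernel)
theorem h26 : Rng A (get tr) 2051 5883 := h25.add hA c25 (by decide +kernel)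
theorem h27 : Rng A (get tr) 2051 6006 := h26.add hA c26 (by decide +kernel)
theorem h28 : Rng A (get tr) 2051 6152 := h27.add hA c27 (by decide +kernel)
theorem h29 : Rng A (get tr) 2051 6278 := h28.add hA c28 (by decide +kernel)
theorem h30 : Rng A (get tr) 2051 6388 := h29.add hA c29 (by decide +kernel)
theorem h31 : Rng A (get tr) 2051 6514 := h30.add hA c30 (by decide +kernel)
theorem h32 : Rng A (get tr) 2051 6615 := h31.add hA c31 (by decide +kernel)
theorem h33 : Rng A (get tr) 2051 6724 := h32.add hA c32 (by decide +kernel)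
theorem h34 : Rng A (get tr) 2051 6841 := h33.add hA c33 (by decide +kernel)
theorem h35 : Rng A (get tr) 2051 6951 := h34.add hA c34 (by decide +kernel)
theorem h36 : Rng A (get tr) 2051 7045 := h35.add hA c35 (by decide +kernel)
theorem h37 : Rng A (get tr) 2051 7151 := h36.add hA c36 (by decide +kernel)
theorem h38 : Rng A (get tr) 2051 7245 := h37.add hA c37 (by decide +kernel)
theorem h39 : Rng A (get tr) 2051 7342 := h38.add hA c38 (by decide +kernel)
theorem h40 : Rng A (get tr) 2051 7439 := h39.add hA c39 (by decide +kernel)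
theorem h41 : Rng A (get tr) 2051 7540 := h40.add hA c40 (by decide +kernel)
theorem h42 : Rng A (get tr) 2051 7637 := h41.add hA c41 (by decide +kernel)
theorem h43 : Rng A (get tr) 2051 7730 := h42.add hA c42 (by decide +kernel)
theorem h44 : Rng A (get tr) 2051 7819 := h43.add hA c43 (by decide +kernel)
theorem h45 : Rng A (get tr) 2051 7915 := h44.add hA c44 (by decide +kernel)
theorem h46 : Rng A (get tr) 2051 8009 := h45.add hA c45 (by decide +kernel)
theorem h47 : Rng A (get tr) 2051 8108 := h46.add hA c46 (by decide +kernel)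
theorem h48 : Rng A (get tr) 2051 8206 := h47.add hA c47 (by decide +kernel)
theorem h49 : Rng A (get tr) 2051 8286 := h48.add hA c48 (by decide +kernel)
theorem h50 : Rng A (get tr) 2051 8368 := h49.add hA c49 (by decide +kernel)
theorem h51 : Rng A (get tr) 2051 8451 := h50.add hA c50 (by decide +kernel)
theorem h52 : Rng A (get tr) 2051 8528 := h51.add hA c51 (by decide +kernel)
theorem h53 : Rng A (get tr) 2051 8591 := h52.add hA c52 (by decide +kernel)
theorem h54 : Rng A (get tr) 2051 8658 := h53.add hA c53 (by decide +kernel)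
theorem h55 : Rng A (get tr) 2051 8723 := h54.add hA c54 (by decide +kernel)
theorem h56 : Rng A (get tr) 2051 8794 := h55.add hA c55 (by decide +kernel)
theorem h57 : Rng A (get tr) 2051 8865 := h56.add hA c56 (by decide +kernel)
theorem h58 : Rng A (get tr) 2051 8937 := h57.add hA c57 (by decide +kernel)
theorem h59 : Rng A (get tr) 2051 8995 := h58.add hA c58 (by decide +kernel)
theorem h60 : Rng A (get tr) 2051 9058 := h59.add hA c59 (by decide +kernel)
theorem h61 : Rng A (get tr) 2051 9115 := h60.add hA c60 (by decide +kernel)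
theorem h62 : Rng A (get tr) 2051 9175 := h61.add hA c61 (by decide +kernel)
theorem h63 : Rng A (get tr) 2051 9239 := h62.add hA c62 (by decide +kernel)
theorem h64 : Rng A (get tr) 2051 9296 := h63.add hA c63 (by decide +kernel)
theorem h65 : Rng A (get tr) 2051 9353 := h64.add hA c64 (by decide +kernel)
theorem h66 : Rng A (get tr) 2051 9413 := h65.add hA c65 (by decide +kernel)
theorem h67 : Rng A (get tr) 2051 9466 := h66.add hA c66 (by decide +kernel)
theorem h68 : Rng A (get tr) 2051 9523 := h67.add hA c67 (by decide +kernel)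
theorem h69 : Rng A (get tr) 2051 9572 := h68.add hA c68 (by decide +kernel)
theorem h70 : Rng A (get tr) 2051 9626 := h69.add hA c69 (by decide +kernel)
theorem h71 : Rng A (get tr) 2051 9679 := h70.add hA c70 (by decide +kernel)
theorem h72 : Rng A (get tr) 2051 9732 := h71.add hA c71 (by decide +kernel)
theorem h73 : Rng A (get tr) 2051 9778 := h72.add hA c72 (by decide +kernel)
theorem h74 : Rng A (get tr) 2051 9828 := h73.add hA c73 (by decide +kernel)
theorem h75 : Rng A (get tr) 2051 9878 := h74.add hA c74 (by decide +kernel)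
theorem h76 : Rng A (get tr) 2051 9928 := h75.add hA c75 (by decide +kernel)
theorem h77 : Rng A (get tr) 2051 9971 := h76.add hA c76 (by decide +kernel)
theorem h78 : Rng A (get tr) 2051 10018 := h77.add hA c77 (by decide +kernel)
theorem h79 : Rng A (get tr) 2051 10063 := h78.add hA c78 (by decide +kernel)
theorem h80 : Rng A (get tr) 2051 10103 := h79.add hA c79 (by decide +kernel)
theorem h81 : Rng A (get tr) 2051 10142 := h80.add hA c80 (by decide +kernel)
theorem h82 : Rng A (get tr) 2051 10186 := h81.add hA c81 (by decide +kernel)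
theorem h83 : Rng A (get tr) 2051 10233 := h82.add hA c82 (by decide +kernel)
theorem h84 : Rng A (get tr) 2051 10269 := h83.add hA c83 (by decide +kernel)
theorem h85 : Rng A (get tr) 2051 10312 := h84.add hA c84 (by decide +kernel)
theorem h86 : Rng A (get tr) 2051 10354 := h85.add hA c85 (by decide +kernel)
theorem h87 : Rng A (get tr) 2051 10395 := h86.add hA c86 (by decide +kernel)
theorem h88 : Rng A (get tr) 2051 10439 := h87.add hA c87 (by decide +kernel)
theorem h89 : Rng A (get tr) 2051 10479 := h88.add hA c88 (by decide +kernel)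
theorem h90 : Rng A (get tr) 2051 10517 := h89.add hA c89 (by decide +kernel)
theorem h91 : Rng A (get tr) 2051 10555 := h90.add hA c90 (by decide +kernel)
theorem h92 : Rng A (get tr) 2051 10594 := h91.add hA c91 (by decide +kernel)
theorem h93 : Rng A (get tr) 2051 10632 := h92.add hA c92 (by decide +kernel)
theorem h94 : Rng A (get tr) 2051 10669 := h93.add hA c93 (by decide +kernel)
theorem h95 : Rng A (get tr) 2051 10710 := h94.add hA c94 (by decide +kernel)
theorem h96 : Rng A (get tr) 2051 10758 := h95.add hA c95 (by decide +kernel)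
theorem h97 : Rng A (get tr) 2051 10794 := h96.add hA c96 (by decide +kernel)
theorem h98 : Rng A (get tr) 2051 10834 := h97.add hA c97 (by decide +kernel)
theorem h99 : Rng A (get tr) 2051 10875 := h98.add hA c98 (by decide +kernel)
theorem h100 : Rng A (get tr) 2051 10917 := h99.add hA c99 (by decide +kernel)
theorem h101 : Rng A (get tr) 2051 10961 := h100.add hA c100 (by decide +kernel)
theorem h102 : Rng A (get tr) 2051 11002 := h101.add hA c101 (by decide +kernel)
theorem h103 : Rng A (get tr) 2051 11042 := h102.add hA c102 (by decide +kernel)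
theorem h104 : Rng A (get tr) 2051 11082 := h103.add hA c103 (by decide +kernel)
theorem h105 : Rng A (get tr) 2051 11123 := h104.add hA c104 (by decide +kernel)
theorem h106 : Rng A (get tr) 2051 11161 := h105.add hA c105 (by decide +kernel)
theorem h107 : Rng A (get tr) 2051 11206 := h106.add hA c106 (by decide +kernel)
theorem h108 : Rng A (get tr) 2051 11247 := h107.add hA c107 (by decide +kernel)
theorem h109 : Rng A (get tr) 2051 11283 := h108.add hA c108 (by decide +kernel)
theorem h110 : Rng A (get tr) 2051 11320 := h109.add hA c109 (by decide +kernel)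
theorem h111 : Rng A (get tr) 2051 11366 := h110.add hA c110 (by decide +kernel)
theorem h112 : Rng A (get tr) 2051 11404 := h111.add hA c111 (by decide +kernel)
theorem h113 : Rng A (get tr) 2051 11443 := h112.add hA c112 (by decide +kernel)
theorem h114 : Rng A (get tr) 2051 11479 := h113.add hA c113 (by decide +kernel)
theorem h115 : Rng A (get tr) 2051 11513 := h114.add hA c114 (by decide +kernel)
theorem h116 : Rng A (get tr) 2051 11553 := h115.add hA c115 (by decide +kernel)
theorem h117 : Rng A (get tr) 2051 11593 := h116.add hA c116 (by decide +kernel)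
theorem h118 : Rng A (get tr) 2051 11631 := h117.add hA c117 (by decide +kernel)
theorem h119 : Rng A (get tr) 2051 11668 := h118.add hA c118 (by decide +kernel)
theorem h120 : Rng A (get tr) 2051 11703 := h119.add hA c119 (by decide +kernel)
theorem h121 : Rng A (get tr) 2051 11736 := h120.add hA c120 (by decide +kernel)
theorem h122 : Rng A (get tr) 2051 11773 := h121.add hA c121 (by decide +kernel)
theorem h123 : Rng A (get tr) 2051 11805 := h122.add hA c122 (by decide +kernel)
theorem h124 : Rng A (get tr) 2051 11839 := h123.add hA c123 (by decide +kernel)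
theorem h125 : Rng A (get tr) 2051 11874 := h124.add hA c124 (by decide +kernel)
theorem h126 : Rng A (get tr) 2051 11906 := h125.add hA c125 (by decide +kernel)
theorem h127 : Rng A (get tr) 2051 11935 := h126.add hA c126 (by decide +kernel)
theorem h128 : Rng A (get tr) 2051 11967 := h127.add hA c127 (by decide +kernel)
theorem h129 : Rng A (get tr) 2051 11996 := h128.add hA c128 (by decide +kernel)
theorem h130 : Rng A (get tr) 2051 12028 := h129.add hA c129 (by decide +kernel)
theorem h131 : Rng A (get tr) 2051 12060 := h130.add hA c130 (by decide +kernel)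
theorem h132 : Rng A (get tr) 2051 12092 := h131.add hA c131 (by decide +kernel)
theorem h133 : Rng A (get tr) 2051 12118 := h132.add hA c132 (by decide +kernel)
theorem h134 : Rng A (get tr) 2051 12142 := h133.add hA c133 (by decide +kernel)
theorem h135 : Rng A (get tr) 2051 12170 := h134.add hA c134 (by decide +kernel)
theorem h136 : Rng A (get tr) 2051 12200 := h135.add hA c135 (by decide +kernel)
theorem h137 : Rng A (get tr) 2051 12226 := h136.add hA c136 (by decide +kernel)
theorem h138 : Rng A (get tr) 2051 12252 := h137.add hA c137 (by decide +kernel)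
theorem h139 : Rng A (get tr) 2051 12280 := h138.add hA c138 (by decide +kernel)
theorem h140 : Rng A (get tr) 2051 12303 := h139.add hA c139 (by decide +kernel)
theorem h141 : Rng A (get tr) 2051 12325 := h140.add hA c140 (by decide +kernel)
theorem h142 : Rng A (get tr) 2051 12355 := h141.add hA c141 (by decide +kernel)
theorem h143 : Rng A (get tr) 2051 12380 := h142.add hA c142 (by decide +kernel)
theorem h144 : Rng A (get tr) 2051 12409 := h143.add hA c143 (by decide +kernel)
theorem h145 : Rng A (get tr) 2051 12421 := h144.add hA c144 (by decide +kernel)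
theorem h146 : Rng A (get tr) 2051 12455 := h145.add hA c145 (by decide +kernel)
theorem h147 : Rng A (get tr) 2051 12486 := h146.add hA c146 (by decide +kernel)
theorem h148 : Rng A (get tr) 2051 12512 := h147.add hA c147 (by decide +kernel)
theorem h149 : Rng A (get tr) 2051 12536 := h148.add hA c148 (by decide +kernel)
theorem h150 : Rng A (get tr) 2051 12557 := h149.add hA c149 (by decide +kernel)
theorem h151 : Rng A (get tr) 2051 12600 := h150.add hA c150 (by decide +kernel)
theorem h152 : Rng A (get tr) 2051 12635 := h151.add hA c151 (by decide +kernel)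
theorem h153 : Rng A (get tr) 2051 12653 := h152.add hA c152 (by decide +kernel)
theorem h154 : Rng A (get tr) 2051 12690 := h153.add hA c153 (by decide +kernel)
theorem h155 : Rng A (get tr) 2051 12713 := h154.add hA c154 (by decide +kernel)
theorem h156 : Rng A (get tr) 2051 12738 := h155.add hA c155 (by decide +kernel)
theorem h157 : Rng A (get tr) 2051 12768 := h156.add hA c156 (by decide +kernel)
theorem h158 : Rng A (get tr) 2051 12780 := h157.add hA c157 (by decide +kernel)
theorem uns (i : ℕ) : Unsat (lem i) := h158.uns (Nat.mod_lt _ (by decide))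

end Pool.Agent.Lib.MP_ad48ef_co.NM
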