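import Pool.Agent.Lib.MP_ad48ef_co.Bits

/-!
# The clause test of the top level refutations

A literal is `2 * v` (positive) or `2 * v + 1` (negative) for a variable code `v`.  The literal `0`
is false and the literal `1` is true in every intended valuation.
-/

namespace Pool.Agent.Lib.MP_ad48ef_co.Gl

noncomputable section

def bn (a b : Bool) : Bool := Bool.rec false b a
def bo (a b : Bool) : Bool := Bool.rec b true a
def cb (a b c : Bool) : Bool := Bool.rec c b a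
def cn (a : Bool) (b c : ℕ) : ℕ := Bool.rec c b a
def im (a b : Bool) : Bool := Bool.rec true b a
def lt (a b : ℕ) : Bool := Bool.rec true false (Nat.ble b a)
def ne (a b : ℕ) : Bool := Bool.rec true false (Nat.beq a b)
def al (n : ℕ) (f : ℕ → Bool) : Bool := Nat.rec true (fun i r => Bool.rec false r (f i)) n
def an (n : ℕ) (f : ℕ → Bool) : Bool := Nat.rec false (fun i r => Bool.rec r true (f i)) n
def a10 (f : ℕ → Bool) : Bool := Bool.rec false (Bool.rec false (Bool.rec false (Bool.rec false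
  (Bool.rec false (Bool.rec false (Bool.rec false (Bool.rec false (Bool.rec false (f 9) (f 8))
  (f 7)) (f 6)) (f 5)) (f 4)) (f 3)) (f 2)) (f 1)) (f 0)
def cnt (n : ℕ) (f : ℕ → Bool) : ℕ := Nat.rec 0 (fun i r => Bool.rec r (Nat.succ r) (f i)) n
def sm (n A : ℕ) (f : ℕ → ℕ) : ℕ := Nat.rec 0 (fun i r => Bool.rec r (Nat.add r (f i))
  (Nat.beq (Nat.land (Nat.shiftRight A i) 1) 1)) n
def fld (x i m : ℕ) : ℕ := Nat.land (Nat.shiftRight x i) m
def bt (x i : ℕ) : Bool := Nat.beq (Nat.land (Nat.shiftRight x i) 1) 1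
def mem (c : List ℕ) (x : ℕ) : Bool :=
  List.rec false (fun a _ r => Bool.rec r true (Nat.beq a x)) c
def has (c : List ℕ) (p : ℕ) : Bool := bo (Nat.beq p 0) (mem c p)
def nx (c : List ℕ) (k : ℕ → List ℕ → Bool) : Bool := List.rec false (fun a t _ => k a t) c
def ix (u t : ℕ) : ℕ := Nat.add (Nat.mul u 16) t
def PC : ℕ := 0xa998988798878776988787768776766598878776877676658776766576656554988787768776766587767665766565548776766576656554766565546554544398878776877676658776766576656554877676657665655476656554655454438776766576656554766565546554544376656554655454436554544354434332988787768776766587767665766565548776766576656554766565546554544387767665766565547665655465545443766565546554544365545443544343328776766576656554766565546554544376656554655454436554544354434332766565546554544365545443544343326554544354434332544343324332322198878776877676658776766576656554877676657665655476656554655454438776766576656554766565546554544376656554655454436554544354434332877676657665655476656554655454437665655465545443655454435443433276656554655454436554544354434332655454435443433254434332433232218776766576656554766565546554544376656554655454436554544354434332766565546554544365545443544343326554544354434332544343324332322176656554655454436554544354434332655454435443433254434332433232216554544354434332544343324332322154434332433232214332322132212110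
def pc (A : ℕ) : ℕ := Nat.land (Nat.shiftRight PC (Nat.mul A 4)) 15

/-- A tripod shape: number of tree vertices, level of vertex zero, degree bounds, the tables
position to vertex and vertex to position, static facts, the table of vertex masks, the level one
ancestors of level three vertices and the order table.  The value `d = 0` selects the sink mode,
in which `lo` holds two levels and the weights. -/
structure Shp where
  n : ℕ
  p : ℕ
  d : ℕ
  lo : ℕ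
  lc : ℕ
  ps : ℕ
  sa : ℕ
  sn : ℕ
  s2 : ℕ
  sf : ℕ
  tb : ℕ
  z : ℕ
  od : ℕ

namespace Shp

variable (s : Shp)

def loc (R i : ℕ) : ℕ := Nat.land (Nat.shiftRight s.lc (Nat.add (Nat.mul R 32) (Nat.mul i 4))) 15
def pos (R t : ℕ) : ℕ := Nat.land (Nat.shiftRight s.ps (Nat.add (Nat.mul R 64) (Nat.mul t 4))) 15
def a (u t : ℕ) : Bool := bt s.sa (ix u t)
def na (u t : ℕ) : Bool := bt s.sn (ix u t)
def d2 (u t : ℕ) : Bool := bt s.s2 (ix u t)
def f (u t : ℕ) : Bool := bt s.sf (ix u t)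
def tm (R S : ℕ) : ℕ :=
  Nat.land (Nat.shiftRight s.tb (Nat.add (Nat.mul R 2048) (Nat.mul S 16))) 1023
def re (R i : ℕ) : Bool := bn (Nat.ble i 6) (lt (s.loc R i) s.n)
def du (R i : ℕ) : Bool := Nat.ble s.n (s.loc R i)
def st : ℕ := Nat.lor s.sn (Nat.lor (Nat.shiftLeft s.sa 256) (Nat.shiftLeft s.sf 512))
def full : ℕ := Nat.sub (Nat.shiftLeft 1 s.n) 1
def o (u t : ℕ) : ℕ := Nat.land (Nat.shiftRight s.od (Nat.mul (ix u t) 8)) 255
def zz : ℕ := cn (ne (fld s.lo 3 7) 5) (Nat.lor s.z 1) s.z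
def h3 : Bool := bt s.lo 6
def wh : ℕ := fld s.lo 8 15
def jh : ℕ := fld s.lo 12 255
def w (R i : ℕ) : ℕ := fld s.lo (Nat.add (Nat.add (Nat.mul R 32) (Nat.mul i 4)) 20) 15

end Shp

def rl (R t a b k : ℕ) : ℕ :=
  Nat.add (Nat.add (Nat.add (Nat.add (Nat.mul R 2097152) (Nat.mul k 524288)) (Nat.mul b 4096))
    (Nat.mul a 32)) t
def tv (k a b c : ℕ) : ℕ :=
  Nat.add (Nat.add (Nat.add (Nat.add 6291456 (Nat.mul c 8192)) (Nat.mul b 512)) (Nat.mul a 32)) k
def tp (k u t : ℕ) : ℕ := cn (Nat.ble u t) (tv k u t 0) (tv k t u 0)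
def isR (l m : ℕ) : Bool := Bool.rec false (Nat.ble l 6291455) (Nat.beq (Nat.land l 31) m)
def isT (l m : ℕ) : Bool := Bool.rec false (Nat.ble 6291456 l) (Nat.beq (Nat.land l 31) m)
def fR (l : ℕ) : ℕ := Nat.shiftRight l 21
def fA (l : ℕ) : ℕ := Nat.land (Nat.shiftRight l 5) 127
def fB (l : ℕ) : ℕ := Nat.land (Nat.shiftRight l 12) 127
def fK (l : ℕ) : ℕ := Nat.land (Nat.shiftRight l 19) 3
def g1 (l : ℕ) : ℕ := Nat.land (Nat.shiftRight l 5) 15
def g2 (l : ℕ) : ℕ := Nat.land (Nat.shiftRight l 9) 15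
def g3 (l : ℕ) : ℕ := Nat.land (Nat.shiftRight l 13) 63
def gm (l : ℕ) : ℕ := Nat.land (Nat.shiftRight l 9) 1023

def REV : ℕ := 0xfefef9fdebe78feedeb97ce9e387f6eed9bd6ae58be6ce993c68e183faf6e9ddab668dead6a95ca96285f2e6c99d2a6489e2c6891c286081fcfaf1edcba70eecdab16cc9a306f4ead1ad4aa50ae4ca912c48a102f8f2e1cd8b260ce8d2a14c892204f0e2c18d0a2408e0c2810c082000
def rev (S : ℕ) : ℕ := Nat.land (Nat.shiftRight REV (Nat.mul S 7)) 127
def rfa (t a b : ℕ) : ℕ :=
  cn (bt 53344 t) (rev a) (cn (bt 8223 t) (Nat.sub 6 b) (cn (bt 1408 t) (Nat.sub 6 a) a))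
def rfb (t a b : ℕ) : ℕ := cn (bt 20704 t) (rev b) (cn (bt 8223 t) (Nat.sub 6 a) b)

variable (s : Shp) (c : List ℕ)

def adjP (u t : ℕ) : ℕ := cn (s.a u t) 1 (cn (s.na u t) 0 (tp 0 u t))
def d2P (u t : ℕ) : ℕ := cn (s.d2 u t) 1 (cn (s.f u t) 0 (tp 4 u t))
def andP (p q z : ℕ) : ℕ :=
  cn (bo (Nat.beq p 0) (Nat.beq q 0)) 0 (cn (Nat.beq p 1) q (cn (Nat.beq q 1) p z))
def LP (u y t : ℕ) : ℕ :=
  andP (adjP s u y) (adjP s y t) (cn (Nat.ble u t) (tv 6 u y t) (tv 6 t y u))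
def QP (u y t : ℕ) : ℕ := andP (d2P s u y) (adjP s y t) (tv 8 u y t)
def cat (R m i j : ℕ) : Bool := bo (Nat.ble 7 i) (bo (Nat.ble 7 j)
  (mem c (cn (Nat.ble i j) (rl R m i j 0) (rl R m j i 0))))
def cats (m u t z : ℕ) : Bool :=
  al 3 fun R => bo (Nat.beq R z) (cat c R m (s.pos R u) (s.pos R t))

def mono (l l' : ℕ) : Bool := bn (Nat.beq (fR l) (fR l'))
  (cb (isR l 13) (bn (isR l' 12) (bn (sub (fA l') (fA l))
    (bn (sub (fB l) (fB l')) (Nat.ble (fK l') (fK l)))))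
  (cb (isR l 11) (bn (isR l' 10) (bn (sub (fA l) (fA l')) (sub (fB l) (fB l'))))
  (cb (isR l 25) (bn (sub (fA l') (fA l)) (bo (bn (isR l' 24) (sub (fB l') (fB l)))
    (bn (isR l' 12) (bn (Nat.beq (fB l') 0) (Nat.beq (fK l') 0)))))
  (cb (isR l 29) (bn (isR l' 28) (bn (sub (fA l) (fA l'))
    (bn (sub (fB l) (fB l')) (Nat.ble (fK l') (fK l)))))
  (cb (isR l 15) (bn (isR l' 14) (bn (Nat.beq (fA l) (fA l')) (sub (fB l) (fB l'))))
  (cb (isR l 17) (bn (isR l' 16) (bn (Nat.beq (fA l) (fA l')) (Nat.ble (fK l) (fK l'))))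
  (cb (isR l 21) (bn (isR l' 20) (bn (Nat.beq (fA l) (fA l')) (Nat.ble (fK l') (fK l))))
  (cb (isR l 31) (bn (isR l' 30) (bn (sub (fA l) (fA l')) (Nat.beq (fK l) (fK l'))))
  (bn (isR l 23) (bn (isR l' 22) (Nat.ble (fA l') (fA l))))))))))))

def cp (l l' : ℕ) : Bool :=
  bo (bn (Nat.ble (Nat.land l 31) 1) (Nat.beq l' (Nat.add l 2))) (cb (Nat.ble l 6291455)
    (bo (bn (bt 3072 (Nat.land l 31)) (bo (Nat.beq l' (Nat.add l 14))
      (bn (Nat.beq l' (Nat.add l 2)) (bn (Nat.beq (fB l) 0) (Nat.beq (fK l) 0)))))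
    (bo (bn (bt 192 (Nat.land l 31)) (Nat.beq l' (Nat.add l 20)))
    (bo (bn (bt 196608 (Nat.land l 31)) (bn (Nat.beq l' (Nat.add l 524292)) (Nat.ble (fK l) 2)))
      (bn (isR l 31) (bn (isR l' 13) (bn (Nat.beq (fR l) (fR l')) (bn (sub (fA l) (fA l'))
        (bn (Nat.beq (fB l') 0) (Nat.ble (fK l) (fK l'))))))))))
    (bn (bt 48 (Nat.land l 31)) (Nat.beq l' (Nat.add l 10))))

def unit (l R a b : ℕ) : Bool :=
  bo (bn (bo (isR l 2) (isR l 4)) (bn (Nat.ble (Nat.add a 2) b)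
    (bn (Nat.ble b 6) (bo (s.du R a) (s.du R b)))))
  (bo (bn (isR l 4) (bn (s.re R a) (bn (s.re R b) (cats s c 4 (s.loc R a) (s.loc R b) 3))))
  (bo (bn (isR l 16) (bn (Nat.ble a 6) (s.du R a)))
  (bo (bn (isR l 10) (bn (bn (Nat.beq a 127) (ne s.d 0)) (bo (Nat.beq s.p 0)
    (bo (Nat.ble 7 (s.pos R 0)) (bo (bn (Nat.beq (s.loc R 3) 0) (mem c (rl R 18 0 0 0)))
      (an 3 fun Q => bn (ne Q R) (mem c (rl Q 10 127 0 0))))))))
  (bn (bn (isR l 22) (ne s.d 0)) (Nat.ble a s.lo)))))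

def dg (R : ℕ) : ℕ := cn (Nat.beq (s.loc R 3) 0)
  (Nat.rec 0 (fun k r => cn (mem c (rl R 16 3 0 k)) (Nat.succ k) r) 4) 0
def deg : Bool := bn (bn (Nat.beq s.p 0) (ne s.d 0))
  (lt s.d (Nat.add (Nat.add (Nat.add (cnt s.n (s.a 0)) (dg s c 0)) (dg s c 1)) (dg s c 2)))
def dl (R : ℕ) : ℕ := cn (Nat.ble 7 (s.pos R 0)) 0 (cn (Nat.beq (s.pos R 0) 3)
  (Nat.rec s.lo (fun k r => cn (mem c (rl R 17 3 0 k)) k r) 4) s.lo)
def dlo : Bool := bn (ne s.d 0) (lt (Nat.add (Nat.add (Nat.add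
  (cnt s.n fun t => cb (s.na 0 t) false true) (dl s c 0)) (dl s c 1)) (dl s c 2)) s.lo)

def aux (l u y t : ℕ) : Bool := bn (lt u s.n) (bn (lt y s.n) (bn (lt t s.n)
  (bo (bn (isT l 7) (bo (has c (adjP s u y)) (has c (adjP s y t))))
  (bo (bn (isT l 9) (bo (has c (d2P s u y)) (has c (adjP s y t))))
  (bo (bn (isT l 5) (bn (ne u y) (bn (has c (adjP s u y)) (bn (cats s c 6 u y 3)
    (al s.n fun z => bo (Nat.beq z u) (bo (Nat.beq z y) (has c (LP s u z y))))))))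
  (bn (isT l 11) (bn (Nat.ble u 2) (bn (cats s c 6 y t u)
    (al s.n fun z => bo (Nat.ble (s.pos u z) 6) (has c (LP s y z t)))))))))))

def near (l R t S u : ℕ) : Bool := bn (isR l 14) (bn (s.re R t) (al 7 fun i =>
  bo (bt S i) (bo (s.du R i) (bo (bn (Nat.ble i (Nat.add t 2)) (Nat.ble t (Nat.add i 2)))
    (bo (s.f (s.loc R i) u) (mem c (cn (Nat.ble u (s.loc R i)) (tv 10 R u (s.loc R i))
      (tv 10 R (s.loc R i) u))))))))

def tt (l u t : ℕ) : Bool := bn (isT l 4) (bn (lt u s.n) (bn (lt t s.n) (bn (cats s c 8 u t 3)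
  (al s.n fun y => bo (Nat.beq y u) (bo (Nat.beq y t)
    (bn (has c (QP s u y t)) (has c (QP s t y u))))))))

/-- The matrices of known non edges, edges and far pairs. -/
def mat : ℕ := List.rec s.st (fun l _ r => Bool.rec r (Bool.rec r (Nat.lor r (Nat.shiftLeft
  (Nat.lor (Nat.shiftLeft 1 (ix (g1 l) (g2 l))) (Nat.shiftLeft 1 (ix (g2 l) (g1 l))))
  (Nat.mul (Nat.land l 6) 128))) (Nat.ble 6291456 l)) (Nat.beq (Nat.land l 25) 0)) c

def far1 (O X Y M : ℕ) : Bool := cb (a10 fun z => Bool.rec true (Bool.rec true (Bool.rec true false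
  (sub Y (Nat.shiftRight M (Nat.mul z 16))))
  (sub X (Nat.shiftRight M (Nat.add (Nat.mul z 16) 512)))) (bt O z)) false true
def far (l : ℕ) : Bool := bn (isR l 10) (far1 (Nat.xor (s.tm (fR l) 127) s.full)
  (s.tm (fR l) (Nat.xor (fA l) 127)) (s.tm (fR l) (Nat.xor (fB l) 127)) (mat s c))

def comp2 (X Y M : ℕ) : Bool := bo (Nat.beq Y 0)
  (a10 fun v => Bool.rec true (sub Y (Nat.shiftRight M (Nat.mul v 16))) (bt X v))
def comp1 (P A U P' A' U' M : ℕ) : Bool :=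
  bn (sub (Nat.land P P') (Nat.land (Nat.lor A (Nat.land A' U')) (Nat.lor A' (Nat.land A U))))
    (comp2 (Nat.xor P (Nat.land P (Nat.lor A P'))) (Nat.xor P' (Nat.land P' (Nat.lor A' P))) M)
def comp (l l' : ℕ) : Bool := bn (isR l 10) (bn (isR l' 10) (bn (ne (fR l) (fR l'))
  (comp1 (s.tm (fR l) 127) (s.tm (fR l) (fA l)) (s.tm (fR l) (fB l))
    (s.tm (fR l') 127) (s.tm (fR l') (fA l')) (s.tm (fR l') (fB l')) (mat s c))))

def dom1 (A B M k : ℕ) : Bool := bn (Nat.ble (Nat.add (pc A) k) 6) (a10 fun u => Nat.ble 1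
  (Nat.lor (Nat.land (Nat.shiftRight B u) 1) (Nat.land (Nat.shiftRight M (Nat.mul u 16)) A)))
def dom (l l' l'' : ℕ) : Bool := bn (isR l 12) (bn (isR l' 12) (bn (isR l'' 12) (bn
  (Nat.beq (Nat.lor (Nat.lor (Nat.shiftLeft 1 (fR l)) (Nat.shiftLeft 1 (fR l')))
    (Nat.shiftLeft 1 (fR l''))) 7)
  (dom1 (Nat.lor (Nat.lor (s.tm (fR l) (fA l)) (s.tm (fR l') (fA l'))) (s.tm (fR l'') (fA l'')))
    (Nat.lor (Nat.lor (Nat.lor (s.tm (fR l) (fB l)) (s.tm (fR l') (fB l')))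
      (s.tm (fR l'') (fB l''))) (Nat.xor s.full 1023))
    (Nat.shiftRight (mat s c) 256) (Nat.add (Nat.add (fK l) (fK l')) (fK l''))))))

def out2 (J A k h z : ℕ) : Bool := cb (Nat.beq k 0) (Nat.ble z J) (bn (Nat.beq k 1)
  (bn (Nat.ble (Nat.add z s.wh) J) (bn (Nat.ble (Nat.add z s.wh) s.jh) (im s.h3 (bt A h)))))
def out1 (R J A B M k P : ℕ) : Bool := bn
  (out2 s J A (Nat.add (pc (Nat.xor A (Nat.land A P))) k) (s.loc R 3)
    (sm 10 (Nat.land A P) fun t => s.w R (s.pos R t)))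
  (a10 fun u => Nat.ble 1 (Nat.lor (Nat.land (Nat.shiftRight B u) 1)
    (Nat.land (Nat.shiftRight M (Nat.mul u 16)) A)))
def out (l l' l'' : ℕ) : Bool := bn (isT l 13) (bn (isR l' 12) (bn (isR l'' 12) (bn
  (Nat.beq (Nat.lor (Nat.lor (Nat.shiftLeft 1 (g1 l)) (Nat.shiftLeft 1 (fR l')))
    (Nat.shiftLeft 1 (fR l''))) 7)
  (bn (bn (Nat.beq s.d 0) (bn (ne (g1 l) (fR l')) (ne (g1 l) (fR l''))))
  (out1 s (g1 l) (gm l) (Nat.lor (s.tm (fR l') (fA l')) (s.tm (fR l'') (fA l'')))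
    (Nat.lor (Nat.lor (Nat.lor (s.tm (g1 l) 127) (s.tm (fR l') (fB l')))
      (s.tm (fR l'') (fB l''))) (Nat.xor s.full 1023))
    (Nat.shiftRight (mat s c) 256) (Nat.add (fK l') (fK l'')) (s.tm (g1 l) 127))))))

def ex (c : List ℕ) (f : ℕ → Bool) : Bool := List.rec false (fun a _ r => Bool.rec r true (f a)) c
def bal1 (R J A z : ℕ) : Bool := bn (bo (lt J z)
  (ex c fun l => bn (isR l 10) (bn (Nat.beq (fR l) R) (sub A (fA l)))))
  (im (bn (im s.h3 (bt A 3)) (bn (Nat.ble (Nat.add z s.wh) J) (Nat.ble (Nat.add z s.wh) s.jh)))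
    (ex c fun l => bn (isR l 30) (bn (Nat.beq (fR l) R) (bn (Nat.beq (fK l) 1) (sub A (fA l))))))
def bal (R J : ℕ) : Bool := bn (Nat.beq s.d 0) (bn (Nat.ble R 2) (bn (Nat.ble J 127)
  (bn (bo (Nat.beq J 127) (mem c (tv 12 R J 0))) (al 128 fun A =>
    bo (an 7 fun i => bn (bt A i) (s.du R i)) (bal1 s c R J A (sm 7 A (s.w R)))))))

/-- The matrices of known edges and of known pairs at distance at most two. -/
def mx : ℕ := List.rec (Nat.lor s.sa (Nat.shiftLeft s.s2 256)) (fun l _ r => Bool.rec r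
  (Bool.rec r (Nat.lor r (Nat.shiftLeft (Nat.lor (Nat.shiftLeft 1 (ix (g1 l) (g2 l)))
    (Nat.shiftLeft 1 (ix (g2 l) (g1 l)))) (Nat.mul (Nat.land l 4) 64))) (Nat.ble 6291456 l))
  (bt 16422 (Nat.land l 31))) c
def ro (M u : ℕ) : ℕ := Nat.land (Nat.shiftRight M (Nat.mul u 16)) s.full
def hit (M u P : ℕ) : Bool := ne (Nat.land (ro s M u) P) 0
def f2 (l u t M : ℕ) : Bool := bn (isT l 15) (bn (lt u s.n) (bn (lt t s.n)
  (bo (bt M (ix u t)) (bo (hit s M u (ro s M t))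
    (an 3 fun R => bn (Nat.ble (s.pos R u) 6) (bn (Nat.ble (s.pos R t) 6)
      (bo (mem c (rl R 26 (s.pos R u) (s.pos R t) 0))
        (mem c (rl R 26 (s.pos R t) (s.pos R u) 0)))))))))
def fv (l v : ℕ) : Bool := bn (isT l 17) (bn (lt v s.n) (hit s (mx s c) (Nat.add v 16) (gm l)))
def wok (R P Q M : ℕ) : Bool := ex c fun l => bn (Nat.beq (fR l) R) (bn
  (bo (bn (isR l 24) (bn (sub (s.tm R (fB l)) Q) (al 7 fun i => im (bt (fB l) i) (s.re R i))))
    (bn (isR l 12) (bn (Nat.beq (fB l) 0) (Nat.beq (fK l) 0))))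
  (a10 fun t => im (bt (s.tm R (fA l)) t) (bo (bt P t) (hit s M t Q))))
def fwr (l : ℕ) : Bool := bn (isT l 19) (wok s c (g1 l) (gm l) (gm l) (mx s c))
def lv : ℕ := cn (mem c 6291476) (fld s.lo 3 7) (Nat.land s.lo 7)
def lvl (M K x y z : ℕ) : Bool := cb (Nat.beq y z) (cb (Nat.beq x y) (Nat.ble 1 K)
  (cb (bt M (ix x y)) (Nat.ble 2 K) (bn (Nat.ble 3 K) (bt M (ix (Nat.add x 16) y)))))
  (bn (Nat.ble 4 K) (bn (bt M (ix x y)) (bt M (ix x z))))
def fw1 (S M K : ℕ) : Bool := bn (an s.n fun x => bn (bt S x) (an s.n fun y => bn (bt S y)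
  (an s.n fun z => bn (bt S z) (bn (lvl M K x y z) (sub S (Nat.lor (Nat.shiftLeft 1 x)
    (Nat.lor (Nat.shiftLeft 1 y) (Nat.shiftLeft 1 z))))))))
  (bn (al s.n fun v => bo (hit s M (Nat.add v 16) S) (mem c (tv 16 v S 0)))
    (al 3 fun R => mem c (tv 18 R S 0)))
def fw : Bool := bn (Nat.beq s.d 0) (ex c fun l => bn (isT l 18) (fw1 s c (gm l) (mx s c) (lv s c)))
def fs1 (R P Q M : ℕ) : Bool := bn (al s.n fun z => bo (Nat.ble (s.pos R z) 6)
  (bo (hit s M z P) (hit s M (Nat.add z 16) Q))) (al 3 fun X => bo (Nat.beq X R) (wok s c X P Q M))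
def fs (l : ℕ) : Bool := bn (Nat.beq s.d 0) (bn (isR l 28) (bn (lt (fK l) (lv s c))
  (fs1 s c (fR l) (s.tm (fR l) (fA l)) (s.tm (fR l) (fB l)) (mx s c))))
def frb (l R M : ℕ) : Bool := bn (isR l 10) (a10 fun u => im (bt s.zz u) (bn (lt u s.n)
  (cb (Nat.ble (s.pos R u) 6) (bn (bt (s.tm R (fA l)) u) (bt (s.tm R (fB l)) u))
    (sub (s.tm R (Nat.xor (fA l) 127)) (Nat.shiftRight M (Nat.mul u 16))))))
def rho (l : ℕ) : Bool := bn (isT l 21) (bo (nx c fun l' c => frb s l' (fR l') (mat s c))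
  (an s.n fun v => al s.n fun u => im (bt s.zz u) (has c (d2P s v u))))
def oa (l : ℕ) : Bool := bo (isT l 1) (isT l 2)
def oo (l : ℕ) : ℕ := cn (bn (bo (oa l) (bn (bo (isT l 5) (isT l 14)) (s.na (g1 l) (g2 l))))
  (bn (lt (g1 l) s.n) (lt (g2 l) s.n))) (s.o (g1 l) (g2 l)) 0
def ch (p q : ℕ) : Bool := bn (ne p 0) (Nat.beq (Nat.shiftRight p 4) (Nat.land q 15))
def zf (p : ℕ) : Bool := bn (bn (ne p 0) (bt s.zz (Nat.shiftRight p 4)))
  (cb (bt s.zz (Nat.land p 15)) false true)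
def ord (p q : ℕ) : Bool := bn (Nat.beq s.d 0) (bo (bn (ch p q) (ch q p)) (nx c fun l _ =>
  bo (bn (ch p q) (bn (ch q (oo s l)) (ch (oo s l) p)))
    (bn (ch q p) (bn (ch p (oo s l)) (ch (oo s l) q)))))

def ok2 (f l : ℕ) (c : List ℕ) : Bool :=
  cb (Nat.beq f 2) (fwr s c l)
  (cb (Nat.beq f 4) (fs s c l)
  (cb (Nat.beq f 0) (f2 s c l (g1 l) (g2 l) (mx s c))
  (cb (Nat.beq f 1) (fv s c l (g1 l))
  (cb (Nat.beq f 3) (fw s (l :: c))
  (cb (Nat.beq f 5) (rho s c l)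
  (cb (Nat.beq f 6) (bn (Nat.beq s.d 0) (bn (isT l 20) (Nat.ble 40 (Nat.land s.lo 63))))
  (cb (Nat.beq f 7) (cb (isT l 12) (bal s (l :: c) (g1 l) (gm l)) (bal s (l :: c) (fR l) 127))
  (cb (Nat.beq f 8) (nx c fun l' c => ord s c (oo s l) (oo s l'))
    (bn (isT l 21) (nx c fun l' _ => bn (oa l') (zf s (oo s l'))))))))))))

def nl (R t a b k : ℕ) : ℕ := cn (bn (Nat.ble t 1) (bn (s.re R a) (s.re R b)))
  (tp (Nat.succ (Nat.mul t 2)) (s.loc R a) (s.loc R b)) (rl R (Nat.succ (Nat.mul t 2)) a b k)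
def nl0 (R x : ℕ) : ℕ := Bool.rec (Nat.add (Nat.mul R 2097152) (Nat.succ (Nat.mul x 2)))
  (nl s R (Nat.land x 15) (fld x 4 127) (fld x 11 127) (Nat.shiftRight x 18))
  (Nat.ble (Nat.land x 15) 1)
def nl2 (R t a b k : ℕ) : ℕ := nl s R t (rfa t a b) (rfb t a b) k
def nl1 (R x : ℕ) : ℕ := nl2 s R (Nat.land x 15) (fld x 4 127) (fld x 11 127) (Nat.shiftRight x 18)

def inst (g : ℕ → ℕ) (L : List ℕ) : List ℕ → Bool := List.rec (fun _ => true) (fun x _ r c =>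
  List.rec false (fun l c' _ => Bool.rec false (Bool.rec false (r c') (Nat.ble x 1048575))
    (Nat.beq l (g x))) c) L

def ok1 (lem : ℕ → List ℕ) (x f l : ℕ) (c : List ℕ) : Bool :=
  cb (Nat.beq f 12) (an 3 fun R => bo (inst (nl0 s R) (lem (Nat.shiftRight x 4)) c)
    (inst (nl1 s R) (lem (Nat.shiftRight x 4)) c))
  (cb (Nat.beq f 3) (unit s c l (fR l) (fA l) (fB l))
  (cb (Nat.beq f 4) (deg s c)
  (cb (Nat.beq f 5) (dlo s c)
  (cb (Nat.beq f 6) (aux s c l (g1 l) (g2 l) (g3 l))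
  (cb (Nat.beq f 7) (near s c l (fR l) (fA l) (fB l) (s.loc (fR l) (fA l)))
    (tt s c l (g1 l) (g2 l)))))))

/-- The clause test. The low four bits of `x` give the family. -/
def ok (lem : ℕ → List ℕ) (x : ℕ) (c : List ℕ) : Bool :=
  cb (Nat.beq (Nat.land x 15) 13) (bn (Nat.ble (fld x 5 3) 2)
    (cb (bt x 4) (inst (nl1 s (fld x 5 3)) (lem (Nat.shiftRight x 7)) c)
      (inst (nl0 s (fld x 5 3)) (lem (Nat.shiftRight x 7)) c)))
  (nx c fun l c1 =>
    cb (Nat.beq x 11) (nx c1 fun l' c2 => nx c2 fun l'' c3 => dom s c3 l l' l'')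
    (cb (Nat.beq x 0) (nx c1 fun l' _ => bo (mono l l')
      (bn (isR l' 4) (Nat.beq l (nl s (fR l') 1 (fA l') (fB l') 0))))
    (cb (Nat.beq x 10) (nx c1 fun l' c2 => comp s c2 l l')
    (cb (Nat.beq x 9) (far s c1 l)
    (cb (Nat.ble x 2) (nx c1 fun l' _ => bo (cp l l') (cp l' l))
    (cb (Nat.beq x 14) (nx c1 fun l' c2 => nx c2 fun l'' c3 =>
      bo (out s c3 l l' l'') (bo (out s c3 l' l l'') (out s c3 l'' l l')))
    (cb (Nat.beq (Nat.land x 15) 15) (ok2 s (Nat.shiftRight x 4) l c1)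
      (ok1 s lem x (Nat.land x 15) l c))))))))

/-- A symmetry is coded by a vertex table (nibbles 0 to 15), a region table (nibbles 16 to 18)
and a reflection bit (bit 80). -/
def sv (σ t : ℕ) : ℕ := Nat.land (Nat.shiftRight σ (Nat.mul t 4)) 15
def sr (σ R : ℕ) : ℕ := Nat.land (Nat.shiftRight σ (Nat.add (Nat.mul R 4) 64)) 15
def pr (Q t a b k : ℕ) (f : Bool) : ℕ := rl Q t (cn f (rfa (Nat.shiftRight t 1) a b) a)
  (cn f (rfb (Nat.shiftRight t 1) a b) b) k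
def pm (σ S : ℕ) : ℕ :=
  Nat.rec 0 (fun i r => cn (bt S i) (Nat.lor r (Nat.shiftLeft 1 (sv σ i))) r) 10
def pt (k a u v w b m : ℕ) : ℕ := cn (Nat.ble k 5) (tp k u v) (cn (Nat.ble k 7)
  (cn (Nat.ble u w) (tv k u v w) (tv k w v u)) (cn (Nat.ble k 9) (tv k u v w) (cn (Nat.ble k 11)
    (cn (Nat.ble v w) (tv k a v w) (tv k a w v)) (cn (Nat.ble k 13) (tv k a b 0)
    (cn (Nat.ble k 15) (tp k u v) (cn (Nat.ble k 17) (tv k u m 0)
    (cn (Nat.ble k 19) (tv k a m 0) (tv k 0 0 0))))))))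
/-- The action of a symmetry on literals. -/
def pi (σ l : ℕ) : ℕ := cn (Nat.ble l 6291455)
  (pr (sr σ (fR l)) (Nat.land l 31) (fA l) (fB l) (fK l) (bt σ 80))
  (pt (Nat.land l 31) (sr σ (g1 l)) (sv σ (g1 l)) (sv σ (g2 l)) (sv σ (g3 l)) (gm l)
    (pm σ (gm l)))
def swf (σ : ℕ) : Bool := bn (bn (Nat.beq (sv σ 0) 0) (bn (al 10 fun u => Nat.ble (sv σ u) 9)
    (bn (al 16 fun t => bn (im (bt s.zz t) (bt s.zz (sv σ t))) (im (bt s.zz (sv σ t)) (bt s.zz t)))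
    (al s.n fun t => al s.n fun u => cb (Nat.beq (s.o u t) 0) (Nat.beq (s.o (sv σ u) (sv σ t)) 0)
      (bn (ne (s.o (sv σ u) (sv σ t)) 0) (Nat.beq (s.o (sv σ u) (sv σ t))
        (Nat.add (sv σ (Nat.land (s.o u t) 15)) (Nat.mul 16 (sv σ (Nat.shiftRight (s.o u t) 4))))))))))
  (bn (al 3 fun R => bn (Nat.ble (sr σ R) 2)
    (bn (an 3 fun Q => Nat.beq (sr σ Q) R) (bn (al 3 fun Q => bo (Nat.beq Q R) (ne (sr σ Q) (sr σ R)))
    (bn (al 7 fun i => cb (s.du R i) (s.du (sr σ R) (cn (bt σ 80) (Nat.sub 6 i) i))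
      (bn (Nat.beq (s.loc (sr σ R) (cn (bt σ 80) (Nat.sub 6 i) i)) (sv σ (s.loc R i)))
        (Nat.beq (s.w (sr σ R) (cn (bt σ 80) (Nat.sub 6 i) i)) (s.w R i))))
    (al s.n fun t => cb (Nat.ble (s.pos R t) 6) (Nat.ble (s.pos (sr σ R) (sv σ t)) 6)
      (Nat.ble 7 (s.pos (sr σ R) (sv σ t))))))))
  (al s.n fun t => bn (lt (sv σ t) s.n) (bn (an s.n fun u => Nat.beq (sv σ u) t)
    (al s.n fun u => bn (bo (Nat.beq u t) (ne (sv σ u) (sv σ t)))
      (bn (im (s.a u t) (s.a (sv σ u) (sv σ t))) (bn (im (s.na u t) (s.na (sv σ u) (sv σ t)))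
      (bn (im (s.d2 u t) (s.d2 (sv σ u) (sv σ t))) (im (s.f u t) (s.f (sv σ u) (sv σ t))))))))))

end

def litv (val : ℕ → Prop) (x : ℕ) : Prop := if x % 2 = 0 then val (x / 2) else ¬ val (x / 2)

/-- The clauses accepted by the test are contradictory. -/
def Top (s : Shp) (lem : ℕ → List ℕ) : Prop :=
  ∀ val : ℕ → Prop, (∀ x c, ok s lem x c = true → ∃ l ∈ c, litv val l) → False

/-- No family of valuations closed under the symmetries satisfies the accepted clauses. -/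
def TopS (s : Shp) (lem : ℕ → List ℕ) : Prop :=
  ∀ (Ω : Type) (val : Ω → ℕ → Prop), (∀ ω x c, ok s lem x c = true → ∃ l ∈ c, litv (val ω) l) →
    (∀ σ, swf s σ = true → ∀ ω, ∃ ω', ∀ l, litv (val ω') l ↔ litv (val ω) (pi σ l)) → Ω → False

theorem Top.topS {s : Shp} {lem : ℕ → List ℕ} (h : Top s lem) : TopS s lem :=
  fun _ val k _ ω => h (val ω) (k ω)

end Pool.Agent.Lib.MP_ad48ef_co.Gl
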