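import Pool.Agent.Lib.MP_ad48ef_co.Check
import Pool.Agent.Lib.MP_ad48ef_co.Region

/-!
# Semantics of the tableau checker
-/

namespace Pool.Agent.Lib.MP_ad48ef_co

open Pool.Agent.Shared Pool.Agent.Shared.Planar

variable {X : Type}

def Fact (G : SimpleGraph X) (Reg : ℕ → X → Prop) (x : X) (σ : ℕ → X) (q : ℕ) : Prop :=
  (q < 48 → Wk G x (σ q)) ∧ (48 ≤ q → q < 64 → Reg (q - 48) x) ∧
    (64 ≤ q → q < 128 → ¬ G.Adj x (σ (q - 64))) ∧ (128 ≤ q → x ≠ σ (q - 128))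

structure Ctx (P : Par) (X : Type) where
  G : SimpleGraph X
  hub : ℕ → X
  Reg : ℕ → X → Prop
  KG : ℕ → SimpleGraph X
  m14 : P.m ≤ 14
  x0 : ∀ ρ : ℕ → X, (∀ h, h < P.m + 2 → ρ h = hub h) → Mt P.X0 fun a q => Fact G Reg (ρ a) ρ q
  inj : ∀ a b, a < P.m → b < P.m → hub a = hub b → a = b
  ht : ∀ r, HT (KG r)
  kadj : ∀ r a b, Reg r a → Reg r b → G.Adj a b → (KG r).Adj a b
  kv : ∀ r, r < 3 → ∀ a q, a < 16 → (row P.VV (16 * r + a)).testBit q = true → a < P.m + 2 ∧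
    (q < 48 → q < P.m + 2 ∧ (KG r).Adj (hub a) (hub q)) ∧ (48 ≤ q → ∀ y, ¬ G.Adj (hub a) y)
  lt3 : ∀ r v, Reg r v → r < 3
  rim : ∀ h, P.rim.testBit h = true → h < P.m
  closed : ∀ r a b, Reg r a → (∀ h, P.rim.testBit h = true → a ≠ hub h) → G.Adj a b → Reg r b
  uniq : ∀ r s a, Reg r a → Reg s a → (∀ h, P.rim.testBit h = true → a ≠ hub h) → r = s
  mem : ∀ r h, h < P.m + 2 → Reg r (hub h) → (row P.Y r).testBit h = true
  mem' : ∀ r h, r < 3 → (row P.Y r).testBit h = true → h < P.m ∧ Reg r (hub h)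
  virt : ∀ r v, Reg r v → v ≠ hub P.m ∧ v ≠ hub (P.m + 1)
  real : ∀ h, h < P.m → ∃ r, Reg r (hub h)
  adjR : ∀ a b, G.Adj a b → ∃ r, Reg r b
  diam : ∀ a b r s, Reg r a → Reg s b → ∃ x y, Wk G a x ∧ Wk G x y ∧ Wk G y b
  far : ∀ g h, (row P.far g).testBit h = true → g < P.m ∧ h < P.m ∧
    ∀ y, Wk G (hub g) y → Wk G (hub h) y → False
  sea : P.sn ≠ 0 → P.sc < P.m ∧
    ∀ y, Wk G (hub P.sc) y → ∃ h, h < P.m ∧ P.sn.testBit h = true ∧ y = hub h
  dom : ∀ l : List X, l.length ≤ P.K → ∃ v r, Reg r v ∧ ∀ u ∈ l, ¬ G.Adj v u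
  tab : (tabs P && tabOK P) = true

variable {P : Par} (C : Ctx P X)

namespace Ctx

def Hub (ρ : ℕ → X) : Prop := ∀ h, h < P.m + 2 → ρ h = C.hub h
def St (ρ : ℕ → X) (M : ℕ) : Prop := Mt M fun a q => Fact C.G C.Reg (ρ a) ρ q
def Rw (x : X) (σ : ℕ → X) (R : ℕ) : Prop := Msk R fun q => q < 192 ∧ Fact C.G C.Reg x σ q
def Snd (ih : Pr) : Prop := ∀ M c ρ, C.Hub ρ → C.St ρ M → ih M c ≠ 0 → False

variable {C} {x : X} {ρ σ : ℕ → X} {M R : ℕ}

theorem St.row (h : C.St ρ M) (a : ℕ) : C.Rw (ρ a) ρ (rw3 M a) := Mt.row h a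

theorem Rw.W (h : C.Rw x σ R) {b : ℕ} (hb : b < 48) (e : R.testBit b = true) : Wk C.G x (σ b) :=
  (h b e).2.1 hb
theorem Rw.L (h : C.Rw x σ R) {r : ℕ} (hr : r < 16) (e : R.testBit (48 + r) = true) :
    C.Reg r x := by simpa using (h _ e).2.2.1 (by omega) (by omega)
theorem Rw.F (h : C.Rw x σ R) {b : ℕ} (hb : b < 64) (e : R.testBit (64 + b) = true) :
    ¬ C.G.Adj x (σ b) := by simpa using (h _ e).2.2.2.1 (by omega) (by omega)
theorem Rw.N (h : C.Rw x σ R) {b : ℕ} (e : R.testBit (128 + b) = true) : x ≠ σ b := by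
  simpa using (h _ e).2.2.2.2 (by omega)

theorem Rw.or {R' : ℕ} (h : C.Rw x σ R) (k : C.Rw x σ R') : C.Rw x σ (Nat.lor R R') := by
  intro q e
  rw [tb_or, Bool.or_eq_true] at e
  exact e.elim (h q) (k q)

theorem Rw.zero : C.Rw x σ 0 := fun q e => by simp at e

theorem factW {b : ℕ} (hb : b < 48) (h : Wk C.G x (σ b)) : Fact C.G C.Reg x σ b :=
  ⟨fun _ => h, fun _ => by omega, fun _ => by omega, fun _ => by omega⟩
theorem factL {r : ℕ} (hr : r < 16) (h : C.Reg r x) : Fact C.G C.Reg x σ (48 + r) :=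
  ⟨fun _ => by omega, fun _ _ => by simpa using h, fun _ => by omega, fun _ => by omega⟩
theorem factF {b : ℕ} (hb : b < 64) (h : ¬ C.G.Adj x (σ b)) : Fact C.G C.Reg x σ (64 + b) :=
  ⟨fun _ => by omega, fun _ _ => by omega, fun _ _ => by simpa using h, fun _ => by omega⟩
theorem factN {b : ℕ} (h : x ≠ σ b) : Fact C.G C.Reg x σ (128 + b) :=
  ⟨fun _ => by omega, fun _ _ => by omega, fun _ _ => by omega, fun _ => by simpa using h⟩

theorem Rw.oneW {b : ℕ} (hb : b < 48) (h : Wk C.G x (σ b)) : C.Rw x σ (one b) := by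
  intro q e
  obtain rfl := tb_one.1 e
  exact ⟨by omega, factW hb h⟩

theorem Rw.dg {b : ℕ} (hb : b < 48) (h : x = σ b) : C.Rw x σ (dg b) := by
  intro q e
  rw [Pool.Agent.Lib.MP_ad48ef_co.dg, tb_sl,
    show 18446744073709551617 = Nat.lor (2 ^ 0) (2 ^ 64) from rfl, tb_or, Nat.testBit_two_pow,
    Nat.testBit_two_pow] at e
  simp only [Bool.and_eq_true, Bool.or_eq_true, decide_eq_true_eq] at e
  rcases (by omega : q = b ∨ q = 64 + b) with rfl | rfl
  exacts [⟨by omega, factW hb (Or.inl h)⟩, ⟨by omega, factF (by omega) (h ▸ C.G.irrefl)⟩]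

theorem Rw.oneL {r : ℕ} (hr : r < 16) (h : C.Reg r x) : C.Rw x σ (one (Nat.add 48 r)) := by
  intro q e
  obtain rfl := tb_one.1 e
  exact ⟨by simp only [Nat.add_eq]; omega, factL hr h⟩

theorem Rw.ofF {S : ℕ} (h : Msk S fun b => b < 64 ∧ ¬ C.G.Adj x (σ b)) :
    C.Rw x σ (Nat.shiftLeft S 64) := by
  intro q e
  rw [tb_sl] at e
  simp only [Bool.and_eq_true, decide_eq_true_eq] at e
  obtain ⟨b, rfl⟩ := Nat.exists_eq_add_of_le e.1
  have := h _ e.2
  rw [Nat.add_sub_cancel_left] at this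
  exact ⟨by omega, factF this.1 this.2⟩

theorem Rw.ofN {S : ℕ} (h : Msk S fun b => b < 64 ∧ x ≠ σ b) :
    C.Rw x σ (Nat.shiftLeft S 128) := by
  intro q e
  rw [tb_sl] at e
  simp only [Bool.and_eq_true, decide_eq_true_eq] at e
  obtain ⟨b, rfl⟩ := Nat.exists_eq_add_of_le e.1
  have := h _ e.2
  rw [Nat.add_sub_cancel_left] at this
  exact ⟨by omega, factN this.2⟩

/-- Facts only depend on the interpretation of the column. -/
theorem fact_col {p a b : ℕ} (hp : p % 64 = 0) (h192 : p < 192) (ha : a < 48) (hb : b < 48)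
    (e : σ b = ρ a) (h : Fact C.G C.Reg x ρ (p + a)) : Fact C.G C.Reg x σ (p + b) := by
  rcases (by omega : p = 0 ∨ p = 64 ∨ p = 128) with rfl | rfl | rfl
  · rw [zero_add] at h ⊢
    exact factW hb (e ▸ h.1 ha)
  · exact factF (by omega) (by simpa [e] using h.2.2.1 (by omega) (by omega))
  · exact factN (by simpa [e] using h.2.2.2 (by omega))

theorem fact_symm {p a b : ℕ} (hp : p % 64 = 0) (h192 : p < 192) (ha : a < 48) (hb : b < 48)
    (h : Fact C.G C.Reg (ρ a) ρ (p + b)) : Fact C.G C.Reg (ρ b) ρ (p + a) := by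
  rcases (by omega : p = 0 ∨ p = 64 ∨ p = 128) with rfl | rfl | rfl
  · rw [zero_add] at h ⊢
    exact factW ha (h.1 hb).symm
  · exact factF (by omega) fun e => by
      simpa [e.symm] using h.2.2.1 (by omega) (by omega)
  · exact factN fun e => by simpa [e] using h.2.2.2 (by omega)

theorem St.rc {a : ℕ} (h : C.St ρ M) (ha : a < 48) (k : C.Rw (ρ a) ρ R) : C.St ρ (rc3 M R a) := by
  refine Mt.or h (Mt.or (Mt.ofRow k) (Mt.ofCol (by omega) fun p e => ?_))
  obtain ⟨h1, h2, h3⟩ := tb_sp3 e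
  exact ⟨h1, fact_symm (by omega) (by omega) ha (by omega) (k _ h3).2⟩

theorem St.sy {k a b : ℕ} (h : C.St ρ M)
    (h1 : Msk k fun q => b + q < 192 ∧ Fact C.G C.Reg (ρ a) ρ (b + q))
    (h2 : Msk k fun q => a + q < 192 ∧ Fact C.G C.Reg (ρ b) ρ (a + q)) : C.St ρ (sy3 M k a b) :=
  Mt.or h (Mt.or (Mt.ofPos h1) (Mt.ofPos h2))

theorem msk_pow {n : ℕ} {Q : ℕ → Prop} (h : Q n) : Msk (2 ^ n) Q := by
  intro q e
  rw [Nat.testBit_two_pow] at e
  obtain rfl : n = q := by simpa using e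
  exact h

theorem St.syW {a b : ℕ} (h : C.St ρ M) (ha : a < 48) (hb : b < 48) (e : Wk C.G (ρ a) (ρ b)) :
    C.St ρ (sy3 M 1 a b) :=
  h.sy (msk_pow (n := 0) ⟨by omega, factW hb e⟩) (msk_pow (n := 0) ⟨by omega, factW ha e.symm⟩)

theorem St.syF {a b : ℕ} (h : C.St ρ M) (ha : a < 64) (hb : b < 64) (e : ¬ C.G.Adj (ρ a) (ρ b)) :
    C.St ρ (sy3 M 18446744073709551616 a b) :=
  h.sy (msk_pow (n := 64) ⟨by omega, add_comm b 64 ▸ factF hb e⟩)
    (msk_pow (n := 64) ⟨by omega, add_comm a 64 ▸ factF ha fun k => e k.symm⟩)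

theorem St.syN {a b : ℕ} (h : C.St ρ M) (ha : a < 64) (hb : b < 64) (e : ρ a ≠ ρ b) :
    C.St ρ (sy3 M 340282366920938463463374607431768211456 a b) :=
  h.sy (msk_pow (n := 128) ⟨by omega, add_comm b 128 ▸ factN e⟩)
    (msk_pow (n := 128) ⟨by omega, add_comm a 128 ▸ factN e.symm⟩)

theorem msk_two {Q : ℕ → Prop} (h : Q 0) (k : Q 128) :
    Msk 340282366920938463463374607431768211457 Q := by
  intro q e
  rw [show 340282366920938463463374607431768211457 = Nat.lor (2 ^ 0) (2 ^ 128) from rfl, tb_or,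
    Bool.or_eq_true] at e
  exact e.elim (msk_pow h q) (msk_pow k q)

theorem St.syA {a b : ℕ} (h : C.St ρ M) (ha : a < 48) (hb : b < 48) (e : C.G.Adj (ρ a) (ρ b)) :
    C.St ρ (sy3 M 340282366920938463463374607431768211457 a b) :=
  h.sy (msk_two ⟨by omega, factW hb (Or.inr e)⟩ ⟨by omega, add_comm b 128 ▸ factN e.ne⟩)
    (msk_two ⟨by omega, factW ha (Or.inr e.symm)⟩ ⟨by omega, add_comm a 128 ▸ factN e.ne'⟩)

theorem col_ok {D a t : ℕ} (h : C.St ρ M) (hD : Mt D fun a q => Fact C.G C.Reg (ρ a) σ q)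
    (ht : t < 48) (ha : a < 48) (e : σ a = ρ t) :
    Mt (Nat.lor D (Nat.shiftLeft (cl3 M t) a)) fun a q => Fact C.G C.Reg (ρ a) σ q := by
  refine hD.or (Mt.ofCol (by omega) fun p k => ?_)
  obtain ⟨h1, h2⟩ := tb_cl3 k
  refine ⟨h1, fact_col (by omega) (by omega) ht ha e (h _ _ (by omega) ?_)⟩
  rwa [show 192 * (p / 192) + (p % 192 + t) = t + p by omega]

theorem St.mg {l w : ℕ} (h : C.St ρ M) (hl : l < 48) (hw : w < 48) (e : ρ l = ρ w) :
    C.St ρ (mg3 M l w) := by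
  have := col_ok h (D := 0) (fun a q _ k => by simp at k) hl hw e.symm
  refine Mt.or h (Mt.or (fun a q m k => this a q m ?_) (Mt.ofRow ?_))
  · rw [tb_or, k, Bool.or_true]
  · rw [← e]; exact h.row l

theorem St.upd {t : ℕ} (h : C.St ρ M) (hf : fr3 M t = true) (v : X) :
    C.St (Function.update ρ t v) M := by
  intro a q m e
  obtain ⟨h1, h2⟩ := fr3_tb hf m e
  obtain ⟨k1, k2, k3, k4⟩ := h a q m e
  rw [Function.update_of_ne h1]
  refine ⟨fun k => ?_, k2, fun k k' => ?_, fun k => ?_⟩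
  · rw [Function.update_of_ne (by omega)]; exact k1 k
  · rw [Function.update_of_ne (by omega)]; exact k3 k k'
  · rw [Function.update_of_ne (by omega)]; exact k4 k

theorem Hub.upd {t : ℕ} (h : C.Hub ρ) (ht : P.m + 2 ≤ t) (v : X) :
    C.Hub (Function.update ρ t v) := fun a ha => by
  rw [Function.update_of_ne (by omega)]; exact h a ha

end Ctx

theorem tk_lt (c : ℕ) : tk c < 32 := Nat.lt_succ_of_le Nat.and_le_right
theorem tk_lt' (c : ℕ) : tk c < 48 := (tk_lt c).trans (by norm_num)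
theorem tk_lt'' (c : ℕ) : tk c < 64 := (tk_lt c).trans (by norm_num)

theorem ble_iff {a b : ℕ} : Nat.ble a b = true ↔ a ≤ b := Nat.ble_eq.to_iff
theorem beq_iff {a b : ℕ} : Nat.beq a b = true ↔ a = b := Nat.beq_eq.to_iff

theorem tb_ones {a q : ℕ} : (ones a).testBit q = true ↔ q < a := by
  have : ones a = 2 ^ a - 1 := by
    show 1 <<< a - 1 = _
    rw [Nat.one_shiftLeft]
  rw [this, Nat.testBit_two_pow_sub_one]
  simp

theorem cnd_eq (p : Bool) (a b : ℕ) : cnd p a b = if p = true then a else b := by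
  cases p <;> rfl

theorem ok_ne {b a : ℕ} (h : ok b a ≠ 0) : b = 0 ∧ a ≠ 0 := by
  have : ok b a = cnd (Nat.beq b 0) a 0 := rfl
  rw [this, cnd_eq] at h
  split_ifs at h with m
  exacts [⟨beq_iff.1 m, h⟩, absurd rfl h]

theorem or0 {x y : ℕ} (h : Nat.lor x y = 0) : x = 0 ∧ y = 0 := Nat.or_eq_zero_iff.1 h

theorem nz1_0 {x : ℕ} (h : nz1 x = 0) : x ≠ 0 := by
  have : 1 - x = 0 := h
  omega

theorem mul_ne {x y : ℕ} (h : Nat.mul x y ≠ 0) : x ≠ 0 ∧ y ≠ 0 := mul_ne_zero_iff.1 h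

theorem ns0 {x y : ℕ} (h : ns x y = 0) {i : ℕ} (k : x.testBit i = true) : y.testBit i = true := by
  have : (ns x y).testBit i = false := by rw [h]; simp
  rw [ns, tb_xor, tb_and, k] at this
  simpa using this

theorem and0 {x y i : ℕ} (h : Nat.land x y = 0) (k : y.testBit i = true) :
    x.testBit i = false := by
  have : (Nat.land x y).testBit i = false := by rw [h]; simp
  rw [tb_and, k] at this
  simpa using this

theorem tb_tbl {s : ℕ} {f : ℕ → ℕ} {c q : ℕ} (hq : q < s) (n : ℕ) :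
    (tbl s f n).testBit (s * c + q) = true ↔ c < n ∧ (f c).testBit q = true := by
  induction n with
  | zero => simp [tbl]
  | succ n ih =>
    rw [tbl, tb_or, Bool.or_eq_true, ih, tb_sl, tb_and, Nat.mul_eq]
    simp only [Bool.and_eq_true, decide_eq_true_eq, tb_ones]
    constructor
    · rintro (h | ⟨h1, h2, h3⟩)
      · exact ⟨by omega, h.2⟩
      · have : c = n := by
          have a1 : s * n < s * (c + 1) := by rw [mul_add]; omega
          have a2 : s * c < s * (n + 1) := by rw [mul_add]; omega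
          have := Nat.lt_of_mul_lt_mul_left a1
          have := Nat.lt_of_mul_lt_mul_left a2
          omega
        subst this
        exact ⟨by omega, by simpa using h2⟩
    · rintro ⟨h1, h2⟩
      rcases Nat.lt_succ_iff_lt_or_eq.1 h1 with h | rfl
      exacts [Or.inl ⟨h, h2⟩, Or.inr ⟨by omega, by simpa using h2, by omega⟩]

theorem tb_rt {f : ℕ → ℕ} {c q n : ℕ} : (rw3 (tbl 192 f n) c).testBit q = true ↔
    q < 192 ∧ c < n ∧ (f c).testBit q = true := by
  rw [tb_rw3]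
  exact and_congr_right fun h => tb_tbl h n

theorem iter_ind {α : Type} {f : α → α} {x : α} {Q : α → Prop} (h0 : Q x)
    (h : ∀ y, Q y → Q (f y)) (n : ℕ) : Q (f^[n] x) := by
  induction n with
  | zero => exact h0
  | succ n ih => rw [Function.iterate_succ_apply']; exact h _ ih

theorem and_ne {x y : ℕ} (h : Nat.land x y ≠ 0) : ∃ q, x.testBit q = true ∧ y.testBit q = true := by
  obtain ⟨q, e⟩ := ex_bit h
  rw [tb_and, Bool.and_eq_true] at e
  exact ⟨q, e⟩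

theorem tb_xs {x y q : ℕ} (h : (ns x y).testBit q = true) :
    x.testBit q = true ∧ y.testBit q = false := by
  rw [ns, tb_xor, tb_and] at h
  cases hx : x.testBit q <;> cases hy : y.testBit q <;> simp_all

namespace Ctx

variable {C} {x : X} {ρ σ : ℕ → X} {M R : ℕ}

theorem rw_fr {r : ℕ} (h : C.Hub σ) (k : C.Reg r x) : C.Rw x σ (P.fr r) := by
  have := C.m14
  refine (Rw.oneL (by have := C.lt3 _ _ k; omega) k).or (Rw.ofN fun b e => ?_)
  obtain ⟨h1, h2⟩ := tb_xs e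
  have h3 : b < P.m + 2 := tb_ones.1 h1
  refine ⟨by omega, fun e => ?_⟩
  rw [C.mem r b h3 (h b h3 ▸ e ▸ k)] at h2
  cases h2

theorem tabs_ok (C : Ctx P X) : P.cl = P.cl' ∧ P.ca = P.ca' ∧ P.ft = P.ft' ∧ P.fm = P.fm' ∧
    P.v3 = P.v3' ∧ P.idm = P.idm' ∧ P.hm = P.hm' := by
  have := C.tab
  simp only [tabs, Bool.and_eq_true, beq_iff] at this
  tauto

theorem fresh_ok {t b a : ℕ} (hH : C.Hub ρ) (h : C.St ρ M) (ht : t < 48) (v : X)
    (e : ok (Nat.lor (Nat.lor (Nat.sub P.H t) (frz M t)) b) a ≠ 0) :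
    b = 0 ∧ a ≠ 0 ∧ fr3 M t = true ∧ C.Hub (Function.update ρ t v) ∧
      ∀ R, C.Rw v (Function.update ρ t v) R →
        C.St (Function.update ρ t v) (rc3 M (Nat.lor R (dg t)) t) := by
  obtain ⟨h1, e⟩ := ok_ne e
  obtain ⟨h1, h2⟩ := or0 h1
  obtain ⟨h1, h4⟩ := or0 h1
  have h3 : P.m + 2 ≤ t := Nat.sub_eq_zero_iff_le.1 h1
  have h5 : fr3 M t = true := beq_iff.2 h4
  refine ⟨h2, e, h5, hH.upd h3 v, fun R hR => (h.upd h5 v).rc ht ?_⟩
  rw [Function.update_self]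
  exact hR.or (Rw.dg ht (by simp))

/-- The class of a vertex: a hub, or the interior of a region. -/
def Cl (C : Ctx P X) (c : ℕ) (v : X) : Prop :=
  (c < P.m ∧ v = C.hub c) ∨
    ∃ r, c = 16 + r ∧ C.Reg r v ∧ ∀ h, P.rim.testBit h = true → v ≠ C.hub h

theorem cls_ok {u c : ℕ} (hH : C.Hub ρ) (h : C.St ρ M) (hc : c < 32)
    (e : ns (rw3 P.cl c) (rw3 M u) = 0) : C.Cl c (ρ u) ∧ ∀ t, fr3 M t = true → u ≠ t := by
  have m14 := C.m14
  have key : ∀ q, q < 192 → (if c < P.m then dg c else if 16 ≤ c then P.nh (c - 16) else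
      340282366920938463481821351505477763073).testBit q = true →
      (rw3 M u).testBit q = true := fun q h1 h2 =>
    ns0 e (by rw [C.tabs_ok.1]; exact tb_rt.2 ⟨h1, hc, h2⟩)
  have anc : ∀ q, (rw3 M u).testBit q = true → ∀ t, fr3 M t = true → u ≠ t := fun q hb t ht =>
    (fr3_tb ht (tb_rw3.1 hb).1 (tb_rw3.1 hb).2).1
  split_ifs at key with h1 h2
  · have a1 := key c (by omega) (by rw [Pool.Agent.Lib.MP_ad48ef_co.dg, tb_sl]; simp)
    have a2 := key (64 + c) (by omega) (by rw [Pool.Agent.Lib.MP_ad48ef_co.dg, tb_sl]; simp; rfl)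
    exact ⟨Or.inl ⟨h1, (((h.row u).W (by omega) a1).resolve_right
      ((h.row u).F (by omega) a2)).trans (hH c (by omega))⟩, anc _ a1⟩
  · obtain ⟨r, rfl⟩ := Nat.exists_eq_add_of_le h2
    rw [Nat.add_sub_cancel_left] at key
    have hb := key (48 + r) (by omega)
      (by rw [Par.nh, tb_or, one, tb_one.2 Nat.add_eq.symm, Bool.true_or])
    have hl := (h.row u).L (by omega) hb
    refine ⟨Or.inr ⟨r, rfl, hl, fun g hg k => ?_⟩, anc _ hb⟩
    have g1 : g < P.m + 2 := by have := C.rim g hg; omega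
    refine (h.row u).N (b := g) (key _ (by omega) ?_) (k.trans (hH g g1).symm)
    rw [Par.nh, tb_or, tb_sl, Nat.add_sub_cancel_left, tb_and, hg, C.mem r g g1 (k ▸ hl)]
    simp
  · exact (((h.row u).W (by omega) (key 0 (by omega) rfl)).elim
      ((h.row u).N (b := 0) (key _ (by omega) rfl))
      ((h.row u).F (b := 0) (by omega) (key _ (by omega) rfl))).elim

end Ctx

end Pool.Agent.Lib.MP_ad48ef_co
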