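import Pool.Agent.Shared.Planar.Tripod

/-!
# Sums of planar graphs and edge maximal planar graphs
-/

namespace Pool.Agent.Lib.MP_ad48ef_co

open Pool.Agent.Shared.Planar SimpleGraph

variable {V : Type*}

theorem gauge {G : SimpleGraph V} (c : Coc G) (t : V → V → ZMod 2)
    (ht : ∀ a b, a ≠ b → t a b + t b a = 1) : ∃ d : Coc G, d.t = t := by
  have k : ∀ a b, a ≠ b → t a b * (t a b + c.t a b) + t b a * (t b a + c.t b a) = t a b + c.t a b :=
    fun a b h => (by decide : ∀ p q r s : ZMod 2, p + q = 1 → r + s = 1 →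
      p * (p + r) + q * (q + s) = p + r) _ _ _ _ (ht a b h) (c.anti a b h)
  refine ⟨⟨t, fun a b v => c.x a b v + t a v * (t a v + c.t a v) + t b v * (t b v + c.t b v), ht,
    fun a b v => by rw [c.symm a b]; ring, fun a b p q h1 h2 e1 e2 e3 e4 => ?_⟩, rfl⟩
  linear_combination (norm := (ring_nf; reduce_mod_char)) c.eqn a b p q h1 h2 e1 e2 e3 e4 +
    k a p e1 + k a q e2 + k b p e3 + k b q e4

/-- The mirror image of a cocycle. -/
def mirror {G : SimpleGraph V} (c : Coc G) : Coc G :=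
  ⟨c.t, fun a b v => c.x a b v + c.t a v + c.t b v, c.anti,
    fun a b v => by rw [c.symm a b]; ring, fun a b p q h1 h2 e1 e2 e3 e4 => by
      linear_combination (norm := (ring_nf; reduce_mod_char)) c.eqn a b p q h1 h2 e1 e2 e3 e4 +
        c.anti a p e1 + c.anti a q e2 + c.anti b p e3 + c.anti b q e4⟩

section
variable {G1 G2 : SimpleGraph V} {D S : Set V}

def mm (c1 : Coc (apex G1 D)) (c2 : Coc (apex G2 D)) (d e : V) : ZMod 2 :=
  c1.x none (some e) (some d) + c2.x none (some d) (some e) + c1.t (some d) none +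
    c1.t none (some e) + c1.t (some d) (some e)

theorem sum_core (c1 : Coc (apex G1 D)) (c2 : Coc (apex G2 D)) (ht : c2.t = c1.t)
    (hD : ∀ d ∈ D, d ∉ S) (h1 : ∀ a b, G1.Adj a b → (a ∈ S ∨ b ∈ S) ∧ (a ∈ S ∨ a ∈ D))
    (h2 : ∀ a b, G2.Adj a b → a ∉ S) (α β : V → ZMod 2)
    (hM : ∀ d ∈ D, ∀ e ∈ D, d ≠ e → α d + β e = mm c1 c2 d e) : HT (G1 ⊔ G2) := by
  classical
  let t : V → V → ZMod 2 := fun a b => c1.t (some a) (some b)
  let A : V → V → ZMod 2 := fun p k => if p ∈ S then t p k else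
    c2.x none (some p) (some k) + c1.t none (some k) + α p
  let B : V → V → ZMod 2 := fun p s => if p ∈ D then
    c1.x none (some p) (some s) + c1.t (some s) none + β p else 0
  let x : V → V → V → ZMod 2 := fun a b v => if a ∈ S ∨ b ∈ S then
    (if v ∈ S ∨ v ∈ D then c1.x (some a) (some b) (some v)
      else c1.x (some a) (some b) none + A a v + A b v)
    else if v ∈ S then c2.x (some a) (some b) none + B a v + B b v
      else c2.x (some a) (some b) (some v)
  have sy : ∀ a b v, x a b v = x b a v := fun a b v => by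
    simp only [x, or_comm (a := a ∈ S), c1.symm (some a) (some b), c2.symm (some a) (some b)]
    split_ifs <;> ring
  have anti : ∀ a b, a ≠ b → t a b + t b a = 1 := fun a b h => c1.anti _ _ (by simpa using h)
  have e1 : ∀ a b p, G1.Adj a b → p ∈ D → a ≠ p → b ≠ p → _ := fun a b p h k m n =>
    c1.eqn (some a) (some b) none (some p) h k (by simp) (by simpa using m) (by simp)
      (by simpa using n)
  have mix : ∀ a b p q, a ∈ S → G1.Adj a b → G2.Adj p q → b ≠ p → b ≠ q →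
      x a b p + x a b q + x p q a + x p q b = t a p + t a q + t b p + t b q := by
    intro a b p q ha k1 k2 n1 n2
    have hp := h2 p q k2
    have hq := h2 q p k2.symm
    by_cases hb : b ∈ S
    · have : ∀ p, p ∉ S → x a b p + B p a + B p b + t a p + t b p = c1.x (some a) (some b) none := by
        intro p hp
        by_cases m : p ∈ D <;> simp only [x, A, B, t, ha, hb, hp, m, true_or, or_true, or_self,
          if_true, if_false]
        · linear_combination (norm := (ring_nf; reduce_mod_char))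
            e1 a b p k1 m (fun e => hp (e ▸ ha)) fun e => hp (e ▸ hb)
        · ring_nf; reduce_mod_char
      have i1 := this p hp
      have i2 := this q hq
      simp only [x, ha, hb, hp, hq, or_self, if_true, if_false] at i1 i2 ⊢
      linear_combination (norm := (ring_nf; reduce_mod_char)) i1 + i2
    · have bD := (h1 b a k1.symm).2.resolve_left hb
      have : ∀ p, p ∉ S → b ≠ p → x a b p + B p a + c2.x none (some b) (some p) +
          c1.t none (some p) + t a p = c1.x (some a) (some b) none + α b := by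
        intro p hp n
        by_cases m : p ∈ D <;> simp only [x, A, B, t, ha, hb, hp, m, true_or, or_true, or_self,
          if_true, if_false]
        · have := hM b bD p m n
          simp only [mm] at this
          linear_combination (norm := (ring_nf; reduce_mod_char))
            e1 a b p k1 m (fun e => hp (e ▸ ha)) n + this
        · ring_nf; reduce_mod_char
      have i1 := this p hp n1
      have i2 := this q hq n2
      have i3 := c2.eqn none (some b) (some p) (some q) bD k2 (by simp) (by simp)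
        (by simpa using n1) (by simpa using n2)
      rw [ht] at i3
      simp only [x, t, ha, hb, hp, hq, or_self, true_or, if_true, if_false] at i1 i2 ⊢
      linear_combination (norm := (ring_nf; reduce_mod_char)) i1 + i2 + i3
  have mix' : ∀ a b p q, G1.Adj a b → G2.Adj p q → a ≠ p → a ≠ q → b ≠ p → b ≠ q →
      x a b p + x a b q + x p q a + x p q b = t a p + t a q + t b p + t b q := by
    intro a b p q k1 k2 n1 n2 n3 n4
    rcases (h1 a b k1).1 with m | m
    · exact mix a b p q m k1 k2 n3 n4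
    · rw [sy a b, sy a b]
      linear_combination mix b a p q m k1.symm k2 n1 n2
  refine ⟨⟨t, x, anti, sy, ?_⟩⟩
  rintro a b p q (k1 | k1) (k2 | k2) n1 n2 n3 n4
  · simp only [x, t, (h1 a b k1).1, (h1 p q k2).1, (h1 a b k1).2, (h1 p q k2).2,
      (h1 b a k1.symm).2, (h1 q p k2.symm).2, if_true]
    exact c1.eqn (some a) (some b) (some p) (some q) k1 k2 (by simpa using n1) (by simpa using n2)
      (by simpa using n3) (by simpa using n4)
  · exact mix' a b p q k1 k2 n1 n2 n3 n4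
  · linear_combination (norm := (ring_nf; reduce_mod_char))
      mix' p q a b k2 k1 n1.symm n3.symm n2.symm n4.symm + anti a p n1 + anti a q n2 +
        anti b p n3 + anti b q n4
  · simp only [x, t, h2 a b k1, h2 b a k1.symm, h2 p q k2, h2 q p k2.symm, or_self, if_false, ← ht]
    exact c2.eqn (some a) (some b) (some p) (some q) k1 k2 (by simpa using n1) (by simpa using n2)
      (by simpa using n3) (by simpa using n4)

end

theorem sum2 {G1 G2 : SimpleGraph V} {S : Set V} {u v : V} (k1 : HT (apex G1 {u, v, v}))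
    (k2 : HT (apex G2 {u, v, v})) (hu : u ∉ S) (hv : v ∉ S)
    (h1 : ∀ a b, G1.Adj a b → (a ∈ S ∨ b ∈ S) ∧ (a ∈ S ∨ a ∈ ({u, v, v} : Set V)))
    (h2 : ∀ a b, G2.Adj a b → a ∉ S) : HT (G1 ⊔ G2) := by
  classical
  obtain ⟨c1⟩ := k1
  obtain ⟨c⟩ := k2
  obtain ⟨c2, ht⟩ := gauge c c1.t c1.anti
  refine sum_core c1 c2 ht (by rintro _ (rfl | rfl | rfl) <;> assumption) h1 h2
    (fun d => if d = u then mm c1 c2 u v else mm c1 c2 v u) 0 ?_
  rintro d (rfl | rfl | rfl) e (rfl | rfl | rfl) n <;> simp [n] at n ⊢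

theorem sum3 {G1 G2 : SimpleGraph V} {S : Set V} {u v w : V} (k1 : HT (apex G1 {w, u, v}))
    (k2 : HT (apex G2 {w, u, v})) (hu : u ∉ S) (hv : v ∉ S) (hw : w ∉ S)
    (n1 : u ≠ v) (n2 : u ≠ w) (n3 : v ≠ w)
    (h1 : ∀ a b, G1.Adj a b → (a ∈ S ∨ b ∈ S) ∧ (a ∈ S ∨ a ∈ ({w, u, v} : Set V)))
    (h2 : ∀ a b, G2.Adj a b → a ∉ S) : HT (G1 ⊔ G2) := by
  classical
  obtain ⟨c1⟩ := k1
  obtain ⟨c⟩ := k2
  obtain ⟨c2, ht, z⟩ : ∃ c2 : Coc (apex G2 {w, u, v}), c2.t = c1.t ∧ mm c1 c2 u v + mm c1 c2 v u +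
      mm c1 c2 u w + mm c1 c2 w u + mm c1 c2 v w + mm c1 c2 w v = 0 := by
    obtain ⟨c2, ht⟩ := gauge c c1.t c1.anti
    by_cases z : mm c1 c2 u v + mm c1 c2 v u + mm c1 c2 u w + mm c1 c2 w u + mm c1 c2 v w +
      mm c1 c2 w v = 0
    · exact ⟨c2, ht, z⟩
    refine ⟨mirror c2, ht, ?_⟩
    have z' := (by decide : ∀ s : ZMod 2, s ≠ 0 → s = 1) _ z
    simp only [mm, mirror, ht] at z' ⊢
    linear_combination (norm := (ring_nf; reduce_mod_char)) z' +
      c1.anti (some u) (some v) (by simpa using n1) + c1.anti (some u) (some w) (by simpa using n2)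
      + c1.anti (some v) (some w) (by simpa using n3)
  refine sum_core c1 c2 ht (by rintro _ (rfl | rfl | rfl) <;> assumption) h1 h2
    (fun d => if d = u then 0 else if d = v then mm c1 c2 v w + mm c1 c2 u w
      else mm c1 c2 w v + mm c1 c2 u v)
    (fun d => if d = u then mm c1 c2 v u + mm c1 c2 v w + mm c1 c2 u w else mm c1 c2 u d) ?_
  rintro d (rfl | rfl | rfl) e (rfl | rfl | rfl) n <;>
    simp only [n1, n2, n3, n1.symm, n2.symm, n3.symm, if_true, if_false] <;>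
    first | exact absurd rfl n | exact zero_add _ | (ring_nf; reduce_mod_char; done) | skip
  linear_combination (norm := (ring_nf; reduce_mod_char)) z

/-- Edge maximal connected planar graphs. -/
structure Mx (H : SimpleGraph V) : Prop where
  ht : HT H
  mx : ∀ p q, p ≠ q → HT (H ⊔ edge p q) → H.Adj p q
  cn : ∀ a b, R H Set.univ a b

/-- The edges that touch `K`. -/
def tch (H : SimpleGraph V) (K : Set V) : SimpleGraph V where
  Adj a b := H.Adj a b ∧ (a ∈ K ∨ b ∈ K)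
  symm := ⟨fun _ _ h => ⟨h.1.symm, h.2.symm⟩⟩
  loopless := ⟨fun _ h => H.irrefl h.1⟩

/-- The edges that avoid `K`. -/
def awy (H : SimpleGraph V) (K : Set V) : SimpleGraph V where
  Adj a b := H.Adj a b ∧ a ∉ K ∧ b ∉ K
  symm := ⟨fun _ _ h => ⟨h.1.symm, h.2.symm⟩⟩
  loopless := ⟨fun _ h => H.irrefl h.1⟩

variable {H : SimpleGraph V}

theorem awy_le {K : Set V} : awy H K ≤ H := fun _ _ k => k.1

theorem split_le {K : Set V} {p q : V} (hp : p ∈ K) :
    H ⊔ edge p q ≤ tch (H ⊔ edge p q) K ⊔ awy H K := by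
  intro a b e
  by_cases m : a ∈ K ∨ b ∈ K
  · exact Or.inl ⟨e, m⟩
  rcases e with e | e
  · exact Or.inr ⟨e, fun k => m (Or.inl k), fun k => m (Or.inr k)⟩
  · rcases ((edge_adj _ _ _ _).1 e).1 with ⟨rfl, rfl⟩ | ⟨rfl, rfl⟩
    exacts [absurd (Or.inl hp) m, absurd (Or.inr hp) m]

/-- An edge from `p` to the apex is subdivided by `q`. -/
theorem ht_tch {K U D : Set V} {p q : V} (h : HT (apex H U)) (hp : p ∈ U)
    (hq : ∀ a b, H.Adj a b → a ∈ K ∨ b ∈ K → a ≠ q) (hD : ∀ d ∈ D, d = q ∨ d ∈ U) :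
    HT (apex (tch (H ⊔ edge p q) K) D) := by
  classical
  have h' := h.apex_edge (w := some p) (u := none) hp
  refine h'.comap (fun o => match o with
    | none => some none
    | some a => if a = q then none else some (some a)) ?_ ?_
  · rintro (_ | a) (_ | b) e <;> dsimp only at e
    · rfl
    · split_ifs at e; cases e
    · split_ifs at e; cases e
    · split_ifs at e with m n
      exacts [by rw [m, n], by cases e; rfl]
  have k : ∀ d ∈ D, (apex (apex H U) {some p, none, none}).Adj (some none)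
      (if d = q then none else some (some d)) := fun d hd => by
    split_ifs with m
    exacts [Or.inr (Or.inl rfl), (hD d hd).resolve_left m]
  rintro (_ | a) (_ | b) e
  · exact e.elim
  · exact k b e
  · exact (k a e).symm
  obtain ⟨e | e, m⟩ := e
  · simp only [hq a b e m, hq b a e.symm m.symm, if_false]
    exact e
  · obtain ⟨⟨rfl, rfl⟩ | ⟨rfl, rfl⟩, n⟩ := (edge_adj _ _ _ _).1 e
    · simp only [n, if_true, if_false]
      exact Or.inl rfl
    · simp only [n.symm, if_true, if_false]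
      exact Or.inl rfl

theorem Mx.att (h : Mx H) {u v : V} (e : H.Adj u v) {K : Set V} (hK : K.Nonempty) (uK : u ∉ K)
    (vK : v ∉ K) (cl : ∀ a ∈ K, ∀ b, H.Adj a b → b ∈ K ∨ b = u ∨ b = v) :
    ∃ a ∈ K, H.Adj v a := by
  by_contra m
  have nv : ∀ a ∈ K, ¬ H.Adj v a := fun a k n => m ⟨a, k, n⟩
  obtain ⟨p, hp, pu⟩ : ∃ p ∈ K, H.Adj p u := by
    by_contra n
    obtain ⟨a, ha⟩ := hK
    refine uK ((h.cn a u).ind (· ∈ K) ha fun p q _ _ k hp => ?_)
    rcases cl p hp q k with l | rfl | rfl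
    exacts [l, absurd ⟨p, hp, k⟩ n, absurd k.symm (nv p hp)]
  refine nv p hp (h.mx p v (fun k => vK (k ▸ hp)) ((sum2 (S := K) (u := u) (v := v) (G2 := awy H K) ?_
    ((h.ht.apex_edge e).mono (apex_mono awy_le _)) uK vK ?_
    fun a b k => k.2.1).mono (split_le hp))).symm
  · refine ht_tch (h.ht.apex_edge pu) (Or.inl rfl) ?_ ?_
    · rintro a b k (l | l) rfl
      exacts [vK l, nv b l k]
    · rintro d (rfl | rfl | rfl) <;> simp
  · rintro a b ⟨k | k, l⟩
    · refine ⟨l, l.elim Or.inl fun l => (cl b l a k.symm).imp_right ?_⟩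
      rintro (rfl | rfl) <;> simp
    · refine ⟨l, ?_⟩
      rcases ((edge_adj _ _ _ _).1 k).1 with ⟨rfl, rfl⟩ | ⟨rfl, rfl⟩ <;> simp [hp]

theorem Mx.face [Finite V] (h : Mx H) {u v : V} (e : H.Adj u v) {K Q : Set V} (cK : Cn H K)
    (cQ : Cn H Q) (uK : u ∉ K) (vK : v ∉ K) (uQ : u ∉ Q) (vQ : v ∉ Q)
    (hKQ : ∀ a, a ∈ K → a ∈ Q → False)
    (hN : ∀ a ∈ K, ∀ b, H.Adj a b → b ∈ K ∨ b ∈ Q ∨ b = u ∨ b = v)
    (hu : ∃ a ∈ K, H.Adj u a) (hv : ∃ a ∈ K, H.Adj v a) : ∃ w ∈ K, H.Adj u w ∧ H.Adj v w ∧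
      ∀ a b, Tri H w u v a → Tri H w u v b → R H {w, u, v}ᶜ a b :=
  facial h.ht e _ rfl cK cQ uK vK uQ vQ hKQ hN hu hv fun p q _ _ => h.mx p q

/-- The ends of an edge do not separate an edge maximal planar graph. -/
theorem Mx.two [Finite V] (h : Mx H) {u v : V} (e : H.Adj u v) : Cn H {u, v}ᶜ := by
  have key : ∀ x ∈ ({u, v}ᶜ : Set V), (∀ a, R H {u, v}ᶜ x a → ∀ b, H.Adj a b →
      R H {u, v}ᶜ x b ∨ b = u ∨ b = v) ∧ ¬ R H {u, v}ᶜ x u ∧ ¬ R H {u, v}ᶜ x v ∧
      ∃ p, R H {u, v}ᶜ x p ∧ H.Adj u p ∧ H.Adj v p ∧ HT (apex H {p, u, v}) := by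
    intro x hx
    have cl : ∀ a, R H {u, v}ᶜ x a → ∀ b, H.Adj a b → R H {u, v}ᶜ x b ∨ b = u ∨ b = v := by
      intro a ha b k
      by_cases m : b ∈ ({u, v}ᶜ : Set V)
      exacts [Or.inl (ha.tail (ha.mem hx) m k), Or.inr (by simpa using not_not.1 m)]
    have uK : ¬ R H {u, v}ᶜ x u := fun k => k.mem hx (Or.inl rfl)
    have vK : ¬ R H {u, v}ᶜ x v := fun k => k.mem hx (Or.inr rfl)
    obtain ⟨p, p1, p2, p3, p4⟩ := h.face e (K := {a | R H {u, v}ᶜ x a}) (Q := ∅)
      (Cn.of_root x fun b hb => R.restrict hb fun _ hp _ => hp) (fun _ k => k.elim) uK vK id id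
      (fun _ _ k => k) (fun a ha b k => (cl a ha b k).imp_right Or.inr)
      (h.att e.symm ⟨x, R.refl⟩ vK uK fun a ha b k => (cl a ha b k).imp_right Or.symm)
      (h.att e ⟨x, R.refl⟩ uK vK cl)
    exact ⟨cl, uK, vK, p, p1, p2, p3, apex_of_facial h.ht e p2 p3 p4⟩
  intro x hx y hy
  by_contra n
  obtain ⟨cl, uK, vK, p, p1, p2, p3, p4⟩ := key x hx
  obtain ⟨-, -, -, q, q1, q2, q3, q4⟩ := key y hy
  have qK : ¬ R H {u, v}ᶜ x q := fun k => n (k.trans q1.symm)
  have a := h.mx p q (fun k => qK (k ▸ p1)) ((sum3 (S := {a | R H {u, v}ᶜ x a}) (u := u) (v := v)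
    (w := q) (G2 := awy H {a | R H {u, v}ᶜ x a}) ?_ (q4.mono (apex_mono awy_le _)) uK vK qK e.ne q2.ne q3.ne ?_
    fun a b k => k.2.1).mono (split_le p1))
  · rcases cl p p1 q a with k | k | k
    exacts [qK k, q2.ne k.symm, q3.ne k.symm]
  · refine ht_tch p4 (Or.inl rfl) ?_ ?_
    · rintro a b k (l | l) rfl
      · exact qK l
      · rcases cl b l a k.symm with k | k | k
        exacts [qK k, q2.ne k.symm, q3.ne k.symm]
    · rintro d (rfl | rfl | rfl) <;> simp
  · rintro a b ⟨k | k, l⟩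
    · refine ⟨l, l.elim Or.inl fun l => (cl b l a k.symm).imp_right ?_⟩
      rintro (rfl | rfl) <;> simp
    · refine ⟨l, ?_⟩
      rcases ((edge_adj _ _ _ _).1 k).1 with ⟨rfl, rfl⟩ | ⟨rfl, rfl⟩
      exacts [Or.inl p1, Or.inr (Or.inl rfl)]

theorem first_hit {S T : Set V} {x y : V} (r : R H S x y) (hx : x ∈ T) (hy : y ∉ T)
    (hS : ∀ a ∈ S, a ≠ y → a ∈ T) : ∃ c, R H T x c ∧ H.Adj y c := by
  refine (r.ind (fun p => R H T x p ∨ ∃ c, R H T x c ∧ H.Adj y c) (Or.inl R.refl) ?_).resolve_left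
    fun k => hy (k.mem hx)
  rintro p q _ hq e (k | k)
  · by_cases m : q = y
    exacts [Or.inr ⟨p, k, m ▸ e.symm⟩, Or.inl (k.tail (k.mem hx) (hS q hq m) e)]
  · exact Or.inr k

theorem Mx.tri [Finite V] (h : Mx H) {u v w x : V} (e : H.Adj u v) (e1 : H.Adj u w)
    (e2 : H.Adj v w) (hx : x ∈ ({w, u, v}ᶜ : Set V)) : Tri H w u v x := by
  have := hx
  simp only [Set.mem_compl_iff, Set.mem_insert_iff, Set.mem_singleton_iff, not_or] at this
  refine ⟨hx, first_hit (h.two e x (by simp [this]) w (by simp [e1.ne', e2.ne'])) hx (by simp) ?_,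
    first_hit (h.two e2 x (by simp [this]) u (by simp [e1.ne, e.ne])) hx (by simp) ?_,
    first_hit (h.two e1 x (by simp [this]) v (by simp [e.ne', e2.ne])) hx (by simp) ?_⟩ <;>
  · intro a ha m
    simp only [Set.mem_compl_iff, Set.mem_insert_iff, Set.mem_singleton_iff, not_or] at ha ⊢
    tauto

/-- A facial triangle. -/
def Fac (H : SimpleGraph V) (D : Set V) (a b w : V) : Prop :=
  H.Adj a b ∧ H.Adj a w ∧ H.Adj b w ∧ D = {w, a, b} ∧ Cn H Dᶜ

theorem Mx.first [Finite V] (h : Mx H) {u v x : V} (e : H.Adj u v) (h1 : x ≠ u) (h2 : x ≠ v) :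
    ∃ D w, Fac H D u v w := by
  have cl : ∀ a ∈ ({u, v}ᶜ : Set V), ∀ b, H.Adj a b → b ∈ ({u, v}ᶜ : Set V) ∨ b = u ∨ b = v :=
    fun a _ b _ => by simp only [Set.mem_compl_iff, Set.mem_insert_iff, Set.mem_singleton_iff]; tauto
  have ne : ({u, v}ᶜ : Set V).Nonempty := ⟨x, by simp [h1, h2]⟩
  obtain ⟨w, -, e1, e2, k⟩ := h.face e (K := {u, v}ᶜ) (Q := ∅) (h.two e) (fun _ k => k.elim)
    (by simp) (by simp) id id (fun _ _ k => k) (fun a ha b k => (cl a ha b k).imp_right Or.inr)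
    (h.att e.symm ne (by simp) (by simp) fun a ha b k => (cl a ha b k).imp_right Or.symm)
    (h.att e ne (by simp) (by simp) cl)
  exact ⟨_, w, e, e1, e2, rfl, fun a ha b hb => k a b (h.tri e e1 e2 ha) (h.tri e e1 e2 hb)⟩

theorem Mx.next [Finite V] (h : Mx H) {D : Set V} {u v w x : V} (f : Fac H D u v w) (hx : x ∉ D) :
    ∃ E y, y ∉ D ∧ Fac H E u v y := by
  obtain ⟨e, e1, e2, rfl, cn⟩ := f
  obtain ⟨-, -, ⟨a, a1, a2⟩, b, b1, b2⟩ := h.tri e e1 e2 hx
  obtain ⟨y, y1, f1, f2, k⟩ := h.face e (K := {w, u, v}ᶜ) (Q := {w}) cn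
    (Cn.of_root w (by rintro _ rfl; exact R.refl)) (by simp) (by simp) e1.ne e2.ne
    (fun a ha k => ha (Or.inl k))
    (fun a _ b _ => by
      simp only [Set.mem_compl_iff, Set.mem_insert_iff, Set.mem_singleton_iff]; tauto)
    ⟨a, a1.mem hx, a2⟩ ⟨b, b1.mem hx, b2⟩
  exact ⟨_, y, y1, e, f1, f2, rfl, fun a ha b hb => k a b (h.tri e f1 f2 ha) (h.tri e f1 f2 hb)⟩

theorem exists_mx [Finite V] {G : SimpleGraph V} (h : HT G) (T : Tree G) : ∃ H, G ≤ H ∧ Mx H := by
  obtain ⟨H, ⟨h1, h2⟩, m⟩ := (Set.toFinite {H : SimpleGraph V | HT H ∧ G ≤ H}).exists_maximal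
    ⟨G, h, le_rfl⟩
  refine ⟨H, h2, h1, fun p q n k => m (y := H ⊔ edge p q) ⟨k, h2.trans le_sup_left⟩ le_sup_left
    (Or.inr ((edge_adj _ _ _ _).2 ⟨Or.inl ⟨rfl, rfl⟩, n⟩)), fun a b => ?_⟩
  have := fun a => (Tree.up (T := T) (S := Set.univ) (Tree.root_mem a) fun _ _ _ => trivial).mono
    le_rfl h2
  exact (this a).trans (this b).symm

end Pool.Agent.Lib.MP_ad48ef_co
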