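import Pool.Agent.Shared.Planar.Tripod

/-!
# Paths in a rooted tree
-/

namespace Pool.Agent.Lib.MP_ad48ef_co

open Pool.Agent.Shared.Planar Tree

variable {V : Type*} {G : SimpleGraph V}

/-- The vertices of the tree path from `a` to `b`. -/
def Cp (T : Tree G) (a b : V) : Set V :=
  {v | (v ∈ T.P a ∨ v ∈ T.P b) ∧ ∀ y, y ∈ T.P a → y ∈ T.P b → y ∈ T.P v}

/-- Tree edges. -/
def TE (T : Tree G) (p q : V) : Prop := (p ≠ T.root ∧ T.par p = q) ∨ (q ≠ T.root ∧ T.par q = p)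

variable {T : Tree G} {a b u v w m : V}

theorem TE.adj (h : TE T a b) : G.Adj a b := by
  rcases h with ⟨h, rfl⟩ | ⟨h, rfl⟩
  exacts [T.adj a h, (T.adj b h).symm]

theorem TE.symm (h : TE T a b) : TE T b a := Or.symm h

theorem par_mem (a : V) : T.par a ∈ T.P a := ⟨1, rfl⟩

theorem mem_par (h : v ∈ T.P a) (n : v ≠ a) : v ∈ T.P (T.par a) := by
  obtain ⟨_ | k, rfl⟩ := h
  exacts [absurd rfl n, ⟨k, rfl⟩]

theorem not_par (h : a ≠ T.root) : a ∉ T.P (T.par a) := fun k => by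
  have := T.lt a h
  rcases eq_or_lt k with e | e
  · rw [← e] at this; omega
  · omega

theorem exists_child (h : m ∈ T.P a) (n : a ≠ m) : ∃ u ∈ T.P a, u ≠ T.root ∧ T.par u = m := by
  obtain ⟨k, h⟩ := h
  induction k generalizing a with
  | zero => exact absurd h n
  | succ k ih =>
    by_cases e : T.par a = m
    · exact ⟨a, self a, fun r => n (by rw [← e, r, T.par_root]), e⟩
    · obtain ⟨u, u1, u2⟩ := ih e h
      exact ⟨u, Tree.trans (par_mem a) u1, u2⟩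

theorem Cp_comm (a b : V) : Cp T a b = Cp T b a :=
  Set.ext fun _ => ⟨fun h => ⟨h.1.symm, fun y p q => h.2 y q p⟩,
    fun h => ⟨h.1.symm, fun y p q => h.2 y q p⟩⟩

theorem Cp_left (a b : V) : a ∈ Cp T a b := ⟨Or.inl (self a), fun _ p _ => p⟩

theorem Cp_right (a b : V) : b ∈ Cp T a b := ⟨Or.inr (self b), fun _ _ p => p⟩

theorem Cp_self (h : v ∈ Cp T a a) : v = a :=
  antisymm (h.1.elim id id) (h.2 a (self a) (self a))

theorem Cp_par (h : a ∉ T.P b) : a ≠ T.root ∧ T.par a ∈ Cp T a b ∧ Cp T (T.par a) b ⊆ Cp T a b :=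
  ⟨fun e => h (e ▸ root_mem b), ⟨Or.inl (par_mem a), fun y p q => mem_par p fun e => h (e ▸ q)⟩,
    fun _ k => ⟨k.1.imp_left (trans (par_mem a)),
      fun y p q => k.2 y (mem_par p fun e => h (e ▸ q)) q⟩⟩

theorem Cp_ind (ρ : V → V → Prop) (S : Set V) (r : ∀ a, ρ a a) (s : ∀ a b, ρ a b → ρ b a)
    (t : ∀ a b c, ρ a b → ρ b c → ρ a c)
    (e : ∀ a, a ≠ T.root → a ∈ S → T.par a ∈ S → ρ a (T.par a)) (h : Cp T a b ⊆ S) : ρ a b := by
  induction hn : T.dep a + T.dep b using Nat.strong_induction_on generalizing a b with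
  | _ n ih =>
  by_cases m : a ∈ T.P b
  · by_cases k : b ∈ T.P a
    · exact antisymm m k ▸ r a
    obtain ⟨k1, k2, k3⟩ := Cp_par k
    rw [Cp_comm] at h
    have := T.lt b k1
    exact s _ _ (t _ _ _ (e b k1 (h (Cp_left b a)) (h k2))
      (ih _ (by omega) (k3.trans h) rfl))
  · obtain ⟨k1, k2, k3⟩ := Cp_par m
    have := T.lt a k1
    exact t _ _ _ (e a k1 (h (Cp_left a b)) (h k2)) (ih _ (by omega) (k3.trans h) rfl)

theorem Cp_edge (h : TE T a b) (k : v ∈ Cp T a b) : v = a ∨ v = b := by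
  wlog m : T.par a = b generalizing a b
  · exact (this h.symm (Cp_comm a b ▸ k) (h.resolve_left fun e => m e.2).2).symm
  subst m
  by_cases e : v = a
  · exact Or.inl e
  exact Or.inr (antisymm (k.1.elim (fun p => mem_par p e) id) (k.2 _ (par_mem a) (self _)))

theorem Cp_tri (h : u ∈ Cp T a w) (b : V) : u ∈ Cp T a b ∨ u ∈ Cp T b w := by
  wlog m : u ∈ T.P a generalizing a w
  · rw [Cp_comm a b, Cp_comm b w]
    exact (this (Cp_comm a w ▸ h) (h.1.resolve_left m)).symm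
  by_contra n
  obtain ⟨y, y1, y2, y3⟩ : ∃ y, y ∈ T.P a ∧ y ∈ T.P b ∧ y ∉ T.P u := by
    by_contra k
    exact n (Or.inl ⟨Or.inl m, fun y p q => by_contra fun r => k ⟨y, p, q, r⟩⟩)
  obtain ⟨z, z1, z2, z3⟩ : ∃ y, y ∈ T.P b ∧ y ∈ T.P w ∧ y ∉ T.P u := by
    by_contra k
    exact n (Or.inr ⟨Or.inl (trans y2 ((total m y1).resolve_right y3)),
      fun y p q => by_contra fun r => k ⟨y, p, q, r⟩⟩)
  rcases total y2 z1 with k | k
  exacts [y3 (h.2 y y1 (trans z2 k)), z3 (h.2 z (trans y1 k) z2)]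

theorem Cp_disj (h : u ∈ Cp T a w) (n : u ∉ Cp T a b) (k : v ∈ Cp T u w) : v ∉ Cp T a b := by
  intro l
  by_cases m : u ∈ T.P w
  · have v1 : v ∈ T.P w := k.1.elim (trans m) id
    have v2 : u ∈ T.P v := k.2 u (self u) m
    refine n ⟨l.1.imp (fun p => trans p v2) fun p => trans p v2, fun y p q => ?_⟩
    exact h.2 y p (trans v1 (l.2 y p q))
  · have u1 := h.1.resolve_right m
    obtain ⟨y, y1, y2, y3⟩ : ∃ y, y ∈ T.P a ∧ y ∈ T.P b ∧ y ∉ T.P u := by
      by_contra k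
      exact n ⟨Or.inl u1, fun y p q => by_contra fun r => k ⟨y, p, q, r⟩⟩
    have := trans (l.2 y y1 y2) ((total u1 y1).resolve_right y3)
    rcases k.1 with p | p
    exacts [n (antisymm this p ▸ l), m (trans p this)]

theorem Cp_med (h1 : u ∈ Cp T a b) (h2 : u ∈ Cp T b w) (h3 : u ∈ Cp T w a) (k1 : v ∈ Cp T a b)
    (k2 : v ∈ Cp T b w) (k3 : v ∈ Cp T w a) : u = v := by
  have key : ∀ u v, u ∈ Cp T a b → u ∈ Cp T b w → u ∈ Cp T w a → v ∈ Cp T a b → v ∈ Cp T b w →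
      v ∈ Cp T w a → u ∈ T.P v := by
    intro u v h1 h2 h3 k1 k2 k3
    rcases h1.1 with p | p <;> rcases h2.1 with q | q
    exacts [k1.2 u p q, k3.2 u q p, h3.1.elim (k2.2 u p) fun r => k1.2 u r p, k2.2 u p q]
  exact antisymm (key u v h1 h2 h3 k1 k2 k3) (key v u k1 k2 k3 h1 h2 h3)

theorem Cp_nbr (h : m ∈ Cp T a b) (n : a ≠ b) : ∃ y ∈ Cp T a b, G.Adj m y := by
  have k1 : ∀ a b, m ∈ Cp T a b → m ∉ T.P b → ∃ y ∈ Cp T a b, G.Adj m y := fun a b h k =>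
    ⟨T.par m, ⟨Or.inl (trans (h.1.resolve_right k) (par_mem m)), fun y p q =>
      mem_par (h.2 y p q) fun e => k (e ▸ q)⟩, T.adj m fun e => k (e ▸ root_mem b)⟩
  have k2 : ∀ a b, m ∈ Cp T a b → m ∈ T.P a → a ≠ m → ∃ y ∈ Cp T a b, G.Adj m y := by
    intro a b h k n
    obtain ⟨u, u1, u2, rfl⟩ := exists_child k n
    exact ⟨u, ⟨Or.inl u1, fun y p q => trans (par_mem u) (h.2 y p q)⟩, (T.adj u u2).symm⟩
  by_cases p : m ∈ T.P b
  · by_cases q : m ∈ T.P a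
    · by_cases r : a = m
      · exact Cp_comm a b ▸ k2 b a (Cp_comm a b ▸ h) p fun e => n (r.trans e.symm)
      · exact k2 a b h q r
    · exact Cp_comm a b ▸ k1 b a (Cp_comm a b ▸ h) q
  · exact k1 a b h p

theorem Cp_step (e : TE T u v) (n : v ∉ Cp T a u) : Cp T a v = insert v (Cp T a u) := by
  have m : u ∈ Cp T a v := by
    rcases e with ⟨e, rfl⟩ | ⟨e, rfl⟩
    · by_contra k
      refine n (Cp_comm u a ▸ (Cp_par fun p => k ⟨Or.inl p, fun y _ q => ?_⟩).2.1)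
      exact trans (par_mem u) q
    · by_contra k
      refine k (Cp_comm v a ▸ (Cp_par fun p => n ⟨Or.inl p, fun y _ q => ?_⟩).2.1)
      exact trans (par_mem v) q
  refine Set.ext fun x => ⟨fun h => ?_, ?_⟩
  · rcases Cp_tri h u with k | k
    · exact Or.inr k
    · rcases Cp_edge e k with rfl | rfl
      exacts [Or.inr (Cp_right _ _), Or.inl rfl]
  · rintro (rfl | h)
    · exact Cp_right _ _
    · rcases Cp_tri h v with k | k
      · exact k
      · rcases Cp_edge e.symm k with rfl | rfl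
        exacts [Cp_right _ _, m]

theorem Cp_leg (q : ℕ → V) (n : ℕ) (e : ∀ k, k < n → TE T (q k) (q (k + 1)))
    (h : ∀ k, 0 < k → k ≤ n → q k ∉ Cp T a (q 0))
    (inj : ∀ j k, j < k → k ≤ n → q j ≠ q k) (x : V) :
    x ∈ Cp T a (q n) ↔ x ∈ Cp T a (q 0) ∨ ∃ k, k ≤ n ∧ x = q k := by
  induction n generalizing x with
  | zero => exact ⟨Or.inl, fun k => k.elim id fun ⟨k, p, r⟩ => by
      rw [r, Nat.le_zero.1 p]; exact Cp_right _ _⟩
  | succ n ih =>
    replace ih := ih (fun k p => e k (by omega)) (fun k p r => h k p (by omega))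
      fun j k p r => inj j k p (by omega)
    rw [Cp_step (e n (by omega)) fun k => ((ih _).1 k).elim (h _ (by omega) le_rfl)
      fun ⟨j, p, r⟩ => inj j _ (by omega) le_rfl r.symm, Set.mem_insert_iff, ih]
    refine ⟨?_, ?_⟩
    · rintro (rfl | k | ⟨k, p, r⟩)
      exacts [Or.inr ⟨_, le_rfl, rfl⟩, Or.inl k, Or.inr ⟨k, by omega, r⟩]
    · rintro (k | ⟨k, p, r⟩)
      · exact Or.inr (Or.inl k)
      · rcases p.eq_or_lt with rfl | p
        exacts [Or.inl r, Or.inr (Or.inr ⟨k, by omega, r⟩)]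

/-- The path between the ends of two legs of a tripod. -/
theorem Cp_legs (Q : Fin 3 → ℕ → V) (l : Fin 3 → ℕ) (top : ∀ i j, Q i 0 = Q j 0)
    (adj : ∀ i k, k < l i → TE T (Q i k) (Q i (k + 1)))
    (inj : ∀ i j k m, k ≤ l i → m ≤ l j → Q i k = Q j m → (i = j ∧ k = m) ∨ (k = 0 ∧ m = 0))
    {i j : Fin 3} (n : i ≠ j) (x : V) : x ∈ Cp T (Q i (l i)) (Q j (l j)) ↔
      (∃ k, k ≤ l i ∧ x = Q i k) ∨ ∃ k, k ≤ l j ∧ x = Q j k := by
  have i1 : ∀ i j k, j < k → k ≤ l i → Q i j ≠ Q i k := fun i j k p r e => by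
    have := inj i i j k (by omega) r e; omega
  have one : ∀ x, x ∈ Cp T (Q i (l i)) (Q j 0) ↔ ∃ k, k ≤ l i ∧ x = Q i k := fun x => by
    rw [Cp_comm, Cp_leg (Q i) (l i) (adj i) (fun k p r s => i1 i 0 k p r
      (by rw [top j i] at s; exact (Cp_self s).symm)) (i1 i), top j i]
    exact ⟨fun k => k.elim (fun k => ⟨0, Nat.zero_le _, Cp_self k⟩) id, Or.inr⟩
  rw [Cp_leg (Q j) (l j) (adj j) (fun k p r s => ?_) (i1 j), one]
  obtain ⟨m, m1, m2⟩ := (one _).1 s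
  have := inj j i k m r m1 m2
  omega

end Pool.Agent.Lib.MP_ad48ef_co
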