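import Pool.Agent.Lib.MP_ad48ef_co.Glue1
import Pool.Agent.Lib.MP_ad48ef_co.Sum3
import Pool.Agent.Lib.MP_ad48ef_co.TreeC

/-!
# Sides of fundamental cycles and the sink of the dual tree
-/

namespace Pool.Agent.Lib.MP_ad48ef_co

open Pool.Agent.Shared.Planar

section
variable {X : Type*} {K : SimpleGraph X} {c : Coc K} {p q r : X} {s s' : X → ZMod 2} {A : Set X}

theorem pot_trans (h : c.Pot p q s A) (k : c.Pot q r s' A) : c.Pot p r (s + s') A :=
  fun a b e ha hb => by
    simp only [Pi.add_apply]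
    linear_combination (norm := (ring_nf; reduce_mod_char)) h a b e ha hb + k a b e ha hb

theorem pot_symm (h : c.Pot p q s A) : c.Pot q p s A := fun a b e ha hb => by
  linear_combination h a b e ha hb

theorem pot_edge (e : K.Adj p q) (hp : p ∉ A) (hq : q ∉ A) : c.Pot p q (c.x p q) A :=
  fun a b k ha hb => c.eqn a b p q k e (fun m => hp (m ▸ ha)) (fun m => hq (m ▸ ha))
    (fun m => hp (m ▸ hb)) fun m => hq (m ▸ hb)

end

variable {V : Type*} {G H : SimpleGraph V}

theorem Fac.swap {D : Set V} {a b w : V} (h : Fac H D a b w) : Fac H D b a w :=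
  ⟨h.1.symm, h.2.2.1, h.2.1, by rw [h.2.2.2.1, Set.pair_comm], h.2.2.2.2⟩

theorem Fac.rot {D : Set V} {a b w : V} (h : Fac H D a b w) : Fac H D b w a :=
  ⟨h.2.2.1, h.1.symm, h.2.1.symm, by
    rw [h.2.2.2.1, Set.insert_comm, Set.pair_comm], h.2.2.2.2⟩

theorem Fac.m1 {D : Set V} {a b w : V} (h : Fac H D a b w) : a ∈ D :=
  h.2.2.2.1 ▸ Or.inr (Or.inl rfl)

theorem Fac.perm {D : Set V} {a b w p q s : V} (h : Fac H D a b w) (k : Fac H D p q s) :
    (s = w ∧ (p = a ∧ q = b ∨ p = b ∧ q = a)) ∨ (s = a ∧ (p = b ∧ q = w ∨ p = w ∧ q = b)) ∨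
      (s = b ∧ (p = w ∧ q = a ∨ p = a ∧ q = w)) := by
  have h1 := k.m1
  have h2 := k.rot.m1
  have h3 := k.rot.rot.m1
  have n1 := k.1.ne
  have n2 := k.2.1.ne
  have n3 := k.2.2.1.ne
  rw [h.2.2.2.1] at h1 h2 h3
  rcases h1 with rfl | rfl | rfl <;> rcases h2 with rfl | rfl | rfl <;>
    rcases h3 with rfl | rfl | rfl <;> simp at n1 n2 n3 ⊢

theorem Fac.avoid {D : Set V} {p q s : V} (l : Fac H D p q s) (a b : V) :
    ∃ v ∈ D, v ≠ a ∧ v ≠ b := by
  by_contra z
  push Not at z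
  have := z _ l.m1
  have := z _ l.rot.m1
  have := z _ l.rot.rot.m1
  have := l.1.ne
  have := l.2.1.ne
  have := l.2.2.1.ne
  by_cases p = a <;> by_cases q = a <;> by_cases s = a <;> simp_all

def Fs (H : SimpleGraph V) (D : Set V) : Prop := ∃ a b w, Fac H D a b w

theorem Fs.ex {D E : Set V} (h : Fs H D) (k : Fs H E) (n : E ≠ D) : ∃ v ∈ E, v ∉ D := by
  have c : ∀ {D}, Fs H D → D.ncard = 3 := fun ⟨a, b, w, f⟩ =>
    Set.ncard_eq_three.2 ⟨w, a, b, f.2.1.ne', f.2.2.1.ne', f.1.ne, f.2.2.2.1⟩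
  by_contra m
  push Not at m
  exact n (Set.eq_of_subset_of_ncard_le m (by rw [c h, c k])
    (Set.finite_of_ncard_ne_zero (by rw [c h]; omega)))

/-- A new vertex in each facial triangle of a family. -/
def apx (H : SimpleGraph V) (S : Set (Set V)) : SimpleGraph (V ⊕ Set V) where
  Adj
    | .inl a, .inl b => H.Adj a b
    | .inl a, .inr D => D ∈ S ∧ a ∈ D
    | .inr D, .inl a => D ∈ S ∧ a ∈ D
    | .inr _, .inr _ => False
  symm := ⟨by rintro (a | a) (b | b) h <;> first | exact h | exact h.symm⟩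
  loopless := ⟨by rintro (a | a) h; exacts [H.irrefl h, h]⟩

theorem ht_apx [Finite V] [Nonempty V] (h : HT H) (S : Set (Set V)) (hS : ∀ D ∈ S, Fs H D) :
    HT (apx H S) := by
  classical
  induction S, S.toFinite using Set.Finite.induction_on with
  | empty =>
    refine h.comap_on (Sum.elim id fun _ => Classical.arbitrary V) (Set.range Sum.inl) ?_ ?_
    · rintro _ ⟨a, rfl⟩ _ ⟨b, rfl⟩ (rfl : a = b); rfl
    · rintro (a | a) (b | b) e
      exacts [⟨⟨a, rfl⟩, e⟩, e.1.elim, e.1.elim, e.elim]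
  | @insert D S hi _ ih =>
    obtain ⟨a, b, w, f⟩ := hS D (Or.inl rfl)
    have o : ∀ v, v ∉ D → Sum.inl v ∈ ({.inl w, .inl a, .inl b}ᶜ : Set (V ⊕ Set V)) := by
      intro v m
      rw [f.2.2.2.1] at m
      simpa using m
    have key : ∀ x, Tri (apx H S) (.inl w) (.inl a) (.inl b) x →
        ∃ v, v ∉ D ∧ R (apx H S) {.inl w, .inl a, .inl b}ᶜ x (.inl v) := by
      rintro (v | E) ⟨k, ⟨y, y1, y2⟩, -⟩
      · refine ⟨v, fun m => k ?_, R.refl⟩
        rw [f.2.2.2.1] at m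
        simpa using m
      have m : E ∈ S := by
        by_contra m
        obtain rfl : y = .inr E := y1.ind (· = .inr E) rfl (by
          rintro _ (q | q) _ _ e rfl
          exacts [absurd e.1 m, e.elim])
        exact m y2.1
      obtain ⟨v, v1, v2⟩ := Fs.ex ⟨a, b, w, f⟩ (hS E (Or.inr m)) fun e => hi (e ▸ m)
      exact ⟨v, v2, R.single k (o v v2) ⟨m, v1⟩⟩
    have := apex_of_facial (ih fun j hj => hS j (Or.inr hj)) (w := .inl w) (u := .inl a)
      (v := .inl b) f.1 f.2.1 f.2.2.1 fun x y hx hy => by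
        obtain ⟨u, u1, u2⟩ := key x hx
        obtain ⟨v, v1, v2⟩ := key y hy
        exact u2.trans (((f.2.2.2.2 u u1 v v1).map Sum.inl o fun _ _ e => e).trans v2.symm)
    refine this.comap (fun x => if x = .inr D then none else some x) (fun x y e => ?_) ?_
    · dsimp only at e
      split_ifs at e with m n
      exacts [m.trans n.symm, Option.some.inj e]
    have key : ∀ v E, (apx H (insert D S)).Adj (.inl v) (.inr E) →
        (apex (apx H S) {.inl w, .inl a, .inl b}).Adj (some (.inl v))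
          (if (Sum.inr E : V ⊕ Set V) = .inr D then none else some (.inr E)) := by
      rintro v E ⟨rfl | m, e⟩
      · rw [if_pos rfl]
        rw [f.2.2.2.1] at e
        rcases e with rfl | rfl | rfl
        exacts [Or.inl rfl, Or.inr (Or.inl rfl), Or.inr (Or.inr rfl)]
      · rw [if_neg fun k : (Sum.inr E : V ⊕ Set V) = .inr D => hi (Sum.inr.inj k ▸ m)]
        exact ⟨m, e⟩
    rintro (a | a) (b | b) e
    exacts [e, key a b e, (key b a e).symm, e.elim]

abbrev XX (V : Type*) := (V ⊕ Set V) ⊕ (V ⊕ Set V) × (V ⊕ Set V)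

/-- The tree, with all other edges subdivided and a vertex in each face. -/
def KK (H : SimpleGraph V) (T : Tree G) : SimpleGraph (XX V) where
  Adj
    | .inl x, .inl y => ∃ a b, x = .inl a ∧ y = .inl b ∧ TE T a b
    | .inl x, .inr e => (apx H {D | Fs H D}).Adj e.1 e.2 ∧ (x = e.1 ∨ x = e.2)
    | .inr e, .inl x => (apx H {D | Fs H D}).Adj e.1 e.2 ∧ (x = e.1 ∨ x = e.2)
    | .inr _, .inr _ => False
  symm := ⟨by
    rintro (a | a) (b | b) h
    exacts [let ⟨p, q, r, s, t⟩ := h; ⟨q, p, s, r, t.symm⟩, h, h, h]⟩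
  loopless := ⟨by
    rintro (a | a) h
    exacts [let ⟨p, q, r, s, t⟩ := h; t.adj.ne (Sum.inl.inj (r.symm.trans s)), h]⟩

theorem ht_KK [Finite V] (h : HT H) (le : G ≤ H) (T : Tree G) : HT (KK H T) := by
  haveI : Nonempty V := ⟨T.root⟩
  refine (ht_par (ht_apx h {D | Fs H D} fun _ k => k) Prod.fst Prod.snd
    {e | (apx H {D | Fs H D}).Adj e.1 e.2} fun _ k => k).mono ?_
  rintro (a | a) (b | b) e
  · obtain ⟨p, q, rfl, rfl, t⟩ := e
    exact le t.adj
  exacts [e, e, e]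

abbrev io (a : V) : XX V := .inl (.inl a)
abbrev zz (D : Set V) : XX V := .inl (.inr D)
abbrev ga (D : Set V) (a : V) : XX V := .inr (.inl a, .inr D)
abbrev gg (a b : V) : XX V := .inr (.inl a, .inl b)

variable {T : Tree G} (c : Coc (KK H T))

open Classical in
/-- The sum of the cocycle along the path to the root. -/
noncomputable def FF (a : V) : XX V → ZMod 2 :=
  if h : a = T.root then 0 else c.x (io a) (io (T.par a)) + FF (T.par a)
termination_by T.dep a
decreasing_by exact T.lt a h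

theorem FF_par {a : V} (h : a ≠ T.root) : FF c a + FF c (T.par a) = c.x (io a) (io (T.par a)) := by
  rw [FF, dif_neg h]
  funext v
  simp only [Pi.add_apply]
  ring_nf; reduce_mod_char

theorem potF {a b : V} {A : Set (XX V)} (h : ∀ v ∈ Cp T a b, io v ∉ A) :
    c.Pot (io a) (io b) (FF c a + FF c b) A := by
  refine Cp_ind (fun a b => c.Pot (io a) (io b) (FF c a + FF c b) A) {v | io v ∉ A}
    (fun a p q _ _ _ => ?_) (fun a b k => add_comm (FF c a) _ ▸ pot_symm k)
    (fun a b d k l p q e hp hq => ?_) (fun a k p q => ?_) h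
  · simp only [Pi.add_apply]
    ring_nf; reduce_mod_char
  · have := pot_trans k l p q e hp hq
    simp only [Pi.add_apply] at this ⊢
    linear_combination (norm := (ring_nf; reduce_mod_char)) this
  · rw [FF_par c k]
    exact pot_edge ⟨a, _, rfl, rfl, Or.inl ⟨k, rfl⟩⟩ p q

variable {D E : Set V} {a b w u v : V} {p q : XX V}

theorem a1 (f : Fs H D) (m : a ∈ D) : (KK H T).Adj (io a) (ga D a) := ⟨⟨f, m⟩, Or.inl rfl⟩
theorem a2 (f : Fs H D) (m : a ∈ D) : (KK H T).Adj (ga D a) (zz D) := ⟨⟨f, m⟩, Or.inr rfl⟩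
theorem a3 (e : H.Adj u v) : (KK H T).Adj (io u) (gg u v) := ⟨e, Or.inl rfl⟩
theorem a4 (e : H.Adj u v) : (KK H T).Adj (gg u v) (io v) := ⟨e, Or.inr rfl⟩

def la (D : Set V) (a : V) : XX V → ZMod 2 := c.x (io a) (ga D a) + c.x (ga D a) (zz D)

theorem potL (f : Fs H D) (m : a ∈ D) {A : Set (XX V)} (h1 : io a ∉ A) (h2 : ga D a ∉ A)
    (h3 : zz D ∉ A) : c.Pot (io a) (zz D) (la c D a) A :=
  pot_trans (pot_edge (a1 f m) h1 h2) (pot_edge (a2 f m) h2 h3)

/-- The side function of the cycle through the tree and the face `D`. -/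
noncomputable def ph (D : Set V) (a b : V) (p : XX V) : ZMod 2 :=
  FF c a p + FF c b p + la c D a p + la c D b p

def Off (T : Tree G) (D : Set V) (a b : V) (p : XX V) : Prop :=
  (∀ v ∈ Cp T a b, p ≠ io v) ∧ p ≠ ga D a ∧ p ≠ ga D b ∧ p ≠ zz D

theorem off_io (h : v ∉ Cp T a b) : Off T D a b (io v) :=
  ⟨fun _ k e => h (by cases e; exact k), by simp, by simp, by simp⟩
theorem off_gg : Off T D a b (gg u v) := ⟨by simp, by simp, by simp, by simp⟩
theorem off_ga (h : E ≠ D ∨ (v ≠ a ∧ v ≠ b)) : Off T D a b (ga E v) :=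
  ⟨by simp, by simp; tauto, by simp; tauto, by simp⟩
theorem off_zz (h : E ≠ D) : Off T D a b (zz E) := ⟨by simp, by simp, by simp, by simpa using h⟩

theorem Fac.fs (f : Fac H D a b w) : Fs H D := ⟨a, b, w, f⟩

theorem ph_edge (f : Fac H D a b w) (e : (KK H T).Adj p q) (hp : Off T D a b p)
    (hq : Off T D a b q) : ph c D a b p = ph c D a b q := by
  have := pot_trans (pot_trans (potF c (A := {p | Off T D a b p}) fun v m k => k.1 v m rfl)
    (potL c f.fs f.rot.m1 (fun k => k.1 b (Cp_right a b) rfl) (fun k => k.2.2.1 rfl)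
      fun k => k.2.2.2 rfl)) (pot_symm (potL c f.fs f.m1 (fun k => k.1 a (Cp_left a b) rfl)
      (fun k => k.2.1 rfl) fun k => k.2.2.2 rfl)) p q e hp hq
  simp only [Pi.add_apply] at this
  simp only [ph]
  linear_combination (norm := (ring_nf; reduce_mod_char)) this

theorem ph_H (f : Fac H D a b w) (e : H.Adj u v) (hu : u ∉ Cp T a b) (hv : v ∉ Cp T a b) :
    ph c D a b (io u) = ph c D a b (io v) :=
  (ph_edge c f (a3 e) (off_io hu) off_gg).trans (ph_edge c f (a4 e) off_gg (off_io hv))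

/-- `be D a b w p = 1` says that `p` is beyond the side `ab` of the face `D`. -/
noncomputable def be (D : Set V) (a b w : V) (p : XX V) : ZMod 2 :=
  ph c D a b p + ph c D a b (ga D w)

theorem be_comm : be c D a b w p = be c D b a w p := by simp only [be, ph]; ring

theorem be_edge (f : Fac H D a b w) (e : (KK H T).Adj p q) (hp : Off T D a b p)
    (hq : Off T D a b q) : be c D a b w p = be c D a b w q := by
  simp only [be, ph_edge c f e hp hq]

theorem be_sum (f : Fac H D a b w) (p : XX V) :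
    be c D a b w p + be c D b w a p + be c D w a b p = 1 := by
  have k : ∀ u v, u ∈ D → v ∈ D → u ≠ v → _ := fun u v hu hv n =>
    pot_trans (potF c (a := a) (b := u) (A := {ga D v, zz D}) (by simp))
      (pot_edge (a1 f.fs hu) (by simp) (by simpa using n)) _ _ (a2 f.fs hv) (by simp) (by simp)
  have m1 := f.m1
  have m2 := f.rot.m1
  have m3 := f.rot.rot.m1
  have n1 := f.1.ne
  have n2 := f.2.1.ne
  have n3 := f.2.2.1.ne
  simp only [Pi.add_apply] at k
  simp only [be, ph, la, Pi.add_apply]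
  linear_combination (norm := (ring_nf; reduce_mod_char)) k a b m1 m2 n1 + k b a m2 m1 n1.symm +
    k a w m1 m3 n2 + k w a m3 m1 n2.symm + k b w m2 m3 n3 + k w b m3 m2 n3.symm +
    c.anti (ga D a) (ga D b) (by simpa using n1) + c.anti (ga D a) (ga D w) (by simpa using n2) +
    c.anti (ga D b) (ga D w) (by simpa using n3)

theorem be_w (f : Fac H D a b w) (h : w ∉ Cp T a b) (k : ph c D a b p = ph c D a b (io w)) :
    be c D a b w p = 0 := by
  rw [be, k, ph_edge c f (a1 f.fs f.rot.rot.m1) (off_io h)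
    (off_ga (Or.inr ⟨f.2.1.ne', f.2.2.1.ne'⟩))]
  ring_nf; reduce_mod_char

theorem be_on (le : G ≤ H) (f : Fac H D a b w) (h : u ∈ Cp T b w ∨ u ∈ Cp T w a)
    (n : u ∉ Cp T a b) : be c D a b w (io u) = 0 := by
  have s : Cp T u w ⊆ (Cp T a b)ᶜ := fun v k => by
    rcases h with h | h
    exacts [Cp_comm b a ▸ Cp_disj h (Cp_comm a b ▸ n) k, Cp_disj (Cp_comm w a ▸ h) n k]
  exact be_w c f (s (Cp_right u w)) (Cp_ind (fun p q => ph c D a b (io p) = ph c D a b (io q)) _
    (fun _ => rfl) (fun _ _ => Eq.symm) (fun _ _ _ => Eq.trans)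
    (fun p k h1 h2 => ph_H c f (le (T.adj p k)) h1 h2) s)

theorem be_tree [Finite V] (h : Mx H) (f : Fac H D a b w) (e : TE T a b) (n : v ∉ Cp T a b) :
    be c D a b w (io v) = 0 := by
  have o : ∀ p ∈ ({a, b}ᶜ : Set V), p ∉ Cp T a b := fun p k m => k (Cp_edge e m)
  have hw : w ∈ ({a, b}ᶜ : Set V) := by simp [f.2.1.ne', f.2.2.1.ne']
  refine be_w c f (o w hw) ((h.two f.1 w hw v ?_).ind
    (fun p => ph c D a b (io p) = ph c D a b (io w)) rfl
    fun p q hp hq k m => (ph_H c f k.symm (o q hq) (o p hp)).trans m)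
  rintro (rfl | rfl)
  exacts [n (Cp_left _ _), n (Cp_right _ _)]

def Bad (D : Set V) (a b w : V) (p : XX V) : Prop :=
  (Off T D a b p ∧ Off T D b w p ∧ Off T D w a p) ∧
    be c D a b w p = 1 ∧ be c D b w a p = 1 ∧ be c D w a b p = 1

theorem bad_edge (f : Fac H D a b w) (e : (KK H T).Adj p q) (h : Bad c D a b w p)
    (o : Off T D a b q ∧ Off T D b w q ∧ Off T D w a q) : Bad c D a b w q :=
  ⟨o, be_edge c f e h.1.1 o.1 ▸ h.2.1, be_edge c f.rot e h.1.2.1 o.2.1 ▸ h.2.2.1,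
    be_edge c f.rot.rot e h.1.2.2 o.2.2 ▸ h.2.2.2⟩

theorem bad_io (le : G ≤ H) (f : Fac H D a b w) (e : (KK H T).Adj p (io u)) (h : Bad c D a b w p)
    (n : ¬ (u ∈ Cp T a b ∧ u ∈ Cp T b w ∧ u ∈ Cp T w a)) : Bad c D a b w (io u) := by
  have k : ∀ a b w, Fac H D a b w → Off T D a b p → be c D a b w p = 1 → u ∉ Cp T a b →
      u ∉ Cp T b w ∧ u ∉ Cp T w a := by
    intro a b w f o h n
    rw [← not_or]
    intro m
    rw [be_edge c f e o (off_io n), be_on c le f m n] at h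
    exact absurd h (by decide)
  have k1 := k a b w f h.1.1 h.2.1
  have k2 := k b w a f.rot h.1.2.1 h.2.2.1
  have k3 := k w a b f.rot.rot h.1.2.2 h.2.2.2
  exact bad_edge c f e h ⟨off_io (by tauto), off_io (by tauto), off_io (by tauto)⟩

theorem nb_io [Finite V] (h : Mx H) (le : G ≤ H) (f : Fac H D a b w) : ¬ Bad c D a b w (io v) := by
  intro k
  obtain ⟨m, m1, m2⟩ : ∃ m ∈ Cp T a b, ∀ u, u ∈ Cp T a b ∧ u ∈ Cp T b w ∧ u ∈ Cp T w a → u = m := by
    by_cases n : ∃ u, u ∈ Cp T a b ∧ u ∈ Cp T b w ∧ u ∈ Cp T w a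
    · obtain ⟨m, n⟩ := n
      exact ⟨m, n.1, fun u l => Cp_med l.1 l.2.1 l.2.2 n.1 n.2.1 n.2.2⟩
    · exact ⟨a, Cp_left a b, fun u l => absurd ⟨u, l⟩ n⟩
  obtain ⟨y, y1, y2⟩ := Cp_nbr m1 f.1.ne
  have key : ∀ d ∈ ({m, y}ᶜ : Set V), Bad c D a b w (io d) := fun d hd => by
    refine (h.two (le y2) v ?_ d hd).ind (fun p => Bad c D a b w (io p)) k fun p q _ hq e l =>
      bad_io c le f (a4 e) (bad_edge c f (a3 e) l ⟨off_gg, off_gg, off_gg⟩)
        fun n => hq (Or.inl (m2 q n))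
    rintro (rfl | rfl)
    exacts [k.1.1.1 _ m1 rfl, k.1.1.1 _ y1 rfl]
  obtain ⟨d, d1, d2, d3⟩ := f.avoid m y
  have := (key d (by simp [d2, d3])).1
  rw [f.2.2.2.1] at d1
  rcases d1 with rfl | rfl | rfl
  exacts [this.2.1.1 _ (Cp_right _ _) rfl, this.1.1 _ (Cp_left _ _) rfl,
    this.1.1 _ (Cp_right _ _) rfl]

theorem nb_two [Finite V] (h : Mx H) (le : G ≤ H) (f : Fac H D a b w) (n : u ≠ v)
    (k : ∀ y, y = u ∨ y = v → ∃ q, (KK H T).Adj q (io y) ∧ Bad c D a b w q) : False := by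
  by_cases m : u ∈ Cp T a b ∧ u ∈ Cp T b w ∧ u ∈ Cp T w a
  · obtain ⟨q, q1, q2⟩ := k v (Or.inr rfl)
    exact nb_io c h le f (bad_io c le f q1 q2 fun l =>
      n (Cp_med m.1 m.2.1 m.2.2 l.1 l.2.1 l.2.2))
  · obtain ⟨q, q1, q2⟩ := k u (Or.inl rfl)
    exact nb_io c h le f (bad_io c le f q1 q2 m)

theorem nb_zz [Finite V] (h : Mx H) (le : G ≤ H) (f : Fac H D a b w) (g : Fs H E) (n : E ≠ D) :
    ¬ (be c D a b w (zz E) = 1 ∧ be c D b w a (zz E) = 1 ∧ be c D w a b (zz E) = 1) := fun k => by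
  obtain ⟨u, v, y, g⟩ := g
  refine nb_two c h le f g.1.ne fun y hy => ?_
  have m : y ∈ E := by
    rcases hy with rfl | rfl
    exacts [g.m1, g.rot.m1]
  exact ⟨_, (a1 g.fs m).symm, bad_edge c f (a2 g.fs m).symm ⟨⟨off_zz n, off_zz n, off_zz n⟩, k⟩
    ⟨off_ga (Or.inl n), off_ga (Or.inl n), off_ga (Or.inl n)⟩⟩

theorem three {y : V} (f : Fac H D a b w) (g : Fac H E a b y) (n : E ≠ D) (m : a ∉ T.P b)
    (k : T.par a ≠ b) : ph c D a b (zz E) + ph c E a b (zz D) + ph c D a b (io (T.par a)) +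
      ph c E a b (io (T.par a)) = 1 := by
  have r := (Cp_par m).1
  have ab := f.1.ne
  have k1 : ∀ D w, Fac H D a b w → _ := fun D w f =>
    potL c f.fs f.rot.m1 (A := {io a, io (T.par a)}) (by simp [ab.symm, k.symm]) (by simp) (by simp)
      (io a) (io (T.par a)) ⟨a, _, rfl, rfl, Or.inl ⟨r, rfl⟩⟩ (by simp) (by simp)
  have k2 : ∀ D w, Fac H D a b w → _ ∧ _ := fun D w f =>
    have := potF c (a := T.par a) (b := b) (A := {io a, ga D a, zz D}) fun v l => by
      simpa using fun e : v = a => (e ▸ l.1).elim (not_par r) m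
    ⟨this _ _ (a1 f.fs f.m1) (by simp) (by simp), this _ _ (a2 f.fs f.m1) (by simp) (by simp)⟩
  have k3 : ∀ D E w y, Fac H D a b w → Fac H E a b y → E ≠ D → _ ∧ _ := fun D E w y f g n =>
    have := potL c g.fs g.rot.m1 (A := {io a, ga D a, zz D}) (by simpa using ab.symm)
      (by simp [n]) (by simpa using n)
    ⟨this _ _ (a1 f.fs f.m1) (by simp) (by simp), this _ _ (a2 f.fs f.m1) (by simp) (by simp)⟩
  have z1 := congrFun (FF_par c r) (zz D)
  have z2 := congrFun (FF_par c r) (zz E)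
  simp only [Pi.add_apply, la] at k1 k2 k3 z1 z2
  simp only [ph, la, Pi.add_apply]
  linear_combination (norm := (ring_nf; reduce_mod_char)) k1 D w f + k1 E y g + (k2 D w f).1 +
    (k2 D w f).2 + (k2 E y g).1 + (k2 E y g).2 + (k3 D E w y f g n).1 + (k3 D E w y f g n).2 +
    (k3 E D y w g f n.symm).1 + (k3 E D y w g f n.symm).2 + z1 + z2 +
    c.anti (zz D) (zz E) (by simpa using n.symm) + c.anti (zz D) (io (T.par a)) (by simp) +
    c.anti (zz E) (io (T.par a)) (by simp)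

theorem two_faces [Finite V] (h : Mx H) {y : V} (f : Fac H D a b w) (g : Fac H E a b y) (n : E ≠ D)
    (t : ¬ TE T a b) : be c D a b w (zz E) = 1 ∧
      (∀ v, v ≠ a → v ≠ b → be c D a b w (io v) + be c E a b y (io v) = 1) ∧
      ∀ F, Fs H F → F ≠ D → F ≠ E → be c D a b w (zz F) + be c E a b y (zz F) = 1 := by
  wlog m : a ∉ T.P b generalizing a b
  · simp only [be_comm c (a := a) (b := b)]
    have := this f.swap g.swap (fun k => t k.symm) fun k => f.1.ne (Tree.antisymm (not_not.1 m) k)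
    exact ⟨this.1, fun v p q => this.2.1 v q p, this.2.2⟩
  have r := (Cp_par m).1
  have k : T.par a ≠ b := fun e => t (Or.inl ⟨r, e⟩)
  have i3 := three c f g n m k
  let A : Set (XX V) := {io a, io b, ga D a, ga D b, ga E a, ga E b, zz D, zz E}ᶜ
  have L : ∀ p q, (KK H T).Adj p q → p ∈ A → q ∈ A →
      ph c D a b p + ph c E a b p = ph c D a b q + ph c E a b q := by
    intro p q e hp hq
    have := pot_trans (pot_trans (pot_trans
      (potL c f.fs f.m1 (A := A) (by simp [A]) (by simp [A]) (by simp [A]))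
      (pot_symm (potL c f.fs f.rot.m1 (by simp [A]) (by simp [A]) (by simp [A]))))
      (potL c g.fs g.rot.m1 (by simp [A]) (by simp [A]) (by simp [A])))
      (pot_symm (potL c g.fs g.m1 (by simp [A]) (by simp [A]) (by simp [A]))) p q e hp hq
    simp only [Pi.add_apply] at this
    simp only [ph]
    linear_combination (norm := (ring_nf; reduce_mod_char)) this
  have iA : ∀ v ∈ ({a, b}ᶜ : Set V), io v ∈ A := fun v hv => by simpa [A, not_or] using hv
  have L1 : ∀ v, v ≠ a → v ≠ b → ph c D a b (io v) + ph c E a b (io v) =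
      ph c D a b (io (T.par a)) + ph c E a b (io (T.par a)) := fun v p q =>
    (h.two f.1 (T.par a) (by simp [k, (T.adj a r).ne']) v (by simp [p, q])).ind
      (fun v => ph c D a b (io v) + ph c E a b (io v) = _) rfl fun p q hp hq e l =>
        ((L _ _ (a3 e) (iA p hp) (by simp [A])).trans
          (L _ _ (a4 e) (by simp [A]) (iA q hq))).symm.trans l
  have L2 : ∀ F v, Fs H F → v ∈ F → v ≠ a → v ≠ b → ph c D a b (ga F v) + ph c E a b (ga F v) =
      ph c D a b (io (T.par a)) + ph c E a b (io (T.par a)) := fun F v l m p q =>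
    (L _ _ (a1 l m) (iA v (by simp [p, q])) (by simp [A, p, q])).symm.trans (L1 v p q)
  have j1 := L2 D w f.fs f.rot.rot.m1 f.2.1.ne' f.2.2.1.ne'
  have j2 := L2 E y g.fs g.rot.rot.m1 g.2.1.ne' g.2.2.1.ne'
  have j3 := ph_edge c g (a2 f.fs f.rot.rot.m1) (off_ga (Or.inl n.symm)) (off_zz n.symm)
  have j4 := ph_edge c f (a2 g.fs g.rot.rot.m1) (off_ga (Or.inl n)) (off_zz n)
  simp only [be]
  refine ⟨?_, fun v p q => ?_, fun F ⟨p, q, s, l⟩ n1 n2 => ?_⟩
  · linear_combination (norm := (ring_nf; reduce_mod_char)) i3 + j1 + j3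
  · linear_combination (norm := (ring_nf; reduce_mod_char)) i3 + j1 + j2 + j3 + j4 + L1 v p q
  obtain ⟨v, v1, v2, v3⟩ := l.avoid a b
  linear_combination (norm := (ring_nf; reduce_mod_char)) i3 + j1 + j2 + j3 + j4 +
    L2 F v l.fs v1 v2 v3 + L _ _ (a2 l.fs v1) (by simp [A, n1, n2]) (by simp [A, n1, n2])

/-- The two sides of the fundamental cycle. -/
def Sd (D : Set V) (a b w : V) (i : ZMod 2) : Set V :=
  {v | v ∉ Cp T a b ∧ be c D a b w (io v) = i}

theorem sink_face [Finite V] (h : Mx H) (le : G ≤ H) (μ : Set V → Set V → ℕ)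
    (μ0 : ∀ C S, μ C ∅ ≤ μ C S) {x : V} (e : H.Adj u v) (h1 : x ≠ u) (h2 : x ≠ v) :
    ∃ D, Fs H D ∧ ∀ a b w, Fac H D a b w →
      μ (Cp T a b) (Sd c D a b w 1) ≤ μ (Cp T a b) (Sd c D a b w 0) := by
  by_contra no
  push Not at no
  have main : ∀ n D a b w, Fac H D a b w →
      μ (Cp T a b) (Sd c D a b w 0) < μ (Cp T a b) (Sd c D a b w 1) →
      {E | Fs H E ∧ E ≠ D ∧ be c D a b w (zz E) = 1}.ncard = n → False := by
    intro n
    induction n using Nat.strong_induction_on with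
    | _ n ih =>
    intro D a b w f hv hn
    obtain ⟨x, x1, x2⟩ : (Sd c D a b w 1).Nonempty := Set.nonempty_iff_ne_empty.2 fun k =>
      (μ0 _ _).not_gt (k ▸ hv)
    have t : ¬ TE T a b := fun t => by
      rw [be_tree c h f t x1] at x2
      exact absurd x2 (by decide)
    obtain ⟨E, y, y1, g⟩ := h.next f (x := x) (by
      rw [f.2.2.2.1]
      rintro (rfl | rfl | rfl)
      · rw [be_w c f x1 rfl] at x2
        exact absurd x2 (by decide)
      exacts [x1 (Cp_left _ _), x1 (Cp_right _ _)])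
    have ne : E ≠ D := fun k => y1 (k ▸ g.rot.rot.m1)
    obtain ⟨k1, k2, k3⟩ := two_faces c h f g ne t
    have sw : ∀ i j, i + j = 1 → Sd c E a b y i = Sd c D a b w j := fun i j m =>
      Set.ext fun v => and_congr_right fun l =>
        (by decide : ∀ p q i j : ZMod 2, i + j = 1 → p + q = 1 → (q = i ↔ p = j)) _ _ _ _ m
          (k2 v (fun k => l (k ▸ Cp_left _ _)) fun k => l (k ▸ Cp_right _ _))
    obtain ⟨p, q, s, l, hv'⟩ := no E g.fs
    have ex : s ≠ y → ∀ F, Fs H F → F ≠ E → be c E p q s (zz F) = 1 → be c E a b y (zz F) = 0 := by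
      intro m F F1 F2 F3
      have i1 := be_sum c g (zz F)
      have i2 := nb_zz c h le g F1 F2
      have i3 : be c E b y a (zz F) = 1 ∨ be c E y a b (zz F) = 1 := by
        rcases g.perm l with k | ⟨rfl, ⟨rfl, rfl⟩ | ⟨rfl, rfl⟩⟩ | ⟨rfl, ⟨rfl, rfl⟩ | ⟨rfl, rfl⟩⟩
        exacts [absurd k.1 m, Or.inl F3, Or.inl (be_comm c ▸ F3), Or.inr F3,
          Or.inr (be_comm c ▸ F3)]
      exact (by decide : ∀ p q r : ZMod 2, p + q + r = 1 → ¬ (p = 1 ∧ q = 1 ∧ r = 1) →
        q = 1 ∨ r = 1 → p = 0) _ _ _ i1 i2 i3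
    by_cases m : s = y
    · subst m
      have : μ (Cp T a b) (Sd c E a b s 0) < μ (Cp T a b) (Sd c E a b s 1) := by
        rcases g.perm l with ⟨-, ⟨rfl, rfl⟩ | ⟨rfl, rfl⟩⟩ | k | k
        · exact hv'
        · simpa only [Sd, Cp_comm p q, be_comm c (a := p) (b := q)] using hv'
        exacts [absurd k.1 g.2.1.ne', absurd k.1 g.2.2.1.ne']
      rw [sw 0 1 (by decide), sw 1 0 (by decide)] at this
      omega
    refine ih _ (hn ▸ Set.ncard_lt_ncard ⟨?_, fun k => (k ⟨g.fs, ne, k1⟩).2.1 rfl⟩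
      (Set.toFinite _)) E p q s l hv' rfl
    rintro F ⟨F1, F2, F3⟩
    have i := ex m F F1 F2 F3
    have F4 : F ≠ D := by
      rintro rfl
      rw [(two_faces c h g f ne.symm t).1] at i
      exact absurd i (by decide)
    exact ⟨F1, F4, by simpa [i] using k3 F F1 F4 F2⟩
  obtain ⟨D, w, f⟩ := h.first e h1 h2
  obtain ⟨a, b, w, f, hv⟩ := no D f.fs
  exact main _ D a b w f hv rfl

end Pool.Agent.Lib.MP_ad48ef_co
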