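import Pool.Agent.Lib.MP_ad48ef_co.Sem
import Pool.Agent.Shared.Planar.Face

/-!
# Soundness of the simple rules and of the minor rule
-/

namespace Pool.Agent.Lib.MP_ad48ef_co

open Pool.Agent.Shared Pool.Agent.Shared.Planar

variable {X : Type} {P : Par} {C : Ctx P X} {ρ : ℕ → X} {M c : ℕ} {ih : Pr}

namespace Ctx

theorem rC1_ok (h : C.St ρ M) (e : rC1 M c ≠ 0) : False := by
  rw [rC1_eq] at e
  obtain ⟨p, h1, h2⟩ := and_ne (nz1_0 (ok_ne e).1)
  obtain ⟨k1, k2, k3⟩ := tb_tri h1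
  have m := tb_MW h2
  have a1 := h (p / 192) (p % 192) (by omega) (by rwa [Nat.div_add_mod])
  have a2 := h (p / 192) (64 + p % 192) (by omega)
    (by rwa [show 192 * (p / 192) + (64 + p % 192) = 64 + p by omega])
  have a3 := h (p / 192) (128 + p % 192) (by omega)
    (by rwa [show 192 * (p / 192) + (128 + p % 192) = 128 + p by omega])
  have b2 := a2.2.2.1 (by omega) (by omega)
  have b3 := a3.2.2.2 (by omega)
  rw [Nat.add_sub_cancel_left] at b2 b3
  exact (a1.1 m).elim b3 b2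

theorem lane_mul {k : ℕ} (hk : k < 2 ^ 64) (y : ℕ) : (∀ p, y.testBit p = true → p % 64 = 0) →
    ∀ p, (y * k).testBit p = true → y.testBit (p - p % 64) = true := by
  induction y using Nat.strong_induction_on with
  | _ y ih =>
    intro h p e
    rcases Nat.eq_zero_or_pos y with rfl | y0
    · simp at e
    have h1 : y % 2 ^ 64 ≤ 1 := by
      refine Nat.lt_succ_iff.1 (Nat.lt_pow_two_of_testBit (n := 1) _ fun i hi => ?_)
      by_contra m
      rw [Bool.not_eq_false, Nat.testBit_mod_two_pow, Bool.and_eq_true, decide_eq_true_eq] at m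
      have := h i m.2
      omega
    have h2 : y * k = 2 ^ 64 * (y / 2 ^ 64 * k) + y % 2 ^ 64 * k := by
      rw [← mul_assoc, ← add_mul, Nat.div_add_mod]
    have h3 : y % 2 ^ 64 * k < 2 ^ 64 := lt_of_le_of_lt (by nlinarith) hk
    rw [h2, Nat.testBit_two_pow_mul_add _ h3] at e
    split_ifs at e with m
    · have : y % 2 ^ 64 = 1 := by
        by_contra z
        rw [show y % 2 ^ 64 = 0 by omega] at e
        simp at e
      rw [show p - p % 64 = 0 by omega]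
      have := congrArg (fun x => Nat.testBit x 0) this
      simpa [Nat.testBit_mod_two_pow] using this
    · have := ih (y / 2 ^ 64) (Nat.div_lt_self y0 (by norm_num)) (fun q hq => by
        rw [Nat.testBit_div_two_pow] at hq
        have := h _ hq
        omega) _ e
      rw [Nat.testBit_div_two_pow] at this
      rwa [show p - p % 64 = p - 64 - (p - 64) % 64 + 64 by omega]

theorem tb_fo {x n q : ℕ} (h : (fo x (192 * n)).testBit q = true) :
    ∃ a, x.testBit (192 * a + q) = true := by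
  rw [fo, tb_or, tb_sr, Bool.or_eq_true] at h
  exact h.elim (fun h => ⟨0, by simpa using h⟩) fun h => ⟨n, h⟩

theorem rDA_ok (hi : C.Snd ih) (hH : C.Hub ρ) (h : C.St ρ M) (e : rDA ih M c ≠ 0) : False := by
  rw [rDA_eq] at e
  refine hi _ _ ρ hH (h.rc (tk_lt' c) (Rw.ofN fun w hw => ?_)) e
  rw [tb_and, show 4294967295 = 2 ^ 32 - 1 from rfl, Nat.testBit_two_pow_sub_one,
    Bool.and_eq_true, decide_eq_true_eq] at hw
  refine ⟨by omega, fun k => ?_⟩
  obtain ⟨a1, e⟩ := tb_fo (n := 1) hw.1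
  obtain ⟨a2, e⟩ := tb_fo (n := 2) e
  obtain ⟨a3, e⟩ := tb_fo (n := 4) e
  obtain ⟨a4, e⟩ := tb_fo (n := 8) e
  obtain ⟨a5, e⟩ := tb_fo (n := 16) e
  obtain ⟨k1, k2, k3⟩ := tb_tri e
  have key : ∀ p, p % 64 = 0 → p < 192 → (Nat.lor M (Nat.mul (cl3 M (tk c)) (2 ^ 32 - 1))).testBit
      (p + (192 * a5 + (192 * a4 + (192 * a3 + (192 * a2 + (192 * a1 + w)))))) = true →
      Fact C.G C.Reg (ρ (a1 + a2 + a3 + a4 + a5)) ρ (p + w) := by
    intro p p1 p2 e
    rw [tb_or, Bool.or_eq_true] at e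
    rcases e with e | e
    · exact h _ _ (by omega) (by convert e using 2; omega)
    · have := (tb_cl3 (lane_mul (by norm_num) _ (fun _ z => (tb_cl3 z).1) _ e)).2
      have l := tk_lt c
      exact fact_col p1 p2 (tk_lt' c) (by omega) k.symm
        (h _ _ (by omega) (by convert this using 2; omega))
  have b1 := (key 0 rfl (by omega) (by simpa using k1)).1 (by omega)
  have b2 := (key 64 rfl (by omega) k2).2.2.1 (by omega) (by omega)
  have b3 := (key 128 rfl (by omega) k3).2.2.2 (by omega)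
  rw [Nat.add_sub_cancel_left] at b2 b3
  rw [zero_add] at b1
  exact b1.elim b3 b2

theorem rDR_ok (hi : C.Snd ih) (hH : C.Hub ρ) (h : C.St ρ M) (e : rDR P ih M c ≠ 0) : False := by
  rw [rDR_eq] at e
  obtain ⟨h1, e⟩ := ok_ne e
  obtain ⟨h1, h2⟩ := or0 h1
  refine hi _ _ ρ hH (h.syN (tk_lt'' _) (tk_lt'' _) fun k => ?_) e
  have r := (h.row (tk c)).or (k ▸ h.row (tk (Nat.shiftRight c 5)))
  generalize Nat.lor (rw3 M (tk c)) (rw3 M (tk (Nat.shiftRight c 5))) = R at *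
  have n : ∀ g, P.rim.testBit g = true → ρ (tk c) ≠ C.hub g := fun g hg => by
    rw [← hH g (by have := C.rim g hg; omega)]
    refine r.N (ns0 h2 ?_)
    rw [tb_sl, Nat.add_sub_cancel_left, hg]
    simp
  simp only [Nat.add_eq, Nat.sub_eq] at h1
  have b : ∀ i, bt R i ≤ 1 := fun _ => Nat.and_le_right
  have u : ∀ i j, i < 16 → j < 16 → bt R (48 + i) ≠ 0 → bt R (48 + j) ≠ 0 → i = j :=
    fun i j hi hj a1 a2 => C.uniq i j _ (r.L hi (bt_ne a1)) (r.L hj (bt_ne a2)) n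
  have u1 := u 0 1 (by omega) (by omega)
  have u2 := u 0 2 (by omega) (by omega)
  have u3 := u 1 2 (by omega) (by omega)
  have b1 := b 48
  have b2 := b 49
  have b3 := b 50
  simp only [Nat.reduceAdd, ne_eq] at u1 u2 u3
  by_cases z1 : bt R 48 = 0
  · exact absurd (u3 (by omega) (by omega)) (by omega)
  by_cases z2 : bt R 49 = 0
  · exact absurd (u2 z1 (by omega)) (by omega)
  · exact absurd (u1 z1 z2) (by omega)

theorem cnd1 {c a : ℕ} (e : cnd (Nat.ble 1 c) a 0 ≠ 0) : c ≠ 0 ∧ a ≠ 0 := by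
  rw [cnd_eq] at e
  split_ifs at e with m
  exacts [⟨by have := ble_iff.1 m; omega, e⟩, absurd rfl e]

theorem rSP_ok (hi : C.Snd ih) (hH : C.Hub ρ) (h : C.St ρ M) (e : rSP ih M c ≠ 0) : False := by
  rw [rSP_eq, rS2_eq] at e
  obtain ⟨h1, e⟩ := cnd1 e
  by_cases k : ρ (tk c) = ρ (tk (Nat.shiftRight c 5))
  · exact hi _ _ ρ hH (h.mg (tk_lt' _) (tk_lt' _) k) h1
  · exact hi _ _ ρ hH (h.syN (tk_lt'' _) (tk_lt'' _) k) e

theorem rAD_ok (hi : C.Snd ih) (hH : C.Hub ρ) (h : C.St ρ M) (e : rAD ih M c ≠ 0) : False := by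
  rw [rAD_eq, rS2_eq] at e
  obtain ⟨h1, e⟩ := cnd1 e
  by_cases k : C.G.Adj (ρ (tk c)) (ρ (tk (Nat.shiftRight c 5)))
  · exact hi _ _ ρ hH (h.syA (tk_lt' _) (tk_lt' _) k) h1
  · exact hi _ _ ρ hH (h.syF (tk_lt'' _) (tk_lt'' _) k) e

theorem rFA_ok (hH : C.Hub ρ) (h : C.St ρ M) (e : rFA P M c ≠ 0) : False := by
  rw [rFA_eq] at e
  obtain ⟨h1, e⟩ := mul_ne (nz1_0 (ok_ne e).1)
  obtain ⟨q, hq⟩ := ex_bit e
  obtain ⟨m, hq⟩ := tb_lo.1 hq
  rw [tb_and, Bool.and_eq_true] at hq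
  obtain ⟨k1, k2, k3⟩ := C.far _ _ (bt_ne h1)
  exact k3 (ρ q) (hH (tk c) (by omega) ▸ (h.row _).W m hq.1)
    (hH (tk (Nat.shiftRight c 5)) (by omega) ▸ (h.row _).W m hq.2)

theorem rSE_ok (hH : C.Hub ρ) (h : C.St ρ M) (e : rSE P M c ≠ 0) : False := by
  rw [rSE_eq] at e
  obtain ⟨h1, e⟩ := or0 (ok_ne e).1
  obtain ⟨h1, h2⟩ := mul_ne (nz1_0 h1)
  obtain ⟨k1, k2⟩ := C.sea h1
  obtain ⟨g, g1, g2, g3⟩ := k2 _ (hH P.sc (by omega) ▸ (h.row _).W (tk_lt' c) (bt_ne h2))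
  refine (h.row (tk c)).N (b := g) (ns0 e ?_) (g3.trans (hH g (by omega)).symm)
  rw [tb_sl, Nat.add_sub_cancel_left, g2]
  simp

/-- The hubs outside `Z` dominate all real vertices. -/
def Dom (C : Ctx P X) (Z : ℕ) : Prop :=
  ∀ r v, C.Reg r v → ∃ h, h < P.m ∧ Z.testBit h = false ∧ C.G.Adj v (C.hub h)

theorem rAT_ok {Z : ℕ} (hZ : C.Dom Z) (hH : C.Hub ρ) (h : C.St ρ M) (e : rAT P Z M c ≠ 0) :
    False := by
  rw [rAT_eq] at e
  obtain ⟨h1, e⟩ := or0 (ok_ne e).1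
  have l := tk_lt (Nat.shiftRight c 5)
  have hc := (cls_ok hH h l h1).1
  generalize tk (Nat.shiftRight c 5) = cu at *
  have m14 := C.m14
  have key : ∀ g, g < P.m → Z.testBit g = false → C.G.Adj (ρ (tk c)) (C.hub g) →
      (if cu < P.m then ones P.m else row P.Y (cu - 16)).testBit g = true → False := by
    intro g g1 g2 g3 g4
    have := ns0 e (i := g) (by rw [C.tabs_ok.2.1]; exact tb_rt.2 ⟨by omega, l, g4⟩)
    rw [tb_or, g2, Bool.or_false, tb_sr] at this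
    exact (h.row _).F (by omega) this (by rwa [hH g (by omega)])
  rcases hc with ⟨k1, k2⟩ | ⟨r, rfl, k1, k2⟩
  · obtain ⟨r, hr⟩ := C.real cu k1
    obtain ⟨g, g1, g2, g3⟩ := hZ r _ (k2 ▸ hr)
    refine key g g1 g2 g3 ?_
    rw [if_pos k1]
    exact tb_ones.2 g1
  · obtain ⟨g, g1, g2, g3⟩ := hZ r _ k1
    refine key g g1 g2 g3 ?_
    rw [if_neg (by omega), Nat.add_sub_cancel_left]
    exact C.mem r g (by omega) (C.closed r _ _ k1 k2 g3)

end Ctx

end Pool.Agent.Lib.MP_ad48ef_co
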