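import Pool.Agent.Lib.MP_ad48ef_co.Sound1

/-!
# Soundness of the link, domination and lemma rules
-/

namespace Pool.Agent.Lib.MP_ad48ef_co

open Pool.Agent.Shared Pool.Agent.Shared.Planar

variable {X : Type} {P : Par} {C : Ctx P X} {ρ : ℕ → X} {M c : ℕ} {ih : Pr}

theorem tb_iff {x i : ℕ} : tb x i = true ↔ x.testBit i = true := by
  constructor
  · intro h
    exact bt_ne (by rw [Nat.eq_of_beq_eq_true h]; norm_num)
  · intro h
    have h1 : bt x i ≤ 1 := Nat.and_le_right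
    have h2 : bt x i ≠ 0 := fun k => by rw [bt_zero k] at h; cases h
    rw [tb, show bt x i = 1 by omega]; rfl

namespace Ctx

/-- The vertex `v` is described by the specification `s`. -/
def Rz (C : Ctx P X) (s : ℕ) (v : X) : Prop :=
  19 ≤ s ∨ (s < P.m ∧ v = C.hub s) ∨ ∃ r, s = 16 + r ∧ C.Reg r v

theorem rw_ft {s r : ℕ} {x : X} (hH : C.Hub ρ) (e : s = 16 + r) (k : C.Reg r x) :
    C.Rw x ρ (rw3 P.ft s) := by
  intro q hq
  rw [C.tabs_ok.2.2.1, Par.ft', tb_rt, e, Nat.add_sub_cancel_left] at hq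
  exact rw_fr hH k q hq.2.2

theorem pickR_ok {s v S : ℕ} {x y : X} (hi : C.Snd ih) (hH : C.Hub ρ) (h : C.St ρ M) (hv : v < 48)
    (hs : C.Rz s y) (hS : Msk S fun b => b < 48 ∧ ρ b = x) (w : Wk C.G x y) (w' : Wk C.G y (ρ v))
    (e : pickR P ih s v M S c ≠ 0) : False := by
  have m14 := C.m14
  have key : ∀ σ : ℕ → X, (∀ b, σ b = ρ b ∨ σ b = y) → C.Rw y σ (Nat.lor S (one v)) := by
    intro σ hσ
    refine Rw.or (fun b hb => ⟨by have := (hS b hb).1; omega, factW (hS b hb).1 ?_⟩)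
      (Rw.oneW hv ?_)
    · rcases hσ b with k | k <;> rw [k]
      exacts [(hS b hb).2 ▸ w.symm, Or.inl rfl]
    · rcases hσ v with k | k <;> rw [k]
      exacts [w', Or.inl rfl]
  simp only [pickR_eq, cnd_eq, ble_iff] at e
  split_ifs at e with h1 h2
  · obtain ⟨k1, rfl⟩ : s < P.m ∧ y = C.hub s := by
      rcases hs with k | k | ⟨r, k, -⟩
      exacts [by omega, k, by omega]
    exact hi _ _ ρ hH (h.rc (by omega) (hH s (by omega) ▸ key ρ fun _ => Or.inl rfl)) e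
  · exact hi _ _ ρ hH h e
  · obtain ⟨k2, e, -, k4, k5⟩ := fresh_ok hH h (tk_lt' c) y e
    rw [Nat.sub_eq] at k2
    obtain ⟨r, k0, k1⟩ : ∃ r, s = 16 + r ∧ C.Reg r y := by
      rcases hs with k | k | k
      exacts [by omega, by omega, k]
    refine hi _ _ _ k4 (k5 _ ((key _ fun b => ?_).or (rw_ft k4 k0 k1))) e
    by_cases m : b = tk c
    · rw [m, Function.update_self]; exact Or.inr rfl
    · rw [Function.update_of_ne m]; exact Or.inl rfl

theorem pickL_ok {s s2 u v : ℕ} {x y : X} (hi : C.Snd ih) (hH : C.Hub ρ) (h : C.St ρ M)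
    (hu : u < 48) (hv : v < 48) (ha : ∀ t, fr3 M t = true → v ≠ t) (hs : C.Rz s x)
    (hs2 : C.Rz s2 y) (w1 : Wk C.G (ρ u) x) (w2 : Wk C.G x y) (w3 : Wk C.G y (ρ v))
    (e : pickL P ih s s2 u v M c ≠ 0) : False := by
  have m14 := C.m14
  simp only [pickL_eq, cnd_eq, ble_iff] at e
  split_ifs at e with h1 h2
  · obtain ⟨k1, rfl⟩ : s < P.m ∧ x = C.hub s := by
      rcases hs with k | k | ⟨r, k, -⟩
      exacts [by omega, k, by omega]
    refine pickR_ok hi hH (h.syW hu (by omega) (hH s (by omega) ▸ w1)) hv hs2 (fun b hb => ?_)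
      w2 w3 e
    obtain rfl := tb_one.1 hb
    exact ⟨by omega, hH _ (by omega)⟩
  · exact pickR_ok hi hH h hv hs2 (fun q e => by simp at e) w2 w3 e
  · obtain ⟨k2, e, k3, k4, k5⟩ := fresh_ok hH h (tk_lt' c) x e
    rw [Nat.sub_eq] at k2
    obtain ⟨r, k0, k1⟩ : ∃ r, s = 16 + r ∧ C.Reg r x := by
      rcases hs with k | k | k
      exacts [by omega, by omega, k]
    refine pickR_ok hi k4 (k5 _ ((Rw.oneW hu ?_).or (rw_ft k4 k0 k1))) hv hs2 (fun b hb => ?_)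
      w2 (by rwa [Function.update_of_ne (ha _ k3)]) e
    · by_cases m : u = tk c
      · rw [m, Function.update_self]; exact Or.inl rfl
      · rw [Function.update_of_ne m]; exact w1.symm
    · obtain rfl := tb_one.1 hb
      exact ⟨tk_lt' c, Function.update_self ..⟩

theorem skip_ok {u s : ℕ} {x : X} (hH : C.Hub ρ) (h : C.St ρ M) (hs : C.Rz s x)
    (w : Wk C.G (ρ u) x) : (fn16 (rw3 M u)).testBit s = false := by
  by_contra k
  rw [Bool.not_eq_false, fn16, tb_and, tb_and, tb_sr, tb_sr, show 65535 = 2 ^ 16 - 1 from rfl,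
    Nat.testBit_two_pow_sub_one] at k
  simp only [Bool.and_eq_true, decide_eq_true_eq] at k
  have m14 := C.m14
  obtain ⟨k1, rfl⟩ : s < P.m ∧ x = C.hub s := by
    rcases hs with k | k | ⟨r, k, -⟩
    exacts [by omega, k, by omega]
  rw [← hH s (by omega)] at w
  exact w.elim ((h.row u).N k.1.2) ((h.row u).F (by omega) k.1.1)

theorem lnk_ok {u v : ℕ} {x y : X} (hi : C.Snd ih) (hH : C.Hub ρ) (h : C.St ρ M) (hu : u < 48)
    (hv : v < 48) (ha : ∀ t, fr3 M t = true → v ≠ t) (w1 : Wk C.G (ρ u) x)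
    (w2 : Wk C.G x y) (w3 : Wk C.G y (ρ v)) (n : ℕ) : ∀ e c,
    (lkS P ih M u v (fn16 (rw3 M u)) (fn16 (rw3 M v)))^[n] (fun _ c => c) e c ≠ 0 →
      ∀ s ∈ kids n e, C.Rz s.1 x → C.Rz s.2 y → False := by
  induction n with
  | zero => intro _ _ _ s hs; cases hs
  | succ n rc =>
    intro e c k s hs r1 r2
    rw [kids] at hs
    rw [Function.iterate_succ_apply', lkS_eq] at k
    simp only [cnd_eq, beq_iff] at k
    split_ifs at hs k with h1 h2
    · cases hs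
    · rw [lkT_eq] at k
      obtain ⟨k1, k2⟩ := cnd1 k
      rcases List.mem_cons.1 hs with rfl | hs
      · exact pickL_ok hi hH h hu hv ha r1 r2 w1 w2 w3 k1
      · exact rc _ _ k2 s hs r1 r2
    · rcases List.mem_cons.1 hs with rfl | hs
      · obtain ⟨i, i1, i2⟩ := and_ne h2
        obtain rfl := Nat.testBit_one_eq_true_iff_self_eq_zero.1 i2
        rw [tb_or, tb_sr, tb_sr, add_zero, add_zero, skip_ok hH h r1 w1,
          skip_ok hH h r2 w3.symm] at i1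
        cases i1
      · exact rc _ _ k s hs r1 r2

theorem Cl.hub {c : ℕ} {v : X} (h : C.Cl c v) (k : c < 16) : c < P.m ∧ v = C.hub c := by
  rcases h with h | ⟨r, h, -⟩
  exacts [h, by omega]

theorem Cl.reg {c : ℕ} {v : X} (h : C.Cl c v) (k : ¬ c < 16) :
    C.Reg (c - 16) v ∧ ∀ h, P.rim.testBit h = true → v ≠ C.hub h := by
  have := C.m14
  rcases h with h | ⟨r, rfl, h⟩
  exacts [by omega, by simpa using h]

theorem Cl.real {c : ℕ} {v : X} (h : C.Cl c v) : ∃ r, C.Reg r v := by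
  rcases h with ⟨h, rfl⟩ | ⟨r, -, h, -⟩
  exacts [C.real c h, ⟨r, h⟩]

theorem cmp_aux {c r : ℕ} {b : X} (hc : c < P.m) (hb : C.Reg r b)
    (hn : ∀ h, P.rim.testBit h = true → b ≠ C.hub h) (w : Wk C.G (C.hub c) b) :
    (tb (row P.Y r) c && (Nat.beq P.sn 0 || !Nat.beq c P.sc ||
      !sub (Nat.land P.sn (row P.Y r)) P.rim)) = true := by
  have h1 : C.Reg r (C.hub c) := w.elim (fun e => e ▸ hb) fun e => C.closed r _ _ hb hn e.symm
  rw [Bool.and_eq_true, tb_iff]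
  refine ⟨C.mem r c (by omega) h1, ?_⟩
  by_contra k
  simp only [Bool.or_eq_true, Bool.not_eq_true', not_or, Bool.not_eq_false, beq_iff] at k
  obtain ⟨⟨k1, rfl⟩, k3⟩ := k
  obtain ⟨g, g1, g2, rfl⟩ := (C.sea k1).2 b w
  exact hn g (sub_tb k3 (by rw [tb_and, g2, C.mem r g (by omega) hb]; rfl)) rfl

theorem x0h (C : Ctx P X) : C.St C.hub P.X0 := C.x0 _ fun _ _ => rfl

theorem cmp_ok {c d : ℕ} {a b : X} (h : C.Cl c a) (k : C.Cl d b) (w : Wk C.G a b) :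
    cmp P c d = true := by
  rw [cmp]
  split_ifs with h1 h2 h3
  · obtain ⟨c1, rfl⟩ := h.hub h1
    obtain ⟨d1, rfl⟩ := k.hub h2
    by_contra z
    simp only [Bool.or_eq_true, Bool.not_eq_true', not_or, Bool.not_eq_false, beq_iff, tb_iff] at z
    rcases w with w | w
    · exact z.1 (C.inj c d c1 d1 w)
    · exact (C.x0h.row c).F (by omega) z.2 w
  · obtain ⟨c1, rfl⟩ := h.hub h1
    exact cmp_aux c1 (k.reg h2).1 (k.reg h2).2 w
  · obtain ⟨c1, rfl⟩ := k.hub h3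
    exact cmp_aux c1 (h.reg h1).1 (h.reg h1).2 w.symm
  · have := C.uniq _ _ b (w.elim (fun e => e ▸ (h.reg h1).1)
      fun e => C.closed _ _ _ (h.reg h1).1 (h.reg h1).2 e) (k.reg h3).1 (k.reg h3).2
    exact beq_iff.2 (by omega)

theorem cov_ok {s c : ℕ} {v : X} (h : C.Cl c v) (k : cov P s c = true) : C.Rz s v := by
  simp only [cov, Bool.or_eq_true, Bool.and_eq_true, ble_iff, beq_iff, tb_iff] at k
  rcases k with (k | rfl) | ⟨⟨k1, k2⟩, k3⟩
  · exact Or.inl k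
  · rcases h with h | ⟨r, h, h', -⟩
    exacts [Or.inr (Or.inl h), Or.inr (Or.inr ⟨r, h, h'⟩)]
  · by_cases m : 19 ≤ s
    · exact Or.inl m
    · obtain ⟨c1, rfl⟩ := h.hub (by omega)
      exact Or.inr (Or.inr ⟨s - 16, by omega, (C.mem' _ _ (by omega) k3).2⟩)

theorem cl_memA {c : ℕ} {v : X} (h : C.Cl c v) : c ∈ List.range P.m ++ [16, 17, 18] := by
  rcases h with h | ⟨r, rfl, h, -⟩
  · exact List.mem_append_left _ (List.mem_range.2 h.1)
  · have := C.lt3 _ _ h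
    refine List.mem_append_right _ ?_
    simp only [List.mem_cons]
    omega

theorem cl_ex {r : ℕ} {v : X} (h : C.Reg r v) :
    ∃ c ∈ (List.range P.m).filter (tb P.rim) ++ [16, 17, 18], C.Cl c v := by
  by_cases m : ∃ g, P.rim.testBit g = true ∧ v = C.hub g
  · obtain ⟨g, g1, g2⟩ := m
    exact ⟨g, List.mem_append_left _ (List.mem_filter.2 ⟨List.mem_range.2 (C.rim g g1),
      tb_iff.2 g1⟩), Or.inl ⟨C.rim g g1, g2⟩⟩
  · refine ⟨16 + r, List.mem_append_right _ ?_, Or.inr ⟨r, rfl, h, fun g g1 g2 => m ⟨g, g1, g2⟩⟩⟩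
    have := C.lt3 _ _ h
    simp only [List.mem_cons]
    omega

theorem wk_real {a b : X} (w : Wk C.G a b) (h : ∃ r, C.Reg r a) : ∃ r, C.Reg r b :=
  w.elim (fun e => e ▸ h) (C.adjR a b)

theorem w0_ok {a b : ℕ} (h : w0 P a b = true) : a < 16 ∧ b < 16 ∧ Wk C.G (C.hub a) (C.hub b) := by
  simp only [w0, Bool.and_eq_true, ble_iff, tb_iff] at h
  exact ⟨by omega, by omega, (C.x0h.row a).W (by omega) h.2⟩

theorem far_no {c d : ℕ} {a b y : X} (h : C.Cl c a) (k : C.Cl d b) (w : Wk C.G a y)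
    (w' : Wk C.G b y) : ¬ tb (row P.far c) d = true := by
  intro e
  obtain ⟨k1, k2, k3⟩ := C.far c d (tb_iff.1 e)
  have := C.m14
  exact k3 y ((h.hub (by omega)).2 ▸ w) ((k.hub (by omega)).2 ▸ w')

theorem tab_ok {cu cv : ℕ} {a b : X} (h : C.Cl cu a) (k : C.Cl cv b) :
    ∃ x y, Wk C.G a x ∧ Wk C.G x y ∧ Wk C.G y b ∧
      ∃ s ∈ kids 16 (rw3 P.tab (Nat.add (Nat.mul 19 cu) cv)), C.Rz s.1 x ∧ C.Rz s.2 y := by
  obtain ⟨r, hr⟩ := h.real
  obtain ⟨s, hs⟩ := k.real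
  obtain ⟨x, y, w1, w2, w3⟩ := C.diam a b r s hr hs
  obtain ⟨rx, hx⟩ := wk_real w1 h.real
  obtain ⟨ry, hy⟩ := wk_real w3.symm k.real
  obtain ⟨cx, mx, hx⟩ := cl_ex hx
  obtain ⟨cy, my, hy⟩ := cl_ex hy
  have t := (Bool.and_eq_true_iff.1 C.tab).2
  simp only [tabOK, List.all_eq_true, Bool.or_eq_true, Bool.not_eq_true', List.any_eq_true,
    Bool.and_eq_true, List.mem_range] at t
  have t := t cu (cl_memA h) cv (cl_memA k) cx mx
  have hit' : ∀ {l c d x y}, hit P l c d = true → C.Cl c x → C.Cl d y →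
      ∃ s ∈ l, C.Rz s.1 x ∧ C.Rz s.2 y := by
    intro l c d x y e h1 h2
    simp only [hit, List.any_eq_true, Bool.and_eq_true] at e
    obtain ⟨s, m, e⟩ := e
    exact ⟨s, m, cov_ok h1 e.1, cov_ok h2 e.2⟩
  rw [cmp_ok h hx w1] at t
  have t := (t.resolve_left (by simpa using far_no hx k w2 w3.symm)) cy my
  rw [cmp_ok hx hy w2, cmp_ok hy k w3] at t
  rcases t with (t | t) | ⟨g, g1, ⟨⟨t1, t2⟩, t3⟩ | ⟨⟨t1, t2⟩, t3⟩⟩
  · exact absurd t (by simpa using far_no hy h w2.symm w1)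
  · exact ⟨x, y, w1, w2, w3, hit' t hx hy⟩
  · obtain ⟨a1, -, a2⟩ := w0_ok (C := C) t1
    obtain ⟨-, a3, a4⟩ := w0_ok (C := C) t2
    exact ⟨x, C.hub g, w1, (hx.hub a1).2 ▸ a2, (k.hub a3).2 ▸ a4, hit' t3 hx (Or.inl ⟨g1, rfl⟩)⟩
  · obtain ⟨a1, -, a2⟩ := w0_ok (C := C) t1
    obtain ⟨-, a3, a4⟩ := w0_ok (C := C) t2
    exact ⟨C.hub g, y, (h.hub a1).2 ▸ a2, (hy.hub a3).2 ▸ a4, w3, hit' t3 (Or.inl ⟨g1, rfl⟩) hy⟩

theorem rLK_ok (hi : C.Snd ih) (hH : C.Hub ρ) (h : C.St ρ M) (e : rLK P ih M c ≠ 0) : False := by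
  rw [rLK_eq] at e
  obtain ⟨h1, e⟩ := ok_ne e
  obtain ⟨h1, h2⟩ := or0 h1
  obtain ⟨h2, h3⟩ := cls_ok hH h (tk_lt _) h2
  obtain ⟨x, y, w1, w2, w3, s, m, r1, r2⟩ := tab_ok (cls_ok hH h (tk_lt _) h1).1 h2
  exact lnk_ok hi hH h (tk_lt' _) (tk_lt' _) h3 w1 w2 w3 16 _ _ e s m r1 r2

end Ctx

end Pool.Agent.Lib.MP_ad48ef_co
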