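import Pool.Agent.Lib.MP_ad48ef_co.Front3
import Pool.Agent.Lib.MP_ad48ef_co.NMu
import Pool.Agent.Lib.MP_ad48ef_co.CS
import Pool.Agent.Lib.MP_ad48ef_co.CT
import Pool.Agent.Lib.MP_ad48ef_co.C31_33100
import Pool.Agent.Lib.MP_ad48ef_co.C23_33100
import Pool.Agent.Lib.MP_ad48ef_co.C11_32100
import Pool.Agent.Lib.MP_ad48ef_co.C31_32310
import Pool.Agent.Lib.MP_ad48ef_co.C11_32210
import Pool.Agent.Lib.MP_ad48ef_co.C11_22310
import Pool.Agent.Lib.MP_ad48ef_co.C31_33320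
import Pool.Agent.Lib.MP_ad48ef_co.C23_33320

/-!
# All shapes are refuted
-/

namespace Pool.Agent.Lib.MP_ad48ef_co.Gl

theorem tops3 : Tops3 :=
  List.forall_mem_cons.2 ⟨List.forall_mem_cons.2 ⟨Rup.C40_33300.top.no NM.uns,
    List.forall_mem_nil _⟩,
  List.forall_mem_cons.2 ⟨List.forall_mem_cons.2 ⟨Rup.C31_33200.top.no NM.uns,
    List.forall_mem_cons.2 ⟨Rup.C23_33200.top.no NM.uns,
    List.forall_mem_nil _⟩⟩,
  List.forall_mem_cons.2 ⟨List.forall_mem_cons.2 ⟨Rup.C31_33100.top.no NM.uns,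
    List.forall_mem_cons.2 ⟨Rup.C23_33100.top.no NM.uns,
    List.forall_mem_nil _⟩⟩,
  List.forall_mem_cons.2 ⟨List.forall_mem_cons.2 ⟨Rup.C31_33000.top.no NM.uns,
    List.forall_mem_cons.2 ⟨Rup.C23_33000.top.no NM.uns,
    List.forall_mem_nil _⟩⟩,
  List.forall_mem_cons.2 ⟨List.forall_mem_cons.2 ⟨Rup.C11_32200.top.no NM.uns,
    List.forall_mem_nil _⟩,
  List.forall_mem_cons.2 ⟨List.forall_mem_cons.2 ⟨Rup.C11_32100.top.no NM.uns,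
    List.forall_mem_nil _⟩,
  List.forall_mem_cons.2 ⟨List.forall_mem_cons.2 ⟨Rup.C11_32000.top.no NM.uns,
    List.forall_mem_nil _⟩,
  List.forall_mem_cons.2 ⟨List.forall_mem_cons.2 ⟨Rup.C11_31100.top.no NM.uns,
    List.forall_mem_nil _⟩,
  List.forall_mem_cons.2 ⟨List.forall_mem_cons.2 ⟨Rup.C01_22200.top.no NM.uns,
    List.forall_mem_nil _⟩,
  List.forall_mem_cons.2 ⟨List.forall_mem_cons.2 ⟨Rup.C01_22100.top.no NM.uns,
    List.forall_mem_nil _⟩,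
  List.forall_mem_cons.2 ⟨List.forall_mem_cons.2 ⟨Rup.C31_33310.top.no NM.uns,
    List.forall_mem_cons.2 ⟨Rup.C23_33310.top.no NM.uns,
    List.forall_mem_nil _⟩⟩,
  List.forall_mem_cons.2 ⟨List.forall_mem_cons.2 ⟨Rup.C11_33210.top.no NM.uns,
    List.forall_mem_nil _⟩,
  List.forall_mem_cons.2 ⟨List.forall_mem_cons.2 ⟨Rup.C11_33110.top.no NM.uns,
    List.forall_mem_nil _⟩,
  List.forall_mem_cons.2 ⟨List.forall_mem_cons.2 ⟨Rup.C11_33010.top.no NM.uns,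
    List.forall_mem_nil _⟩,
  List.forall_mem_cons.2 ⟨List.forall_mem_cons.2 ⟨Rup.C31_32310.top.no NM.uns,
    List.forall_mem_cons.2 ⟨Rup.C23_32310.top.no NM.uns,
    List.forall_mem_nil _⟩⟩,
  List.forall_mem_cons.2 ⟨List.forall_mem_cons.2 ⟨Rup.C11_32210.top.no NM.uns,
    List.forall_mem_nil _⟩,
  List.forall_mem_cons.2 ⟨List.forall_mem_cons.2 ⟨Rup.C11_32110.top.no NM.uns,
    List.forall_mem_nil _⟩,
  List.forall_mem_cons.2 ⟨List.forall_mem_cons.2 ⟨Rup.C31_31310.top.no NM.uns,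
    List.forall_mem_cons.2 ⟨Rup.C23_31310.top.no NM.uns,
    List.forall_mem_nil _⟩⟩,
  List.forall_mem_cons.2 ⟨List.forall_mem_cons.2 ⟨Rup.C11_31210.top.no NM.uns,
    List.forall_mem_nil _⟩,
  List.forall_mem_cons.2 ⟨List.forall_mem_cons.2 ⟨Rup.C11_22310.top.no NM.uns,
    List.forall_mem_nil _⟩,
  List.forall_mem_cons.2 ⟨List.forall_mem_cons.2 ⟨Rup.C01_22210.top.no NM.uns,
    List.forall_mem_nil _⟩,
  List.forall_mem_cons.2 ⟨List.forall_mem_cons.2 ⟨Rup.C11_21310.top.no NM.uns,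
    List.forall_mem_nil _⟩,
  List.forall_mem_cons.2 ⟨List.forall_mem_cons.2 ⟨Rup.C31_33320.top.no NM.uns,
    List.forall_mem_cons.2 ⟨Rup.C23_33320.top.no NM.uns,
    List.forall_mem_nil _⟩⟩,
  List.forall_mem_cons.2 ⟨List.forall_mem_cons.2 ⟨Rup.C11_33220.top.no NM.uns,
    List.forall_mem_nil _⟩,
  List.forall_mem_cons.2 ⟨List.forall_mem_cons.2 ⟨Rup.C11_33120.top.no NM.uns,
    List.forall_mem_nil _⟩,
  List.forall_mem_cons.2 ⟨List.forall_mem_cons.2 ⟨Rup.C31_32320.top.no NM.uns,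
    List.forall_mem_cons.2 ⟨Rup.C23_32320.top.no NM.uns,
    List.forall_mem_nil _⟩⟩,
  List.forall_mem_cons.2 ⟨List.forall_mem_cons.2 ⟨Rup.C11_32220.top.no NM.uns,
    List.forall_mem_nil _⟩,
  List.forall_mem_cons.2 ⟨List.forall_mem_cons.2 ⟨Rup.C10_33311.top.no NM.uns,
    List.forall_mem_nil _⟩,
  List.forall_mem_cons.2 ⟨List.forall_mem_cons.2 ⟨Rup.C10_33211.top.no NM.uns,
    List.forall_mem_nil _⟩,
  List.forall_mem_cons.2 ⟨List.forall_mem_cons.2 ⟨Rup.C10_33321.top.no NM.uns,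
    List.forall_mem_nil _⟩,
  List.forall_mem_nil _⟩⟩⟩⟩⟩⟩⟩⟩⟩⟩⟩⟩⟩⟩⟩⟩⟩⟩⟩⟩⟩⟩⟩⟩⟩⟩⟩⟩⟩⟩

end Pool.Agent.Lib.MP_ad48ef_co.Gl
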